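import Mathlib
import Pool.Agent.LibZM.DPoly

set_option autoImplicit false

namespace Pool.Agent.LibZM

open MeasureTheory Set Filter Topology Complex ProbabilityTheory
open scoped NNReal ComplexConjugate

lemma continuous_dp_crit (f : ArithmeticFunction ℝ) (M : ℕ) : Continuous (fun t : ℝ => dp f M (crit t)) := by
  unfold dp
  refine continuous_finsetSum _ fun n _ => ?_
  exact continuous_const.mul (continuous_natCast_cpow_crit n)

lemma norm_dp_crit_le {f : ArithmeticFunction ℝ} (hf : ∀ n, 0 ≤ f n) (M : ℕ) (t : ℝ) : 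
    ‖dp f M (crit t)‖ ≤ ∑ n ∈ Finset.Icc 1 M, f n := by
  unfold dp
  refine (norm_sum_le _ _).trans (Finset.sum_le_sum fun n hn => ?_)
  rw [norm_mul, Complex.norm_real, Real.norm_eq_abs, abs_of_nonneg (hf n)]
  have := norm_natCast_cpow_crit_le (Finset.mem_Icc.mp hn).1 t
  exact mul_le_of_le_one_right (hf n) this

lemma integrable_pair (u : ℝ) (v : ℝ≥0) {m q : ℕ} (hm : 1 ≤ m) (hq : 1 ≤ q) :
    Integrable (fun t => riemannZeta (crit t) * (m:ℂ) ^ (-crit t) * conj ((q:ℂ) ^ (-crit t))) (gaussianReal u v) := by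
  refine Integrable.mono' (g := fun t => 4 + 2 * |t|) 
    ((integrable_const 4).add ((integrable_abs_gaussian u v).const_mul 2)) ?_ (Eventually.of_forall fun t => ?_)
  · refine Continuous.aestronglyMeasurable ?_
    exact (continuous_zeta_crit.mul (continuous_natCast_cpow_crit m)).mul 
      (Complex.continuous_conj.comp (continuous_natCast_cpow_crit q))
  · rw [norm_mul, norm_mul, RCLike.norm_conj]
    have h1 := norm_natCast_cpow_crit_le hm t
    have h2 := norm_natCast_cpow_crit_le hq t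
    have h3 := norm_nonneg ((m:ℂ) ^ (-crit t))
    have h4 := norm_nonneg ((q:ℂ) ^ (-crit t))
    have h5 := norm_nonneg (riemannZeta (crit t))
    calc ‖riemannZeta (crit t)‖ * ‖(m:ℂ) ^ (-crit t)‖ * ‖(q:ℂ) ^ (-crit t)‖ 
        ≤ ‖riemannZeta (crit t)‖ * 1 * 1 := by gcongr
      _ ≤ 4 + 2 * |t| := by rw [mul_one, mul_one]; exact norm_zeta_crit_le t

/-- First twisted moment of zeta against two Dirichlet polynomials. -/
theorem twisted_first (u : ℝ) {v : ℝ≥0} (hv : 4 ≤ v) {p c : ArithmeticFunction ℝ} 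
    (hp : ∀ n, 0 ≤ p n) (hc : ∀ n, 0 ≤ c n) (M X : ℕ) :
    ‖(∫ t, riemannZeta (crit t) * dp p M (crit t) * conj (dp c X (crit t)) ∂(gaussianReal u v)) - 
      ((∑ m ∈ Finset.Icc 1 M, ∑ q ∈ Finset.Icc 1 X, (if m ∣ q then p m * c q * (q:ℝ)⁻¹ else 0) : ℝ) : ℂ)‖ ≤ 
      6 * (X:ℝ) ^ 2 * Real.exp (- v / (16 * (X:ℝ) ^ 2)) * ((∑ m ∈ Finset.Icc 1 M, p m) * (∑ q ∈ Finset.Icc 1 X, c q)) 
      + 3 / √v * ((∑ m ∈ Finset.Icc 1 M, p m * (m:ℝ)⁻¹) * (∑ q ∈ Finset.Icc 1 X, c q)) := by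
  have hv' : (4:ℝ) ≤ v := by exact_mod_cast hv
  have hexp : ∀ t, riemannZeta (crit t) * dp p M (crit t) * conj (dp c X (crit t)) = 
      ∑ m ∈ Finset.Icc 1 M, ∑ q ∈ Finset.Icc 1 X, ((p m * c q : ℝ) : ℂ) * 
        (riemannZeta (crit t) * (m:ℂ) ^ (-crit t) * conj ((q:ℂ) ^ (-crit t))) := by
    intro t
    unfold dp
    rw [map_sum, mul_assoc, Finset.sum_mul_sum, Finset.mul_sum]
    refine Finset.sum_congr rfl fun m _ => ?_
    rw [Finset.mul_sum]
    refine Finset.sum_congr rfl fun q _ => ?_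
    rw [map_mul, Complex.conj_ofReal]
    push_cast
    ring
  simp_rw [hexp]
  rw [integral_finsetSum]
  swap
  · intro m hm
    exact integrable_finsetSum _ fun q hq => (integrable_pair u v (Finset.mem_Icc.mp hm).1 (Finset.mem_Icc.mp hq).1).const_mul _
  have h1 : ∀ m ∈ Finset.Icc 1 M, ∫ t, ∑ q ∈ Finset.Icc 1 X, ((p m * c q : ℝ) : ℂ) * 
        (riemannZeta (crit t) * (m:ℂ) ^ (-crit t) * conj ((q:ℂ) ^ (-crit t))) ∂(gaussianReal u v) = 
      ∑ q ∈ Finset.Icc 1 X, ((p m * c q : ℝ) : ℂ) * 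
       ∫ t, (riemannZeta (crit t) * (m:ℂ) ^ (-crit t) * conj ((q:ℂ) ^ (-crit t))) ∂(gaussianReal u v) := by
    intro m hm
    rw [integral_finsetSum _ fun q hq => (integrable_pair u v (Finset.mem_Icc.mp hm).1 (Finset.mem_Icc.mp hq).1).const_mul _]
    refine Finset.sum_congr rfl fun q _ => ?_
    rw [integral_const_mul]
  rw [Finset.sum_congr rfl h1]
  push_cast
  rw [← Finset.sum_sub_distrib]
  have h2 : ∀ m ∈ Finset.Icc 1 M, ‖∑ q ∈ Finset.Icc 1 X, ((p m : ℂ) * (c q : ℂ)) * 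
       (∫ t, (riemannZeta (crit t) * (m:ℂ) ^ (-crit t) * conj ((q:ℂ) ^ (-crit t))) ∂(gaussianReal u v)) - 
       ∑ q ∈ Finset.Icc 1 X, (((if m ∣ q then p m * c q * (q:ℝ)⁻¹ else 0 : ℝ)) : ℂ)‖ ≤ 
       ∑ q ∈ Finset.Icc 1 X, p m * c q * (6 * (X:ℝ) ^ 2 * Real.exp (- v / (16 * (X:ℝ) ^ 2)) + 3 / (m * √v)) := by
    intro m hm
    have hm1 := (Finset.mem_Icc.mp hm).1
    rw [← Finset.sum_sub_distrib]
    refine (norm_sum_le _ _).trans (Finset.sum_le_sum fun q hq => ?_)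
    have hq1 := (Finset.mem_Icc.mp hq).1
    have hqX : (q:ℝ) ≤ X := by exact_mod_cast (Finset.mem_Icc.mp hq).2
    have hq0 : (0:ℝ) < q := by exact_mod_cast hq1
    have hX0 : (0:ℝ) < X := by linarith
    have key := pair_avg u hv hm1 hq1
    have e : ((p m : ℂ) * (c q : ℂ)) * (∫ t, (riemannZeta (crit t) * (m:ℂ) ^ (-crit t) * conj ((q:ℂ) ^ (-crit t))) ∂(gaussianReal u v)) 
        - (((if m ∣ q then p m * c q * (q:ℝ)⁻¹ else 0 : ℝ)) : ℂ) = ((p m * c q : ℝ) : ℂ) * 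
        ((∫ t, (riemannZeta (crit t) * (m:ℂ) ^ (-crit t) * conj ((q:ℂ) ^ (-crit t))) ∂(gaussianReal u v)) - (if m ∣ q then 1 / (q:ℂ) else 0)) := by
      split_ifs
      · push_cast; ring
      · push_cast; ring
    rw [e, norm_mul, Complex.norm_real, Real.norm_eq_abs, abs_of_nonneg (mul_nonneg (hp m) (hc q))]
    refine mul_le_mul_of_nonneg_left (key.trans ?_) (mul_nonneg (hp m) (hc q))
    have h3 : Real.exp (- v / (16 * (q:ℝ) ^ 2)) ≤ Real.exp (- v / (16 * (X:ℝ) ^ 2)) := by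
      apply Real.exp_le_exp.mpr
      rw [neg_div, neg_div, neg_le_neg_iff]
      gcongr
    gcongr
  refine (norm_sum_le _ _).trans ((Finset.sum_le_sum h2).trans (le_of_eq ?_))
  rw [Finset.sum_mul_sum, Finset.sum_mul_sum, Finset.mul_sum, Finset.mul_sum, ← Finset.sum_add_distrib]
  refine Finset.sum_congr rfl fun m hm => ?_
  rw [Finset.mul_sum, Finset.mul_sum, ← Finset.sum_add_distrib]
  refine Finset.sum_congr rfl fun q _ => ?_
  have hm0 : (0:ℝ) < m := by exact_mod_cast (Finset.mem_Icc.mp hm).1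
  have hs0 : 0 < √(v:ℝ) := Real.sqrt_pos.mpr (by linarith)
  field_simp

/-- Mean square of a Dirichlet polynomial. -/
theorem mean_square (u : ℝ) {v : ℝ≥0} (hv : 4 ≤ v) {c : ArithmeticFunction ℝ} 
    (hc : ∀ n, 0 ≤ c n) (X : ℕ) :
    |(∫ t, ‖dp c X (crit t)‖ ^ 2 ∂(gaussianReal u v)) - ∑ q ∈ Finset.Icc 1 X, (c q) ^ 2 * (q:ℝ)⁻¹| ≤ 
      3 * (X:ℝ) ^ 2 * Real.exp (- v / (16 * (X:ℝ) ^ 2)) * (∑ q ∈ Finset.Icc 1 X, c q) ^ 2 := by
  have hexp : ∀ t, ((‖dp c X (crit t)‖ ^ 2 : ℝ) : ℂ) = 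
      ∑ q ∈ Finset.Icc 1 X, ∑ r ∈ Finset.Icc 1 X, ((c q * c r : ℝ) : ℂ) * 
        (((1:ℕ):ℂ) ^ (-crit t) * (q:ℂ) ^ (-crit t) * conj ((r:ℂ) ^ (-crit t))) := by
    intro t
    have : ((‖dp c X (crit t)‖ ^ 2 : ℝ) : ℂ) = dp c X (crit t) * conj (dp c X (crit t)) := by
      rw [Complex.mul_conj, Complex.normSq_eq_norm_sq]
    rw [this]
    unfold dp
    rw [map_sum, Finset.sum_mul_sum]
    refine Finset.sum_congr rfl fun m _ => ?_
    refine Finset.sum_congr rfl fun q _ => ?_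
    rw [map_mul, Complex.conj_ofReal]
    simp only [Nat.cast_one, Complex.one_cpow]
    push_cast
    ring
  have hint : ∀ q ∈ Finset.Icc 1 X, ∀ r ∈ Finset.Icc 1 X, Integrable (fun t => 
      (((1:ℕ):ℂ) ^ (-crit t) * (q:ℂ) ^ (-crit t) * conj ((r:ℂ) ^ (-crit t)))) (gaussianReal u v) := by
    intro q hq r hr
    refine Integrable.mono' (g := fun t => 1) (integrable_const 1) ?_ (Eventually.of_forall fun t => ?_)
    · refine Continuous.aestronglyMeasurable ?_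
      exact ((continuous_natCast_cpow_crit 1).mul (continuous_natCast_cpow_crit q)).mul 
        (Complex.continuous_conj.comp (continuous_natCast_cpow_crit r))
    · rw [norm_mul, norm_mul, RCLike.norm_conj]
      have h0 := norm_natCast_cpow_crit_le (le_refl 1) t
      have h1 := norm_natCast_cpow_crit_le (Finset.mem_Icc.mp hq).1 t
      have h2 := norm_natCast_cpow_crit_le (Finset.mem_Icc.mp hr).1 t
      calc ‖((1:ℕ):ℂ) ^ (-crit t)‖ * ‖(q:ℂ) ^ (-crit t)‖ * ‖(r:ℂ) ^ (-crit t)‖ 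
          ≤ 1 * 1 * 1 := by gcongr
        _ = 1 := by ring
  have e1 : ((∫ t, ‖dp c X (crit t)‖ ^ 2 ∂(gaussianReal u v) : ℝ) : ℂ) = 
      ∑ q ∈ Finset.Icc 1 X, ∑ r ∈ Finset.Icc 1 X, ((c q * c r : ℝ) : ℂ) * triAvg u v 1 q r := by
    rw [← integral_complex_ofReal]
    simp_rw [hexp]
    rw [integral_finsetSum]
    swap
    · intro q hq
      exact integrable_finsetSum _ fun r hr => (hint q hq r hr).const_mul _
    refine Finset.sum_congr rfl fun q hq => ?_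
    rw [integral_finsetSum _ fun r hr => (hint q hq r hr).const_mul _]
    refine Finset.sum_congr rfl fun r hr => ?_
    rw [integral_const_mul]
    rfl
  have e2 : ((∑ q ∈ Finset.Icc 1 X, (c q) ^ 2 * (q:ℝ)⁻¹ : ℝ) : ℂ) = 
      ∑ q ∈ Finset.Icc 1 X, ∑ r ∈ Finset.Icc 1 X, (if q = r then ((c q * c r : ℝ) : ℂ) * triAvg u v 1 q r else 0) := by
    push_cast
    refine Finset.sum_congr rfl fun q hq => ?_
    have hq1 := (Finset.mem_Icc.mp hq).1
    rw [Finset.sum_ite_eq, if_pos hq, triAvg_eq_of_mul_eq u v (le_refl 1) hq1 hq1 (one_mul q)]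
    ring
  rw [← Real.norm_eq_abs, ← Complex.norm_real, Complex.ofReal_sub, e1, e2, ← Finset.sum_sub_distrib]
  refine (norm_sum_le _ _).trans ?_
  have h2 : ∀ q ∈ Finset.Icc 1 X, ‖∑ r ∈ Finset.Icc 1 X, ((c q * c r : ℝ) : ℂ) * triAvg u v 1 q r - 
      ∑ r ∈ Finset.Icc 1 X, (if q = r then ((c q * c r : ℝ) : ℂ) * triAvg u v 1 q r else 0)‖ ≤ 
      ∑ r ∈ Finset.Icc 1 X, c q * c r * (3 * (X:ℝ) ^ 2 * Real.exp (- v / (16 * (X:ℝ) ^ 2))) := by
    intro q hq
    rw [← Finset.sum_sub_distrib]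
    refine (norm_sum_le _ _).trans (Finset.sum_le_sum fun r hr => ?_)
    have hq1 := (Finset.mem_Icc.mp hq).1
    have hr1 := (Finset.mem_Icc.mp hr).1
    have hrX : (r:ℝ) ≤ X := by exact_mod_cast (Finset.mem_Icc.mp hr).2
    have hr0 : (0:ℝ) < r := by exact_mod_cast hr1
    have hX0 : (0:ℝ) < X := by linarith
    have hcc := mul_nonneg (hc q) (hc r)
    split_ifs with h
    · rw [sub_self, norm_zero]; positivity
    · rw [sub_zero, norm_mul, Complex.norm_real, Real.norm_eq_abs, abs_of_nonneg hcc]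
      refine mul_le_mul_of_nonneg_left ?_ hcc
      have := norm_triAvg_le u hv (le_refl 1) hq1 hr1 (by rwa [one_mul])
      refine this.trans ?_
      have h3 : Real.exp (- v / (16 * (r:ℝ) ^ 2)) ≤ Real.exp (- v / (16 * (X:ℝ) ^ 2)) := by
        apply Real.exp_le_exp.mpr
        rw [neg_div, neg_div, neg_le_neg_iff]
        gcongr
      have h4 : (1:ℝ) / ((1:ℕ):ℝ)^2 = 1 := by norm_num
      rw [h4, mul_one]
      gcongr
  refine (Finset.sum_le_sum h2).trans (le_of_eq ?_)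
  rw [pow_two (∑ q ∈ Finset.Icc 1 X, c q), Finset.sum_mul_sum, Finset.mul_sum]
  refine Finset.sum_congr rfl fun q _ => ?_
  rw [Finset.mul_sum]
  refine Finset.sum_congr rfl fun r _ => ?_
  ring

end Pool.Agent.LibZM
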