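import Mathlib
import Pool.Agent.LibZM.Local

set_option autoImplicit false

namespace Pool.Agent.LibZM

open MeasureTheory Set Filter Topology Complex ProbabilityTheory
open scoped NNReal ComplexConjugate

lemma gauss_exp (u : ℝ) (v : ℝ≥0) (s : ℝ) : 
    Integrable (fun t => Real.exp (s * (t - u))) (gaussianReal u v) ∧ 
    ∫ t, Real.exp (s * (t - u)) ∂(gaussianReal u v) = Real.exp (v * s ^ 2 / 2) := by
  have h1 : ∀ t, Real.exp (s * (t - u)) = Real.exp (- (s * u)) * Real.exp (s * t) := by
    intro t; rw [← Real.exp_add]; congr 1; ring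
  have hi := integrable_exp_mul_gaussianReal (μ := u) (v := v) s
  constructor
  · simp_rw [h1]; exact hi.const_mul _
  · simp_rw [h1]
    rw [integral_const_mul]
    have := mgf_gaussianReal (p := gaussianReal u v) (X := id) (μ := u) (v := v) (by simp) s
    simp only [mgf, id] at this
    rw [this, ← Real.exp_add]
    congr 1; ring

lemma tail_bound {u : ℝ} {v : ℝ≥0} (hv : 0 < v) {T R : ℝ} (hR : 0 ≤ R) (hu : R ≤ u) (hu' : u ≤ T - R) :
    ∫ t in (Icc 0 T)ᶜ, (4 + 2 * |t|) ∂(gaussianReal u v) ≤ 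
      Real.exp (- R / √v) * (16 + 8 * u + 36 * √v) := by
  have hv' : (0:ℝ) < v := by exact_mod_cast hv
  set H := √(v:ℝ) with hH
  have hH0 : 0 < H := Real.sqrt_pos.mpr hv'
  have hH2 : H ^ 2 = v := Real.sq_sqrt hv'.le
  have hu0 : 0 ≤ u := hR.trans hu
  -- dominating function
  set G : ℝ → ℝ := fun t => (4 + 2 * u) * (Real.exp (H⁻¹ * (t - u)) + Real.exp (-H⁻¹ * (t - u))) + 
    2 * H * (Real.exp (2 * H⁻¹ * (t - u)) + Real.exp (-(2 * H⁻¹) * (t - u)) + 2) with hG
  obtain ⟨i1, v1⟩ := gauss_exp u v H⁻¹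
  obtain ⟨i2, v2⟩ := gauss_exp u v (-H⁻¹)
  obtain ⟨i3, v3⟩ := gauss_exp u v (2 * H⁻¹)
  obtain ⟨i4, v4⟩ := gauss_exp u v (-(2 * H⁻¹))
  have hGi : Integrable G (gaussianReal u v) := by
    refine Integrable.add ((i1.add i2).const_mul _) (((i3.add i4).add (integrable_const 2)).const_mul _)
  have hGv : ∫ t, G t ∂(gaussianReal u v) = (4 + 2 * u) * (Real.exp (1/2) + Real.exp (1/2)) + 
      2 * H * (Real.exp 2 + Real.exp 2 + 2) := by
    have j1 : Integrable (fun t => (4 + 2 * u) * (Real.exp (H⁻¹ * (t - u)) + Real.exp (-H⁻¹ * (t - u)))) (gaussianReal u v) := 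
      (i1.add i2).const_mul _
    have j2 : Integrable (fun t => 2 * H * (Real.exp (2 * H⁻¹ * (t - u)) + Real.exp (-(2 * H⁻¹) * (t - u)) + 2)) (gaussianReal u v) := 
      ((i3.add i4).add (integrable_const 2)).const_mul _
    have j3 : Integrable (fun t => (Real.exp (2 * H⁻¹ * (t - u)) + Real.exp (-(2 * H⁻¹) * (t - u)))) (gaussianReal u v) := i3.add i4
    rw [hG, integral_add j1 j2, integral_const_mul, integral_const_mul, integral_add i1 i2, 
      integral_add j3 (integrable_const 2), integral_add i3 i4, v1, v2, v3, v4]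
    have e1 : (v:ℝ) * H⁻¹ ^ 2 / 2 = 1/2 := by rw [← hH2]; field_simp
    have e2 : (v:ℝ) * (-H⁻¹) ^ 2 / 2 = 1/2 := by rw [← hH2]; field_simp
    have e3 : (v:ℝ) * (2 * H⁻¹) ^ 2 / 2 = 2 := by rw [← hH2]; field_simp
    have e4 : (v:ℝ) * (-(2 * H⁻¹)) ^ 2 / 2 = 2 := by rw [← hH2]; field_simp
    rw [e1, e2, e3, e4]
    simp
  have hpt : ∀ t ∈ (Icc 0 T)ᶜ, 4 + 2 * |t| ≤ Real.exp (- R / H) * G t := by
    intro t ht
    have hd : R ≤ |t - u| := by
      rw [mem_compl_iff, mem_Icc, not_and_or, not_le, not_le] at ht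
      rcases ht with h | h
      · rw [abs_sub_comm]; refine le_trans ?_ (le_abs_self _); linarith
      · refine le_trans ?_ (le_abs_self _); linarith
    set y := t - u with hy
    have hty : |t| ≤ u + |y| := by
      have : t = u + y := by rw [hy]; ring
      rw [this]
      exact (abs_add_le _ _).trans (by rw [abs_of_nonneg hu0])
    set E := Real.exp (H⁻¹ * y) + Real.exp (-H⁻¹ * y) with hE
    have hEabs : Real.exp (|y| / H) ≤ E := by
      rw [hE]
      rcases abs_cases y with ⟨h, _⟩ | ⟨h, _⟩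
      · rw [h, div_eq_inv_mul]
        linarith [Real.exp_pos (-H⁻¹ * y)]
      · rw [h, div_eq_inv_mul, show H⁻¹ * -y = -H⁻¹ * y by ring]
        linarith [Real.exp_pos (H⁻¹ * y)]
    have hE1 : 1 ≤ Real.exp (-R / H) * E := by
      calc 1 ≤ Real.exp (-R/H + |y| / H) := by
            apply Real.one_le_exp
            rw [← add_div]
            apply div_nonneg _ hH0.le
            linarith
        _ = Real.exp (-R/H) * Real.exp (|y|/H) := Real.exp_add _ _
        _ ≤ Real.exp (-R/H) * E := by gcongr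
    have hyE : |y| ≤ H * E := by
      have h1 : |y| / H ≤ Real.exp (|y| / H) := by
        have := Real.add_one_le_exp (|y| / H); linarith
      have h2 : |y| / H ≤ E := h1.trans hEabs
      rw [div_le_iff₀ hH0] at h2
      linarith
    have hE0 : 0 ≤ E := by positivity
    have hGE : G t = (4 + 2 * u) * E + 2 * H * E ^ 2 := by
      simp only [hG, ← hy]
      have : E ^ 2 = Real.exp (2 * H⁻¹ * y) + Real.exp (-(2 * H⁻¹) * y) + 2 := by
        rw [hE]
        have a1 : Real.exp (2 * H⁻¹ * y) = Real.exp (H⁻¹ * y) ^ 2 := by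
          rw [← Real.exp_nat_mul]; congr 1; push_cast; ring
        have a2 : Real.exp (-(2 * H⁻¹) * y) = Real.exp (-H⁻¹ * y) ^ 2 := by
          rw [← Real.exp_nat_mul]; congr 1; push_cast; ring
        have a3 : Real.exp (H⁻¹ * y) * Real.exp (-H⁻¹ * y) = 1 := by
          rw [← Real.exp_add, neg_mul, add_neg_cancel, Real.exp_zero]
        rw [a1, a2]; nlinarith
      rw [this]
    rw [hGE]
    have k1 : 4 + 2 * u ≤ (4 + 2 * u) * (Real.exp (-R / H) * E) := by
      have : 0 ≤ 4 + 2 * u := by linarith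
      nlinarith
    have k2 : 2 * |y| ≤ 2 * (H * E) * (Real.exp (-R / H) * E) := by
      have : 0 ≤ 2 * (H * E) := by positivity
      nlinarith
    calc 4 + 2 * |t| ≤ (4 + 2 * u) + 2 * |y| := by linarith
      _ ≤ (4 + 2 * u) * (Real.exp (-R / H) * E) + 2 * (H * E) * (Real.exp (-R / H) * E) := by linarith
      _ = _ := by ring
  have hG0 : ∀ t, 0 ≤ G t := by
    intro t; simp only [hG]
    have : 0 ≤ 4 + 2 * u := by linarith
    positivity
  calc ∫ t in (Icc 0 T)ᶜ, (4 + 2 * |t|) ∂(gaussianReal u v) 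
      ≤ ∫ t in (Icc 0 T)ᶜ, Real.exp (- R / H) * G t ∂(gaussianReal u v) := by
        refine setIntegral_mono_on ?_ ?_ measurableSet_Icc.compl hpt
        · exact ((integrable_const 4).add ((integrable_abs_gaussian u v).const_mul 2)).integrableOn
        · exact (hGi.const_mul _).integrableOn
    _ ≤ ∫ t, Real.exp (- R / H) * G t ∂(gaussianReal u v) := by
        refine setIntegral_le_integral (hGi.const_mul _) (Eventually.of_forall fun t => ?_)
        exact mul_nonneg (Real.exp_pos _).le (hG0 t)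
    _ = Real.exp (- R / H) * ((4 + 2 * u) * (Real.exp (1/2) + Real.exp (1/2)) + 
      2 * H * (Real.exp 2 + Real.exp 2 + 2)) := by rw [integral_const_mul, hGv]
    _ ≤ Real.exp (- R / √v) * (16 + 8 * u + 36 * √v) := by
        rw [← hH]
        have he1 : Real.exp 1 ≤ 2.7182818286 := Real.exp_one_lt_d9.le
        have he2 : Real.exp 2 ≤ 7.5 := by
          have : Real.exp 2 = Real.exp 1 ^ 2 := by rw [← Real.exp_nat_mul]; norm_num
          rw [this]
          have := Real.exp_pos 1
          nlinarith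
        have he3 : Real.exp (1/2) ≤ 1.7 := by
          have : Real.exp (1/2) ^ 2 = Real.exp 1 := by rw [← Real.exp_nat_mul]; norm_num
          have h0 := Real.exp_pos (1/2)
          nlinarith
        refine mul_le_mul_of_nonneg_left ?_ (Real.exp_pos _).le
        have k1 : (4 + 2 * u) * (Real.exp (1/2) + Real.exp (1/2)) ≤ (4 + 2 * u) * 4 := by
          apply mul_le_mul_of_nonneg_left _ (by linarith)
          linarith
        have k2 : 2 * H * (Real.exp 2 + Real.exp 2 + 2) ≤ 2 * H * 18 := by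
          apply mul_le_mul_of_nonneg_left _ (by linarith)
          linarith
        linarith

end Pool.Agent.LibZM
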