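import Mathlib
import Pool.Agent.LibZM.Tail

set_option autoImplicit false

namespace Pool.Agent.LibZM

open MeasureTheory Set Filter Topology Complex

/-- Shift of a vertical line of integration. -/
theorem vertical_shift {G : ℂ → ℂ} {a b : ℝ} (hab : a ≤ b) (hd : ∀ s : ℂ, a ≤ s.re → s.re ≤ b → DifferentiableAt ℂ G s) 
    {g : ℝ → ℝ} (hg : Integrable g) (hg0 : Tendsto g atTop (𝓝 0)) (hg1 : Tendsto g atBot (𝓝 0)) 
    (hb : ∀ x ∈ Icc a b, ∀ y : ℝ, ‖G (x + y * I)‖ ≤ g y) : 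
    (∀ x ∈ Icc a b, Integrable fun y : ℝ => G (x + y * I)) ∧ 
    ∫ y : ℝ, G (a + y * I) = ∫ y : ℝ, G (b + y * I) := by
  have hint : ∀ x ∈ Icc a b, Integrable fun y : ℝ => G (x + y * I) := by
    intro x hx
    refine Integrable.mono' hg ?_ (Eventually.of_forall (hb x hx))
    refine Continuous.aestronglyMeasurable ?_
    rw [continuous_iff_continuousAt]
    intro y
    have h1 : ContinuousAt G (x + y * I) := (hd _ (by simpa using hx.1) (by simpa using hx.2)).continuousAt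
    exact ContinuousAt.comp (g := G) (f := fun y : ℝ => (x:ℂ) + y * I) h1 (by fun_prop)
  refine ⟨hint, ?_⟩
  have ia := hint a ⟨le_rfl, hab⟩
  have ib := hint b ⟨hab, le_rfl⟩
  have hrect : ∀ N : ℝ, (∫ x : ℝ in a..b, G (x + ((-N : ℝ) : ℂ) * I)) - (∫ x : ℝ in a..b, G (x + (N : ℂ) * I)) + 
      I • (∫ y : ℝ in (-N)..N, G (b + y * I)) - I • (∫ y : ℝ in (-N)..N, G (a + y * I)) = 0 := by
    intro N
    have h := Complex.integral_boundary_rect_eq_zero_of_differentiableOn G (a + ((-N : ℝ) : ℂ) * I) (b + (N : ℂ) * I) ?_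
    · simpa using h
    · intro s hs
      have hs1 : s.re ∈ uIcc a b := by simpa using hs.1
      rw [uIcc_of_le hab] at hs1
      exact (hd s hs1.1 hs1.2).differentiableWithinAt
  have t1 : Tendsto (fun N : ℝ => ∫ x : ℝ in a..b, G (x + (N : ℂ) * I)) atTop (𝓝 0) := by
    rw [tendsto_zero_iff_norm_tendsto_zero]
    have h0 : Tendsto (fun N : ℝ => g N * |b - a|) atTop (𝓝 0) := by
      simpa using hg0.mul_const |b - a|
    refine squeeze_zero (fun N => norm_nonneg _) (fun N => ?_) h0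
    refine intervalIntegral.norm_integral_le_of_norm_le_const fun x hx => ?_
    rw [uIoc_of_le hab] at hx
    exact hb x ⟨hx.1.le, hx.2⟩ N
  have t2 : Tendsto (fun N : ℝ => ∫ x : ℝ in a..b, G (x + ((-N : ℝ) : ℂ) * I)) atTop (𝓝 0) := by
    rw [tendsto_zero_iff_norm_tendsto_zero]
    have h0 : Tendsto (fun N : ℝ => g (-N) * |b - a|) atTop (𝓝 0) := by
      have := (hg1.comp tendsto_neg_atTop_atBot).mul_const |b - a|
      simpa using this
    refine squeeze_zero (fun N => norm_nonneg _) (fun N => ?_) h0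
    refine intervalIntegral.norm_integral_le_of_norm_le_const fun x hx => ?_
    rw [uIoc_of_le hab] at hx
    exact hb x ⟨hx.1.le, hx.2⟩ (-N)
  have t3 : Tendsto (fun N : ℝ => ∫ y : ℝ in (-N)..N, G (b + y * I)) atTop (𝓝 (∫ y : ℝ, G (b + y * I))) := 
    intervalIntegral_tendsto_integral ib tendsto_neg_atTop_atBot tendsto_id
  have t4 : Tendsto (fun N : ℝ => ∫ y : ℝ in (-N)..N, G (a + y * I)) atTop (𝓝 (∫ y : ℝ, G (a + y * I))) := 
    intervalIntegral_tendsto_integral ia tendsto_neg_atTop_atBot tendsto_id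
  have t5 := ((t2.sub t1).add (t3.const_smul I)).sub (t4.const_smul I)
  have t6 : Tendsto (fun _ : ℝ => (0:ℂ)) atTop (𝓝 (0 - 0 + I • (∫ y : ℝ, G (b + y * I)) - I • (∫ y : ℝ, G (a + y * I)))) := 
    t5.congr hrect
  have t7 := tendsto_nhds_unique t6 tendsto_const_nhds
  rw [sub_zero, zero_add, ← smul_sub, smul_eq_zero] at t7
  rcases t7 with h | h
  · exact absurd h I_ne_zero
  · exact (sub_eq_zero.mp h).symm

/-- The Gaussian kernel as an entire function. -/
noncomputable def KK (u v : ℝ) (s : ℂ) : ℂ := cexp ((s - 1/2 - u * I) ^ 2 / (2 * v))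

lemma norm_KK (u v x y : ℝ) : ‖KK u v (x + y * I)‖ = Real.exp (((x - 1/2) ^ 2 - (y - u) ^ 2) / (2 * v)) := by
  unfold KK
  rw [Complex.norm_exp]
  congr 1
  have : ((x:ℂ) + y * I - 1/2 - u * I) ^ 2 / (2 * v) = 
      ((((x - 1/2) ^ 2 - (y - u) ^ 2) / (2 * v) : ℝ) : ℂ) + (((2 * (x - 1/2) * (y - u)) / (2 * v) : ℝ) : ℂ) * I := by
    push_cast
    have h1 : ((x:ℂ) + y * I - 1/2 - u * I) ^ 2 = ((x:ℂ) - 1/2) ^ 2 - (y - u) ^ 2 + (2 * ((x:ℂ) - 1/2) * (y - u)) * I := by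
      have : (I:ℂ) ^ 2 = -1 := I_sq
      linear_combination (((y:ℂ) - u) ^ 2) * this
    rw [h1]; ring
  rw [this, add_re, ofReal_re, re_ofReal_mul, I_re, mul_zero, add_zero]

lemma differentiable_KK (u v : ℝ) : Differentiable ℂ (KK u v) := by
  unfold KK; fun_prop

lemma gdom {u v : ℝ} (hv : 0 < v) (C : ℝ) : 
    Integrable (fun y : ℝ => C * Real.exp |y| * Real.exp (-(y - u) ^ 2 / (2 * v))) ∧ 
    Tendsto (fun y : ℝ => C * Real.exp |y| * Real.exp (-(y - u) ^ 2 / (2 * v))) atTop (𝓝 0) ∧ 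
    Tendsto (fun y : ℝ => C * Real.exp |y| * Real.exp (-(y - u) ^ 2 / (2 * v))) atBot (𝓝 0) := by
  have hb : 0 < (2 * v)⁻¹ := by positivity
  -- shifted Gaussians
  have g1 : ∀ c : ℝ, Integrable (fun y : ℝ => Real.exp (-(2*v)⁻¹ * (y - c) ^ 2)) := fun c => 
    (integrable_exp_neg_mul_sq hb).comp_sub_right c
  have g2 : ∀ c : ℝ, Tendsto (fun y : ℝ => Real.exp (-(2*v)⁻¹ * (y - c) ^ 2)) atTop (𝓝 0) := fun c => by
    have h1 : Tendsto (fun y : ℝ => y - c) atTop atTop := tendsto_atTop_add_const_right _ _ tendsto_id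
    have h2 : Tendsto (fun y : ℝ => (2*v)⁻¹ * (y - c) ^ 2) atTop atTop := 
      Tendsto.const_mul_atTop hb ((tendsto_pow_atTop two_ne_zero).comp h1)
    refine (Real.tendsto_exp_neg_atTop_nhds_zero.comp h2).congr fun y => ?_
    simp only [Function.comp]; congr 1; ring
  have g3 : ∀ c : ℝ, Tendsto (fun y : ℝ => Real.exp (-(2*v)⁻¹ * (y - c) ^ 2)) atBot (𝓝 0) := fun c => by
    have h1 := (g2 (-c)).comp tendsto_neg_atBot_atTop
    refine h1.congr fun y => ?_
    simp only [Function.comp]; congr 1; ring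
  set A := Real.exp (u + v/2) with hA
  set B := Real.exp (-u + v/2) with hB
  have e1 : ∀ y : ℝ, Real.exp y * Real.exp (-(y - u) ^ 2 / (2 * v)) = A * Real.exp (-(2*v)⁻¹ * (y - (u + v)) ^ 2) := by
    intro y
    rw [hA, ← Real.exp_add, ← Real.exp_add]; congr 1; field_simp; ring
  have e2 : ∀ y : ℝ, Real.exp (-y) * Real.exp (-(y - u) ^ 2 / (2 * v)) = B * Real.exp (-(2*v)⁻¹ * (y - (u - v)) ^ 2) := by
    intro y
    rw [hB, ← Real.exp_add, ← Real.exp_add]; congr 1; field_simp; ring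
  set G : ℝ → ℝ := fun y => |C| * (A * Real.exp (-(2*v)⁻¹ * (y - (u + v)) ^ 2) + B * Real.exp (-(2*v)⁻¹ * (y - (u - v)) ^ 2)) with hG
  have hle : ∀ y : ℝ, ‖C * Real.exp |y| * Real.exp (-(y - u) ^ 2 / (2 * v))‖ ≤ G y := by
    intro y
    rw [norm_mul, norm_mul, Real.norm_eq_abs, Real.norm_eq_abs, Real.norm_eq_abs, abs_of_pos (Real.exp_pos _), abs_of_pos (Real.exp_pos _)]
    simp only [hG]
    rw [← e1, ← e2, ← add_mul, ← mul_assoc]
    gcongr
    rcases abs_cases y with ⟨h, _⟩ | ⟨h, _⟩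
    · rw [h]; linarith [Real.exp_pos (-y)]
    · rw [h]; linarith [Real.exp_pos y]
  have iG : Integrable G := (((g1 _).const_mul A).add ((g1 _).const_mul B)).const_mul _
  have tG : Tendsto G atTop (𝓝 0) := by
    have := (((g2 (u+v)).const_mul A).add ((g2 (u-v)).const_mul B)).const_mul |C|
    rw [mul_zero, mul_zero, add_zero, mul_zero] at this
    exact this
  have tG' : Tendsto G atBot (𝓝 0) := by
    have := (((g3 (u+v)).const_mul A).add ((g3 (u-v)).const_mul B)).const_mul |C|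
    rw [mul_zero, mul_zero, add_zero, mul_zero] at this
    exact this
  refine ⟨Integrable.mono' iG ?_ (Eventually.of_forall hle), squeeze_zero_norm hle tG, squeeze_zero_norm hle tG'⟩
  exact Continuous.aestronglyMeasurable (by fun_prop)

/-- Shift for entire functions of moderate growth against the Gaussian kernel. -/
theorem shift_KK {F : ℂ → ℂ} (hF : Differentiable ℂ F) {a b : ℝ} (hab : a ≤ b) {u v : ℝ} (hv : 0 < v) {C : ℝ} (hC : 0 ≤ C)
    (hb : ∀ x ∈ Icc a b, ∀ y : ℝ, ‖F (x + y * I)‖ ≤ C * Real.exp |y|) : 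
    (∀ x ∈ Icc a b, Integrable fun y : ℝ => F (x + y * I) * KK u v (x + y * I)) ∧ 
    ∫ y : ℝ, F (a + y * I) * KK u v (a + y * I) = ∫ y : ℝ, F (b + y * I) * KK u v (b + y * I) := by
  set Bd : ℝ := ((a - 1/2) ^ 2 + (b - 1/2) ^ 2) / (2 * v) with hBd
  obtain ⟨h1, h2, h3⟩ := gdom (u := u) hv (C * Real.exp Bd)
  refine vertical_shift (G := fun s => F s * KK u v s) hab (fun s _ _ => (hF s).mul (differentiable_KK u v s)) h1 h2 h3 ?_
  intro x hx y
  rw [norm_mul, norm_KK]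
  have h4 : ((x - 1/2) ^ 2 - (y - u) ^ 2) / (2 * v) ≤ Bd + -(y - u) ^ 2 / (2 * v) := by
    rw [hBd, ← add_div]
    apply div_le_div_of_nonneg_right _ (by positivity)
    have : (x - 1/2) ^ 2 ≤ (a - 1/2) ^ 2 + (b - 1/2) ^ 2 := by
      have := hx.1
      have := hx.2
      rcases le_total x (1/2) with h | h
      · have : (x - 1/2) ^ 2 ≤ (a - 1/2) ^ 2 := by nlinarith
        nlinarith [sq_nonneg (b - 1/2)]
      · have : (x - 1/2) ^ 2 ≤ (b - 1/2) ^ 2 := by nlinarith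
        nlinarith [sq_nonneg (a - 1/2)]
    linarith
  calc ‖F (x + y * I)‖ * Real.exp (((x - 1/2) ^ 2 - (y - u) ^ 2) / (2 * v)) 
      ≤ (C * Real.exp |y|) * Real.exp (Bd + -(y - u) ^ 2 / (2 * v)) := by
        have := hb x hx y
        gcongr
    _ = _ := by rw [Real.exp_add]; ring

lemma norm_zeta1_le {s : ℂ} (hs : 1/2 ≤ s.re) : ‖riemannZeta₁ s‖ ≤ 1 + ‖s - 1‖ * (1 + 2 * ‖s‖) := by
  by_cases h1 : s = 1
  · subst h1; simp [riemannZeta₁_one]
  · have hs0 : 0 < s.re := by linarith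
    have hz := zeta_approx hs0 h1 (le_refl 1)
    simp only [Finset.Icc_self, Finset.sum_singleton, Nat.cast_one, Complex.one_cpow, Real.one_rpow, mul_one] at hz
    have h2 : s - 1 ≠ 0 := sub_ne_zero.mpr h1
    have h2' : 1 - s ≠ 0 := sub_ne_zero.mpr (Ne.symm h1)
    have e : riemannZeta₁ s = (s - 1) * (riemannZeta s - (1 - 1 / (1 - s))) + (s - 1) + 1 := by
      rw [riemannZeta_eq_inv_sub_mul h1]; field_simp; ring
    have h3 : ‖s‖ / s.re ≤ 2 * ‖s‖ := by
      rw [div_le_iff₀ hs0]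
      nlinarith [norm_nonneg s]
    calc ‖riemannZeta₁ s‖ ≤ ‖s - 1‖ * ‖riemannZeta s - (1 - 1 / (1 - s))‖ + ‖s - 1‖ + 1 := by
          rw [e]
          refine (norm_add_le _ _).trans ?_
          rw [norm_one]
          gcongr
          refine (norm_add_le _ _).trans ?_
          rw [norm_mul]
      _ ≤ ‖s - 1‖ * (2 * ‖s‖) + ‖s - 1‖ + 1 := by
          have := hz.trans h3
          gcongr
      _ = _ := by ring

lemma pow_le_fact_exp {x : ℝ} (hx : 0 ≤ x) (n : ℕ) : x ^ n ≤ n.factorial * Real.exp x := by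
  have h := Real.pow_div_factorial_le_exp x hx n
  have h0 : (0:ℝ) < n.factorial := by exact_mod_cast n.factorial_pos
  rw [div_le_iff₀ h0] at h
  linarith

lemma norm_zeta1_pow_le (r : ℕ) {x y : ℝ} (hx : x ∈ Icc (1/2:ℝ) 2) : 
    ‖riemannZeta₁ (x + y * I) ^ r‖ ≤ (6 ^ r * (2 * r).factorial * Real.exp 1) * Real.exp |y| := by
  have hre : ((x:ℂ) + y * I).re = x := by simp
  have h1 := norm_zeta1_le (s := x + y * I) (by rw [hre]; exact hx.1)
  have hY := abs_nonneg y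
  have h2 : ‖(x:ℂ) + y * I - 1‖ ≤ 1 + |y| := by
    have : (x:ℂ) + y * I - 1 = ((x - 1 : ℝ) : ℂ) + y * I := by push_cast; ring
    rw [this]
    refine (norm_add_le _ _).trans ?_
    rw [norm_mul, norm_I, mul_one, norm_real, norm_real, Real.norm_eq_abs, Real.norm_eq_abs]
    have : |x - 1| ≤ 1 := by rw [abs_le]; constructor <;> linarith [hx.1, hx.2]
    linarith
  have h3 : ‖(x:ℂ) + y * I‖ ≤ 2 + |y| := by
    refine (norm_add_le _ _).trans ?_
    rw [norm_mul, norm_I, mul_one, norm_real, norm_real, Real.norm_eq_abs, Real.norm_eq_abs]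
    have : |x| ≤ 2 := by rw [abs_le]; constructor <;> linarith [hx.1, hx.2]
    linarith
  have h4 : ‖riemannZeta₁ (x + y * I)‖ ≤ 6 * (1 + |y|) ^ 2 := by
    refine h1.trans ?_
    calc 1 + ‖(x:ℂ) + y * I - 1‖ * (1 + 2 * ‖(x:ℂ) + y * I‖) ≤ 1 + (1 + |y|) * (1 + 2 * (2 + |y|)) := by gcongr
      _ ≤ _ := by nlinarith
  rw [norm_pow]
  calc ‖riemannZeta₁ (x + y * I)‖ ^ r ≤ (6 * (1 + |y|) ^ 2) ^ r := by gcongr
    _ = 6 ^ r * (1 + |y|) ^ (2 * r) := by rw [mul_pow, ← pow_mul]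
    _ ≤ 6 ^ r * ((2 * r).factorial * Real.exp (1 + |y|)) := by
        gcongr
        exact pow_le_fact_exp (by linarith) _
    _ = _ := by rw [Real.exp_add]; ring

end Pool.Agent.LibZM
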