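import Mathlib
import Pool.Agent.LibZM.CS1

set_option autoImplicit false

namespace Pool.Agent.LibZM

open MeasureTheory Set Filter Topology Complex ProbabilityTheory
open scoped NNReal ComplexConjugate

/-- Passing from the Gaussian measure to the kernel integral on the critical line. -/
lemma gauss_eq_KK {u : ℝ} {v : ℝ≥0} (hv : v ≠ 0) (F : ℂ → ℂ) : 
    ∫ t, F (crit t) ∂(gaussianReal u v) = 
      (((√(2 * Real.pi * v))⁻¹ : ℝ) : ℂ) * ∫ y : ℝ, F (((1/2 : ℝ) : ℂ) + y * I) * KK u v (((1/2 : ℝ) : ℂ) + y * I) := by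
  rw [integral_gaussianReal_eq_integral_smul hv, ← integral_const_mul]
  congr 1; ext y
  have hK : KK u v (((1/2 : ℝ) : ℂ) + y * I) = ((Real.exp (-(y - u) ^ 2 / (2 * v)) : ℝ) : ℂ) := by
    unfold KK
    rw [ofReal_exp]
    congr 1
    push_cast
    have : (I:ℂ) ^ 2 = -1 := I_sq
    have h1 : ((1:ℂ)/2 + y * I - 1/2 - u * I) ^ 2 = -((y:ℂ) - u) ^ 2 := by linear_combination (((y:ℂ) - u) ^ 2) * this
    rw [h1]
  have hc : crit y = ((1/2 : ℝ) : ℂ) + y * I := by unfold crit; push_cast; ring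
  rw [hK, hc, gaussianPDFReal]
  rw [real_smul]
  push_cast
  ring

lemma KK_bound_gauss {u : ℝ} {v : ℝ≥0} (hv : v ≠ 0) (h : ℝ → ℝ) : 
    (√(2 * Real.pi * v))⁻¹ * ∫ y : ℝ, h y * Real.exp (-(y - u) ^ 2 / (2 * v)) = ∫ t, h t ∂(gaussianReal u v) := by
  rw [integral_gaussianReal_eq_integral_smul hv, ← integral_const_mul]
  congr 1; ext y
  rw [gaussianPDFReal, smul_eq_mul]; ring

/-- Exponential absolute moment. -/
lemma gauss_exp_abs (u : ℝ) {v : ℝ≥0} (c : ℝ) : 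
    Integrable (fun t => Real.exp (c * |t - u|)) (gaussianReal u v) ∧ 
    ∫ t, Real.exp (c * |t - u|) ∂(gaussianReal u v) ≤ 2 * Real.exp (v * c ^ 2 / 2) := by
  obtain ⟨i1, v1⟩ := gauss_exp u v c
  obtain ⟨i2, v2⟩ := gauss_exp u v (-c)
  have hle : ∀ t, Real.exp (c * |t - u|) ≤ Real.exp (c * (t - u)) + Real.exp (-c * (t - u)) := by
    intro t
    rcases abs_cases (t - u) with ⟨h, _⟩ | ⟨h, _⟩
    · rw [h]; linarith [Real.exp_pos (-c * (t - u))]
    · rw [h, show c * -(t - u) = -c * (t - u) by ring]; linarith [Real.exp_pos (c * (t - u))]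
  have hint : Integrable (fun t => Real.exp (c * |t - u|)) (gaussianReal u v) := by
    refine Integrable.mono' (i1.add i2) ?_ (Eventually.of_forall fun t => ?_)
    · exact Continuous.aestronglyMeasurable (by fun_prop)
    · rw [Real.norm_eq_abs, abs_of_pos (Real.exp_pos _)]; exact hle t
  refine ⟨hint, ?_⟩
  calc ∫ t, Real.exp (c * |t - u|) ∂(gaussianReal u v) ≤ ∫ t, (Real.exp (c * (t - u)) + Real.exp (-c * (t - u))) ∂(gaussianReal u v) := 
        integral_mono hint (i1.add i2) hle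
    _ = _ := by rw [integral_add i1 i2, v1, v2]; ring_nf

/-- Gaussian average of `(s-1)^r e^{-Ls}` on the critical line. -/
noncomputable def TT (r : ℕ) (u : ℝ) (v : ℝ≥0) (L : ℝ) : ℂ := 
  ∫ t, (crit t - 1) ^ r * cexp (-(L:ℂ) * crit t) ∂(gaussianReal u v)

lemma norm_sub_one_le (x y : ℝ) : ‖(x:ℂ) + y * I - 1‖ ≤ |x - 1| + |y| := by
  have : (x:ℂ) + y * I - 1 = ((x - 1 : ℝ) : ℂ) + y * I := by push_cast; ring
  rw [this]
  refine (norm_add_le _ _).trans ?_
  rw [norm_mul, norm_I, mul_one, norm_real, norm_real, Real.norm_eq_abs, Real.norm_eq_abs]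

lemma norm_exp_line (L x y : ℝ) : ‖cexp (-(L:ℂ) * (x + y * I))‖ = Real.exp (-(L * x)) := by
  rw [Complex.norm_exp]
  congr 1
  simp

lemma growth_FL (r : ℕ) (L a b : ℝ) : ∃ C : ℝ, 0 ≤ C ∧ ∀ x ∈ Icc a b, ∀ y : ℝ, 
    ‖((x:ℂ) + y * I - 1) ^ r * cexp (-(L:ℂ) * (x + y * I))‖ ≤ C * Real.exp |y| := by
  set B := |a| + |b| + 1 with hB
  refine ⟨r.factorial * Real.exp B * Real.exp (|L| * B), by positivity, fun x hx y => ?_⟩
  have hxB : |x| ≤ |a| + |b| := by
    rw [abs_le]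
    constructor
    · have := neg_abs_le a; have := abs_nonneg b; linarith [hx.1]
    · have := le_abs_self b; have := abs_nonneg a; linarith [hx.2]
  have h1 : |x - 1| ≤ B := by
    have := abs_sub x 1
    rw [abs_one] at this
    linarith
  rw [norm_mul, norm_pow, norm_exp_line]
  have h2 : ‖(x:ℂ) + y * I - 1‖ ≤ B + |y| := (norm_sub_one_le x y).trans (by linarith)
  have h3 : Real.exp (-(L * x)) ≤ Real.exp (|L| * B) := by
    apply Real.exp_le_exp.mpr
    calc -(L * x) ≤ |L * x| := neg_le_abs _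
      _ = |L| * |x| := abs_mul _ _
      _ ≤ |L| * B := by gcongr; linarith
  have hBn : 0 ≤ B + |y| := by positivity
  calc ‖(x:ℂ) + y * I - 1‖ ^ r * Real.exp (-(L * x)) ≤ (B + |y|) ^ r * Real.exp (|L| * B) := by gcongr
    _ ≤ (r.factorial * Real.exp (B + |y|)) * Real.exp (|L| * B) := by
        gcongr
        exact pow_le_fact_exp hBn r
    _ = _ := by rw [Real.exp_add]; ring

lemma shift_FL (r : ℕ) (L : ℝ) {u : ℝ} {v : ℝ≥0} (hv : 0 < v) (a b : ℝ) : 
    (∫ y : ℝ, (((a:ℂ) + y * I - 1) ^ r * cexp (-(L:ℂ) * (a + y * I))) * KK u v (a + y * I)) = 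
    ∫ y : ℝ, (((b:ℂ) + y * I - 1) ^ r * cexp (-(L:ℂ) * (b + y * I))) * KK u v (b + y * I) := by
  have hF : Differentiable ℂ (fun s : ℂ => (s - 1) ^ r * cexp (-(L:ℂ) * s)) := by fun_prop
  have hv' : (0:ℝ) < v := by exact_mod_cast hv
  rcases le_total a b with h | h
  · obtain ⟨C, hC, hb⟩ := growth_FL r L a b
    exact (shift_KK hF h (u := u) hv' hC hb).2
  · obtain ⟨C, hC, hb⟩ := growth_FL r L b a
    exact (shift_KK hF h (u := u) hv' hC hb).2.symm

lemma TT_eq (r : ℕ) (L : ℝ) {u : ℝ} {v : ℝ≥0} (hv : 0 < v) (a : ℝ) : 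
    TT r u v L = (((√(2 * Real.pi * v))⁻¹ : ℝ) : ℂ) * 
      ∫ y : ℝ, (((a:ℂ) + y * I - 1) ^ r * cexp (-(L:ℂ) * (a + y * I))) * KK u v (a + y * I) := by
  unfold TT
  rw [gauss_eq_KK hv.ne' (fun s => (s - 1) ^ r * cexp (-(L:ℂ) * s)), shift_FL r L hv (1/2) a]

lemma norm_TT_le (r : ℕ) (L : ℝ) {u : ℝ} {v : ℝ≥0} (hv : 0 < v) (hu : 0 ≤ u) : 
    ‖TT r u v L‖ ≤ Real.exp (-L / 2 - v * L ^ 2 / 2) * 
      ((1 + v * |L| + u + √v) ^ r * (r.factorial * (2 * Real.exp (3/2)))) := by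
  have hv' : (0:ℝ) < v := by exact_mod_cast hv
  set H := √(v:ℝ) with hH
  have hH0 : 0 < H := Real.sqrt_pos.mpr hv'
  have hH2 : H ^ 2 = v := Real.sq_sqrt hv'.le
  set W := 1 + v * |L| + u + H with hW
  have hW0 : 0 ≤ W := by positivity
  rw [TT_eq r L hv (1/2 + v * L), norm_mul, norm_real, Real.norm_eq_abs, abs_of_nonneg (by positivity)]
  obtain ⟨ie, ve⟩ := gauss_exp_abs u (v := v) H⁻¹
  have e0 : (v:ℝ) * H⁻¹ ^ 2 / 2 = 1/2 := by rw [← hH2]; field_simp
  rw [e0] at ve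
  set D := Real.exp (-L / 2 - v * L ^ 2 / 2) * (W ^ r * (r.factorial * Real.exp 1)) with hD
  have hpt : ∀ y : ℝ, ‖((((1/2 + v * L : ℝ) : ℂ) + y * I - 1) ^ r * cexp (-(L:ℂ) * (((1/2 + v * L : ℝ) : ℂ) + y * I))) * 
      KK u v (((1/2 + v * L : ℝ) : ℂ) + y * I)‖ ≤ (D * Real.exp (H⁻¹ * |y - u|)) * Real.exp (-(y - u) ^ 2 / (2 * v)) := by
    intro y
    rw [norm_mul, norm_mul, norm_pow, norm_exp_line, norm_KK]
    have h1 : ‖((1/2 + v * L : ℝ) : ℂ) + y * I - 1‖ ≤ W * (1 + H⁻¹ * |y - u|) := by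
      refine (norm_sub_one_le _ _).trans ?_
      have h2 : |1/2 + v * L - 1| ≤ 1/2 + v * |L| := by
        have : 1/2 + v * L - 1 = v * L - 1/2 := by ring
        rw [this]
        refine (abs_sub _ _).trans ?_
        rw [abs_mul, abs_of_pos hv']
        norm_num
        linarith
      have h3 : |y| ≤ u + |y - u| := by
        have : y = u + (y - u) := by ring
        calc |y| = |u + (y - u)| := by rw [← this]
          _ ≤ |u| + |y - u| := abs_add_le _ _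
          _ = u + |y - u| := by rw [abs_of_nonneg hu]
      have h4 : |y - u| = H * (H⁻¹ * |y - u|) := by field_simp
      have h5 : 0 ≤ H⁻¹ * |y - u| := by positivity
      have h6 : 0 ≤ v * |L| := by positivity
      have h7 : H * (H⁻¹ * |y - u|) ≤ W * (H⁻¹ * |y - u|) := by
        apply mul_le_mul_of_nonneg_right _ h5
        rw [hW]; linarith
      calc |1/2 + v * L - 1| + |y| ≤ 1/2 + v * |L| + (u + |y - u|) := by linarith
        _ ≤ W + H * (H⁻¹ * |y - u|) := by rw [← h4, hW]; linarith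
        _ ≤ W * (1 + H⁻¹ * |y - u|) := by linarith
    have h8 : 0 ≤ 1 + H⁻¹ * |y - u| := by positivity
    have h9 : (1 + H⁻¹ * |y - u|) ^ r ≤ r.factorial * Real.exp (1 + H⁻¹ * |y - u|) := pow_le_fact_exp h8 r
    have h10 : Real.exp (-(L * (1/2 + v * L))) * Real.exp (((1/2 + v * L - 1/2) ^ 2 - (y - u) ^ 2) / (2 * v)) = 
        Real.exp (-L / 2 - v * L ^ 2 / 2) * Real.exp (-(y - u) ^ 2 / (2 * v)) := by
      rw [← Real.exp_add, ← Real.exp_add]; congr 1; field_simp; ring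
    calc ‖((1/2 + v * L : ℝ) : ℂ) + y * I - 1‖ ^ r * Real.exp (-(L * (1/2 + v * L))) * Real.exp (((1/2 + v * L - 1/2) ^ 2 - (y - u) ^ 2) / (2 * v)) 
        ≤ (W * (1 + H⁻¹ * |y - u|)) ^ r * Real.exp (-(L * (1/2 + v * L))) * Real.exp (((1/2 + v * L - 1/2) ^ 2 - (y - u) ^ 2) / (2 * v)) := by gcongr
      _ = W ^ r * (1 + H⁻¹ * |y - u|) ^ r * (Real.exp (-L / 2 - v * L ^ 2 / 2) * Real.exp (-(y - u) ^ 2 / (2 * v))) := by
          rw [mul_assoc, h10, mul_pow]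
      _ ≤ W ^ r * (r.factorial * Real.exp (1 + H⁻¹ * |y - u|)) * (Real.exp (-L / 2 - v * L ^ 2 / 2) * Real.exp (-(y - u) ^ 2 / (2 * v))) := by gcongr
      _ = _ := by rw [Real.exp_add, hD]; ring
  have hdi : Integrable (fun y : ℝ => (D * Real.exp (H⁻¹ * |y - u|)) * Real.exp (-(y - u) ^ 2 / (2 * v))) := by
    have hi := ie.const_mul D
    have hpdf := (integrable_withDensity_iff_integrable_smul' (μ := volume) (measurable_gaussianPDF u v) 
      (ae_of_all _ fun _ => gaussianPDF_lt_top)).mp (by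
        rw [gaussianReal_of_var_ne_zero u hv.ne'] at hi
        exact hi)
    have hc : (√(2 * Real.pi * v)) ≠ 0 := by positivity
    refine (hpdf.const_mul (√(2 * Real.pi * v))).congr (Eventually.of_forall fun y => ?_)
    simp only [toReal_gaussianPDF, gaussianPDFReal, smul_eq_mul]
    field_simp
  calc (√(2 * Real.pi * v))⁻¹ * ‖∫ y : ℝ, ((((1/2 + v * L : ℝ) : ℂ) + y * I - 1) ^ r * cexp (-(L:ℂ) * (((1/2 + v * L : ℝ) : ℂ) + y * I))) * 
      KK u v (((1/2 + v * L : ℝ) : ℂ) + y * I)‖ 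
      ≤ (√(2 * Real.pi * v))⁻¹ * ∫ y : ℝ, (D * Real.exp (H⁻¹ * |y - u|)) * Real.exp (-(y - u) ^ 2 / (2 * v)) := by
        gcongr
        exact norm_integral_le_of_norm_le hdi (Eventually.of_forall hpt)
    _ = ∫ t, D * Real.exp (H⁻¹ * |t - u|) ∂(gaussianReal u v) := KK_bound_gauss hv.ne' _
    _ = D * ∫ t, Real.exp (H⁻¹ * |t - u|) ∂(gaussianReal u v) := integral_const_mul _ _
    _ ≤ D * (2 * Real.exp (1/2)) := by gcongr
    _ = _ := by
        rw [hD, show (3/2:ℝ) = 1 + 1/2 by norm_num, Real.exp_add]; ring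

end Pool.Agent.LibZM
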