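import Mathlib
import Pool.Agent.LibZM.CS2
import Pool.Agent.LibZM.Asymp2

set_option autoImplicit false

namespace Pool.Agent.LibZM

open MeasureTheory Set Filter Topology Complex ProbabilityTheory
open scoped NNReal ComplexConjugate

lemma LSeriesHasSum_tau (r : ℕ) {s : ℂ} (hs : 1 < s.re) : 
    LSeriesHasSum (fun n => ((tau r n : ℝ) : ℂ)) s (riemannZeta s ^ r) := by
  have h1 : LSeriesHasSum (fun n => ((tau 1 n : ℝ) : ℂ)) s (riemannZeta s) := by
    have h := LSeriesHasSum_one hs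
    refine (LSeriesHasSum_congr s _ fun {n} hn => ?_).mpr h
    rw [tau_one_apply hn]; simp
  induction r with
  | zero => 
    have h : LSeries.term (fun n => ((tau ((0:ℕ):ℝ) n : ℝ) : ℂ)) s = fun n => if n = 1 then (1:ℂ) else 0 := by
      funext n
      rw [Nat.cast_zero, tau_zero_eq, LSeries.term_def]
      by_cases h0 : n = 0
      · subst h0; simp
      · by_cases h1 : n = 1
        · subst h1; simp
        · simp [h0, h1]
    unfold LSeriesHasSum
    rw [h, pow_zero]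
    exact hasSum_ite_eq 1 1
  | succ r ih => 
    have h := ih.convolution h1
    rw [pow_succ]
    refine (LSeriesHasSum_congr s _ fun {n} hn => ?_).mpr h
    rw [LSeries.convolution_def]
    push_cast
    rw [← tau_mul, ArithmeticFunction.mul_apply]
    push_cast
    rfl

lemma hasSum_zeta_pow (r : ℕ) {s : ℂ} (hs : 1 < s.re) : 
    HasSum (fun n : ℕ => ((tau r n : ℝ) : ℂ) * cexp (-((Real.log n : ℝ) : ℂ) * s)) (riemannZeta s ^ r) := by
  have h := LSeriesHasSum_tau r hs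
  unfold LSeriesHasSum at h
  have e : (fun n : ℕ => ((tau r n : ℝ) : ℂ) * cexp (-((Real.log n : ℝ) : ℂ) * s)) = 
      LSeries.term (fun n => ((tau r n : ℝ) : ℂ)) s := by
    funext n
    rw [LSeries.term_def]
    by_cases h0 : n = 0
    · subst h0; simp
    · rw [if_neg h0, div_eq_mul_inv, ← Complex.cpow_neg]
      congr 1
      have : (n:ℂ) ≠ 0 := by exact_mod_cast h0
      rw [Complex.cpow_def_of_ne_zero this, Complex.natCast_log]
      congr 1; ring
  rw [e]; exact h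

/-- The pair integral. -/
noncomputable def PA (r : ℕ) (u : ℝ) (v : ℝ≥0) (m q : ℕ) : ℂ := 
  ∫ t, riemannZeta₁ (crit t) ^ r * (m:ℂ) ^ (-crit t) * conj ((q:ℂ) ^ (-crit t)) ∂(gaussianReal u v)

lemma pair_exp {m q : ℕ} (hm : 1 ≤ m) (hq : 1 ≤ q) (t : ℝ) : 
    (q:ℂ) * ((m:ℂ) ^ (-crit t) * conj ((q:ℂ) ^ (-crit t))) = cexp (-((Real.log m - Real.log q : ℝ) : ℂ) * crit t) := by
  rw [natCast_cpow_crit hm, natCast_cpow_crit hq, ← Complex.exp_conj, map_mul, map_neg, conj_ofReal, conj_crit]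
  have hqe : (q:ℂ) = cexp ((Real.log q : ℝ) : ℂ) := by
    rw [← ofReal_exp, Real.exp_log (by exact_mod_cast hq)]; simp
  rw [hqe, ← Complex.exp_add, ← Complex.exp_add]
  congr 1
  push_cast
  ring

lemma hasSum_PA (r : ℕ) {u : ℝ} {v : ℝ≥0} (hv : 0 < v) {m q : ℕ} (hm : 1 ≤ m) (hq : 1 ≤ q) : 
    HasSum (fun n : ℕ => ((tau r n : ℝ) : ℂ) * TT r u v (Real.log m - Real.log q + Real.log n)) ((q:ℂ) * PA r u v m q) := by
  have hv' : (0:ℝ) < v := by exact_mod_cast hv
  set l := Real.log m - Real.log q with hl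
  set F : ℂ → ℂ := fun s => riemannZeta₁ s ^ r * cexp (-(l:ℂ) * s) with hF
  set cv : ℂ := (((√(2 * Real.pi * v))⁻¹ : ℝ) : ℂ) with hcv
  have hFd : Differentiable ℂ F := by
    have := differentiable_riemannZeta₁
    simp only [hF]; fun_prop
  have e1 : (q:ℂ) * PA r u v m q = ∫ t, F (crit t) ∂(gaussianReal u v) := by
    unfold PA
    rw [← integral_const_mul]
    congr 1; ext t
    have := pair_exp hm hq t
    simp only [hF]
    rw [← hl] at this
    rw [← this]; ring
  -- growth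
  have hgrow : ∀ x ∈ Icc (1/2:ℝ) 2, ∀ y : ℝ, ‖F (x + y * I)‖ ≤ ((6 ^ r * (2 * r).factorial * Real.exp 1) * Real.exp (2 * |l|)) * Real.exp |y| := by
    intro x hx y
    simp only [hF]
    rw [norm_mul, norm_exp_line]
    have h1 := norm_zeta1_pow_le r (y := y) hx
    have h2 : Real.exp (-(l * x)) ≤ Real.exp (2 * |l|) := by
      apply Real.exp_le_exp.mpr
      calc -(l * x) ≤ |l * x| := neg_le_abs _
        _ = |l| * |x| := abs_mul _ _
        _ ≤ |l| * 2 := by
            have : |x| ≤ 2 := by rw [abs_le]; constructor <;> linarith [hx.1, hx.2]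
            gcongr
        _ = 2 * |l| := by ring
    calc ‖riemannZeta₁ (x + y * I) ^ r‖ * Real.exp (-(l * x)) ≤ ((6 ^ r * (2 * r).factorial * Real.exp 1) * Real.exp |y|) * Real.exp (2 * |l|) := by gcongr
      _ = _ := by ring
  obtain ⟨hFi, hFs⟩ := shift_KK hFd (show (1/2:ℝ) ≤ 2 by norm_num) (u := u) hv' (by positivity) hgrow
  have e2 : (q:ℂ) * PA r u v m q = cv * ∫ y : ℝ, F (((2:ℝ):ℂ) + y * I) * KK u v (((2:ℝ):ℂ) + y * I) := by
    rw [e1, gauss_eq_KK hv.ne' F, hFs]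
  -- termwise
  set G : ℕ → ℝ → ℂ := fun n y => ((tau r n : ℝ) : ℂ) * ((((((2:ℝ):ℂ) + y * I - 1) ^ r * cexp (-((l + Real.log n : ℝ):ℂ) * (((2:ℝ):ℂ) + y * I))) * KK u v (((2:ℝ):ℂ) + y * I))) with hG
  obtain ⟨C, hC, hCb⟩ := growth_FL r l 2 2
  have hbase : Integrable fun y : ℝ => ((((2:ℝ):ℂ) + y * I - 1) ^ r * cexp (-(l:ℂ) * (((2:ℝ):ℂ) + y * I))) * KK u v (((2:ℝ):ℂ) + y * I) := 
    (shift_KK (F := fun s : ℂ => (s - 1) ^ r * cexp (-(l:ℂ) * s)) (by fun_prop) (le_refl (2:ℝ)) (u := u) hv' hC hCb).1 2 ⟨le_rfl, le_rfl⟩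
  have hnorm : ∀ (n : ℕ) (y : ℝ), ‖G n y‖ = (tau r n * (n:ℝ) ^ (-(2:ℝ))) * 
      ‖((((2:ℝ):ℂ) + y * I - 1) ^ r * cexp (-(l:ℂ) * (((2:ℝ):ℂ) + y * I))) * KK u v (((2:ℝ):ℂ) + y * I)‖ := by
    intro n y
    simp only [hG]
    rw [norm_mul, norm_mul, norm_mul, norm_mul, norm_mul, norm_exp_line, norm_exp_line, norm_real, Real.norm_eq_abs, abs_of_nonneg (tau_nonneg (Nat.cast_nonneg r) n)]
    rcases Nat.eq_zero_or_pos n with rfl | hn
    · simp
    · have hn0 : (0:ℝ) < n := by exact_mod_cast hn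
      have : Real.exp (-((l + Real.log n) * 2)) = (n:ℝ) ^ (-(2:ℝ)) * Real.exp (-(l * 2)) := by
        rw [Real.rpow_def_of_pos hn0, ← Real.exp_add]; congr 1; ring
      rw [this]; ring
  have hcont : ∀ n, Continuous (G n) := by
    intro n
    have := (differentiable_KK u v).continuous
    simp only [hG]
    fun_prop
  have hGi : ∀ n, Integrable (G n) := by
    intro n
    refine Integrable.mono' ((hbase.norm).const_mul (tau r n * (n:ℝ) ^ (-(2:ℝ)))) (hcont n).aestronglyMeasurable 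
      (Eventually.of_forall fun y => (hnorm n y).le)
  have hsum : Summable fun n => ∫ y, ‖G n y‖ := by
    simp_rw [hnorm]
    simp_rw [integral_const_mul]
    exact (summable_tau (Nat.cast_nonneg r) (by norm_num : (1:ℝ) < 2)).mul_right _
  have hHS := hasSum_integral_of_summable_integral_norm hGi hsum
  have hpt : ∀ y : ℝ, ∑' n, G n y = F (((2:ℝ):ℂ) + y * I) * KK u v (((2:ℝ):ℂ) + y * I) := by
    intro y
    set s : ℂ := ((2:ℝ):ℂ) + y * I with hs
    have hre : 1 < s.re := by simp [hs]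
    have hs1 : s ≠ 1 := by rintro h; rw [h] at hre; simp at hre
    have hs1' : s - 1 ≠ 0 := sub_ne_zero.mpr hs1
    have h := (hasSum_zeta_pow r hre).mul_left ((s - 1) ^ r * cexp (-(l:ℂ) * s) * KK u v s)
    have e3 : (s - 1) ^ r * cexp (-(l:ℂ) * s) * KK u v s * riemannZeta s ^ r = F s * KK u v s := by
      simp only [hF]
      rw [riemannZeta_eq_inv_sub_mul hs1, mul_pow, inv_pow]
      have : (s - 1) ^ r ≠ 0 := pow_ne_zero _ hs1'
      field_simp
    rw [e3] at h
    refine HasSum.tsum_eq ?_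
    have e4 : (fun n => G n y) = fun n : ℕ => (s - 1) ^ r * cexp (-(l:ℂ) * s) * KK u v s * (((tau r n : ℝ) : ℂ) * cexp (-((Real.log n : ℝ) : ℂ) * s)) := by
      funext n
      simp only [hG]
      have : cexp (-((l + Real.log n : ℝ):ℂ) * s) = cexp (-(l:ℂ) * s) * cexp (-((Real.log n : ℝ) : ℂ) * s) := by
        rw [← Complex.exp_add]; congr 1; push_cast; ring
      rw [← hs, this]; ring
    rw [e4]; exact h
  simp_rw [hpt] at hHS
  have h5 := hHS.mul_left cv
  rw [← e2] at h5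
  have e6 : (fun n : ℕ => ((tau r n : ℝ) : ℂ) * TT r u v (l + Real.log n)) = fun n => cv * ∫ y, G n y := by
    funext n
    rw [TT_eq r _ hv 2]
    simp only [hG]
    rw [integral_const_mul]
    ring
  rw [e6]; exact h5

lemma norm_TT_gap (r : ℕ) {u : ℝ} {v : ℝ≥0} (hu : 0 ≤ u) {X L : ℝ} (hX : 1 ≤ X) (hvX : 32 * X ≤ v) (hL : 1 / (2 * X) ≤ |L|) : 
    ‖TT r u v L‖ ≤ ((r.factorial : ℝ) ^ 2 * (2 * Real.exp (5/2))) * (1 + v + u + √v) ^ r * Real.exp (-v / (16 * X ^ 2)) * Real.exp (-2 * L) := by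
  have hv' : (0:ℝ) < v := by linarith
  have hv : 0 < v := by exact_mod_cast hv'
  have h := norm_TT_le r L (u := u) hv hu
  have hs : 0 ≤ √(v:ℝ) := Real.sqrt_nonneg _
  have hLn : 0 ≤ |L| := abs_nonneg L
  have h1 : (1 + v * |L| + u + √v) ^ r ≤ (1 + v + u + √v) ^ r * (r.factorial * Real.exp (1 + |L|)) := by
    calc (1 + v * |L| + u + √v) ^ r ≤ ((1 + v + u + √v) * (1 + |L|)) ^ r := by
          gcongr
          nlinarith [mul_nonneg hu hLn, mul_nonneg hs hLn]
      _ = (1 + v + u + √v) ^ r * (1 + |L|) ^ r := mul_pow _ _ _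
      _ ≤ _ := by
          gcongr
          exact pow_le_fact_exp (by linarith) r
  have h2 : Real.exp (-L / 2 - v * L ^ 2 / 2) * Real.exp (1 + |L|) * Real.exp (3/2) ≤ Real.exp (5/2) * (Real.exp (-v / (16 * X ^ 2)) * Real.exp (-2 * L)) := by
    rw [← Real.exp_add, ← Real.exp_add, ← Real.exp_add, ← Real.exp_add]
    apply Real.exp_le_exp.mpr
    have hX0 : 0 < X := by linarith
    have k1 : 4 * |L| ≤ v * L ^ 2 / 4 := by
      rw [← sq_abs L]
      have : 16 ≤ v * |L| := by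
        calc (16:ℝ) = 32 * X * (1 / (2 * X)) := by field_simp; norm_num
          _ ≤ v * |L| := by gcongr
      nlinarith
    have k2 : v / (16 * X ^ 2) ≤ v * L ^ 2 / 4 := by
      rw [← sq_abs L]
      have : (1 / (2 * X)) ^ 2 ≤ |L| ^ 2 := by gcongr
      calc v / (16 * X ^ 2) = v * (1 / (2 * X)) ^ 2 / 4 := by field_simp; norm_num
        _ ≤ v * |L| ^ 2 / 4 := by gcongr
    have k3 : -v / (16 * X ^ 2) = - (v / (16 * X ^ 2)) := by ring
    rw [k3]
    have k4 := neg_abs_le L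
    have k5 := le_abs_self L
    linarith
  calc ‖TT r u v L‖ ≤ Real.exp (-L / 2 - v * L ^ 2 / 2) * ((1 + v * |L| + u + √v) ^ r * (r.factorial * (2 * Real.exp (3/2)))) := h
    _ ≤ Real.exp (-L / 2 - v * L ^ 2 / 2) * (((1 + v + u + √v) ^ r * (r.factorial * Real.exp (1 + |L|))) * (r.factorial * (2 * Real.exp (3/2)))) := by gcongr
    _ = (2 * (r.factorial : ℝ) ^ 2 * (1 + v + u + √v) ^ r) * (Real.exp (-L / 2 - v * L ^ 2 / 2) * Real.exp (1 + |L|) * Real.exp (3/2)) := by ring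
    _ ≤ (2 * (r.factorial : ℝ) ^ 2 * (1 + v + u + √v) ^ r) * (Real.exp (5/2) * (Real.exp (-v / (16 * X ^ 2)) * Real.exp (-2 * L))) := by gcongr
    _ = _ := by ring

/-- Constant in the error terms. -/
noncomputable def Cerr (r : ℕ) : ℝ := ((r.factorial : ℝ) ^ 2 * (2 * Real.exp (5/2))) * ∑' n : ℕ, tau r n * (n:ℝ) ^ (-(2:ℝ))

lemma Cerr_nonneg (r : ℕ) : 0 ≤ Cerr r := by
  unfold Cerr
  have : 0 ≤ ∑' n : ℕ, tau r n * (n:ℝ) ^ (-(2:ℝ)) := tsum_nonneg fun n => mul_nonneg (tau_nonneg (Nat.cast_nonneg r) n) (by positivity)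
  positivity

theorem pair_avg_r (r : ℕ) {u : ℝ} {v : ℝ≥0} (hu : 0 ≤ u) {X m q : ℕ} (hm : 1 ≤ m) (hq : 1 ≤ q) (hqX : q ≤ X) (hvX : 32 * (X:ℝ) ≤ v) : 
    ‖PA r u v m q - TT r u v 0 * (((if m ∣ q then tau r (q / m) * (q:ℝ)⁻¹ else 0 : ℝ)) : ℂ)‖ ≤ 
      Cerr r * (X * (1 + v + u + √v) ^ r * Real.exp (-v / (16 * (X:ℝ) ^ 2))) := by
  have hX1 : (1:ℝ) ≤ X := by exact_mod_cast hq.trans hqX
  have hv' : (0:ℝ) < v := by linarith
  have hv : 0 < v := by exact_mod_cast hv'
  have hq0 : (0:ℝ) < q := by exact_mod_cast hq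
  have hm0 : (0:ℝ) < m := by exact_mod_cast hm
  have hqc : (q:ℂ) ≠ 0 := by exact_mod_cast hq0.ne'
  have hqX' : (q:ℝ) ≤ X := by exact_mod_cast hqX
  set l := Real.log m - Real.log q with hl
  have hHS := hasSum_PA r (u := u) hv hm hq
  rw [← hl] at hHS
  -- main terms
  set main : ℕ → ℂ := fun n => if n * m = q then ((tau r n : ℝ) : ℂ) * TT r u v (l + Real.log n) else 0 with hmain
  have hMS : HasSum main (TT r u v 0 * (((if m ∣ q then tau r (q / m) else 0 : ℝ)) : ℂ)) := by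
    by_cases hd : m ∣ q
    · rw [if_pos hd]
      obtain ⟨c, hc⟩ := hd
      have hcm : q / m = c := by rw [hc]; exact Nat.mul_div_cancel_left c hm
      have hc0 : 1 ≤ c := by
        rcases Nat.eq_zero_or_pos c with rfl | h
        · simp at hc; omega
        · exact h
      have e : main = fun n => if n = c then TT r u v 0 * ((tau r (q/m) : ℝ) : ℂ) else 0 := by
        funext n
        simp only [hmain]
        by_cases hn : n = c
        · subst hn
          have hnm : n * m = q := by rw [hc, mul_comm]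
          rw [if_pos hnm, if_pos rfl, hcm]
          have : l + Real.log n = 0 := by
            rw [hl, ← hnm]; push_cast
            rw [Real.log_mul (by positivity) hm0.ne']; ring
          rw [this]; ring
        · have hnm : ¬ n * m = q := by
            intro h
            apply hn
            rw [hc, mul_comm m c] at h
            exact Nat.eq_of_mul_eq_mul_right hm h
          rw [if_neg hnm, if_neg hn]
      rw [e]
      exact hasSum_ite_eq c _
    · rw [if_neg hd]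
      have e : main = fun _ => 0 := by
        funext n
        simp only [hmain]
        rw [if_neg]
        intro h
        exact hd ⟨n, by rw [← h, mul_comm]⟩
      rw [e]
      simpa using (hasSum_zero (f := fun _ : ℕ => (0:ℂ)))
  have hdiff := hHS.sub hMS
  set Ebd : ℝ := ((r.factorial : ℝ) ^ 2 * (2 * Real.exp (5/2))) * (1 + v + u + √v) ^ r * Real.exp (-v / (16 * (X:ℝ) ^ 2)) * (q:ℝ) ^ 2 with hEbd
  have hEbd0 : 0 ≤ Ebd := by
    have : 0 ≤ √(v:ℝ) := Real.sqrt_nonneg _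
    positivity
  have hbd : ∀ n : ℕ, ‖((tau r n : ℝ) : ℂ) * TT r u v (l + Real.log n) - main n‖ ≤ Ebd * (tau r n * (n:ℝ) ^ (-(2:ℝ))) := by
    intro n
    have htn := tau_nonneg (Nat.cast_nonneg r : (0:ℝ) ≤ r) n
    simp only [hmain]
    split_ifs with hnm
    · rw [sub_self, norm_zero]
      positivity
    · rw [sub_zero, norm_mul, norm_real, Real.norm_eq_abs, abs_of_nonneg htn]
      rcases Nat.eq_zero_or_pos n with rfl | hn
      · simp
      · have hn0 : (0:ℝ) < n := by exact_mod_cast hn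
        have hgap : 1 / (2 * (X:ℝ)) ≤ |l + Real.log n| := by
          have h1 := log_gap (a := n * m) (Nat.mul_pos hn hm) hq hnm
          push_cast at h1
          rw [Real.log_mul hn0.ne' hm0.ne'] at h1
          have h2 : Real.log n + Real.log m - Real.log q = l + Real.log n := by rw [hl]; ring
          rw [h2] at h1
          refine le_trans ?_ h1
          gcongr
        have h3 := norm_TT_gap r hu hX1 hvX hgap
        have h4 : Real.exp (-2 * (l + Real.log n)) ≤ (q:ℝ) ^ 2 * (n:ℝ) ^ (-(2:ℝ)) := by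
          have e : Real.exp (-2 * (l + Real.log n)) = (q:ℝ) ^ 2 * (n:ℝ) ^ (-(2:ℝ)) * ((m:ℝ) ^ 2)⁻¹ := by
            have a1 : Real.exp (2 * Real.log q) = (q:ℝ) ^ 2 := by
              rw [← Real.log_rpow hq0, Real.exp_log (by positivity)]; norm_cast
            have a2 : Real.exp (-(2 * Real.log m)) = ((m:ℝ) ^ 2)⁻¹ := by
              rw [Real.exp_neg, ← Real.log_rpow hm0, Real.exp_log (by positivity)]; norm_cast
            have a3 : Real.exp (-(2 * Real.log n)) = (n:ℝ) ^ (-(2:ℝ)) := by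
              rw [Real.rpow_def_of_pos hn0]; congr 1; ring
            rw [← a1, ← a2, ← a3, ← Real.exp_add, ← Real.exp_add]; congr 1; rw [hl]; ring
          rw [e]
          have hm1 : (1:ℝ) ≤ (m:ℝ) ^ 2 := by
            have : (1:ℝ) ≤ m := by exact_mod_cast hm
            exact one_le_pow₀ this
          exact mul_le_of_le_one_right (by positivity) (inv_le_one_of_one_le₀ hm1)
        calc tau r n * ‖TT r u v (l + Real.log n)‖ 
            ≤ tau r n * (((r.factorial : ℝ) ^ 2 * (2 * Real.exp (5/2))) * (1 + v + u + √v) ^ r * Real.exp (-v / (16 * (X:ℝ) ^ 2)) * ((q:ℝ) ^ 2 * (n:ℝ) ^ (-(2:ℝ)))) := by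
              gcongr
              refine h3.trans ?_
              have : 0 ≤ √(v:ℝ) := Real.sqrt_nonneg _
              gcongr
          _ = _ := by rw [hEbd]; ring
  have hZ := (summable_tau (Nat.cast_nonneg r : (0:ℝ) ≤ r) (by norm_num : (1:ℝ) < 2)).mul_left Ebd
  have hfin := tsum_of_norm_bounded hZ.hasSum hbd
  rw [hdiff.tsum_eq, tsum_mul_left] at hfin
  have e7 : PA r u v m q - TT r u v 0 * (((if m ∣ q then tau r (q / m) * (q:ℝ)⁻¹ else 0 : ℝ)) : ℂ) = 
      (q:ℂ)⁻¹ * ((q:ℂ) * PA r u v m q - TT r u v 0 * (((if m ∣ q then tau r (q / m) else 0 : ℝ)) : ℂ)) := by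
    split_ifs
    · push_cast; field_simp
    · push_cast; field_simp; simp
  rw [e7, norm_mul, norm_inv, Complex.norm_natCast]
  calc (q:ℝ)⁻¹ * _ ≤ (q:ℝ)⁻¹ * (Ebd * ∑' n : ℕ, tau r n * (n:ℝ) ^ (-(2:ℝ))) := by gcongr
    _ = Cerr r * (q * (1 + v + u + √v) ^ r * Real.exp (-v / (16 * (X:ℝ) ^ 2))) := by
        rw [hEbd, Cerr]; field_simp
    _ ≤ _ := by
        have := Cerr_nonneg r
        have : 0 ≤ √(v:ℝ) := Real.sqrt_nonneg _
        gcongr

end Pool.Agent.LibZM
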