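import Mathlib
import Pool.Agent.LibZM.Tail

set_option autoImplicit false

namespace Pool.Agent.LibZM

open MeasureTheory Set Filter Topology Complex ProbabilityTheory
open scoped NNReal ComplexConjugate

/-- The diagonal sum `∑_{q ≤ X} c(q)^2 / q`. -/
noncomputable def diag (c : ArithmeticFunction ℝ) (X : ℕ) : ℝ := ∑ q ∈ Finset.Icc 1 X, (c q) ^ 2 * (q:ℝ)⁻¹

lemma diag_le_double {b : ArithmeticFunction ℝ} (hb : ∀ n, 0 ≤ b n) (hbb : ∀ n, (b * b) n ≤ 1) 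
    {x : ℕ} (hx : SuppLe b x) (j : ℕ) :
    diag (b ^ (j+2)) (x ^ (j+2)) ≤ ∑ m ∈ Finset.Icc 1 (x ^ j), ∑ q ∈ Finset.Icc 1 (x ^ (j+2)), 
      (if m ∣ q then (b ^ j) m * (b ^ (j+2)) q * (q:ℝ)⁻¹ else 0) := by
  unfold diag
  rw [Finset.sum_comm]
  refine Finset.sum_le_sum fun q hq => ?_
  have hq1 := (Finset.mem_Icc.mp hq).1
  have hc := pow_nonneg_af hb (j+2) q
  have h1 : ∑ m ∈ Finset.Icc 1 (x ^ j), (if m ∣ q then (b ^ j) m * (b ^ (j+2)) q * (q:ℝ)⁻¹ else 0) 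
    = (∑ m ∈ q.divisors, (b ^ j) m) * ((b ^ (j+2)) q * (q:ℝ)⁻¹) := by
    rw [← Finset.sum_filter, Finset.sum_mul]
    have hsub : (Finset.Icc 1 (x ^ j)).filter (fun m => m ∣ q) ⊆ q.divisors := by
      intro m hm
      rw [Finset.mem_filter] at hm
      exact Nat.mem_divisors.mpr ⟨hm.2, by omega⟩
    rw [← Finset.sum_subset hsub]
    · refine Finset.sum_congr rfl fun m _ => ?_
      ring
    · intro m hm hnot
      rw [Nat.mem_divisors] at hm
      have hm1 : 1 ≤ m := Nat.pos_of_dvd_of_pos hm.1 hq1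
      have : x ^ j < m := by
        by_contra h
        exact hnot (Finset.mem_filter.mpr ⟨Finset.mem_Icc.mpr ⟨hm1, not_lt.mp h⟩, hm.1⟩)
      rw [hx.pow j m this, zero_mul]
  rw [h1]
  have h2 := domination hb hbb j q
  calc ((b ^ (j+2)) q) ^ 2 * (q:ℝ)⁻¹ = (b ^ (j+2)) q * ((b ^ (j+2)) q * (q:ℝ)⁻¹) := by ring
    _ ≤ _ := by
      apply mul_le_mul_of_nonneg_right h2
      positivity

section main

variable {b : ArithmeticFunction ℝ} {x : ℕ}

/-- Hoelder step for a fixed centre `u`. -/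
theorem local_lower (hb : ∀ n, 0 ≤ b n) (hbb : ∀ n, (b * b) n ≤ 1) (hx : SuppLe b x) (j : ℕ)
    {u : ℝ} {v : ℝ≥0} (hv : 4 ≤ v) {T R : ℝ} (hR : 0 ≤ R) (hu : R ≤ u) (hu' : u ≤ T - R) 
    {e₁ e₂ : ℝ}
    (he₁ : 6 * ((x ^ (j+2) : ℕ):ℝ) ^ 2 * Real.exp (- v / (16 * ((x ^ (j+2) : ℕ):ℝ) ^ 2)) * ((∑ m ∈ Finset.Icc 1 x, b m) ^ (2 * j + 2)) 
      + 3 / √v * ((∑ m ∈ Finset.Icc 1 x, b m * (m:ℝ)⁻¹) ^ j * (∑ m ∈ Finset.Icc 1 x, b m) ^ (j+2)) 
      + Real.exp (- R / √v) * (16 + 8 * T + 36 * √v) * (∑ m ∈ Finset.Icc 1 x, b m) ^ (2*j+2) ≤ e₁)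
    (he₂ : 3 * ((x ^ (j+2) : ℕ):ℝ) ^ 2 * Real.exp (- v / (16 * ((x ^ (j+2) : ℕ):ℝ) ^ 2)) * (∑ m ∈ Finset.Icc 1 x, b m) ^ (2*j+4) ≤ e₂)
    (hD : e₁ ≤ diag (b ^ (j+2)) (x ^ (j+2))) :
    (diag (b ^ (j+2)) (x ^ (j+2)) - e₁) ^ (j+2) ≤ 
      (∫ t in Icc 0 T, ‖riemannZeta (crit t)‖ ^ (j+2) ∂(gaussianReal u v)) * 
        (diag (b ^ (j+2)) (x ^ (j+2)) + e₂) ^ (j+1) := by
  have hv' : (4:ℝ) ≤ v := by exact_mod_cast hv
  have hv0 : 0 < v := lt_of_lt_of_le (by norm_num) hv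
  set γ := gaussianReal u v with hγ
  set X := x ^ (j+2) with hX
  set M := x ^ j with hM
  set D := diag (b ^ (j+2)) X with hDdef
  set s1 := ∑ m ∈ Finset.Icc 1 x, b m with hs1
  have hs1n : 0 ≤ s1 := Finset.sum_nonneg fun n _ => hb n
  set B : ℝ → ℂ := fun t => dp b x (crit t) with hB
  have hcne : ∀ t, crit t ≠ 0 := by
    intro t h
    have := congrArg Complex.re h
    simp at this
  have hP : ∀ t, dp (b ^ j) M (crit t) = B t ^ j := fun t => dp_pow hx (hcne t) j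
  have hQ : ∀ t, dp (b ^ (j+2)) X (crit t) = B t ^ (j+2) := fun t => dp_pow hx (hcne t) (j+2)
  have hBc : Continuous B := continuous_dp_crit b x
  have hBn : ∀ t, ‖B t‖ ≤ s1 := fun t => norm_dp_crit_le hb x t
  -- first moment
  have h1 := twisted_first u hv (pow_nonneg_af hb j) (pow_nonneg_af hb (j+2)) M X
  rw [sum_coeff_pow hx, sum_coeff_pow hx, sum_coeff_div_pow hx] at h1
  have h2 := diag_le_double hb hbb hx j
  set S := ∑ m ∈ Finset.Icc 1 M, ∑ q ∈ Finset.Icc 1 X, (if m ∣ q then (b ^ j) m * (b ^ (j+2)) q * (q:ℝ)⁻¹ else 0) with hS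
  set J := ∫ t, riemannZeta (crit t) * dp (b ^ j) M (crit t) * conj (dp (b ^ (j+2)) X (crit t)) ∂γ with hJ
  set F : ℝ → ℂ := fun t => riemannZeta (crit t) * dp (b ^ j) M (crit t) * conj (dp (b ^ (j+2)) X (crit t)) with hF
  have hFn : ∀ t, ‖F t‖ = ‖riemannZeta (crit t)‖ * ‖B t‖ ^ (2*j+2) := by
    intro t
    simp only [hF, hP, hQ, norm_mul, norm_pow, RCLike.norm_conj]
    rw [mul_assoc, ← pow_add]
    congr 2; ring
  have hFc : Continuous F := by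
    simp only [hF]
    exact (continuous_zeta_crit.mul (continuous_dp_crit _ _)).mul (Complex.continuous_conj.comp (continuous_dp_crit _ _))
  have hFb : ∀ t, ‖F t‖ ≤ s1 ^ (2*j+2) * (4 + 2 * |t|) := by
    intro t
    rw [hFn, mul_comm]
    have := hBn t
    have := norm_zeta_crit_le t
    gcongr
  have hdomI : Integrable (fun t : ℝ => s1 ^ (2*j+2) * (4 + 2 * |t|)) γ := 
    ((integrable_const 4).add ((integrable_abs_gaussian u v).const_mul 2)).const_mul _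
  have hFi : Integrable F γ := Integrable.mono' hdomI hFc.aestronglyMeasurable (Eventually.of_forall hFb)
  -- split
  have hsplit : J = (∫ t in Icc 0 T, F t ∂γ) + ∫ t in (Icc 0 T)ᶜ, F t ∂γ := 
    (integral_add_compl measurableSet_Icc hFi).symm
  have htail : ‖∫ t in (Icc 0 T)ᶜ, F t ∂γ‖ ≤ Real.exp (- R / √v) * (16 + 8 * T + 36 * √v) * s1 ^ (2*j+2) := by
    calc ‖∫ t in (Icc 0 T)ᶜ, F t ∂γ‖ ≤ ∫ t in (Icc 0 T)ᶜ, s1 ^ (2*j+2) * (4 + 2 * |t|) ∂γ := 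
          norm_integral_le_of_norm_le hdomI.integrableOn (Eventually.of_forall hFb)
      _ = s1 ^ (2*j+2) * ∫ t in (Icc 0 T)ᶜ, (4 + 2 * |t|) ∂γ := by rw [integral_const_mul]
      _ ≤ s1 ^ (2*j+2) * (Real.exp (- R / √v) * (16 + 8 * u + 36 * √v)) := by
          gcongr
          exact tail_bound hv0 hR hu hu'
      _ ≤ s1 ^ (2*j+2) * (Real.exp (- R / √v) * (16 + 8 * T + 36 * √v)) := by
          gcongr
          linarith
      _ = _ := by ring
  -- mean square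
  have h3 := mean_square u hv (pow_nonneg_af hb (j+2)) X
  rw [sum_coeff_pow hx] at h3
  have hE : ∫ t in Icc 0 T, ‖B t‖ ^ (2*(j+2)) ∂γ ≤ D + e₂ := by
    have hi : Integrable (fun t => ‖B t‖ ^ (2*(j+2))) γ := by
      refine Integrable.mono' (g := fun _ => s1 ^ (2*(j+2))) (integrable_const _) 
        (by fun_prop) (Eventually.of_forall fun t => ?_)
      rw [Real.norm_eq_abs, abs_of_nonneg (by positivity)]
      have := hBn t
      gcongr
    calc ∫ t in Icc 0 T, ‖B t‖ ^ (2*(j+2)) ∂γ ≤ ∫ t, ‖B t‖ ^ (2*(j+2)) ∂γ := 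
          setIntegral_le_integral hi (Eventually.of_forall fun t => by simp only [Pi.zero_apply]; positivity)
      _ = ∫ t, ‖dp (b ^ (j+2)) X (crit t)‖ ^ 2 ∂γ := by
          congr 1; ext t; rw [hQ, norm_pow, ← pow_mul]; congr 1; ring
      _ ≤ D + e₂ := by
          have h4 := (abs_le.mp h3).2
          have h5 : (s1 ^ (j+2)) ^ 2 = s1 ^ (2*j+4) := by rw [← pow_mul]; congr 1; ring
          rw [h5] at h4
          have : D = ∑ q ∈ Finset.Icc 1 X, ((b ^ (j+2)) q) ^ 2 * (q:ℝ)⁻¹ := rfl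
          linarith
  -- lower bound for the truncated first moment
  have hJT : D - e₁ ≤ ‖∫ t in Icc 0 T, F t ∂γ‖ := by
    have k1 : S - (6 * (X:ℝ) ^ 2 * Real.exp (- v / (16 * (X:ℝ) ^ 2)) * (s1 ^ j * s1 ^ (j+2)) + 
      3 / √v * ((∑ m ∈ Finset.Icc 1 x, b m * (m:ℝ)⁻¹) ^ j * s1 ^ (j+2))) ≤ ‖J‖ := by
      have k2 : ‖(S:ℂ)‖ ≤ ‖J‖ + ‖J - (S:ℂ)‖ := by
        have := norm_sub_norm_le (S:ℂ) J
        rw [norm_sub_rev] at this
        linarith
      have k3 : S ≤ ‖(S:ℂ)‖ := by rw [Complex.norm_real]; exact le_abs_self _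
      linarith
    have k4 : ‖J‖ ≤ ‖∫ t in Icc 0 T, F t ∂γ‖ + ‖∫ t in (Icc 0 T)ᶜ, F t ∂γ‖ := by
      rw [hsplit]; exact norm_add_le _ _
    have k5 : s1 ^ j * s1 ^ (j+2) = s1 ^ (2*j+2) := by rw [← pow_add]; congr 1; ring
    rw [k5] at k1
    linarith
  -- Hoelder
  set f : ℝ → ℝ := fun t => ‖riemannZeta (crit t)‖ with hf
  set g : ℝ → ℝ := fun t => ‖B t‖ ^ (2*j+2) with hg
  have hfc : Continuous f := continuous_zeta_crit.norm
  have hgc : Continuous g := hBc.norm.pow _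
  have hp1 : (1:ℝ) < (j+2 : ℕ) := by push_cast; linarith [(Nat.cast_nonneg j : (0:ℝ) ≤ j)]
  set pp : ℝ := ((j+2 : ℕ) : ℝ) with hpp
  set qq : ℝ := pp / (pp - 1) with hqq
  have hpq : pp.HolderConjugate qq := Real.HolderConjugate.conjExponent hp1
  have hmemf : MemLp f (ENNReal.ofReal pp) (γ.restrict (Icc 0 T)) := by
    refine MemLp.of_bound hfc.aestronglyMeasurable (4 + 2 * T) ?_
    refine (ae_restrict_iff' measurableSet_Icc).mpr (Eventually.of_forall fun t ht => ?_)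
    have e : ‖f t‖ = ‖riemannZeta (crit t)‖ := norm_norm _
    rw [e]
    refine (norm_zeta_crit_le t).trans ?_
    rw [abs_of_nonneg ht.1]; linarith [ht.2]
  have hmemg : MemLp g (ENNReal.ofReal qq) (γ.restrict (Icc 0 T)) := by
    refine MemLp.of_bound hgc.aestronglyMeasurable (s1 ^ (2*j+2)) ?_
    refine Eventually.of_forall fun t => ?_
    simp only [hg]
    rw [Real.norm_eq_abs, abs_of_nonneg (by positivity)]
    have := hBn t
    gcongr
  have hH := integral_mul_le_Lp_mul_Lq_of_nonneg hpq (Eventually.of_forall fun t => norm_nonneg _) 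
    (Eventually.of_forall fun t => by simp only [hg, Pi.zero_apply]; positivity) hmemf hmemg
  have hfp : ∀ t, f t ^ pp = ‖riemannZeta (crit t)‖ ^ (j+2) := by
    intro t; rw [hpp, Real.rpow_natCast]
  have hgq : ∀ t, g t ^ qq = ‖B t‖ ^ (2*(j+2)) := by
    intro t
    have e : ((2*j+2 : ℕ) : ℝ) * qq = ((2*(j+2) : ℕ) : ℝ) := by
      rw [hqq, hpp]; push_cast
      have : (j:ℝ) + 2 - 1 ≠ 0 := by
        have := (Nat.cast_nonneg j : (0:ℝ) ≤ j)
        intro h; linarith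
      field_simp
      ring
    simp only [hg]
    rw [← Real.rpow_natCast, ← Real.rpow_mul (norm_nonneg _), e, Real.rpow_natCast]
  have hfpI : ∫ a in Icc 0 T, f a ^ pp ∂γ = ∫ t in Icc 0 T, ‖riemannZeta (crit t)‖ ^ (j+2) ∂γ := by
    congr 1; ext t; exact hfp t
  have hgqI : ∫ a in Icc 0 T, g a ^ qq ∂γ = ∫ t in Icc 0 T, ‖B t‖ ^ (2*(j+2)) ∂γ := by
    congr 1; ext t; exact hgq t
  rw [hfpI, hgqI] at hH
  set Z := ∫ t in Icc 0 T, ‖riemannZeta (crit t)‖ ^ (j+2) ∂γ with hZ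
  have hZ0 : 0 ≤ Z := integral_nonneg fun t => by positivity
  set E := ∫ t in Icc 0 T, ‖B t‖ ^ (2*(j+2)) ∂γ with hEdef
  have hE0 : 0 ≤ E := integral_nonneg fun t => by positivity
  have hJle : ‖∫ t in Icc 0 T, F t ∂γ‖ ≤ Z ^ (1/pp) * E ^ (1/qq) := by
    refine (norm_integral_le_integral_norm _).trans ?_
    simp_rw [hFn]
    exact hH
  have hbase : 0 ≤ D - e₁ := by linarith
  have hfin : (D - e₁) ^ (j+2) ≤ (Z ^ (1/pp) * E ^ (1/qq)) ^ (j+2) := by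
    have := hJT.trans hJle
    gcongr
  have hpow : (Z ^ (1/pp) * E ^ (1/qq)) ^ (j+2) = Z * E ^ (j+1) := by
    rw [mul_pow, ← Real.rpow_natCast (Z ^ (1/pp)), ← Real.rpow_natCast (E ^ (1/qq)), ← Real.rpow_mul hZ0, ← Real.rpow_mul hE0]
    have e1 : 1 / pp * ((j+2 : ℕ) : ℝ) = 1 := by
      rw [hpp]; have : ((j+2:ℕ):ℝ) ≠ 0 := by positivity
      field_simp
    have e2 : 1 / qq * ((j+2 : ℕ) : ℝ) = ((j+1 : ℕ) : ℝ) := by
      rw [hqq, hpp]; push_cast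
      have h1 : (j:ℝ) + 2 - 1 ≠ 0 := by
        have := (Nat.cast_nonneg j : (0:ℝ) ≤ j)
        intro h; linarith
      have h2 : (j:ℝ) + 2 ≠ 0 := by positivity
      field_simp
      ring
    rw [e1, e2, Real.rpow_one, Real.rpow_natCast]
  rw [hpow] at hfin
  refine hfin.trans ?_
  have : E ^ (j+1) ≤ (D + e₂) ^ (j+1) := by gcongr
  exact mul_le_mul_of_nonneg_left this hZ0

end main

end Pool.Agent.LibZM
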