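import Mathlib
import Pool.Agent.LibZM.CS3
import Pool.Agent.LibZM.Lower

set_option autoImplicit false

namespace Pool.Agent.LibZM

open MeasureTheory Set Filter Topology Complex ProbabilityTheory
open scoped NNReal ComplexConjugate

lemma norm_crit_le_half (t : ℝ) : ‖crit t‖ ≤ 1/2 + |t| := by
  have h : crit t = ((1/2 : ℝ) : ℂ) + t * I := by unfold crit; push_cast; ring
  rw [h]
  refine (norm_add_le _ _).trans ?_
  rw [norm_mul, norm_I, mul_one, norm_real, norm_real, Real.norm_eq_abs, Real.norm_eq_abs]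
  norm_num

lemma norm_crit_sub_one_le (t : ℝ) : ‖crit t - 1‖ ≤ 1/2 + |t| := by
  have h : crit t - 1 = ((-1/2 : ℝ) : ℂ) + t * I := by unfold crit; push_cast; ring
  rw [h]
  refine (norm_add_le _ _).trans ?_
  rw [norm_mul, norm_I, mul_one, norm_real, norm_real, Real.norm_eq_abs, Real.norm_eq_abs]
  norm_num

lemma norm_zeta1_crit_le (t : ℝ) : ‖riemannZeta₁ (crit t)‖ ≤ 3 * (1 + |t|) ^ 2 := by
  have hre : (1/2:ℝ) ≤ (crit t).re := by rw [crit_re]
  have h1 := norm_zeta1_le hre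
  have h2 := norm_crit_le_half t
  have h3 := norm_crit_sub_one_le t
  have ht := abs_nonneg t
  have h4 := norm_nonneg (crit t)
  have h5 := norm_nonneg (crit t - 1)
  calc ‖riemannZeta₁ (crit t)‖ ≤ 1 + ‖crit t - 1‖ * (1 + 2 * ‖crit t‖) := h1
    _ ≤ 1 + (1/2 + |t|) * (1 + 2 * (1/2 + |t|)) := by gcongr
    _ ≤ 3 * (1 + |t|) ^ 2 := by nlinarith

lemma continuous_zeta1_crit : Continuous (fun t : ℝ => riemannZeta₁ (crit t)) := by
  have h1 := differentiable_riemannZeta₁.continuous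
  have h2 : Continuous crit := by unfold crit; fun_prop
  exact h1.comp h2

/-- Pointwise domination of powers of `riemannZeta₁` on the critical line. -/
lemma norm_zeta1_crit_pow_le (r : ℕ) {u H : ℝ} (hu : 0 ≤ u) (hH : 0 < H) (t : ℝ) : 
    ‖riemannZeta₁ (crit t)‖ ^ r ≤ 3 ^ r * (1 + u + H) ^ (2 * r) * ((2 * r).factorial * Real.exp 1) * Real.exp (H⁻¹ * |t - u|) := by
  have h1 : 1 + |t| ≤ (1 + u + H) * (1 + H⁻¹ * |t - u|) := by
    have h3 : |t| ≤ u + |t - u| := by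
      calc |t| = |u + (t - u)| := by ring_nf
        _ ≤ |u| + |t - u| := abs_add_le _ _
        _ = u + |t - u| := by rw [abs_of_nonneg hu]
    have h4 : |t - u| = H * (H⁻¹ * |t - u|) := by field_simp
    have h5 : 0 ≤ H⁻¹ * |t - u| := by positivity
    calc 1 + |t| ≤ 1 + u + H * (H⁻¹ * |t - u|) := by linarith
      _ ≤ (1 + u + H) * (1 + H⁻¹ * |t - u|) := by nlinarith [mul_nonneg hu h5]
  have h6 : 0 ≤ 1 + H⁻¹ * |t - u| := by positivity
  have h0 := abs_nonneg t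
  calc ‖riemannZeta₁ (crit t)‖ ^ r ≤ (3 * (1 + |t|) ^ 2) ^ r := by
        have := norm_zeta1_crit_le t
        gcongr
    _ ≤ (3 * ((1 + u + H) * (1 + H⁻¹ * |t - u|)) ^ 2) ^ r := by gcongr
    _ = 3 ^ r * (1 + u + H) ^ (2 * r) * (1 + H⁻¹ * |t - u|) ^ (2 * r) := by
        rw [mul_pow, ← pow_mul, mul_pow]; ring
    _ ≤ 3 ^ r * (1 + u + H) ^ (2 * r) * ((2 * r).factorial * Real.exp (1 + H⁻¹ * |t - u|)) := by
        gcongr
        exact pow_le_fact_exp h6 (2 * r)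
    _ = _ := by rw [Real.exp_add]; ring

lemma integrable_zeta1_pow_mul (r : ℕ) (u : ℝ) {v : ℝ≥0} {g : ℝ → ℂ} (hg : Continuous g) {C : ℝ} (hC : ∀ t, ‖g t‖ ≤ C) : 
    Integrable (fun t => riemannZeta₁ (crit t) ^ r * g t) (gaussianReal u v) := by
  have hC0 : 0 ≤ C := (norm_nonneg _).trans (hC 0)
  obtain ⟨i1, _⟩ := gauss_exp_abs u (v := v) 1
  have hdom : ∀ t : ℝ, ‖riemannZeta₁ (crit t)‖ ^ r ≤ 
      (3 ^ r * (1 + |u| + 1) ^ (2 * r) * ((2 * r).factorial * Real.exp 1) * Real.exp (2 * |u|)) * Real.exp (1 * |t - u|) := by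
    intro t
    have h := norm_zeta1_crit_pow_le r (u := |u|) (H := 1) (abs_nonneg u) one_pos t
    refine h.trans ?_
    rw [mul_assoc _ (Real.exp (2 * |u|))]
    gcongr
    rw [← Real.exp_add]
    apply Real.exp_le_exp.mpr
    rw [inv_one, one_mul, one_mul]
    have h1 : |t - (|u|)| ≤ |t - u| + |u - (|u|)| := abs_sub_le t u (|u|)
    have h2 : |u - (|u|)| ≤ 2 * |u| := by
      refine (abs_sub _ _).trans ?_
      rw [abs_abs]; linarith
    linarith
  refine Integrable.mono' ((i1.const_mul (3 ^ r * (1 + |u| + 1) ^ (2 * r) * ((2 * r).factorial * Real.exp 1) * Real.exp (2 * |u|))).mul_const C) ?_ 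
    (Eventually.of_forall fun t => ?_)
  · exact ((continuous_zeta1_crit.pow r).mul hg).aestronglyMeasurable
  · rw [norm_mul, norm_pow]
    have := hdom t
    have := hC t
    have := norm_nonneg (g t)
    gcongr

lemma integrable_pair_r (r : ℕ) (u : ℝ) (v : ℝ≥0) {m q : ℕ} (hm : 1 ≤ m) (hq : 1 ≤ q) :
    Integrable (fun t => riemannZeta₁ (crit t) ^ r * (m:ℂ) ^ (-crit t) * conj ((q:ℂ) ^ (-crit t))) (gaussianReal u v) := by
  have h := integrable_zeta1_pow_mul r u (v := v) (g := fun t => (m:ℂ) ^ (-crit t) * conj ((q:ℂ) ^ (-crit t))) 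
    ((continuous_natCast_cpow_crit m).mul (Complex.continuous_conj.comp (continuous_natCast_cpow_crit q))) (C := 1) (fun t => by
      rw [norm_mul, RCLike.norm_conj]
      have h1 := norm_natCast_cpow_crit_le hm t
      have h2 := norm_natCast_cpow_crit_le hq t
      calc ‖(m:ℂ) ^ (-crit t)‖ * ‖(q:ℂ) ^ (-crit t)‖ ≤ 1 * 1 := by gcongr
        _ = 1 := one_mul 1)
  refine h.congr (Eventually.of_forall fun t => ?_)
  simp only
  ring

/-- The main coefficient sum in the twisted moment. -/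
lemma coeff_reindex (r : ℕ) {p : ArithmeticFunction ℝ} {M : ℕ} (hp : SuppLe p M) (c : ArithmeticFunction ℝ) (X : ℕ) : 
    ∑ m ∈ Finset.Icc 1 M, ∑ q ∈ Finset.Icc 1 X, (p m * c q) * (if m ∣ q then tau r (q / m) * (q:ℝ)⁻¹ else 0) = 
      ∑ q ∈ Finset.Icc 1 X, (tau r * p) q * c q * (q:ℝ)⁻¹ := by
  rw [Finset.sum_comm]
  refine Finset.sum_congr rfl fun q hq => ?_
  have hq1 := (Finset.mem_Icc.mp hq).1
  have h1 : ∑ m ∈ Finset.Icc 1 M, (p m * c q) * (if m ∣ q then tau r (q / m) * (q:ℝ)⁻¹ else 0) = 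
      (∑ m ∈ q.divisors, p m * tau r (q / m)) * (c q * (q:ℝ)⁻¹) := by
    have h2 : ∀ m ∈ Finset.Icc 1 M, (p m * c q) * (if m ∣ q then tau r (q / m) * (q:ℝ)⁻¹ else 0) = 
       if m ∣ q then (p m * tau r (q / m)) * (c q * (q:ℝ)⁻¹) else 0 := by
      intro m _
      split_ifs
      · ring
      · ring
    rw [Finset.sum_congr rfl h2, ← Finset.sum_filter, Finset.sum_mul]
    have hsub : (Finset.Icc 1 M).filter (fun m => m ∣ q) ⊆ q.divisors := by
      intro m hm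
      rw [Finset.mem_filter] at hm
      exact Nat.mem_divisors.mpr ⟨hm.2, by omega⟩
    rw [← Finset.sum_subset hsub]
    intro m hm hnot
    rw [Nat.mem_divisors] at hm
    have hm1 : 1 ≤ m := Nat.pos_of_dvd_of_pos hm.1 hq1
    have : M < m := by
      by_contra h
      exact hnot (Finset.mem_filter.mpr ⟨Finset.mem_Icc.mpr ⟨hm1, not_lt.mp h⟩, hm.1⟩)
    rw [hp m this]; ring
  rw [h1, mul_comm (tau r) p, ArithmeticFunction.mul_apply, Nat.sum_divisorsAntidiagonal (fun x y => p x * tau r y)]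
  ring

/-- Twisted moment of `riemannZeta₁ ^ r` against two Dirichlet polynomials. -/
theorem twisted_r (r : ℕ) {u : ℝ} {v : ℝ≥0} (hu : 0 ≤ u) {p c : ArithmeticFunction ℝ} 
    (hp : ∀ n, 0 ≤ p n) (hc : ∀ n, 0 ≤ c n) {M X : ℕ} (hpM : SuppLe p M) (hX : 1 ≤ X) (hvX : 32 * (X:ℝ) ≤ v) :
    ‖(∫ t, riemannZeta₁ (crit t) ^ r * dp p M (crit t) * conj (dp c X (crit t)) ∂(gaussianReal u v)) - 
      TT r u v 0 * ((∑ q ∈ Finset.Icc 1 X, (tau r * p) q * c q * (q:ℝ)⁻¹ : ℝ) : ℂ)‖ ≤ 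
      Cerr r * (X * (1 + v + u + √v) ^ r * Real.exp (-v / (16 * (X:ℝ) ^ 2))) * ((∑ m ∈ Finset.Icc 1 M, p m) * (∑ q ∈ Finset.Icc 1 X, c q)) := by
  have hexp : ∀ t, riemannZeta₁ (crit t) ^ r * dp p M (crit t) * conj (dp c X (crit t)) = 
      ∑ m ∈ Finset.Icc 1 M, ∑ q ∈ Finset.Icc 1 X, ((p m * c q : ℝ) : ℂ) * 
        (riemannZeta₁ (crit t) ^ r * (m:ℂ) ^ (-crit t) * conj ((q:ℂ) ^ (-crit t))) := by
    intro t
    unfold dp
    rw [map_sum, mul_assoc, Finset.sum_mul_sum, Finset.mul_sum]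
    refine Finset.sum_congr rfl fun m _ => ?_
    rw [Finset.mul_sum]
    refine Finset.sum_congr rfl fun q _ => ?_
    rw [map_mul, Complex.conj_ofReal]
    push_cast
    ring
  simp_rw [hexp]
  rw [integral_finsetSum]
  swap
  · intro m hm
    exact integrable_finsetSum _ fun q hq => (integrable_pair_r r u v (Finset.mem_Icc.mp hm).1 (Finset.mem_Icc.mp hq).1).const_mul _
  have h1 : ∀ m ∈ Finset.Icc 1 M, ∫ t, ∑ q ∈ Finset.Icc 1 X, ((p m * c q : ℝ) : ℂ) * 
        (riemannZeta₁ (crit t) ^ r * (m:ℂ) ^ (-crit t) * conj ((q:ℂ) ^ (-crit t))) ∂(gaussianReal u v) = 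
      ∑ q ∈ Finset.Icc 1 X, ((p m * c q : ℝ) : ℂ) * PA r u v m q := by
    intro m hm
    rw [integral_finsetSum _ fun q hq => (integrable_pair_r r u v (Finset.mem_Icc.mp hm).1 (Finset.mem_Icc.mp hq).1).const_mul _]
    refine Finset.sum_congr rfl fun q _ => ?_
    rw [integral_const_mul]
    rfl
  rw [Finset.sum_congr rfl h1, ← coeff_reindex r hpM c X]
  push_cast
  rw [Finset.mul_sum, ← Finset.sum_sub_distrib]
  have h2 : ∀ m ∈ Finset.Icc 1 M, ‖∑ q ∈ Finset.Icc 1 X, ((p m : ℂ) * (c q : ℂ)) * PA r u v m q - 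
       TT r u v 0 * ∑ q ∈ Finset.Icc 1 X, ((p m : ℂ) * (c q : ℂ)) * (((if m ∣ q then tau r (q / m) * (q:ℝ)⁻¹ else 0 : ℝ)) : ℂ)‖ ≤ 
       ∑ q ∈ Finset.Icc 1 X, p m * c q * (Cerr r * (X * (1 + v + u + √v) ^ r * Real.exp (-v / (16 * (X:ℝ) ^ 2)))) := by
    intro m hm
    have hm1 := (Finset.mem_Icc.mp hm).1
    rw [Finset.mul_sum, ← Finset.sum_sub_distrib]
    refine (norm_sum_le _ _).trans (Finset.sum_le_sum fun q hq => ?_)
    have hq1 := (Finset.mem_Icc.mp hq).1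
    have hqX := (Finset.mem_Icc.mp hq).2
    have key := pair_avg_r r hu hm1 hq1 hqX hvX
    have e : ((p m : ℂ) * (c q : ℂ)) * PA r u v m q - TT r u v 0 * (((p m : ℂ) * (c q : ℂ)) * (((if m ∣ q then tau r (q / m) * (q:ℝ)⁻¹ else 0 : ℝ)) : ℂ)) = 
        ((p m * c q : ℝ) : ℂ) * (PA r u v m q - TT r u v 0 * (((if m ∣ q then tau r (q / m) * (q:ℝ)⁻¹ else 0 : ℝ)) : ℂ)) := by
      push_cast; ring
    rw [e, norm_mul, Complex.norm_real, Real.norm_eq_abs, abs_of_nonneg (mul_nonneg (hp m) (hc q))]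
    exact mul_le_mul_of_nonneg_left key (mul_nonneg (hp m) (hc q))
  refine (norm_sum_le _ _).trans ?_
  refine (Finset.sum_le_sum h2).trans (le_of_eq ?_)
  rw [Finset.sum_mul_sum, Finset.mul_sum]
  refine Finset.sum_congr rfl fun m hm => ?_
  rw [Finset.mul_sum]
  refine Finset.sum_congr rfl fun q _ => ?_
  ring

/-- Lower bound for the main average. -/
lemma norm_TT_zero_ge (r : ℕ) {u : ℝ} {v : ℝ≥0} (hv : 1 ≤ v) (hu : 0 ≤ u) : 
    u ^ r - (r * (r.factorial * (2 * Real.exp (3/2)))) * √v * (u + √v) ^ (r - 1) ≤ ‖TT r u v 0‖ := by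
  have hv1 : (1:ℝ) ≤ v := by exact_mod_cast hv
  set H := √(v:ℝ) with hH
  have hH0 : 0 < H := Real.sqrt_pos.mpr (by linarith)
  have hH1 : 1 ≤ H := by rw [hH]; exact Real.one_le_sqrt.mpr hv1
  have hH2 : H ^ 2 = v := Real.sq_sqrt (by linarith)
  obtain ⟨i1, v1⟩ := gauss_exp_abs u (v := v) H⁻¹
  have e0 : (v:ℝ) * H⁻¹ ^ 2 / 2 = 1/2 := by rw [← hH2]; field_simp
  rw [e0] at v1
  have hTT : TT r u v 0 = ∫ t, (crit t - 1) ^ r ∂(gaussianReal u v) := by
    unfold TT; simp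
  -- pointwise difference
  set w : ℂ := u * I with hw
  have hwn : ‖w‖ = u := by rw [hw, norm_mul, norm_I, mul_one, norm_real, Real.norm_eq_abs, abs_of_nonneg hu]
  have hd : ∀ t : ℝ, ‖(crit t - 1) - w‖ ≤ H * (1 + H⁻¹ * |t - u|) := by
    intro t
    have e : (crit t - 1) - w = ((-1/2 : ℝ) : ℂ) + ((t - u : ℝ) : ℂ) * I := by rw [hw]; unfold crit; push_cast; ring
    rw [e]
    refine (norm_add_le _ _).trans ?_
    rw [norm_mul, norm_I, mul_one, norm_real, norm_real, Real.norm_eq_abs, Real.norm_eq_abs]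
    have h4 : H * (1 + H⁻¹ * |t - u|) = H + |t - u| := by field_simp
    rw [h4]
    have : |(-1/2:ℝ)| = 1/2 := by norm_num
    rw [this]; linarith
  have hz : ∀ t : ℝ, ‖crit t - 1‖ ≤ (u + H) * (1 + H⁻¹ * |t - u|) := by
    intro t
    have h5 : 0 ≤ H⁻¹ * |t - u| := by positivity
    calc ‖crit t - 1‖ = ‖w + ((crit t - 1) - w)‖ := by ring_nf
      _ ≤ ‖w‖ + ‖(crit t - 1) - w‖ := norm_add_le _ _
      _ ≤ u + H * (1 + H⁻¹ * |t - u|) := by rw [hwn]; linarith [hd t]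
      _ ≤ _ := by nlinarith [mul_nonneg hu h5]
  have hpt : ∀ t : ℝ, ‖(crit t - 1) ^ r - w ^ r‖ ≤ (r * H * (u + H) ^ (r - 1) * (r.factorial * Real.exp 1)) * Real.exp (H⁻¹ * |t - u|) := by
    intro t
    have h5 : 0 ≤ H⁻¹ * |t - u| := by positivity
    have h6 : 1 ≤ 1 + H⁻¹ * |t - u| := by linarith
    have hw' : ‖w‖ ≤ (u + H) * (1 + H⁻¹ * |t - u|) := by rw [hwn]; nlinarith [mul_nonneg hu h5, mul_nonneg hH0.le h5]
    have hgeom : (crit t - 1) ^ r - w ^ r = (∑ i ∈ Finset.range r, (crit t - 1) ^ i * w ^ (r - 1 - i)) * ((crit t - 1) - w) := 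
      ((Commute.all _ _).geom_sum₂_mul r).symm
    rw [hgeom, norm_mul]
    have hs : ‖∑ i ∈ Finset.range r, (crit t - 1) ^ i * w ^ (r - 1 - i)‖ ≤ r * ((u + H) * (1 + H⁻¹ * |t - u|)) ^ (r - 1) := by
      refine (norm_sum_le _ _).trans ?_
      have : ∀ i ∈ Finset.range r, ‖(crit t - 1) ^ i * w ^ (r - 1 - i)‖ ≤ ((u + H) * (1 + H⁻¹ * |t - u|)) ^ (r - 1) := by
        intro i hi
        rw [Finset.mem_range] at hi
        rw [norm_mul, norm_pow, norm_pow]
        have hz' := hz t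
        calc ‖crit t - 1‖ ^ i * ‖w‖ ^ (r - 1 - i) ≤ ((u + H) * (1 + H⁻¹ * |t - u|)) ^ i * ((u + H) * (1 + H⁻¹ * |t - u|)) ^ (r - 1 - i) := by gcongr
          _ = _ := by rw [← pow_add]; congr 1; omega
      refine (Finset.sum_le_sum this).trans (le_of_eq ?_)
      rw [Finset.sum_const, Finset.card_range, nsmul_eq_mul]
    have hdt := hd t
    rcases Nat.eq_zero_or_pos r with rfl | hr
    · simp
    calc ‖∑ i ∈ Finset.range r, (crit t - 1) ^ i * w ^ (r - 1 - i)‖ * ‖(crit t - 1) - w‖ 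
        ≤ (r * ((u + H) * (1 + H⁻¹ * |t - u|)) ^ (r - 1)) * (H * (1 + H⁻¹ * |t - u|)) := by gcongr
      _ = r * H * (u + H) ^ (r - 1) * (1 + H⁻¹ * |t - u|) ^ (r - 1 + 1) := by rw [mul_pow, pow_succ]; ring
      _ = r * H * (u + H) ^ (r - 1) * (1 + H⁻¹ * |t - u|) ^ r := by rw [Nat.sub_add_cancel hr]
      _ ≤ r * H * (u + H) ^ (r - 1) * (r.factorial * Real.exp (1 + H⁻¹ * |t - u|)) := by
          gcongr
          exact pow_le_fact_exp (by linarith) r
      _ = _ := by rw [Real.exp_add]; ring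
  have hint : Integrable (fun t => (crit t - 1) ^ r) (gaussianReal u v) := by
    have hc : Continuous (fun t : ℝ => (crit t - 1) ^ r) := by unfold crit; fun_prop
    have hi : Integrable (fun t => (crit t - 1) ^ r - w ^ r) (gaussianReal u v) := 
      Integrable.mono' (i1.const_mul _) ((hc.sub continuous_const).aestronglyMeasurable) (Eventually.of_forall hpt)
    have := hi.add (integrable_const (w ^ r))
    refine this.congr (Eventually.of_forall fun t => ?_)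
    simp
  have hdiff : ‖TT r u v 0 - w ^ r‖ ≤ (r * H * (u + H) ^ (r - 1) * (r.factorial * Real.exp 1)) * (2 * Real.exp (1/2)) := by
    have e : TT r u v 0 - w ^ r = ∫ t, ((crit t - 1) ^ r - w ^ r) ∂(gaussianReal u v) := by
      rw [integral_sub hint (integrable_const _), ← hTT]; simp
    rw [e]
    calc ‖∫ t, ((crit t - 1) ^ r - w ^ r) ∂(gaussianReal u v)‖ 
        ≤ ∫ t, (r * H * (u + H) ^ (r - 1) * (r.factorial * Real.exp 1)) * Real.exp (H⁻¹ * |t - u|) ∂(gaussianReal u v) := 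
          norm_integral_le_of_norm_le (i1.const_mul _) (Eventually.of_forall hpt)
      _ = (r * H * (u + H) ^ (r - 1) * (r.factorial * Real.exp 1)) * ∫ t, Real.exp (H⁻¹ * |t - u|) ∂(gaussianReal u v) := integral_const_mul _ _
      _ ≤ _ := by gcongr
  have h7 : ‖w ^ r‖ = u ^ r := by rw [norm_pow, hwn]
  have h8 : ‖w ^ r‖ ≤ ‖TT r u v 0‖ + ‖TT r u v 0 - w ^ r‖ := by
    have := norm_sub_norm_le (w ^ r) (TT r u v 0)
    rw [norm_sub_rev] at this
    linarith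
  have h9 : (r * H * (u + H) ^ (r - 1) * (r.factorial * Real.exp 1)) * (2 * Real.exp (1/2)) = 
      (r * (r.factorial * (2 * Real.exp (3/2)))) * H * (u + H) ^ (r - 1) := by
    rw [show (3/2:ℝ) = 1 + 1/2 by norm_num, Real.exp_add]; ring
  rw [h9] at hdiff
  linarith

/-- Tail bound. -/
lemma tail_zeta1 (r : ℕ) {u : ℝ} {v : ℝ≥0} (hv : 0 < v) (hu : 0 ≤ u) {R : ℝ} : 
    ∫ t in (Icc (u - R) (u + R))ᶜ, ‖riemannZeta₁ (crit t)‖ ^ r ∂(gaussianReal u v) ≤ 
      (3 ^ r * ((2 * r).factorial * (2 * Real.exp 3))) * (1 + u + √v) ^ (2 * r) * Real.exp (-R / √v) := by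
  have hv' : (0:ℝ) < v := by exact_mod_cast hv
  set H := √(v:ℝ) with hH
  have hH0 : 0 < H := Real.sqrt_pos.mpr hv'
  have hH2 : H ^ 2 = v := Real.sq_sqrt hv'.le
  obtain ⟨i2, v2⟩ := gauss_exp_abs u (v := v) (2 * H⁻¹)
  have e0 : (v:ℝ) * (2 * H⁻¹) ^ 2 / 2 = 2 := by rw [← hH2]; field_simp
  rw [e0] at v2
  set K := 3 ^ r * (1 + u + H) ^ (2 * r) * ((2 * r).factorial * Real.exp 1) with hK
  have hK0 : 0 ≤ K := by positivity
  have hpt : ∀ t ∈ (Icc (u - R) (u + R))ᶜ, ‖riemannZeta₁ (crit t)‖ ^ r ≤ K * Real.exp (-R / H) * Real.exp (2 * H⁻¹ * |t - u|) := by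
    intro t ht
    have hd : R ≤ |t - u| := by
      rw [mem_compl_iff, mem_Icc, not_and_or, not_le, not_le] at ht
      rcases ht with h | h
      · rw [abs_sub_comm]; refine le_trans ?_ (le_abs_self _); linarith
      · refine le_trans ?_ (le_abs_self _); linarith
    have h1 := norm_zeta1_crit_pow_le r hu hH0 t
    have h2 : Real.exp (H⁻¹ * |t - u|) ≤ Real.exp (-R / H) * Real.exp (2 * H⁻¹ * |t - u|) := by
      rw [← Real.exp_add]
      apply Real.exp_le_exp.mpr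
      have : R / H ≤ H⁻¹ * |t - u| := by rw [div_eq_inv_mul]; gcongr
      have e : -R / H = -(R / H) := by ring
      rw [e]; linarith
    calc ‖riemannZeta₁ (crit t)‖ ^ r ≤ K * Real.exp (H⁻¹ * |t - u|) := h1
      _ ≤ K * (Real.exp (-R / H) * Real.exp (2 * H⁻¹ * |t - u|)) := by gcongr
      _ = _ := by ring
  have hint : Integrable (fun t => ‖riemannZeta₁ (crit t)‖ ^ r) (gaussianReal u v) := by
    have := (integrable_zeta1_pow_mul r u (v := v) (g := fun _ => 1) continuous_const (C := 1) (by simp)).norm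
    refine this.congr (Eventually.of_forall fun t => ?_)
    simp
  calc ∫ t in (Icc (u - R) (u + R))ᶜ, ‖riemannZeta₁ (crit t)‖ ^ r ∂(gaussianReal u v) 
      ≤ ∫ t in (Icc (u - R) (u + R))ᶜ, K * Real.exp (-R / H) * Real.exp (2 * H⁻¹ * |t - u|) ∂(gaussianReal u v) := 
        setIntegral_mono_on hint.integrableOn (i2.const_mul _).integrableOn measurableSet_Icc.compl hpt
    _ ≤ ∫ t, K * Real.exp (-R / H) * Real.exp (2 * H⁻¹ * |t - u|) ∂(gaussianReal u v) := 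
        setIntegral_le_integral (i2.const_mul _) (Eventually.of_forall fun t => by simp only [Pi.zero_apply]; positivity)
    _ = K * Real.exp (-R / H) * ∫ t, Real.exp (2 * H⁻¹ * |t - u|) ∂(gaussianReal u v) := integral_const_mul _ _
    _ ≤ K * Real.exp (-R / H) * (2 * Real.exp 2) := by gcongr
    _ = _ := by rw [hK, show (3:ℝ) = 1 + 2 by norm_num, Real.exp_add]; ring

end Pool.Agent.LibZM
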