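import Mathlib
import Pool.Agent.LibZM.Asymp2

set_option autoImplicit false

namespace Pool.Agent.LibZM

open Finset ArithmeticFunction Filter Topology

/-- `τ_a` twisted by a pointwise weight. -/
noncomputable def tw (a : ℝ) (w : ℕ → ℝ) : ArithmeticFunction ℝ := ⟨fun n => tau a n * w n, by simp⟩

@[simp] lemma tw_apply (a : ℝ) (w : ℕ → ℝ) (n : ℕ) : tw a w n = tau a n * w n := rfl

lemma mul_apply_mono {f f' g g' : ArithmeticFunction ℝ} (hf : ∀ n, 0 ≤ f n) (hff : ∀ n, f n ≤ f' n) 
    (hg : ∀ n, 0 ≤ g n) (hgg : ∀ n, g n ≤ g' n) (n : ℕ) : (f * g) n ≤ (f' * g') n := by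
  rw [ArithmeticFunction.mul_apply, ArithmeticFunction.mul_apply]
  refine sum_le_sum fun p _ => ?_
  exact mul_le_mul (hff _) (hgg _) (hg _) ((hf _).trans (hff _))

lemma mul_apply_nonneg {f g : ArithmeticFunction ℝ} (hf : ∀ n, 0 ≤ f n) 
    (hg : ∀ n, 0 ≤ g n) (n : ℕ) : 0 ≤ (f * g) n := by
  rw [ArithmeticFunction.mul_apply]
  exact sum_nonneg fun p _ => mul_nonneg (hf _) (hg _)

section

variable {ι : Type*}

lemma prod_apply_nonneg (s : Finset ι) {f : ι → ArithmeticFunction ℝ} (hf : ∀ i ∈ s, ∀ n, 0 ≤ f i n) (n : ℕ) : 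
    0 ≤ (∏ i ∈ s, f i) n := by
  classical
  induction s using Finset.induction_on generalizing n with
  | empty => rw [prod_empty, one_apply]; split_ifs <;> norm_num
  | insert i s hi ih =>
    rw [prod_insert hi]
    exact mul_apply_nonneg (hf i (mem_insert_self i s)) (fun n => ih (fun j hj => hf j (mem_insert_of_mem hj)) n) n

lemma prod_apply_mono (s : Finset ι) {f g : ι → ArithmeticFunction ℝ} (hf : ∀ i ∈ s, ∀ n, 0 ≤ f i n) 
    (hfg : ∀ i ∈ s, ∀ n, f i n ≤ g i n) (n : ℕ) : (∏ i ∈ s, f i) n ≤ (∏ i ∈ s, g i) n := by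
  classical
  induction s using Finset.induction_on generalizing n with
  | empty => simp
  | insert i s hi ih =>
    rw [prod_insert hi, prod_insert hi]
    exact mul_apply_mono (hf i (mem_insert_self i s)) (hfg i (mem_insert_self i s))
      (prod_apply_nonneg s fun j hj => hf j (mem_insert_of_mem hj))
      (fun n => ih (fun j hj => hf j (mem_insert_of_mem hj)) (fun j hj => hfg j (mem_insert_of_mem hj)) n) n

lemma prod_tau (s : Finset ι) (α : ι → ℝ) : ∏ i ∈ s, tau (α i) = tau (∑ i ∈ s, α i) := by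
  classical
  induction s using Finset.induction_on with
  | empty => simp [tau_zero_eq]
  | insert i s hi ih => rw [prod_insert hi, sum_insert hi, ih, tau_mul]

lemma isMultiplicative_prod (s : Finset ι) {f : ι → ArithmeticFunction ℝ} (hf : ∀ i ∈ s, (f i).IsMultiplicative) : 
    (∏ i ∈ s, f i).IsMultiplicative := by
  classical
  induction s using Finset.induction_on with
  | empty => rw [prod_empty]; exact isMultiplicative_one
  | insert i s hi ih => 
    rw [prod_insert hi]
    exact (hf i (mem_insert_self i s)).mul (ih fun j hj => hf j (mem_insert_of_mem hj))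

lemma prod_apply_prime (s : Finset ι) {f : ι → ArithmeticFunction ℝ} (hf : ∀ i ∈ s, f i 1 = 1) {p : ℕ} (hp : p.Prime) : 
    (∏ i ∈ s, f i) p = ∑ i ∈ s, f i p := by
  classical
  have h1 : ∀ t ⊆ s, (∏ i ∈ t, f i) 1 = 1 := by
    intro t ht
    induction t using Finset.induction_on with
    | empty => simp
    | insert i t hi ih =>
      rw [prod_insert hi, ArithmeticFunction.mul_apply]
      simp only [Nat.divisorsAntidiagonal_one, sum_singleton]
      rw [hf i (ht (mem_insert_self i t)), ih ((subset_insert i t).trans ht), one_mul]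
  have h2 : ∀ t ⊆ s, (∏ i ∈ t, f i) p = ∑ i ∈ t, f i p := by
    intro t ht
    induction t using Finset.induction_on with
    | empty => simp [one_apply, hp.ne_one]
    | insert i t hi ih =>
      have hts := (subset_insert i t).trans ht
      have := mul_apply_prime_pow (f i) (∏ i ∈ t, f i) hp 1
      simp only [pow_one, sum_range_succ, range_zero, sum_empty, pow_zero, Nat.sub_zero, Nat.sub_self] at this
      rw [prod_insert hi, sum_insert hi, this, ih hts, h1 t hts, hf i (ht (mem_insert_self i t))]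
      ring
  exact h2 s subset_rfl

lemma tendsto_prod_apply {β : Type*} {l : Filter β} (s : Finset ι) {f : β → ι → ArithmeticFunction ℝ} {g : ι → ArithmeticFunction ℝ}
    (h : ∀ i ∈ s, ∀ n, Tendsto (fun b => f b i n) l (𝓝 (g i n))) (n : ℕ) : 
    Tendsto (fun b => (∏ i ∈ s, f b i) n) l (𝓝 ((∏ i ∈ s, g i) n)) := by
  classical
  induction s using Finset.induction_on generalizing n with
  | empty => simp only [prod_empty]; exact tendsto_const_nhds
  | insert i s hi ih =>
    simp_rw [prod_insert hi, ArithmeticFunction.mul_apply]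
    apply tendsto_finsetSum
    intro p _
    exact (h i (mem_insert_self i s) _).mul (ih (fun j hj n => h j (mem_insert_of_mem hj) n) _)

end

section

variable {ι : Type*} [Fintype ι] (α : ι → ℝ)

/-- Convolution of the twisted divisor functions, exponential weights. -/
noncomputable def cfe (s : ι → ℝ) (δ : ℝ) : ArithmeticFunction ℝ := 
  ∏ i, tw (α i) (fun n => (n:ℝ) ^ (-(s i * δ)))

variable {α}

lemma tw_rpow_isMultiplicative (a c : ℝ) : (tw a (fun n => (n:ℝ) ^ c)).IsMultiplicative := by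
  rw [IsMultiplicative.iff_ne_zero]
  refine ⟨by simp [(tau_isMultiplicative a).map_one], fun {m n} hm hn hmn => ?_⟩
  simp only [tw_apply]
  rw [(tau_isMultiplicative a).map_mul_of_coprime hmn]
  push_cast
  rw [Real.mul_rpow (Nat.cast_nonneg _) (Nat.cast_nonneg _)]
  ring

lemma tw_rpow_nonneg {a : ℝ} (ha : 0 ≤ a) (c : ℝ) (n : ℕ) : 0 ≤ tw a (fun n => (n:ℝ) ^ c) n := by
  have := tau_nonneg ha n
  simp only [tw_apply]
  positivity

lemma tw_rpow_le {a c : ℝ} (ha : 0 ≤ a) (hc : c ≤ 0) (n : ℕ) : tw a (fun n => (n:ℝ) ^ c) n ≤ tau a n := by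
  have := tau_nonneg ha n
  simp only [tw_apply]
  rcases Nat.eq_zero_or_pos n with rfl | hn
  · simp
  · have hn1 : (1:ℝ) ≤ n := by exact_mod_cast hn
    exact mul_le_of_le_one_right this (Real.rpow_le_one_of_one_le_of_nonpos hn1 hc)

lemma cfe_isMultiplicative (s : ι → ℝ) (δ : ℝ) : (cfe α s δ).IsMultiplicative := 
  isMultiplicative_prod _ fun i _ => tw_rpow_isMultiplicative _ _

lemma cfe_nonneg (hα : ∀ i, 0 ≤ α i) (s : ι → ℝ) (δ : ℝ) (n : ℕ) : 0 ≤ cfe α s δ n := 
  prod_apply_nonneg _ (fun i _ n => tw_rpow_nonneg (hα i) _ n) n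

lemma cfe_le (hα : ∀ i, 0 ≤ α i) {s : ι → ℝ} (hs : ∀ i, 0 ≤ s i) {δ : ℝ} (hδ : 0 ≤ δ) (n : ℕ) : 
    cfe α s δ n ≤ tau (∑ i, α i) n := by
  rw [← prod_tau]
  exact prod_apply_mono _ (fun i _ n => tw_rpow_nonneg (hα i) _ n) 
    (fun i _ n => tw_rpow_le (hα i) (by have := mul_nonneg (hs i) hδ; linarith) n) n

lemma cfe_prime (s : ι → ℝ) (δ : ℝ) {p : ℕ} (hp : p.Prime) : 
    cfe α s δ p = ∑ i, α i * (p:ℝ) ^ (-(s i * δ)) := by
  unfold cfe
  rw [prod_apply_prime _ _ hp]
  · refine sum_congr rfl fun i _ => ?_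
    have := tau_prime_pow (α i) hp 1
    rw [pow_one, dcoef_one_right] at this
    rw [tw_apply, this]
  · intro i _
    exact (tw_rpow_isMultiplicative _ _).map_one

lemma tendsto_cfe (s : ι → ℝ) (n : ℕ) : Tendsto (fun δ : ℝ => cfe α s δ n) (𝓝[>] 0) (𝓝 (tau (∑ i, α i) n)) := by
  rw [← prod_tau]
  unfold cfe
  apply tendsto_prod_apply
  intro i _ n
  simp only [tw_apply]
  rcases Nat.eq_zero_or_pos n with rfl | hn
  · simp
  · have hn0 : (0:ℝ) < n := by exact_mod_cast hn
    have : Tendsto (fun δ : ℝ => (n:ℝ) ^ (-(s i * δ))) (𝓝 0) (𝓝 ((n:ℝ) ^ (-(s i * 0)))) := by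
      apply Continuous.tendsto
      exact Continuous.rpow continuous_const (by fun_prop) (fun _ => Or.inl hn0.ne')
    rw [mul_zero, neg_zero, Real.rpow_zero] at this
    have h2 := Tendsto.const_mul (tau (α i) n) (this.mono_left (nhdsWithin_le_nhds (s := Set.Ioi (0:ℝ))))
    rw [mul_one] at h2
    exact h2

end

end Pool.Agent.LibZM
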