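import Mathlib
import Pool.Agent.LibZM.CS4
import Pool.Agent.LibZM.MK1

set_option autoImplicit false

namespace Pool.Agent.LibZM

open MeasureTheory Set Filter Topology Complex ProbabilityTheory
open scoped NNReal ComplexConjugate

/-- Hoelder's inequality with two factors, in integer powers. -/
lemma holder_two {μ : Measure ℝ} [IsFiniteMeasure μ] {f g : ℝ → ℝ} (hf : AEStronglyMeasurable f μ) (hg : AEStronglyMeasurable g μ) 
    (hf0 : ∀ t, 0 ≤ f t) (hg0 : ∀ t, 0 ≤ g t) {A B : ℝ} (hfA : ∀ᵐ t ∂μ, f t ≤ A) (hgB : ∀ᵐ t ∂μ, g t ≤ B) 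
    {r m k : ℕ} (hr : 1 ≤ r) (hk : k = 2 * r + m) : 
    (∫ t, f t ^ (2 * r) * g t ^ (2 * m) ∂μ) ^ k ≤ (∫ t, f t ^ k ∂μ) ^ (2 * r) * (∫ t, g t ^ (2 * k) ∂μ) ^ m := by
  rcases Nat.eq_zero_or_pos m with rfl | hm
  · simp only [mul_zero, pow_zero, mul_one, add_zero] at hk ⊢
    rw [hk]
  have hkr : (0:ℝ) < k := by exact_mod_cast (by omega : 0 < k)
  have hrr : (0:ℝ) < r := by exact_mod_cast hr
  have hmr : (0:ℝ) < m := by exact_mod_cast hm
  have hkc : (k:ℝ) = 2 * r + m := by rw [hk]; push_cast; ring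
  set pp : ℝ := k / (2 * r) with hpp
  set qq : ℝ := k / m with hqq
  have hpq : pp.HolderConjugate qq := by
    rw [Real.holderConjugate_iff]
    constructor
    · rw [hpp, lt_div_iff₀ (by positivity)]; linarith
    · rw [hpp, hqq, inv_div, inv_div, ← add_div, ← hkc, div_self hkr.ne']
  have hmf : MemLp (fun t => f t ^ (2 * r)) (ENNReal.ofReal pp) μ := by
    refine MemLp.of_bound (hf.pow _) (A ^ (2 * r)) ?_
    filter_upwards [hfA] with t ht
    rw [Real.norm_eq_abs, abs_of_nonneg (pow_nonneg (hf0 t) _)]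
    exact pow_le_pow_left₀ (hf0 t) ht _
  have hmg : MemLp (fun t => g t ^ (2 * m)) (ENNReal.ofReal qq) μ := by
    refine MemLp.of_bound (hg.pow _) (B ^ (2 * m)) ?_
    filter_upwards [hgB] with t ht
    rw [Real.norm_eq_abs, abs_of_nonneg (pow_nonneg (hg0 t) _)]
    exact pow_le_pow_left₀ (hg0 t) ht _
  have hH := integral_mul_le_Lp_mul_Lq_of_nonneg hpq (Eventually.of_forall fun t => pow_nonneg (hf0 t) (2 * r)) 
    (Eventually.of_forall fun t => pow_nonneg (hg0 t) (2 * m)) hmf hmg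
  have e1 : ∀ t, (f t ^ (2 * r)) ^ pp = f t ^ k := by
    intro t
    rw [← Real.rpow_natCast, ← Real.rpow_mul (hf0 t), ← Real.rpow_natCast]
    congr 1
    rw [hpp]; push_cast; field_simp
  have e2 : ∀ t, (g t ^ (2 * m)) ^ qq = g t ^ (2 * k) := by
    intro t
    rw [← Real.rpow_natCast, ← Real.rpow_mul (hg0 t), ← Real.rpow_natCast]
    congr 1
    rw [hqq]; push_cast; field_simp
  simp_rw [e1, e2] at hH
  set I1 := ∫ t, f t ^ k ∂μ with hI1
  set I2 := ∫ t, g t ^ (2 * k) ∂μ with hI2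
  have hI10 : 0 ≤ I1 := integral_nonneg fun t => pow_nonneg (hf0 t) _
  have hI20 : 0 ≤ I2 := integral_nonneg fun t => pow_nonneg (hg0 t) _
  have hL0 : 0 ≤ ∫ t, f t ^ (2 * r) * g t ^ (2 * m) ∂μ := integral_nonneg fun t => mul_nonneg (pow_nonneg (hf0 t) _) (pow_nonneg (hg0 t) _)
  calc (∫ t, f t ^ (2 * r) * g t ^ (2 * m) ∂μ) ^ k ≤ (I1 ^ (1 / pp) * I2 ^ (1 / qq)) ^ k := by gcongr
    _ = I1 ^ (2 * r) * I2 ^ m := by
        rw [mul_pow, ← Real.rpow_natCast (I1 ^ (1/pp)), ← Real.rpow_natCast (I2 ^ (1/qq)), ← Real.rpow_mul hI10, ← Real.rpow_mul hI20,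
          ← Real.rpow_natCast I1, ← Real.rpow_natCast I2]
        congr 2
        · rw [hpp]; push_cast; field_simp
        · rw [hqq]; field_simp

/-- Three-factor version. -/
lemma holder_three {μ : Measure ℝ} [IsFiniteMeasure μ] {f g h : ℝ → ℝ} (hf : AEStronglyMeasurable f μ) (hg : AEStronglyMeasurable g μ) 
    (hh : AEStronglyMeasurable h μ)
    (hf0 : ∀ t, 0 ≤ f t) (hg0 : ∀ t, 0 ≤ g t) (hh0 : ∀ t, 0 ≤ h t) {A B C : ℝ} (hfA : ∀ᵐ t ∂μ, f t ≤ A) (hgB : ∀ᵐ t ∂μ, g t ≤ B) 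
    (hhC : ∀ᵐ t ∂μ, h t ≤ C)
    {r m k : ℕ} (hr : 1 ≤ r) (hk : k = 2 * r + m) : 
    (∫ t, f t ^ r * g t ^ m * h t ∂μ) ^ (2 * k) ≤ (∫ t, f t ^ k ∂μ) ^ (2 * r) * (∫ t, g t ^ (2 * k) ∂μ) ^ m * (∫ t, h t ^ 2 ∂μ) ^ k := by
  have h2 := holder_two hf hg hf0 hg0 hfA hgB hr hk
  have hpq : (2:ℝ).HolderConjugate 2 := Real.HolderConjugate.two_two
  have hmf : MemLp (fun t => f t ^ r * g t ^ m) (ENNReal.ofReal 2) μ := by
    refine MemLp.of_bound ((hf.pow _).mul (hg.pow _)) (A ^ r * B ^ m) ?_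
    filter_upwards [hfA, hgB] with t ht ht'
    have h1 := hf0 t
    have h2 := hg0 t
    have h3 : 0 ≤ A := h1.trans ht
    rw [Real.norm_eq_abs, abs_of_nonneg (by positivity)]
    gcongr
  have hmh : MemLp h (ENNReal.ofReal 2) μ := by
    refine MemLp.of_bound hh C ?_
    filter_upwards [hhC] with t ht
    rw [Real.norm_eq_abs, abs_of_nonneg (hh0 t)]
    exact ht
  have hH := integral_mul_le_Lp_mul_Lq_of_nonneg hpq (Eventually.of_forall fun t => mul_nonneg (pow_nonneg (hf0 t) r) (pow_nonneg (hg0 t) m)) 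
    (Eventually.of_forall fun t => hh0 t) hmf hmh
  have e1 : ∀ t, (f t ^ r * g t ^ m) ^ (2:ℝ) = f t ^ (2 * r) * g t ^ (2 * m) := by
    intro t
    rw [Real.rpow_two]; ring
  have e2 : ∀ t, h t ^ (2:ℝ) = h t ^ 2 := fun t => Real.rpow_two _
  simp_rw [e1, e2] at hH
  set I1 := ∫ t, f t ^ (2 * r) * g t ^ (2 * m) ∂μ with hI1
  set I2 := ∫ t, h t ^ 2 ∂μ with hI2
  have hI10 : 0 ≤ I1 := integral_nonneg fun t => mul_nonneg (pow_nonneg (hf0 t) _) (pow_nonneg (hg0 t) _)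
  have hI20 : 0 ≤ I2 := integral_nonneg fun t => pow_nonneg (hh0 t) _
  have hL0 : 0 ≤ ∫ t, f t ^ r * g t ^ m * h t ∂μ := 
    integral_nonneg fun t => mul_nonneg (mul_nonneg (pow_nonneg (hf0 t) _) (pow_nonneg (hg0 t) _)) (hh0 t)
  have h3 : (∫ t, f t ^ r * g t ^ m * h t ∂μ) ^ 2 ≤ I1 * I2 := by
    calc (∫ t, f t ^ r * g t ^ m * h t ∂μ) ^ 2 ≤ (I1 ^ (1 / (2:ℝ)) * I2 ^ (1 / (2:ℝ))) ^ 2 := by gcongr
      _ = I1 * I2 := by
          rw [mul_pow, ← Real.rpow_natCast (I1 ^ (1/(2:ℝ))), ← Real.rpow_natCast (I2 ^ (1/(2:ℝ))), ← Real.rpow_mul hI10, ← Real.rpow_mul hI20]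
          norm_num
  calc (∫ t, f t ^ r * g t ^ m * h t ∂μ) ^ (2 * k) = ((∫ t, f t ^ r * g t ^ m * h t ∂μ) ^ 2) ^ k := by rw [pow_mul]
    _ ≤ (I1 * I2) ^ k := by gcongr
    _ = I1 ^ k * I2 ^ k := mul_pow _ _ _
    _ ≤ _ := by gcongr

lemma crit_ne_zero (t : ℝ) : crit t ≠ 0 := by
  intro h
  have := congrArg Complex.re h
  simp at this

lemma zeta1_crit (t : ℝ) : riemannZeta₁ (crit t) = (crit t - 1) * riemannZeta (crit t) := by
  rw [riemannZeta_eq_inv_sub_mul (crit_ne_one t)]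
  have : crit t - 1 ≠ 0 := sub_ne_zero.mpr (crit_ne_one t)
  field_simp

/-- Local lower bound for a fixed centre `u`. -/
theorem local_lower_r {b : ArithmeticFunction ℝ} {x : ℕ} (hb : ∀ n, 0 ≤ b n) (hx : SuppLe b x) 
    {r m k : ℕ} (hr : 1 ≤ r) (hk : k = 2 * r + m) {X : ℕ} (hX : 1 ≤ X)
    {u : ℝ} {v : ℝ≥0} (hv : 4 ≤ v) (hvX : 32 * (X:ℝ) ≤ v) {T R : ℝ} (hR : 0 ≤ R) (hu : R ≤ u) (hu' : u ≤ T - R) 
    {e₁ e₂ e₃ : ℝ}
    (he₁ : (Cerr r * (X * (1 + v + u + √v) ^ r * Real.exp (-v / (16 * (X:ℝ) ^ 2))) + 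
        (3 ^ r * ((2 * r).factorial * (2 * Real.exp 3))) * (1 + u + √v) ^ (2 * r) * Real.exp (-R / √v)) * 
        ((∑ n ∈ Finset.Icc 1 x, b n) ^ m * (∑ q ∈ Finset.Icc 1 X, (tau r * b ^ m) q)) ≤ e₁)
    (he₂ : 3 * ((x ^ k : ℕ):ℝ) ^ 2 * Real.exp (- v / (16 * ((x ^ k : ℕ):ℝ) ^ 2)) * (∑ n ∈ Finset.Icc 1 x, b n) ^ (2 * k) ≤ e₂)
    (he₃ : 3 * (X:ℝ) ^ 2 * Real.exp (- v / (16 * (X:ℝ) ^ 2)) * (∑ q ∈ Finset.Icc 1 X, (tau r * b ^ m) q) ^ 2 ≤ e₃)
    (hpos : 0 ≤ (u ^ r - (r * (r.factorial * (2 * Real.exp (3/2)))) * √v * (u + √v) ^ (r - 1)) * diag (tau r * b ^ m) X - e₁) :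
    ((u ^ r - (r * (r.factorial * (2 * Real.exp (3/2)))) * √v * (u + √v) ^ (r - 1)) * diag (tau r * b ^ m) X - e₁) ^ (2 * k) ≤ 
      ((u + R + 1) ^ r) ^ (2 * k) * ((∫ t in Icc 0 T, ‖riemannZeta (crit t)‖ ^ k ∂(gaussianReal u v)) ^ (2 * r) * 
        (diag (b ^ k) (x ^ k) + e₂) ^ m * (diag (tau r * b ^ m) X + e₃) ^ k) := by
  have hv' : (4:ℝ) ≤ v := by exact_mod_cast hv
  have hv0 : 0 < v := lt_of_lt_of_le (by norm_num) hv
  have hv1 : 1 ≤ v := le_trans (by norm_num) hv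
  have hu0 : 0 ≤ u := hR.trans hu
  set γ := gaussianReal u v with hγ
  set W := u ^ r - (r * (r.factorial * (2 * Real.exp (3/2)))) * √v * (u + √v) ^ (r - 1) with hW
  set Qc : ArithmeticFunction ℝ := tau r * b ^ m with hQc
  have hQc0 : ∀ n, 0 ≤ Qc n := mul_apply_nonneg (fun n => tau_nonneg (Nat.cast_nonneg r) n) (pow_nonneg_af hb m)
  set s1 := ∑ n ∈ Finset.Icc 1 x, b n with hs1
  have hs1n : 0 ≤ s1 := Finset.sum_nonneg fun n _ => hb n
  set sQ := ∑ q ∈ Finset.Icc 1 X, Qc q with hsQ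
  have hsQn : 0 ≤ sQ := Finset.sum_nonneg fun n _ => hQc0 n
  set S := diag Qc X with hS
  have hS0 : 0 ≤ S := Finset.sum_nonneg fun n _ => by positivity
  set D := diag (b ^ k) (x ^ k) with hD
  set B : ℝ → ℂ := fun t => dp b x (crit t) with hB
  set Q : ℝ → ℂ := fun t => dp Qc X (crit t) with hQ
  have hBc : Continuous B := continuous_dp_crit b x
  have hQcont : Continuous Q := continuous_dp_crit Qc X
  have hBn : ∀ t, ‖B t‖ ≤ s1 := fun t => norm_dp_crit_le hb x t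
  have hQn : ∀ t, ‖Q t‖ ≤ sQ := fun t => norm_dp_crit_le hQc0 X t
  have hBm : ∀ t, dp (b ^ m) (x ^ m) (crit t) = B t ^ m := fun t => dp_pow hx (crit_ne_zero t) m
  have hBk : ∀ t, dp (b ^ k) (x ^ k) (crit t) = B t ^ k := fun t => dp_pow hx (crit_ne_zero t) k
  -- twisted moment
  have h1 := twisted_r r hu0 (pow_nonneg_af hb m) hQc0 (hx.pow m) hX hvX
  rw [sum_coeff_pow hx] at h1
  have hSe : ∑ q ∈ Finset.Icc 1 X, (tau r * b ^ m) q * Qc q * (q:ℝ)⁻¹ = S := by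
    rw [hS, diag]
    refine Finset.sum_congr rfl fun q _ => ?_
    rw [← hQc]; ring
  rw [hSe] at h1
  set F : ℝ → ℂ := fun t => riemannZeta₁ (crit t) ^ r * dp (b ^ m) (x ^ m) (crit t) * conj (Q t) with hF
  set J := ∫ t, F t ∂γ with hJ
  have hJS : ‖J - TT r u v 0 * (S:ℂ)‖ ≤ Cerr r * (X * (1 + v + u + √v) ^ r * Real.exp (-v / (16 * (X:ℝ) ^ 2))) * (s1 ^ m * sQ) := h1
  have hFn : ∀ t, ‖F t‖ = ‖riemannZeta₁ (crit t)‖ ^ r * ‖B t‖ ^ m * ‖Q t‖ := by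
    intro t
    simp only [hF, hBm, norm_mul, norm_pow, RCLike.norm_conj]
  set g : ℝ → ℂ := fun t => dp (b ^ m) (x ^ m) (crit t) * conj (Q t) with hg
  have hgc : Continuous g := (continuous_dp_crit _ _).mul (Complex.continuous_conj.comp hQcont)
  have hgn : ∀ t, ‖g t‖ ≤ s1 ^ m * sQ := by
    intro t
    simp only [hg, hBm, norm_mul, norm_pow, RCLike.norm_conj]
    have := hBn t
    have := hQn t
    gcongr
  have hFi : Integrable F γ := by
    refine (integrable_zeta1_pow_mul r u (v := v) hgc hgn).congr (Eventually.of_forall fun t => ?_)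
    simp only [hF, hg]; ring
  set K := Icc (u - R) (u + R) with hK
  have hsplit : J = (∫ t in K, F t ∂γ) + ∫ t in Kᶜ, F t ∂γ := 
    (integral_add_compl measurableSet_Icc hFi).symm
  have hzi : Integrable (fun t => ‖riemannZeta₁ (crit t)‖ ^ r) γ := by
    have := (integrable_zeta1_pow_mul r u (v := v) (g := fun _ => 1) continuous_const (C := 1) (by simp)).norm
    refine this.congr (Eventually.of_forall fun t => ?_)
    simp
  have htail : ‖∫ t in Kᶜ, F t ∂γ‖ ≤ (3 ^ r * ((2 * r).factorial * (2 * Real.exp 3))) * (1 + u + √v) ^ (2 * r) * Real.exp (-R / √v) * (s1 ^ m * sQ) := by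
    have hle : ∀ t, ‖F t‖ ≤ ‖riemannZeta₁ (crit t)‖ ^ r * (s1 ^ m * sQ) := by
      intro t
      rw [hFn, mul_assoc]
      have := hBn t
      have := hQn t
      gcongr
    calc ‖∫ t in Kᶜ, F t ∂γ‖ ≤ ∫ t in Kᶜ, ‖riemannZeta₁ (crit t)‖ ^ r * (s1 ^ m * sQ) ∂γ := 
          norm_integral_le_of_norm_le (hzi.mul_const _).integrableOn (Eventually.of_forall hle)
      _ = (∫ t in Kᶜ, ‖riemannZeta₁ (crit t)‖ ^ r ∂γ) * (s1 ^ m * sQ) := integral_mul_const _ _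
      _ ≤ _ := by
          have := tail_zeta1 r hv0 hu0 (R := R)
          gcongr
  -- lower bound for the inner part
  have hWT := norm_TT_zero_ge r hv1 hu0
  rw [← hW] at hWT
  have hJin : W * S - e₁ ≤ ‖∫ t in K, F t ∂γ‖ := by
    have k1 : ‖TT r u v 0 * (S:ℂ)‖ ≤ ‖J‖ + ‖J - TT r u v 0 * (S:ℂ)‖ := by
      have := norm_sub_norm_le (TT r u v 0 * (S:ℂ)) J
      rw [norm_sub_rev] at this
      linarith
    have k2 : W * S ≤ ‖TT r u v 0 * (S:ℂ)‖ := by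
      rw [norm_mul, Complex.norm_real, Real.norm_eq_abs, abs_of_nonneg hS0]
      gcongr
    have k3 : ‖J‖ ≤ ‖∫ t in K, F t ∂γ‖ + ‖∫ t in Kᶜ, F t ∂γ‖ := by
      rw [hsplit]; exact norm_add_le _ _
    have k4 : (Cerr r * (X * (1 + v + u + √v) ^ r * Real.exp (-v / (16 * (X:ℝ) ^ 2))) + 
        (3 ^ r * ((2 * r).factorial * (2 * Real.exp 3))) * (1 + u + √v) ^ (2 * r) * Real.exp (-R / √v)) * (s1 ^ m * sQ) = 
        Cerr r * (X * (1 + v + u + √v) ^ r * Real.exp (-v / (16 * (X:ℝ) ^ 2))) * (s1 ^ m * sQ) + 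
        (3 ^ r * ((2 * r).factorial * (2 * Real.exp 3))) * (1 + u + √v) ^ (2 * r) * Real.exp (-R / √v) * (s1 ^ m * sQ) := by ring
    rw [k4] at he₁
    linarith
  -- upper bound for the inner part
  set G : ℝ → ℝ := fun t => ‖riemannZeta (crit t)‖ ^ r * ‖B t‖ ^ m * ‖Q t‖ with hG
  have hGc : Continuous G := ((continuous_zeta_crit.norm.pow _).mul (hBc.norm.pow _)).mul hQcont.norm
  have hG0 : ∀ t, 0 ≤ G t := fun t => by simp only [hG]; positivity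
  have hFG : ∀ t ∈ K, ‖F t‖ ≤ (u + R + 1) ^ r * G t := by
    intro t ht
    rw [hFn, zeta1_crit, norm_mul, mul_pow]
    have h5 : ‖crit t - 1‖ ≤ u + R + 1 := by
      refine (norm_crit_sub_one_le t).trans ?_
      have : |t| ≤ u + R := by rw [abs_le]; constructor <;> linarith [ht.1, ht.2]
      linarith
    calc ‖crit t - 1‖ ^ r * ‖riemannZeta (crit t)‖ ^ r * ‖B t‖ ^ m * ‖Q t‖ 
        ≤ (u + R + 1) ^ r * ‖riemannZeta (crit t)‖ ^ r * ‖B t‖ ^ m * ‖Q t‖ := by gcongr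
      _ = _ := by simp only [hG]; ring
  have hGi : IntegrableOn G (Icc 0 T) γ := (hGc.continuousOn).integrableOn_compact isCompact_Icc
  have hKsub : K ⊆ Icc 0 T := by
    intro t ht
    exact ⟨by linarith [ht.1], by linarith [ht.2]⟩
  have hup : ‖∫ t in K, F t ∂γ‖ ≤ (u + R + 1) ^ r * ∫ t in Icc 0 T, G t ∂γ := by
    calc ‖∫ t in K, F t ∂γ‖ ≤ ∫ t in K, (u + R + 1) ^ r * G t ∂γ := by
          refine norm_integral_le_of_norm_le ((hGi.mono_set hKsub).const_mul _) ?_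
          exact (ae_restrict_iff' measurableSet_Icc).mpr (Eventually.of_forall hFG)
      _ = (u + R + 1) ^ r * ∫ t in K, G t ∂γ := integral_const_mul _ _
      _ ≤ _ := by
          have : ∫ t in K, G t ∂γ ≤ ∫ t in Icc 0 T, G t ∂γ := 
            setIntegral_mono_set hGi (Eventually.of_forall hG0) (LE.le.eventuallyLE hKsub)
          gcongr
  -- Hoelder
  have hH := holder_three (μ := γ.restrict (Icc 0 T)) (f := fun t => ‖riemannZeta (crit t)‖) (g := fun t => ‖B t‖) (h := fun t => ‖Q t‖)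
    continuous_zeta_crit.norm.aestronglyMeasurable hBc.norm.aestronglyMeasurable hQcont.norm.aestronglyMeasurable 
    (fun t => norm_nonneg _) (fun t => norm_nonneg _) (fun t => norm_nonneg _) (A := 4 + 2 * T) (B := s1) (C := sQ) 
    ((ae_restrict_iff' measurableSet_Icc).mpr (Eventually.of_forall fun t ht => by
      refine (norm_zeta_crit_le t).trans ?_
      rw [abs_of_nonneg ht.1]; linarith [ht.2])) (Eventually.of_forall hBn) (Eventually.of_forall hQn) hr hk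
  -- mean squares
  have hE2 : ∫ t in Icc 0 T, ‖B t‖ ^ (2 * k) ∂γ ≤ D + e₂ := by
    have h3 := mean_square u hv (pow_nonneg_af hb k) (x ^ k)
    rw [sum_coeff_pow hx] at h3
    have hi : Integrable (fun t => ‖B t‖ ^ (2 * k)) γ := by
      refine Integrable.mono' (g := fun _ => s1 ^ (2 * k)) (integrable_const _) 
        (by fun_prop) (Eventually.of_forall fun t => ?_)
      rw [Real.norm_eq_abs, abs_of_nonneg (by positivity)]
      have := hBn t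
      gcongr
    calc ∫ t in Icc 0 T, ‖B t‖ ^ (2 * k) ∂γ ≤ ∫ t, ‖B t‖ ^ (2 * k) ∂γ := 
          setIntegral_le_integral hi (Eventually.of_forall fun t => by simp only [Pi.zero_apply]; positivity)
      _ = ∫ t, ‖dp (b ^ k) (x ^ k) (crit t)‖ ^ 2 ∂γ := by
          congr 1; ext t; rw [hBk, norm_pow, ← pow_mul]; congr 1; ring
      _ ≤ D + e₂ := by
          have h4 := (abs_le.mp h3).2
          have h5 : (s1 ^ k) ^ 2 = s1 ^ (2 * k) := by rw [← pow_mul]; congr 1; ring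
          rw [h5] at h4
          have : D = ∑ q ∈ Finset.Icc 1 (x ^ k), ((b ^ k) q) ^ 2 * (q:ℝ)⁻¹ := rfl
          linarith
  have hE3 : ∫ t in Icc 0 T, ‖Q t‖ ^ 2 ∂γ ≤ S + e₃ := by
    have h3 := mean_square u hv hQc0 X
    have hi : Integrable (fun t => ‖Q t‖ ^ 2) γ := by
      refine Integrable.mono' (g := fun _ => sQ ^ 2) (integrable_const _) 
        (by fun_prop) (Eventually.of_forall fun t => ?_)
      rw [Real.norm_eq_abs, abs_of_nonneg (by positivity)]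
      have := hQn t
      gcongr
    calc ∫ t in Icc 0 T, ‖Q t‖ ^ 2 ∂γ ≤ ∫ t, ‖Q t‖ ^ 2 ∂γ := 
          setIntegral_le_integral hi (Eventually.of_forall fun t => by simp only [Pi.zero_apply]; positivity)
      _ ≤ S + e₃ := by
          have h4 := (abs_le.mp h3).2
          have : S = ∑ q ∈ Finset.Icc 1 X, (Qc q) ^ 2 * (q:ℝ)⁻¹ := rfl
          linarith
  have hE20 : 0 ≤ ∫ t in Icc 0 T, ‖B t‖ ^ (2 * k) ∂γ := integral_nonneg fun t => by positivity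
  have hE30 : 0 ≤ ∫ t in Icc 0 T, ‖Q t‖ ^ 2 ∂γ := integral_nonneg fun t => by positivity
  have hZ0 : 0 ≤ ∫ t in Icc 0 T, ‖riemannZeta (crit t)‖ ^ k ∂γ := integral_nonneg fun t => by positivity
  have hfin := hJin.trans hup
  have hDe : 0 ≤ D + e₂ := hE20.trans hE2
  have hSe0 : 0 ≤ S + e₃ := hE30.trans hE3
  calc (W * S - e₁) ^ (2 * k) ≤ ((u + R + 1) ^ r * ∫ t in Icc 0 T, G t ∂γ) ^ (2 * k) := by gcongr
    _ = ((u + R + 1) ^ r) ^ (2 * k) * (∫ t in Icc 0 T, G t ∂γ) ^ (2 * k) := mul_pow _ _ _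
    _ ≤ ((u + R + 1) ^ r) ^ (2 * k) * ((∫ t in Icc 0 T, ‖riemannZeta (crit t)‖ ^ k ∂γ) ^ (2 * r) * 
        (∫ t in Icc 0 T, ‖B t‖ ^ (2 * k) ∂γ) ^ m * (∫ t in Icc 0 T, ‖Q t‖ ^ 2 ∂γ) ^ k) := by gcongr
    _ ≤ _ := by gcongr

end Pool.Agent.LibZM
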