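import Mathlib
import Pool.Agent.LibZM.CS5

set_option autoImplicit false

namespace Pool.Agent.LibZM

open MeasureTheory Set Filter Topology Complex
open scoped NNReal ComplexConjugate

lemma integrable_exp_neg_abs : Integrable (fun y : ℝ => Real.exp (-|y|)) := by
  refine Integrable.mono' (integrable_inv_one_add_sq.const_mul 2) (by fun_prop) (Eventually.of_forall fun y => ?_)
  rw [Real.norm_eq_abs, abs_of_pos (Real.exp_pos _), Real.exp_neg, ← div_eq_mul_inv, inv_eq_one_div, 
    div_le_div_iff₀ (Real.exp_pos _) (by positivity)]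
  have h := Real.quadratic_le_exp_of_nonneg (abs_nonneg y)
  rw [sq_abs] at h
  have := abs_nonneg y
  nlinarith

/-- Gabriel's convexity theorem for first-power means along vertical lines. -/
theorem gabriel {G : ℂ → ℂ} (hG : Differentiable ℂ G) {a' a b b' C : ℝ} (haa : a' < a) (hab : a < b) (hbb : b < b') 
    (hC : ∀ x ∈ Icc a' b', ∀ y : ℝ, ‖G (x + y * I)‖ ≤ C * Real.exp (-|y|)) {x : ℝ} (hx : x ∈ Icc a b) : 
    ∫ y : ℝ, ‖G (x + y * I)‖ ≤ 
      (∫ y : ℝ, ‖G (a + y * I)‖) ^ (1 - (x - a) / (b - a)) * (∫ y : ℝ, ‖G (b + y * I)‖) ^ ((x - a) / (b - a)) := by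
  have hC0 : 0 ≤ C := by
    have := (norm_nonneg _).trans (hC a' ⟨le_rfl, by linarith⟩ 0)
    simpa using this
  have hz : ∀ z : ℂ, z.re ∈ Icc a' b' → ∀ y : ℝ, ‖G (z + y * I)‖ ≤ (C * Real.exp |z.im|) * Real.exp (-|y|) := by
    intro z hz y
    have e : z + y * I = ((z.re : ℝ) : ℂ) + ((z.im + y : ℝ) : ℂ) * I := by
      nth_rewrite 1 [← Complex.re_add_im z]; push_cast; ring
    rw [e]
    refine (hC z.re hz (z.im + y)).trans ?_
    rw [mul_assoc, ← Real.exp_add]
    gcongr
    have := abs_sub_abs_le_abs_sub y (-z.im)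
    rw [abs_neg, sub_neg_eq_add, add_comm y] at this
    linarith
  set φ : ℝ → ℂ := fun y => conj (G (x + y * I)) / (‖G (x + y * I)‖ : ℂ) with hφ
  have hline : ∀ c : ℂ, Continuous (fun y : ℝ => G (c + y * I)) := fun c => hG.continuous.comp (by fun_prop)
  have hφm : Measurable φ := by
    have h1 : Measurable (fun y : ℝ => G (x + y * I)) := (hline x).measurable
    have h2 : Measurable (fun y : ℝ => conj (G (x + y * I))) := (Complex.continuous_conj.comp (hline x)).measurable
    have h3 : Measurable (fun y : ℝ => ((‖G (x + y * I)‖ : ℝ) : ℂ)) := (Complex.continuous_ofReal.comp (hline x).norm).measurable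
    exact h2.div h3
  have hφn : ∀ y, ‖φ y‖ ≤ 1 := by
    intro y
    simp only [hφ]
    rw [norm_div, RCLike.norm_conj, Complex.norm_real, norm_norm]
    exact div_self_le_one _
  set Φ : ℂ → ℂ := fun z => ∫ y : ℝ, G (z + y * I) * φ y with hΦ
  have hmeas : ∀ z : ℂ, AEStronglyMeasurable (fun y : ℝ => G (z + y * I) * φ y) := fun z => 
    ((hline z).measurable.mul hφm).aestronglyMeasurable
  have hint : ∀ z : ℂ, z.re ∈ Icc a' b' → Integrable (fun y : ℝ => G (z + y * I) * φ y) := by
    intro z hz'
    refine Integrable.mono' (integrable_exp_neg_abs.const_mul (C * Real.exp |z.im|)) (hmeas z) (Eventually.of_forall fun y => ?_)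
    rw [norm_mul]
    calc ‖G (z + y * I)‖ * ‖φ y‖ ≤ ‖G (z + y * I)‖ * 1 := by
          apply mul_le_mul_of_nonneg_left (hφn y) (norm_nonneg _)
      _ = ‖G (z + y * I)‖ := mul_one _
      _ ≤ _ := hz z hz' y
  have hint' : ∀ z : ℂ, z.re ∈ Icc a' b' → Integrable (fun y : ℝ => ‖G (z + y * I)‖) := by
    intro z hz'
    refine Integrable.mono' (integrable_exp_neg_abs.const_mul (C * Real.exp |z.im|)) (hline z).norm.aestronglyMeasurable (Eventually.of_forall fun y => ?_)
    rw [norm_norm]
    exact hz z hz' y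
  -- differentiability
  have hdiff : ∀ z0 : ℂ, a' < z0.re → z0.re < b' → DifferentiableAt ℂ Φ z0 := by
    intro z0 h1 h2
    set ρ := min (z0.re - a') (b' - z0.re) / 2 with hρ
    have hρ0 : 0 < ρ := by
      have : 0 < min (z0.re - a') (b' - z0.re) := lt_min (by linarith) (by linarith)
      positivity
    have hρ1 : 2 * ρ ≤ z0.re - a' := by rw [hρ]; linarith [min_le_left (z0.re - a') (b' - z0.re)]
    have hρ2 : 2 * ρ ≤ b' - z0.re := by rw [hρ]; linarith [min_le_right (z0.re - a') (b' - z0.re)]
    have hball : ∀ z ∈ Metric.closedBall z0 (2 * ρ), z.re ∈ Icc a' b' ∧ |z.im| ≤ |z0.im| + 2 * ρ := by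
      intro z hz
      rw [Metric.mem_closedBall, Complex.dist_eq] at hz
      have h3 := (Complex.abs_re_le_norm (z - z0)).trans hz
      have h4 := (Complex.abs_im_le_norm (z - z0)).trans hz
      rw [Complex.sub_re] at h3
      rw [Complex.sub_im] at h4
      rw [abs_le] at h3
      refine ⟨⟨by linarith [h3.1], by linarith [h3.2]⟩, ?_⟩
      have := abs_sub_abs_le_abs_sub z.im z0.im
      linarith
    have hder : ∀ z ∈ Metric.ball z0 ρ, ∀ y : ℝ, ‖deriv G (z + y * I)‖ ≤ ((C * Real.exp (|z0.im| + 2 * ρ)) * Real.exp (-|y|)) / ρ := by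
      intro z hzb y
      apply Complex.norm_deriv_le_of_forall_mem_sphere_norm_le hρ0 hG.diffContOnCl
      intro w hw
      have hw' : w - y * I ∈ Metric.closedBall z0 (2 * ρ) := by
        rw [Metric.mem_sphere, Complex.dist_eq] at hw
        rw [Metric.mem_ball, Complex.dist_eq] at hzb
        rw [Metric.mem_closedBall, Complex.dist_eq]
        have : w - y * I - z0 = (w - (z + y * I)) + (z - z0) := by ring
        rw [this]
        refine (norm_add_le _ _).trans ?_
        linarith
      obtain ⟨h3, h4⟩ := hball _ hw'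
      have h5 := hz _ h3 y
      have e : w - y * I + y * I = w := by ring
      rw [e] at h5
      refine h5.trans ?_
      gcongr
    have key := hasDerivAt_integral_of_dominated_loc_of_deriv_le (μ := volume) (F := fun (z : ℂ) (y : ℝ) => G (z + y * I) * φ y) 
      (F' := fun (z : ℂ) (y : ℝ) => deriv G (z + y * I) * φ y) (x₀ := z0) (s := Metric.ball z0 ρ) 
      (bound := fun y => ((C * Real.exp (|z0.im| + 2 * ρ)) * Real.exp (-|y|)) / ρ)
      (Metric.ball_mem_nhds z0 hρ0) (Eventually.of_forall fun z => hmeas z) 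
      (hint z0 ⟨h1.le, h2.le⟩) (by
        have hdc : Continuous (deriv G) := (hG.contDiff (n := 1)).continuous_deriv le_rfl
        have : Continuous (fun y : ℝ => deriv G (z0 + y * I)) := hdc.comp (by fun_prop)
        exact (this.measurable.mul hφm).aestronglyMeasurable) 
      (Eventually.of_forall fun y z hzb => by
        rw [norm_mul]
        calc ‖deriv G (z + y * I)‖ * ‖φ y‖ ≤ ‖deriv G (z + y * I)‖ * 1 := by
              apply mul_le_mul_of_nonneg_left (hφn y) (norm_nonneg _)
          _ = ‖deriv G (z + y * I)‖ := mul_one _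
          _ ≤ _ := hder z hzb y)
      ((integrable_exp_neg_abs.const_mul _).div_const _)
      (Eventually.of_forall fun y z _ => by
        have h3 : HasDerivAt G (deriv G (z + y * I)) (z + y * I) := (hG _).hasDerivAt
        have h4 : HasDerivAt (fun z : ℂ => z + y * I) 1 z := (hasDerivAt_id z).add_const _
        have h5 := h3.comp z h4
        rw [mul_one] at h5
        exact h5.mul_const (φ y))
    exact key.2.differentiableAt
  have htrans : ∀ z : ℂ, ∫ y : ℝ, ‖G (z + y * I)‖ = ∫ y : ℝ, ‖G ((z.re : ℂ) + y * I)‖ := by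
    intro z
    rw [← integral_add_left_eq_self (fun y : ℝ => ‖G ((z.re : ℂ) + y * I)‖) z.im]
    congr 1; ext y
    congr 2
    nth_rewrite 1 [← Complex.re_add_im z]; push_cast; ring
  have hle : ∀ z : ℂ, ‖Φ z‖ ≤ ∫ y : ℝ, ‖G (z + y * I)‖ ∨ ¬ z.re ∈ Icc a' b' := by
    intro z
    by_cases hz' : z.re ∈ Icc a' b'
    · left
      refine norm_integral_le_of_norm_le (hint' z hz') (Eventually.of_forall fun y => ?_)
      rw [norm_mul]
      exact mul_le_of_le_one_right (norm_nonneg _) (hφn y)
    · right; exact hz'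
  have hbound : ∀ z : ℂ, z.re ∈ Icc a' b' → ∫ y : ℝ, ‖G (z + y * I)‖ ≤ C * ∫ y : ℝ, Real.exp (-|y|) := by
    intro z hz'
    rw [htrans, ← integral_const_mul]
    have h1 := hint' ((z.re : ℝ) : ℂ) (by simpa using hz')
    exact integral_mono h1 (integrable_exp_neg_abs.const_mul C) fun y => hC z.re hz' y
  have hx' : (x:ℂ) ∈ HadamardThreeLines.verticalClosedStrip a b := by
    rw [HadamardThreeLines.verticalClosedStrip, mem_preimage]; simpa using hx
  have hmain := HadamardThreeLines.norm_le_interp_of_mem_verticalClosedStrip' (f := Φ) (z := (x:ℂ)) 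
    (a := ∫ y : ℝ, ‖G (a + y * I)‖) (b := ∫ y : ℝ, ‖G (b + y * I)‖) hab hx' (by
      apply DifferentiableOn.diffContOnCl
      intro z hz'
      have hcl : closure (HadamardThreeLines.verticalStrip a b) ⊆ re ⁻¹' Icc a b := by
        apply closure_minimal
        · intro w hw; exact Ioo_subset_Icc_self hw
        · exact isClosed_Icc.preimage Complex.continuous_re
      have := hcl hz'
      rw [mem_preimage, mem_Icc] at this
      exact (hdiff z (by linarith [this.1]) (by linarith [this.2])).differentiableWithinAt) (by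
      refine ⟨C * ∫ y : ℝ, Real.exp (-|y|), ?_⟩
      rintro _ ⟨z, hz', rfl⟩
      rw [HadamardThreeLines.verticalClosedStrip, mem_preimage, mem_Icc] at hz'
      have h1 : z.re ∈ Icc a' b' := ⟨by linarith [hz'.1], by linarith [hz'.2]⟩
      rcases hle z with h | h
      · exact h.trans (hbound z h1)
      · exact absurd h1 h) (by
      intro z hz'
      rw [mem_preimage, mem_singleton_iff] at hz'
      rcases hle z with h | h
      · rw [htrans, hz'] at h; exact h
      · exact absurd (by rw [hz']; exact ⟨haa.le, by linarith⟩) h) (by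
      intro z hz'
      rw [mem_preimage, mem_singleton_iff] at hz'
      rcases hle z with h | h
      · rw [htrans, hz'] at h; exact h
      · exact absurd (by rw [hz']; exact ⟨by linarith, hbb.le⟩) h)
  have hval : Φ x = ((∫ y : ℝ, ‖G (x + y * I)‖ : ℝ) : ℂ) := by
    simp only [hΦ]
    rw [← integral_complex_ofReal]
    congr 1; ext y
    simp only [hφ]
    rcases eq_or_ne (G (x + y * I)) 0 with h0 | h0
    · rw [h0]; simp
    · have h1 : ((‖G (x + y * I)‖ : ℝ) : ℂ) ≠ 0 := by
        rw [Ne, Complex.ofReal_eq_zero, norm_eq_zero]; exact h0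
      rw [mul_div_assoc', Complex.mul_conj, Complex.normSq_eq_norm_sq]
      rw [div_eq_iff h1]
      push_cast; ring
  rw [hval, Complex.norm_real, Real.norm_eq_abs, abs_of_nonneg (integral_nonneg fun y => norm_nonneg _), Complex.ofReal_re] at hmain
  exact hmain

end Pool.Agent.LibZM
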