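import Mathlib
import Pool.Agent.LibZM.HB1

set_option autoImplicit false

namespace Pool.Agent.LibZM

open MeasureTheory Set Filter Topology Complex ProbabilityTheory
open scoped NNReal ComplexConjugate

/-- Gaussian mean of `|F|` on the vertical line with abscissa `x`. -/
noncomputable def En (F : ℂ → ℂ) (u : ℝ) (v : ℝ≥0) (x : ℝ) : ℝ := ∫ t : ℝ, ‖F (x + t * I)‖ ∂(gaussianReal u v)

lemma En_nonneg (F : ℂ → ℂ) (u : ℝ) (v : ℝ≥0) (x : ℝ) : 0 ≤ En F u v x := integral_nonneg fun _ => norm_nonneg _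

lemma En_eq (F : ℂ → ℂ) {u : ℝ} {v : ℝ≥0} (hv : 0 < v) (x : ℝ) : 
    ∫ y : ℝ, ‖F (x + y * I) * KK u v (x + y * I)‖ = 
      Real.exp ((x - 1/2) ^ 2 / (2 * v)) * (√(2 * Real.pi * v) * En F u v x) := by
  have hv' : (0:ℝ) < v := by exact_mod_cast hv
  have h := KK_bound_gauss (u := u) hv.ne' (fun y : ℝ => ‖F (x + y * I)‖)
  have hc : √(2 * Real.pi * v) ≠ 0 := by positivity
  unfold En
  rw [← h, ← mul_assoc (√(2 * Real.pi * v)), mul_inv_cancel₀ hc, one_mul, ← integral_const_mul]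
  congr 1; ext y
  rw [norm_mul, norm_KK]
  have : Real.exp (((x - 1/2) ^ 2 - (y - u) ^ 2) / (2 * v)) = Real.exp ((x - 1/2) ^ 2 / (2 * v)) * Real.exp (-(y - u) ^ 2 / (2 * v)) := by
    rw [← Real.exp_add]; congr 1; ring
  rw [this]; ring

/-- Convexity of Gaussian first-power means. -/
theorem convex_En {F : ℂ → ℂ} (hF : Differentiable ℂ F) {a' a b b' C : ℝ} (haa : a' < a) (hab : a < b) (hbb : b < b') 
    (hC0 : 0 ≤ C) (hC : ∀ x ∈ Icc a' b', ∀ y : ℝ, ‖F (x + y * I)‖ ≤ C * Real.exp |y|) {u : ℝ} {v : ℝ≥0} (hv : 0 < v) 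
    {x M : ℝ} (hx : x ∈ Icc a b) (hMa : (a - 1/2) ^ 2 ≤ M) (hMb : (b - 1/2) ^ 2 ≤ M) : 
    En F u v x ≤ Real.exp (M / (2 * v)) * (En F u v a ^ (1 - (x - a) / (b - a)) * En F u v b ^ ((x - a) / (b - a))) := by
  have hv' : (0:ℝ) < v := by exact_mod_cast hv
  set Bd : ℝ := ((a' - 1/2) ^ 2 + (b' - 1/2) ^ 2) / (2 * v) with hBd
  have hgrow : ∀ x ∈ Icc a' b', ∀ y : ℝ, ‖F (x + y * I) * KK u v (x + y * I)‖ ≤ (C * Real.exp (Bd + 2 * |u| + 2 * v)) * Real.exp (-|y|) := by
    intro x hx y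
    rw [norm_mul, norm_KK]
    have h1 : ((x - 1/2) ^ 2 - (y - u) ^ 2) / (2 * v) ≤ Bd - (y - u) ^ 2 / (2 * v) := by
      rw [hBd, ← sub_div]
      gcongr
      have : (x - 1/2) ^ 2 ≤ (a' - 1/2) ^ 2 + (b' - 1/2) ^ 2 := by
        rcases le_total x (1/2) with h | h
        · have := hx.1; nlinarith [sq_nonneg (b' - 1/2)]
        · have := hx.2; nlinarith [sq_nonneg (a' - 1/2)]
      linarith
    have h2 : 2 * |y| ≤ 2 * |u| + 2 * v + (y - u) ^ 2 / (2 * v) := by
      have h3 : |y| ≤ |u| + |y - u| := by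
        have := abs_add_le u (y - u)
        rwa [add_sub_cancel] at this
      have h4 : 2 * |y - u| ≤ 2 * v + (y - u) ^ 2 / (2 * v) := by
        rw [← sq_abs (y - u)]
        have : 0 ≤ (|y - u| - 2 * v) ^ 2 / (2 * v) := by positivity
        have e : (|y - u| - 2 * v) ^ 2 / (2 * v) = |y - u| ^ 2 / (2 * v) - 2 * |y - u| + 2 * v := by
          field_simp; ring
        linarith
      linarith
    calc ‖F (x + y * I)‖ * Real.exp (((x - 1/2) ^ 2 - (y - u) ^ 2) / (2 * v)) 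
        ≤ (C * Real.exp |y|) * Real.exp (Bd - (y - u) ^ 2 / (2 * v)) := by
          have := hC x hx y
          gcongr
      _ = C * Real.exp (|y| + (Bd - (y - u) ^ 2 / (2 * v))) := by rw [mul_assoc, ← Real.exp_add]
      _ ≤ C * Real.exp ((Bd + 2 * |u| + 2 * v) + -|y|) := by
          apply mul_le_mul_of_nonneg_left _ hC0
          apply Real.exp_le_exp.mpr
          linarith
      _ = _ := by rw [Real.exp_add, mul_assoc]
  have h := gabriel (G := fun s => F s * KK u v s) (hF.mul (differentiable_KK u v)) haa hab hbb hgrow hx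
  rw [En_eq F hv, En_eq F hv, En_eq F hv] at h
  set τ := (x - a) / (b - a) with hτ
  have hba : 0 < b - a := by linarith
  have hτ0 : 0 ≤ τ := div_nonneg (by linarith [hx.1]) hba.le
  have hτ1 : τ ≤ 1 := by rw [hτ, div_le_one hba]; linarith [hx.2]
  have hEa := En_nonneg F u v a
  have hEb := En_nonneg F u v b
  have hEx := En_nonneg F u v x
  set c := √(2 * Real.pi * v) with hc
  have hc0 : 0 < c := by positivity
  have e1 : (Real.exp ((a - 1/2) ^ 2 / (2 * v)) * (c * En F u v a)) ^ (1 - τ) ≤ Real.exp (M / (2 * v)) ^ (1 - τ) * (c ^ (1 - τ) * En F u v a ^ (1 - τ)) := by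
    rw [Real.mul_rpow (Real.exp_pos _).le (by positivity), Real.mul_rpow hc0.le hEa]
    apply mul_le_mul_of_nonneg_right _ (by positivity)
    apply Real.rpow_le_rpow (Real.exp_pos _).le _ (by linarith)
    apply Real.exp_le_exp.mpr
    gcongr
  have e2 : (Real.exp ((b - 1/2) ^ 2 / (2 * v)) * (c * En F u v b)) ^ τ ≤ Real.exp (M / (2 * v)) ^ τ * (c ^ τ * En F u v b ^ τ) := by
    rw [Real.mul_rpow (Real.exp_pos _).le (by positivity), Real.mul_rpow hc0.le hEb]
    apply mul_le_mul_of_nonneg_right _ (by positivity)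
    apply Real.rpow_le_rpow (Real.exp_pos _).le _ hτ0
    apply Real.exp_le_exp.mpr
    gcongr
  have e3 : c * En F u v x ≤ Real.exp ((x - 1/2) ^ 2 / (2 * v)) * (c * En F u v x) := by
    apply le_mul_of_one_le_left (by positivity)
    apply Real.one_le_exp; positivity
  have e4 : c * En F u v x ≤ c * (Real.exp (M / (2 * v)) * (En F u v a ^ (1 - τ) * En F u v b ^ τ)) := by
    calc c * En F u v x ≤ _ := e3
      _ ≤ _ := h
      _ ≤ (Real.exp (M / (2 * v)) ^ (1 - τ) * (c ^ (1 - τ) * En F u v a ^ (1 - τ))) * (Real.exp (M / (2 * v)) ^ τ * (c ^ τ * En F u v b ^ τ)) := by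
          apply mul_le_mul e1 e2 (by positivity) (by positivity)
      _ = (Real.exp (M / (2 * v)) ^ (1 - τ) * Real.exp (M / (2 * v)) ^ τ) * (c ^ (1 - τ) * c ^ τ) * (En F u v a ^ (1 - τ) * En F u v b ^ τ) := by ring
      _ = _ := by
          rw [← Real.rpow_add (Real.exp_pos _), ← Real.rpow_add hc0, sub_add_cancel, Real.rpow_one, Real.rpow_one]; ring
  exact le_of_mul_le_mul_left e4 hc0

end Pool.Agent.LibZM
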