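import Mathlib
import Pool.Agent.LibZM.MK1

set_option autoImplicit false

namespace Pool.Agent.LibZM

open Finset ArithmeticFunction Filter Topology

/-- zeta on the real axis as a sum. -/
noncomputable def Zt (σ : ℝ) : ℝ := ∑' n : ℕ, 1 / (n:ℝ) ^ σ

section

variable {ι : Type*} [Fintype ι] (α : ι → ℝ) (s s' : ι → ℝ) (s0 : ℝ)

noncomputable def Lser (δ : ℝ) : ℝ := ∑' q : ℕ, cfe α s δ q * cfe α s' δ q * (q:ℝ) ^ (-(1+s0*δ))

noncomputable def Lp (p : ℕ) (δ : ℝ) : ℝ := 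
  ∑' a : ℕ, cfe α s δ (p ^ a) * cfe α s' δ (p ^ a) * ((p:ℝ) ^ (-(1+s0*δ))) ^ a

noncomputable def Ef (p : ℕ) (δ : ℝ) : ℝ := 
  (∏ i, ∏ j, (1 - (p:ℝ) ^ (-(1+(s0+s i+s' j)*δ))) ^ (α i * α j)) * Lp α s s' s0 p δ

variable {α s s' s0} (hα : ∀ i, 0 ≤ α i) (hs : ∀ i, 0 ≤ s i) (hs' : ∀ i, 0 ≤ s' i) (hs0 : 0 < s0)

include hα hs hs' 

lemma cfe_mul_le {δ : ℝ} (hδ : 0 ≤ δ) (q : ℕ) : cfe α s δ q * cfe α s' δ q ≤ tau (∑ i, α i) q ^ 2 := by
  rw [pow_two]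
  exact mul_le_mul (cfe_le hα hs hδ q) (cfe_le hα hs' hδ q) (cfe_nonneg hα _ _ _) (tau_nonneg (sum_nonneg fun i _ => hα i) q)

lemma Lterm_le {δ : ℝ} (hδ : 0 ≤ δ) {p : ℕ} (hp : p.Prime) {z : ℝ} (hz : 0 ≤ z) (a : ℕ) : 
    cfe α s δ (p ^ a) * cfe α s' δ (p ^ a) * z ^ a ≤ dcoef (∑ i, α i) a ^ 2 * z ^ a := by
  have h := cfe_mul_le hα hs hs' hδ (p ^ a)
  rw [tau_prime_pow _ hp] at h
  exact mul_le_mul_of_nonneg_right h (by positivity)

lemma Lterm_nonneg {δ : ℝ} (q : ℕ) : 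
    0 ≤ cfe α s δ q * cfe α s' δ q := mul_nonneg (cfe_nonneg hα _ _ _) (cfe_nonneg hα _ _ _)

lemma summable_Lp {δ : ℝ} (hδ : 0 ≤ δ) {p : ℕ} (hp : p.Prime) {z : ℝ} (hz : 0 ≤ z) (hz1 : z < 1) : 
    Summable fun a : ℕ => cfe α s δ (p ^ a) * cfe α s' δ (p ^ a) * z ^ a := by
  refine Summable.of_nonneg_of_le (fun a => ?_) (fun a => Lterm_le hα hs hs' hδ hp hz a) (summable_G (sum_nonneg fun i _ => hα i) hz hz1)
  exact mul_nonneg (Lterm_nonneg hα hs hs' _) (by positivity)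

lemma Lp_bounds {δ : ℝ} (hδ : 0 ≤ δ) {p : ℕ} (hp : p.Prime) {z : ℝ} (hz : 0 ≤ z) (hz1 : z ≤ 1/2) : 
    1 + (∑ i, α i * (p:ℝ) ^ (-(s i * δ))) * (∑ i, α i * (p:ℝ) ^ (-(s' i * δ))) * z ≤ 
      ∑' a : ℕ, cfe α s δ (p ^ a) * cfe α s' δ (p ^ a) * z ^ a ∧ 
    ∑' a : ℕ, cfe α s δ (p ^ a) * cfe α s' δ (p ^ a) * z ^ a ≤ 
      1 + (∑ i, α i * (p:ℝ) ^ (-(s i * δ))) * (∑ i, α i * (p:ℝ) ^ (-(s' i * δ))) * z + 
        4 * Gsum (∑ i, α i) (1/2) * z ^ 2 := by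
  have hκ : 0 ≤ ∑ i, α i := sum_nonneg fun i _ => hα i
  have hS := summable_Lp hα hs hs' hδ hp hz (by linarith)
  have h0 := hS.sum_add_tsum_nat_add 2
  rw [← h0]
  have e0 : ∑ a ∈ range 2, cfe α s δ (p ^ a) * cfe α s' δ (p ^ a) * z ^ a = 
      1 + (∑ i, α i * (p:ℝ) ^ (-(s i * δ))) * (∑ i, α i * (p:ℝ) ^ (-(s' i * δ))) * z := by
    rw [sum_range_succ, sum_range_one]
    simp only [pow_zero, pow_one]
    rw [(cfe_isMultiplicative s δ).map_one, (cfe_isMultiplicative s' δ).map_one, cfe_prime _ _ hp, cfe_prime _ _ hp]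
    ring
  rw [e0]
  have hT : ∀ a : ℕ, 0 ≤ cfe α s δ (p ^ (a+2)) * cfe α s' δ (p ^ (a+2)) * z ^ (a+2) := fun a => 
    mul_nonneg (Lterm_nonneg hα hs hs' _) (by positivity)
  constructor
  · have := tsum_nonneg (L := SummationFilter.unconditional ℕ) hT
    linarith
  · have hG := summable_G hκ (by norm_num : (0:ℝ) ≤ 1/2) (by norm_num)
    have hG2 := (summable_nat_add_iff 2).mpr hG
    have h1 : ∑' a : ℕ, cfe α s δ (p ^ (a+2)) * cfe α s' δ (p ^ (a+2)) * z ^ (a+2) ≤ 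
        ∑' a : ℕ, (4 * z ^ 2) * (dcoef (∑ i, α i) (a+2) ^ 2 * (1/2) ^ (a+2)) := by
      refine ((summable_nat_add_iff 2).mpr hS).tsum_le_tsum (fun a => ?_) (hG2.mul_left _)
      refine (Lterm_le hα hs hs' hδ hp hz (a+2)).trans ?_
      have h2 : z ^ (a+2) ≤ (4 * z ^ 2) * (1/2) ^ (a+2) := by
        have : z ^ a ≤ (1/2) ^ a := by gcongr
        calc z ^ (a+2) = z ^ 2 * z ^ a := by ring
          _ ≤ z ^ 2 * (1/2) ^ a := by gcongr
          _ = _ := by rw [pow_add]; ring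
      calc dcoef (∑ i, α i) (a+2) ^ 2 * z ^ (a+2) ≤ dcoef (∑ i, α i) (a+2) ^ 2 * ((4 * z ^ 2) * (1/2) ^ (a+2)) := by gcongr
        _ = _ := by ring
    rw [tsum_mul_left] at h1
    have h3 : ∑' a : ℕ, dcoef (∑ i, α i) (a+2) ^ 2 * (1/2 : ℝ) ^ (a+2) ≤ Gsum (∑ i, α i) (1/2) := by
      unfold Gsum
      rw [← hG.sum_add_tsum_nat_add 2]
      have : 0 ≤ ∑ a ∈ range 2, dcoef (∑ i, α i) a ^ 2 * (1/2 : ℝ) ^ a := sum_nonneg fun a _ => by positivity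
      linarith
    have h4 : (4 * z ^ 2) * ∑' a : ℕ, dcoef (∑ i, α i) (a+2) ^ 2 * (1/2 : ℝ) ^ (a+2) ≤ (4 * z ^ 2) * Gsum (∑ i, α i) (1/2) := by
      gcongr
    linarith

end

section

variable {ι : Type*} [Fintype ι] {α : ι → ℝ} {s s' : ι → ℝ} {s0 : ℝ} 

lemma pz_split {p : ℕ} (hp : p.Prime) (δ s0 a b : ℝ) : 
    (p:ℝ) ^ (-(1+(s0+a+b)*δ)) = (p:ℝ) ^ (-(1+s0*δ)) * (p:ℝ) ^ (-(a*δ)) * (p:ℝ) ^ (-(b*δ)) := by
  have hp0 : (0:ℝ) < p := by exact_mod_cast hp.pos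
  rw [← Real.rpow_add hp0, ← Real.rpow_add hp0]; congr 1; ring

lemma pw_le_one {p : ℕ} (hp : p.Prime) {δ a : ℝ} (hδ : 0 ≤ δ) (ha : 0 ≤ a) : 0 < (p:ℝ) ^ (-(a*δ)) ∧ (p:ℝ) ^ (-(a*δ)) ≤ 1 := by
  have hp1 : (1:ℝ) ≤ p := by exact_mod_cast hp.one_lt.le
  refine ⟨Real.rpow_pos_of_pos (by linarith) _, ?_⟩
  apply Real.rpow_le_one_of_one_le_of_nonpos hp1
  have := mul_nonneg ha hδ; linarith

lemma abs_log_Ef_le (hα : ∀ i, 0 ≤ α i) (hs : ∀ i, 0 ≤ s i) (hs' : ∀ i, 0 ≤ s' i) (hs0 : 0 ≤ s0) 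
    {δ : ℝ} (hδ : 0 ≤ δ) {p : ℕ} (hp : p.Prime) : 
    0 < Ef α s s' s0 p δ ∧ 
    |Real.log (Ef α s s' s0 p δ)| ≤ (2 * (∑ i, α i) ^ 2 + (∑ i, α i) ^ 4 / 2 + 4 * Gsum (∑ i, α i) (1/2)) * 
      ((p:ℝ) ^ (-(1+s0*δ))) ^ 2 := by
  set κ := ∑ i, α i with hκdef
  have hκ : 0 ≤ κ := sum_nonneg fun i _ => hα i
  set z := (p:ℝ) ^ (-(1+s0*δ)) with hz
  obtain ⟨hz0, hz1, _⟩ := prime_rpow_mem (σ := 1+s0*δ) (by have := mul_nonneg hs0 hδ; linarith) ⟨p, hp⟩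
  simp only at hz0 hz1
  rw [← hz] at hz0 hz1
  set X := ∑ i, α i * (p:ℝ) ^ (-(s i * δ)) with hX
  set Y := ∑ i, α i * (p:ℝ) ^ (-(s' i * δ)) with hY
  have hX0 : 0 ≤ X := sum_nonneg fun i _ => mul_nonneg (hα i) (pw_le_one hp hδ (hs i)).1.le
  have hY0 : 0 ≤ Y := sum_nonneg fun i _ => mul_nonneg (hα i) (pw_le_one hp hδ (hs' i)).1.le
  have hX1 : X ≤ κ := sum_le_sum fun i _ => mul_le_of_le_one_right (hα i) (pw_le_one hp hδ (hs i)).2
  have hY1 : Y ≤ κ := sum_le_sum fun i _ => mul_le_of_le_one_right (hα i) (pw_le_one hp hδ (hs' i)).2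
  obtain ⟨hl, hu⟩ := Lp_bounds hα hs hs' hδ hp hz0.le hz1
  set L := Lp α s s' s0 p δ with hL
  have hLdef : L = ∑' a : ℕ, cfe α s δ (p ^ a) * cfe α s' δ (p ^ a) * z ^ a := rfl
  rw [← hLdef] at hl hu
  have hXYz : 0 ≤ X * Y * z := by positivity
  have hL0 : 0 < L := by linarith
  set zz : ι → ι → ℝ := fun i j => (p:ℝ) ^ (-(1+(s0+s i+s' j)*δ)) with hzz
  have hzz1 : ∀ i j, zz i j = z * (p:ℝ) ^ (-(s i * δ)) * (p:ℝ) ^ (-(s' j * δ)) := fun i j => pz_split hp δ s0 _ _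
  have hzz0 : ∀ i j, 0 < zz i j := fun i j => by
    rw [hzz1]
    have := (pw_le_one hp hδ (hs i)).1
    have := (pw_le_one hp hδ (hs' j)).1
    positivity
  have hzzle : ∀ i j, zz i j ≤ z := fun i j => by
    rw [hzz1]
    have h1 := (pw_le_one hp hδ (hs i))
    have h2 := (pw_le_one hp hδ (hs' j))
    calc z * (p:ℝ) ^ (-(s i * δ)) * (p:ℝ) ^ (-(s' j * δ)) ≤ z * 1 * 1 := by
          gcongr
          · exact h1.2
          · exact h2.2
      _ = z := by ring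
  have hfac : ∀ i j, 0 < (1 - zz i j) ^ (α i * α j) := fun i j => 
    Real.rpow_pos_of_pos (by have := hzzle i j; linarith) _
  have hP : 0 < ∏ i, ∏ j, (1 - zz i j) ^ (α i * α j) := prod_pos fun i _ => prod_pos fun j _ => hfac i j
  have hEdef : Ef α s s' s0 p δ = (∏ i, ∏ j, (1 - zz i j) ^ (α i * α j)) * L := rfl
  have hlog : Real.log (Ef α s s' s0 p δ) = (∑ i, ∑ j, α i * α j * Real.log (1 - zz i j)) + Real.log L := by
    rw [hEdef, Real.log_mul hP.ne' hL0.ne', Real.log_prod (fun i _ => (prod_pos fun j _ => hfac i j).ne')]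
    congr 1
    refine sum_congr rfl fun i _ => ?_
    rw [Real.log_prod (fun j _ => (hfac i j).ne')]
    refine sum_congr rfl fun j _ => ?_
    rw [Real.log_rpow (by have := hzzle i j; linarith)]
  have hsumz : ∑ i, ∑ j, α i * α j * zz i j = X * Y * z := by
    rw [hX, hY, sum_mul_sum, sum_mul]
    refine sum_congr rfl fun i _ => ?_
    rw [sum_mul]
    refine sum_congr rfl fun j _ => ?_
    rw [hzz1]; ring
  have hsumz2 : ∑ i, ∑ j, α i * α j * zz i j ^ 2 ≤ κ ^ 2 * z ^ 2 := by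
    have : κ ^ 2 * z ^ 2 = ∑ i, ∑ j, α i * α j * z ^ 2 := by
      rw [pow_two κ, hκdef, sum_mul_sum, sum_mul]
      refine sum_congr rfl fun i _ => ?_
      rw [sum_mul]
    rw [this]
    refine sum_le_sum fun i _ => sum_le_sum fun j _ => ?_
    have h1 := hzz0 i j
    have h2 := hzzle i j
    have h3 := mul_nonneg (hα i) (hα j)
    gcongr
  refine ⟨mul_pos hP hL0, ?_⟩
  rw [hlog, abs_le]
  constructor
  · -- lower
    have h1 : ∀ i j, - zz i j - 2 * zz i j ^ 2 ≤ Real.log (1 - zz i j) := by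
      intro i j
      have hz0' := hzz0 i j
      have hz1' := hzzle i j
      have h5 : 0 < 1 - zz i j := by linarith
      have h6 := Real.one_sub_inv_le_log_of_pos h5
      refine le_trans ?_ h6
      have : 1 - (1 - zz i j)⁻¹ = - zz i j / (1 - zz i j) := by field_simp; ring
      rw [this, le_div_iff₀ h5]
      nlinarith [mul_nonneg (sq_nonneg (zz i j)) (by linarith : (0:ℝ) ≤ 1 - 2 * zz i j)]
    have h2 : - (X * Y * z) - 2 * (κ ^ 2 * z ^ 2) ≤ ∑ i, ∑ j, α i * α j * Real.log (1 - zz i j) := by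
      calc - (X * Y * z) - 2 * (κ ^ 2 * z ^ 2) ≤ - (X * Y * z) - 2 * ∑ i, ∑ j, α i * α j * zz i j ^ 2 := by linarith
        _ = ∑ i, ∑ j, α i * α j * (- zz i j - 2 * zz i j ^ 2) := by
            rw [← hsumz, mul_sum, ← sum_neg_distrib, ← sum_sub_distrib]
            refine sum_congr rfl fun i _ => ?_
            rw [mul_sum, ← sum_neg_distrib, ← sum_sub_distrib]
            exact sum_congr rfl fun j _ => by ring
        _ ≤ _ := by
            refine sum_le_sum fun i _ => sum_le_sum fun j _ => ?_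
            exact mul_le_mul_of_nonneg_left (h1 i j) (mul_nonneg (hα i) (hα j))
    have h3 : X * Y * z - (κ ^ 2 * z) ^ 2 / 2 ≤ Real.log L := by
      have h4 : Real.log (1 + X * Y * z) ≤ Real.log L := Real.log_le_log (by linarith) hl
      have h5 : 2 * (X * Y * z) / (X * Y * z + 2) ≤ Real.log (1 + X * Y * z) := Real.le_log_one_add_of_nonneg hXYz
      have h6 : X * Y * z - (X * Y * z) ^ 2 / 2 ≤ 2 * (X * Y * z) / (X * Y * z + 2) := by
        rw [le_div_iff₀ (by positivity)]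
        have : 0 ≤ (X * Y * z) ^ 3 := by positivity
        nlinarith
      have h7 : X * Y * z ≤ κ ^ 2 * z := by
        rw [pow_two]; gcongr
      have h8 : (X * Y * z) ^ 2 ≤ (κ ^ 2 * z) ^ 2 := by gcongr
      linarith
    have hG : 0 ≤ Gsum κ (1/2) := by
      have := Gsum_ge hκ (by norm_num : (0:ℝ) ≤ 1/2) (by norm_num)
      have : 0 ≤ κ ^ 2 * (1/2) := by positivity
      linarith
    have h9 : (κ ^ 2 * z) ^ 2 / 2 = κ ^ 4 / 2 * z ^ 2 := by ring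
    have h10 : 0 ≤ 4 * Gsum κ (1/2) * z ^ 2 := by positivity
    nlinarith
  · -- upper
    have h1 : ∑ i, ∑ j, α i * α j * Real.log (1 - zz i j) ≤ - (X * Y * z) := by
      rw [← hsumz, ← sum_neg_distrib]
      refine sum_le_sum fun i _ => ?_
      rw [← sum_neg_distrib]
      refine sum_le_sum fun j _ => ?_
      have h2 : Real.log (1 - zz i j) ≤ - zz i j := by
        have := Real.log_le_sub_one_of_pos (by have := hzzle i j; linarith : 0 < 1 - zz i j)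
        linarith
      have := mul_le_mul_of_nonneg_left h2 (mul_nonneg (hα i) (hα j))
      linarith
    have h2 : Real.log L ≤ X * Y * z + 4 * Gsum κ (1/2) * z ^ 2 := by
      have := Real.log_le_sub_one_of_pos hL0
      linarith
    have h3 : 0 ≤ 2 * κ ^ 2 + κ ^ 4 / 2 := by positivity
    nlinarith [sq_nonneg z, mul_nonneg h3 (sq_nonneg z)]

end

end Pool.Agent.LibZM
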