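import Mathlib
import Pool.Agent.LibZM.MK2

set_option autoImplicit false

namespace Pool.Agent.LibZM

open Finset ArithmeticFunction Filter Topology

section

variable {ι : Type*} [Fintype ι] {α : ι → ℝ} {s s' : ι → ℝ} {s0 : ℝ} 

lemma summable_Lser (hα : ∀ i, 0 ≤ α i) (hs : ∀ i, 0 ≤ s i) (hs' : ∀ i, 0 ≤ s' i) 
    {δ : ℝ} (hδ : 0 ≤ δ) {σ : ℝ} (hσ : 1 < σ) : 
    Summable fun q : ℕ => cfe α s δ q * cfe α s' δ q * (q:ℝ) ^ (-σ) := by
  have hκ : 0 ≤ ∑ i, α i := sum_nonneg fun i _ => hα i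
  refine Summable.of_nonneg_of_le (fun q => ?_) (fun q => ?_) (summable_tau_sq hκ hσ)
  · exact mul_nonneg (Lterm_nonneg hα hs hs' q) (by positivity)
  · exact mul_le_mul_of_nonneg_right (cfe_mul_le hα hs hs' hδ q) (by positivity)

lemma hasProd_Lp (hα : ∀ i, 0 ≤ α i) (hs : ∀ i, 0 ≤ s i) (hs' : ∀ i, 0 ≤ s' i) (hs0 : 0 < s0) 
    {δ : ℝ} (hδ : 0 < δ) : 
    HasProd (fun p : Nat.Primes => Lp α s s' s0 p δ) (Lser α s s' s0 δ) := by
  have hσ : 1 < 1 + s0 * δ := by have := mul_pos hs0 hδ; linarith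
  have h := EulerProduct.eulerProduct_hasProd (R := ℝ) (f := fun q : ℕ => cfe α s δ q * cfe α s' δ q * (q:ℝ) ^ (-(1 + s0 * δ))) 
    (by simp [(cfe_isMultiplicative s δ).map_one, (cfe_isMultiplicative s' δ).map_one]) 
    (by
      intro m n hmn
      rw [(cfe_isMultiplicative s δ).map_mul_of_coprime hmn, (cfe_isMultiplicative s' δ).map_mul_of_coprime hmn]
      push_cast
      rw [Real.mul_rpow (Nat.cast_nonneg _) (Nat.cast_nonneg _)]
      ring)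
    (summable_Lser hα hs hs' hδ.le hσ).norm
    (by simp)
  have e : (fun p : Nat.Primes => Lp α s s' s0 p δ) = 
      fun p : Nat.Primes => ∑' e : ℕ, cfe α s δ ((p:ℕ) ^ e) * cfe α s' δ ((p:ℕ) ^ e) * (((p:ℕ) ^ e : ℕ) : ℝ) ^ (-(1 + s0 * δ)) := by
    funext p
    unfold Lp
    congr 1; funext a
    congr 1
    push_cast
    rw [← Real.rpow_natCast, ← Real.rpow_mul (Nat.cast_nonneg _), ← Real.rpow_natCast, 
      ← Real.rpow_mul (Nat.cast_nonneg _)]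
    congr 1; ring
  rw [e]
  exact h

lemma Zt_pos {σ : ℝ} (hσ : 1 < σ) : 0 < Zt σ := by
  have := tsum_tau_sq_pos zero_le_one hσ
  rw [tsum_tau_one hσ] at this
  exact this

lemma hasProd_Zt_rpow {σ : ℝ} (hσ : 1 < σ) (w : ℝ) : 
    HasProd (fun p : Nat.Primes => (1 - (p:ℝ) ^ (-σ)) ^ w) ((Zt σ) ^ (-w)) := by
  have h2 := hasProd_tau_sq zero_le_one hσ
  have hpos := tsum_tau_sq_pos zero_le_one hσ
  have h3 := hasProd_rpow (fun p => ?_) hpos (-w) h2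
  swap
  · obtain ⟨h0, h1, _⟩ := prime_rpow_mem hσ.le p
    have := Gsum_ge zero_le_one h0.le (by linarith)
    refine le_trans ?_ this
    positivity
  rw [tsum_tau_one hσ] at h3
  have e : (fun p : Nat.Primes => Gsum 1 ((p:ℝ) ^ (-σ)) ^ (-w)) = 
      fun p : Nat.Primes => (1 - (p:ℝ) ^ (-σ)) ^ w := by
    funext p
    obtain ⟨h0, h1, _⟩ := prime_rpow_mem hσ.le p
    rw [Gsum_one h0.le (by linarith), Real.inv_rpow (by linarith), Real.rpow_neg (by linarith), inv_inv]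
  rw [e] at h3
  exact h3

lemma summable_logEf (hα : ∀ i, 0 ≤ α i) (hs : ∀ i, 0 ≤ s i) (hs' : ∀ i, 0 ≤ s' i) (hs0 : 0 ≤ s0) 
    {δ : ℝ} (hδ : 0 ≤ δ) : 
    Summable fun p : Nat.Primes => Real.log (Ef α s s' s0 p δ) := by
  set C := (2 * (∑ i, α i) ^ 2 + (∑ i, α i) ^ 4 / 2 + 4 * Gsum (∑ i, α i) (1/2)) with hC
  have hκ : 0 ≤ ∑ i, α i := sum_nonneg fun i _ => hα i
  have hG : 0 ≤ Gsum (∑ i, α i) (1/2) := by
    have := Gsum_ge hκ (by norm_num : (0:ℝ) ≤ 1/2) (by norm_num)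
    have : 0 ≤ (∑ i, α i) ^ 2 * (1/2) := by positivity
    linarith
  have hs : Summable fun p : Nat.Primes => C * (p:ℝ) ^ (-2:ℝ) := 
    (Nat.Primes.summable_rpow.mpr (by norm_num)).mul_left _
  refine Summable.of_norm_bounded hs fun p => ?_
  obtain ⟨h0, h1, h2⟩ := prime_rpow_mem (σ := 1+s0*δ) (by have := mul_nonneg hs0 hδ; linarith) p
  rw [Real.norm_eq_abs]
  refine (abs_log_Ef_le hα (by assumption) hs' hs0 hδ p.prop).2.trans ?_
  have h3 : ((p:ℝ) ^ (-(1+s0*δ))) ^ 2 ≤ ((p:ℝ) ^ (-(1:ℝ))) ^ 2 := by gcongr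
  have h4 : ((p:ℝ) ^ (-(1:ℝ))) ^ 2 = (p:ℝ) ^ (-2:ℝ) := by
    rw [← Real.rpow_natCast, ← Real.rpow_mul (Nat.cast_nonneg _)]; norm_num
  rw [← h4]
  have : 0 ≤ C := by positivity
  gcongr

lemma Lser_eq (hα : ∀ i, 0 ≤ α i) (hs : ∀ i, 0 ≤ s i) (hs' : ∀ i, 0 ≤ s' i) (hs0 : 0 < s0) 
    {δ : ℝ} (hδ : 0 < δ) : 
    Lser α s s' s0 δ = (∏ i, ∏ j, (Zt (1+(s0+s i+s' j)*δ)) ^ (α i * α j)) * 
      Real.exp (∑' p : Nat.Primes, Real.log (Ef α s s' s0 p δ)) := by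
  have hσ : ∀ i j, 1 < 1+(s0+s i+s' j)*δ := by
    intro i j
    have := hs i
    have := hs' j
    have : 0 < (s0+s i+s' j)*δ := by positivity
    linarith
  have h1 : HasProd (fun p : Nat.Primes => Ef α s s' s0 p δ) 
      ((∏ i, ∏ j, (Zt (1+(s0+s i+s' j)*δ)) ^ (-(α i * α j))) * Lser α s s' s0 δ) := by
    refine HasProd.mul ?_ (hasProd_Lp hα hs hs' hs0 hδ)
    refine hasProd_prod fun i _ => ?_
    refine hasProd_prod fun j _ => ?_
    exact hasProd_Zt_rpow (hσ i j) _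
  have h2 : HasProd (fun p : Nat.Primes => Ef α s s' s0 p δ) 
      (Real.exp (∑' p : Nat.Primes, Real.log (Ef α s s' s0 p δ))) := by
    apply Real.hasProd_of_hasSum_log
    · intro p
      exact (abs_log_Ef_le hα hs hs' hs0.le hδ.le p.prop).1
    · exact (summable_logEf hα hs hs' hs0.le hδ.le).hasSum
  rw [← h1.unique h2, ← mul_assoc, ← prod_mul_distrib]
  have : ∏ i, ((∏ j, (Zt (1+(s0+s i+s' j)*δ)) ^ (α i * α j)) * (∏ j, (Zt (1+(s0+s i+s' j)*δ)) ^ (-(α i * α j)))) = 1 := by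
    apply prod_eq_one
    intro i _
    rw [← prod_mul_distrib]
    apply prod_eq_one
    intro j _
    rw [← Real.rpow_add (Zt_pos (hσ i j))]
    simp
  rw [this, one_mul]

lemma tendsto_Zt {c : ℝ} (hc : 0 < c) : Tendsto (fun δ : ℝ => δ * Zt (1 + c * δ)) (𝓝[>] 0) (𝓝 c⁻¹) := by
  have ht : Tendsto (fun δ : ℝ => c * δ) (𝓝[>] 0) (𝓝[>] 0) := by
    apply tendsto_nhdsWithin_of_tendsto_nhds_of_eventually_within
    · have : Tendsto (fun δ : ℝ => c * δ) (𝓝 0) (𝓝 (c * 0)) := by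
        apply Continuous.tendsto; fun_prop
      rw [mul_zero] at this
      exact this.mono_left nhdsWithin_le_nhds
    · filter_upwards [self_mem_nhdsWithin] with δ hδ
      exact mul_pos hc hδ
  have h := (tendsto_zeta_shift.comp ht).const_mul c⁻¹
  rw [mul_one] at h
  refine h.congr' ?_
  filter_upwards [self_mem_nhdsWithin] with δ hδ
  simp only [Function.comp, Zt]
  rw [mul_assoc, ← mul_assoc, inv_mul_cancel₀ hc.ne', one_mul]

lemma tendsto_pw {p : ℕ} (hp : p.Prime) (a c : ℝ) : 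
    Tendsto (fun δ : ℝ => (p:ℝ) ^ (-(a + c * δ))) (𝓝[>] 0) (𝓝 ((p:ℝ) ^ (-a))) := by
  have hp0 : (0:ℝ) < p := by exact_mod_cast hp.pos
  have : Tendsto (fun δ : ℝ => (p:ℝ) ^ (-(a + c * δ))) (𝓝 0) (𝓝 ((p:ℝ) ^ (-(a + c * 0)))) := by
    apply Continuous.tendsto
    exact Continuous.rpow continuous_const (by fun_prop) (fun _ => Or.inl hp0.ne')
  rw [mul_zero, add_zero] at this
  exact this.mono_left nhdsWithin_le_nhds

lemma tendsto_Ef (hα : ∀ i, 0 ≤ α i) (hs : ∀ i, 0 ≤ s i) (hs' : ∀ i, 0 ≤ s' i) (hs0 : 0 < s0) {p : ℕ} (hp : p.Prime) : 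
    Tendsto (fun δ : ℝ => Ef α s s' s0 p δ) (𝓝[>] 0) (𝓝 (Efac (∑ i, α i) ((p:ℝ) ^ (-(1:ℝ))))) := by
  set κ := ∑ i, α i with hκ
  obtain ⟨h0, h1, _⟩ := prime_rpow_mem le_rfl ⟨p, hp⟩
  simp only at h0 h1
  have h1m : 0 < 1 - (p:ℝ) ^ (-(1:ℝ)) := by linarith
  have hA : (1 - (p:ℝ) ^ (-(1:ℝ))) ^ (κ ^ 2) = ∏ i, ∏ j, (1 - (p:ℝ) ^ (-(1:ℝ))) ^ (α i * α j) := by
    rw [pow_two, hκ, sum_mul_sum, Real.rpow_sum_of_pos h1m]
    exact prod_congr rfl fun i _ => Real.rpow_sum_of_pos h1m _ _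
  unfold Ef Efac
  rw [hA]
  refine Tendsto.mul ?_ ?_
  · apply tendsto_finsetProd
    intro i _
    apply tendsto_finsetProd
    intro j _
    apply Tendsto.rpow_const _ (Or.inl h1m.ne')
    exact (tendsto_pw hp 1 _).const_sub 1
  · unfold Lp Gsum
    have hb := summable_G (sum_nonneg fun i _ => hα i : 0 ≤ ∑ i, α i) (by norm_num : (0:ℝ) ≤ 1/2) (by norm_num)
    apply tendsto_tsum_of_dominated_convergence hb
    · intro a
      refine Tendsto.mul ?_ ((tendsto_pw hp 1 _).pow a)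
      rw [pow_two]
      have h2 := tendsto_cfe (α := α) s (p ^ a)
      have h3 := tendsto_cfe (α := α) s' (p ^ a)
      rw [tau_prime_pow _ hp] at h2 h3
      exact h2.mul h3
    · filter_upwards [self_mem_nhdsWithin] with δ hδ a
      have hδ' : (0:ℝ) < δ := hδ
      obtain ⟨hz0, hz1, _⟩ := prime_rpow_mem (σ := 1+s0*δ) (by have := mul_pos hs0 hδ'; linarith) ⟨p, hp⟩
      simp only at hz0 hz1
      rw [Real.norm_eq_abs, abs_of_nonneg (mul_nonneg (Lterm_nonneg hα hs hs' _) (by positivity))]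
      refine (Lterm_le hα hs hs' hδ'.le hp hz0.le a).trans ?_
      gcongr

/-- Asymptotics of the bilinear Dirichlet series. -/
theorem tendsto_Lser (hα : ∀ i, 0 ≤ α i) (hs : ∀ i, 0 ≤ s i) (hs' : ∀ i, 0 ≤ s' i) (hs0 : 0 < s0) : 
    Tendsto (fun δ : ℝ => δ ^ ((∑ i, α i) ^ 2) * Lser α s s' s0 δ) (𝓝[>] 0) 
      (𝓝 (Aconst (∑ i, α i) * ∏ i, ∏ j, (s0 + s i + s' j) ^ (-(α i * α j)))) := by
  set κ := ∑ i, α i with hκ
  have hκ0 : 0 ≤ κ := sum_nonneg fun i _ => hα i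
  have hcpos : ∀ i j, 0 < s0 + s i + s' j := by
    intro i j
    have := hs i
    have := hs' j
    positivity
  have hE : Tendsto (fun δ : ℝ => ∑' p : Nat.Primes, Real.log (Ef α s s' s0 p δ)) (𝓝[>] 0) 
      (𝓝 (∑' p : Nat.Primes, Real.log (Efac κ ((p:ℝ) ^ (-(1:ℝ)))))) := by
    set C := (2 * κ ^ 2 + κ ^ 4 / 2 + 4 * Gsum κ (1/2)) with hC
    have hG : 0 ≤ Gsum κ (1/2) := by
      have := Gsum_ge hκ0 (by norm_num : (0:ℝ) ≤ 1/2) (by norm_num)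
      have : 0 ≤ κ ^ 2 * (1/2) := by positivity
      linarith
    have hC0 : 0 ≤ C := by positivity
    have hsum : Summable fun p : Nat.Primes => C * (p:ℝ) ^ (-2:ℝ) := 
      (Nat.Primes.summable_rpow.mpr (by norm_num)).mul_left _
    apply tendsto_tsum_of_dominated_convergence hsum
    · intro p
      obtain ⟨h0, h1, _⟩ := prime_rpow_mem le_rfl p
      exact (tendsto_Ef hα hs hs' hs0 p.prop).log (Efac_pos hκ0 h0.le (by linarith)).ne'
    · filter_upwards [self_mem_nhdsWithin] with δ hδ p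
      have hδ' : (0:ℝ) < δ := hδ
      obtain ⟨h0, h1, h2⟩ := prime_rpow_mem (σ := 1+s0*δ) (by have := mul_pos hs0 hδ'; linarith) p
      rw [Real.norm_eq_abs]
      refine (abs_log_Ef_le hα hs hs' hs0.le hδ'.le p.prop).2.trans ?_
      have h3 : ((p:ℝ) ^ (-(1+s0*δ))) ^ 2 ≤ ((p:ℝ) ^ (-(1:ℝ))) ^ 2 := by gcongr
      have h4 : ((p:ℝ) ^ (-(1:ℝ))) ^ 2 = (p:ℝ) ^ (-2:ℝ) := by
        rw [← Real.rpow_natCast, ← Real.rpow_mul (Nat.cast_nonneg _)]; norm_num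
      rw [← h4]
      gcongr
  have hz : Tendsto (fun δ : ℝ => ∏ i, ∏ j, (δ * Zt (1 + (s0 + s i + s' j) * δ)) ^ (α i * α j)) (𝓝[>] 0) 
      (𝓝 (∏ i, ∏ j, (s0 + s i + s' j) ^ (-(α i * α j)))) := by
    apply tendsto_finsetProd
    intro i _
    apply tendsto_finsetProd
    intro j _
    have h := (tendsto_Zt (hcpos i j)).rpow_const (p := α i * α j) (Or.inl (inv_pos.mpr (hcpos i j)).ne')
    rw [Real.inv_rpow (hcpos i j).le, ← Real.rpow_neg (hcpos i j).le] at h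
    exact h
  have h := (Real.continuous_exp.tendsto _ |>.comp hE).mul hz
  rw [← Aconst_eq hκ0] at h
  refine h.congr' ?_
  filter_upwards [self_mem_nhdsWithin] with δ hδ
  have hδ' : (0:ℝ) < δ := hδ
  rw [Lser_eq hα hs hs' hs0 hδ']
  simp only [Function.comp]
  have e : ∏ i, ∏ j, (δ * Zt (1 + (s0 + s i + s' j) * δ)) ^ (α i * α j) = 
      δ ^ (κ ^ 2) * ∏ i, ∏ j, (Zt (1 + (s0 + s i + s' j) * δ)) ^ (α i * α j) := by
    have e2 : δ ^ (κ ^ 2) = ∏ i, ∏ j, δ ^ (α i * α j) := by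
      rw [pow_two, hκ, sum_mul_sum, Real.rpow_sum_of_pos hδ']
      exact prod_congr rfl fun i _ => Real.rpow_sum_of_pos hδ' _ _
    rw [e2, ← prod_mul_distrib]
    refine prod_congr rfl fun i _ => ?_
    rw [← prod_mul_distrib]
    refine prod_congr rfl fun j _ => ?_
    have : 0 < (s0 + s i + s' j) * δ := mul_pos (hcpos i j) hδ'
    exact Real.mul_rpow hδ'.le (Zt_pos (by linarith)).le
  rw [e]; ring

end

end Pool.Agent.LibZM
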