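import Mathlib
import Pool.Agent.LibZM.MK3

set_option autoImplicit false

namespace Pool.Agent.LibZM

open Finset ArithmeticFunction Filter Topology MeasureTheory Polynomial

/-- The test function `e^{-x} f(e^{-x})`. -/
noncomputable def ex (f : ℝ → ℝ) (x : ℝ) : ℝ := Real.exp (-x) * f (Real.exp (-x))

lemma ex_poly (P : ℝ[X]) (x : ℝ) : ex (fun y => P.eval y) x = 
    ∑ j ∈ range (P.natDegree + 1), P.coeff j * Real.exp (-(((j:ℝ)+1) * x)) := by
  unfold ex
  simp only [eval_eq_sum_range, mul_sum]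
  refine sum_congr rfl fun j _ => ?_
  have : Real.exp (-(((j:ℝ)+1) * x)) = Real.exp (-x) * Real.exp (-x) ^ j := by
    rw [← Real.exp_nat_mul, ← Real.exp_add]; congr 1; ring
  rw [this]; ring

lemma tw_poly (a δ : ℝ) (P : ℝ[X]) : tw a (fun n => ex (fun y => P.eval y) (δ * Real.log n)) = 
    ∑ j ∈ range (P.natDegree + 1), P.coeff j • tw a (fun n => (n:ℝ) ^ (-(((j:ℝ)+1) * δ))) := by
  ext n
  have hsum : (∑ j ∈ range (P.natDegree + 1), P.coeff j • tw a (fun n => (n:ℝ) ^ (-(((j:ℝ)+1) * δ)))) n = 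
      ∑ j ∈ range (P.natDegree + 1), P.coeff j * (tau a n * (n:ℝ) ^ (-(((j:ℝ)+1) * δ))) := by
    have h : ∀ s : Finset ℕ, (∑ j ∈ s, P.coeff j • tw a (fun n => (n:ℝ) ^ (-(((j:ℝ)+1) * δ)))) n = 
      ∑ j ∈ s, P.coeff j * (tau a n * (n:ℝ) ^ (-(((j:ℝ)+1) * δ))) := by
      intro s
      induction s using Finset.induction_on with
      | empty => simp
      | insert i s hi ih => rw [sum_insert hi, sum_insert hi, ArithmeticFunction.add_apply, ih]; rfl
    exact h _
  rw [hsum, tw_apply]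
  rcases Nat.eq_zero_or_pos n with rfl | hn
  · simp
  · have hn0 : (0:ℝ) < n := by exact_mod_cast hn
    rw [ex_poly, mul_sum]
    refine sum_congr rfl fun j _ => ?_
    have : Real.exp (-(((j:ℝ)+1) * (δ * Real.log n))) = (n:ℝ) ^ (-(((j:ℝ)+1) * δ)) := by
      rw [Real.rpow_def_of_pos hn0]; congr 1; ring
    rw [this]; ring

lemma sum_smul_apply {κ : Type*} (s : Finset κ) (c : κ → ℝ) (f : κ → ArithmeticFunction ℝ) (n : ℕ) : 
    (∑ j ∈ s, c j • f j) n = ∑ j ∈ s, c j * f j n := by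
  classical
  induction s using Finset.induction_on with
  | empty => simp
  | insert i s hi ih => rw [sum_insert hi, sum_insert hi, ArithmeticFunction.add_apply, ih]; rfl

section

variable {ι : Type*} [Fintype ι] (α : ι → ℝ)

/-- Convolution of divisor functions with general weights in logarithmic scale. -/
noncomputable def cfg (g : ι → ℝ → ℝ) (δ : ℝ) : ArithmeticFunction ℝ := 
  ∏ i, tw (α i) (fun n => g i (δ * Real.log n))

/-- The general bilinear sum. -/
noncomputable def SG (g g' : ι → ℝ → ℝ) (g0 : ℝ → ℝ) (δ : ℝ) : ℝ := 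
  ∑' q : ℕ, cfg α g δ q * cfg α g' δ q * g0 (δ * Real.log q) * (q:ℝ)⁻¹

lemma cfg_poly [DecidableEq ι] (P : ι → ℝ[X]) (δ : ℝ) : 
    cfg α (fun i => ex (fun y => (P i).eval y)) δ = 
    ∑ v ∈ Fintype.piFinset (fun i => range ((P i).natDegree + 1)), 
      (∏ i, (P i).coeff (v i)) • cfe α (fun i => (v i : ℝ) + 1) δ := by
  unfold cfg
  simp_rw [tw_poly]
  rw [prod_univ_sum]
  refine sum_congr rfl fun v _ => ?_
  rw [prod_smul]
  rfl

lemma SG_poly [DecidableEq ι] {α : ι → ℝ} (hα : ∀ i, 0 ≤ α i) (P P' : ι → ℝ[X]) (P0 : ℝ[X]) {δ : ℝ} (hδ : 0 < δ) : 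
    HasSum (fun q : ℕ => cfg α (fun i => ex (fun y => (P i).eval y)) δ q * cfg α (fun i => ex (fun y => (P' i).eval y)) δ q * 
        ex (fun y => P0.eval y) (δ * Real.log q) * (q:ℝ)⁻¹) 
      (∑ v ∈ Fintype.piFinset (fun i => range ((P i).natDegree + 1)), 
        ∑ v' ∈ Fintype.piFinset (fun i => range ((P' i).natDegree + 1)), 
        ∑ r ∈ range (P0.natDegree + 1), 
         ((∏ i, (P i).coeff (v i)) * (∏ i, (P' i).coeff (v' i)) * P0.coeff r) * 
           Lser α (fun i => (v i : ℝ) + 1) (fun i => (v' i : ℝ) + 1) ((r:ℝ) + 1) δ) := by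
  have e : (fun q : ℕ => cfg α (fun i => ex (fun y => (P i).eval y)) δ q * cfg α (fun i => ex (fun y => (P' i).eval y)) δ q * 
        ex (fun y => P0.eval y) (δ * Real.log q) * (q:ℝ)⁻¹) = fun q : ℕ => 
      ∑ v ∈ Fintype.piFinset (fun i => range ((P i).natDegree + 1)), 
        ∑ v' ∈ Fintype.piFinset (fun i => range ((P' i).natDegree + 1)), 
        ∑ r ∈ range (P0.natDegree + 1), 
         ((∏ i, (P i).coeff (v i)) * (∏ i, (P' i).coeff (v' i)) * P0.coeff r) * 
          (cfe α (fun i => (v i : ℝ) + 1) δ q * cfe α (fun i => (v' i : ℝ) + 1) δ q * (q:ℝ) ^ (-(1 + ((r:ℝ)+1) * δ))) := by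
    funext q
    rcases Nat.eq_zero_or_pos q with rfl | hq
    · simp
    · have hq0 : (0:ℝ) < q := by exact_mod_cast hq
      rw [cfg_poly, cfg_poly, sum_smul_apply, sum_smul_apply, ex_poly, sum_mul_sum, sum_mul, sum_mul]
      refine sum_congr rfl fun v _ => ?_
      rw [sum_mul, sum_mul]
      refine sum_congr rfl fun v' _ => ?_
      rw [mul_sum, sum_mul]
      refine sum_congr rfl fun r _ => ?_
      have : (q:ℝ) ^ (-(1 + ((r:ℝ)+1) * δ)) = Real.exp (-(((r:ℝ)+1) * (δ * Real.log q))) * (q:ℝ)⁻¹ := by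
        rw [← Real.rpow_neg_one, Real.rpow_def_of_pos hq0, Real.rpow_def_of_pos hq0, ← Real.exp_add]; congr 1; ring
      rw [this]; ring
  rw [e]
  refine hasSum_sum fun v _ => hasSum_sum fun v' _ => hasSum_sum fun r _ => ?_
  apply HasSum.mul_left
  apply Summable.hasSum
  apply summable_Lser hα (fun i => by positivity) (fun i => by positivity) hδ.le
  have : 0 < ((r:ℝ) + 1) * δ := by positivity
  linarith

/-- One-dimensional cell density. -/
noncomputable def cellρ (w : ℝ) (t : ℝ) : ℝ := (Set.Ioi (0:ℝ)).indicator (fun t => t ^ (w - 1) / Real.Gamma w) t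

lemma cellρ_nonneg {w : ℝ} (hw : 0 < w) (t : ℝ) : 0 ≤ cellρ w t := by
  unfold cellρ
  apply Set.indicator_nonneg
  intro t ht
  have : (0:ℝ) < t := ht
  have := Real.Gamma_pos_of_pos hw
  positivity

lemma integrable_cell {w c : ℝ} (hw : 0 < w) (hc : 0 < c) : Integrable fun t : ℝ => Real.exp (-(c * t)) * cellρ w t := by
  have e : (fun t : ℝ => Real.exp (-(c * t)) * cellρ w t) = 
      (Set.Ioi (0:ℝ)).indicator (fun t => (t ^ (w - 1) * Real.exp (-c * t ^ (1:ℝ))) * (Real.Gamma w)⁻¹) := by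
    funext t
    unfold cellρ
    by_cases ht : t ∈ Set.Ioi (0:ℝ)
    · rw [Set.indicator_of_mem ht, Set.indicator_of_mem ht, Real.rpow_one]
      have : -c * t = -(c * t) := by ring
      rw [this]; ring
    · rw [Set.indicator_of_notMem ht, Set.indicator_of_notMem ht, mul_zero]
  rw [e, integrable_indicator_iff measurableSet_Ioi]
  exact (integrableOn_rpow_mul_exp_neg_mul_rpow (by linarith) one_pos hc).mul_const _

lemma integral_cell {w c : ℝ} (hw : 0 < w) (hc : 0 < c) : ∫ t : ℝ, Real.exp (-(c * t)) * cellρ w t = c ^ (-w) := by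
  have e : (fun t : ℝ => Real.exp (-(c * t)) * cellρ w t) = 
      (Set.Ioi (0:ℝ)).indicator (fun t => (t ^ (w - 1) * Real.exp (-(c * t))) * (Real.Gamma w)⁻¹) := by
    funext t
    unfold cellρ
    by_cases ht : t ∈ Set.Ioi (0:ℝ)
    · rw [Set.indicator_of_mem ht, Set.indicator_of_mem ht]; ring
    · rw [Set.indicator_of_notMem ht, Set.indicator_of_notMem ht, mul_zero]
  rw [e, integral_indicator measurableSet_Ioi, integral_mul_const, Real.integral_rpow_mul_exp_neg_mul_Ioi hw hc]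
  have := (Real.Gamma_pos_of_pos hw).ne'
  rw [mul_assoc, mul_inv_cancel₀ this, mul_one, one_div, Real.inv_rpow hc.le, Real.rpow_neg hc.le]

/-- Product cell density on matrices. -/
noncomputable def cellD (t : ι × ι → ℝ) : ℝ := ∏ p : ι × ι, cellρ (α p.1 * α p.2) (t p)

noncomputable def rowS (t : ι × ι → ℝ) (i : ι) : ℝ := ∑ j, t (i, j)
noncomputable def colS (t : ι × ι → ℝ) (j : ι) : ℝ := ∑ i, t (i, j)
noncomputable def totS (t : ι × ι → ℝ) : ℝ := ∑ p, t p

/-- The limiting functional. -/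
noncomputable def LG (g g' : ι → ℝ → ℝ) (g0 : ℝ → ℝ) : ℝ := 
  ∫ t : ι × ι → ℝ, (∏ i, g i (rowS t i)) * (∏ j, g' j (colS t j)) * g0 (totS t) * cellD α t

variable {α}

lemma exp_prod (s s' : ι → ℝ) (s0 : ℝ) (t : ι × ι → ℝ) : 
    (∏ i, Real.exp (-(s i * rowS t i))) * (∏ j, Real.exp (-(s' j * colS t j))) * Real.exp (-(s0 * totS t)) * cellD α t = 
    ∏ p : ι × ι, (Real.exp (-((s0 + s p.1 + s' p.2) * t p)) * cellρ (α p.1 * α p.2) (t p)) := by
  rw [prod_mul_distrib, cellD, ← Real.exp_sum, ← Real.exp_sum, ← Real.exp_sum, ← Real.exp_add, ← Real.exp_add]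
  congr 2
  unfold rowS colS totS
  simp_rw [sum_neg_distrib, mul_sum, add_mul, sum_add_distrib]
  have h1 : ∑ i, ∑ j, s i * t (i, j) = ∑ p : ι × ι, s p.1 * t p := by
    rw [← univ_product_univ, sum_product]
  have h2 : ∑ j, ∑ i, s' j * t (i, j) = ∑ p : ι × ι, s' p.2 * t p := by
    rw [← univ_product_univ, sum_product, sum_comm]
  rw [h1, h2]; ring

lemma integrable_exp_prod (hα : ∀ i, 0 < α i) {s s' : ι → ℝ} {s0 : ℝ} (hs : ∀ i, 0 ≤ s i) (hs' : ∀ i, 0 ≤ s' i) (hs0 : 0 < s0) : 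
    Integrable fun t : ι × ι → ℝ => 
      (∏ i, Real.exp (-(s i * rowS t i))) * (∏ j, Real.exp (-(s' j * colS t j))) * Real.exp (-(s0 * totS t)) * cellD α t := by
  simp_rw [exp_prod]
  apply Integrable.fintype_prod (f := fun (p : ι × ι) (x : ℝ) => Real.exp (-((s0 + s p.1 + s' p.2) * x)) * cellρ (α p.1 * α p.2) x)
  intro p
  have := hs p.1
  have := hs' p.2
  exact integrable_cell (mul_pos (hα _) (hα _)) (by positivity)

lemma integral_exp_prod (hα : ∀ i, 0 < α i) {s s' : ι → ℝ} {s0 : ℝ} (hs : ∀ i, 0 ≤ s i) (hs' : ∀ i, 0 ≤ s' i) (hs0 : 0 < s0) : 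
    ∫ t : ι × ι → ℝ, 
      (∏ i, Real.exp (-(s i * rowS t i))) * (∏ j, Real.exp (-(s' j * colS t j))) * Real.exp (-(s0 * totS t)) * cellD α t = 
      ∏ i, ∏ j, (s0 + s i + s' j) ^ (-(α i * α j)) := by
  simp_rw [exp_prod]
  rw [integral_fintype_prod_volume_eq_prod (f := fun (p : ι × ι) (x : ℝ) => Real.exp (-((s0 + s p.1 + s' p.2) * x)) * cellρ (α p.1 * α p.2) x)]
  rw [← univ_product_univ, prod_product]
  refine prod_congr rfl fun i _ => prod_congr rfl fun j _ => ?_
  have := hs i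
  have := hs' j
  exact integral_cell (mul_pos (hα _) (hα _)) (by positivity)

lemma LG_poly_integrand [DecidableEq ι] (P P' : ι → ℝ[X]) (P0 : ℝ[X]) (t : ι × ι → ℝ) : 
    (∏ i, ex (fun y => (P i).eval y) (rowS t i)) * (∏ j, ex (fun y => (P' j).eval y) (colS t j)) * 
      ex (fun y => P0.eval y) (totS t) * cellD α t = 
    ∑ v ∈ Fintype.piFinset (fun i => range ((P i).natDegree + 1)), 
        ∑ v' ∈ Fintype.piFinset (fun i => range ((P' i).natDegree + 1)), 
        ∑ r ∈ range (P0.natDegree + 1), 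
         ((∏ i, (P i).coeff (v i)) * (∏ i, (P' i).coeff (v' i)) * P0.coeff r) * 
         ((∏ i, Real.exp (-(((v i:ℝ)+1) * rowS t i))) * (∏ j, Real.exp (-(((v' j:ℝ)+1) * colS t j))) * Real.exp (-(((r:ℝ)+1) * totS t)) * cellD α t) := by
  simp_rw [ex_poly]
  rw [prod_univ_sum, prod_univ_sum, sum_mul_sum, sum_mul, sum_mul]
  refine sum_congr rfl fun v _ => ?_
  rw [sum_mul, sum_mul]
  refine sum_congr rfl fun v' _ => ?_
  rw [mul_sum, sum_mul]
  refine sum_congr rfl fun r _ => ?_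
  rw [prod_mul_distrib, prod_mul_distrib]
  ring

lemma integrable_LG_poly [DecidableEq ι] (hα : ∀ i, 0 < α i) (P P' : ι → ℝ[X]) (P0 : ℝ[X]) : 
    Integrable fun t : ι × ι → ℝ => (∏ i, ex (fun y => (P i).eval y) (rowS t i)) * (∏ j, ex (fun y => (P' j).eval y) (colS t j)) * 
      ex (fun y => P0.eval y) (totS t) * cellD α t := by
  simp_rw [LG_poly_integrand]
  refine integrable_finsetSum _ fun v _ => integrable_finsetSum _ fun v' _ => integrable_finsetSum _ fun r _ => ?_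
  exact (integrable_exp_prod hα (fun i => by positivity) (fun i => by positivity) (by positivity)).const_mul _

lemma LG_poly [DecidableEq ι] (hα : ∀ i, 0 < α i) (P P' : ι → ℝ[X]) (P0 : ℝ[X]) : 
    LG α (fun i => ex (fun y => (P i).eval y)) (fun i => ex (fun y => (P' i).eval y)) (ex (fun y => P0.eval y)) = 
      ∑ v ∈ Fintype.piFinset (fun i => range ((P i).natDegree + 1)), 
        ∑ v' ∈ Fintype.piFinset (fun i => range ((P' i).natDegree + 1)), 
        ∑ r ∈ range (P0.natDegree + 1), 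
         ((∏ i, (P i).coeff (v i)) * (∏ i, (P' i).coeff (v' i)) * P0.coeff r) * 
           ∏ i, ∏ j, (((r:ℝ)+1) + ((v i : ℝ) + 1) + ((v' j : ℝ) + 1)) ^ (-(α i * α j)) := by
  unfold LG
  simp_rw [LG_poly_integrand]
  have hint : ∀ (v v' : ι → ℕ) (r : ℕ), Integrable fun t : ι × ι → ℝ => 
      ((∏ i, (P i).coeff (v i)) * (∏ i, (P' i).coeff (v' i)) * P0.coeff r) * 
         ((∏ i, Real.exp (-(((v i:ℝ)+1) * rowS t i))) * (∏ j, Real.exp (-(((v' j:ℝ)+1) * colS t j))) * Real.exp (-(((r:ℝ)+1) * totS t)) * cellD α t) := 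
    fun v v' r => (integrable_exp_prod hα (fun i => by positivity) (fun i => by positivity) (by positivity)).const_mul _
  rw [integral_finsetSum _ fun v _ => integrable_finsetSum _ fun v' _ => integrable_finsetSum _ fun r _ => hint v v' r]
  refine sum_congr rfl fun v _ => ?_
  rw [integral_finsetSum _ fun v' _ => integrable_finsetSum _ fun r _ => hint v v' r]
  refine sum_congr rfl fun v' _ => ?_
  rw [integral_finsetSum _ fun r _ => hint v v' r]
  refine sum_congr rfl fun r _ => ?_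
  rw [integral_const_mul, integral_exp_prod hα (fun i => by positivity) (fun i => by positivity) (by positivity)]

/-- Limit for polynomial test functions. -/
theorem tendsto_SG_poly [DecidableEq ι] (hα : ∀ i, 0 < α i) (P P' : ι → ℝ[X]) (P0 : ℝ[X]) : 
    Tendsto (fun δ : ℝ => δ ^ ((∑ i, α i) ^ 2) * SG α (fun i => ex (fun y => (P i).eval y)) (fun i => ex (fun y => (P' i).eval y)) (ex (fun y => P0.eval y)) δ) 
      (𝓝[>] 0) (𝓝 (Aconst (∑ i, α i) * LG α (fun i => ex (fun y => (P i).eval y)) (fun i => ex (fun y => (P' i).eval y)) (ex (fun y => P0.eval y)))) := by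
  have h : Tendsto (fun δ : ℝ => ∑ v ∈ Fintype.piFinset (fun i => range ((P i).natDegree + 1)), 
        ∑ v' ∈ Fintype.piFinset (fun i => range ((P' i).natDegree + 1)), 
        ∑ r ∈ range (P0.natDegree + 1), 
         ((∏ i, (P i).coeff (v i)) * (∏ i, (P' i).coeff (v' i)) * P0.coeff r) * 
           (δ ^ ((∑ i, α i) ^ 2) * Lser α (fun i => (v i : ℝ) + 1) (fun i => (v' i : ℝ) + 1) ((r:ℝ) + 1) δ)) (𝓝[>] 0) 
      (𝓝 (∑ v ∈ Fintype.piFinset (fun i => range ((P i).natDegree + 1)), 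
        ∑ v' ∈ Fintype.piFinset (fun i => range ((P' i).natDegree + 1)), 
        ∑ r ∈ range (P0.natDegree + 1), 
         ((∏ i, (P i).coeff (v i)) * (∏ i, (P' i).coeff (v' i)) * P0.coeff r) * 
           (Aconst (∑ i, α i) * ∏ i, ∏ j, (((r:ℝ)+1) + ((v i : ℝ) + 1) + ((v' j : ℝ) + 1)) ^ (-(α i * α j))))) := by
    refine tendsto_finsetSum _ fun v _ => tendsto_finsetSum _ fun v' _ => tendsto_finsetSum _ fun r _ => ?_
    apply Tendsto.const_mul
    exact tendsto_Lser (fun i => (hα i).le) (fun i => by positivity) (fun i => by positivity) (by positivity)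
  have e2 : Aconst (∑ i, α i) * LG α (fun i => ex (fun y => (P i).eval y)) (fun i => ex (fun y => (P' i).eval y)) (ex (fun y => P0.eval y)) = 
      ∑ v ∈ Fintype.piFinset (fun i => range ((P i).natDegree + 1)), 
        ∑ v' ∈ Fintype.piFinset (fun i => range ((P' i).natDegree + 1)), 
        ∑ r ∈ range (P0.natDegree + 1), 
         ((∏ i, (P i).coeff (v i)) * (∏ i, (P' i).coeff (v' i)) * P0.coeff r) * 
           (Aconst (∑ i, α i) * ∏ i, ∏ j, (((r:ℝ)+1) + ((v i : ℝ) + 1) + ((v' j : ℝ) + 1)) ^ (-(α i * α j))) := by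
    rw [LG_poly hα, mul_sum]
    refine sum_congr rfl fun v _ => ?_
    rw [mul_sum]
    refine sum_congr rfl fun v' _ => ?_
    rw [mul_sum]
    exact sum_congr rfl fun r _ => by ring
  rw [e2]
  refine h.congr' ?_
  filter_upwards [self_mem_nhdsWithin] with δ hδ
  have hδ' : (0:ℝ) < δ := hδ
  unfold SG
  rw [(SG_poly (fun i => (hα i).le) P P' P0 hδ').tsum_eq, mul_sum]
  refine sum_congr rfl fun v _ => ?_
  rw [mul_sum]
  refine sum_congr rfl fun v' _ => ?_
  rw [mul_sum]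
  exact sum_congr rfl fun r _ => by ring

end

end Pool.Agent.LibZM
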