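import Mathlib
import Pool.Agent.LibZM.MK4

set_option autoImplicit false

namespace Pool.Agent.LibZM

open Finset ArithmeticFunction Filter Topology MeasureTheory Polynomial

section approx

variable {ι : Type*}

lemma abs_mul_apply_le {f g e e' : ArithmeticFunction ℝ} {C C' : ℝ} (hC : 0 ≤ C)
    (hf : ∀ n, |f n| ≤ C * e n) (hg : ∀ n, |g n| ≤ C' * e' n) (he : ∀ n, 0 ≤ e n) (n : ℕ) : 
    |(f * g) n| ≤ (C * C') * (e * e') n := by
  rw [ArithmeticFunction.mul_apply, ArithmeticFunction.mul_apply, mul_sum]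
  refine (abs_sum_le_sum_abs _ _).trans (sum_le_sum fun p _ => ?_)
  rw [abs_mul]
  calc |f p.1| * |g p.2| ≤ (C * e p.1) * (C' * e' p.2) := 
        mul_le_mul (hf _) (hg _) (abs_nonneg _) (mul_nonneg hC (he _))
    _ = _ := by ring

lemma abs_prod_apply_le (s : Finset ι) {f e : ι → ArithmeticFunction ℝ} {C : ℝ} (hC : 1 ≤ C)
    (hf : ∀ i ∈ s, ∀ n, |f i n| ≤ C * e i n) (he : ∀ i ∈ s, ∀ n, 0 ≤ e i n) (n : ℕ) : 
    |(∏ i ∈ s, f i) n| ≤ C ^ s.card * (∏ i ∈ s, e i) n := by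
  classical
  induction s using Finset.induction_on generalizing n with
  | empty => 
    simp only [prod_empty, card_empty, pow_zero, one_mul]
    rw [one_apply]; split_ifs <;> norm_num
  | insert i s hi ih =>
    rw [prod_insert hi, prod_insert hi, card_insert_of_notMem hi, pow_succ']
    exact abs_mul_apply_le (by linarith) (hf i (mem_insert_self i s)) 
      (fun n => ih (fun j hj => hf j (mem_insert_of_mem hj)) (fun j hj => he j (mem_insert_of_mem hj)) n) 
      (he i (mem_insert_self i s)) n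

lemma abs_prod_sub_apply_le (s : Finset ι) {f g e : ι → ArithmeticFunction ℝ} {C η : ℝ} (hC : 1 ≤ C) (hη : 0 ≤ η)
    (hf : ∀ i ∈ s, ∀ n, |f i n| ≤ C * e i n) (hg : ∀ i ∈ s, ∀ n, |g i n| ≤ C * e i n) 
    (hfg : ∀ i ∈ s, ∀ n, |f i n - g i n| ≤ η * e i n) (he : ∀ i ∈ s, ∀ n, 0 ≤ e i n) (n : ℕ) : 
    |(∏ i ∈ s, f i) n - (∏ i ∈ s, g i) n| ≤ (s.card * C ^ s.card * η) * (∏ i ∈ s, e i) n := by
  classical
  induction s using Finset.induction_on generalizing n with
  | empty => simp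
  | insert i s hi ih =>
    have hm := mem_insert_self i s
    have hsub : ∀ j ∈ s, j ∈ insert i s := fun j hj => mem_insert_of_mem hj
    rw [prod_insert hi, prod_insert hi, prod_insert hi, card_insert_of_notMem hi]
    have e1 : (f i * ∏ i ∈ s, f i) n - (g i * ∏ i ∈ s, g i) n = 
        ((f i - g i) * ∏ i ∈ s, f i) n + (g i * (∏ i ∈ s, f i - ∏ i ∈ s, g i)) n := by
      rw [← ArithmeticFunction.add_apply]
      have : (f i - g i) * ∏ i ∈ s, f i + g i * (∏ i ∈ s, f i - ∏ i ∈ s, g i) = f i * ∏ i ∈ s, f i - g i * ∏ i ∈ s, g i := by ring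
      rw [this]
      rfl
    rw [e1]
    have h1 : |((f i - g i) * ∏ i ∈ s, f i) n| ≤ (η * C ^ s.card) * (e i * ∏ i ∈ s, e i) n := 
      abs_mul_apply_le hη (fun n => hfg i hm n) 
        (fun n => abs_prod_apply_le s hC (fun j hj => hf j (hsub j hj)) (fun j hj => he j (hsub j hj)) n) (he i hm) n
    have h2 : |(g i * (∏ i ∈ s, f i - ∏ i ∈ s, g i)) n| ≤ (C * (s.card * C ^ s.card * η)) * (e i * ∏ i ∈ s, e i) n := by
      refine abs_mul_apply_le (by linarith) (hg i hm) (fun n => ?_) (he i hm) n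
      exact ih (fun j hj => hf j (hsub j hj)) (fun j hj => hg j (hsub j hj)) (fun j hj => hfg j (hsub j hj)) 
        (fun j hj => he j (hsub j hj)) n
    have hE : 0 ≤ (e i * ∏ i ∈ s, e i) n := 
      mul_apply_nonneg (he i hm) (prod_apply_nonneg s fun j hj => he j (hsub j hj)) n
    have hCp : C ^ s.card ≤ C ^ (s.card + 1) := pow_le_pow_right₀ hC (Nat.le_succ _)
    calc |((f i - g i) * ∏ i ∈ s, f i) n + (g i * (∏ i ∈ s, f i - ∏ i ∈ s, g i)) n| 
        ≤ (η * C ^ s.card) * (e i * ∏ i ∈ s, e i) n + (C * (s.card * C ^ s.card * η)) * (e i * ∏ i ∈ s, e i) n := 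
          (abs_add_le _ _).trans (add_le_add h1 h2)
      _ = (η * C ^ s.card + s.card * C ^ (s.card+1) * η) * (e i * ∏ i ∈ s, e i) n := by ring
      _ ≤ (η * C ^ (s.card + 1) + s.card * C ^ (s.card+1) * η) * (e i * ∏ i ∈ s, e i) n := by gcongr
      _ = _ := by push_cast; ring

lemma abs_prod_le_real (s : Finset ι) {f e : ι → ℝ} {C : ℝ}
    (hf : ∀ i ∈ s, |f i| ≤ C * e i) : 
    |∏ i ∈ s, f i| ≤ C ^ s.card * ∏ i ∈ s, e i := by
  rw [abs_prod, ← prod_const, ← prod_mul_distrib]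
  exact prod_le_prod (fun i _ => abs_nonneg _) hf

lemma abs_prod_sub_le_real (s : Finset ι) {f g e : ι → ℝ} {C η : ℝ} (hC : 1 ≤ C) (hη : 0 ≤ η)
    (hf : ∀ i ∈ s, |f i| ≤ C * e i) (hg : ∀ i ∈ s, |g i| ≤ C * e i) 
    (hfg : ∀ i ∈ s, |f i - g i| ≤ η * e i) (he : ∀ i ∈ s, 0 ≤ e i) : 
    |(∏ i ∈ s, f i) - (∏ i ∈ s, g i)| ≤ (s.card * C ^ s.card * η) * (∏ i ∈ s, e i) := by
  classical
  induction s using Finset.induction_on with
  | empty => simp
  | insert i s hi ih =>
    have hm := mem_insert_self i s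
    have hsub : ∀ j ∈ s, j ∈ insert i s := fun j hj => mem_insert_of_mem hj
    rw [prod_insert hi, prod_insert hi, prod_insert hi, card_insert_of_notMem hi]
    have e1 : (f i * ∏ i ∈ s, f i) - (g i * ∏ i ∈ s, g i) = 
        ((f i - g i) * ∏ i ∈ s, f i) + (g i * (∏ i ∈ s, f i - ∏ i ∈ s, g i)) := by ring
    rw [e1]
    have hE : 0 ≤ ∏ i ∈ s, e i := prod_nonneg fun j hj => he j (hsub j hj)
    have hei := he i hm
    have h1 : |((f i - g i) * ∏ i ∈ s, f i)| ≤ (η * e i) * (C ^ s.card * ∏ i ∈ s, e i) := by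
      rw [abs_mul]
      exact mul_le_mul (hfg i hm) (abs_prod_le_real s (fun j hj => hf j (hsub j hj))) (abs_nonneg _) (by positivity)
    have h2 : |(g i * (∏ i ∈ s, f i - ∏ i ∈ s, g i))| ≤ (C * e i) * ((s.card * C ^ s.card * η) * ∏ i ∈ s, e i) := by
      rw [abs_mul]
      exact mul_le_mul (hg i hm) (ih (fun j hj => hf j (hsub j hj)) (fun j hj => hg j (hsub j hj)) (fun j hj => hfg j (hsub j hj)) 
        (fun j hj => he j (hsub j hj))) (abs_nonneg _) (by positivity)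
    have hCp : C ^ s.card ≤ C ^ (s.card + 1) := pow_le_pow_right₀ hC (Nat.le_succ _)
    have hEE : 0 ≤ e i * ∏ i ∈ s, e i := mul_nonneg hei hE
    calc |((f i - g i) * ∏ i ∈ s, f i) + (g i * (∏ i ∈ s, f i - ∏ i ∈ s, g i))| 
        ≤ (η * e i) * (C ^ s.card * ∏ i ∈ s, e i) + (C * e i) * ((s.card * C ^ s.card * η) * ∏ i ∈ s, e i) := 
          (abs_add_le _ _).trans (add_le_add h1 h2)
      _ = (η * C ^ s.card + s.card * C ^ (s.card+1) * η) * (e i * ∏ i ∈ s, e i) := by ring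
      _ ≤ (η * C ^ (s.card + 1) + s.card * C ^ (s.card+1) * η) * (e i * ∏ i ∈ s, e i) := by gcongr
      _ = _ := by push_cast; ring

lemma three_diff {A A' B B' W W' E E' e0 C η : ℝ} {n : ℕ} (hC : 1 ≤ C) (hη : 0 ≤ η) (hE : 0 ≤ E) (hE' : 0 ≤ E') (he0 : 0 ≤ e0)
    (_hA : |A| ≤ C ^ n * E) (hA' : |A'| ≤ C ^ n * E) (hAA : |A - A'| ≤ (n * C ^ n * η) * E)
    (hB : |B| ≤ C ^ n * E') (hB' : |B'| ≤ C ^ n * E') (hBB : |B - B'| ≤ (n * C ^ n * η) * E')
    (hW : |W| ≤ C * e0) (hWW : |W - W'| ≤ η * e0) : 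
    |A * B * W - A' * B' * W'| ≤ ((2 * n + 1) * C ^ (2 * n + 1) * η) * (E * E' * e0) := by
  have e : A * B * W - A' * B' * W' = (A - A') * B * W + A' * (B - B') * W + A' * B' * (W - W') := by ring
  rw [e]
  have h1 : |(A - A') * B * W| ≤ ((n * C ^ n * η) * E) * (C ^ n * E') * (C * e0) := by
    rw [abs_mul, abs_mul]
    gcongr
  have h2 : |A' * (B - B') * W| ≤ (C ^ n * E) * ((n * C ^ n * η) * E') * (C * e0) := by
    rw [abs_mul, abs_mul]
    gcongr
  have h3 : |A' * B' * (W - W')| ≤ (C ^ n * E) * (C ^ n * E') * (η * e0) := by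
    rw [abs_mul, abs_mul]
    gcongr
  have hEE : 0 ≤ E * E' * e0 := by positivity
  calc |(A - A') * B * W + A' * (B - B') * W + A' * B' * (W - W')| 
      ≤ |(A - A') * B * W| + |A' * (B - B') * W| + |A' * B' * (W - W')| := 
        (abs_add_le _ _).trans (by gcongr; exact abs_add_le _ _)
    _ ≤ ((n * C ^ n * η) * E) * (C ^ n * E') * (C * e0) + (C ^ n * E) * ((n * C ^ n * η) * E') * (C * e0) + (C ^ n * E) * (C ^ n * E') * (η * e0) := 
        add_le_add (add_le_add h1 h2) h3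
    _ = (2 * n * C ^ (2 * n + 1) * η + C ^ (2 * n) * η * 1) * (E * E' * e0) := by ring
    _ ≤ (2 * n * C ^ (2 * n + 1) * η + C ^ (2 * n) * η * C) * (E * E' * e0) := by gcongr
    _ = _ := by ring

end approx

lemma ex_bound {f : ℝ → ℝ} {C : ℝ} (hf : ∀ y ∈ Set.Icc (0:ℝ) 1, |f y| ≤ C) {x : ℝ} (hx : 0 ≤ x) : 
    |ex f x| ≤ C * ex (fun _ => 1) x := by
  unfold ex
  rw [abs_mul, abs_of_pos (Real.exp_pos _), mul_one, mul_comm]
  exact mul_le_mul_of_nonneg_right (hf _ ⟨(Real.exp_pos _).le, Real.exp_le_one_iff.mpr (by linarith)⟩) (Real.exp_pos _).le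

lemma ex_sub (f g : ℝ → ℝ) (x : ℝ) : ex f x - ex g x = ex (fun y => f y - g y) x := by
  unfold ex; ring

lemma ex_one_nonneg (x : ℝ) : 0 ≤ ex (fun _ => 1) x := by unfold ex; positivity

section

variable {ι : Type*} [Fintype ι] {α : ι → ℝ}

lemma tw_ex_bound {a δ C : ℝ} (ha : 0 ≤ a) (hδ : 0 ≤ δ) {f : ℝ → ℝ} (hf : ∀ y ∈ Set.Icc (0:ℝ) 1, |f y| ≤ C) (n : ℕ) : 
    |tw a (fun n => ex f (δ * Real.log n)) n| ≤ C * tw a (fun n => ex (fun _ => 1) (δ * Real.log n)) n := by
  rw [tw_apply, tw_apply, abs_mul, abs_of_nonneg (tau_nonneg ha n)]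
  have hlog : 0 ≤ δ * Real.log n := mul_nonneg hδ (Real.log_natCast_nonneg n)
  have := mul_le_mul_of_nonneg_left (ex_bound hf hlog) (tau_nonneg ha n)
  linarith

lemma tw_ex_sub (a δ : ℝ) (f g : ℝ → ℝ) (n : ℕ) : 
    tw a (fun n => ex f (δ * Real.log n)) n - tw a (fun n => ex g (δ * Real.log n)) n = 
      tw a (fun n => ex (fun y => f y - g y) (δ * Real.log n)) n := by
  rw [tw_apply, tw_apply, tw_apply, ← ex_sub]; ring

lemma tw_one_nonneg {a δ : ℝ} (ha : 0 ≤ a) (n : ℕ) : 0 ≤ tw a (fun n => ex (fun _ => 1) (δ * Real.log n)) n := by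
  rw [tw_apply]; exact mul_nonneg (tau_nonneg ha n) (ex_one_nonneg _)

lemma summable_SG_one (hα : ∀ i, 0 ≤ α i) {δ : ℝ} (hδ : 0 < δ) : 
    Summable fun q : ℕ => cfg α (fun _ => ex (fun _ => 1)) δ q * cfg α (fun _ => ex (fun _ => 1)) δ q * 
        ex (fun _ => 1) (δ * Real.log q) * (q:ℝ)⁻¹ := by
  classical
  have := (SG_poly (α := α) hα (fun _ => 1) (fun _ => 1) 1 hδ).summable
  simpa using this

lemma continuousOn_bound {f : ℝ → ℝ} (hf : Continuous f) : ∃ C : ℝ, 1 ≤ C ∧ ∀ y ∈ Set.Icc (0:ℝ) 1, |f y| ≤ C := by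
  obtain ⟨C, hC⟩ := isCompact_Icc.exists_bound_of_continuousOn (hf.continuousOn (s := Set.Icc (0:ℝ) 1))
  exact ⟨max C 1, le_max_right _ _, fun y hy => (hC y hy).trans (le_max_left _ _)⟩

lemma measurable_cellρ (w : ℝ) : Measurable (cellρ w) := by
  unfold cellρ
  apply Measurable.indicator _ measurableSet_Ioi
  fun_prop

lemma measurable_cellD : Measurable (cellD α) := by
  unfold cellD
  apply Finset.measurable_fun_prod
  intro p _
  exact (measurable_cellρ _).comp (measurable_pi_apply p)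

lemma cellD_nonneg (hα : ∀ i, 0 < α i) (t : ι × ι → ℝ) : 0 ≤ cellD α t := 
  prod_nonneg fun p _ => cellρ_nonneg (mul_pos (hα _) (hα _)) _

lemma cellD_eq_zero {t : ι × ι → ℝ} (h : ¬ ∀ p, 0 < t p) : cellD α t = 0 := by
  push Not at h
  obtain ⟨p, hp⟩ := h
  apply prod_eq_zero (mem_univ p)
  unfold cellρ
  apply Set.indicator_of_notMem
  simpa using hp

lemma continuous_rowS (i : ι) : Continuous fun t : ι × ι → ℝ => rowS t i := by unfold rowS; fun_prop
lemma continuous_colS (i : ι) : Continuous fun t : ι × ι → ℝ => colS t i := by unfold colS; fun_prop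
lemma continuous_totS : Continuous fun t : ι × ι → ℝ => totS t := by unfold totS; fun_prop

lemma continuous_ex {f : ℝ → ℝ} (hf : Continuous f) : Continuous (ex f) := by unfold ex; fun_prop

lemma rowS_nonneg {t : ι × ι → ℝ} (h : ∀ p, 0 < t p) (i : ι) : 0 ≤ rowS t i := sum_nonneg fun j _ => (h _).le
lemma colS_nonneg {t : ι × ι → ℝ} (h : ∀ p, 0 < t p) (i : ι) : 0 ≤ colS t i := sum_nonneg fun j _ => (h _).le
lemma totS_nonneg {t : ι × ι → ℝ} (h : ∀ p, 0 < t p) : 0 ≤ totS t := sum_nonneg fun j _ => (h _).le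

lemma integrable_LG_one (hα : ∀ i, 0 < α i) : 
    Integrable fun t : ι × ι → ℝ => (∏ i, ex (fun _ => 1) (rowS t i)) * (∏ j, ex (fun _ => 1) (colS t j)) * 
      ex (fun _ => 1) (totS t) * cellD α t := by
  classical
  have := integrable_LG_poly (α := α) hα (fun _ => 1) (fun _ => 1) 1
  simpa using this

lemma measurable_LG {f f' : ι → ℝ → ℝ} {f0 : ℝ → ℝ} (hf : ∀ i, Measurable (f i)) (hf' : ∀ i, Measurable (f' i)) (hf0 : Measurable f0) : 
    Measurable fun t : ι × ι → ℝ => (∏ i, f i (rowS t i)) * (∏ j, f' j (colS t j)) * f0 (totS t) * cellD α t := by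
  refine Measurable.mul (Measurable.mul (Measurable.mul ?_ ?_) ?_) measurable_cellD
  · exact Finset.measurable_fun_prod _ fun i _ => (hf i).comp (continuous_rowS i).measurable
  · exact Finset.measurable_fun_prod _ fun i _ => (hf' i).comp (continuous_colS i).measurable
  · exact hf0.comp continuous_totS.measurable

lemma LG_pointwise_bound (hα : ∀ i, 0 < α i) {f f' : ι → ℝ → ℝ} {f0 : ℝ → ℝ} {C : ℝ} (hC : 1 ≤ C)
    (hf : ∀ i, ∀ x, 0 ≤ x → |f i x| ≤ C * ex (fun _ => 1) x) (hf' : ∀ i, ∀ x, 0 ≤ x → |f' i x| ≤ C * ex (fun _ => 1) x) 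
    (hf0 : ∀ x, 0 ≤ x → |f0 x| ≤ C * ex (fun _ => 1) x) (t : ι × ι → ℝ) : 
    ‖(∏ i, f i (rowS t i)) * (∏ j, f' j (colS t j)) * f0 (totS t) * cellD α t‖ ≤ 
      C ^ (2 * Fintype.card ι + 1) * ((∏ i, ex (fun _ => 1) (rowS t i)) * (∏ j, ex (fun _ => 1) (colS t j)) * 
      ex (fun _ => 1) (totS t) * cellD α t) := by
  by_cases ht : ∀ p, 0 < t p
  · rw [Real.norm_eq_abs, abs_mul, abs_mul, abs_mul, abs_of_nonneg (cellD_nonneg hα t)]
    have h1 := abs_prod_le_real univ (f := fun i => f i (rowS t i)) (e := fun i => ex (fun _ => 1) (rowS t i)) (C := C) 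
      (fun i _ => hf i _ (rowS_nonneg ht i))
    have h2 := abs_prod_le_real univ (f := fun i => f' i (colS t i)) (e := fun i => ex (fun _ => 1) (colS t i)) (C := C) 
      (fun i _ => hf' i _ (colS_nonneg ht i))
    have h3 := hf0 _ (totS_nonneg ht)
    rw [card_univ] at h1 h2
    have h4 : 0 ≤ ∏ i, ex (fun _ => 1) (rowS t i) := prod_nonneg fun i _ => ex_one_nonneg _
    have h5 : 0 ≤ ∏ i, ex (fun _ => 1) (colS t i) := prod_nonneg fun i _ => ex_one_nonneg _
    have h6 := ex_one_nonneg (totS t)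
    have h7 := cellD_nonneg hα t
    calc |∏ i, f i (rowS t i)| * |∏ j, f' j (colS t j)| * |f0 (totS t)| * cellD α t 
        ≤ (C ^ Fintype.card ι * ∏ i, ex (fun _ => 1) (rowS t i)) * (C ^ Fintype.card ι * ∏ i, ex (fun _ => 1) (colS t i)) * 
          (C * ex (fun _ => 1) (totS t)) * cellD α t := by gcongr
      _ = _ := by ring
  · rw [cellD_eq_zero ht]; simp

lemma integrable_LG (hα : ∀ i, 0 < α i) {f f' : ι → ℝ → ℝ} {f0 : ℝ → ℝ} {C : ℝ} (hC : 1 ≤ C)
    (hm : ∀ i, Measurable (f i)) (hm' : ∀ i, Measurable (f' i)) (hm0 : Measurable f0)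
    (hf : ∀ i, ∀ x, 0 ≤ x → |f i x| ≤ C * ex (fun _ => 1) x) (hf' : ∀ i, ∀ x, 0 ≤ x → |f' i x| ≤ C * ex (fun _ => 1) x) 
    (hf0 : ∀ x, 0 ≤ x → |f0 x| ≤ C * ex (fun _ => 1) x) : 
    Integrable fun t : ι × ι → ℝ => (∏ i, f i (rowS t i)) * (∏ j, f' j (colS t j)) * f0 (totS t) * cellD α t := 
  Integrable.mono' ((integrable_LG_one hα).const_mul (C ^ (2 * Fintype.card ι + 1))) 
    (measurable_LG hm hm' hm0).aestronglyMeasurable (Eventually.of_forall fun t => LG_pointwise_bound hα hC hf hf' hf0 t)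

/-- Limit theorem for continuous test functions. -/
theorem tendsto_SG (hα : ∀ i, 0 < α i) {f f' : ι → ℝ → ℝ} {f0 : ℝ → ℝ} (hf : ∀ i, Continuous (f i)) (hf' : ∀ i, Continuous (f' i)) 
    (hf0 : Continuous f0) : 
    Tendsto (fun δ : ℝ => δ ^ ((∑ i, α i) ^ 2) * SG α (fun i => ex (f i)) (fun i => ex (f' i)) (ex f0) δ) 
      (𝓝[>] 0) (𝓝 (Aconst (∑ i, α i) * LG α (fun i => ex (f i)) (fun i => ex (f' i)) (ex f0))) := by
  classical
  have hα0 : ∀ i, 0 ≤ α i := fun i => (hα i).le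
  have hκ : 0 ≤ ∑ i, α i := sum_nonneg fun i _ => hα0 i
  -- uniform bound
  obtain ⟨C, hC1, hCf, hCf', hCf0⟩ : ∃ C : ℝ, 1 ≤ C ∧ (∀ i, ∀ y ∈ Set.Icc (0:ℝ) 1, |f i y| ≤ C) ∧ 
      (∀ i, ∀ y ∈ Set.Icc (0:ℝ) 1, |f' i y| ≤ C) ∧ (∀ y ∈ Set.Icc (0:ℝ) 1, |f0 y| ≤ C) := by
    choose c hc1 hc using fun i => continuousOn_bound (hf i)
    choose c' hc1' hc' using fun i => continuousOn_bound (hf' i)
    obtain ⟨c0, hc01, hc0⟩ := continuousOn_bound hf0
    have hcn : ∀ i, 0 ≤ c i := fun i => by linarith [hc1 i]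
    have hcn' : ∀ i, 0 ≤ c' i := fun i => by linarith [hc1' i]
    have s1 : 0 ≤ ∑ i, c i := sum_nonneg fun i _ => hcn i
    have s2 : 0 ≤ ∑ i, c' i := sum_nonneg fun i _ => hcn' i
    refine ⟨∑ i, c i + ∑ i, c' i + c0, by linarith, fun i y hy => ?_, fun i y hy => ?_, fun y hy => ?_⟩
    · have := single_le_sum (fun i _ => hcn i) (mem_univ i)
      linarith [hc i y hy]
    · have := single_le_sum (fun i _ => hcn' i) (mem_univ i)
      linarith [hc' i y hy]
    · linarith [hc0 y hy]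
  set C1 := C + 1 with hC1def
  have hC11 : 1 ≤ C1 := by linarith
  set n := Fintype.card ι with hn
  set K : ℝ := (2 * n + 1) * C1 ^ (2 * n + 1) with hK
  have hK1 : 1 ≤ K := by
    have : 1 ≤ C1 ^ (2 * n + 1) := one_le_pow₀ hC11
    have h2 : (1:ℝ) ≤ 2 * n + 1 := by have : (0:ℝ) ≤ n := Nat.cast_nonneg n; linarith
    nlinarith
  -- reference quantity
  set one : ℝ → ℝ := fun _ => 1 with hone
  have hE := tendsto_SG_poly (α := α) hα (fun _ => 1) (fun _ => 1) 1
  simp only [eval_one] at hE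
  set E : ℝ → ℝ := fun δ => δ ^ ((∑ i, α i) ^ 2) * SG α (fun _ => ex one) (fun _ => ex one) (ex one) δ with hEdef
  set B := Aconst (∑ i, α i) * LG α (fun _ => ex one) (fun _ => ex one) (ex one) with hB
  have hEB : Tendsto E (𝓝[>] 0) (𝓝 B) := hE
  have hA0 := (Aconst_pos hκ).le
  have hLG1 : 0 ≤ LG α (fun _ => ex one) (fun _ => ex one) (ex one) := by
    unfold LG
    apply integral_nonneg
    intro t
    have h4 : 0 ≤ ∏ i, ex one (rowS t i) := prod_nonneg fun i _ => ex_one_nonneg _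
    have h5 : 0 ≤ ∏ i, ex one (colS t i) := prod_nonneg fun i _ => ex_one_nonneg _
    have h6 := ex_one_nonneg (totS t)
    have h7 := cellD_nonneg hα t
    exact mul_nonneg (mul_nonneg (mul_nonneg h4 h5) h6) h7
  have hB0 : 0 ≤ B := mul_nonneg hA0 hLG1
  rw [Metric.tendsto_nhds]
  intro ε hε
  set M := B + 1 with hM
  have hM1 : 1 ≤ M := by linarith
  set η := min 1 (ε / (3 * (K * M))) with hη
  have hKM : 0 < K * M := by positivity
  have hη0 : 0 < η := lt_min one_pos (by positivity)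
  have hη1 : η ≤ 1 := min_le_left _ _
  have hηKM : K * η * M ≤ ε / 3 := by
    have : η ≤ ε / (3 * (K * M)) := min_le_right _ _
    calc K * η * M = η * (K * M) := by ring
      _ ≤ ε / (3 * (K * M)) * (K * M) := by gcongr
      _ = ε / 3 := by field_simp
  -- polynomials
  choose P hP using fun i => exists_polynomial_near_of_continuousOn 0 1 (f i) (hf i).continuousOn η hη0
  choose P' hP' using fun i => exists_polynomial_near_of_continuousOn 0 1 (f' i) (hf' i).continuousOn η hη0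
  obtain ⟨P0, hP0⟩ := exists_polynomial_near_of_continuousOn 0 1 f0 hf0.continuousOn η hη0
  have bP : ∀ i, ∀ y ∈ Set.Icc (0:ℝ) 1, |(P i).eval y| ≤ C1 := fun i y hy => by
    have h1 := hP i y hy
    have h2 := hCf i y hy
    have h3 := abs_add_le ((P i).eval y - f i y) (f i y)
    rw [sub_add_cancel] at h3
    linarith
  have bP' : ∀ i, ∀ y ∈ Set.Icc (0:ℝ) 1, |(P' i).eval y| ≤ C1 := fun i y hy => by
    have h1 := hP' i y hy
    have h2 := hCf' i y hy
    have h3 := abs_add_le ((P' i).eval y - f' i y) (f' i y)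
    rw [sub_add_cancel] at h3
    linarith
  have bf : ∀ i, ∀ y ∈ Set.Icc (0:ℝ) 1, |f i y| ≤ C1 := fun i y hy => by linarith [hCf i y hy]
  have bf' : ∀ i, ∀ y ∈ Set.Icc (0:ℝ) 1, |f' i y| ≤ C1 := fun i y hy => by linarith [hCf' i y hy]
  have bf0 : ∀ y ∈ Set.Icc (0:ℝ) 1, |f0 y| ≤ C1 := fun y hy => by linarith [hCf0 y hy]
  have bP0 : ∀ y ∈ Set.Icc (0:ℝ) 1, |P0.eval y| ≤ C1 := fun y hy => by
    have h1 := hP0 y hy
    have h2 := hCf0 y hy
    have h3 := abs_add_le (P0.eval y - f0 y) (f0 y)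
    rw [sub_add_cancel] at h3
    linarith
  have dP : ∀ i, ∀ y ∈ Set.Icc (0:ℝ) 1, |f i y - (P i).eval y| ≤ η := fun i y hy => by rw [abs_sub_comm]; exact (hP i y hy).le
  have dP' : ∀ i, ∀ y ∈ Set.Icc (0:ℝ) 1, |f' i y - (P' i).eval y| ≤ η := fun i y hy => by rw [abs_sub_comm]; exact (hP' i y hy).le
  have dP0 : ∀ y ∈ Set.Icc (0:ℝ) 1, |f0 y - P0.eval y| ≤ η := fun y hy => by rw [abs_sub_comm]; exact (hP0 y hy).le
  -- discrete comparison
  have hdisc : ∀ δ : ℝ, 0 < δ → |δ ^ ((∑ i, α i) ^ 2) * SG α (fun i => ex (f i)) (fun i => ex (f' i)) (ex f0) δ - 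
      δ ^ ((∑ i, α i) ^ 2) * SG α (fun i => ex (fun y => (P i).eval y)) (fun i => ex (fun y => (P' i).eval y)) (ex (fun y => P0.eval y)) δ| ≤ K * η * E δ := by
    intro δ hδ
    have hδk : 0 ≤ δ ^ ((∑ i, α i) ^ 2) := Real.rpow_nonneg hδ.le _
    rw [← mul_sub, abs_mul, abs_of_nonneg hδk]
    have hS1 := summable_SG_one (α := α) hα0 hδ
    have hcfe : ∀ q, 0 ≤ cfg α (fun _ => ex one) δ q := fun q => prod_apply_nonneg _ (fun i _ n => tw_one_nonneg (hα0 i) n) q
    have hSP := (SG_poly (α := α) hα0 P P' P0 hδ).summable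
    -- pointwise
    have hpt : ∀ q : ℕ, |cfg α (fun i => ex (f i)) δ q * cfg α (fun i => ex (f' i)) δ q * ex f0 (δ * Real.log q) * (q:ℝ)⁻¹ - 
        cfg α (fun i => ex (fun y => (P i).eval y)) δ q * cfg α (fun i => ex (fun y => (P' i).eval y)) δ q * 
        ex (fun y => P0.eval y) (δ * Real.log q) * (q:ℝ)⁻¹| ≤ 
        K * η * (cfg α (fun _ => ex one) δ q * cfg α (fun _ => ex one) δ q * ex one (δ * Real.log q) * (q:ℝ)⁻¹) := by
      intro q
      have hlog : 0 ≤ δ * Real.log q := mul_nonneg hδ.le (Real.log_natCast_nonneg q)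
      rw [← sub_mul, abs_mul, abs_of_nonneg (by positivity : (0:ℝ) ≤ (q:ℝ)⁻¹)]
      have h3 := three_diff (n := n) (C := C1) (η := η) (A := cfg α (fun i => ex (f i)) δ q) (A' := cfg α (fun i => ex (fun y => (P i).eval y)) δ q) 
        (B := cfg α (fun i => ex (f' i)) δ q) (B' := cfg α (fun i => ex (fun y => (P' i).eval y)) δ q) (W := ex f0 (δ * Real.log q))
        (W' := ex (fun y => P0.eval y) (δ * Real.log q)) (E := cfg α (fun _ => ex one) δ q) (E' := cfg α (fun _ => ex one) δ q) 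
        (e0 := ex one (δ * Real.log q)) hC11 hη0.le (hcfe q) (hcfe q) (ex_one_nonneg _)
        (abs_prod_apply_le univ hC11 (fun i _ n => tw_ex_bound (hα0 i) hδ.le (bf i) n) (fun i _ n => tw_one_nonneg (hα0 i) n) q)
        (abs_prod_apply_le univ hC11 (fun i _ n => tw_ex_bound (hα0 i) hδ.le (bP i) n) (fun i _ n => tw_one_nonneg (hα0 i) n) q)
        (abs_prod_sub_apply_le univ hC11 hη0.le (fun i _ n => tw_ex_bound (hα0 i) hδ.le (bf i) n) 
          (fun i _ n => tw_ex_bound (hα0 i) hδ.le (bP i) n) 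
          (fun i _ n => by rw [tw_ex_sub]; exact tw_ex_bound (hα0 i) hδ.le (dP i) n) (fun i _ n => tw_one_nonneg (hα0 i) n) q)
        (abs_prod_apply_le univ hC11 (fun i _ n => tw_ex_bound (hα0 i) hδ.le (bf' i) n) (fun i _ n => tw_one_nonneg (hα0 i) n) q)
        (abs_prod_apply_le univ hC11 (fun i _ n => tw_ex_bound (hα0 i) hδ.le (bP' i) n) (fun i _ n => tw_one_nonneg (hα0 i) n) q)
        (abs_prod_sub_apply_le univ hC11 hη0.le (fun i _ n => tw_ex_bound (hα0 i) hδ.le (bf' i) n) 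
          (fun i _ n => tw_ex_bound (hα0 i) hδ.le (bP' i) n) 
          (fun i _ n => by rw [tw_ex_sub]; exact tw_ex_bound (hα0 i) hδ.le (dP' i) n) (fun i _ n => tw_one_nonneg (hα0 i) n) q)
        (ex_bound bf0 hlog) (by rw [ex_sub]; exact ex_bound dP0 hlog)
      calc _ ≤ (((2 * (n:ℝ) + 1) * C1 ^ (2 * n + 1) * η) * (cfg α (fun _ => ex one) δ q * cfg α (fun _ => ex one) δ q * ex one (δ * Real.log q))) * (q:ℝ)⁻¹ := 
            mul_le_mul_of_nonneg_right h3 (by positivity)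
        _ = _ := by rw [hK]; ring
    have hSd : Summable fun q : ℕ => cfg α (fun i => ex (f i)) δ q * cfg α (fun i => ex (f' i)) δ q * ex f0 (δ * Real.log q) * (q:ℝ)⁻¹ - 
        cfg α (fun i => ex (fun y => (P i).eval y)) δ q * cfg α (fun i => ex (fun y => (P' i).eval y)) δ q * 
        ex (fun y => P0.eval y) (δ * Real.log q) * (q:ℝ)⁻¹ := 
      Summable.of_norm_bounded (hS1.mul_left (K * η)) hpt
    have hSf : Summable fun q : ℕ => cfg α (fun i => ex (f i)) δ q * cfg α (fun i => ex (f' i)) δ q * ex f0 (δ * Real.log q) * (q:ℝ)⁻¹ := by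
      have := hSd.add hSP
      refine this.congr fun q => ?_
      ring
    have hle : |SG α (fun i => ex (f i)) (fun i => ex (f' i)) (ex f0) δ - 
        SG α (fun i => ex (fun y => (P i).eval y)) (fun i => ex (fun y => (P' i).eval y)) (ex (fun y => P0.eval y)) δ| ≤ 
        K * η * SG α (fun _ => ex one) (fun _ => ex one) (ex one) δ := by
      unfold SG
      rw [← hSf.tsum_sub hSP, ← tsum_mul_left, ← Real.norm_eq_abs]
      exact tsum_of_norm_bounded (hS1.mul_left (K * η)).hasSum hpt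
    calc _ ≤ δ ^ ((∑ i, α i) ^ 2) * (K * η * SG α (fun _ => ex one) (fun _ => ex one) (ex one) δ) := by gcongr
      _ = _ := by rw [hEdef]; ring
  -- continuous comparison
  have hcont : |LG α (fun i => ex (f i)) (fun i => ex (f' i)) (ex f0) - 
      LG α (fun i => ex (fun y => (P i).eval y)) (fun i => ex (fun y => (P' i).eval y)) (ex (fun y => P0.eval y))| ≤ 
      K * η * LG α (fun _ => ex one) (fun _ => ex one) (ex one) := by
    unfold LG
    have i1 := integrable_LG (f := fun i => ex (f i)) (f' := fun i => ex (f' i)) (f0 := ex f0) hα hC11 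
      (fun i => (continuous_ex (hf i)).measurable) (fun i => (continuous_ex (hf' i)).measurable) 
      (continuous_ex hf0).measurable (fun i x hx => ex_bound (bf i) hx) (fun i x hx => ex_bound (bf' i) hx) (fun x hx => ex_bound bf0 hx)
    have i2 := integrable_LG_poly hα P P' P0
    rw [← integral_sub i1 i2, ← integral_const_mul, ← Real.norm_eq_abs]
    refine norm_integral_le_of_norm_le ((integrable_LG_one hα).const_mul _) (Eventually.of_forall fun t => ?_)
    by_cases ht : ∀ p, 0 < t p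
    · rw [← sub_mul, norm_mul, Real.norm_eq_abs, Real.norm_eq_abs, abs_of_nonneg (cellD_nonneg hα t)]
      have hr := fun i => rowS_nonneg ht i
      have hc := fun i => colS_nonneg ht i
      have htot := totS_nonneg ht
      have hcard : (univ : Finset ι).card = n := card_univ
      have a1 := abs_prod_le_real univ (f := fun i => ex (f i) (rowS t i)) (e := fun i => ex one (rowS t i)) (C := C1) (fun i _ => ex_bound (bf i) (hr i))
      have a2 := abs_prod_le_real univ (f := fun i => ex (fun y => (P i).eval y) (rowS t i)) (e := fun i => ex one (rowS t i)) (C := C1) (fun i _ => ex_bound (bP i) (hr i))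
      have a3 := abs_prod_sub_le_real univ (f := fun i => ex (f i) (rowS t i)) (g := fun i => ex (fun y => (P i).eval y) (rowS t i)) 
        (e := fun i => ex one (rowS t i)) hC11 hη0.le (fun i _ => ex_bound (bf i) (hr i)) (fun i _ => ex_bound (bP i) (hr i)) 
        (fun i _ => by rw [ex_sub]; exact ex_bound (dP i) (hr i)) (fun i _ => ex_one_nonneg _)
      have b1 := abs_prod_le_real univ (f := fun i => ex (f' i) (colS t i)) (e := fun i => ex one (colS t i)) (C := C1) (fun i _ => ex_bound (bf' i) (hc i))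
      have b2 := abs_prod_le_real univ (f := fun i => ex (fun y => (P' i).eval y) (colS t i)) (e := fun i => ex one (colS t i)) (C := C1) (fun i _ => ex_bound (bP' i) (hc i))
      have b3 := abs_prod_sub_le_real univ (f := fun i => ex (f' i) (colS t i)) (g := fun i => ex (fun y => (P' i).eval y) (colS t i)) 
        (e := fun i => ex one (colS t i)) hC11 hη0.le (fun i _ => ex_bound (bf' i) (hc i)) (fun i _ => ex_bound (bP' i) (hc i)) 
        (fun i _ => by rw [ex_sub]; exact ex_bound (dP' i) (hc i)) (fun i _ => ex_one_nonneg _)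
      rw [hcard] at a1 a2 a3 b1 b2 b3
      have h3 := three_diff (n := n) (C := C1) (η := η) (W := ex f0 (totS t)) (W' := ex (fun y => P0.eval y) (totS t)) (e0 := ex one (totS t)) hC11 hη0.le
        (prod_nonneg fun i _ => ex_one_nonneg _) (prod_nonneg fun i _ => ex_one_nonneg _) (ex_one_nonneg _) a1 a2 a3 b1 b2 b3 
        (ex_bound bf0 htot) (by rw [ex_sub]; exact ex_bound dP0 htot)
      calc _ ≤ (((2 * (n:ℝ) + 1) * C1 ^ (2 * n + 1) * η) * ((∏ i, ex one (rowS t i)) * (∏ i, ex one (colS t i)) * ex one (totS t))) * cellD α t := 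
            mul_le_mul_of_nonneg_right h3 (cellD_nonneg hα t)
        _ = _ := by rw [hK]; ring
    · rw [cellD_eq_zero ht]; simp
  have hPl := tendsto_SG_poly (α := α) hα P P' P0
  rw [Metric.tendsto_nhds] at hPl
  have h1 := hPl (ε/3) (by positivity)
  have h2 : ∀ᶠ δ in 𝓝[>] (0:ℝ), E δ < M := hEB.eventually_lt_const (by linarith)
  filter_upwards [h1, h2, self_mem_nhdsWithin] with δ hd1 hd2 hδ
  have hδ' : (0:ℝ) < δ := hδ
  rw [Real.dist_eq] at hd1 ⊢
  have d1 := hdisc δ hδ'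
  have d2 : K * η * E δ < ε / 3 := by
    have : K * η * E δ < K * η * M := by
      apply mul_lt_mul_of_pos_left hd2; positivity
    linarith
  have d3 : |Aconst (∑ i, α i) * LG α (fun i => ex (fun y => (P i).eval y)) (fun i => ex (fun y => (P' i).eval y)) (ex (fun y => P0.eval y)) - 
      Aconst (∑ i, α i) * LG α (fun i => ex (f i)) (fun i => ex (f' i)) (ex f0)| ≤ ε / 3 := by
    rw [← mul_sub, abs_mul, abs_of_nonneg hA0, abs_sub_comm]
    calc Aconst (∑ i, α i) * _ ≤ Aconst (∑ i, α i) * (K * η * LG α (fun _ => ex one) (fun _ => ex one) (ex one)) := by gcongr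
      _ = K * η * B := by rw [hB]; ring
      _ ≤ K * η * M := by gcongr; linarith
      _ ≤ ε / 3 := hηKM
  have tri : ∀ a b c d : ℝ, |a - d| ≤ |a - b| + |b - c| + |c - d| := fun a b c d => by
    have := abs_sub_le a b d
    have := abs_sub_le b c d
    linarith
  refine lt_of_le_of_lt (tri _ 
    (δ ^ ((∑ i, α i) ^ 2) * SG α (fun i => ex (fun y => (P i).eval y)) (fun i => ex (fun y => (P' i).eval y)) (ex (fun y => P0.eval y)) δ) 
    (Aconst (∑ i, α i) * LG α (fun i => ex (fun y => (P i).eval y)) (fun i => ex (fun y => (P' i).eval y)) (ex (fun y => P0.eval y))) _) ?_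
  linarith

end

end Pool.Agent.LibZM
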