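import Mathlib
import Pool.Agent.LibZM.MK5

set_option autoImplicit false

namespace Pool.Agent.LibZM

open Finset ArithmeticFunction Filter Topology MeasureTheory

/-- Indicator of `x ≤ θ`. -/
noncomputable def boxI (θ x : ℝ) : ℝ := if x ≤ θ then 1 else 0

lemma boxI_nonneg (θ x : ℝ) : 0 ≤ boxI θ x := by unfold boxI; split_ifs <;> norm_num
lemma boxI_le_one (θ x : ℝ) : boxI θ x ≤ 1 := by unfold boxI; split_ifs <;> norm_num

lemma measurable_boxI (θ : ℝ) : Measurable (boxI θ) := by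
  unfold boxI
  exact Measurable.ite measurableSet_Iic measurable_const measurable_const

lemma boxI_le_ex (θ : ℝ) (x : ℝ) : |boxI θ x| ≤ Real.exp θ * ex (fun _ => 1) x := by
  rw [abs_of_nonneg (boxI_nonneg _ _)]
  unfold boxI ex
  split_ifs with h
  · rw [mul_one, ← Real.exp_add]
    exact Real.one_le_exp (by linarith)
  · positivity

lemma bump {a b : ℝ} (h : a < b) : ∃ f : ℝ → ℝ, Continuous f ∧ (∀ x, boxI a x ≤ ex f x) ∧ (∀ x, ex f x ≤ boxI b x) := by
  set ea := Real.exp (-a) with hea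
  set eb := Real.exp (-b) with heb
  have heb0 : 0 < eb := Real.exp_pos _
  have hlt : eb < ea := Real.exp_lt_exp.mpr (by linarith)
  set φ : ℝ → ℝ := fun y => max 0 (min 1 ((y - eb) / (ea - eb))) with hφ
  have hφ0 : ∀ y, 0 ≤ φ y := fun y => le_max_left _ _
  have hφ1 : ∀ y, φ y ≤ 1 := fun y => max_le zero_le_one (min_le_left _ _)
  refine ⟨fun y => φ y / max y eb, ?_, fun x => ?_, fun x => ?_⟩
  · apply Continuous.div
    · fun_prop
    · fun_prop
    · intro y; exact (lt_max_of_lt_right heb0).ne'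
  · unfold boxI
    have hy := Real.exp_pos (-x)
    split_ifs with hx
    · have h4 : ea ≤ Real.exp (-x) := Real.exp_le_exp.mpr (by linarith)
      have h5 : φ (Real.exp (-x)) = 1 := by
        simp only [hφ]
        have : 1 ≤ (Real.exp (-x) - eb) / (ea - eb) := by
          rw [le_div_iff₀ (by linarith)]; linarith
        rw [min_eq_left this]
        simp
      unfold ex
      beta_reduce
      rw [h5, max_eq_left (by linarith), mul_one_div, div_self hy.ne']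
    · unfold ex
      have := hφ0 (Real.exp (-x))
      have : 0 < max (Real.exp (-x)) eb := lt_max_of_lt_right heb0
      positivity
  · unfold boxI ex
    have hy := Real.exp_pos (-x)
    have hm : 0 < max (Real.exp (-x)) eb := lt_max_of_lt_right heb0
    split_ifs with hx
    · rw [mul_div_assoc', div_le_one hm]
      calc Real.exp (-x) * φ (Real.exp (-x)) ≤ Real.exp (-x) * 1 := by
            apply mul_le_mul_of_nonneg_left (hφ1 _) hy.le
        _ = Real.exp (-x) := mul_one _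
        _ ≤ _ := le_max_left _ _
    · push Not at hx
      have h1 : Real.exp (-x) < eb := Real.exp_lt_exp.mpr (by linarith)
      have : φ (Real.exp (-x)) = 0 := by
        simp only [hφ]
        apply max_eq_left
        refine (min_le_right _ _).trans ?_
        apply div_nonpos_of_nonpos_of_nonneg <;> linarith
      beta_reduce
      rw [this]; simp

section

variable {ι : Type*} [Fintype ι] {α : ι → ℝ}

lemma summable_SG_ex (hα : ∀ i, 0 ≤ α i) {f f' : ι → ℝ → ℝ} {f0 : ℝ → ℝ} (hf : ∀ i, Continuous (f i)) (hf' : ∀ i, Continuous (f' i)) 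
    (hf0 : Continuous f0) {δ : ℝ} (hδ : 0 < δ) : 
    Summable fun q : ℕ => cfg α (fun i => ex (f i)) δ q * cfg α (fun i => ex (f' i)) δ q * ex f0 (δ * Real.log q) * (q:ℝ)⁻¹ := by
  choose c hc1 hc using fun i => continuousOn_bound (hf i)
  choose c' hc1' hc' using fun i => continuousOn_bound (hf' i)
  obtain ⟨c0, hc01, hc0⟩ := continuousOn_bound hf0
  have hcn : ∀ i, 0 ≤ c i := fun i => by linarith [hc1 i]
  have hcn' : ∀ i, 0 ≤ c' i := fun i => by linarith [hc1' i]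
  have s1 : 0 ≤ ∑ i, c i := sum_nonneg fun i _ => hcn i
  have s2 : 0 ≤ ∑ i, c' i := sum_nonneg fun i _ => hcn' i
  set C := ∑ i, c i + ∑ i, c' i + c0 with hC
  have hC1 : 1 ≤ C := by linarith
  have bf : ∀ i, ∀ y ∈ Set.Icc (0:ℝ) 1, |f i y| ≤ C := fun i y hy => by
    have := single_le_sum (fun i _ => hcn i) (mem_univ i)
    linarith [hc i y hy]
  have bf' : ∀ i, ∀ y ∈ Set.Icc (0:ℝ) 1, |f' i y| ≤ C := fun i y hy => by
    have := single_le_sum (fun i _ => hcn' i) (mem_univ i)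
    linarith [hc' i y hy]
  have bf0 : ∀ y ∈ Set.Icc (0:ℝ) 1, |f0 y| ≤ C := fun y hy => by linarith [hc0 y hy]
  refine Summable.of_norm_bounded ((summable_SG_one (α := α) hα hδ).mul_left (C ^ (2 * Fintype.card ι + 1))) fun q => ?_
  have hlog : 0 ≤ δ * Real.log q := mul_nonneg hδ.le (Real.log_natCast_nonneg q)
  have h1 := abs_prod_apply_le univ hC1 (fun i _ n => tw_ex_bound (hα i) hδ.le (bf i) n) (fun i _ n => tw_one_nonneg (hα i) n) q
  have h2 := abs_prod_apply_le univ hC1 (fun i _ n => tw_ex_bound (hα i) hδ.le (bf' i) n) (fun i _ n => tw_one_nonneg (hα i) n) q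
  have h3 := ex_bound bf0 hlog
  rw [card_univ] at h1 h2
  have hcfe : 0 ≤ cfg α (fun _ => ex (fun _ => 1)) δ q := prod_apply_nonneg _ (fun i _ n => tw_one_nonneg (hα i) n) q
  have he := ex_one_nonneg (δ * Real.log q)
  rw [Real.norm_eq_abs, abs_mul, abs_mul, abs_mul, abs_of_nonneg (by positivity : (0:ℝ) ≤ (q:ℝ)⁻¹)]
  calc |cfg α (fun i => ex (f i)) δ q| * |cfg α (fun i => ex (f' i)) δ q| * |ex f0 (δ * Real.log q)| * (q:ℝ)⁻¹ 
      ≤ (C ^ Fintype.card ι * cfg α (fun _ => ex (fun _ => 1)) δ q) * (C ^ Fintype.card ι * cfg α (fun _ => ex (fun _ => 1)) δ q) * 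
        (C * ex (fun _ => 1) (δ * Real.log q)) * (q:ℝ)⁻¹ := by
        apply mul_le_mul_of_nonneg_right _ (by positivity)
        have hp : 0 ≤ C ^ Fintype.card ι := by positivity
        refine mul_le_mul (mul_le_mul h1 h2 (abs_nonneg _) (by positivity)) h3 (abs_nonneg _) (by positivity)
    _ = _ := by ring

lemma cfg_nonneg (hα : ∀ i, 0 ≤ α i) {g : ι → ℝ → ℝ} (hg : ∀ i x, 0 ≤ g i x) (δ : ℝ) (q : ℕ) : 0 ≤ cfg α g δ q := 
  prod_apply_nonneg _ (fun i _ n => by rw [tw_apply]; exact mul_nonneg (tau_nonneg (hα i) n) (hg i _)) q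

lemma cfg_mono (hα : ∀ i, 0 ≤ α i) {g h : ι → ℝ → ℝ} (hg : ∀ i x, 0 ≤ g i x) (hgh : ∀ i x, g i x ≤ h i x) (δ : ℝ) (q : ℕ) : 
    cfg α g δ q ≤ cfg α h δ q := 
  prod_apply_mono _ (fun i _ n => by rw [tw_apply]; exact mul_nonneg (tau_nonneg (hα i) n) (hg i _)) 
    (fun i _ n => by rw [tw_apply, tw_apply]; exact mul_le_mul_of_nonneg_left (hgh i _) (tau_nonneg (hα i) n)) q

lemma SG_term_nonneg (hα : ∀ i, 0 ≤ α i) {g g' : ι → ℝ → ℝ} {g0 : ℝ → ℝ} (hg : ∀ i x, 0 ≤ g i x) 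
    (hg' : ∀ i x, 0 ≤ g' i x) (hg0 : ∀ x, 0 ≤ g0 x) (δ : ℝ) (q : ℕ) : 
    0 ≤ cfg α g δ q * cfg α g' δ q * g0 (δ * Real.log q) * (q:ℝ)⁻¹ := by
  have h1 := cfg_nonneg hα hg δ q
  have h2 := cfg_nonneg hα hg' δ q
  have h3 := hg0 (δ * Real.log q)
  positivity

lemma SG_term_mono (hα : ∀ i, 0 ≤ α i) {g g' h h' : ι → ℝ → ℝ} {g0 h0 : ℝ → ℝ} (hg : ∀ i x, 0 ≤ g i x) 
    (hg' : ∀ i x, 0 ≤ g' i x) (hg0 : ∀ x, 0 ≤ g0 x) (hgh : ∀ i x, g i x ≤ h i x) (hgh' : ∀ i x, g' i x ≤ h' i x) 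
    (hgh0 : ∀ x, g0 x ≤ h0 x) (δ : ℝ) (q : ℕ) : 
    cfg α g δ q * cfg α g' δ q * g0 (δ * Real.log q) * (q:ℝ)⁻¹ ≤ cfg α h δ q * cfg α h' δ q * h0 (δ * Real.log q) * (q:ℝ)⁻¹ := by
  have h1 := cfg_nonneg hα hg δ q
  have h2 := cfg_nonneg hα hg' δ q
  have h3 := hg0 (δ * Real.log q)
  have h4 := cfg_mono hα hg hgh δ q
  have h5 := cfg_mono hα hg' hgh' δ q
  have h6 := hgh0 (δ * Real.log q)
  apply mul_le_mul_of_nonneg_right _ (by positivity)
  refine mul_le_mul (mul_le_mul h4 h5 h2 (h1.trans h4)) h6 h3 (mul_nonneg (h1.trans h4) (h2.trans h5))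

lemma LG_mono (hα : ∀ i, 0 < α i) {g g' h h' : ι → ℝ → ℝ} {g0 h0 : ℝ → ℝ} (hg : ∀ i x, 0 ≤ g i x) 
    (hg' : ∀ i x, 0 ≤ g' i x) (hg0 : ∀ x, 0 ≤ g0 x) (hgh : ∀ i x, g i x ≤ h i x) (hgh' : ∀ i x, g' i x ≤ h' i x) 
    (hgh0 : ∀ x, g0 x ≤ h0 x) 
    (hig : Integrable fun t : ι × ι → ℝ => (∏ i, g i (rowS t i)) * (∏ j, g' j (colS t j)) * g0 (totS t) * cellD α t)
    (hih : Integrable fun t : ι × ι → ℝ => (∏ i, h i (rowS t i)) * (∏ j, h' j (colS t j)) * h0 (totS t) * cellD α t) : 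
    LG α g g' g0 ≤ LG α h h' h0 := by
  unfold LG
  refine integral_mono hig hih fun t => ?_
  have h1 : 0 ≤ ∏ i, g i (rowS t i) := prod_nonneg fun i _ => hg i _
  have h2 : 0 ≤ ∏ i, g' i (colS t i) := prod_nonneg fun i _ => hg' i _
  have h3 := hg0 (totS t)
  have h4 : ∏ i, g i (rowS t i) ≤ ∏ i, h i (rowS t i) := prod_le_prod (fun i _ => hg i _) fun i _ => hgh i _
  have h5 : ∏ i, g' i (colS t i) ≤ ∏ i, h' i (colS t i) := prod_le_prod (fun i _ => hg' i _) fun i _ => hgh' i _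
  have h6 := hgh0 (totS t)
  apply mul_le_mul_of_nonneg_right _ (cellD_nonneg hα t)
  refine mul_le_mul (mul_le_mul h4 h5 h2 (h1.trans h4)) h6 h3 (mul_nonneg (h1.trans h4) (h2.trans h5))

lemma integrable_LG_box (hα : ∀ i, 0 < α i) (θ : ι → ℝ) (θ0 : ℝ) : 
    Integrable fun t : ι × ι → ℝ => (∏ i, boxI (θ i) (rowS t i)) * (∏ j, boxI (θ j) (colS t j)) * boxI θ0 (totS t) * cellD α t := by
  set C := 1 + ∑ i, Real.exp (θ i) + Real.exp θ0 with hC
  have hs : 0 ≤ ∑ i, Real.exp (θ i) := sum_nonneg fun i _ => (Real.exp_pos _).le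
  have h0 := Real.exp_pos θ0
  have hθ : ∀ i x, |boxI (θ i) x| ≤ C * ex (fun _ => 1) x := fun i x => by
    refine (boxI_le_ex _ x).trans ?_
    apply mul_le_mul_of_nonneg_right _ (ex_one_nonneg x)
    have := single_le_sum (f := fun i => Real.exp (θ i)) (fun i _ => (Real.exp_pos _).le) (mem_univ i)
    linarith
  apply integrable_LG hα (by linarith : 1 ≤ C) (fun i => measurable_boxI _) (fun i => measurable_boxI _) (measurable_boxI _) 
    (fun i x _ => hθ i x) (fun i x _ => hθ i x)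
  intro x _
  refine (boxI_le_ex _ x).trans ?_
  apply mul_le_mul_of_nonneg_right _ (ex_one_nonneg x)
  linarith

/-- Volume constant. -/
noncomputable def VolC (α θ : ι → ℝ) : ℝ := LG α (fun i => boxI (θ i)) (fun i => boxI (θ i)) (boxI 1)

lemma boxI_scale {l : ℝ} (hl : 0 < l) (θ x : ℝ) : boxI (l * θ) (l * x) = boxI θ x := by
  unfold boxI
  congr 1
  rw [mul_le_mul_iff_right₀ hl]

lemma cellρ_scale {l : ℝ} (hl : 0 < l) (w t : ℝ) : cellρ w (l * t) = l ^ (w - 1) * cellρ w t := by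
  unfold cellρ
  by_cases ht : 0 < t
  · rw [Set.indicator_of_mem (by exact mul_pos hl ht : l * t ∈ Set.Ioi 0), Set.indicator_of_mem (by exact ht : t ∈ Set.Ioi 0), 
      Real.mul_rpow hl.le ht.le]
    ring
  · rw [Set.indicator_of_notMem, Set.indicator_of_notMem (by exact ht), mul_zero]
    intro h
    exact ht (pos_of_mul_pos_right h hl.le)

lemma LG_box_scale (θ : ι → ℝ) {l : ℝ} (hl : 0 < l) : 
    LG α (fun i => boxI (l * θ i)) (fun i => boxI (l * θ i)) (boxI l) = l ^ ((∑ i, α i) ^ 2) * VolC α θ := by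
  unfold VolC LG
  have h := Measure.integral_comp_smul (volume : Measure (ι × ι → ℝ)) 
    (fun t : ι × ι → ℝ => (∏ i, boxI (l * θ i) (rowS t i)) * (∏ j, boxI (l * θ j) (colS t j)) * boxI l (totS t) * cellD α t) l
  have hdim : Module.finrank ℝ (ι × ι → ℝ) = Fintype.card (ι × ι) := Module.finrank_fintype_fun_eq_card ℝ
  rw [hdim] at h
  have hpos : 0 < l ^ Fintype.card (ι × ι) := by positivity
  rw [abs_of_pos (inv_pos.mpr hpos), smul_eq_mul] at h
  have h2 : ∀ t : ι × ι → ℝ, (∏ i, boxI (l * θ i) (rowS (l • t) i)) * (∏ j, boxI (l * θ j) (colS (l • t) j)) * boxI l (totS (l • t)) * cellD α (l • t) = 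
      l ^ ((∑ i, α i) ^ 2) * (l ^ Fintype.card (ι × ι))⁻¹ * ((∏ i, boxI (θ i) (rowS t i)) * (∏ j, boxI (θ j) (colS t j)) * boxI 1 (totS t) * cellD α t) := by
    intro t
    have r1 : ∀ i, rowS (l • t) i = l * rowS t i := fun i => by
      unfold rowS; rw [mul_sum]; rfl
    have r2 : ∀ i, colS (l • t) i = l * colS t i := fun i => by
      unfold colS; rw [mul_sum]; rfl
    have r3 : totS (l • t) = l * totS t := by
      unfold totS; rw [mul_sum]; rfl
    have r4 : cellD α (l • t) = l ^ ((∑ i, α i) ^ 2) * (l ^ Fintype.card (ι × ι))⁻¹ * cellD α t := by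
      unfold cellD
      have : ∀ p : ι × ι, cellρ (α p.1 * α p.2) ((l • t) p) = l ^ (α p.1 * α p.2 - 1) * cellρ (α p.1 * α p.2) (t p) := fun p => 
        cellρ_scale hl _ _
      simp_rw [this]
      rw [prod_mul_distrib]
      congr 1
      rw [← Real.rpow_sum_of_pos hl, sum_sub_distrib, Real.rpow_sub hl]
      have e1 : ∑ p : ι × ι, α p.1 * α p.2 = (∑ i, α i) ^ 2 := by
        rw [pow_two, sum_mul_sum, ← univ_product_univ, sum_product]
      rw [e1, div_eq_mul_inv]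
      congr 2
      rw [sum_const, card_univ, nsmul_eq_mul, mul_one, Real.rpow_natCast]
    have r5 : boxI l (l * totS t) = boxI 1 (totS t) := by
      have := boxI_scale hl 1 (totS t)
      rw [mul_one] at this
      exact this
    rw [r3, r4, r5]
    simp_rw [r1, r2, boxI_scale hl]
    ring
  simp_rw [h2] at h
  rw [integral_const_mul] at h
  have h3 : (l ^ Fintype.card (ι × ι))⁻¹ ≠ 0 := (inv_pos.mpr hpos).ne'
  have h4 : (l ^ Fintype.card (ι × ι))⁻¹ * (l ^ ((∑ i, α i) ^ 2) * ∫ t : ι × ι → ℝ, (∏ i, boxI (θ i) (rowS t i)) * (∏ j, boxI (θ j) (colS t j)) * boxI 1 (totS t) * cellD α t) = 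
      (l ^ Fintype.card (ι × ι))⁻¹ * ∫ t : ι × ι → ℝ, (∏ i, boxI (l * θ i) (rowS t i)) * (∏ j, boxI (l * θ j) (colS t j)) * boxI l (totS t) * cellD α t := by
    rw [← h]; ring
  exact (mul_left_cancel₀ h3 h4).symm

lemma VolC_nonneg (hα : ∀ i, 0 < α i) (θ : ι → ℝ) : 0 ≤ VolC α θ := by
  unfold VolC LG
  refine integral_nonneg fun t => ?_
  have h1 : 0 ≤ ∏ i, boxI (θ i) (rowS t i) := prod_nonneg fun i _ => boxI_nonneg _ _
  have h2 : 0 ≤ ∏ i, boxI (θ i) (colS t i) := prod_nonneg fun i _ => boxI_nonneg _ _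
  have h3 := boxI_nonneg 1 (totS t)
  have h4 := cellD_nonneg hα t
  exact mul_nonneg (mul_nonneg (mul_nonneg h1 h2) h3) h4

/-- The box sum. -/
noncomputable def boxSum (α θ : ι → ℝ) (δ : ℝ) : ℝ := SG α (fun i => boxI (θ i)) (fun i => boxI (θ i)) (boxI 1) δ

theorem boxSum_lower (hα : ∀ i, 0 < α i) {θ : ι → ℝ} (hθ : ∀ i, 0 < θ i) {c : ℝ} (hc : c < Aconst (∑ i, α i) * VolC α θ) : 
    ∀ᶠ δ in 𝓝[>] (0:ℝ), c ≤ δ ^ ((∑ i, α i) ^ 2) * boxSum α θ δ := by
  have hα0 : ∀ i, 0 ≤ α i := fun i => (hα i).le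
  have hκ : 0 ≤ ∑ i, α i := sum_nonneg fun i _ => hα0 i
  -- choose l < 1
  obtain ⟨l, hl0, hl1, hl⟩ : ∃ l : ℝ, 0 < l ∧ l < 1 ∧ c < Aconst (∑ i, α i) * (l ^ ((∑ i, α i) ^ 2) * VolC α θ) := by
    have hcont : Tendsto (fun l : ℝ => Aconst (∑ i, α i) * (l ^ ((∑ i, α i) ^ 2) * VolC α θ)) (𝓝[<] 1) 
        (𝓝 (Aconst (∑ i, α i) * ((1:ℝ) ^ ((∑ i, α i) ^ 2) * VolC α θ))) := by
      apply Tendsto.mono_left _ nhdsWithin_le_nhds
      apply Tendsto.const_mul
      apply Tendsto.mul_const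
      exact (Real.continuousAt_rpow_const 1 _ (Or.inl one_ne_zero))
    rw [Real.one_rpow, one_mul] at hcont
    have h2 := hcont.eventually_const_lt hc
    have h3 : ∀ᶠ l : ℝ in 𝓝[<] 1, 0 < l := by
      apply Filter.Eventually.filter_mono nhdsWithin_le_nhds
      exact lt_mem_nhds one_pos
    obtain ⟨l, hl, hl0, hl1⟩ := (h2.and (h3.and self_mem_nhdsWithin)).exists
    exact ⟨l, hl0, hl1, hl⟩
  have hlθ : ∀ i, l * θ i < θ i := fun i => by nlinarith [hθ i]
  choose f hfc hfl hfu using fun i => bump (hlθ i)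
  obtain ⟨f0, hfc0, hfl0, hfu0⟩ := bump hl1
  have hfn : ∀ i x, 0 ≤ ex (f i) x := fun i x => (boxI_nonneg _ _).trans (hfl i x)
  have hfn0 : ∀ x, 0 ≤ ex f0 x := fun x => (boxI_nonneg _ _).trans (hfl0 x)
  have hlim := tendsto_SG hα hfc hfc hfc0
  have hiex : Integrable fun t : ι × ι → ℝ => (∏ i, ex (f i) (rowS t i)) * (∏ j, ex (f j) (colS t j)) * ex f0 (totS t) * cellD α t := by
    have hib := integrable_LG_box (α := α) hα θ 1
    refine Integrable.mono' hib (measurable_LG (fun i => (continuous_ex (hfc i)).measurable) (fun i => (continuous_ex (hfc i)).measurable) 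
      (continuous_ex hfc0).measurable).aestronglyMeasurable (Eventually.of_forall fun t => ?_)
    have h1 : 0 ≤ ∏ i, ex (f i) (rowS t i) := prod_nonneg fun i _ => hfn i _
    have h2 : 0 ≤ ∏ i, ex (f i) (colS t i) := prod_nonneg fun i _ => hfn i _
    have h3 := hfn0 (totS t)
    have h4 : ∏ i, ex (f i) (rowS t i) ≤ ∏ i, boxI (θ i) (rowS t i) := prod_le_prod (fun i _ => hfn i _) fun i _ => hfu i _
    have h5 : ∏ i, ex (f i) (colS t i) ≤ ∏ i, boxI (θ i) (colS t i) := prod_le_prod (fun i _ => hfn i _) fun i _ => hfu i _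
    have h6 := hfu0 (totS t)
    have h7 := cellD_nonneg hα t
    rw [Real.norm_eq_abs, abs_of_nonneg (mul_nonneg (mul_nonneg (mul_nonneg h1 h2) h3) h7)]
    apply mul_le_mul_of_nonneg_right _ h7
    refine mul_le_mul (mul_le_mul h4 h5 h2 (h1.trans h4)) h6 h3 (mul_nonneg (h1.trans h4) (h2.trans h5))
  have hge : l ^ ((∑ i, α i) ^ 2) * VolC α θ ≤ LG α (fun i => ex (f i)) (fun i => ex (f i)) (ex f0) := by
    rw [← LG_box_scale θ hl0]
    exact LG_mono hα (fun i x => boxI_nonneg _ _) (fun i x => boxI_nonneg _ _) (fun x => boxI_nonneg _ _) hfl hfl hfl0 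
      (integrable_LG_box hα (fun i => l * θ i) l) hiex
  have hA := Aconst_pos hκ
  have hc2 : c < Aconst (∑ i, α i) * LG α (fun i => ex (f i)) (fun i => ex (f i)) (ex f0) := by
    have := mul_le_mul_of_nonneg_left hge hA.le
    linarith
  filter_upwards [hlim.eventually_const_lt hc2, self_mem_nhdsWithin] with δ hd hδ
  have hδ' : (0:ℝ) < δ := hδ
  refine hd.le.trans ?_
  apply mul_le_mul_of_nonneg_left _ (Real.rpow_nonneg hδ'.le _)
  unfold boxSum SG
  -- summability of the box sum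
  have hsb : Summable fun q : ℕ => cfg α (fun i => boxI (θ i)) δ q * cfg α (fun i => boxI (θ i)) δ q * boxI 1 (δ * Real.log q) * (q:ℝ)⁻¹ := by
    choose F hFc hFl hFu using fun i => bump (show θ i < θ i + 1 by linarith)
    obtain ⟨F0, hFc0, hFl0, hFu0⟩ := bump (show (1:ℝ) < 2 by norm_num)
    refine Summable.of_nonneg_of_le (fun q => SG_term_nonneg hα0 (fun i x => boxI_nonneg _ _) (fun i x => boxI_nonneg _ _) (fun x => boxI_nonneg _ _) δ q) 
      (fun q => SG_term_mono hα0 (fun i x => boxI_nonneg _ _) (fun i x => boxI_nonneg _ _) (fun x => boxI_nonneg _ _) hFl hFl hFl0 δ q) 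
      (summable_SG_ex hα0 hFc hFc hFc0 hδ')
  exact (summable_SG_ex hα0 hfc hfc hfc0 hδ').tsum_le_tsum (fun q => SG_term_mono hα0 hfn hfn hfn0 hfu hfu hfu0 δ q) hsb

theorem boxSum_upper (hα : ∀ i, 0 < α i) {θ : ι → ℝ} (hθ : ∀ i, 0 < θ i) {c : ℝ} (hc : Aconst (∑ i, α i) * VolC α θ < c) : 
    ∀ᶠ δ in 𝓝[>] (0:ℝ), δ ^ ((∑ i, α i) ^ 2) * boxSum α θ δ ≤ c := by
  have hα0 : ∀ i, 0 ≤ α i := fun i => (hα i).le
  have hκ : 0 ≤ ∑ i, α i := sum_nonneg fun i _ => hα0 i
  obtain ⟨l, hl1, hl⟩ : ∃ l : ℝ, 1 < l ∧ Aconst (∑ i, α i) * (l ^ ((∑ i, α i) ^ 2) * VolC α θ) < c := by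
    have hcont : Tendsto (fun l : ℝ => Aconst (∑ i, α i) * (l ^ ((∑ i, α i) ^ 2) * VolC α θ)) (𝓝[>] 1) 
        (𝓝 (Aconst (∑ i, α i) * ((1:ℝ) ^ ((∑ i, α i) ^ 2) * VolC α θ))) := by
      apply Tendsto.mono_left _ nhdsWithin_le_nhds
      apply Tendsto.const_mul
      apply Tendsto.mul_const
      exact (Real.continuousAt_rpow_const 1 _ (Or.inl one_ne_zero))
    rw [Real.one_rpow, one_mul] at hcont
    have h2 := hcont.eventually_lt_const hc
    obtain ⟨l, hl, hl1⟩ := (h2.and self_mem_nhdsWithin).exists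
    exact ⟨l, hl1, hl⟩
  have hl0 : 0 < l := by linarith
  have hlθ : ∀ i, θ i < l * θ i := fun i => by nlinarith [hθ i]
  choose f hfc hfl hfu using fun i => bump (hlθ i)
  obtain ⟨f0, hfc0, hfl0, hfu0⟩ := bump hl1
  have hfn : ∀ i x, 0 ≤ ex (f i) x := fun i x => (boxI_nonneg _ _).trans (hfl i x)
  have hfn0 : ∀ x, 0 ≤ ex f0 x := fun x => (boxI_nonneg _ _).trans (hfl0 x)
  have hlim := tendsto_SG hα hfc hfc hfc0
  have hiex : Integrable fun t : ι × ι → ℝ => (∏ i, ex (f i) (rowS t i)) * (∏ j, ex (f j) (colS t j)) * ex f0 (totS t) * cellD α t := by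
    have hib := integrable_LG_box (α := α) hα (fun i => l * θ i) l
    refine Integrable.mono' hib (measurable_LG (fun i => (continuous_ex (hfc i)).measurable) (fun i => (continuous_ex (hfc i)).measurable) 
      (continuous_ex hfc0).measurable).aestronglyMeasurable (Eventually.of_forall fun t => ?_)
    have h1 : 0 ≤ ∏ i, ex (f i) (rowS t i) := prod_nonneg fun i _ => hfn i _
    have h2 : 0 ≤ ∏ i, ex (f i) (colS t i) := prod_nonneg fun i _ => hfn i _
    have h3 := hfn0 (totS t)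
    have h4 : ∏ i, ex (f i) (rowS t i) ≤ ∏ i, boxI (l * θ i) (rowS t i) := prod_le_prod (fun i _ => hfn i _) fun i _ => hfu i _
    have h5 : ∏ i, ex (f i) (colS t i) ≤ ∏ i, boxI (l * θ i) (colS t i) := prod_le_prod (fun i _ => hfn i _) fun i _ => hfu i _
    have h6 := hfu0 (totS t)
    have h7 := cellD_nonneg hα t
    rw [Real.norm_eq_abs, abs_of_nonneg (mul_nonneg (mul_nonneg (mul_nonneg h1 h2) h3) h7)]
    apply mul_le_mul_of_nonneg_right _ h7
    refine mul_le_mul (mul_le_mul h4 h5 h2 (h1.trans h4)) h6 h3 (mul_nonneg (h1.trans h4) (h2.trans h5))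
  have hle : LG α (fun i => ex (f i)) (fun i => ex (f i)) (ex f0) ≤ l ^ ((∑ i, α i) ^ 2) * VolC α θ := by
    rw [← LG_box_scale θ hl0]
    exact LG_mono hα hfn hfn hfn0 hfu hfu hfu0 hiex (integrable_LG_box hα (fun i => l * θ i) l) 
  have hA := Aconst_pos hκ
  have hc2 : Aconst (∑ i, α i) * LG α (fun i => ex (f i)) (fun i => ex (f i)) (ex f0) < c := by
    have := mul_le_mul_of_nonneg_left hle hA.le
    linarith
  filter_upwards [hlim.eventually_lt_const hc2, self_mem_nhdsWithin] with δ hd hδ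
  have hδ' : (0:ℝ) < δ := hδ
  refine le_trans ?_ hd.le
  apply mul_le_mul_of_nonneg_left _ (Real.rpow_nonneg hδ'.le _)
  unfold boxSum SG
  have hse := summable_SG_ex hα0 hfc hfc hfc0 hδ'
  have hsb : Summable fun q : ℕ => cfg α (fun i => boxI (θ i)) δ q * cfg α (fun i => boxI (θ i)) δ q * boxI 1 (δ * Real.log q) * (q:ℝ)⁻¹ := by
    refine Summable.of_nonneg_of_le (fun q => SG_term_nonneg hα0 (fun i x => boxI_nonneg _ _) (fun i x => boxI_nonneg _ _) (fun x => boxI_nonneg _ _) δ q) 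
      (fun q => SG_term_mono hα0 (fun i x => boxI_nonneg _ _) (fun i x => boxI_nonneg _ _) (fun x => boxI_nonneg _ _) hfl hfl hfl0 δ q) hse
  exact hsb.tsum_le_tsum (fun q => SG_term_mono hα0 (fun i x => boxI_nonneg _ _) (fun i x => boxI_nonneg _ _) (fun x => boxI_nonneg _ _) hfl hfl hfl0 δ q) hse

end

end Pool.Agent.LibZM
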