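import Mathlib
import Pool.Agent.LibZM.Lower

set_option autoImplicit false

namespace Pool.Agent.LibZM

open MeasureTheory Set Filter Topology Complex ProbabilityTheory
open scoped NNReal ComplexConjugate

lemma setIntegral_gaussian {v : ℝ≥0} (hv : v ≠ 0) (u T : ℝ) (h : ℝ → ℝ) :
    ∫ t in Icc 0 T, h t ∂(gaussianReal u v) = ∫ t in Icc 0 T, gaussianPDFReal u v t * h t := by
  rw [← integral_indicator measurableSet_Icc, ← integral_indicator measurableSet_Icc, 
    integral_gaussianReal_eq_integral_smul hv]
  congr 1; ext t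
  simp only [indicator, smul_eq_mul]
  split_ifs <;> simp

lemma pdf_symm (v : ℝ≥0) (u t : ℝ) : gaussianPDFReal u v t = gaussianPDFReal t v u := by
  simp only [gaussianPDFReal_def]
  congr 2
  ring

theorem average_le {v : ℝ≥0} (hv : v ≠ 0) {h : ℝ → ℝ} (hc : Continuous h) (h0 : ∀ t, 0 ≤ h t) (a b T : ℝ) :
    ∫ u in Icc a b, (∫ t in Icc 0 T, h t ∂(gaussianReal u v)) ≤ ∫ t in Icc 0 T, h t := by
  simp_rw [setIntegral_gaussian hv]
  have hcont : Continuous (Function.uncurry fun (u t : ℝ) => gaussianPDFReal u v t * h t) := by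
    unfold Function.uncurry
    simp only [gaussianPDFReal_def]
    fun_prop
  have hint : Integrable (Function.uncurry fun (u t : ℝ) => gaussianPDFReal u v t * h t) 
      ((volume.restrict (Icc a b)).prod (volume.restrict (Icc 0 T))) := by
    rw [Measure.prod_restrict]
    have := (hcont.continuousOn (s := Icc a b ×ˢ Icc 0 T)).integrableOn_compact (μ := volume) 
      (isCompact_Icc.prod isCompact_Icc)
    exact this
  rw [integral_integral_swap hint]
  refine setIntegral_mono_on hint.integral_prod_right ?_ measurableSet_Icc fun t ht => ?_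
  · exact (hc.continuousOn).integrableOn_compact isCompact_Icc
  · simp_rw [pdf_symm v _ t]
    rw [integral_mul_const]
    have h1 : ∫ u in Icc a b, gaussianPDFReal t v u ≤ 1 := by
      rw [← integral_gaussianPDFReal_eq_one t hv]
      exact setIntegral_le_integral (integrable_gaussianPDFReal t v) 
        (Eventually.of_forall fun u => gaussianPDFReal_nonneg t v u)
    calc (∫ u in Icc a b, gaussianPDFReal t v u) * h t ≤ 1 * h t := by
          apply mul_le_mul_of_nonneg_right h1 (h0 t)
      _ = h t := one_mul _

theorem moment_ge {v : ℝ≥0} (hv : v ≠ 0) {h : ℝ → ℝ} (hc : Continuous h) (h0 : ∀ t, 0 ≤ h t) {T R c : ℝ} 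
    (hT : 2 * R ≤ T) (hcb : ∀ u, R ≤ u → u ≤ T - R → c ≤ ∫ t in Icc 0 T, h t ∂(gaussianReal u v)) :
    (T - 2 * R) * c ≤ ∫ t in Icc 0 T, h t := by
  refine le_trans ?_ (average_le hv hc h0 R (T - R) T)
  have hcont : Continuous (Function.uncurry fun (u t : ℝ) => gaussianPDFReal u v t * h t) := by
    unfold Function.uncurry
    simp only [gaussianPDFReal_def]
    fun_prop
  have hint : Integrable (Function.uncurry fun (u t : ℝ) => gaussianPDFReal u v t * h t) 
      ((volume.restrict (Icc R (T-R))).prod (volume.restrict (Icc 0 T))) := by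
    rw [Measure.prod_restrict]
    have := (hcont.continuousOn (s := Icc R (T-R) ×ˢ Icc 0 T)).integrableOn_compact (μ := volume) 
      (isCompact_Icc.prod isCompact_Icc)
    exact this
  have hint2 : IntegrableOn (fun u => ∫ t in Icc 0 T, h t ∂(gaussianReal u v)) (Icc R (T-R)) := by
    have := hint.integral_prod_left
    refine this.congr (Eventually.of_forall fun u => ?_)
    exact (setIntegral_gaussian hv u T h).symm
  calc (T - 2 * R) * c = ∫ u in Icc R (T-R), c := by
        rw [setIntegral_const, smul_eq_mul, measureReal_def, Real.volume_Icc, ENNReal.toReal_ofReal (by linarith)]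
        ring
    _ ≤ _ := by
        refine setIntegral_mono_on (by simp) hint2 measurableSet_Icc fun u hu => hcb u hu.1 hu.2

end Pool.Agent.LibZM
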