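import Mathlib

set_option autoImplicit false

namespace Pool.Agent.LibZM

open Finset Filter Topology MeasureTheory Polynomial

section

variable {w : ℕ → ℝ} {α A : ℝ}

/-- Evaluate the smoothed sums against polynomial weights. -/
lemma poly_limit (hsum : ∀ s : ℝ, 0 < s → Summable fun n : ℕ => w n * (n:ℝ) ^ (-s)) 
    (hlim : Tendsto (fun s : ℝ => s ^ α * ∑' n : ℕ, w n * (n:ℝ) ^ (-s)) (𝓝[>] 0) (𝓝 A)) (P : ℝ[X]) :
    Tendsto (fun s : ℝ => s ^ α * ∑' n : ℕ, w n * ((n:ℝ) ^ (-s) * P.eval ((n:ℝ) ^ (-s)))) (𝓝[>] 0) 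
      (𝓝 (A * ∑ j ∈ range (P.natDegree + 1), P.coeff j * ((j:ℝ) + 1) ^ (-α))) := by
  have h1 : ∀ s : ℝ, 0 < s → s ^ α * ∑' n : ℕ, w n * ((n:ℝ) ^ (-s) * P.eval ((n:ℝ) ^ (-s))) = 
      ∑ j ∈ range (P.natDegree + 1), P.coeff j * (s ^ α * ∑' n : ℕ, w n * (n:ℝ) ^ (-(((j:ℝ) + 1) * s))) := by
    intro s hs
    have e : ∀ n : ℕ, w n * ((n:ℝ) ^ (-s) * P.eval ((n:ℝ) ^ (-s))) = 
        ∑ j ∈ range (P.natDegree + 1), P.coeff j * (w n * (n:ℝ) ^ (-(((j:ℝ) + 1) * s))) := by
      intro n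
      rw [eval_eq_sum_range, mul_sum, mul_sum]
      refine sum_congr rfl fun j _ => ?_
      have : (n:ℝ) ^ (-(((j:ℝ) + 1) * s)) = (n:ℝ) ^ (-s) * ((n:ℝ) ^ (-s)) ^ j := by
        rw [← pow_succ', ← Real.rpow_natCast, ← Real.rpow_mul (Nat.cast_nonneg _)]
        congr 1; push_cast; ring
      rw [this]; ring
    simp_rw [e]
    rw [Summable.tsum_finsetSum]
    · simp_rw [tsum_mul_left]
      rw [mul_sum]
      exact sum_congr rfl fun j _ => by ring
    · intro j _
      exact (hsum _ (by positivity)).mul_left _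
  have h2 : Tendsto (fun s : ℝ => ∑ j ∈ range (P.natDegree + 1), P.coeff j * (s ^ α * ∑' n : ℕ, w n * (n:ℝ) ^ (-(((j:ℝ) + 1) * s)))) 
      (𝓝[>] 0) (𝓝 (∑ j ∈ range (P.natDegree + 1), P.coeff j * (((j:ℝ) + 1) ^ (-α) * A))) := by
    apply tendsto_finsetSum
    intro j _
    apply Tendsto.const_mul
    have hj : (0:ℝ) < (j:ℝ) + 1 := by positivity
    have ht : Tendsto (fun s : ℝ => ((j:ℝ) + 1) * s) (𝓝[>] 0) (𝓝[>] 0) := by
      apply tendsto_nhdsWithin_of_tendsto_nhds_of_eventually_within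
      · have : Tendsto (fun s : ℝ => ((j:ℝ) + 1) * s) (𝓝 0) (𝓝 (((j:ℝ) + 1) * 0)) := by
          apply Continuous.tendsto; fun_prop
        rw [mul_zero] at this
        exact this.mono_left nhdsWithin_le_nhds
      · filter_upwards [self_mem_nhdsWithin] with s hs
        exact mul_pos hj hs
    have h3 := (hlim.comp ht).const_mul (((j:ℝ) + 1) ^ (-α))
    refine h3.congr' ?_
    filter_upwards [self_mem_nhdsWithin] with s hs
    have hs' : (0:ℝ) < s := hs
    simp only [Function.comp]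
    rw [Real.mul_rpow hj.le hs'.le, ← mul_assoc, ← mul_assoc, ← Real.rpow_add hj]
    simp
  have h4 : A * ∑ j ∈ range (P.natDegree + 1), P.coeff j * ((j:ℝ) + 1) ^ (-α) = 
      ∑ j ∈ range (P.natDegree + 1), P.coeff j * (((j:ℝ) + 1) ^ (-α) * A) := by
    rw [mul_sum]; exact sum_congr rfl fun j _ => by ring
  rw [h4]
  refine h2.congr' ?_
  filter_upwards [self_mem_nhdsWithin] with s hs
  exact (h1 s hs).symm

lemma integrable_term {α : ℝ} (hα : 0 < α) (j : ℕ) : 
    IntegrableOn (fun t : ℝ => t ^ (α - 1) * Real.exp (-(((j:ℝ) + 1) * t))) (Set.Ioi 0) := by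
  have := integrableOn_rpow_mul_exp_neg_mul_rpow (p := 1) (s := α - 1) (b := (j:ℝ) + 1) (by linarith) one_pos (by positivity)
  refine this.congr_fun (fun t _ => ?_) measurableSet_Ioi
  simp only [Real.rpow_one]
  congr 2; ring

lemma poly_integrand (P : ℝ[X]) (α t : ℝ) : 
    t ^ (α - 1) * (Real.exp (-t) * P.eval (Real.exp (-t))) = 
      ∑ j ∈ range (P.natDegree + 1), P.coeff j * (t ^ (α - 1) * Real.exp (-(((j:ℝ) + 1) * t))) := by
  rw [eval_eq_sum_range, mul_sum, mul_sum]
  refine sum_congr rfl fun j _ => ?_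
  have : Real.exp (-(((j:ℝ) + 1) * t)) = Real.exp (-t) * Real.exp (-t) ^ j := by
    rw [← Real.exp_nat_mul, ← Real.exp_add]; congr 1; ring
  rw [this]; ring

lemma poly_integrable (hα : 0 < α) (P : ℝ[X]) : 
    IntegrableOn (fun t : ℝ => t ^ (α - 1) * (Real.exp (-t) * P.eval (Real.exp (-t)))) (Set.Ioi 0) := by
  simp_rw [poly_integrand]
  exact integrable_finsetSum _ fun j _ => (integrable_term hα j).const_mul _

lemma poly_integral (hα : 0 < α) (P : ℝ[X]) : 
    ∫ t in Set.Ioi (0:ℝ), t ^ (α - 1) * (Real.exp (-t) * P.eval (Real.exp (-t))) = 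
      Real.Gamma α * ∑ j ∈ range (P.natDegree + 1), P.coeff j * ((j:ℝ) + 1) ^ (-α) := by
  simp_rw [poly_integrand]
  rw [integral_finsetSum _ fun j _ => (integrable_term hα j).const_mul _, mul_sum]
  refine sum_congr rfl fun j _ => ?_
  rw [integral_const_mul, Real.integral_rpow_mul_exp_neg_mul_Ioi hα (by positivity)]
  rw [one_div, Real.inv_rpow (by positivity), ← Real.rpow_neg (by positivity)]
  ring

/-- One-sided polynomial approximation. -/
lemma exists_poly (hα : 0 < α) {c : ℝ} (hc : c < 1 / Real.Gamma (α + 1)) : 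
    ∃ P : ℝ[X], (∀ y ∈ Set.Icc (0:ℝ) 1, y * P.eval y ≤ if Real.exp (-1) ≤ y then 1 else 0) ∧ 
      c < ∑ j ∈ range (P.natDegree + 1), P.coeff j * ((j:ℝ) + 1) ^ (-α) := by
  have hG := Real.Gamma_pos_of_pos hα
  rw [Real.Gamma_add_one hα.ne'] at hc
  -- choose l
  obtain ⟨l, hl0, hl1, hl⟩ : ∃ l : ℝ, 0 < l ∧ l < 1 ∧ c * Real.Gamma α < l ^ α / α := by
    have hcont : Tendsto (fun l : ℝ => l ^ α / α) (𝓝[<] 1) (𝓝 (1 ^ α / α)) := by
      apply Tendsto.mono_left _ nhdsWithin_le_nhds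
      apply ContinuousAt.tendsto
      exact (Real.continuousAt_rpow_const 1 α (Or.inl one_ne_zero)).div_const _
    have h1 : c * Real.Gamma α < 1 ^ α / α := by
      rw [Real.one_rpow]
      rw [lt_div_iff₀ hα]
      have := (lt_div_iff₀ (by positivity)).mp hc
      linarith
    have h2 := hcont.eventually_const_lt h1
    have h3 : ∀ᶠ l : ℝ in 𝓝[<] 1, 0 < l := by
      apply Filter.Eventually.filter_mono nhdsWithin_le_nhds
      exact lt_mem_nhds one_pos
    obtain ⟨l, hl, hl0, hl1⟩ := (h2.and (h3.and self_mem_nhdsWithin)).exists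
    exact ⟨l, hl0, hl1, hl⟩
  set η : ℝ := (l ^ α / α - c * Real.Gamma α) / (4 * Real.Gamma α) with hη
  have hη0 : 0 < η := by apply div_pos <;> linarith
  -- continuous minorant
  set e1 := Real.exp (-1) with he1
  set el := Real.exp (-l) with hel
  have he10 : 0 < e1 := Real.exp_pos _
  have hlt : e1 < el := Real.exp_lt_exp.mpr (by linarith)
  set φ : ℝ → ℝ := fun y => max 0 (min 1 ((y - e1) / (el - e1))) with hφ
  set g : ℝ → ℝ := fun y => φ y / max y e1 with hg
  have hgc : Continuous g := by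
    apply Continuous.div
    · fun_prop
    · fun_prop
    · intro y; exact (lt_max_of_lt_right he10).ne'
  obtain ⟨P, hP⟩ := exists_polynomial_near_of_continuousOn 0 1 (fun y => g y - η) ((hgc.sub continuous_const).continuousOn) η hη0
  have hφ0 : ∀ y, 0 ≤ φ y := fun y => le_max_left _ _
  have hφ1 : ∀ y, φ y ≤ 1 := fun y => max_le zero_le_one (min_le_left _ _)
  refine ⟨P, fun y hy => ?_, ?_⟩
  · have h1 := (abs_lt.mp (hP y hy)).2
    have h2 : P.eval y ≤ g y := by linarith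
    have h3 : y * P.eval y ≤ y * g y := mul_le_mul_of_nonneg_left h2 hy.1
    refine h3.trans ?_
    split_ifs with h
    · simp only [hg]
      rw [max_eq_left h]
      have hy0 : 0 < y := lt_of_lt_of_le he10 h
      rw [mul_div_cancel₀ _ hy0.ne']
      exact hφ1 y
    · push Not at h
      have : φ y = 0 := by
        simp only [hφ]
        apply max_eq_left
        refine (min_le_right _ _).trans ?_
        apply div_nonpos_of_nonpos_of_nonneg <;> linarith
      simp [hg, this]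
  · have hint := poly_integral hα P
    have hlow : l ^ α / α - 2 * η * Real.Gamma α ≤ ∫ t in Set.Ioi (0:ℝ), t ^ (α - 1) * (Real.exp (-t) * P.eval (Real.exp (-t))) := by
      have hI1 : IntegrableOn (fun t : ℝ => (Set.Ioc 0 l).indicator (fun t => t ^ (α - 1)) t) (Set.Ioi 0) := by
        apply Integrable.integrableOn
        rw [integrable_indicator_iff measurableSet_Ioc]
        exact (intervalIntegral.intervalIntegrable_rpow' (a := 0) (b := l) (by linarith : -1 < α - 1)).1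
      have hI2 : IntegrableOn (fun t : ℝ => 2 * η * (Real.exp (-t) * t ^ (α - 1))) (Set.Ioi 0) := 
        (Real.GammaIntegral_convergent hα).const_mul _
      have ee1 : ∫ t in Set.Ioi (0:ℝ), ((Set.Ioc 0 l).indicator (fun t => t ^ (α - 1)) t - 2 * η * (Real.exp (-t) * t ^ (α - 1))) = 
          l ^ α / α - 2 * η * Real.Gamma α := by
        rw [integral_sub hI1 hI2, integral_const_mul, ← Real.Gamma_eq_integral hα]
        congr 1
        rw [setIntegral_indicator measurableSet_Ioc]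
        have : Set.Ioi (0:ℝ) ∩ Set.Ioc 0 l = Set.Ioc 0 l := by
          ext t; simp
        rw [this, ← intervalIntegral.integral_of_le hl0.le, integral_rpow (Or.inl (by linarith))]
        rw [Real.zero_rpow (by linarith)]
        simp
      rw [← ee1]
      refine setIntegral_mono_on (hI1.sub hI2) (poly_integrable hα P) measurableSet_Ioi fun t ht => ?_
      have ht0 : (0:ℝ) < t := ht
      have hy : Real.exp (-t) ∈ Set.Icc (0:ℝ) 1 := ⟨(Real.exp_pos _).le, Real.exp_le_one_iff.mpr (by linarith)⟩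
      have h1 := (abs_lt.mp (hP _ hy)).1
      have h2 : g (Real.exp (-t)) - 2 * η ≤ P.eval (Real.exp (-t)) := by linarith
      have h3 : (Set.Ioc 0 l).indicator (fun _ => (1:ℝ)) t ≤ Real.exp (-t) * g (Real.exp (-t)) := by
        by_cases htl : t ≤ l
        · rw [Set.indicator_of_mem (show t ∈ Set.Ioc 0 l from ⟨ht0, htl⟩)]
          have h4 : el ≤ Real.exp (-t) := Real.exp_le_exp.mpr (by linarith)
          have h5 : φ (Real.exp (-t)) = 1 := by
            simp only [hφ]
            have : 1 ≤ (Real.exp (-t) - e1) / (el - e1) := by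
              rw [le_div_iff₀ (by linarith)]; linarith
            rw [min_eq_left this]
            simp
          simp only [hg]
          rw [h5, max_eq_left (by linarith), mul_one_div, div_self (Real.exp_pos _).ne']
        · rw [Set.indicator_of_notMem (fun h => htl h.2)]
          have : 0 ≤ g (Real.exp (-t)) := div_nonneg (hφ0 _) (le_max_of_le_right he10.le)
          have := Real.exp_pos (-t)
          positivity
      have h6 : 0 ≤ t ^ (α - 1) := Real.rpow_nonneg ht0.le _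
      have h7 : (Set.Ioc 0 l).indicator (fun t => t ^ (α - 1)) t = t ^ (α - 1) * (Set.Ioc 0 l).indicator (fun _ => (1:ℝ)) t := by
        by_cases h : t ∈ Set.Ioc 0 l
        · rw [Set.indicator_of_mem h, Set.indicator_of_mem h, mul_one]
        · rw [Set.indicator_of_notMem h, Set.indicator_of_notMem h, mul_zero]
      rw [h7]
      have h8 : Real.exp (-t) * (g (Real.exp (-t)) - 2 * η) ≤ Real.exp (-t) * P.eval (Real.exp (-t)) := 
        mul_le_mul_of_nonneg_left h2 (Real.exp_pos _).le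
      calc t ^ (α - 1) * (Set.Ioc 0 l).indicator (fun _ => (1:ℝ)) t - 2 * η * (Real.exp (-t) * t ^ (α - 1)) 
          = t ^ (α - 1) * ((Set.Ioc 0 l).indicator (fun _ => (1:ℝ)) t - 2 * η * Real.exp (-t)) := by ring
        _ ≤ t ^ (α - 1) * (Real.exp (-t) * P.eval (Real.exp (-t))) := by
          apply mul_le_mul_of_nonneg_left _ h6
          linarith
    rw [hint] at hlow
    have h9 : 2 * η * Real.Gamma α = (l ^ α / α - c * Real.Gamma α) / 2 := by
      rw [hη]; field_simp; ring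
    rw [h9] at hlow
    have h10 : c * Real.Gamma α < Real.Gamma α * ∑ j ∈ range (P.natDegree + 1), P.coeff j * ((j:ℝ) + 1) ^ (-α) := by linarith
    rw [mul_comm c] at h10
    exact lt_of_mul_lt_mul_left h10 hG.le

/-- Karamata's theorem, lower bound half. -/
theorem karamata_lower (hw : ∀ n, 0 ≤ w n) (hα : 0 < α) (hA : 0 < A)
    (hsum : ∀ s : ℝ, 0 < s → Summable fun n : ℕ => w n * (n:ℝ) ^ (-s)) 
    (hlim : Tendsto (fun s : ℝ => s ^ α * ∑' n : ℕ, w n * (n:ℝ) ^ (-s)) (𝓝[>] 0) (𝓝 A)) 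
    {c : ℝ} (hc : c < A / Real.Gamma (α + 1)) :
    ∀ᶠ x : ℝ in atTop, c * (Real.log x) ^ α ≤ ∑ n ∈ Icc 1 ⌊x⌋₊, w n := by
  have hc' : c / A < 1 / Real.Gamma (α + 1) := by
    rw [div_lt_iff₀ hA]
    calc c < A / Real.Gamma (α + 1) := hc
      _ = _ := by ring
  obtain ⟨P, hP1, hP2⟩ := exists_poly hα hc'
  have h1 := poly_limit hsum hlim P
  have h2 : c < A * ∑ j ∈ range (P.natDegree + 1), P.coeff j * ((j:ℝ) + 1) ^ (-α) := by
    rw [div_lt_iff₀ hA] at hP2; linarith
  have h3 := h1.eventually_const_lt h2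
  have h4 : Tendsto (fun x : ℝ => (Real.log x)⁻¹) atTop (𝓝[>] 0) := 
    tendsto_inv_atTop_nhdsGT_zero.comp Real.tendsto_log_atTop
  filter_upwards [h4.eventually h3, eventually_gt_atTop 1] with x hx hx1
  have hlog : 0 < Real.log x := Real.log_pos hx1
  set s := (Real.log x)⁻¹ with hs
  have hs0 : 0 < s := inv_pos.mpr hlog
  have h5 : s ^ α = ((Real.log x) ^ α)⁻¹ := by rw [hs, Real.inv_rpow hlog.le]
  have h6 : 0 < (Real.log x) ^ α := Real.rpow_pos_of_pos hlog _
  rw [h5] at hx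
  have h7 : c * (Real.log x) ^ α ≤ ∑' n : ℕ, w n * ((n:ℝ) ^ (-s) * P.eval ((n:ℝ) ^ (-s))) := by
    rw [← div_eq_inv_mul, lt_div_iff₀ h6] at hx
    exact hx.le
  refine h7.trans ?_
  have hS : Summable fun n : ℕ => w n * ((n:ℝ) ^ (-s) * P.eval ((n:ℝ) ^ (-s))) := by
    have e : ∀ n : ℕ, w n * ((n:ℝ) ^ (-s) * P.eval ((n:ℝ) ^ (-s))) = 
        ∑ j ∈ range (P.natDegree + 1), P.coeff j * (w n * (n:ℝ) ^ (-(((j:ℝ) + 1) * s))) := by
      intro n
      rw [eval_eq_sum_range, mul_sum, mul_sum]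
      refine sum_congr rfl fun j _ => ?_
      have : (n:ℝ) ^ (-(((j:ℝ) + 1) * s)) = (n:ℝ) ^ (-s) * ((n:ℝ) ^ (-s)) ^ j := by
        rw [← pow_succ', ← Real.rpow_natCast, ← Real.rpow_mul (Nat.cast_nonneg _)]
        congr 1; push_cast; ring
      rw [this]; ring
    simp_rw [e]
    exact summable_sum fun j _ => (hsum _ (by positivity)).mul_left _
  have hT : HasSum (fun n : ℕ => if n ∈ Icc 1 ⌊x⌋₊ then w n else 0) (∑ n ∈ Icc 1 ⌊x⌋₊, w n) := by
    have h0 : ∑ n ∈ Icc 1 ⌊x⌋₊, w n = ∑ n ∈ Icc 1 ⌊x⌋₊, (if n ∈ Icc 1 ⌊x⌋₊ then w n else 0) := 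
      sum_congr rfl fun n hn => (if_pos hn).symm
    rw [h0]
    exact hasSum_sum_of_ne_finset_zero (L := SummationFilter.unconditional ℕ) (fun n hn => if_neg hn)
  rw [← hT.tsum_eq]
  refine hS.tsum_le_tsum (fun n => ?_) hT.summable
  rcases Nat.eq_zero_or_pos n with rfl | hn
  · simp [Real.zero_rpow (neg_ne_zero.mpr hs0.ne')]
  · have hn1 : (1:ℝ) ≤ n := by exact_mod_cast hn
    have hn0 : (0:ℝ) < n := by linarith
    have hy : (n:ℝ) ^ (-s) ∈ Set.Icc (0:ℝ) 1 := by
      refine ⟨by positivity, ?_⟩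
      exact Real.rpow_le_one_of_one_le_of_nonpos hn1 (by linarith)
    have h8 := hP1 _ hy
    have h9 : w n * ((n:ℝ) ^ (-s) * P.eval ((n:ℝ) ^ (-s))) ≤ w n * (if Real.exp (-1) ≤ (n:ℝ) ^ (-s) then 1 else 0) := 
      mul_le_mul_of_nonneg_left h8 (hw n)
    refine h9.trans ?_
    split_ifs with ha hb hb
    · rw [mul_one]
    · exfalso
      apply hb
      rw [mem_Icc]
      refine ⟨hn, Nat.le_floor ?_⟩
      rw [Real.rpow_def_of_pos hn0, Real.exp_le_exp] at ha
      have h10 : Real.log n * s ≤ 1 := by linarith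
      rw [hs, ← div_eq_mul_inv, div_le_one hlog] at h10
      exact (Real.log_le_log_iff hn0 (by linarith)).mp h10
    · rw [mul_zero]; exact hw n
    · rw [mul_zero]

end

end Pool.Agent.LibZM
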