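import Mathlib
import Pool.Agent.LibZM.Average
import Pool.Agent.LibZM.Asymp2
import Pool.Agent.LibZM.Karamata

set_option autoImplicit false

namespace Pool.Agent.LibZM

open MeasureTheory Filter Topology
open scoped NNReal

lemma lim_exp {a ε : ℝ} (ha : 0 < a) (hε : 0 < ε) (m : ℝ) : 
    Tendsto (fun T : ℝ => T ^ m * Real.exp (-(a * T ^ ε))) atTop (𝓝 0) := by
  have h := (tendsto_rpow_mul_exp_neg_mul_atTop_nhds_zero (m / ε) a ha).comp (tendsto_rpow_atTop hε)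
  refine h.congr' ?_
  filter_upwards [eventually_gt_atTop 0] with T hT
  simp only [Function.comp]
  rw [← Real.rpow_mul hT.le, mul_div_cancel₀ _ hε.ne']
  congr 2; ring

lemma lim_log {ε : ℝ} (hε : 0 < ε) (j : ℕ) : 
    Tendsto (fun T : ℝ => (1 + Real.log T) ^ j * T ^ (-ε)) atTop (𝓝 0) := by
  have h1 : Tendsto (fun T : ℝ => 1 + Real.log T) atTop atTop := 
    tendsto_atTop_add_const_left _ _ Real.tendsto_log_atTop
  have h := ((tendsto_rpow_mul_exp_neg_mul_atTop_nhds_zero (j:ℝ) ε hε).comp h1).const_mul (Real.exp ε)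
  rw [mul_zero] at h
  refine h.congr' ?_
  filter_upwards [eventually_gt_atTop 0] with T hT
  simp only [Function.comp]
  rw [Real.rpow_natCast, Real.rpow_def_of_pos hT]
  have : Real.exp (-ε * (1 + Real.log T)) = Real.exp (Real.log T * -ε) * (Real.exp ε)⁻¹ := by
    rw [← Real.exp_neg, ← Real.exp_add]; congr 1; ring
  rw [this]
  have := (Real.exp_pos ε).ne'
  field_simp

/-- The diagonal dominates the short sum. -/
lemma diag_ge (k x : ℕ) (hk : k ≠ 0) : 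
    ∑ n ∈ Finset.Icc 1 x, tau ((k:ℝ) / 2) n ^ 2 * (n:ℝ)⁻¹ ≤ diag (halfTrunc x ^ k) (x ^ k) := by
  unfold diag
  have h1 : ∀ n ∈ Finset.Icc 1 x, tau ((k:ℝ) / 2) n ^ 2 * (n:ℝ)⁻¹ = ((halfTrunc x ^ k) n) ^ 2 * (n:ℝ)⁻¹ := by
    intro n hn
    rw [Finset.mem_Icc] at hn
    rw [halfTrunc_pow hn.2, mul_one_div]
  rw [Finset.sum_congr rfl h1]
  apply Finset.sum_le_sum_of_subset_of_nonneg
  · exact Finset.Icc_subset_Icc le_rfl (Nat.le_self_pow hk x)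
  · intro n _ _; positivity

lemma short_sum_ge_one (k x : ℕ) (hx : 1 ≤ x) : 
    1 ≤ ∑ n ∈ Finset.Icc 1 x, tau ((k:ℝ) / 2) n ^ 2 * (n:ℝ)⁻¹ := by
  have h := Finset.single_le_sum (f := fun n : ℕ => tau ((k:ℝ) / 2) n ^ 2 * (n:ℝ)⁻¹) (s := Finset.Icc 1 x) 
    (fun n _ => by positivity) (Finset.mem_Icc.mpr ⟨le_rfl, hx⟩)
  simpa [(tau_isMultiplicative ((k:ℝ)/2)).map_one] using h

/-- Karamata applied to the divisor sum. -/
lemma short_sum_asymp (κ : ℝ) (hκ : 0 < κ) {c : ℝ} (hc : c < Aconst κ / Real.Gamma (κ ^ 2 + 1)) : 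
    ∀ᶠ x : ℝ in atTop, c * (Real.log x) ^ (κ ^ 2) ≤ ∑ n ∈ Finset.Icc 1 ⌊x⌋₊, tau κ n ^ 2 * (n:ℝ)⁻¹ := by
  have e : ∀ (s : ℝ) (n : ℕ), tau κ n ^ 2 * (n:ℝ)⁻¹ * (n:ℝ) ^ (-s) = tau κ n ^ 2 * (n:ℝ) ^ (-(1+s)) := by
    intro s n
    rcases Nat.eq_zero_or_pos n with rfl | hn
    · simp
    · have : (0:ℝ) < n := by exact_mod_cast hn
      rw [mul_assoc, ← Real.rpow_neg_one, ← Real.rpow_add this]
      congr 2; ring
  apply karamata_lower (w := fun n => tau κ n ^ 2 * (n:ℝ)⁻¹) (fun n => by positivity) (by positivity) (Aconst_pos hκ.le)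
  · intro s hs
    simp_rw [e]
    exact summable_tau_sq hκ.le (by linarith)
  · simp_rw [e]
    exact tendsto_tau_sq hκ.le
  · exact hc

lemma sum_halfTrunc_le (x : ℕ) : ∑ m ∈ Finset.Icc 1 x, halfTrunc x m ≤ x := by
  calc ∑ m ∈ Finset.Icc 1 x, halfTrunc x m ≤ ∑ m ∈ Finset.Icc 1 x, (1:ℝ) := 
        Finset.sum_le_sum fun m _ => halfTrunc_le_one x m
    _ = x := by simp

lemma sum_halfTrunc_div_le (x : ℕ) : 
    ∑ m ∈ Finset.Icc 1 x, halfTrunc x m * (m:ℝ)⁻¹ ≤ 1 + Real.log x := by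
  calc ∑ m ∈ Finset.Icc 1 x, halfTrunc x m * (m:ℝ)⁻¹ ≤ ∑ m ∈ Finset.Icc 1 x, (m:ℝ)⁻¹ := by
        refine Finset.sum_le_sum fun m _ => ?_
        calc halfTrunc x m * (m:ℝ)⁻¹ ≤ 1 * (m:ℝ)⁻¹ := by
              apply mul_le_mul_of_nonneg_right (halfTrunc_le_one x m); positivity
          _ = _ := one_mul _
    _ = (harmonic x : ℝ) := by
        rw [harmonic_eq_sum_Icc]; push_cast; rfl
    _ ≤ _ := harmonic_le_one_add_log x

/-- Core inequality with explicit errors. -/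
theorem core (j : ℕ) {T θ : ℝ} (hθ0 : 0 < θ) (hθ1 : θ < 1) (hT : 1 ≤ T)
    (hv : 4 ≤ (T ^ ((1 + θ) / 2)) ^ 2) {e₁ e₂ : ℝ} (h1 : e₁ ≤ 1) 
    (he₁ : 6 * (T ^ (2 * (j:ℝ) + 4) * Real.exp (- (1/16 * T ^ (1 - θ)))) + 3 * ((1 + Real.log T) ^ j * T ^ (-((1 - θ)/2))) + 
       60 * (T ^ (2 * (j:ℝ) + 3) * Real.exp (-((1-θ)/2 * T ^ ((1-θ)/2)))) ≤ e₁)
    (he₂ : 3 * (T ^ (2 * (j:ℝ) + 6) * Real.exp (- (1/16 * T ^ (1-θ)))) ≤ e₂) :
    θ * T * ((1 - e₁) ^ (j+2) / (1 + e₂) ^ (j+1) * 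
      ∑ n ∈ Finset.Icc 1 ⌊T ^ (θ / ((j:ℝ)+2))⌋₊, tau (((j:ℝ)+2) / 2) n ^ 2 * (n:ℝ)⁻¹) ≤ 
      ∫ t in Set.Icc 0 T, ‖riemannZeta (crit t)‖ ^ (j+2) := by
  have hT0 : 0 < T := by linarith
  set x : ℕ := ⌊T ^ (θ / ((j:ℝ)+2))⌋₊ with hx
  have hj2 : (0:ℝ) < (j:ℝ) + 2 := by positivity
  have hy1 : 1 ≤ T ^ (θ / ((j:ℝ)+2)) := Real.one_le_rpow hT (by positivity)
  have hx1 : 1 ≤ x := Nat.le_floor (by simpa using hy1)
  have hxle : (x:ℝ) ≤ T ^ (θ / ((j:ℝ)+2)) := Nat.floor_le (by positivity)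
  have hx1' : (1:ℝ) ≤ x := by exact_mod_cast hx1
  have hXle : ((x ^ (j+2) : ℕ):ℝ) ≤ T ^ θ := by
    push_cast
    calc (x:ℝ) ^ (j+2) ≤ (T ^ (θ / ((j:ℝ)+2))) ^ (j+2) := by gcongr
      _ = T ^ θ := by
        rw [← Real.rpow_natCast, ← Real.rpow_mul hT0.le]
        congr 1; push_cast; field_simp
  have hTθ : T ^ θ ≤ T := by
    calc T ^ θ ≤ T ^ (1:ℝ) := Real.rpow_le_rpow_of_exponent_le hT hθ1.le
      _ = T := Real.rpow_one T
  have hX1 : (1:ℝ) ≤ ((x ^ (j+2) : ℕ):ℝ) := by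
    push_cast; exact one_le_pow₀ hx1'
  have hxX : (x:ℝ) ≤ T := by
    refine hxle.trans ?_
    calc T ^ (θ / ((j:ℝ)+2)) ≤ T ^ (1:ℝ) := by
          apply Real.rpow_le_rpow_of_exponent_le hT
          rw [div_le_one hj2]; linarith
      _ = T := Real.rpow_one T
  set H : ℝ := T ^ ((1 + θ) / 2) with hH
  have hH0 : 0 < H := Real.rpow_pos_of_pos hT0 _
  have hHT : H ≤ T := by
    calc H ≤ T ^ (1:ℝ) := Real.rpow_le_rpow_of_exponent_le hT (by linarith)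
      _ = T := Real.rpow_one T
  set v : ℝ≥0 := ⟨H ^ 2, by positivity⟩ with hvdef
  have hvc : (v:ℝ) = H ^ 2 := rfl
  have hv4 : 4 ≤ v := by
    rw [← NNReal.coe_le_coe, hvc]; exact_mod_cast hv
  have hsv : √(v:ℝ) = H := by rw [hvc, Real.sqrt_sq hH0.le]
  set R : ℝ := (1-θ)/2 * T with hR
  have hR0 : 0 ≤ R := by apply mul_nonneg <;> linarith
  set b := halfTrunc x with hb
  set s1 := ∑ m ∈ Finset.Icc 1 x, b m with hs1
  have hs1n : 0 ≤ s1 := Finset.sum_nonneg fun n _ => halfTrunc_nonneg x n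
  have hs1x : s1 ≤ x := sum_halfTrunc_le x
  have hs1T : s1 ≤ T := hs1x.trans hxX
  set s2 := ∑ m ∈ Finset.Icc 1 x, b m * (m:ℝ)⁻¹ with hs2
  have hs2n : 0 ≤ s2 := Finset.sum_nonneg fun n _ => mul_nonneg (halfTrunc_nonneg x n) (by positivity)
  have hs2T : s2 ≤ 1 + Real.log T := by
    refine (sum_halfTrunc_div_le x).trans ?_
    have := Real.log_le_log (by linarith) hxX
    linarith
  -- exponential factor
  have hexp : Real.exp (- (v:ℝ) / (16 * ((x ^ (j+2) : ℕ):ℝ) ^ 2)) ≤ Real.exp (- (1/16 * T ^ (1-θ))) := by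
    apply Real.exp_le_exp.mpr
    rw [neg_div, neg_le_neg_iff, hvc]
    have h3 : H ^ 2 = T ^ (1 - θ) * (T ^ θ) ^ 2 := by
      rw [hH, ← Real.rpow_natCast, ← Real.rpow_natCast, ← Real.rpow_mul hT0.le, ← Real.rpow_mul hT0.le, ← Real.rpow_add hT0]
      congr 1; push_cast; ring
    rw [h3, le_div_iff₀ (by positivity)]
    have h4 : ((x ^ (j+2) : ℕ):ℝ) ^ 2 ≤ (T ^ θ) ^ 2 := by gcongr
    have h5 : 0 ≤ T ^ (1 - θ) := by positivity
    have h6 := mul_le_mul_of_nonneg_left h4 h5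
    linarith
  have hpow1 : ((x ^ (j+2) : ℕ):ℝ) ^ 2 * s1 ^ (2*j+2) ≤ T ^ (2 * (j:ℝ) + 4) := by
    calc ((x ^ (j+2) : ℕ):ℝ) ^ 2 * s1 ^ (2*j+2) ≤ T ^ 2 * T ^ (2*j+2) := by
          have := hXle.trans hTθ
          gcongr
      _ = T ^ (2 * (j:ℝ) + 4) := by
          rw [← pow_add, ← Real.rpow_natCast]; congr 1; push_cast; ring
  have hpow2 : ((x ^ (j+2) : ℕ):ℝ) ^ 2 * s1 ^ (2*j+4) ≤ T ^ (2 * (j:ℝ) + 6) := by
    calc ((x ^ (j+2) : ℕ):ℝ) ^ 2 * s1 ^ (2*j+4) ≤ T ^ 2 * T ^ (2*j+4) := by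
          have := hXle.trans hTθ
          gcongr
      _ = T ^ (2 * (j:ℝ) + 6) := by
          rw [← pow_add, ← Real.rpow_natCast]; congr 1; push_cast; ring
  have t1 : 6 * ((x ^ (j+2) : ℕ):ℝ) ^ 2 * Real.exp (- v / (16 * ((x ^ (j+2) : ℕ):ℝ) ^ 2)) * (s1 ^ (2 * j + 2)) ≤ 
      6 * (T ^ (2 * (j:ℝ) + 4) * Real.exp (- (1/16 * T ^ (1 - θ)))) := by
    calc _ = 6 * ((((x ^ (j+2) : ℕ):ℝ) ^ 2 * s1 ^ (2*j+2)) * Real.exp (- v / (16 * ((x ^ (j+2) : ℕ):ℝ) ^ 2))) := by ring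
      _ ≤ _ := by gcongr
  have t2 : 3 / √(v:ℝ) * (s2 ^ j * s1 ^ (j+2)) ≤ 3 * ((1 + Real.log T) ^ j * T ^ (-((1 - θ)/2))) := by
    rw [hsv]
    have h3 : s1 ^ (j+2) ≤ T ^ θ := by
      calc s1 ^ (j+2) ≤ (x:ℝ) ^ (j+2) := by gcongr
        _ ≤ T ^ θ := by have := hXle; push_cast at this; exact this
    have h4 : s2 ^ j ≤ (1 + Real.log T) ^ j := by gcongr
    have h5 : T ^ (-((1 - θ)/2)) = T ^ θ / H := by
      rw [hH, ← Real.rpow_sub hT0]; congr 1; ring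
    rw [h5]
    have h6 : 0 ≤ Real.log T := Real.log_nonneg hT
    calc 3 / H * (s2 ^ j * s1 ^ (j+2)) ≤ 3 / H * ((1 + Real.log T) ^ j * T ^ θ) := by gcongr
      _ = _ := by ring
  have t3 : Real.exp (- R / √(v:ℝ)) * (16 + 8 * T + 36 * √(v:ℝ)) * s1 ^ (2*j+2) ≤ 
      60 * (T ^ (2 * (j:ℝ) + 3) * Real.exp (-((1-θ)/2 * T ^ ((1-θ)/2)))) := by
    rw [hsv]
    have h3 : - R / H = -((1-θ)/2 * T ^ ((1-θ)/2)) := by
      have : T ^ ((1-θ)/2) = T / H := by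
        rw [hH]; nth_rewrite 2 [← Real.rpow_one T]; rw [← Real.rpow_sub hT0]; congr 1; ring
      rw [this, hR]; ring
    rw [h3]
    have h4 : 16 + 8 * T + 36 * H ≤ 60 * T := by linarith
    have h5 : T * T ^ (2*j+2) = T ^ (2 * (j:ℝ) + 3) := by
      rw [← pow_succ', ← Real.rpow_natCast]; congr 1; push_cast; ring
    calc Real.exp (-((1-θ)/2 * T ^ ((1-θ)/2))) * (16 + 8 * T + 36 * H) * s1 ^ (2*j+2) 
        ≤ Real.exp (-((1-θ)/2 * T ^ ((1-θ)/2))) * (60 * T) * T ^ (2*j+2) := by gcongr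
      _ = 60 * (T * T ^ (2*j+2) * Real.exp (-((1-θ)/2 * T ^ ((1-θ)/2)))) := by ring
      _ = _ := by rw [h5]
  have t4 : 3 * ((x ^ (j+2) : ℕ):ℝ) ^ 2 * Real.exp (- v / (16 * ((x ^ (j+2) : ℕ):ℝ) ^ 2)) * s1 ^ (2*j+4) ≤ 
      3 * (T ^ (2 * (j:ℝ) + 6) * Real.exp (- (1/16 * T ^ (1-θ)))) := by
    calc _ = 3 * ((((x ^ (j+2) : ℕ):ℝ) ^ 2 * s1 ^ (2*j+4)) * Real.exp (- v / (16 * ((x ^ (j+2) : ℕ):ℝ) ^ 2))) := by ring
      _ ≤ _ := by gcongr
  have e1n : 0 ≤ e₁ := by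
    refine le_trans ?_ he₁
    have : 0 ≤ Real.log T := Real.log_nonneg hT
    positivity
  have e2n : 0 ≤ e₂ := by
    refine le_trans ?_ he₂
    positivity
  set D := diag (b ^ (j+2)) (x ^ (j+2)) with hD
  set S := ∑ n ∈ Finset.Icc 1 x, tau (((j:ℝ)+2) / 2) n ^ 2 * (n:ℝ)⁻¹ with hS
  have hSD : S ≤ D := by
    have := diag_ge (j+2) x (by omega)
    push_cast at this
    exact this
  have hS1 : 1 ≤ S := by
    have := short_sum_ge_one (j+2) x hx1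
    push_cast at this
    exact this
  have hloc : ∀ u, R ≤ u → u ≤ T - R → (D - e₁) ^ (j+2) / (D + e₂) ^ (j+1) ≤ 
      ∫ t in Set.Icc 0 T, ‖riemannZeta (crit t)‖ ^ (j+2) ∂(ProbabilityTheory.gaussianReal u v) := by
    intro u hu hu'
    have hDe : 0 < (D + e₂) ^ (j+1) := by
      have : 0 < D + e₂ := by linarith
      positivity
    rw [div_le_iff₀ hDe]
    apply local_lower (b := b) (x := x) (halfTrunc_nonneg x) (halfTrunc_mul_le x) (halfTrunc_supp x) j hv4 hR0 hu hu' 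
    · refine le_trans ?_ he₁
      linarith
    · exact t4.trans he₂
    · linarith
  have hmom := moment_ge (v := v) (by
      intro h; rw [h] at hv4; norm_num at hv4) (h := fun t => ‖riemannZeta (crit t)‖ ^ (j+2)) 
      (continuous_zeta_crit.norm.pow _) (fun t => by positivity) (T := T) (R := R) 
      (c := (D - e₁) ^ (j+2) / (D + e₂) ^ (j+1)) (by rw [hR]; have h9 := mul_nonneg hθ0.le hT0.le; linarith) hloc
  refine le_trans ?_ hmom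
  have hTR : T - 2 * R = θ * T := by rw [hR]; ring
  rw [hTR]
  apply mul_le_mul_of_nonneg_left _ (by positivity)
  have hD1 : 1 ≤ D := hS1.trans hSD
  have hD0 : 0 < D := by linarith
  calc (1 - e₁) ^ (j+2) / (1 + e₂) ^ (j+1) * S ≤ (1 - e₁) ^ (j+2) / (1 + e₂) ^ (j+1) * D := by
        apply mul_le_mul_of_nonneg_left hSD
        have : 0 ≤ 1 - e₁ := by linarith
        positivity
    _ = (D * (1 - e₁)) ^ (j+2) / (D * (1 + e₂)) ^ (j+1) := by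
        rw [mul_pow, mul_pow]
        have : (1 + e₂) ≠ 0 := by positivity
        field_simp
        ring
    _ ≤ (D - e₁) ^ (j+2) / (D + e₂) ^ (j+1) := by
        have h0 : 0 ≤ 1 - e₁ := by linarith
        have h3 : D * (1 - e₁) ≤ D - e₁ := by
          have := mul_le_mul_of_nonneg_right hD1 e1n
          linarith
        have h4 : D + e₂ ≤ D * (1 + e₂) := by
          have := mul_le_mul_of_nonneg_right hD1 e2n
          linarith
        have h5 : 0 < D + e₂ := by linarith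
        have h6 : 0 ≤ D - e₁ := by linarith
        have h7 : 0 ≤ D * (1 - e₁) := mul_nonneg hD0.le h0
        exact div_le_div₀ (pow_nonneg h6 _) (pow_le_pow_left₀ h7 h3 _) (pow_pos h5 _) (pow_le_pow_left₀ h5.le h4 _)


/-- Final assembly. -/
theorem moment_lower (j : ℕ) {c : ℝ} 
    (hc : c < ((j:ℝ)+2) ^ (-((((j:ℝ)+2)/2) ^ 2)) * (Aconst (((j:ℝ)+2)/2) / Real.Gamma ((((j:ℝ)+2)/2) ^ 2 + 1))) :
    ∀ᶠ T : ℝ in atTop, c * (T * (Real.log T) ^ ((((j:ℝ)+2)/2) ^ 2)) ≤ 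
      ∫ t in Set.Icc 0 T, ‖riemannZeta (crit t)‖ ^ (j+2) := by
  set κ : ℝ := ((j:ℝ)+2)/2 with hκ
  have hκ0 : 0 < κ := by positivity
  set α : ℝ := κ ^ 2 with hα
  have hα0 : 0 < α := by positivity
  set C := Aconst κ / Real.Gamma (α + 1) with hC
  have hC0 : 0 < C := div_pos (Aconst_pos hκ0.le) (Real.Gamma_pos_of_pos (by linarith))
  have hj2 : (0:ℝ) < (j:ℝ) + 2 := by positivity
  -- choose θ
  obtain ⟨θ, hθ0, hθ1, hθ⟩ : ∃ θ : ℝ, 0 < θ ∧ θ < 1 ∧ c < θ * (θ * ((θ * C) * (θ / ((j:ℝ)+2)) ^ α)) := by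
    have hcont : Tendsto (fun θ : ℝ => θ * (θ * ((θ * C) * (θ / ((j:ℝ)+2)) ^ α))) (𝓝[<] 1) 
        (𝓝 (1 * (1 * ((1 * C) * (1 / ((j:ℝ)+2)) ^ α)))) := by
      apply Tendsto.mono_left _ nhdsWithin_le_nhds
      apply ContinuousAt.tendsto (f := fun θ : ℝ => θ * (θ * ((θ * C) * (θ / ((j:ℝ)+2)) ^ α)))
      have h1 : ContinuousAt (fun θ : ℝ => (θ / ((j:ℝ)+2)) ^ α) 1 := by
        apply ContinuousAt.rpow_const
        · fun_prop
        · left; positivity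
      fun_prop
    have h1 : c < 1 * (1 * ((1 * C) * (1 / ((j:ℝ)+2)) ^ α)) := by
      rw [one_mul, one_mul, one_mul, one_div, Real.inv_rpow hj2.le, ← Real.rpow_neg hj2.le]
      linarith
    have h2 := hcont.eventually_const_lt h1
    have h3 : ∀ᶠ l : ℝ in 𝓝[<] 1, 0 < l := by
      apply Filter.Eventually.filter_mono nhdsWithin_le_nhds
      exact lt_mem_nhds one_pos
    obtain ⟨l, hl, hl0, hl1⟩ := (h2.and (h3.and self_mem_nhdsWithin)).exists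
    exact ⟨l, hl0, hl1, hl⟩
  -- errors
  set E1 : ℝ → ℝ := fun T => 6 * (T ^ (2 * (j:ℝ) + 4) * Real.exp (- (1/16 * T ^ (1 - θ)))) + 3 * ((1 + Real.log T) ^ j * T ^ (-((1 - θ)/2))) + 
       60 * (T ^ (2 * (j:ℝ) + 3) * Real.exp (-((1-θ)/2 * T ^ ((1-θ)/2)))) with hE1
  set E2 : ℝ → ℝ := fun T => 3 * (T ^ (2 * (j:ℝ) + 6) * Real.exp (- (1/16 * T ^ (1-θ)))) with hE2
  have l1 : Tendsto E1 atTop (𝓝 0) := by
    have a1 := (lim_exp (by norm_num : (0:ℝ) < 1/16) (by linarith : 0 < 1 - θ) (2 * (j:ℝ) + 4)).const_mul 6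
    have a2 := (lim_log (by linarith : 0 < (1 - θ)/2) j).const_mul 3
    have a3 := (lim_exp (by linarith : 0 < (1 - θ)/2) (by linarith : 0 < (1 - θ)/2) (2 * (j:ℝ) + 3)).const_mul 60
    have := (a1.add a2).add a3
    rw [mul_zero, mul_zero, mul_zero, add_zero, add_zero] at this
    exact this
  have l2 : Tendsto E2 atTop (𝓝 0) := by
    have a1 := (lim_exp (by norm_num : (0:ℝ) < 1/16) (by linarith : 0 < 1 - θ) (2 * (j:ℝ) + 6)).const_mul 3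
    rw [mul_zero] at a1
    exact a1
  have l3 : Tendsto (fun T => (1 - E1 T) ^ (j+2) / (1 + E2 T) ^ (j+1)) atTop (𝓝 1) := by
    have a1 : Tendsto (fun T => (1 - E1 T) ^ (j+2)) atTop (𝓝 ((1 - 0) ^ (j+2))) := (l1.const_sub 1).pow _
    have a2 : Tendsto (fun T => (1 + E2 T) ^ (j+1)) atTop (𝓝 ((1 + 0) ^ (j+1))) := (l2.const_add 1).pow _
    have a3 := a1.div a2 (by norm_num)
    rw [sub_zero, add_zero, one_pow, one_pow, div_one] at a3
    exact a3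
  have m1 : ∀ᶠ T in atTop, E1 T ≤ 1 := (l1.eventually_lt_const one_pos).mono fun T h => h.le
  have m3 : ∀ᶠ T in atTop, θ < (1 - E1 T) ^ (j+2) / (1 + E2 T) ^ (j+1) := l3.eventually_const_lt hθ1
  have m4 : ∀ᶠ T : ℝ in atTop, 2 ≤ T ^ ((1 + θ) / 2) := 
    (tendsto_rpow_atTop (by linarith : 0 < (1 + θ) / 2)).eventually_ge_atTop 2
  have hθj : 0 < θ / ((j:ℝ)+2) := by positivity
  have m5 := (tendsto_rpow_atTop hθj).eventually (short_sum_asymp κ hκ0 (c := θ * C) (by nlinarith))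
  filter_upwards [m1, m3, m4, m5, eventually_ge_atTop 1] with T h1 h3 h4 h5 hT
  have hT0 : 0 < T := by linarith
  have hlog : 0 ≤ Real.log T := Real.log_nonneg hT
  have hcore := core j hθ0 hθ1 hT (by nlinarith) h1 le_rfl le_rfl
  refine le_trans ?_ hcore
  rw [Real.log_rpow hT0, Real.mul_rpow hθj.le hlog] at h5
  set S := ∑ n ∈ Finset.Icc 1 ⌊T ^ (θ / ((j:ℝ)+2))⌋₊, tau κ n ^ 2 * (n:ℝ)⁻¹ with hS
  have hL : 0 ≤ (Real.log T) ^ α := Real.rpow_nonneg hlog _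
  calc c * (T * (Real.log T) ^ α) ≤ (θ * (θ * ((θ * C) * (θ / ((j:ℝ)+2)) ^ α))) * (T * (Real.log T) ^ α) := by
        apply mul_le_mul_of_nonneg_right hθ.le; positivity
    _ = θ * T * (θ * ((θ * C) * ((θ / ((j:ℝ)+2)) ^ α * (Real.log T) ^ α))) := by ring
    _ ≤ θ * T * (θ * S) := by gcongr
    _ ≤ _ := by
      have hS0 : 0 ≤ S := Finset.sum_nonneg fun n _ => by positivity
      have : 0 ≤ θ * T := by positivity
      apply mul_le_mul_of_nonneg_left _ this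
      exact mul_le_mul_of_nonneg_right h3.le hS0

end Pool.Agent.LibZM
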