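import Mathlib
import Pool.Agent.LibZM.CS5
import Pool.Agent.LibZM.MK6
import Pool.Agent.LibZM.Param

set_option autoImplicit false

namespace Pool.Agent.LibZM

open MeasureTheory Filter Topology
open scoped NNReal

/-- Exponents for the short polynomial. -/
noncomputable def alphaD (k : ℕ) : Fin k → ℝ := fun _ => 1/2
/-- Length parameters for the short polynomial. -/
noncomputable def thetaD (k : ℕ) : Fin k → ℝ := fun _ => 1/(k:ℝ)
/-- Exponents for the long polynomial. -/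
noncomputable def alphaN (r m : ℕ) : Fin (m+1) → ℝ := fun i => if i = 0 then (r:ℝ) else 1/2
/-- Length parameters for the long polynomial. -/
noncomputable def thetaN (k m : ℕ) : Fin (m+1) → ℝ := fun i => if i = 0 then 1 else 1/(k:ℝ)

lemma sum_alphaD (k : ℕ) : ∑ i, alphaD k i = (k:ℝ)/2 := by
  simp [alphaD]; ring

lemma sum_alphaN (r m : ℕ) : ∑ i, alphaN r m i = (r:ℝ) + (m:ℝ)/2 := by
  rw [Fin.sum_univ_succ]
  simp [alphaN, Fin.succ_ne_zero]; ring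

lemma boxI_eq_one_iff {Y θ : ℝ} (hY : 1 < Y) {n : ℕ} (hn : 1 ≤ n) : 
    boxI θ ((Real.log Y)⁻¹ * Real.log n) = if n ≤ ⌊Y ^ θ⌋₊ then 1 else 0 := by
  have hl : 0 < Real.log Y := Real.log_pos hY
  have hY0 : 0 < Y := by linarith
  have hn0 : (0:ℝ) < n := by exact_mod_cast hn
  have h : (Real.log Y)⁻¹ * Real.log n ≤ θ ↔ n ≤ ⌊Y ^ θ⌋₊ := by
    rw [Nat.le_floor_iff (by positivity), inv_mul_le_iff₀ hl, ← Real.log_le_log_iff hn0 (by positivity), Real.log_rpow hY0, mul_comm θ]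
  unfold boxI
  simp only [h]

lemma tw_half_eq {Y : ℝ} (hY : 1 < Y) (k : ℕ) : 
    tw (1/2) (fun n => boxI (1/(k:ℝ)) ((Real.log Y)⁻¹ * Real.log n)) = halfTrunc ⌊Y ^ (1/(k:ℝ))⌋₊ := by
  ext n
  rw [tw_apply, halfTrunc_apply]
  rcases Nat.eq_zero_or_pos n with rfl | hn
  · simp
  · rw [boxI_eq_one_iff hY hn]
    split_ifs <;> simp

lemma floor_root_pow_le {Y : ℝ} (hY : 1 < Y) {k : ℕ} (hk : 1 ≤ k) : ((⌊Y ^ (1/(k:ℝ))⌋₊ ^ k : ℕ) : ℝ) ≤ Y := by
  have hY0 : 0 < Y := by linarith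
  have hk0 : (k:ℝ) ≠ 0 := by exact_mod_cast (by omega : k ≠ 0)
  push_cast
  calc (⌊Y ^ (1/(k:ℝ))⌋₊ : ℝ) ^ k ≤ (Y ^ (1/(k:ℝ))) ^ k := by
        gcongr
        exact Nat.floor_le (by positivity)
    _ = Y := by
        rw [← Real.rpow_natCast, ← Real.rpow_mul hY0.le, one_div, inv_mul_cancel₀ hk0, Real.rpow_one]

lemma boxSum_D {Y : ℝ} (hY : 1 < Y) {k : ℕ} (hk : 1 ≤ k) : 
    boxSum (alphaD k) (thetaD k) (Real.log Y)⁻¹ = 
      diag (halfTrunc ⌊Y ^ (1/(k:ℝ))⌋₊ ^ k) (⌊Y ^ (1/(k:ℝ))⌋₊ ^ k) := by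
  set x := ⌊Y ^ (1/(k:ℝ))⌋₊ with hx
  have hY0 : 0 < Y := by linarith
  have hcfg : cfg (alphaD k) (fun i => boxI (thetaD k i)) (Real.log Y)⁻¹ = halfTrunc x ^ k := by
    unfold cfg alphaD thetaD
    rw [Finset.prod_const, Finset.card_univ, Fintype.card_fin, tw_half_eq hY]
  unfold boxSum SG
  rw [hcfg, diag]
  rw [tsum_eq_sum (s := Finset.Icc 1 (x ^ k))]
  · refine Finset.sum_congr rfl fun q hq => ?_
    rw [Finset.mem_Icc] at hq
    have h1 : q ≤ ⌊Y ^ (1:ℝ)⌋₊ := by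
      rw [Real.rpow_one, Nat.le_floor_iff hY0.le]
      calc (q:ℝ) ≤ ((x ^ k : ℕ) : ℝ) := by exact_mod_cast hq.2
        _ ≤ Y := floor_root_pow_le hY hk
    rw [boxI_eq_one_iff hY hq.1, if_pos h1]
    ring
  · intro q hq
    rw [Finset.mem_Icc, not_and_or, not_le, not_le] at hq
    rcases hq with h | h
    · have : q = 0 := by omega
      subst this; simp
    · rw [(halfTrunc_supp x).pow k q h]; simp

lemma boxSum_N {Y : ℝ} (hY : 1 < Y) {k : ℕ} (r m : ℕ) : 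
    boxSum (alphaN r m) (thetaN k m) (Real.log Y)⁻¹ = diag (tau r * halfTrunc ⌊Y ^ (1/(k:ℝ))⌋₊ ^ m) ⌊Y⌋₊ := by
  set x := ⌊Y ^ (1/(k:ℝ))⌋₊ with hx
  have hY0 : 0 < Y := by linarith
  have hcfg : cfg (alphaN r m) (fun i => boxI (thetaN k m i)) (Real.log Y)⁻¹ = 
      tw r (fun n => boxI 1 ((Real.log Y)⁻¹ * Real.log n)) * halfTrunc x ^ m := by
    unfold cfg alphaN thetaN
    rw [Fin.prod_univ_succ]
    simp only [if_true, Fin.succ_ne_zero, if_false]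
    rw [Finset.prod_const, Finset.card_univ, Fintype.card_fin, tw_half_eq hY]
  unfold boxSum SG
  rw [hcfg, diag]
  rw [tsum_eq_sum (s := Finset.Icc 1 ⌊Y⌋₊)]
  · refine Finset.sum_congr rfl fun q hq => ?_
    rw [Finset.mem_Icc] at hq
    have h1 : q ≤ ⌊Y ^ (1:ℝ)⌋₊ := by rw [Real.rpow_one]; exact hq.2
    have h2 : (tw r (fun n => boxI 1 ((Real.log Y)⁻¹ * Real.log n)) * halfTrunc x ^ m) q = (tau r * halfTrunc x ^ m) q := by
      rw [ArithmeticFunction.mul_apply, ArithmeticFunction.mul_apply]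
      refine Finset.sum_congr rfl fun p hp => ?_
      rw [Nat.mem_divisorsAntidiagonal] at hp
      have hp1 : 1 ≤ p.1 := by
        rcases Nat.eq_zero_or_pos p.1 with h | h
        · rw [h, zero_mul] at hp; omega
        · exact h
      have hp2 : p.1 ≤ q := Nat.le_of_dvd (by omega) ⟨p.2, hp.1.symm⟩
      rw [tw_apply, boxI_eq_one_iff hY hp1, if_pos (hp2.trans h1), mul_one]
    rw [boxI_eq_one_iff hY hq.1, if_pos h1, h2]
    ring
  · intro q hq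
    rw [Finset.mem_Icc, not_and_or, not_le, not_le] at hq
    rcases hq with h | h
    · have : q = 0 := by omega
      subst this; simp
    · have h1 : ¬ q ≤ ⌊Y ^ (1:ℝ)⌋₊ := by rw [Real.rpow_one]; omega
      rw [boxI_eq_one_iff hY (by omega), if_neg h1]; simp

/-- Asymptotic lower bound for the long diagonal sum. -/
lemma diagN_lower {k r m : ℕ} (hk : k = 2 * r + m) (hr : 1 ≤ r) {c : ℝ} (hc : c < Aconst ((k:ℝ)/2) * VolC (alphaN r m) (thetaN k m)) : 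
    ∀ᶠ Y : ℝ in atTop, c * (Real.log Y) ^ (((k:ℝ)/2) ^ 2) ≤ diag (tau r * halfTrunc ⌊Y ^ (1/(k:ℝ))⌋₊ ^ m) ⌊Y⌋₊ := by
  have hsum : ∑ i, alphaN r m i = (k:ℝ)/2 := by rw [sum_alphaN, hk]; push_cast; ring
  have hk0 : (0:ℝ) < k := by exact_mod_cast (by omega : 0 < k)
  have hα : ∀ i, 0 < alphaN r m i := by
    intro i; unfold alphaN
    have : (0:ℝ) < r := by exact_mod_cast hr
    split_ifs <;> positivity
  have hθ : ∀ i, 0 < thetaN k m i := by
    intro i; unfold thetaN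
    split_ifs <;> positivity
  rw [← hsum] at hc
  have h := boxSum_lower hα hθ hc
  have ht : Tendsto (fun Y : ℝ => (Real.log Y)⁻¹) atTop (𝓝[>] 0) := by
    rw [tendsto_nhdsWithin_iff]
    refine ⟨tendsto_inv_atTop_zero.comp Real.tendsto_log_atTop, ?_⟩
    filter_upwards [eventually_gt_atTop 1] with Y hY
    exact inv_pos.mpr (Real.log_pos hY)
  filter_upwards [ht.eventually h, eventually_gt_atTop 1] with Y h1 hY
  rw [boxSum_N hY, hsum] at h1
  have hl : 0 < Real.log Y := Real.log_pos hY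
  rw [Real.inv_rpow hl.le, inv_mul_eq_div, le_div_iff₀ (by positivity)] at h1
  exact h1

/-- Asymptotic upper bound for the short diagonal sum. -/
lemma diagD_upper {k : ℕ} (hk : 1 ≤ k) {c : ℝ} (hc : Aconst ((k:ℝ)/2) * VolC (alphaD k) (thetaD k) < c) : 
    ∀ᶠ Y : ℝ in atTop, diag (halfTrunc ⌊Y ^ (1/(k:ℝ))⌋₊ ^ k) (⌊Y ^ (1/(k:ℝ))⌋₊ ^ k) ≤ c * (Real.log Y) ^ (((k:ℝ)/2) ^ 2) := by
  have hk0 : (0:ℝ) < k := by exact_mod_cast hk
  have hα : ∀ i, 0 < alphaD k i := by intro i; unfold alphaD; norm_num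
  have hθ : ∀ i, 0 < thetaD k i := by intro i; unfold thetaD; positivity
  rw [← sum_alphaD] at hc
  have h := boxSum_upper hα hθ hc
  have ht : Tendsto (fun Y : ℝ => (Real.log Y)⁻¹) atTop (𝓝[>] 0) := by
    rw [tendsto_nhdsWithin_iff]
    refine ⟨tendsto_inv_atTop_zero.comp Real.tendsto_log_atTop, ?_⟩
    filter_upwards [eventually_gt_atTop 1] with Y hY
    exact inv_pos.mpr (Real.log_pos hY)
  filter_upwards [ht.eventually h, eventually_gt_atTop 1] with Y h1 hY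
  rw [boxSum_D hY hk, sum_alphaD] at h1
  have hl : 0 < Real.log Y := Real.log_pos hY
  rw [Real.inv_rpow hl.le, inv_mul_eq_div, div_le_iff₀ (by positivity)] at h1
  exact h1

lemma halfTrunc_pow_one {x : ℕ} (hx : 1 ≤ x) (j : ℕ) : (halfTrunc x ^ j) 1 = 1 := by
  rw [halfTrunc_pow hx, (tau_isMultiplicative _).map_one]

lemma diagN_ge_one {x X : ℕ} (hx : 1 ≤ x) (hX : 1 ≤ X) (r m : ℕ) : 1 ≤ diag (tau r * halfTrunc x ^ m) X := by
  unfold diag
  have h := Finset.single_le_sum (f := fun n : ℕ => (tau r * halfTrunc x ^ m) n ^ 2 * (n:ℝ)⁻¹) (s := Finset.Icc 1 X) 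
    (fun n _ => by positivity) (Finset.mem_Icc.mpr ⟨le_rfl, hX⟩)
  have h1 : (tau r * halfTrunc x ^ m) 1 = 1 := by
    rw [ArithmeticFunction.mul_apply]
    simp [(tau_isMultiplicative (r:ℝ)).map_one, halfTrunc_pow_one hx]
  simpa [h1] using h

lemma diagD_ge_one {x : ℕ} (hx : 1 ≤ x) (k : ℕ) : 1 ≤ diag (halfTrunc x ^ k) (x ^ k) := by
  unfold diag
  have h := Finset.single_le_sum (f := fun n : ℕ => (halfTrunc x ^ k) n ^ 2 * (n:ℝ)⁻¹) (s := Finset.Icc 1 (x ^ k)) 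
    (fun n _ => by positivity) (Finset.mem_Icc.mpr ⟨le_rfl, Nat.one_le_pow _ _ hx⟩)
  simpa [halfTrunc_pow_one hx] using h

/-- A crude constant. -/
noncomputable def Ctau (κ : ℝ) : ℝ := ∑' n : ℕ, tau κ n * (n:ℝ) ^ (-(2:ℝ))

lemma Ctau_nonneg {κ : ℝ} (hκ : 0 ≤ κ) : 0 ≤ Ctau κ := 
  tsum_nonneg fun n => mul_nonneg (tau_nonneg hκ n) (by positivity)

lemma pow_apply_mono {f g : ArithmeticFunction ℝ} (hf : ∀ n, 0 ≤ f n) (hfg : ∀ n, f n ≤ g n) (j n : ℕ) : (f ^ j) n ≤ (g ^ j) n := by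
  have := prod_apply_mono (ι := Fin j) Finset.univ (f := fun _ => f) (g := fun _ => g) (fun _ _ => hf) (fun _ _ => hfg) n
  simpa [Finset.prod_const] using this

lemma sum_N_le {κ : ℝ} {r m : ℕ} (hκ : κ = r + m/2) (x X : ℕ) : 
    ∑ q ∈ Finset.Icc 1 X, (tau r * halfTrunc x ^ m) q ≤ Ctau κ * (X:ℝ) ^ 2 := by
  have hκ0 : 0 ≤ κ := by rw [hκ]; positivity
  have h1 : ∀ n, (tau r * halfTrunc x ^ m) n ≤ tau κ n := by
    intro n
    have h2 : (tau r * halfTrunc x ^ m) n ≤ (tau r * tau (1/2) ^ m) n := 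
      mul_apply_mono (fun n => tau_nonneg (Nat.cast_nonneg r) n) (fun n => le_rfl) (pow_nonneg_af (halfTrunc_nonneg x) m) 
        (pow_apply_mono (halfTrunc_nonneg x) (halfTrunc_le x) m) n
    refine h2.trans (le_of_eq ?_)
    have h3 : tau (1/2) ^ m = tau ((m:ℝ)/2) := by
      have := prod_tau (ι := Fin m) Finset.univ (fun _ => (1/2:ℝ))
      rw [Finset.prod_const, Finset.sum_const, Finset.card_univ, Fintype.card_fin, nsmul_eq_mul, mul_one_div] at this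
      exact this
    rw [h3, tau_mul, hκ]
  calc ∑ q ∈ Finset.Icc 1 X, (tau r * halfTrunc x ^ m) q ≤ ∑ q ∈ Finset.Icc 1 X, (tau κ q * (q:ℝ) ^ (-(2:ℝ))) * (X:ℝ) ^ 2 := by
        refine Finset.sum_le_sum fun q hq => ?_
        rw [Finset.mem_Icc] at hq
        have hq0 : (0:ℝ) < q := by exact_mod_cast hq.1
        have hqX : (q:ℝ) ≤ X := by exact_mod_cast hq.2
        have h4 := tau_nonneg hκ0 q
        have h5 : 1 ≤ (q:ℝ) ^ (-(2:ℝ)) * (X:ℝ) ^ 2 := by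
          rw [Real.rpow_neg hq0.le, Real.rpow_two, inv_mul_eq_div, one_le_div (by positivity)]
          gcongr
        calc (tau r * halfTrunc x ^ m) q ≤ tau κ q * 1 := by rw [mul_one]; exact h1 q
          _ ≤ tau κ q * ((q:ℝ) ^ (-(2:ℝ)) * (X:ℝ) ^ 2) := by gcongr
          _ = _ := by ring
    _ = (∑ q ∈ Finset.Icc 1 X, (tau κ q * (q:ℝ) ^ (-(2:ℝ)))) * (X:ℝ) ^ 2 := by rw [Finset.sum_mul]
    _ ≤ Ctau κ * (X:ℝ) ^ 2 := by
        gcongr
        exact (summable_tau hκ0 (by norm_num : (1:ℝ) < 2)).sum_le_tsum _ (fun n _ => mul_nonneg (tau_nonneg hκ0 n) (by positivity))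

lemma lim_exp_nat {a ε : ℝ} (ha : 0 < a) (hε : 0 < ε) (n : ℕ) : 
    Tendsto (fun T : ℝ => T ^ n * Real.exp (-(a * T ^ ε))) atTop (𝓝 0) := by
  have := lim_exp ha hε (n:ℝ)
  simpa only [Real.rpow_natCast] using this

end Pool.Agent.LibZM
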