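import Mathlib
import Pool.Agent.LibZM.Karamata
import Pool.Agent.LibZM.MK6

set_option autoImplicit false

namespace Pool.Agent.LibZM

open MeasureTheory Filter Topology Finset Polynomial

section

variable {w : ℕ → ℝ} {α A : ℝ}

/-- Karamata's theorem for continuous test functions. -/
theorem karamata_cont (hw : ∀ n, 0 ≤ w n) (hα : 0 < α) (hA : 0 < A)
    (hsum : ∀ s : ℝ, 0 < s → Summable fun n : ℕ => w n * (n:ℝ) ^ (-s)) 
    (hlim : Tendsto (fun s : ℝ => s ^ α * ∑' n : ℕ, w n * (n:ℝ) ^ (-s)) (𝓝[>] 0) (𝓝 A)) {F : ℝ → ℝ} (hF : Continuous F) : 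
    Tendsto (fun s : ℝ => s ^ α * ∑' n : ℕ, w n * ((n:ℝ) ^ (-s) * F ((n:ℝ) ^ (-s)))) (𝓝[>] 0) 
      (𝓝 (A / Real.Gamma α * ∫ t in Set.Ioi (0:ℝ), t ^ (α - 1) * (Real.exp (-t) * F (Real.exp (-t))))) := by
  have hG := Real.Gamma_pos_of_pos hα
  have hI0 : IntegrableOn (fun t : ℝ => t ^ (α - 1) * Real.exp (-t)) (Set.Ioi 0) := by
    have := poly_integrable hα (1 : ℝ[X])
    simpa using this
  have hI1 : ∫ t in Set.Ioi (0:ℝ), t ^ (α - 1) * Real.exp (-t) = Real.Gamma α := by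
    have := poly_integral hα (1 : ℝ[X])
    simpa using this
  have hmem : ∀ n : ℕ, ∀ s : ℝ, 0 < s → (n:ℝ) ^ (-s) ∈ Set.Icc (0:ℝ) 1 := by
    intro n s hs
    refine ⟨by positivity, ?_⟩
    rcases Nat.eq_zero_or_pos n with rfl | hn
    · rw [Nat.cast_zero, Real.zero_rpow (by linarith)]; norm_num
    · exact Real.rpow_le_one_of_one_le_of_nonpos (by exact_mod_cast hn) (by linarith)
  have hmem' : ∀ t : ℝ, 0 < t → Real.exp (-t) ∈ Set.Icc (0:ℝ) 1 := fun t ht => ⟨(Real.exp_pos _).le, Real.exp_le_one_iff.mpr (by linarith)⟩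
  have hFi : IntegrableOn (fun t : ℝ => t ^ (α - 1) * (Real.exp (-t) * F (Real.exp (-t)))) (Set.Ioi 0) := by
    obtain ⟨C, hC1, hC⟩ := continuousOn_bound hF
    refine Integrable.mono' (hI0.mul_const C) ?_ ?_
    · refine AEStronglyMeasurable.mul ?_ (by fun_prop)
      exact (ContinuousOn.aestronglyMeasurable (fun t ht => (Real.continuousAt_rpow_const _ _ (Or.inl (ne_of_gt ht))).continuousWithinAt) measurableSet_Ioi)
    · refine (ae_restrict_iff' measurableSet_Ioi).mpr (Eventually.of_forall fun t ht => ?_)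
      have ht' : 0 < t := ht
      rw [norm_mul, norm_mul, Real.norm_eq_abs, Real.norm_eq_abs, Real.norm_eq_abs, abs_of_nonneg (by positivity), abs_of_pos (Real.exp_pos _), mul_assoc]
      have := hC _ (hmem' t ht')
      gcongr
  rw [Metric.tendsto_nhds]
  intro ε hε
  -- choose a polynomial
  set η := ε / (4 * (A + 1)) with hη
  have hη0 : 0 < η := by positivity
  obtain ⟨P, hP⟩ := exists_polynomial_near_of_continuousOn 0 1 F hF.continuousOn η hη0
  have hlimP := poly_limit hsum hlim P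
  have hPval : A * ∑ j ∈ range (P.natDegree + 1), P.coeff j * ((j:ℝ) + 1) ^ (-α) = 
      A / Real.Gamma α * ∫ t in Set.Ioi (0:ℝ), t ^ (α - 1) * (Real.exp (-t) * P.eval (Real.exp (-t))) := by
    rw [poly_integral hα]; field_simp
  rw [hPval] at hlimP
  have h1 := Metric.tendsto_nhds.mp hlimP (ε/4) (by positivity)
  have h2 : ∀ᶠ s in 𝓝[>] (0:ℝ), s ^ α * ∑' n : ℕ, w n * (n:ℝ) ^ (-s) < A + 1 := hlim.eventually_lt_const (by linarith)
  filter_upwards [h1, h2, self_mem_nhdsWithin] with s hs1 hs2 hs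
  have hs0 : 0 < s := hs
  rw [Real.dist_eq] at hs1 ⊢
  have hsα : 0 < s ^ α := Real.rpow_pos_of_pos hs0 α
  -- difference of sums
  have hbd : ∀ n : ℕ, ‖w n * ((n:ℝ) ^ (-s) * F ((n:ℝ) ^ (-s))) - w n * ((n:ℝ) ^ (-s) * P.eval ((n:ℝ) ^ (-s)))‖ ≤ η * (w n * (n:ℝ) ^ (-s)) := by
    intro n
    have h3 := hP _ (hmem n s hs0)
    rw [← mul_sub, ← mul_sub, norm_mul, norm_mul, Real.norm_eq_abs, Real.norm_eq_abs, Real.norm_eq_abs, abs_of_nonneg (hw n), 
      abs_of_nonneg (hmem n s hs0).1, abs_sub_comm]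
    have h4 := (hmem n s hs0).1
    have h5 := hw n
    calc w n * ((n:ℝ) ^ (-s) * |eval ((n:ℝ) ^ (-s)) P - F ((n:ℝ) ^ (-s))|) ≤ w n * ((n:ℝ) ^ (-s) * η) := by gcongr
      _ = _ := by ring
  have hsumP : Summable fun n : ℕ => w n * ((n:ℝ) ^ (-s) * P.eval ((n:ℝ) ^ (-s))) := by
    obtain ⟨C, hC1, hC⟩ := continuousOn_bound P.continuous
    refine Summable.of_norm_bounded ((hsum s hs0).mul_right C) fun n => ?_
    rw [norm_mul, norm_mul, Real.norm_eq_abs, Real.norm_eq_abs, Real.norm_eq_abs, abs_of_nonneg (hw n), abs_of_nonneg (hmem n s hs0).1, mul_assoc]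
    have := hC _ (hmem n s hs0)
    have := (hmem n s hs0).1
    have := hw n
    gcongr
  have hdiffS := Summable.of_norm_bounded ((hsum s hs0).mul_left η) hbd
  have hsumF : Summable fun n : ℕ => w n * ((n:ℝ) ^ (-s) * F ((n:ℝ) ^ (-s))) := by
    have := hdiffS.add hsumP
    refine this.congr fun n => ?_
    ring
  have hd1 : |∑' n : ℕ, w n * ((n:ℝ) ^ (-s) * F ((n:ℝ) ^ (-s))) - ∑' n : ℕ, w n * ((n:ℝ) ^ (-s) * P.eval ((n:ℝ) ^ (-s)))| ≤ 
      η * ∑' n : ℕ, w n * (n:ℝ) ^ (-s) := by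
    rw [← hsumF.tsum_sub hsumP, ← tsum_mul_left, ← Real.norm_eq_abs]
    exact tsum_of_norm_bounded ((hsum s hs0).mul_left η).hasSum hbd
  -- difference of integrals
  have hd2 : |(∫ t in Set.Ioi (0:ℝ), t ^ (α - 1) * (Real.exp (-t) * P.eval (Real.exp (-t)))) - 
      ∫ t in Set.Ioi (0:ℝ), t ^ (α - 1) * (Real.exp (-t) * F (Real.exp (-t)))| ≤ η * Real.Gamma α := by
    rw [← integral_sub (poly_integrable hα P) hFi, ← Real.norm_eq_abs, ← hI1, ← integral_const_mul]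
    refine norm_integral_le_of_norm_le (hI0.const_mul η) ?_
    refine (ae_restrict_iff' measurableSet_Ioi).mpr (Eventually.of_forall fun t ht => ?_)
    have ht' : 0 < t := ht
    have h3 := hP _ (hmem' t ht')
    rw [← mul_sub, ← mul_sub, norm_mul, norm_mul, Real.norm_eq_abs, Real.norm_eq_abs, Real.norm_eq_abs, abs_of_nonneg (by positivity), abs_of_pos (Real.exp_pos _)]
    calc t ^ (α - 1) * (Real.exp (-t) * |eval (Real.exp (-t)) P - F (Real.exp (-t))|) ≤ t ^ (α - 1) * (Real.exp (-t) * η) := by gcongr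
      _ = _ := by ring
  have e1 : |s ^ α * ∑' n : ℕ, w n * ((n:ℝ) ^ (-s) * F ((n:ℝ) ^ (-s))) - s ^ α * ∑' n : ℕ, w n * ((n:ℝ) ^ (-s) * P.eval ((n:ℝ) ^ (-s)))| ≤ ε / 4 := by
    rw [← mul_sub, abs_mul, abs_of_pos hsα]
    calc s ^ α * |∑' n : ℕ, w n * ((n:ℝ) ^ (-s) * F ((n:ℝ) ^ (-s))) - ∑' n : ℕ, w n * ((n:ℝ) ^ (-s) * P.eval ((n:ℝ) ^ (-s)))| 
        ≤ s ^ α * (η * ∑' n : ℕ, w n * (n:ℝ) ^ (-s)) := by gcongr
      _ = η * (s ^ α * ∑' n : ℕ, w n * (n:ℝ) ^ (-s)) := by ring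
      _ ≤ η * (A + 1) := by gcongr
      _ = ε / 4 := by rw [hη]; field_simp
  have e2 : |A / Real.Gamma α * (∫ t in Set.Ioi (0:ℝ), t ^ (α - 1) * (Real.exp (-t) * P.eval (Real.exp (-t)))) - 
      A / Real.Gamma α * ∫ t in Set.Ioi (0:ℝ), t ^ (α - 1) * (Real.exp (-t) * F (Real.exp (-t)))| ≤ ε / 4 := by
    rw [← mul_sub, abs_mul, abs_of_pos (by positivity)]
    calc A / Real.Gamma α * |(∫ t in Set.Ioi (0:ℝ), t ^ (α - 1) * (Real.exp (-t) * P.eval (Real.exp (-t)))) - 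
      ∫ t in Set.Ioi (0:ℝ), t ^ (α - 1) * (Real.exp (-t) * F (Real.exp (-t)))| ≤ A / Real.Gamma α * (η * Real.Gamma α) := by gcongr
      _ = A * η := by field_simp
      _ ≤ (A + 1) * η := by nlinarith
      _ = ε / 4 := by rw [hη]; field_simp
  set a1 := s ^ α * ∑' n : ℕ, w n * ((n:ℝ) ^ (-s) * F ((n:ℝ) ^ (-s)))
  set a2 := s ^ α * ∑' n : ℕ, w n * ((n:ℝ) ^ (-s) * P.eval ((n:ℝ) ^ (-s)))
  set a3 := A / Real.Gamma α * (∫ t in Set.Ioi (0:ℝ), t ^ (α - 1) * (Real.exp (-t) * P.eval (Real.exp (-t))))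
  set a4 := A / Real.Gamma α * ∫ t in Set.Ioi (0:ℝ), t ^ (α - 1) * (Real.exp (-t) * F (Real.exp (-t)))
  have e3 := abs_sub_le a1 a2 a4
  have e4 := abs_sub_le a2 a3 a4
  linarith

/-- Normalised incomplete integral. -/
noncomputable def Pint (α σ θ : ℝ) : ℝ := (∫ t in (0:ℝ)..θ, t ^ (α - 1) * Real.exp (-(2 * σ * t))) / Real.Gamma α

lemma intervalIntegrable_Pint (hα : 0 < α) (σ a b : ℝ) : 
    IntervalIntegrable (fun t : ℝ => t ^ (α - 1) * Real.exp (-(2 * σ * t))) volume a b := 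
  (intervalIntegral.intervalIntegrable_rpow' (by linarith)).mul_continuousOn (by fun_prop)

lemma continuousAt_Pint (hα : 0 < α) (σ : ℝ) {θ : ℝ} : ContinuousAt (fun l : ℝ => Pint α σ (l * θ)) 1 := by
  unfold Pint
  have h : Continuous (fun x : ℝ => ∫ t in (0:ℝ)..x, t ^ (α - 1) * Real.exp (-(2 * σ * t))) := 
    intervalIntegral.continuous_primitive (fun a b => intervalIntegrable_Pint hα σ a b) 0
  have h2 : Continuous (fun l : ℝ => ∫ t in (0:ℝ)..(l * θ), t ^ (α - 1) * Real.exp (-(2 * σ * t))) := h.comp (continuous_id.mul continuous_const)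
  exact h2.continuousAt.div_const _

/-- The bump function times an exponential, as an admissible test function. -/
lemma bump_exp (σ : ℝ) {a b : ℝ} (h : a < b) : ∃ F : ℝ → ℝ, Continuous F ∧ 
    (∀ x, 0 < x → boxI a x * Real.exp (-(2 * σ * x)) ≤ Real.exp (-x) * F (Real.exp (-x))) ∧ 
    (∀ x, 0 < x → Real.exp (-x) * F (Real.exp (-x)) ≤ boxI b x * Real.exp (-(2 * σ * x))) ∧ 
    (0 ≤ a → boxI a 0 * Real.exp (-(2 * σ * 0)) ≤ Real.exp (-0) * F (Real.exp (-0))) ∧ 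
    (0 ≤ b → Real.exp (-0) * F (Real.exp (-0)) ≤ boxI b 0 * Real.exp (-(2 * σ * 0))) := by
  obtain ⟨f, hf, h1, h2⟩ := bump h
  set eb := Real.exp (-b) with heb
  have heb0 : 0 < eb := Real.exp_pos _
  set F : ℝ → ℝ := fun y => f y * (max y eb) ^ (2 * σ) with hFdef
  have key : ∀ x, Real.exp (-x) * F (Real.exp (-x)) = ex f x * Real.exp (-(2 * σ * x)) ∨ (b < x ∧ ex f x = 0 ∧ Real.exp (-x) * F (Real.exp (-x)) = 0) := by
    intro x
    by_cases hx : x ≤ b
    · left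
      have h3 : eb ≤ Real.exp (-x) := Real.exp_le_exp.mpr (by linarith)
      simp only [hFdef]
      rw [max_eq_left h3, ← Real.exp_mul]
      unfold ex
      have : Real.exp (-x * (2 * σ)) = Real.exp (-(2 * σ * x)) := by congr 1; ring
      rw [this]; ring
    · right
      push Not at hx
      have h3 : ex f x = 0 := by
        apply le_antisymm
        · have := h2 x
          unfold boxI at this
          rwa [if_neg (not_le.mpr hx)] at this
        · exact (boxI_nonneg _ _).trans (h1 x)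
      refine ⟨hx, h3, ?_⟩
      simp only [hFdef]
      unfold ex at h3
      rw [← mul_assoc, h3, zero_mul]
  have k1 : ∀ x, boxI a x * Real.exp (-(2 * σ * x)) ≤ Real.exp (-x) * F (Real.exp (-x)) := by
    intro x
    rcases key x with h3 | ⟨hx, h3, h4⟩
    · rw [h3]
      exact mul_le_mul_of_nonneg_right (h1 x) (Real.exp_pos _).le
    · rw [h4]
      have : boxI a x = 0 := by unfold boxI; rw [if_neg (by linarith)]
      rw [this, zero_mul]
  have k2 : ∀ x, Real.exp (-x) * F (Real.exp (-x)) ≤ boxI b x * Real.exp (-(2 * σ * x)) := by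
    intro x
    rcases key x with h3 | ⟨hx, h3, h4⟩
    · rw [h3]
      exact mul_le_mul_of_nonneg_right (h2 x) (Real.exp_pos _).le
    · rw [h4]
      have := boxI_nonneg b x
      positivity
  refine ⟨F, ?_, fun x _ => k1 x, fun x _ => k2 x, fun _ => k1 0, fun _ => k2 0⟩
  simp only [hFdef]
  refine hf.mul ?_
  exact Continuous.rpow_const (by fun_prop) (fun y => Or.inl (lt_max_of_lt_right heb0).ne')

end

end Pool.Agent.LibZM
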