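import Mathlib
import Pool.Agent.LibZM.HB3
import Pool.Agent.LibZM.CS6

set_option autoImplicit false

namespace Pool.Agent.LibZM

open MeasureTheory Filter Topology Finset Polynomial

section

variable {w : ℕ → ℝ} {α A : ℝ}

lemma rpow_inv_log {T : ℝ} {n : ℕ} (hn : 1 ≤ n) : 
    (n:ℝ) ^ (-(Real.log T)⁻¹) = Real.exp (-((Real.log T)⁻¹ * Real.log n)) := by
  have hn0 : (0:ℝ) < n := by exact_mod_cast hn
  rw [Real.rpow_def_of_pos hn0]
  congr 1; ring

lemma rpow_two_log {T : ℝ} (σ : ℝ) {n : ℕ} (hn : 1 ≤ n) : 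
    (n:ℝ) ^ (-(2 * σ / Real.log T)) = Real.exp (-(2 * σ * ((Real.log T)⁻¹ * Real.log n))) := by
  have hn0 : (0:ℝ) < n := by exact_mod_cast hn
  rw [Real.rpow_def_of_pos hn0]
  congr 1; rw [div_eq_mul_inv]; ring

lemma Ioi_box_integral (hα : 0 < α) (σ : ℝ) {θ : ℝ} (hθ : 0 < θ) : 
    IntegrableOn (fun t : ℝ => t ^ (α - 1) * (boxI θ t * Real.exp (-(2 * σ * t)))) (Set.Ioi 0) ∧ 
    ∫ t in Set.Ioi (0:ℝ), t ^ (α - 1) * (boxI θ t * Real.exp (-(2 * σ * t))) = Real.Gamma α * Pint α σ θ := by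
  have hG := Real.Gamma_pos_of_pos hα
  have hint := (intervalIntegrable_Pint hα σ 0 θ)
  rw [intervalIntegrable_iff_integrableOn_Ioc_of_le hθ.le] at hint
  have e : ∀ t ∈ Set.Ioi (0:ℝ), t ^ (α - 1) * (boxI θ t * Real.exp (-(2 * σ * t))) = 
      (Set.Ioc 0 θ).indicator (fun t : ℝ => t ^ (α - 1) * Real.exp (-(2 * σ * t))) t := by
    intro t ht
    unfold boxI
    by_cases h : t ≤ θ
    · rw [if_pos h, Set.indicator_of_mem (show t ∈ Set.Ioc 0 θ from ⟨ht, h⟩), one_mul]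
    · rw [if_neg h, Set.indicator_of_notMem (fun h' => h h'.2)]; ring
  have hi : Integrable ((Set.Ioc 0 θ).indicator (fun t : ℝ => t ^ (α - 1) * Real.exp (-(2 * σ * t)))) := 
    hint.integrable_indicator measurableSet_Ioc
  constructor
  · exact (hi.integrableOn (s := Set.Ioi 0)).congr_fun (fun t ht => (e t ht).symm) measurableSet_Ioi
  · rw [setIntegral_congr_fun measurableSet_Ioi e, setIntegral_indicator measurableSet_Ioc]
    have : Set.Ioi (0:ℝ) ∩ Set.Ioc 0 θ = Set.Ioc 0 θ := by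
      ext t; simp only [Set.mem_inter_iff, Set.mem_Ioi, Set.mem_Ioc]; tauto
    rw [this]
    unfold Pint
    rw [intervalIntegral.integral_of_le hθ.le]
    field_simp

lemma integrableOn_test (hα : 0 < α) {F : ℝ → ℝ} (hF : Continuous F) : 
    IntegrableOn (fun t : ℝ => t ^ (α - 1) * (Real.exp (-t) * F (Real.exp (-t)))) (Set.Ioi 0) := by
  have hI0 : IntegrableOn (fun t : ℝ => t ^ (α - 1) * Real.exp (-t)) (Set.Ioi 0) := by
    have := poly_integrable hα (1 : ℝ[X])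
    simpa using this
  have hmem' : ∀ t : ℝ, 0 < t → Real.exp (-t) ∈ Set.Icc (0:ℝ) 1 := fun t ht => ⟨(Real.exp_pos _).le, Real.exp_le_one_iff.mpr (by linarith)⟩
  obtain ⟨C, hC1, hC⟩ := continuousOn_bound hF
  refine Integrable.mono' (hI0.mul_const C) ?_ ?_
  · refine AEStronglyMeasurable.mul ?_ (by fun_prop)
    exact (ContinuousOn.aestronglyMeasurable (fun t ht => (Real.continuousAt_rpow_const _ _ (Or.inl (ne_of_gt ht))).continuousWithinAt) measurableSet_Ioi)
  · refine (ae_restrict_iff' measurableSet_Ioi).mpr (Eventually.of_forall fun t ht => ?_)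
    have ht' : 0 < t := ht
    rw [norm_mul, norm_mul, Real.norm_eq_abs, Real.norm_eq_abs, Real.norm_eq_abs, abs_of_nonneg (by positivity), abs_of_pos (Real.exp_pos _), mul_assoc]
    have := hC _ (hmem' t ht')
    gcongr

lemma bump_exp' (σ : ℝ) {a b : ℝ} (h : a < b) : ∃ F : ℝ → ℝ, Continuous F ∧ 
    (∀ x, 0 ≤ x → boxI a x * Real.exp (-(2 * σ * x)) ≤ Real.exp (-x) * F (Real.exp (-x))) ∧ 
    (∀ x, 0 ≤ x → Real.exp (-x) * F (Real.exp (-x)) ≤ boxI b x * Real.exp (-(2 * σ * x))) := by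
  obtain ⟨F, hF, h1, h2, h3, h4⟩ := bump_exp σ h
  refine ⟨F, hF, fun x hx => ?_, fun x hx => ?_⟩
  · rcases hx.eq_or_lt with h0 | h0
    · subst h0
      by_cases ha : 0 ≤ a
      · exact h3 ha
      · have e : boxI a 0 = 0 := by unfold boxI; rw [if_neg ha]
        rw [e, zero_mul]
        -- continuity at the origin
        have hc : Continuous (fun x : ℝ => Real.exp (-x) * F (Real.exp (-x))) := by fun_prop
        have hlim : Tendsto (fun x : ℝ => Real.exp (-x) * F (Real.exp (-x))) (𝓝[>] 0) (𝓝 (Real.exp (-0) * F (Real.exp (-0)))) := 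
          (hc.tendsto 0).mono_left nhdsWithin_le_nhds
        refine ge_of_tendsto hlim ?_
        filter_upwards [self_mem_nhdsWithin] with x hx
        refine le_trans ?_ (h1 x hx)
        have := boxI_nonneg a x
        positivity
    · exact h1 x h0
  · rcases hx.eq_or_lt with h0 | h0
    · subst h0
      by_cases hb : 0 ≤ b
      · exact h4 hb
      · have e : boxI b 0 = 0 := by unfold boxI; rw [if_neg hb]
        rw [e, zero_mul]
        have hc : Continuous (fun x : ℝ => Real.exp (-x) * F (Real.exp (-x))) := by fun_prop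
        have hlim : Tendsto (fun x : ℝ => Real.exp (-x) * F (Real.exp (-x))) (𝓝[>] 0) (𝓝 (Real.exp (-0) * F (Real.exp (-0)))) := 
          (hc.tendsto 0).mono_left nhdsWithin_le_nhds
        refine le_of_tendsto hlim ?_
        filter_upwards [self_mem_nhdsWithin] with x hx
        refine (h2 x hx).trans (le_of_eq ?_)
        have : boxI b x = 0 := by
          unfold boxI
          rw [if_neg]
          have : (0:ℝ) < x := hx
          linarith
        rw [this, zero_mul]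
    · exact h2 x h0

lemma tendsto_inv_log : Tendsto (fun T : ℝ => (Real.log T)⁻¹) atTop (𝓝[>] 0) := by
  rw [tendsto_nhdsWithin_iff]
  refine ⟨tendsto_inv_atTop_zero.comp Real.tendsto_log_atTop, ?_⟩
  filter_upwards [eventually_gt_atTop 1] with Y hY
  exact inv_pos.mpr (Real.log_pos hY)

/-- The sum against an admissible test function is finite. -/
lemma tsum_test {F : ℝ → ℝ} {σ a b : ℝ} (h1 : ∀ x, 0 ≤ x → boxI a x * Real.exp (-(2 * σ * x)) ≤ Real.exp (-x) * F (Real.exp (-x))) 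
    (h2 : ∀ x, 0 ≤ x → Real.exp (-x) * F (Real.exp (-x)) ≤ boxI b x * Real.exp (-(2 * σ * x))) {T : ℝ} (hT : 1 < T) : 
    ∑' n : ℕ, w n * ((n:ℝ) ^ (-(Real.log T)⁻¹) * F ((n:ℝ) ^ (-(Real.log T)⁻¹))) = 
      ∑ n ∈ Icc 1 ⌊T ^ b⌋₊, w n * ((n:ℝ) ^ (-(Real.log T)⁻¹) * F ((n:ℝ) ^ (-(Real.log T)⁻¹))) := by
  have hl : 0 < Real.log T := Real.log_pos hT
  apply tsum_eq_sum
  intro n hn
  rw [Finset.mem_Icc, not_and_or, not_le, not_le] at hn
  rcases Nat.eq_zero_or_pos n with rfl | hn1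
  · rw [Nat.cast_zero, Real.zero_rpow (by have := inv_pos.mpr hl; linarith)]; ring
  · rcases hn with h | h
    · omega
    · have hx : 0 ≤ (Real.log T)⁻¹ * Real.log n := mul_nonneg (inv_pos.mpr hl).le (Real.log_natCast_nonneg n)
      rw [rpow_inv_log hn1]
      have e : boxI b ((Real.log T)⁻¹ * Real.log n) = 0 := by
        rw [boxI_eq_one_iff hT hn1, if_neg (by omega)]
      have k2 := h2 _ hx
      have k1 := h1 _ hx
      rw [e, zero_mul] at k2
      have k3 : 0 ≤ Real.exp (-((Real.log T)⁻¹ * Real.log n)) * F (Real.exp (-((Real.log T)⁻¹ * Real.log n))) := by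
        refine le_trans ?_ k1
        have := boxI_nonneg a ((Real.log T)⁻¹ * Real.log n)
        positivity
      rw [le_antisymm k2 k3, mul_zero]

/-- Lower bound for exponentially weighted sums. -/
theorem sum_exp_lower (hw : ∀ n, 0 ≤ w n) (hα : 0 < α) (hA : 0 < A)
    (hsum : ∀ s : ℝ, 0 < s → Summable fun n : ℕ => w n * (n:ℝ) ^ (-s)) 
    (hlim : Tendsto (fun s : ℝ => s ^ α * ∑' n : ℕ, w n * (n:ℝ) ^ (-s)) (𝓝[>] 0) (𝓝 A)) (σ : ℝ) {θ c : ℝ} (hθ : 0 < θ) 
    (hc : c < A * Pint α σ θ) : 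
    ∀ᶠ T : ℝ in atTop, c * (Real.log T) ^ α ≤ ∑ n ∈ Icc 1 ⌊T ^ θ⌋₊, w n * (n:ℝ) ^ (-(2 * σ / Real.log T)) := by
  have hG := Real.Gamma_pos_of_pos hα
  obtain ⟨l, hl0, hl1, hl⟩ : ∃ l : ℝ, 0 < l ∧ l < 1 ∧ c < A * Pint α σ (l * θ) := by
    have hcont : Tendsto (fun l : ℝ => A * Pint α σ (l * θ)) (𝓝[<] 1) (𝓝 (A * Pint α σ (1 * θ))) := 
      ((continuousAt_Pint hα σ (θ := θ)).tendsto.const_mul A).mono_left nhdsWithin_le_nhds
    rw [one_mul] at hcont
    have h2 := hcont.eventually_const_lt hc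
    have h3 : ∀ᶠ l : ℝ in 𝓝[<] 1, 0 < l := by
      apply Filter.Eventually.filter_mono nhdsWithin_le_nhds
      exact lt_mem_nhds one_pos
    obtain ⟨l, hl, hl0, hl1⟩ := (h2.and (h3.and self_mem_nhdsWithin)).exists
    exact ⟨l, hl0, hl1, hl⟩
  have hlθ : l * θ < θ := by nlinarith
  have hlθ0 : 0 < l * θ := by positivity
  obtain ⟨F, hF, h1, h2⟩ := bump_exp' σ hlθ
  have hk := karamata_cont hw hα hA hsum hlim hF
  obtain ⟨hb1, hb2⟩ := Ioi_box_integral hα σ hlθ0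
  have hge : A * Pint α σ (l * θ) ≤ A / Real.Gamma α * ∫ t in Set.Ioi (0:ℝ), t ^ (α - 1) * (Real.exp (-t) * F (Real.exp (-t))) := by
    have h3 : Real.Gamma α * Pint α σ (l * θ) ≤ ∫ t in Set.Ioi (0:ℝ), t ^ (α - 1) * (Real.exp (-t) * F (Real.exp (-t))) := by
      rw [← hb2]
      refine setIntegral_mono_on hb1 (integrableOn_test hα hF) measurableSet_Ioi fun t ht => ?_
      have ht' : 0 < t := ht
      exact mul_le_mul_of_nonneg_left (h1 t ht'.le) (by positivity)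
    calc A * Pint α σ (l * θ) = A / Real.Gamma α * (Real.Gamma α * Pint α σ (l * θ)) := by field_simp
      _ ≤ _ := by gcongr
  have hev := (hk.comp tendsto_inv_log).eventually_const_lt (lt_of_lt_of_le hl hge)
  filter_upwards [hev, eventually_gt_atTop 1] with T h4 hT
  have hL : 0 < Real.log T := Real.log_pos hT
  simp only [Function.comp] at h4
  rw [tsum_test h1 h2 hT, Real.inv_rpow hL.le, inv_mul_eq_div, lt_div_iff₀ (by positivity)] at h4
  refine h4.le.trans (Finset.sum_le_sum fun n hn => ?_)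
  have hn1 := (Finset.mem_Icc.mp hn).1
  apply mul_le_mul_of_nonneg_left _ (hw n)
  have hx : 0 ≤ (Real.log T)⁻¹ * Real.log n := mul_nonneg (inv_pos.mpr hL).le (Real.log_natCast_nonneg n)
  rw [rpow_inv_log hn1, rpow_two_log σ hn1]
  refine (h2 _ hx).trans ?_
  exact mul_le_of_le_one_left (Real.exp_pos _).le (boxI_le_one _ _)

/-- Upper bound for exponentially weighted sums. -/
theorem sum_exp_upper (hw : ∀ n, 0 ≤ w n) (hα : 0 < α) (hA : 0 < A)
    (hsum : ∀ s : ℝ, 0 < s → Summable fun n : ℕ => w n * (n:ℝ) ^ (-s)) 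
    (hlim : Tendsto (fun s : ℝ => s ^ α * ∑' n : ℕ, w n * (n:ℝ) ^ (-s)) (𝓝[>] 0) (𝓝 A)) (σ : ℝ) {θ c : ℝ} (hθ : 0 < θ) 
    (hc : A * Pint α σ θ < c) : 
    ∀ᶠ T : ℝ in atTop, ∑ n ∈ Icc 1 ⌊T ^ θ⌋₊, w n * (n:ℝ) ^ (-(2 * σ / Real.log T)) ≤ c * (Real.log T) ^ α := by
  have hG := Real.Gamma_pos_of_pos hα
  obtain ⟨l, hl1, hl⟩ : ∃ l : ℝ, 1 < l ∧ A * Pint α σ (l * θ) < c := by
    have hcont : Tendsto (fun l : ℝ => A * Pint α σ (l * θ)) (𝓝[>] 1) (𝓝 (A * Pint α σ (1 * θ))) := 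
      ((continuousAt_Pint hα σ (θ := θ)).tendsto.const_mul A).mono_left nhdsWithin_le_nhds
    rw [one_mul] at hcont
    have h2 := hcont.eventually_lt_const hc
    obtain ⟨l, hl, hl1⟩ := (h2.and self_mem_nhdsWithin).exists
    exact ⟨l, hl1, hl⟩
  have hlθ : θ < l * θ := by nlinarith
  have hlθ0 : 0 < l * θ := by positivity
  obtain ⟨F, hF, h1, h2⟩ := bump_exp' σ hlθ
  have hk := karamata_cont hw hα hA hsum hlim hF
  obtain ⟨hb1, hb2⟩ := Ioi_box_integral hα σ hlθ0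
  have hle : A / Real.Gamma α * (∫ t in Set.Ioi (0:ℝ), t ^ (α - 1) * (Real.exp (-t) * F (Real.exp (-t)))) ≤ A * Pint α σ (l * θ) := by
    have h3 : ∫ t in Set.Ioi (0:ℝ), t ^ (α - 1) * (Real.exp (-t) * F (Real.exp (-t))) ≤ Real.Gamma α * Pint α σ (l * θ) := by
      rw [← hb2]
      refine setIntegral_mono_on (integrableOn_test hα hF) hb1 measurableSet_Ioi fun t ht => ?_
      have ht' : 0 < t := ht
      exact mul_le_mul_of_nonneg_left (h2 t ht'.le) (by positivity)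
    calc A / Real.Gamma α * (∫ t in Set.Ioi (0:ℝ), t ^ (α - 1) * (Real.exp (-t) * F (Real.exp (-t)))) 
        ≤ A / Real.Gamma α * (Real.Gamma α * Pint α σ (l * θ)) := by gcongr
      _ = _ := by field_simp
  have hev := (hk.comp tendsto_inv_log).eventually_lt_const (lt_of_le_of_lt hle hl)
  filter_upwards [hev, eventually_gt_atTop 1] with T h4 hT
  have hL : 0 < Real.log T := Real.log_pos hT
  simp only [Function.comp] at h4
  rw [tsum_test h1 h2 hT, Real.inv_rpow hL.le, inv_mul_eq_div, div_lt_iff₀ (by positivity)] at h4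
  refine le_trans ?_ h4.le
  have hsub : Finset.Icc 1 ⌊T ^ θ⌋₊ ⊆ Finset.Icc 1 ⌊T ^ (l * θ)⌋₊ := by
    apply Finset.Icc_subset_Icc_right
    apply Nat.floor_le_floor
    exact Real.rpow_le_rpow_of_exponent_le hT.le hlθ.le
  have hnn : ∀ n ∈ Finset.Icc 1 ⌊T ^ (l * θ)⌋₊, 0 ≤ w n * ((n:ℝ) ^ (-(Real.log T)⁻¹) * F ((n:ℝ) ^ (-(Real.log T)⁻¹))) := by
    intro n hn
    have hn1 := (Finset.mem_Icc.mp hn).1
    have hx : 0 ≤ (Real.log T)⁻¹ * Real.log n := mul_nonneg (inv_pos.mpr hL).le (Real.log_natCast_nonneg n)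
    rw [rpow_inv_log hn1]
    apply mul_nonneg (hw n)
    refine le_trans ?_ (h1 _ hx)
    have := boxI_nonneg θ ((Real.log T)⁻¹ * Real.log n)
    positivity
  refine le_trans (Finset.sum_le_sum fun n hn => ?_) (Finset.sum_le_sum_of_subset_of_nonneg hsub fun n hn _ => hnn n hn)
  have hn1 := (Finset.mem_Icc.mp hn).1
  apply mul_le_mul_of_nonneg_left _ (hw n)
  have hx : 0 ≤ (Real.log T)⁻¹ * Real.log n := mul_nonneg (inv_pos.mpr hL).le (Real.log_natCast_nonneg n)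
  rw [rpow_inv_log hn1, rpow_two_log σ hn1]
  refine le_trans (le_of_eq ?_) (h1 _ hx)
  rw [boxI_eq_one_iff hT hn1, if_pos (Finset.mem_Icc.mp hn).2, one_mul]

end

end Pool.Agent.LibZM
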