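import Mathlib
import Pool.Agent.LibZM.HB2
import Pool.Agent.LibZM.HB4

set_option autoImplicit false

namespace Pool.Agent.LibZM

open MeasureTheory Set Filter Topology Complex ProbabilityTheory
open scoped NNReal ComplexConjugate

/-- The truncated Dirichlet polynomial of the square root of zeta. -/
noncomputable def PP (N : ℕ) (s : ℂ) : ℂ := dp (halfTrunc N) N s

/-- `(s - 1)` times the square of `PP`. -/
noncomputable def Q2 (N : ℕ) (s : ℂ) : ℂ := (s - 1) * PP N s ^ 2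

/-- `(s - 1)` times the difference of zeta and the square of `PP`. -/
noncomputable def Gf (N : ℕ) (s : ℂ) : ℂ := riemannZeta₁ s - Q2 N s

lemma dp_eq_exp (f : ArithmeticFunction ℝ) (M : ℕ) (s : ℂ) : 
    dp f M s = ∑ n ∈ Finset.Icc 1 M, ((f n : ℝ) : ℂ) * cexp (-((Real.log n : ℝ) : ℂ) * s) := by
  unfold dp
  refine Finset.sum_congr rfl fun n hn => ?_
  have hn1 := (Finset.mem_Icc.mp hn).1
  have : (n:ℂ) ≠ 0 := by exact_mod_cast (by omega : n ≠ 0)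
  rw [Complex.cpow_def_of_ne_zero this, Complex.natCast_log]
  congr 2; ring

lemma differentiable_PP (N : ℕ) : Differentiable ℂ (PP N) := by
  have : PP N = fun s => ∑ n ∈ Finset.Icc 1 N, ((halfTrunc N n : ℝ) : ℂ) * cexp (-((Real.log n : ℝ) : ℂ) * s) := by
    funext s; exact dp_eq_exp _ _ _
  rw [this]
  fun_prop

lemma differentiable_Q2 (N : ℕ) : Differentiable ℂ (Q2 N) := by
  have := differentiable_PP N
  unfold Q2; fun_prop

lemma differentiable_Gf (N : ℕ) : Differentiable ℂ (Gf N) := by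
  have h1 := differentiable_Q2 N
  have h2 := differentiable_riemannZeta₁
  unfold Gf; fun_prop

lemma norm_term_line {n : ℕ} (hn : 1 ≤ n) (x y : ℝ) : ‖cexp (-((Real.log n : ℝ) : ℂ) * (x + y * I))‖ = (n:ℝ) ^ (-x) := by
  have hn0 : (0:ℝ) < n := by exact_mod_cast hn
  rw [norm_exp_line, Real.rpow_def_of_pos hn0]
  congr 1; ring

lemma norm_PP_line_le {N : ℕ} {x : ℝ} (hx : 0 ≤ x) (y : ℝ) : ‖PP N (x + y * I)‖ ≤ N := by
  unfold PP
  rw [dp_eq_exp]
  refine (norm_sum_le _ _).trans ?_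
  calc ∑ n ∈ Finset.Icc 1 N, ‖((halfTrunc N n : ℝ) : ℂ) * cexp (-((Real.log n : ℝ) : ℂ) * (x + y * I))‖ 
      ≤ ∑ n ∈ Finset.Icc 1 N, (1:ℝ) := by
        refine Finset.sum_le_sum fun n hn => ?_
        have hn1 := (Finset.mem_Icc.mp hn).1
        rw [norm_mul, norm_term_line hn1, norm_real, Real.norm_eq_abs, abs_of_nonneg (halfTrunc_nonneg N n)]
        have h1 : (n:ℝ) ^ (-x) ≤ 1 := Real.rpow_le_one_of_one_le_of_nonpos (by exact_mod_cast hn1) (by linarith)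
        have h2 := halfTrunc_le_one N n
        have h3 := halfTrunc_nonneg N n
        calc halfTrunc N n * (n:ℝ) ^ (-x) ≤ 1 * 1 := by gcongr
          _ = 1 := one_mul 1
    _ = N := by simp

lemma norm_line_sub_one_le {b' x : ℝ} (hb : 1 ≤ b') (hx : x ∈ Icc (1/4:ℝ) b') (y : ℝ) : 
    ‖(x:ℂ) + y * I - 1‖ ≤ b' * (1 + |y|) ∧ ‖(x:ℂ) + y * I‖ ≤ b' * (1 + |y|) := by
  have hy := abs_nonneg y
  have e : b' + |y| ≤ b' * (1 + |y|) := by nlinarith
  constructor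
  · refine (norm_sub_one_le x y).trans ?_
    have : |x - 1| ≤ b' := by rw [abs_le]; constructor <;> linarith [hx.1, hx.2]
    linarith
  · refine (norm_add_le _ _).trans ?_
    rw [norm_mul, norm_I, mul_one, norm_real, norm_real, Real.norm_eq_abs, Real.norm_eq_abs]
    have : |x| ≤ b' := by rw [abs_le]; constructor <;> linarith [hx.1, hx.2]
    linarith

lemma norm_zeta1_le' {s : ℂ} (hs : 1/4 ≤ s.re) : ‖riemannZeta₁ s‖ ≤ 1 + ‖s - 1‖ * (1 + 4 * ‖s‖) := by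
  by_cases h1 : s = 1
  · subst h1; simp [riemannZeta₁_one]
  · have hs0 : 0 < s.re := by linarith
    have hz := zeta_approx hs0 h1 (le_refl 1)
    simp only [Finset.Icc_self, Finset.sum_singleton, Nat.cast_one, Complex.one_cpow, Real.one_rpow, mul_one] at hz
    have h2 : s - 1 ≠ 0 := sub_ne_zero.mpr h1
    have h2' : 1 - s ≠ 0 := sub_ne_zero.mpr (Ne.symm h1)
    have e : riemannZeta₁ s = (s - 1) * (riemannZeta s - (1 - 1 / (1 - s))) + (s - 1) + 1 := by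
      rw [riemannZeta_eq_inv_sub_mul h1]; field_simp; ring
    have h3 : ‖s‖ / s.re ≤ 4 * ‖s‖ := by
      rw [div_le_iff₀ hs0]
      nlinarith [norm_nonneg s]
    rw [e]
    calc ‖(s - 1) * (riemannZeta s - (1 - 1 / (1 - s))) + (s - 1) + 1‖ 
        ≤ ‖(s - 1) * (riemannZeta s - (1 - 1 / (1 - s)))‖ + ‖s - 1‖ + ‖(1:ℂ)‖ := by
          refine (norm_add_le _ _).trans ?_
          gcongr
          exact norm_add_le _ _
      _ ≤ ‖s - 1‖ * (4 * ‖s‖) + ‖s - 1‖ + 1 := by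
          rw [norm_mul, norm_one]
          have := hz.trans h3
          gcongr
      _ = _ := by ring

lemma norm_zeta1_line {b' x : ℝ} (hb : 1 ≤ b') (hx : x ∈ Icc (1/4:ℝ) b') (y : ℝ) : 
    ‖riemannZeta₁ (x + y * I)‖ ≤ 6 * b' ^ 2 * (1 + |y|) ^ 2 := by
  have hre : ((x:ℂ) + y * I).re = x := by simp
  have h1 := norm_zeta1_le' (s := x + y * I) (by rw [hre]; exact hx.1)
  obtain ⟨h2, h3⟩ := norm_line_sub_one_le hb hx y
  have hy := abs_nonneg y
  have h4 := norm_nonneg ((x:ℂ) + y * I)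
  have h5 : 1 ≤ b' * (1 + |y|) := by nlinarith
  calc ‖riemannZeta₁ (x + y * I)‖ ≤ 1 + ‖(x:ℂ) + y * I - 1‖ * (1 + 4 * ‖(x:ℂ) + y * I‖) := h1
    _ ≤ 1 + (b' * (1 + |y|)) * (1 + 4 * (b' * (1 + |y|))) := by gcongr
    _ ≤ 6 * (b' * (1 + |y|)) ^ 2 := by nlinarith
    _ = _ := by ring

lemma sq_one_add_abs_le (y : ℝ) : (1 + |y|) ^ 2 ≤ 2 * Real.exp 1 * Real.exp |y| := by
  have h := pow_le_fact_exp (x := 1 + |y|) (by positivity) 2
  rw [Real.exp_add] at h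
  calc (1 + |y|) ^ 2 ≤ (2:ℕ).factorial * (Real.exp 1 * Real.exp |y|) := h
    _ = _ := by norm_num [Nat.factorial]; ring

lemma growth_zeta1 {b' : ℝ} (hb : 1 ≤ b') : ∀ x ∈ Icc (1/4:ℝ) b', ∀ y : ℝ, 
    ‖riemannZeta₁ (x + y * I)‖ ≤ (12 * b' ^ 2 * Real.exp 1) * Real.exp |y| := by
  intro x hx y
  calc ‖riemannZeta₁ (x + y * I)‖ ≤ 6 * b' ^ 2 * (1 + |y|) ^ 2 := norm_zeta1_line hb hx y
    _ ≤ 6 * b' ^ 2 * (2 * Real.exp 1 * Real.exp |y|) := by
        have := sq_one_add_abs_le y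
        gcongr
    _ = _ := by ring

lemma growth_Q2 {b' : ℝ} (hb : 1 ≤ b') (N : ℕ) : ∀ x ∈ Icc (1/4:ℝ) b', ∀ y : ℝ, 
    ‖Q2 N (x + y * I)‖ ≤ (b' * N ^ 2 * Real.exp 1) * Real.exp |y| := by
  intro x hx y
  unfold Q2
  rw [norm_mul, norm_pow]
  obtain ⟨h2, _⟩ := norm_line_sub_one_le hb hx y
  have h3 := norm_PP_line_le (N := N) (x := x) (by linarith [hx.1]) y
  have h4 : 1 + |y| ≤ Real.exp 1 * Real.exp |y| := by
    rw [← Real.exp_add]
    have := Real.add_one_le_exp (1 + |y|)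
    linarith
  calc ‖(x:ℂ) + y * I - 1‖ * ‖PP N (x + y * I)‖ ^ 2 ≤ (b' * (1 + |y|)) * (N:ℝ) ^ 2 := by gcongr
    _ ≤ (b' * (Real.exp 1 * Real.exp |y|)) * (N:ℝ) ^ 2 := by gcongr
    _ = _ := by ring

lemma growth_Gf {b' : ℝ} (hb : 1 ≤ b') (N : ℕ) : ∀ x ∈ Icc (1/4:ℝ) b', ∀ y : ℝ, 
    ‖Gf N (x + y * I)‖ ≤ (12 * b' ^ 2 * Real.exp 1 + b' * N ^ 2 * Real.exp 1) * Real.exp |y| := by
  intro x hx y
  unfold Gf
  refine (norm_sub_le _ _).trans ?_
  have h1 := growth_zeta1 hb x hx y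
  have h2 := growth_Q2 hb N x hx y
  rw [add_mul]
  linarith

/-- Second-moment coefficients on a vertical line. -/
noncomputable def DD (N : ℕ) (x : ℝ) : ℝ := ∑ n ∈ Finset.Icc 1 N, halfTrunc N n ^ 2 * (n:ℝ) ^ (-(2 * x))

lemma DD_nonneg (N : ℕ) (x : ℝ) : 0 ≤ DD N x := Finset.sum_nonneg fun n _ => by positivity

/-- Mean square of `PP` on a vertical line. -/
lemma meanSq_line (u : ℝ) {v : ℝ≥0} (hv : 4 ≤ v) (N : ℕ) {x : ℝ} (hx : 1/4 ≤ x) : 
    |(∫ t : ℝ, ‖PP N (x + t * I)‖ ^ 2 ∂(gaussianReal u v)) - DD N x| ≤ 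
      3 * (N:ℝ) ^ 2 * Real.exp (-v / (16 * (N:ℝ) ^ 2)) * (N:ℝ) ^ 4 := by
  set c : ArithmeticFunction ℝ := ⟨fun n => halfTrunc N n * (n:ℝ) ^ (1/2 - x), by simp⟩ with hc
  have hcn : ∀ n, c n = halfTrunc N n * (n:ℝ) ^ (1/2 - x) := fun n => rfl
  have hc0 : ∀ n, 0 ≤ c n := fun n => by
    rw [hcn]; have := halfTrunc_nonneg N n; positivity
  have h := mean_square u hv hc0 N
  have e1 : ∀ t : ℝ, dp c N (crit t) = PP N (x + t * I) := by
    intro t
    unfold PP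
    rw [dp_eq_exp, dp_eq_exp]
    refine Finset.sum_congr rfl fun n hn => ?_
    have hn1 := (Finset.mem_Icc.mp hn).1
    have hn0 : (0:ℝ) < n := by exact_mod_cast hn1
    rw [hcn]
    have : (((n:ℝ) ^ (1/2 - x) : ℝ) : ℂ) = cexp (((Real.log n : ℝ) : ℂ) * ((1/2 - x : ℝ) : ℂ)) := by
      rw [Real.rpow_def_of_pos hn0]; push_cast; rfl
    rw [ofReal_mul, this, mul_assoc, ← Complex.exp_add]
    congr 2
    unfold crit; push_cast; ring
  have e2 : ∑ q ∈ Finset.Icc 1 N, (c q) ^ 2 * (q:ℝ)⁻¹ = DD N x := by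
    unfold DD
    refine Finset.sum_congr rfl fun n hn => ?_
    have hn1 := (Finset.mem_Icc.mp hn).1
    have hn0 : (0:ℝ) < n := by exact_mod_cast hn1
    rw [hcn, mul_pow, mul_assoc]
    congr 1
    rw [← Real.rpow_natCast, ← Real.rpow_mul hn0.le, ← Real.rpow_neg_one, ← Real.rpow_add hn0]
    congr 1; push_cast; ring
  simp_rw [e1] at h
  rw [e2] at h
  refine h.trans ?_
  have e3 : ∑ q ∈ Finset.Icc 1 N, c q ≤ (N:ℝ) ^ 2 := by
    calc ∑ q ∈ Finset.Icc 1 N, c q ≤ ∑ q ∈ Finset.Icc 1 N, (N:ℝ) := by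
          refine Finset.sum_le_sum fun n hn => ?_
          obtain ⟨hn1, hnN⟩ := Finset.mem_Icc.mp hn
          have hn1' : (1:ℝ) ≤ n := by exact_mod_cast hn1
          have hnN' : (n:ℝ) ≤ N := by exact_mod_cast hnN
          have h1 : (n:ℝ) ^ (1/2 - x) ≤ n := by
            calc (n:ℝ) ^ (1/2 - x) ≤ (n:ℝ) ^ (1:ℝ) := Real.rpow_le_rpow_of_exponent_le hn1' (by linarith)
              _ = n := Real.rpow_one _
          rw [hcn]
          have h2 := halfTrunc_le_one N n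
          have h3 := halfTrunc_nonneg N n
          calc halfTrunc N n * (n:ℝ) ^ (1/2 - x) ≤ 1 * N := by
                apply mul_le_mul h2 (h1.trans hnN') (by positivity) zero_le_one
            _ = N := one_mul _
      _ = (N:ℝ) ^ 2 := by simp; ring
  have e4 : 0 ≤ ∑ q ∈ Finset.Icc 1 N, c q := Finset.sum_nonneg fun n _ => hc0 n
  have e5 : (∑ q ∈ Finset.Icc 1 N, c q) ^ 2 ≤ (N:ℝ) ^ 4 := by
    calc (∑ q ∈ Finset.Icc 1 N, c q) ^ 2 ≤ ((N:ℝ) ^ 2) ^ 2 := by gcongr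
      _ = _ := by ring
  gcongr

/-- The zeta value at two as a sum. -/
noncomputable def Z2 : ℝ := ∑' n : ℕ, (n:ℝ) ^ (-(2:ℝ))

lemma Z2_summable : Summable fun n : ℕ => (n:ℝ) ^ (-(2:ℝ)) := summable_nat_rpow_neg (by norm_num)

lemma one_le_Z2 : 1 ≤ Z2 := by
  have := Z2_summable.le_tsum 1 (fun n _ => by positivity)
  simpa [Z2] using this

/-- Far to the right zeta is close to the square of `PP`. -/
lemma far_line {N : ℕ} (hN : 1 ≤ N) {b : ℝ} (hb : 2 ≤ b) (t : ℝ) : 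
    ‖Gf N (b + t * I)‖ ≤ ‖(b:ℂ) + t * I - 1‖ * (Z2 * (N:ℝ) ^ (2 - b)) := by
  set s : ℂ := (b:ℂ) + t * I with hs
  have hre : s.re = b := by simp [hs]
  have hre1 : 1 < s.re := by rw [hre]; linarith
  have hs1 : s ≠ 1 := by rintro h; rw [h] at hre1; simp at hre1
  have hs1' : s - 1 ≠ 0 := sub_ne_zero.mpr hs1
  have hs0 : s ≠ 0 := by rintro h; rw [h] at hre1; simp at hre1; linarith
  have hN0 : (0:ℝ) < N := by exact_mod_cast hN
  have h1 := hasSum_zeta_pow 1 hre1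
  rw [pow_one] at h1
  -- the square of PP as a sum
  have hsq : PP N s ^ 2 = dp (halfTrunc N ^ 2) (N ^ 2) s := (dp_pow (halfTrunc_supp N) hs0 2).symm
  have h2 : HasSum (fun n : ℕ => (((halfTrunc N ^ 2) n : ℝ) : ℂ) * cexp (-((Real.log n : ℝ) : ℂ) * s)) (PP N s ^ 2) := by
    rw [hsq, dp_eq_exp]
    apply hasSum_sum_of_ne_finset_zero
    intro n hn
    rw [Finset.mem_Icc, not_and_or, not_le, not_le] at hn
    rcases hn with h | h
    · have : n = 0 := by omega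
      subst this; simp
    · rw [(halfTrunc_supp N).pow 2 n h]; simp
  have h3 := h1.sub h2
  have hbd : ∀ n : ℕ, ‖((tau ((1:ℕ):ℝ) n : ℝ) : ℂ) * cexp (-((Real.log n : ℝ) : ℂ) * s) - (((halfTrunc N ^ 2) n : ℝ) : ℂ) * cexp (-((Real.log n : ℝ) : ℂ) * s)‖ ≤ 
      (N:ℝ) ^ (2 - b) * (n:ℝ) ^ (-(2:ℝ)) := by
    intro n
    rcases Nat.eq_zero_or_pos n with rfl | hn
    · simp
    · have hn0 : (0:ℝ) < n := by exact_mod_cast hn
      rw [← sub_mul, norm_mul]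
      rw [hs, norm_term_line hn, ← ofReal_sub, norm_real, Real.norm_eq_abs]
      by_cases hnN : n ≤ N
      · have e : (halfTrunc N ^ 2) n = tau ((1:ℕ):ℝ) n := by
          rw [halfTrunc_pow hnN]; norm_num
        rw [e, sub_self, abs_zero, zero_mul]; positivity
      · push Not at hnN
        have hnN' : (N:ℝ) ≤ n := by exact_mod_cast hnN.le
        have e1 : tau ((1:ℕ):ℝ) n = 1 := by rw [Nat.cast_one]; exact tau_one_apply (by omega)
        have e2 : 0 ≤ (halfTrunc N ^ 2) n := pow_nonneg_af (halfTrunc_nonneg N) 2 n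
        have e3 : (halfTrunc N ^ 2) n ≤ 1 := by rw [pow_two]; exact halfTrunc_mul_le N n
        have e4 : |tau ((1:ℕ):ℝ) n - (halfTrunc N ^ 2) n| ≤ 1 := by
          rw [e1, abs_le]; constructor <;> linarith
        calc |tau ((1:ℕ):ℝ) n - (halfTrunc N ^ 2) n| * (n:ℝ) ^ (-b) ≤ 1 * (n:ℝ) ^ (-b) := by gcongr
          _ = (n:ℝ) ^ (2 - b) * (n:ℝ) ^ (-(2:ℝ)) := by
              rw [one_mul, ← Real.rpow_add hn0]; congr 1; ring
          _ ≤ (N:ℝ) ^ (2 - b) * (n:ℝ) ^ (-(2:ℝ)) := by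
              apply mul_le_mul_of_nonneg_right _ (by positivity)
              exact Real.rpow_le_rpow_of_nonpos hN0 hnN' (by linarith)
  have h4 := tsum_of_norm_bounded (Z2_summable.mul_left ((N:ℝ) ^ (2 - b))).hasSum hbd
  rw [h3.tsum_eq, tsum_mul_left] at h4
  have h5 : Gf N s = (s - 1) * (riemannZeta s - PP N s ^ 2) := by
    unfold Gf Q2
    rw [riemannZeta_eq_inv_sub_mul hs1]
    field_simp
  rw [h5, norm_mul]
  refine mul_le_mul_of_nonneg_left ?_ (norm_nonneg _)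
  rw [mul_comm Z2]
  exact h4

lemma far_line_zeta {b : ℝ} (hb : 2 ≤ b) (t : ℝ) : 
    ‖riemannZeta₁ (b + t * I)‖ ≤ ‖(b:ℂ) + t * I - 1‖ * Z2 := by
  set s : ℂ := (b:ℂ) + t * I with hs
  have hre : s.re = b := by simp [hs]
  have hre1 : 1 < s.re := by rw [hre]; linarith
  have hs1 : s ≠ 1 := by rintro h; rw [h] at hre1; simp at hre1
  have hs1' : s - 1 ≠ 0 := sub_ne_zero.mpr hs1
  have h1 := hasSum_zeta_pow 1 hre1
  rw [pow_one] at h1
  have hbd : ∀ n : ℕ, ‖((tau ((1:ℕ):ℝ) n : ℝ) : ℂ) * cexp (-((Real.log n : ℝ) : ℂ) * s)‖ ≤ (n:ℝ) ^ (-(2:ℝ)) := by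
    intro n
    rcases Nat.eq_zero_or_pos n with rfl | hn
    · simp
    · have hn0 : (1:ℝ) ≤ n := by exact_mod_cast hn
      rw [norm_mul, hs, norm_term_line hn, norm_real, Real.norm_eq_abs]
      have e1 : tau ((1:ℕ):ℝ) n = 1 := by rw [Nat.cast_one]; exact tau_one_apply (by omega)
      rw [e1, abs_one, one_mul]
      exact Real.rpow_le_rpow_of_exponent_le hn0 (by linarith)
  have h4 := tsum_of_norm_bounded Z2_summable.hasSum hbd
  rw [h1.tsum_eq] at h4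
  have h5 : riemannZeta₁ s = (s - 1) * riemannZeta s := by
    rw [riemannZeta_eq_inv_sub_mul hs1]; field_simp
  rw [h5, norm_mul]
  exact mul_le_mul_of_nonneg_left h4 (norm_nonneg _)

end Pool.Agent.LibZM
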