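import Mathlib
import Pool.Agent.LibZM.HB5
import Pool.Agent.LibZM.Param

set_option autoImplicit false

namespace Pool.Agent.LibZM

open MeasureTheory Set Filter Topology Complex ProbabilityTheory
open scoped NNReal

/-- Filter of pairs `(T,u)` with `ε T ≤ u ≤ T` and `T → ∞`. -/
def Fl (ε : ℝ) : Filter (ℝ × ℝ) := comap Prod.fst atTop ⊓ 𝓟 {p | ε * p.1 ≤ p.2 ∧ p.2 ≤ p.1}

lemma Fl_iff {ε : ℝ} {P : ℝ × ℝ → Prop} : 
    (∀ᶠ p in Fl ε, P p) ↔ ∀ᶠ T : ℝ in atTop, ∀ u, ε * T ≤ u → u ≤ T → P (T, u) := by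
  unfold Fl
  rw [eventually_inf_principal, eventually_comap]
  constructor
  · intro h
    filter_upwards [h] with T hT u hu hu'
    exact hT (T, u) rfl ⟨hu, hu'⟩
  · intro h
    filter_upwards [h] with T hT p hp hp2
    obtain ⟨T', u⟩ := p
    simp only at hp
    subst hp
    exact hT u hp2.1 hp2.2

lemma Fl_fst (ε : ℝ) : Tendsto (Prod.fst : ℝ × ℝ → ℝ) (Fl ε) atTop := tendsto_comap.mono_left inf_le_left

lemma Fl_range (ε : ℝ) : ∀ᶠ p : ℝ × ℝ in Fl ε, ε * p.1 ≤ p.2 ∧ p.2 ≤ p.1 := by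
  rw [Fl_iff]
  exact Eventually.of_forall fun T u h1 h2 => ⟨h1, h2⟩

/-- Length of the Dirichlet polynomial. -/
noncomputable def NT (θ T : ℝ) : ℕ := ⌊T ^ θ⌋₊

/-- Standard deviation. -/
noncomputable def HT (θ T : ℝ) : ℝ := T ^ ((1 + θ) / 2)

/-- Variance. -/
noncomputable def vT (θ T : ℝ) : ℝ≥0 := Real.toNNReal (HT θ T ^ 2)

/-- Truncation radius. -/
noncomputable def RT (θ T : ℝ) : ℝ := T ^ ((3 + θ) / 4)

/-- Normalising factor. -/
noncomputable def Lam (T : ℝ) : ℝ := Aconst (1/2) * (Real.log T) ^ (1/4 : ℝ)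

lemma vT_coe (θ T : ℝ) : (vT θ T : ℝ) = HT θ T ^ 2 := Real.coe_toNNReal _ (sq_nonneg _)

lemma HT_pos (θ : ℝ) {T : ℝ} (hT : 0 < T) : 0 < HT θ T := Real.rpow_pos_of_pos hT _

lemma RT_pos (θ : ℝ) {T : ℝ} (hT : 0 < T) : 0 < RT θ T := Real.rpow_pos_of_pos hT _

lemma sqrt_vT (θ : ℝ) {T : ℝ} (hT : 0 < T) : √(vT θ T : ℝ) = HT θ T := by
  rw [vT_coe, Real.sqrt_sq (HT_pos θ hT).le]

lemma Lam_pos {T : ℝ} (hT : 1 < T) : 0 < Lam T := by
  unfold Lam
  have := Real.log_pos hT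
  have := Aconst_pos (κ := 1/2) (by norm_num)
  positivity

/-- Majorant for the Gaussian tail. -/
noncomputable def tl (H R y : ℝ) : ℝ := H * Real.exp (-R / H) * (Real.exp (2 * H⁻¹ * y) + Real.exp (-(2 * H⁻¹) * y))

lemma tl_nonneg {H : ℝ} (hH : 0 < H) (R y : ℝ) : 0 ≤ tl H R y := by unfold tl; positivity

lemma abs_le_tl {H R : ℝ} (hH : 0 < H) (y : ℝ) : |y| ≤ R ∨ |y| ≤ tl H R y := by
  rcases le_or_gt |y| R with h | h
  · left; exact h
  · right
    unfold tl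
    have h1 : |y| / H ≤ Real.exp (|y| / H) := by
      have := Real.add_one_le_exp (|y| / H); linarith
    have h2 : |y| ≤ H * Real.exp (|y| / H) := by
      rw [div_le_iff₀ hH] at h1; linarith
    have h3 : 1 ≤ Real.exp (-R / H) * Real.exp (|y| / H) := by
      rw [← Real.exp_add]
      apply Real.one_le_exp
      rw [← add_div]
      apply div_nonneg _ hH.le
      linarith
    have h4 : Real.exp (|y| / H) * Real.exp (|y| / H) ≤ Real.exp (2 * H⁻¹ * y) + Real.exp (-(2 * H⁻¹) * y) := by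
      rw [← Real.exp_add]
      rcases abs_cases y with ⟨h5, _⟩ | ⟨h5, _⟩
      · rw [h5]
        have e : y / H + y / H = 2 * H⁻¹ * y := by rw [div_eq_mul_inv]; ring
        rw [e]
        linarith [Real.exp_pos (-(2 * H⁻¹) * y)]
      · rw [h5]
        have e : -y / H + -y / H = -(2 * H⁻¹) * y := by rw [div_eq_mul_inv]; ring
        rw [e]
        linarith [Real.exp_pos (2 * H⁻¹ * y)]
    calc |y| ≤ H * Real.exp (|y| / H) := h2
      _ ≤ H * Real.exp (|y| / H) * (Real.exp (-R / H) * Real.exp (|y| / H)) := by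
          apply le_mul_of_one_le_right (by positivity) h3
      _ = H * Real.exp (-R / H) * (Real.exp (|y| / H) * Real.exp (|y| / H)) := by ring
      _ ≤ _ := by gcongr

lemma abs_le_add_tl {H R : ℝ} (hH : 0 < H) (hR : 0 ≤ R) (y : ℝ) : |y| ≤ R + tl H R y := by
  rcases abs_le_tl (R := R) hH y with h | h
  · have := tl_nonneg hH R y; linarith
  · linarith

lemma tl_integral (u : ℝ) {v : ℝ≥0} (hv : 0 < v) (R : ℝ) : 
    Integrable (fun t => tl (√v) R (t - u)) (gaussianReal u v) ∧ 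
    ∫ t, tl (√v) R (t - u) ∂(gaussianReal u v) ≤ 16 * √v * Real.exp (-R / √v) := by
  have hv' : (0:ℝ) < v := by exact_mod_cast hv
  obtain ⟨H, hH⟩ : ∃ H : ℝ, H = √(v:ℝ) := ⟨_, rfl⟩
  rw [← hH]
  have hH0 : 0 < H := by rw [hH]; exact Real.sqrt_pos.mpr hv'
  have hH2 : H ^ 2 = v := by rw [hH]; exact Real.sq_sqrt hv'.le
  obtain ⟨i3, v3⟩ := gauss_exp u v (2 * H⁻¹)
  obtain ⟨i4, v4⟩ := gauss_exp u v (-(2 * H⁻¹))
  have e3 : (v:ℝ) * (2 * H⁻¹) ^ 2 / 2 = 2 := by rw [← hH2]; field_simp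
  have e4 : (v:ℝ) * (-(2 * H⁻¹)) ^ 2 / 2 = 2 := by rw [← hH2]; field_simp
  constructor
  · exact (i3.add i4).const_mul _
  · unfold tl
    rw [integral_const_mul, integral_add i3 i4, v3, v4, e3, e4]
    have he2 : Real.exp 2 ≤ 8 := by
      have h1 : Real.exp 2 = Real.exp 1 ^ 2 := by rw [← Real.exp_nat_mul]; norm_num
      rw [h1]
      have := Real.exp_one_lt_d9
      have := Real.exp_pos 1
      nlinarith
    have : 0 ≤ H * Real.exp (-R / H) := by positivity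
    nlinarith

lemma mean_abs_le {u : ℝ} (hu : 0 ≤ u) {v : ℝ≥0} (hv : 0 < v) {R : ℝ} (hR : 0 ≤ R) : 
    ∫ t, |t| ∂(gaussianReal u v) ≤ u + R + 16 * √v * Real.exp (-R / √v) := by
  have hv' : (0:ℝ) < v := by exact_mod_cast hv
  have hH0 : 0 < √(v:ℝ) := Real.sqrt_pos.mpr hv'
  obtain ⟨hi, hb⟩ := tl_integral u hv R
  calc ∫ t, |t| ∂(gaussianReal u v) ≤ ∫ t, ((u + R) + tl (√v) R (t - u)) ∂(gaussianReal u v) := by
        refine integral_mono (integrable_abs_gaussian u v) ((integrable_const _).add hi) fun t => ?_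
        have h1 := abs_le_add_tl hH0 hR (t - u)
        have h2 : |t| ≤ u + |t - u| := by
          calc |t| = |u + (t - u)| := by congr 1; ring
            _ ≤ |u| + |t - u| := abs_add_le _ _
            _ = _ := by rw [abs_of_nonneg hu]
        show |t| ≤ (u + R) + tl (√v) R (t - u)
        linarith
    _ = (u + R) + ∫ t, tl (√v) R (t - u) ∂(gaussianReal u v) := by
        rw [integral_add (integrable_const _) hi]; simp
    _ ≤ _ := by linarith

lemma norm_line_bounds {x : ℝ} (h0 : 1/4 ≤ x) (h1 : x ≤ 7/4) (t : ℝ) : 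
    |t| ≤ ‖(x:ℂ) + t * I - 1‖ ∧ ‖(x:ℂ) + t * I - 1‖ ≤ 1 + |t| := by
  constructor
  · have h := abs_im_le_norm ((x:ℂ) + t * I - 1)
    have : ((x:ℂ) + t * I - 1).im = t := by simp
    rwa [this] at h
  · refine (norm_sub_one_le x t).trans ?_
    have : |x - 1| ≤ 1 := by rw [abs_le]; constructor <;> linarith
    linarith

lemma integrable_PP_sq (N : ℕ) {x : ℝ} (hx : 0 ≤ x) (u : ℝ) (v : ℝ≥0) : 
    Integrable (fun t : ℝ => ‖PP N (x + t * I)‖ ^ 2) (gaussianReal u v) := by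
  refine Integrable.mono' (g := fun _ => (N:ℝ) ^ 2) (integrable_const _) ?_ (Eventually.of_forall fun t => ?_)
  · have := (differentiable_PP N).continuous
    have h : Continuous (fun t : ℝ => ‖PP N (x + t * I)‖ ^ 2) := by fun_prop
    exact h.aestronglyMeasurable
  · rw [Real.norm_eq_abs, abs_of_nonneg (by positivity)]
    have := norm_PP_line_le (N := N) hx t
    gcongr

lemma integrable_norm_gauss {F : ℂ → ℂ} (hF : Continuous F) {x C : ℝ} 
    (hC : ∀ t : ℝ, ‖F (x + t * I)‖ ≤ C * (1 + |t|)) (u : ℝ) (v : ℝ≥0) : 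
    Integrable (fun t : ℝ => ‖F (x + t * I)‖) (gaussianReal u v) := by
  refine Integrable.mono' (g := fun t => C * (1 + |t|)) (((integrable_const 1).add (integrable_abs_gaussian u v)).const_mul C) ?_ 
    (Eventually.of_forall fun t => ?_)
  · have h : Continuous (fun t : ℝ => ‖F (x + t * I)‖) := by fun_prop
    exact h.aestronglyMeasurable
  · rw [norm_norm]; exact hC t

/-- Bounds for the Gaussian mean of `|(s-1) P(s)^2|`. -/
lemma q_bounds {u : ℝ} (hu : 0 ≤ u) {v : ℝ≥0} (hv : 4 ≤ v) {R : ℝ} (hR : 0 ≤ R) (hRu : R ≤ u) (N : ℕ) {x : ℝ} 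
    (h0 : 1/4 ≤ x) (h1 : x ≤ 7/4) : 
    En (Q2 N) u v x ≤ (1 + u + R) * (DD N x + 3 * (N:ℝ) ^ 2 * Real.exp (-v / (16 * (N:ℝ) ^ 2)) * (N:ℝ) ^ 4) + 
      (N:ℝ) ^ 2 * (16 * √v * Real.exp (-R / √v)) ∧ 
    (u - R) * (DD N x - 3 * (N:ℝ) ^ 2 * Real.exp (-v / (16 * (N:ℝ) ^ 2)) * (N:ℝ) ^ 4) - 
      (N:ℝ) ^ 2 * (16 * √v * Real.exp (-R / √v)) ≤ En (Q2 N) u v x := by
  have hv0 : 0 < v := lt_of_lt_of_le (by norm_num) hv
  have hv' : (0:ℝ) < v := by exact_mod_cast hv0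
  have hH0 : 0 < √(v:ℝ) := Real.sqrt_pos.mpr hv'
  obtain ⟨hi, hb⟩ := tl_integral u hv0 R
  have hms := meanSq_line u hv N h0
  obtain ⟨e, he⟩ : ∃ e : ℝ, e = 3 * (N:ℝ) ^ 2 * Real.exp (-v / (16 * (N:ℝ) ^ 2)) * (N:ℝ) ^ 4 := ⟨_, rfl⟩
  rw [← he] at hms ⊢
  obtain ⟨hm1, hm2⟩ := abs_le.mp hms
  have hPi := integrable_PP_sq N (x := x) (by linarith) u v
  obtain ⟨m, hm⟩ : ∃ m : ℝ, m = ∫ t : ℝ, ‖PP N (x + t * I)‖ ^ 2 ∂(gaussianReal u v) := ⟨_, rfl⟩
  rw [← hm] at hm1 hm2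
  have hQi : Integrable (fun t : ℝ => ‖Q2 N (x + t * I)‖) (gaussianReal u v) := by
    refine integrable_norm_gauss (differentiable_Q2 N).continuous (C := (N:ℝ) ^ 2) (fun t => ?_) u v
    unfold Q2
    rw [norm_mul, norm_pow, mul_comm]
    have h2 := norm_PP_line_le (N := N) (x := x) (by linarith) t
    have h3 := (norm_line_bounds h0 h1 t).2
    gcongr
  have hN2 : (0:ℝ) ≤ (N:ℝ) ^ 2 := by positivity
  have hpt : ∀ t : ℝ, ‖Q2 N (x + t * I)‖ ≤ (1 + u + R) * ‖PP N (x + t * I)‖ ^ 2 + (N:ℝ) ^ 2 * tl (√v) R (t - u) ∧ 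
      (u - R) * ‖PP N (x + t * I)‖ ^ 2 - (N:ℝ) ^ 2 * tl (√v) R (t - u) ≤ ‖Q2 N (x + t * I)‖ := by
    intro t
    have h2 := norm_PP_line_le (N := N) (x := x) (by linarith) t
    obtain ⟨h3, h4⟩ := norm_line_bounds h0 h1 t
    have h5 := abs_le_add_tl hH0 hR (t - u)
    have h6 := tl_nonneg hH0 R (t - u)
    have h7 : |t| ≤ u + |t - u| := by
      calc |t| = |u + (t - u)| := by congr 1; ring
        _ ≤ |u| + |t - u| := abs_add_le _ _
        _ = _ := by rw [abs_of_nonneg hu]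
    have h8 : u - |t - u| ≤ |t| := by
      have : |u| ≤ |t| + |t - u| := by
        calc |u| = |t + -(t - u)| := by congr 1; ring
          _ ≤ |t| + |-(t - u)| := abs_add_le _ _
          _ = _ := by rw [abs_neg]
      rw [abs_of_nonneg hu] at this
      linarith
    have h9 : ‖PP N (x + t * I)‖ ^ 2 ≤ (N:ℝ) ^ 2 := by gcongr
    have h10 : tl (√v) R (t - u) * ‖PP N (x + t * I)‖ ^ 2 ≤ tl (√v) R (t - u) * (N:ℝ) ^ 2 := by gcongr
    have h11 : 0 ≤ ‖PP N (x + t * I)‖ ^ 2 := by positivity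
    unfold Q2
    rw [norm_mul, norm_pow]
    constructor
    · calc ‖(x:ℂ) + t * I - 1‖ * ‖PP N (x + t * I)‖ ^ 2 ≤ ((1 + u + R) + tl (√v) R (t - u)) * ‖PP N (x + t * I)‖ ^ 2 := by
            apply mul_le_mul_of_nonneg_right _ h11
            linarith
        _ = (1 + u + R) * ‖PP N (x + t * I)‖ ^ 2 + tl (√v) R (t - u) * ‖PP N (x + t * I)‖ ^ 2 := by ring
        _ ≤ _ := by linarith
    · calc (u - R) * ‖PP N (x + t * I)‖ ^ 2 - (N:ℝ) ^ 2 * tl (√v) R (t - u) 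
          ≤ (u - R) * ‖PP N (x + t * I)‖ ^ 2 - tl (√v) R (t - u) * ‖PP N (x + t * I)‖ ^ 2 := by linarith
        _ = (u - R - tl (√v) R (t - u)) * ‖PP N (x + t * I)‖ ^ 2 := by ring
        _ ≤ _ := by
            apply mul_le_mul_of_nonneg_right _ h11
            linarith
  constructor
  · calc En (Q2 N) u v x ≤ ∫ t : ℝ, ((1 + u + R) * ‖PP N (x + t * I)‖ ^ 2 + (N:ℝ) ^ 2 * tl (√v) R (t - u)) ∂(gaussianReal u v) := 
          integral_mono hQi ((hPi.const_mul _).add (hi.const_mul _)) fun t => (hpt t).1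
      _ = (1 + u + R) * m + (N:ℝ) ^ 2 * ∫ t : ℝ, tl (√v) R (t - u) ∂(gaussianReal u v) := by
          rw [integral_add (hPi.const_mul _) (hi.const_mul _), integral_const_mul, integral_const_mul, hm]
      _ ≤ _ := by
          have h2 : (1 + u + R) * m ≤ (1 + u + R) * (DD N x + e) := by
            apply mul_le_mul_of_nonneg_left _ (by linarith)
            linarith
          have h3 := mul_le_mul_of_nonneg_left hb hN2
          linarith
  · calc (u - R) * (DD N x - e) - (N:ℝ) ^ 2 * (16 * √v * Real.exp (-R / √v)) 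
        ≤ (u - R) * m - (N:ℝ) ^ 2 * ∫ t : ℝ, tl (√v) R (t - u) ∂(gaussianReal u v) := by
          have h2 : (u - R) * (DD N x - e) ≤ (u - R) * m := by
            apply mul_le_mul_of_nonneg_left _ (by linarith)
            linarith
          have h3 := mul_le_mul_of_nonneg_left hb hN2
          linarith
      _ = ∫ t : ℝ, ((u - R) * ‖PP N (x + t * I)‖ ^ 2 - (N:ℝ) ^ 2 * tl (√v) R (t - u)) ∂(gaussianReal u v) := by
          rw [integral_sub (hPi.const_mul _) (hi.const_mul _), integral_const_mul, integral_const_mul, hm]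
      _ ≤ _ := integral_mono ((hPi.const_mul _).sub (hi.const_mul _)) hQi fun t => (hpt t).2

end Pool.Agent.LibZM
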