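import Mathlib

set_option autoImplicit false

namespace Pool.Agent.LibZM

open Complex MeasureTheory

/-- The factor of the functional equation. -/
noncomputable def Xfac (s : ℂ) : ℂ := 2 * (2 * Real.pi) ^ (-s) * Complex.Gamma s * Complex.cos (Real.pi * s / 2)

theorem norm_Gamma_le' {s : ℂ} (hs : 0 < s.re) : ‖Complex.Gamma s‖ ≤ Real.Gamma s.re := by
  rw [Complex.Gamma_eq_integral hs, Real.Gamma_eq_integral hs, Complex.GammaIntegral]
  refine (norm_integral_le_integral_norm _).trans (le_of_eq ?_)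
  refine setIntegral_congr_fun measurableSet_Ioi fun x hx => ?_
  have hx' : (0:ℝ) < x := hx
  rw [norm_mul, Complex.norm_cpow_eq_rpow_re_of_pos hx', Complex.norm_real, Real.norm_eq_abs, abs_of_pos (Real.exp_pos _)]
  simp

theorem Xfac_conj (s : ℂ) : Xfac ((starRingEnd ℂ) s) = (starRingEnd ℂ) (Xfac s) := by
  unfold Xfac
  rw [map_mul, map_mul, map_mul, ← Complex.Gamma_conj, ← Complex.cos_conj]
  have h1 : (2 * (Real.pi:ℂ)) = ((2 * Real.pi : ℝ) : ℂ) := by push_cast; ring
  have h2 : (starRingEnd ℂ) ((2 * (Real.pi:ℂ)) ^ (-s)) = (2 * (Real.pi:ℂ)) ^ (-(starRingEnd ℂ) s) := by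
    rw [← map_neg, Complex.cpow_conj]
    · rw [h1, Complex.conj_ofReal]
    · rw [h1, Complex.arg_ofReal_of_nonneg (by positivity)]
      exact Real.pi_pos.ne
  have h3 : (starRingEnd ℂ) (2:ℂ) = 2 := by
    have := Complex.conj_ofReal 2
    simpa using this
  rw [h2]
  simp only [map_div₀, map_mul, Complex.conj_ofReal, h3]

theorem Xfac_mul (s : ℂ) (hs : Complex.sin (Real.pi * s) ≠ 0) : Xfac s * Xfac (1 - s) = 1 := by
  unfold Xfac
  have hpi : (Real.pi : ℂ) ≠ 0 := by exact_mod_cast Real.pi_ne_zero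
  have h2pi : (2 * (Real.pi : ℂ)) ≠ 0 := by simp [hpi]
  have h1 : (2 * (Real.pi:ℂ)) ^ (-s) * (2 * (Real.pi:ℂ)) ^ (-(1 - s)) = (2 * (Real.pi:ℂ))⁻¹ := by
    rw [← Complex.cpow_add _ _ h2pi]
    have : -s + -(1 - s) = -1 := by ring
    rw [this, Complex.cpow_neg_one]
  have h3 : Complex.cos (Real.pi * (1 - s) / 2) = Complex.sin (Real.pi * s / 2) := by
    have : (Real.pi : ℂ) * (1 - s) / 2 = Real.pi / 2 - Real.pi * s / 2 := by ring
    rw [this, Complex.cos_pi_div_two_sub]
  have h4 : Complex.sin (Real.pi * s) = 2 * Complex.sin (Real.pi * s / 2) * Complex.cos (Real.pi * s / 2) := by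
    rw [← Complex.sin_two_mul]
    congr 1
    ring
  calc _ = 4 * ((2 * (Real.pi:ℂ)) ^ (-s) * (2 * (Real.pi:ℂ)) ^ (-(1 - s))) * (Complex.Gamma s * Complex.Gamma (1 - s)) * 
        (Complex.cos (Real.pi * s / 2) * Complex.cos (Real.pi * (1 - s) / 2)) := by ring
    _ = 1 := by
      rw [h1, Complex.Gamma_mul_Gamma_one_sub, h3]
      have h5 := hs
      rw [h4] at h5 ⊢
      have h6 : Complex.sin (Real.pi * s / 2) ≠ 0 := fun h => by rw [h] at h5; simp at h5
      have h7 : Complex.cos (Real.pi * s / 2) ≠ 0 := fun h => by rw [h] at h5; simp at h5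
      field_simp
      ring

theorem sin_pi_ne {s : ℂ} (hs : s.re = 1/2) : Complex.sin (Real.pi * s) ≠ 0 := by
  rw [Complex.sin_ne_zero_iff]
  intro k hk
  have hpi : (Real.pi : ℂ) ≠ 0 := by exact_mod_cast Real.pi_ne_zero
  have h1 : s = k := by
    have : (Real.pi : ℂ) * s = Real.pi * k := by rw [hk]; ring
    exact mul_left_cancel₀ hpi this
  rw [h1] at hs
  simp at hs
  have h2 : ((2 * k : ℤ) : ℝ) = ((1:ℤ):ℝ) := by push_cast; rw [hs]; norm_num
  have h3 : 2 * k = 1 := by exact_mod_cast h2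
  omega

theorem norm_Xfac_half {s : ℂ} (hs : s.re = 1/2) : ‖Xfac s‖ = 1 := by
  have h1 : (starRingEnd ℂ) s = 1 - s := by
    apply Complex.ext
    · simp [hs]; norm_num
    · simp
  have h2 := Xfac_mul s (sin_pi_ne hs)
  rw [← h1, Xfac_conj, Complex.mul_conj] at h2
  have h3 : Complex.normSq (Xfac s) = 1 := by exact_mod_cast h2
  rw [Complex.normSq_eq_norm_sq] at h3
  nlinarith [norm_nonneg (Xfac s)]

theorem norm_Xfac_threeHalf {s : ℂ} (hs : s.re = 3/2) : ‖Xfac s‖ = ‖s - 1‖ / (2 * Real.pi) := by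
  set t := s - 1 with ht
  have hst : s = t + 1 := by rw [ht]; ring
  have htre : t.re = 1/2 := by rw [ht]; simp [hs]; norm_num
  have ht0 : t ≠ 0 := fun h => by rw [h] at htre; norm_num at htre
  have hpi : (Real.pi : ℂ) ≠ 0 := by exact_mod_cast Real.pi_ne_zero
  have h2pi : (2 * (Real.pi : ℂ)) ≠ 0 := by simp [hpi]
  have h1 : Complex.cos (Real.pi * s / 2) = - Complex.sin (Real.pi * t / 2) := by
    have : (Real.pi : ℂ) * s / 2 = Real.pi * t / 2 + Real.pi / 2 := by rw [hst]; ring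
    rw [this, Complex.cos_add_pi_div_two]
  have h2 : ‖Complex.sin (Real.pi * t / 2)‖ = ‖Complex.cos (Real.pi * t / 2)‖ := by
    have h3 : (starRingEnd ℂ) t = 1 - t := by
      apply Complex.ext
      · simp [htre]; norm_num
      · simp
    have h4 : Complex.sin (Real.pi * t / 2) = Complex.cos ((starRingEnd ℂ) (Real.pi * t / 2)) := by
      have h5 : (starRingEnd ℂ) (2:ℂ) = 2 := by
        have := Complex.conj_ofReal 2
        simpa using this
      have : (starRingEnd ℂ) ((Real.pi:ℂ) * t / 2) = Real.pi / 2 - Real.pi * t / 2 := by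
        simp only [map_div₀, map_mul, Complex.conj_ofReal, h3, h5]
        ring
      rw [this, Complex.cos_pi_div_two_sub]
    rw [h4, Complex.cos_conj, Complex.norm_conj]
  have h3 : Xfac s = - (t / (2 * Real.pi)) * (2 * (2 * Real.pi) ^ (-t) * Complex.Gamma t * Complex.sin (Real.pi * t / 2)) := by
    unfold Xfac
    rw [h1, hst, Complex.Gamma_add_one _ ht0]
    have : -(t + 1) = -t - 1 := by ring
    rw [this, Complex.cpow_sub _ _ h2pi, Complex.cpow_one]
    field_simp
  have h4 : ‖Xfac t‖ = 1 := norm_Xfac_half htre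
  unfold Xfac at h4
  rw [h3]
  rw [norm_mul, norm_mul, norm_mul] at h4
  rw [norm_mul, norm_mul, norm_mul, norm_mul, h2, h4, norm_neg, norm_div, mul_one]
  congr 1
  rw [norm_mul]
  simp [abs_of_pos Real.pi_pos]

/-- Convexity bound for the factor of the functional equation in the critical strip. -/
theorem norm_Xfac_le {δ y : ℝ} (hδ0 : 0 ≤ δ) (hδ1 : δ ≤ 1) :
    ‖Xfac (((1/2 + δ : ℝ) : ℂ) + y * Complex.I)‖ ≤ (Real.exp 1 * (|y| + 2) / (2 * Real.pi)) ^ δ := by
  set F : ℂ → ℂ := fun s => Xfac s * Complex.exp ((s - 1/2 - y * Complex.I) ^ 2) with hF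
  have hpi : (Real.pi : ℂ) ≠ 0 := by exact_mod_cast Real.pi_ne_zero
  have h2pi : (2 * (Real.pi : ℂ)) ≠ 0 := by simp [hpi]
  -- modulus of the Gaussian factor
  have hexp : ∀ s : ℂ, ‖Complex.exp ((s - 1/2 - y * Complex.I) ^ 2)‖ = Real.exp ((s.re - 1/2)^2 - (s.im - y)^2) := by
    intro s
    rw [Complex.norm_exp]
    congr 1
    rw [sq, Complex.mul_re]
    simp
    ring
  have hdiff : ∀ s : ℂ, 0 < s.re → DifferentiableAt ℂ F s := by
    intro s hs
    have h1 : DifferentiableAt ℂ Complex.Gamma s := by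
      apply Complex.differentiableAt_Gamma
      intro m hm
      rw [hm] at hs
      simp at hs
      linarith [Nat.cast_nonneg (α := ℝ) m]
    have h2 : DifferentiableAt ℂ (fun s : ℂ => (2 * (Real.pi:ℂ)) ^ (-s)) s := by
      exact DifferentiableAt.const_cpow (by fun_prop) (Or.inl h2pi)
    simp only [hF]
    unfold Xfac
    fun_prop
  have hd : DiffContOnCl ℂ F (Complex.HadamardThreeLines.verticalStrip (1/2) (3/2)) := by
    refine ⟨fun s hs => (hdiff s ?_).differentiableWithinAt, fun s hs => (hdiff s ?_).continuousAt.continuousWithinAt⟩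
    · have : s.re ∈ Set.Ioo (1/2:ℝ) (3/2) := hs
      linarith [this.1]
    · have h1 : closure (Complex.HadamardThreeLines.verticalStrip (1/2) (3/2)) ⊆ Complex.re ⁻¹' (Set.Icc (1/2:ℝ) (3/2)) := by
        apply closure_minimal
        · intro z hz
          have : z.re ∈ Set.Ioo (1/2:ℝ) (3/2) := hz
          exact ⟨this.1.le, this.2.le⟩
        · exact isClosed_Icc.preimage Complex.continuous_re
      have := h1 hs
      have : s.re ∈ Set.Icc (1/2:ℝ) (3/2) := this
      linarith [this.1]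
  have hB : BddAbove ((norm ∘ F) '' Complex.HadamardThreeLines.verticalClosedStrip (1/2) (3/2)) := by
    obtain ⟨C, hC⟩ : ∃ C, ∀ x ∈ Set.Icc (1/2:ℝ) (3/2), Real.Gamma x ≤ C := by
      have hcont : ContinuousOn Real.Gamma (Set.Icc (1/2:ℝ) (3/2)) := by
        intro x hx
        refine (Real.differentiableAt_Gamma ?_).continuousAt.continuousWithinAt
        intro m hm
        have := hx.1
        rw [hm] at this
        linarith [Nat.cast_nonneg (α := ℝ) m]
      obtain ⟨C, hC⟩ := (isCompact_Icc.image_of_continuousOn hcont).bddAbove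
      exact ⟨C, fun x hx => hC ⟨x, hx, rfl⟩⟩
    have hC0 : 0 ≤ C := (Real.Gamma_pos_of_pos (by norm_num : (0:ℝ) < 1/2)).le.trans (hC (1/2) (by norm_num))
    refine ⟨2 * C * Real.exp (1 + 2 * |y| + 4), ?_⟩
    rintro _ ⟨s, hs, rfl⟩
    have hs' : s.re ∈ Set.Icc (1/2:ℝ) (3/2) := hs
    simp only [Function.comp, hF]
    rw [norm_mul, hexp]
    unfold Xfac
    have h1 : ‖(2 * (Real.pi:ℂ)) ^ (-s)‖ ≤ 1 := by
      have : (2 * (Real.pi:ℂ)) = ((2 * Real.pi : ℝ) : ℂ) := by push_cast; ring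
      rw [this, Complex.norm_cpow_eq_rpow_re_of_pos (by positivity)]
      apply Real.rpow_le_one_of_one_le_of_nonpos
      · linarith [Real.pi_gt_three]
      · simp; linarith [hs'.1]
    have h2 : ‖Complex.Gamma s‖ ≤ C := (norm_Gamma_le' (by linarith [hs'.1])).trans (hC _ hs')
    have h3 : ‖Complex.cos (Real.pi * s / 2)‖ ≤ Real.exp (2 * |s.im|) := by
      have h4 : Complex.cos (Real.pi * s / 2) = (Complex.exp ((Real.pi * s / 2) * Complex.I) + Complex.exp (-(Real.pi * s / 2) * Complex.I)) / 2 := rfl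
      have h5 : ‖Complex.exp ((Real.pi * s / 2) * Complex.I)‖ ≤ Real.exp (2 * |s.im|) := by
        rw [Complex.norm_exp, Real.exp_le_exp]
        have : (((Real.pi : ℂ) * s / 2) * Complex.I).re = - (Real.pi * s.im / 2) := by
          simp [Complex.mul_re, Complex.mul_im]
        rw [this]
        have := Real.pi_lt_four
        have := Real.pi_pos
        have := neg_abs_le s.im
        have := abs_nonneg s.im
        nlinarith
      have h6 : ‖Complex.exp (-(Real.pi * s / 2) * Complex.I)‖ ≤ Real.exp (2 * |s.im|) := by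
        rw [Complex.norm_exp, Real.exp_le_exp]
        have : (-((Real.pi : ℂ) * s / 2) * Complex.I).re = (Real.pi * s.im / 2) := by
          simp [Complex.mul_re, Complex.mul_im]
        rw [this]
        have := Real.pi_lt_four
        have := Real.pi_pos
        have := le_abs_self s.im
        have := abs_nonneg s.im
        nlinarith
      rw [h4, norm_div]
      have h7 := norm_add_le (Complex.exp ((Real.pi * s / 2) * Complex.I)) (Complex.exp (-(Real.pi * s / 2) * Complex.I))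
      have h8 : ‖(2:ℂ)‖ = 2 := by simp
      rw [h8]
      linarith
    rw [norm_mul, norm_mul, norm_mul]
    have h8 : ‖(2:ℂ)‖ = 2 := by simp
    rw [h8]
    calc 2 * ‖(2 * (Real.pi:ℂ)) ^ (-s)‖ * ‖Complex.Gamma s‖ * ‖Complex.cos (Real.pi * s / 2)‖ * Real.exp ((s.re - 1/2)^2 - (s.im - y)^2)
        ≤ 2 * 1 * C * Real.exp (2 * |s.im|) * Real.exp ((s.re - 1/2)^2 - (s.im - y)^2) := by gcongr
      _ = 2 * C * Real.exp (2 * |s.im| + ((s.re - 1/2)^2 - (s.im - y)^2)) := by rw [Real.exp_add]; ring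
      _ ≤ _ := by
        refine mul_le_mul_of_nonneg_left (Real.exp_le_exp.mpr ?_) (by positivity)
        have h9 : |s.im| ≤ |y| + |s.im - y| := by
          have := abs_add_le y (s.im - y)
          simpa using this
        have h10 : (s.im - y)^2 = |s.im - y|^2 := (sq_abs _).symm
        rw [h10]
        have h11 : (s.re - 1/2)^2 ≤ 1 := by
          have := hs'.1; have := hs'.2; nlinarith
        nlinarith [sq_nonneg (|s.im - y| - 1)]
  have ha : ∀ z ∈ Complex.re ⁻¹' {(1/2:ℝ)}, ‖F z‖ ≤ 1 := by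
    intro z hz
    have hz' : z.re = 1/2 := hz
    simp only [hF]
    rw [norm_mul, norm_Xfac_half hz', hexp, hz', one_mul]
    apply Real.exp_le_one_iff.mpr
    nlinarith [sq_nonneg (z.im - y)]
  have hb : ∀ z ∈ Complex.re ⁻¹' {(3/2:ℝ)}, ‖F z‖ ≤ Real.exp 1 * (|y| + 2) / (2 * Real.pi) := by
    intro z hz
    have hz' : z.re = 3/2 := hz
    simp only [hF]
    rw [norm_mul, norm_Xfac_threeHalf hz', hexp, hz']
    have h1 : ‖z - 1‖ ≤ 1/2 + |y| + |z.im - y| := by
      have h2 := Complex.norm_le_abs_re_add_abs_im (z - 1)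
      have h3 : (z - 1).re = 1/2 := by simp [hz']; norm_num
      have h4 : (z - 1).im = z.im := by simp
      rw [h3, h4] at h2
      have h5 : |z.im| ≤ |y| + |z.im - y| := by
        have := abs_add_le y (z.im - y)
        simpa using this
      have h6 : |(1/2:ℝ)| = 1/2 := abs_of_pos (by norm_num)
      linarith
    have h2 : Real.exp ((3/2 - 1/2 : ℝ)^2 - (z.im - y)^2) = Real.exp 1 * Real.exp (-|z.im - y|^2) := by
      rw [← Real.exp_add, sq_abs]; norm_num [sub_eq_add_neg]
    rw [h2]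
    set u := |z.im - y| with hu
    have hu0 : 0 ≤ u := abs_nonneg _
    have h3 : Real.exp (-u^2) ≤ 1 := Real.exp_le_one_iff.mpr (by nlinarith)
    have h4 : u * Real.exp (-u^2) ≤ 1 := by
      have h5 : u ≤ Real.exp (u^2) := by
        have := Real.add_one_le_exp (u^2)
        nlinarith [sq_nonneg (u - 1)]
      rw [Real.exp_neg, ← div_eq_mul_inv, div_le_one (Real.exp_pos _)]
      exact h5
    have hy0 := abs_nonneg y
    have hkey : ‖z - 1‖ * Real.exp (-u^2) ≤ |y| + 2 := by
      calc ‖z - 1‖ * Real.exp (-u^2) ≤ (1/2 + |y| + u) * Real.exp (-u^2) := by gcongr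
        _ = (1/2 + |y|) * Real.exp (-u^2) + u * Real.exp (-u^2) := by ring
        _ ≤ (1/2 + |y|) * 1 + 1 := by gcongr
        _ ≤ _ := by linarith
    calc ‖z - 1‖ / (2 * Real.pi) * (Real.exp 1 * Real.exp (-u^2)) = Real.exp 1 * (‖z - 1‖ * Real.exp (-u^2)) / (2 * Real.pi) := by ring
      _ ≤ _ := by gcongr
  have hz : (((1/2 + δ : ℝ) : ℂ) + y * Complex.I) ∈ Complex.HadamardThreeLines.verticalClosedStrip (1/2) (3/2) := by
    show (((1/2 + δ : ℝ) : ℂ) + y * Complex.I).re ∈ Set.Icc (1/2:ℝ) (3/2)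
    have : (((1/2 + δ : ℝ) : ℂ) + y * Complex.I).re = 1/2 + δ := by simp
    rw [this]
    constructor <;> linarith
  have key := Complex.HadamardThreeLines.norm_le_interp_of_mem_verticalClosedStrip' (by norm_num : (1/2:ℝ) < 3/2) hz hd hB ha hb
  have hre : (((1/2 + δ : ℝ) : ℂ) + y * Complex.I).re = 1/2 + δ := by simp
  have him : (((1/2 + δ : ℝ) : ℂ) + y * Complex.I).im = y := by simp
  rw [hre, Real.one_rpow, one_mul] at key
  have h1 : (1/2 + δ - 1/2) / (3/2 - 1/2) = δ := by ring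
  rw [h1] at key
  simp only [hF] at key
  rw [norm_mul, hexp, hre, him] at key
  have h2 : 1 ≤ Real.exp ((1/2 + δ - 1/2)^2 - (y - y)^2) := by
    apply Real.one_le_exp
    nlinarith [sq_nonneg δ]
  calc ‖Xfac (((1/2 + δ : ℝ) : ℂ) + y * Complex.I)‖ 
      ≤ ‖Xfac (((1/2 + δ : ℝ) : ℂ) + y * Complex.I)‖ * Real.exp ((1/2 + δ - 1/2)^2 - (y - y)^2) := le_mul_of_one_le_right (norm_nonneg _) h2
    _ ≤ _ := key

theorem norm_zeta_reflect {δ y : ℝ} (hδ0 : 0 ≤ δ) (hδ1 : δ ≤ 1/4) :
    ‖riemannZeta (((1/2 - δ : ℝ) : ℂ) + y * Complex.I)‖ ≤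
      (Real.exp 1 * (|y| + 2) / (2 * Real.pi)) ^ δ * ‖riemannZeta (((1/2 + δ : ℝ) : ℂ) + y * Complex.I)‖ := by
  set s : ℂ := ((1/2 + δ : ℝ) : ℂ) + y * Complex.I with hs
  have hre : s.re = 1/2 + δ := by simp [hs]
  set t : ℂ := (starRingEnd ℂ) s with ht
  have htre : t.re = 1/2 + δ := by rw [ht, Complex.conj_re, hre]
  have h1 : ((1/2 - δ : ℝ) : ℂ) + y * Complex.I = 1 - t := by
    apply Complex.ext
    · rw [Complex.sub_re, htre]; simp; ring
    · rw [Complex.sub_im, ht, Complex.conj_im, hs]; simp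
  have h2 : riemannZeta (1 - t) = 2 * (2 * Real.pi) ^ (-t) * Complex.Gamma t * Complex.cos (Real.pi * t / 2) * riemannZeta t := by
    apply riemannZeta_one_sub
    · intro n hn
      rw [hn] at htre
      simp at htre
      linarith [Nat.cast_nonneg (α := ℝ) n]
    · intro h
      rw [h] at htre
      simp at htre
      linarith
  have h3 : riemannZeta (1 - t) = Xfac t * riemannZeta t := h2
  rw [h1, h3, norm_mul, ht, Xfac_conj, riemannZeta_conj, Complex.norm_conj, Complex.norm_conj]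
  gcongr
  exact norm_Xfac_le hδ0 (by linarith)

end Pool.Agent.LibZM
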