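import Mathlib
import Pool.Agent.LibZM.CS6

set_option autoImplicit false

namespace Pool.Agent.LibZM

open MeasureTheory Filter Topology
open scoped NNReal

lemma algebra_step {U S D Z A1 G E2 E3 : ℝ} {k r m : ℕ} (hU : 0 < U) (hS : 0 < S) (hD : 0 < D) (hG : 0 < G) (hE2 : 0 ≤ E2) (hE3 : 0 ≤ E3)
    (h : (U * (S * A1)) ^ (2 * k) ≤ (U * G) ^ (2 * k) * (Z ^ (2 * r) * (D * (1 + E2)) ^ m * (S * (1 + E3)) ^ k)) : 
    A1 ^ (2 * k) / (G ^ (2 * k) * (1 + E2) ^ m * (1 + E3) ^ k) * S ^ k / D ^ m ≤ Z ^ (2 * r) := by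
  rw [div_mul_eq_mul_div, div_div, div_le_iff₀ (by positivity)]
  have hp : 0 < U ^ (2 * k) * S ^ k := by positivity
  refine le_of_mul_le_mul_left ?_ hp
  calc U ^ (2 * k) * S ^ k * (A1 ^ (2 * k) * S ^ k) = (U * (S * A1)) ^ (2 * k) := by
        rw [mul_pow, mul_pow, two_mul, pow_add S k k]; ring
    _ ≤ (U * G) ^ (2 * k) * (Z ^ (2 * r) * (D * (1 + E2)) ^ m * (S * (1 + E3)) ^ k) := h
    _ = _ := by
        rw [mul_pow, mul_pow, mul_pow]; ring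

section

variable (r : ℕ)

/-- The constant in the comparison of the main average with `u ^ r`. -/
noncomputable def CW : ℝ := r * (r.factorial * (2 * Real.exp (3/2)))

lemma CW_nonneg : 0 ≤ CW r := by unfold CW; positivity

lemma W_ge {r : ℕ} (hr : 1 ≤ r) {u H η : ℝ} (hu : 0 ≤ u) (hH : 0 ≤ H) (hη : 0 ≤ η) (h : H ≤ η * u) : 
    u ^ r * (1 - CW r * η * (1 + η) ^ (r - 1)) ≤ u ^ r - CW r * H * (u + H) ^ (r - 1) := by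
  have hC := CW_nonneg r
  have h1 : CW r * H * (u + H) ^ (r - 1) ≤ CW r * (η * u) * ((1 + η) * u) ^ (r - 1) := by
    have : u + H ≤ (1 + η) * u := by linarith
    gcongr
  have h2 : CW r * (η * u) * ((1 + η) * u) ^ (r - 1) = u ^ r * (CW r * η * (1 + η) ^ (r - 1)) := by
    obtain ⟨s, rfl⟩ : ∃ s, r = s + 1 := ⟨r - 1, by omega⟩
    rw [Nat.add_sub_cancel, mul_pow, pow_succ]; ring
  linarith

end

/-- The tail constant. -/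
noncomputable def CT (r : ℕ) : ℝ := 3 ^ r * ((2 * r).factorial * (2 * Real.exp 3))

lemma CT_nonneg (r : ℕ) : 0 ≤ CT r := by unfold CT; positivity

/-- Abstract algebra for the passage from `local_lower_r` to the normalised inequality. -/
lemma loc_algebra {k r m : ℕ} (hr : 1 ≤ r) {u H R S D Z η1 η2 E1 E2 E3 : ℝ} (hu1 : 1 ≤ u) (hH : 0 ≤ H) (hR : 0 ≤ R)
    (hη1 : 0 ≤ η1) (hη2 : 0 ≤ η2) (hE1 : 0 ≤ E1) (hE2 : 0 ≤ E2) (hE3 : 0 ≤ E3) (hS1 : 1 ≤ S) (hD1 : 1 ≤ D) (hZ : 0 ≤ Z)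
    (hHu : H ≤ η1 * u) (hRu : R + 1 ≤ η2 * u) (hA : 0 < 1 - CW r * η1 * (1 + η1) ^ (r - 1) - E1)
    (hL : 0 ≤ (u ^ r - CW r * H * (u + H) ^ (r - 1)) * S - E1 → 
      ((u ^ r - CW r * H * (u + H) ^ (r - 1)) * S - E1) ^ (2 * k) ≤ 
        ((u + R + 1) ^ r) ^ (2 * k) * (Z ^ (2 * r) * (D + E2) ^ m * (S + E3) ^ k)) : 
    (1 - CW r * η1 * (1 + η1) ^ (r - 1) - E1) ^ (2 * k) / (((1 + η2) ^ r) ^ (2 * k) * (1 + E2) ^ m * (1 + E3) ^ k) * S ^ k / D ^ m ≤ Z ^ (2 * r) := by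
  have hu0 : 0 < u := by linarith
  have hS0 : 0 < S := by linarith
  have hD0 : 0 < D := by linarith
  have hW := W_ge hr hu0.le hH hη1 hHu
  have hur : 1 ≤ u ^ r := one_le_pow₀ hu1
  set A1 := 1 - CW r * η1 * (1 + η1) ^ (r - 1) - E1 with hA1def
  set W := u ^ r - CW r * H * (u + H) ^ (r - 1) with hWdef
  have hbase : u ^ r * (S * A1) ≤ W * S - E1 := by
    have k1 : u ^ r * (1 - CW r * η1 * (1 + η1) ^ (r - 1)) * S ≤ W * S := by gcongr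
    have k2 : E1 ≤ E1 * (u ^ r * S) := by
      have : 1 ≤ u ^ r * S := one_le_mul_of_one_le_of_one_le hur hS1
      nlinarith
    have k3 : u ^ r * (S * A1) = u ^ r * (1 - CW r * η1 * (1 + η1) ^ (r - 1)) * S - E1 * (u ^ r * S) := by
      rw [hA1def]; ring
    rw [k3]; linarith
  have hbase0 : 0 ≤ u ^ r * (S * A1) := by positivity
  have hL' := hL (hbase0.trans hbase)
  have hstep : (u ^ r * (S * A1)) ^ (2 * k) ≤ (u ^ r * (1 + η2) ^ r) ^ (2 * k) * (Z ^ (2 * r) * (D * (1 + E2)) ^ m * (S * (1 + E3)) ^ k) := by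
    have k1 : (u + R + 1) ^ r ≤ u ^ r * (1 + η2) ^ r := by
      rw [← mul_pow]
      have : u + R + 1 ≤ u * (1 + η2) := by linarith
      gcongr
    have k2 : D + E2 ≤ D * (1 + E2) := by nlinarith
    have k3 : S + E3 ≤ S * (1 + E3) := by nlinarith
    calc (u ^ r * (S * A1)) ^ (2 * k) ≤ (W * S - E1) ^ (2 * k) := by gcongr
      _ ≤ ((u + R + 1) ^ r) ^ (2 * k) * (Z ^ (2 * r) * (D + E2) ^ m * (S + E3) ^ k) := hL'
      _ ≤ (u ^ r * (1 + η2) ^ r) ^ (2 * k) * (Z ^ (2 * r) * (D * (1 + E2)) ^ m * (S * (1 + E3)) ^ k) := by gcongr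
  exact algebra_step (by positivity) hS0 hD0 (by positivity) hE2 hE3 hstep

/-- Abstract bound for the first error term. -/
lemma err1_algebra {r m : ℕ} {Ce Ct Ck X V e1 e1' W e2 s1 sQ T : ℝ} (hCe : 0 ≤ Ce) (hCt : 0 ≤ Ct) (hX0 : 0 ≤ X) (hV0 : 0 ≤ V) 
    (hW0 : 0 ≤ W) (he1 : 0 ≤ e1) (he2 : 0 ≤ e2) (hs1 : 0 ≤ s1) (hsQ : 0 ≤ sQ) (hT : 0 ≤ T)
    (h1 : X ≤ T) (h2 : V ≤ 4 * T ^ 2) (h3 : W ≤ 3 * T) (h4 : s1 ≤ T) (h5 : sQ ≤ Ck * T ^ 2) (h6 : e1 ≤ e1') : 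
    (Ce * (X * V ^ r * e1) + Ct * W ^ (2 * r) * e2) * (s1 ^ m * sQ) ≤ 
      (Ce * 4 ^ r * Ck) * (T ^ (2*r+m+3) * e1') + (Ct * 9 ^ r * Ck) * (T ^ (2*r+m+2) * e2) := by
  have a1 : Ce * (X * V ^ r * e1) ≤ Ce * (T * (4 * T ^ 2) ^ r * e1') := by gcongr
  have a2 : Ct * W ^ (2 * r) * e2 ≤ Ct * (3 * T) ^ (2 * r) * e2 := by gcongr
  have a3 : s1 ^ m * sQ ≤ T ^ m * (Ck * T ^ 2) := by gcongr
  have a4 : 0 ≤ Ce * (X * V ^ r * e1) + Ct * W ^ (2 * r) * e2 := by positivity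
  have a5 : 0 ≤ s1 ^ m * sQ := by positivity
  calc (Ce * (X * V ^ r * e1) + Ct * W ^ (2 * r) * e2) * (s1 ^ m * sQ) 
      ≤ (Ce * (T * (4 * T ^ 2) ^ r * e1') + Ct * (3 * T) ^ (2 * r) * e2) * (T ^ m * (Ck * T ^ 2)) := 
        mul_le_mul (add_le_add a1 a2) a3 a5 (a4.trans (add_le_add a1 a2))
    _ = _ := by
        have b1 : (4 * T ^ 2) ^ r = 4 ^ r * T ^ (2 * r) := by rw [mul_pow, ← pow_mul]
        have b2 : (3 * T) ^ (2 * r) = 9 ^ r * T ^ (2 * r) := by rw [mul_pow, pow_mul]; norm_num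
        have b3 : T ^ (2 * r + m + 3) = T * T ^ (2 * r) * T ^ m * T ^ 2 := by
          rw [pow_add, pow_add]; ring
        have b4 : T ^ (2 * r + m + 2) = T ^ (2 * r) * T ^ m * T ^ 2 := by
          rw [pow_add, pow_add]
        rw [b1, b2, b3, b4]; ring

/-- Local inequality with all parameters explicit. -/
theorem loc_r {k r m x X : ℕ} (hk : k = 2 * r + m) (hr : 1 ≤ r) (hx1 : 1 ≤ x) (hX1 : 1 ≤ X) 
    {T H R u η1 η2 E1 E2 E3 e1' : ℝ} (hT1 : 1 ≤ T) (hH2 : 2 ≤ H) (hHT : H ≤ T) (hvX : 32 * (X:ℝ) ≤ H ^ 2) (hXT : (X:ℝ) ≤ T) 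
    (hxT : (x:ℝ) ≤ T) (hxkT : ((x ^ k : ℕ) : ℝ) ≤ T)
    (hR : 0 ≤ R) (hu1 : 1 ≤ u) (hu : R ≤ u) (hu' : u ≤ T - R) 
    (hη1 : 0 ≤ η1) (hη2 : 0 ≤ η2) (hE10 : 0 ≤ E1) (hE20 : 0 ≤ E2) (hE30 : 0 ≤ E3) (hHu : H ≤ η1 * u) (hRu : R + 1 ≤ η2 * u) 
    (hA : 0 < 1 - CW r * η1 * (1 + η1) ^ (r - 1) - E1) 
    (hex1 : Real.exp (-H ^ 2 / (16 * (X:ℝ) ^ 2)) ≤ e1')
    (hex2 : Real.exp (-H ^ 2 / (16 * ((x ^ k : ℕ):ℝ) ^ 2)) ≤ e1')
    (hE1 : (Cerr r * 4 ^ r * Ctau (r + m/2)) * (T ^ (2*r+m+3) * e1') + (CT r * 9 ^ r * Ctau (r + m/2)) * (T ^ (2*r+m+2) * Real.exp (-R / H)) ≤ E1)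
    (hE2 : 3 * (T ^ (2*k+2) * e1') ≤ E2)
    (hE3 : (3 * Ctau (r + m/2) ^ 2) * (T ^ 6 * e1') ≤ E3) :
    (1 - CW r * η1 * (1 + η1) ^ (r - 1) - E1) ^ (2 * k) / (((1 + η2) ^ r) ^ (2 * k) * (1 + E2) ^ m * (1 + E3) ^ k) * 
      diag (tau r * halfTrunc x ^ m) X ^ k / diag (halfTrunc x ^ k) (x ^ k) ^ m ≤ 
      (∫ t in Set.Icc 0 T, ‖riemannZeta (crit t)‖ ^ k ∂(ProbabilityTheory.gaussianReal u (Real.toNNReal (H ^ 2)))) ^ (2 * r) := by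
  have hH0 : 0 < H := by linarith
  have hT0 : 0 < T := by linarith
  have he1' : 0 ≤ e1' := (Real.exp_pos _).le.trans hex1
  have hvc : ((Real.toNNReal (H ^ 2) : ℝ≥0) : ℝ) = H ^ 2 := Real.coe_toNNReal _ (by positivity)
  obtain ⟨v, hv⟩ : ∃ v : ℝ≥0, v = Real.toNNReal (H ^ 2) := ⟨_, rfl⟩
  rw [← hv] at hvc ⊢
  have hv4 : 4 ≤ v := by
    rw [← NNReal.coe_le_coe, hvc]
    have : (4:ℝ) ≤ H ^ 2 := by nlinarith
    exact_mod_cast this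
  have hsv : √(v:ℝ) = H := by rw [hvc, Real.sqrt_sq hH0.le]
  have hb0 : ∀ n, 0 ≤ halfTrunc x n := halfTrunc_nonneg x
  have hs1n : 0 ≤ ∑ n ∈ Finset.Icc 1 x, halfTrunc x n := Finset.sum_nonneg fun n _ => hb0 n
  have hs1T : ∑ n ∈ Finset.Icc 1 x, halfTrunc x n ≤ T := (sum_halfTrunc_le x).trans hxT
  have hsQn : 0 ≤ ∑ q ∈ Finset.Icc 1 X, (tau r * halfTrunc x ^ m) q := 
    Finset.sum_nonneg fun n _ => mul_apply_nonneg (fun n => tau_nonneg (Nat.cast_nonneg r) n) (pow_nonneg_af hb0 m) n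
  have hCtn := Ctau_nonneg (κ := r + m/2) (by positivity)
  have hsQT : ∑ q ∈ Finset.Icc 1 X, (tau r * halfTrunc x ^ m) q ≤ Ctau (r + m/2) * T ^ 2 := by
    refine (sum_N_le rfl x X).trans ?_
    gcongr
  have hS1 : 1 ≤ diag (tau r * halfTrunc x ^ m) X := diagN_ge_one hx1 hX1 r m
  have hD1 : 1 ≤ diag (halfTrunc x ^ k) (x ^ k) := diagD_ge_one hx1 k
  have huT : u ≤ T := by linarith
  have hcoef : (r * (r.factorial * (2 * Real.exp (3/2))) : ℝ) = CW r := rfl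
  have hct : (3 ^ r * ((2 * r).factorial * (2 * Real.exp 3)) : ℝ) = CT r := rfl
  have hL := local_lower_r (b := halfTrunc x) (x := x) hb0 (halfTrunc_supp x) hr hk hX1 hv4 (by rw [hvc]; exact hvX) hR hu hu'
      (T := T) (e₁ := E1) (e₂ := E2) (e₃ := E3)
  rw [hsv, hvc, hcoef, hct] at hL
  have hZ0 : 0 ≤ ∫ t in Set.Icc 0 T, ‖riemannZeta (crit t)‖ ^ k ∂(ProbabilityTheory.gaussianReal u v) := integral_nonneg fun t => by positivity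
  have h1 : (Cerr r * (X * (1 + H ^ 2 + u + H) ^ r * Real.exp (-H ^ 2 / (16 * (X:ℝ) ^ 2))) + 
        CT r * (1 + u + H) ^ (2 * r) * Real.exp (-R / H)) * 
        ((∑ n ∈ Finset.Icc 1 x, halfTrunc x n) ^ m * (∑ q ∈ Finset.Icc 1 X, (tau r * halfTrunc x ^ m) q)) ≤ E1 := by
    refine le_trans ?_ hE1
    exact err1_algebra (Cerr_nonneg r) (CT_nonneg r) (Nat.cast_nonneg X) (by positivity) (by positivity) (Real.exp_pos _).le (Real.exp_pos _).le 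
      hs1n hsQn hT0.le hXT (by nlinarith) (by linarith) hs1T hsQT hex1
  have h2 : 3 * ((x ^ k : ℕ):ℝ) ^ 2 * Real.exp (- H ^ 2 / (16 * ((x ^ k : ℕ):ℝ) ^ 2)) * (∑ n ∈ Finset.Icc 1 x, halfTrunc x n) ^ (2 * k) ≤ E2 := by
    refine le_trans ?_ hE2
    calc 3 * ((x ^ k : ℕ):ℝ) ^ 2 * Real.exp (- H ^ 2 / (16 * ((x ^ k : ℕ):ℝ) ^ 2)) * (∑ n ∈ Finset.Icc 1 x, halfTrunc x n) ^ (2 * k) 
        ≤ 3 * T ^ 2 * e1' * T ^ (2 * k) := by gcongr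
      _ = _ := by rw [pow_add]; ring
  have h3 : 3 * (X:ℝ) ^ 2 * Real.exp (- H ^ 2 / (16 * (X:ℝ) ^ 2)) * (∑ q ∈ Finset.Icc 1 X, (tau r * halfTrunc x ^ m) q) ^ 2 ≤ E3 := by
    refine le_trans ?_ hE3
    calc 3 * (X:ℝ) ^ 2 * Real.exp (- H ^ 2 / (16 * (X:ℝ) ^ 2)) * (∑ q ∈ Finset.Icc 1 X, (tau r * halfTrunc x ^ m) q) ^ 2 
        ≤ 3 * T ^ 2 * e1' * (Ctau (r + m/2) * T ^ 2) ^ 2 := by gcongr
      _ = _ := by ring
  exact loc_algebra hr hu1 hH0.le hR hη1 hη2 hE10 hE20 hE30 hS1 hD1 hZ0 hHu hRu hA (hL h1 h2 h3)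

end Pool.Agent.LibZM
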