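import Mathlib
import Pool.Agent.LibZM.CS7

set_option autoImplicit false

namespace Pool.Agent.LibZM

open MeasureTheory Filter Topology
open scoped NNReal

/-- The normalising factor. -/
noncomputable def Afac (r m k : ℕ) (η1 η2 E1 E2 E3 : ℝ) : ℝ := 
  (1 - CW r * η1 * (1 + η1) ^ (r - 1) - E1) ^ (2 * k) / (((1 + η2) ^ r) ^ (2 * k) * (1 + E2) ^ m * (1 + E3) ^ k)

lemma tendsto_Afac {r m k : ℕ} {η1 η2 E1 E2 E3 : ℝ → ℝ} (l1 : Tendsto E1 atTop (𝓝 0)) (l2 : Tendsto E2 atTop (𝓝 0)) 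
    (l3 : Tendsto E3 atTop (𝓝 0)) (l4 : Tendsto η1 atTop (𝓝 0)) (l5 : Tendsto η2 atTop (𝓝 0)) : 
    Tendsto (fun T => 1 - CW r * η1 T * (1 + η1 T) ^ (r - 1) - E1 T) atTop (𝓝 1) ∧ 
    Tendsto (fun T => Afac r m k (η1 T) (η2 T) (E1 T) (E2 T) (E3 T)) atTop (𝓝 1) := by
  have l6 : Tendsto (fun T => 1 - CW r * η1 T * (1 + η1 T) ^ (r - 1) - E1 T) atTop (𝓝 1) := by
    have a1 : Tendsto (fun T => (1 + η1 T) ^ (r - 1)) atTop (𝓝 ((1 + 0) ^ (r - 1))) := (l4.const_add 1).pow _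
    have a2 := ((l4.const_mul (CW r)).mul a1)
    have a3 := (a2.const_sub 1).sub l1
    rw [mul_zero, zero_mul, sub_zero, sub_zero] at a3
    exact a3
  refine ⟨l6, ?_⟩
  have l7 : Tendsto (fun T => (1 + η2 T) ^ r) atTop (𝓝 1) := by
    have a1 : Tendsto (fun T => (1 + η2 T) ^ r) atTop (𝓝 ((1 + 0) ^ r)) := (l5.const_add 1).pow _
    rw [add_zero, one_pow] at a1
    exact a1
  have a1 : Tendsto (fun T => (1 - CW r * η1 T * (1 + η1 T) ^ (r - 1) - E1 T) ^ (2 * k)) atTop (𝓝 (1 ^ (2 * k))) := l6.pow _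
  have a2 : Tendsto (fun T => ((1 + η2 T) ^ r) ^ (2 * k)) atTop (𝓝 (1 ^ (2 * k))) := l7.pow _
  have a3 : Tendsto (fun T => (1 + E2 T) ^ m) atTop (𝓝 ((1 + 0) ^ m)) := (l2.const_add 1).pow _
  have a4 : Tendsto (fun T => (1 + E3 T) ^ k) atTop (𝓝 ((1 + 0) ^ k)) := (l3.const_add 1).pow _
  have a5 := a1.div ((a2.mul a3).mul a4) (by norm_num)
  simp only [one_pow, add_zero, mul_one, div_one] at a5
  exact a5

/-- Core inequality for fixed parameters, `T` large. -/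
theorem core_r {k r m : ℕ} (hk : k = 2 * r + m) (hr : 1 ≤ r) {θ A0 : ℝ} (hθ0 : 0 < θ) (hθ1 : θ < 1) (hA0 : 0 < A0) (hA1 : A0 < 1) : 
    ∀ᶠ T : ℝ in atTop, θ * T * (A0 * diag (tau r * halfTrunc ⌊(T ^ θ) ^ (1/(k:ℝ))⌋₊ ^ m) ⌊T ^ θ⌋₊ ^ k / 
        diag (halfTrunc ⌊(T ^ θ) ^ (1/(k:ℝ))⌋₊ ^ k) (⌊(T ^ θ) ^ (1/(k:ℝ))⌋₊ ^ k) ^ m) ^ (1 / (2 * (r:ℝ))) ≤ 
      ∫ t in Set.Icc 0 T, ‖riemannZeta (crit t)‖ ^ k := by
  obtain ⟨ε, hε⟩ : ∃ ε : ℝ, ε = (1 - θ) / 2 := ⟨_, rfl⟩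
  have hε0 : 0 < ε := by rw [hε]; linarith
  have hk1 : 1 ≤ k := by omega
  have hkR : (0:ℝ) < k := by exact_mod_cast hk1
  -- error functions
  set C1 : ℝ := Cerr r * 4 ^ r * Ctau (r + m/2) with hC1
  set C2 : ℝ := CT r * 9 ^ r * Ctau (r + m/2) with hC2
  set C3 : ℝ := 3 * Ctau (r + m/2) ^ 2 with hC3
  have hCt := Ctau_nonneg (κ := r + m/2) (by positivity)
  have hC1n : 0 ≤ C1 := by have := Cerr_nonneg r; positivity
  have hC2n : 0 ≤ C2 := by have := CT_nonneg r; positivity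
  have hC3n : 0 ≤ C3 := by positivity
  set E1 : ℝ → ℝ := fun T => C1 * (T ^ (2*r+m+3) * Real.exp (-(1/16 * T ^ (2*ε)))) + C2 * (T ^ (2*r+m+2) * Real.exp (-(1 * T ^ (ε/2)))) with hE1
  set E2 : ℝ → ℝ := fun T => 3 * (T ^ (2*k+2) * Real.exp (-(1/16 * T ^ (2*ε)))) with hE2
  set E3 : ℝ → ℝ := fun T => C3 * (T ^ 6 * Real.exp (-(1/16 * T ^ (2*ε)))) with hE3
  set η1 : ℝ → ℝ := fun T => ε⁻¹ * T ^ (-ε) with hη1
  set η2 : ℝ → ℝ := fun T => ε⁻¹ * (T ^ (-(ε/2)) + T ^ (-(1:ℝ))) with hη2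
  have l1 : Tendsto E1 atTop (𝓝 0) := by
    have a1 := (lim_exp_nat (by norm_num : (0:ℝ) < 1/16) (by linarith : 0 < 2*ε) (2*r+m+3)).const_mul C1
    have a2 := (lim_exp_nat (by norm_num : (0:ℝ) < 1) (by linarith : 0 < ε/2) (2*r+m+2)).const_mul C2
    have := a1.add a2
    rw [mul_zero, mul_zero, add_zero] at this
    exact this
  have l2 : Tendsto E2 atTop (𝓝 0) := by
    have a1 := (lim_exp_nat (by norm_num : (0:ℝ) < 1/16) (by linarith : 0 < 2*ε) (2*k+2)).const_mul 3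
    rw [mul_zero] at a1
    exact a1
  have l3 : Tendsto E3 atTop (𝓝 0) := by
    have a1 := (lim_exp_nat (by norm_num : (0:ℝ) < 1/16) (by linarith : 0 < 2*ε) 6).const_mul C3
    rw [mul_zero] at a1
    exact a1
  have l4 : Tendsto η1 atTop (𝓝 0) := by
    have a1 := (tendsto_rpow_neg_atTop hε0).const_mul ε⁻¹
    rw [mul_zero] at a1
    exact a1
  have l5 : Tendsto η2 atTop (𝓝 0) := by
    have a1 := ((tendsto_rpow_neg_atTop (by linarith : 0 < ε/2)).add (tendsto_rpow_neg_atTop one_pos)).const_mul ε⁻¹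
    rw [add_zero, mul_zero] at a1
    exact a1
  obtain ⟨l6, l8⟩ := tendsto_Afac (r := r) (m := m) (k := k) l1 l2 l3 l4 l5
  have m1 := l8.eventually_const_lt hA1
  have m2 := l6.eventually_const_lt one_pos
  have m3 : ∀ᶠ T : ℝ in atTop, 2 ≤ T ^ ((1 + θ) / 2) := 
    (tendsto_rpow_atTop (by linarith : 0 < (1 + θ) / 2)).eventually_ge_atTop 2
  have m4 : ∀ᶠ T : ℝ in atTop, T ^ (-(ε/2)) ≤ ε := 
    ((tendsto_rpow_neg_atTop (by linarith : 0 < ε/2)).eventually_lt_const hε0).mono fun T h => h.le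
  filter_upwards [m1, m2, m3, m4, eventually_ge_atTop 32, eventually_ge_atTop ε⁻¹] with T h1 h2 h3 h4 hT32 hTε
  have hT1 : 1 ≤ T := by linarith
  have hT0 : 0 < T := by linarith
  have hεT : 1 ≤ ε * T := by
    rw [← mul_inv_cancel₀ hε0.ne']; gcongr
  obtain ⟨Y, hY⟩ : ∃ Y : ℝ, Y = T ^ θ := ⟨_, rfl⟩
  rw [← hY]
  have hY1 : 1 < Y := by rw [hY]; exact Real.one_lt_rpow (by linarith) hθ0
  have hY0 : 0 < Y := by linarith
  have hYT : Y ≤ T := by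
    calc Y = T ^ θ := hY
      _ ≤ T ^ (1:ℝ) := Real.rpow_le_rpow_of_exponent_le hT1 hθ1.le
      _ = T := Real.rpow_one T
  obtain ⟨X, hX⟩ : ∃ X : ℕ, X = ⌊Y⌋₊ := ⟨_, rfl⟩
  rw [← hX]
  have hX1 : 1 ≤ X := by rw [hX]; exact Nat.le_floor (by simpa using hY1.le)
  have hX0 : (0:ℝ) < X := by exact_mod_cast hX1
  have hXY : (X:ℝ) ≤ Y := by rw [hX]; exact Nat.floor_le hY0.le
  have hXT : (X:ℝ) ≤ T := hXY.trans hYT
  have hxk0 := floor_root_pow_le hY1 hk1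
  have hx10 : 1 ≤ ⌊Y ^ (1/(k:ℝ))⌋₊ := Nat.le_floor (by simpa using Real.one_le_rpow hY1.le (by positivity : 0 ≤ 1/(k:ℝ)))
  obtain ⟨x, hx⟩ : ∃ x : ℕ, x = ⌊Y ^ (1/(k:ℝ))⌋₊ := ⟨_, rfl⟩
  rw [← hx] at hxk0 hx10 ⊢
  have hxT : (x:ℝ) ≤ T := by
    refine le_trans ?_ (hxk0.trans hYT)
    exact_mod_cast Nat.le_self_pow (by omega) x
  have hxk1 : (0:ℝ) < ((x ^ k : ℕ):ℝ) := by exact_mod_cast Nat.one_le_pow _ _ hx10
  obtain ⟨H, hH⟩ : ∃ H : ℝ, H = T ^ ((1 + θ) / 2) := ⟨_, rfl⟩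
  rw [← hH] at h3
  have hH0 : 0 < H := by linarith
  have hHT : H ≤ T := by
    calc H ≤ T ^ (1:ℝ) := by rw [hH]; exact Real.rpow_le_rpow_of_exponent_le hT1 (by linarith)
      _ = T := Real.rpow_one T
  have hH2 : H ^ 2 = T ^ (2 * ε) * Y ^ 2 := by
    rw [hH, hY, ← Real.rpow_natCast, ← Real.rpow_natCast, ← Real.rpow_mul hT0.le, ← Real.rpow_mul hT0.le, ← Real.rpow_add hT0]
    congr 1; rw [hε]; push_cast; ring
  have hH2' : H ^ 2 = T * Y := by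
    rw [hH, hY, ← Real.rpow_natCast, ← Real.rpow_mul hT0.le]
    nth_rewrite 2 [← Real.rpow_one T]
    rw [← Real.rpow_add hT0]
    congr 1; push_cast; ring
  have hvX : 32 * (X:ℝ) ≤ H ^ 2 := by
    rw [hH2']
    exact mul_le_mul hT32 hXY (Nat.cast_nonneg X) hT0.le
  obtain ⟨R, hR⟩ : ∃ R : ℝ, R = T ^ (1 - ε/2) := ⟨_, rfl⟩
  have hR0 : 0 < R := by rw [hR]; exact Real.rpow_pos_of_pos hT0 _
  have hRT : R = T * T ^ (-(ε/2)) := by
    rw [hR]; nth_rewrite 2 [← Real.rpow_one T]; rw [← Real.rpow_add hT0]; congr 1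
  have hRε : R ≤ ε * T := by rw [hRT, mul_comm]; gcongr
  have hRH : R / H = T ^ (ε/2) := by
    rw [hR, hH, ← Real.rpow_sub hT0]; congr 1; rw [hε]; ring
  have hHη : H = η1 T * (ε * T) := by
    simp only [hη1]
    rw [mul_mul_mul_comm, inv_mul_cancel₀ hε0.ne', one_mul]
    nth_rewrite 2 [← Real.rpow_one T]
    rw [← Real.rpow_add hT0, hH]; congr 1; rw [hε]; ring
  have hRη : R + 1 = η2 T * (ε * T) := by
    simp only [hη2]
    rw [mul_mul_mul_comm, inv_mul_cancel₀ hε0.ne', one_mul, add_mul, hRT, Real.rpow_neg_one, inv_mul_cancel₀ hT0.ne']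
    ring
  have hex1 : Real.exp (-H ^ 2 / (16 * (X:ℝ) ^ 2)) ≤ Real.exp (-(1/16 * T ^ (2*ε))) := by
    apply Real.exp_le_exp.mpr
    rw [neg_div, neg_le_neg_iff, hH2, le_div_iff₀ (by positivity)]
    have h5 : (X:ℝ) ^ 2 ≤ Y ^ 2 := by gcongr
    have h6 : 0 ≤ T ^ (2*ε) := by positivity
    nlinarith
  have hex2 : Real.exp (-H ^ 2 / (16 * ((x ^ k : ℕ):ℝ) ^ 2)) ≤ Real.exp (-(1/16 * T ^ (2*ε))) := by
    apply Real.exp_le_exp.mpr
    rw [neg_div, neg_le_neg_iff, hH2, le_div_iff₀ (by positivity)]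
    have h5 : ((x ^ k : ℕ):ℝ) ^ 2 ≤ Y ^ 2 := by gcongr
    have h6 : 0 ≤ T ^ (2*ε) := by positivity
    nlinarith
  have hex3 : Real.exp (-R / H) = Real.exp (-(1 * T ^ (ε/2))) := by rw [neg_div, hRH, one_mul]
  have hE1n : 0 ≤ E1 T := by simp only [hE1]; positivity
  have hE2n : 0 ≤ E2 T := by simp only [hE2]; positivity
  have hE3n : 0 ≤ E3 T := by simp only [hE3]; positivity
  have hη1n : 0 ≤ η1 T := by simp only [hη1]; positivity
  have hη2n : 0 ≤ η2 T := by simp only [hη2]; positivity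
  have hS1 : 1 ≤ diag (tau r * halfTrunc x ^ m) X := diagN_ge_one hx10 hX1 r m
  have hD1 : 1 ≤ diag (halfTrunc x ^ k) (x ^ k) := diagD_ge_one hx10 k
  have hrr : (0:ℝ) < r := by exact_mod_cast hr
  have hloc : ∀ u, ε * T ≤ u → u ≤ T - ε * T → 
      (A0 * diag (tau r * halfTrunc x ^ m) X ^ k / diag (halfTrunc x ^ k) (x ^ k) ^ m) ^ (1 / (2 * (r:ℝ))) ≤ 
      ∫ t in Set.Icc 0 T, ‖riemannZeta (crit t)‖ ^ k ∂(ProbabilityTheory.gaussianReal u (Real.toNNReal (H ^ 2))) := by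
    intro u hu hu'
    have hu1 : 1 ≤ u := hεT.trans hu
    have hHu : H ≤ η1 T * u := by
      calc H = η1 T * (ε * T) := hHη
        _ ≤ η1 T * u := by gcongr
    have hRu : R + 1 ≤ η2 T * u := by
      calc R + 1 = η2 T * (ε * T) := hRη
        _ ≤ η2 T * u := by gcongr
    have hfin := loc_r hk hr hx10 hX1 hT1 h3 hHT hvX hXT hxT (hxk0.trans hYT) hR0.le hu1 (by linarith) (by linarith) hη1n hη2n hE1n hE2n hE3n hHu hRu 
      h2 hex1 hex2 (by rw [hex3]) le_rfl le_rfl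
    have hZ0 : 0 ≤ ∫ t in Set.Icc 0 T, ‖riemannZeta (crit t)‖ ^ k ∂(ProbabilityTheory.gaussianReal u (Real.toNNReal (H ^ 2))) := 
      integral_nonneg fun t => by positivity
    obtain ⟨Z, hZ⟩ : ∃ Z : ℝ, Z = ∫ t in Set.Icc 0 T, ‖riemannZeta (crit t)‖ ^ k ∂(ProbabilityTheory.gaussianReal u (Real.toNNReal (H ^ 2))) := ⟨_, rfl⟩
    rw [← hZ] at hfin hZ0 ⊢
    obtain ⟨S, hS⟩ : ∃ S : ℝ, S = diag (tau r * halfTrunc x ^ m) X := ⟨_, rfl⟩
    obtain ⟨D, hD⟩ : ∃ D : ℝ, D = diag (halfTrunc x ^ k) (x ^ k) := ⟨_, rfl⟩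
    rw [← hS] at hfin hS1 ⊢
    rw [← hD] at hfin hD1 ⊢
    have hfin2 : A0 * S ^ k / D ^ m ≤ Z ^ (2 * r) := by
      refine le_trans ?_ hfin
      have : A0 ≤ Afac r m k (η1 T) (η2 T) (E1 T) (E2 T) (E3 T) := h1.le
      unfold Afac at this
      gcongr
    calc (A0 * S ^ k / D ^ m) ^ (1 / (2 * (r:ℝ))) ≤ (Z ^ (2 * r)) ^ (1 / (2 * (r:ℝ))) := by
          apply Real.rpow_le_rpow (by positivity) hfin2 (by positivity)
      _ = Z := by
          rw [← Real.rpow_natCast, ← Real.rpow_mul hZ0]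
          have : ((2 * r : ℕ) : ℝ) * (1 / (2 * (r:ℝ))) = 1 := by push_cast; field_simp
          rw [this, Real.rpow_one]
  have hmom := moment_ge (v := Real.toNNReal (H ^ 2)) (by
      have : (0:ℝ) < H ^ 2 := by positivity
      exact (Real.toNNReal_pos.mpr this).ne') (h := fun t => ‖riemannZeta (crit t)‖ ^ k) 
      (continuous_zeta_crit.norm.pow _) (fun t => by positivity) (T := T) (R := ε * T) 
      (c := (A0 * diag (tau r * halfTrunc x ^ m) X ^ k / diag (halfTrunc x ^ k) (x ^ k) ^ m) ^ (1 / (2 * (r:ℝ)))) (by rw [hε]; nlinarith) hloc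
  refine le_trans (le_of_eq ?_) hmom
  have hTR : T - 2 * (ε * T) = θ * T := by rw [hε]; ring
  rw [hTR]

/-- Final assembly: the lower bound in terms of the two limiting volumes. -/
theorem moment_lower_r {k r m : ℕ} (hk : k = 2 * r + m) (hr : 1 ≤ r) (hN : 0 < VolC (alphaN r m) (thetaN k m)) 
    (hD : 0 < VolC (alphaD k) (thetaD k)) {c : ℝ} 
    (hc : c < Aconst ((k:ℝ)/2) * (VolC (alphaN r m) (thetaN k m) ^ k / VolC (alphaD k) (thetaD k) ^ m) ^ (1 / (2 * (r:ℝ)))) :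
    ∀ᶠ T : ℝ in atTop, c * (T * (Real.log T) ^ (((k:ℝ)/2) ^ 2)) ≤ 
      ∫ t in Set.Icc 0 T, ‖riemannZeta (crit t)‖ ^ k := by
  obtain ⟨a, ha⟩ : ∃ a : ℝ, a = Aconst ((k:ℝ)/2) := ⟨_, rfl⟩
  obtain ⟨N, hNe⟩ : ∃ N : ℝ, N = VolC (alphaN r m) (thetaN k m) := ⟨_, rfl⟩
  obtain ⟨D, hDe⟩ : ∃ D : ℝ, D = VolC (alphaD k) (thetaD k) := ⟨_, rfl⟩
  rw [← ha, ← hNe, ← hDe] at hc
  rw [← hNe] at hN
  rw [← hDe] at hD
  have hk1 : 1 ≤ k := by omega
  have hkR : (0:ℝ) < k := by exact_mod_cast hk1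
  have hrr : (0:ℝ) < r := by exact_mod_cast hr
  have ha0 : 0 < a := by rw [ha]; exact Aconst_pos (by positivity)
  set β : ℝ := 1 / (2 * (r:ℝ)) with hβ
  have hβ0 : 0 < β := by positivity
  set α : ℝ := ((k:ℝ)/2) ^ 2 with hα
  have hα0 : 0 < α := by positivity
  have hkr : ((k:ℝ) - m) * β = 1 := by rw [hβ, hk]; push_cast; field_simp; ring
  -- target as a power
  have htgt : ((a * N) ^ k / (a * D) ^ m) ^ β = a * (N ^ k / D ^ m) ^ β := by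
    have e1 : (a * N) ^ k / (a * D) ^ m = (a ^ k / a ^ m) * (N ^ k / D ^ m) := by
      rw [mul_pow, mul_pow]; field_simp
    rw [e1, Real.mul_rpow (by positivity) (by positivity)]
    congr 1
    rw [← Real.rpow_natCast, ← Real.rpow_natCast, ← Real.rpow_sub ha0, ← Real.rpow_mul ha0.le, hkr, Real.rpow_one]
  rw [← htgt] at hc
  -- choose the parameter
  set f : ℝ → ℝ := fun l => l * l ^ α * (l * (l * (a * N)) ^ k / (a * D / l) ^ m) ^ β with hf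
  obtain ⟨l, hl0, hl1, hl⟩ : ∃ l : ℝ, 0 < l ∧ l < 1 ∧ c < f l := by
    have hcont : Tendsto f (𝓝[<] 1) (𝓝 (f 1)) := by
      apply Tendsto.mono_left _ nhdsWithin_le_nhds
      apply ContinuousAt.tendsto
      have h1 : ContinuousAt (fun l : ℝ => l ^ α) 1 := Real.continuousAt_rpow_const _ _ (Or.inl one_ne_zero)
      have h2 : ContinuousAt (fun l : ℝ => l * (l * (a * N)) ^ k / (a * D / l) ^ m) 1 := by
        have : (a * D / 1) ^ m ≠ 0 := by positivity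
        apply ContinuousAt.div
        · fun_prop
        · apply ContinuousAt.pow
          exact continuousAt_const.div continuousAt_id one_ne_zero
        · exact this
      have h3 : ContinuousAt (fun l : ℝ => (l * (l * (a * N)) ^ k / (a * D / l) ^ m) ^ β) 1 := by
        apply h2.rpow_const
        right; exact hβ0.le
      exact (continuousAt_id.mul h1).mul h3
    have hf1 : f 1 = ((a * N) ^ k / (a * D) ^ m) ^ β := by
      simp only [hf]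
      rw [Real.one_rpow]; simp
    rw [← hf1] at hc
    have h2 := hcont.eventually_const_lt hc
    have h3 : ∀ᶠ l : ℝ in 𝓝[<] 1, 0 < l := by
      apply Filter.Eventually.filter_mono nhdsWithin_le_nhds
      exact lt_mem_nhds one_pos
    obtain ⟨l, hl, hl0, hl1⟩ := (h2.and (h3.and self_mem_nhdsWithin)).exists
    exact ⟨l, hl0, hl1, hl⟩
  have haN : 0 < a * N := by positivity
  have haD : 0 < a * D := by positivity
  have e1 : l * (a * N) < Aconst ((k:ℝ)/2) * VolC (alphaN r m) (thetaN k m) := by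
    rw [← ha, ← hNe]; nlinarith
  have e2 : Aconst ((k:ℝ)/2) * VolC (alphaD k) (thetaD k) < a * D / l := by
    rw [← ha, ← hDe, lt_div_iff₀ hl0]; nlinarith
  have hlT : Tendsto (fun T : ℝ => T ^ l) atTop atTop := tendsto_rpow_atTop hl0
  filter_upwards [core_r hk hr hl0 hl1 hl0 hl1, hlT.eventually (diagN_lower hk hr e1), hlT.eventually (diagD_upper hk1 e2), 
    eventually_gt_atTop 1] with T h1 h2 h3 hT
  have hT0 : 0 < T := by linarith
  have hlog : 0 < Real.log T := Real.log_pos hT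
  refine le_trans ?_ h1
  rw [Real.log_rpow hT0, Real.mul_rpow hl0.le hlog.le] at h2 h3
  obtain ⟨S, hS⟩ : ∃ S : ℝ, S = diag (tau r * halfTrunc ⌊(T ^ l) ^ (1/(k:ℝ))⌋₊ ^ m) ⌊T ^ l⌋₊ := ⟨_, rfl⟩
  obtain ⟨Dd, hDd⟩ : ∃ Dd : ℝ, Dd = diag (halfTrunc ⌊(T ^ l) ^ (1/(k:ℝ))⌋₊ ^ k) (⌊(T ^ l) ^ (1/(k:ℝ))⌋₊ ^ k) := ⟨_, rfl⟩
  rw [← hS] at h2 ⊢
  rw [← hDd] at h3 ⊢
  obtain ⟨Λ, hΛ⟩ : ∃ Λ : ℝ, Λ = l ^ α * (Real.log T) ^ α := ⟨_, rfl⟩
  rw [← hα, ← hΛ] at h2 h3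
  have hΛ0 : 0 < Λ := by rw [hΛ]; positivity
  have hDd0 : 0 < Dd := by
    rw [hDd]
    have hx10 : 1 ≤ ⌊(T ^ l) ^ (1/(k:ℝ))⌋₊ := Nat.le_floor (by
      simpa using Real.one_le_rpow (Real.one_le_rpow hT.le hl0.le) (by positivity : 0 ≤ 1/(k:ℝ)))
    linarith [diagD_ge_one hx10 k]
  have hS0 : 0 < S := lt_of_lt_of_le (by positivity) h2
  have key : (l * (l * (a * N)) ^ k / (a * D / l) ^ m) ^ β * Λ ≤ (l * S ^ k / Dd ^ m) ^ β := by
    have e3 : l * (l * (a * N)) ^ k / (a * D / l) ^ m * (Λ ^ k / Λ ^ m) ≤ l * S ^ k / Dd ^ m := by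
      calc l * (l * (a * N)) ^ k / (a * D / l) ^ m * (Λ ^ k / Λ ^ m) = l * (l * (a * N) * Λ) ^ k / (a * D / l * Λ) ^ m := by
            rw [mul_pow (l * (a * N)), mul_pow (a * D / l)]
            field_simp
        _ ≤ l * S ^ k / Dd ^ m := by gcongr
    calc (l * (l * (a * N)) ^ k / (a * D / l) ^ m) ^ β * Λ = (l * (l * (a * N)) ^ k / (a * D / l) ^ m * (Λ ^ k / Λ ^ m)) ^ β := by
          rw [Real.mul_rpow (by positivity) (by positivity)]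
          congr 1
          rw [← Real.rpow_natCast Λ k, ← Real.rpow_natCast Λ m, ← Real.rpow_sub hΛ0, ← Real.rpow_mul hΛ0.le, hkr, Real.rpow_one]
      _ ≤ _ := by
          apply Real.rpow_le_rpow (by positivity) e3 hβ0.le
  calc c * (T * (Real.log T) ^ α) ≤ f l * (T * (Real.log T) ^ α) := by
        apply mul_le_mul_of_nonneg_right hl.le; positivity
    _ = l * T * ((l * (l * (a * N)) ^ k / (a * D / l) ^ m) ^ β * Λ) := by
        simp only [hf]; rw [hΛ]; ring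
    _ ≤ l * T * (l * S ^ k / Dd ^ m) ^ β := by
        have : 0 ≤ l * T := by positivity
        exact mul_le_mul_of_nonneg_left key this

end Pool.Agent.LibZM
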