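import Mathlib
import Pool.Agent.LibZM.CS8

set_option autoImplicit false

namespace Pool.Agent.LibZM

open MeasureTheory Filter Topology Finset

/-- Nonnegative matrices with bounded row sums, column sums and total. -/
def region {n : ℕ} (θ : Fin n → ℝ) : Set (Fin n × Fin n → ℝ) :=
  {x | (∀ p, 0 < x p) ∧ (∀ i, ∑ j, x (i, j) ≤ θ i) ∧ (∀ j, ∑ i, x (i, j) ≤ θ j) ∧ ∑ p, x p ≤ 1}

lemma prod_boxI {ι : Type*} [Fintype ι] (θ f : ι → ℝ) [Decidable (∀ i, f i ≤ θ i)] : 
    ∏ i, boxI (θ i) (f i) = if ∀ i, f i ≤ θ i then 1 else 0 := by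
  classical
  split_ifs with h
  · apply prod_eq_one
    intro i _
    unfold boxI
    rw [if_pos (h i)]
  · push Not at h
    obtain ⟨i, hi⟩ := h
    apply prod_eq_zero (mem_univ i)
    unfold boxI
    rw [if_neg (not_le.mpr hi)]

lemma measurableSet_region {n : ℕ} (θ : Fin n → ℝ) : MeasurableSet (region θ) := by
  unfold region
  have h1 : MeasurableSet {x : Fin n × Fin n → ℝ | ∀ p, 0 < x p} := by
    rw [Set.setOf_forall]
    exact MeasurableSet.iInter fun p => measurableSet_lt measurable_const (measurable_pi_apply p)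
  have h2 : MeasurableSet {x : Fin n × Fin n → ℝ | ∀ i, ∑ j, x (i, j) ≤ θ i} := by
    rw [Set.setOf_forall]
    exact MeasurableSet.iInter fun i => measurableSet_le (by fun_prop) measurable_const
  have h3 : MeasurableSet {x : Fin n × Fin n → ℝ | ∀ j, ∑ i, x (i, j) ≤ θ j} := by
    rw [Set.setOf_forall]
    exact MeasurableSet.iInter fun i => measurableSet_le (by fun_prop) measurable_const
  have h4 : MeasurableSet {x : Fin n × Fin n → ℝ | ∑ p, x p ≤ 1} := measurableSet_le (by fun_prop) measurable_const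
  exact h1.inter (h2.inter (h3.inter h4))

lemma VolC_eq {n : ℕ} (α θ : Fin n → ℝ) : 
    VolC α θ = ∫ x in region θ, ∏ p : Fin n × Fin n, x p ^ (α p.1 * α p.2 - 1) / Real.Gamma (α p.1 * α p.2) := by
  classical
  rw [← integral_indicator (measurableSet_region θ)]
  unfold VolC LG
  congr 1
  funext t
  rw [prod_boxI, prod_boxI]
  by_cases hp : ∀ p, 0 < t p
  · have hc : cellD α t = ∏ p : Fin n × Fin n, t p ^ (α p.1 * α p.2 - 1) / Real.Gamma (α p.1 * α p.2) := by
      unfold cellD cellρ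
      refine prod_congr rfl fun p _ => ?_
      rw [Set.indicator_of_mem (show t p ∈ Set.Ioi (0:ℝ) from hp p)]
    rw [hc]
    by_cases h : t ∈ region θ
    · rw [Set.indicator_of_mem h]
      obtain ⟨_, h1, h2, h3⟩ := h
      rw [if_pos (show ∀ i, rowS t i ≤ θ i from h1), if_pos (show ∀ i, colS t i ≤ θ i from h2)]
      unfold boxI
      rw [if_pos (show totS t ≤ 1 from h3)]
      ring
    · rw [Set.indicator_of_notMem h]
      by_cases h1 : ∀ i, rowS t i ≤ θ i
      · by_cases h2 : ∀ i, colS t i ≤ θ i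
        · have h3 : ¬ totS t ≤ 1 := fun h3 => h ⟨hp, h1, h2, h3⟩
          unfold boxI
          rw [if_neg h3]; ring
        · rw [if_neg h2]; ring
      · rw [if_neg h1]; ring
  · have hc : cellD α t = 0 := by
      push Not at hp
      obtain ⟨p, hp⟩ := hp
      apply prod_eq_zero (mem_univ p)
      unfold cellρ
      rw [Set.indicator_of_notMem]
      exact not_lt.mpr hp
    rw [hc, mul_zero, Set.indicator_of_notMem]
    exact fun h => hp h.1

lemma VolC_pos {n : ℕ} {α θ : Fin n → ℝ} (hα : ∀ i, 0 < α i) (hθ : ∀ i, 0 < θ i) : 0 < VolC α θ := by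
  unfold VolC LG
  have hnn : ∀ t : Fin n × Fin n → ℝ, 0 ≤ (∏ i, boxI (θ i) (rowS t i)) * (∏ j, boxI (θ j) (colS t j)) * boxI 1 (totS t) * cellD α t := by
    intro t
    have h1 : 0 ≤ ∏ i, boxI (θ i) (rowS t i) := prod_nonneg fun i _ => boxI_nonneg _ _
    have h2 : 0 ≤ ∏ i, boxI (θ i) (colS t i) := prod_nonneg fun i _ => boxI_nonneg _ _
    have h3 := boxI_nonneg 1 (totS t)
    have h4 := cellD_nonneg hα t
    exact mul_nonneg (mul_nonneg (mul_nonneg h1 h2) h3) h4
  rw [integral_pos_iff_support_of_nonneg (fun t => hnn t) (integrable_LG_box hα θ 1)]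
  -- a small cube
  obtain ⟨ε, hε0, hε1, hε2⟩ : ∃ ε : ℝ, 0 < ε ∧ (∀ i, (n:ℝ) * ε ≤ θ i) ∧ (n:ℝ) ^ 2 * ε ≤ 1 := by
    have h1 : ∃ δ : ℝ, 0 < δ ∧ ∀ i, δ ≤ θ i := by
      rcases Nat.eq_zero_or_pos n with h0 | h0
      · subst h0; exact ⟨1, one_pos, fun i => i.elim0⟩
      · have : Nonempty (Fin n) := ⟨⟨0, h0⟩⟩
        obtain ⟨i0, _, hi0⟩ := Finset.exists_min_image (univ : Finset (Fin n)) θ univ_nonempty
        exact ⟨θ i0, hθ i0, fun i => hi0 i (mem_univ i)⟩
    obtain ⟨δ, hδ0, hδ⟩ := h1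
    have hn : (0:ℝ) < (n:ℝ) ^ 2 + 1 := by positivity
    refine ⟨min δ 1 / ((n:ℝ) ^ 2 + 1), by positivity, fun i => ?_, ?_⟩
    · have h2 : (n:ℝ) ≤ (n:ℝ) ^ 2 + 1 := by nlinarith [sq_nonneg ((n:ℝ) - 1)]
      calc (n:ℝ) * (min δ 1 / ((n:ℝ) ^ 2 + 1)) ≤ ((n:ℝ) ^ 2 + 1) * (min δ 1 / ((n:ℝ) ^ 2 + 1)) := by gcongr
        _ = min δ 1 := by field_simp
        _ ≤ δ := min_le_left _ _
        _ ≤ θ i := hδ i
    · calc (n:ℝ) ^ 2 * (min δ 1 / ((n:ℝ) ^ 2 + 1)) ≤ ((n:ℝ) ^ 2 + 1) * (min δ 1 / ((n:ℝ) ^ 2 + 1)) := by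
            gcongr; linarith
        _ = min δ 1 := by field_simp
        _ ≤ 1 := min_le_right _ _
  have hopen : IsOpen (Set.pi Set.univ (fun _ : Fin n × Fin n => Set.Ioo (0:ℝ) ε)) := 
    isOpen_set_pi Set.finite_univ fun _ _ => isOpen_Ioo
  have hne : (Set.pi Set.univ (fun _ : Fin n × Fin n => Set.Ioo (0:ℝ) ε)).Nonempty := 
    ⟨fun _ => ε/2, fun _ _ => ⟨by positivity, by linarith⟩⟩
  refine lt_of_lt_of_le (hopen.measure_pos volume hne) (measure_mono ?_)
  intro t ht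
  have ht' : ∀ p, 0 < t p ∧ t p < ε := fun p => ht p (Set.mem_univ p)
  rw [Function.mem_support]
  have h1 : ∀ i, rowS t i ≤ θ i := by
    intro i
    refine le_trans ?_ (hε1 i)
    unfold rowS
    calc ∑ j, t (i, j) ≤ ∑ _j : Fin n, ε := sum_le_sum fun j _ => (ht' (i, j)).2.le
      _ = n * ε := by simp
  have h2 : ∀ i, colS t i ≤ θ i := by
    intro i
    refine le_trans ?_ (hε1 i)
    unfold colS
    calc ∑ j, t (j, i) ≤ ∑ _j : Fin n, ε := sum_le_sum fun j _ => (ht' (j, i)).2.le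
      _ = n * ε := by simp
  have h3 : totS t ≤ 1 := by
    refine le_trans ?_ hε2
    unfold totS
    calc ∑ p, t p ≤ ∑ _p : Fin n × Fin n, ε := sum_le_sum fun p _ => (ht' p).2.le
      _ = (n:ℝ) ^ 2 * ε := by
          rw [sum_const, card_univ, Fintype.card_prod, Fintype.card_fin, nsmul_eq_mul]; push_cast; ring
  have e1 : ∏ i, boxI (θ i) (rowS t i) = 1 := prod_eq_one fun i _ => by unfold boxI; rw [if_pos (h1 i)]
  have e2 : ∏ i, boxI (θ i) (colS t i) = 1 := prod_eq_one fun i _ => by unfold boxI; rw [if_pos (h2 i)]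
  have e3 : boxI 1 (totS t) = 1 := by unfold boxI; rw [if_pos h3]
  have e4 : 0 < cellD α t := by
    unfold cellD
    refine prod_pos fun p _ => ?_
    unfold cellρ
    rw [Set.indicator_of_mem (show t p ∈ Set.Ioi (0:ℝ) from (ht' p).1)]
    have := (ht' p).1
    have := Real.Gamma_pos_of_pos (mul_pos (hα p.1) (hα p.2))
    positivity
  rw [e1, e2, e3]
  simp only [one_mul]
  exact e4.ne'

lemma VolC_alphaN_pos {k r m : ℕ} (hk : 0 < k) (hr : 1 ≤ r) : 0 < VolC (alphaN r m) (thetaN k m) := by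
  have hrr : (0:ℝ) < r := by exact_mod_cast hr
  have hkk : (0:ℝ) < k := by exact_mod_cast hk
  apply VolC_pos
  · intro i; unfold alphaN; split_ifs <;> positivity
  · intro i; unfold thetaN; split_ifs <;> positivity

lemma VolC_alphaD_pos {k : ℕ} (hk : 0 < k) : 0 < VolC (alphaD k) (thetaD k) := by
  have hkk : (0:ℝ) < k := by exact_mod_cast hk
  apply VolC_pos
  · intro i; unfold alphaD; positivity
  · intro i; unfold thetaD; positivity

end Pool.Agent.LibZM
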