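import Mathlib
import Pool.Agent.LibZM.HB6

set_option autoImplicit false

namespace Pool.Agent.LibZM

open MeasureTheory Set Filter Topology Complex ProbabilityTheory
open scoped NNReal

section params

variable {θ ε : ℝ}

lemma NT_le_rpow (θ : ℝ) {T : ℝ} (hT : 0 < T) : (NT θ T : ℝ) ≤ T ^ θ := Nat.floor_le (by positivity)

lemma one_le_NT (hθ : 0 ≤ θ) {T : ℝ} (hT : 1 ≤ T) : 1 ≤ NT θ T := 
  Nat.le_floor (by simpa using Real.one_le_rpow hT hθ)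

lemma rpow_le_two_NT (hθ : 0 ≤ θ) {T : ℝ} (hT : 1 ≤ T) : T ^ θ ≤ 2 * NT θ T := by
  have h1 : T ^ θ < NT θ T + 1 := Nat.lt_floor_add_one _
  have h2 : (1:ℝ) ≤ NT θ T := by exact_mod_cast one_le_NT hθ hT
  linarith

lemma NT_le (hθ : θ ≤ 1) {T : ℝ} (hT : 1 ≤ T) : (NT θ T : ℝ) ≤ T := by
  refine (NT_le_rpow θ (by linarith)).trans ?_
  calc T ^ θ ≤ T ^ (1:ℝ) := Real.rpow_le_rpow_of_exponent_le hT hθ
    _ = T := Real.rpow_one T

lemma HT_le (hθ : θ ≤ 1) {T : ℝ} (hT : 1 ≤ T) : HT θ T ≤ T := by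
  unfold HT
  calc T ^ ((1 + θ) / 2) ≤ T ^ (1:ℝ) := Real.rpow_le_rpow_of_exponent_le hT (by linarith)
    _ = T := Real.rpow_one T

lemma RT_div_HT {T : ℝ} (hT : 0 < T) : RT θ T / HT θ T = T ^ ((1 - θ) / 4) := by
  unfold RT HT
  rw [← Real.rpow_sub hT]; congr 1; ring

lemma HT_sq {T : ℝ} (hT : 0 < T) : HT θ T ^ 2 = T ^ (1 - θ) * (T ^ θ) ^ 2 := by
  unfold HT
  rw [← Real.rpow_natCast, ← Real.rpow_natCast, ← Real.rpow_mul hT.le, ← Real.rpow_mul hT.le, ← Real.rpow_add hT]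
  congr 1; push_cast; ring

/-- First error term. -/
noncomputable def er1 (θ T : ℝ) : ℝ := 3 * (NT θ T : ℝ) ^ 2 * Real.exp (-(vT θ T : ℝ) / (16 * (NT θ T : ℝ) ^ 2)) * (NT θ T : ℝ) ^ 4

/-- Second error term. -/
noncomputable def er2 (θ T : ℝ) : ℝ := (NT θ T : ℝ) ^ 2 * (16 * √(vT θ T : ℝ) * Real.exp (-RT θ T / √(vT θ T : ℝ)))

lemma er1_nonneg (θ T : ℝ) : 0 ≤ er1 θ T := by unfold er1; positivity
lemma er2_nonneg (θ T : ℝ) : 0 ≤ er2 θ T := by unfold er2; positivity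

lemma er1_le (hθ0 : 0 ≤ θ) (hθ : θ ≤ 1) {T : ℝ} (hT : 1 ≤ T) : er1 θ T ≤ 3 * (T ^ (6:ℝ) * Real.exp (-(1/16 * T ^ (1 - θ)))) := by
  have hT0 : 0 < T := by linarith
  have hN1 : (1:ℝ) ≤ NT θ T := by exact_mod_cast one_le_NT hθ0 hT
  have hN := NT_le hθ hT
  have hexp : Real.exp (-(vT θ T : ℝ) / (16 * (NT θ T : ℝ) ^ 2)) ≤ Real.exp (-(1/16 * T ^ (1 - θ))) := by
    apply Real.exp_le_exp.mpr
    rw [neg_div, neg_le_neg_iff, vT_coe, HT_sq hT0, le_div_iff₀ (by positivity)]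
    have h4 : (NT θ T : ℝ) ^ 2 ≤ (T ^ θ) ^ 2 := by
      have := NT_le_rpow θ hT0
      gcongr
    have h5 : 0 ≤ T ^ (1 - θ) := by positivity
    nlinarith
  unfold er1
  calc 3 * (NT θ T : ℝ) ^ 2 * Real.exp (-(vT θ T : ℝ) / (16 * (NT θ T : ℝ) ^ 2)) * (NT θ T : ℝ) ^ 4 
      ≤ 3 * T ^ 2 * Real.exp (-(1/16 * T ^ (1 - θ))) * T ^ 4 := by gcongr
    _ = 3 * (T ^ 6 * Real.exp (-(1/16 * T ^ (1 - θ)))) := by ring
    _ = _ := by
        congr 2
        rw [show (6:ℝ) = ((6:ℕ):ℝ) by norm_num, Real.rpow_natCast]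

lemma er2_le (hθ0 : 0 ≤ θ) (hθ : θ ≤ 1) {T : ℝ} (hT : 1 ≤ T) : er2 θ T ≤ 16 * (T ^ (3:ℝ) * Real.exp (-(1 * T ^ ((1 - θ)/4)))) := by
  have hT0 : 0 < T := by linarith
  have hN := NT_le hθ hT
  have hH := HT_le hθ hT
  have hH0 := HT_pos θ hT0
  unfold er2
  rw [sqrt_vT θ hT0, neg_div, RT_div_HT hT0, one_mul]
  calc (NT θ T : ℝ) ^ 2 * (16 * HT θ T * Real.exp (-T ^ ((1 - θ)/4))) 
      ≤ T ^ 2 * (16 * T * Real.exp (-T ^ ((1 - θ)/4))) := by gcongr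
    _ = 16 * (T ^ 3 * Real.exp (-T ^ ((1 - θ)/4))) := by ring
    _ = _ := by
        congr 2
        rw [show (3:ℝ) = ((3:ℕ):ℝ) by norm_num, Real.rpow_natCast]

lemma er1_tendsto (hθ0 : 0 ≤ θ) (hθ : θ < 1) : Tendsto (er1 θ) atTop (𝓝 0) := by
  have h := (lim_exp (by norm_num : (0:ℝ) < 1/16) (by linarith : 0 < 1 - θ) 6).const_mul 3
  rw [mul_zero] at h
  refine squeeze_zero' (Eventually.of_forall fun T => er1_nonneg θ T) ?_ h
  filter_upwards [eventually_ge_atTop 1] with T hT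
  exact er1_le hθ0 hθ.le hT

lemma er2_tendsto (hθ0 : 0 ≤ θ) (hθ : θ < 1) : Tendsto (er2 θ) atTop (𝓝 0) := by
  have h := (lim_exp (by norm_num : (0:ℝ) < 1) (by linarith : 0 < (1 - θ)/4) 3).const_mul 16
  rw [mul_zero] at h
  refine squeeze_zero' (Eventually.of_forall fun T => er2_nonneg θ T) ?_ h
  filter_upwards [eventually_ge_atTop 1] with T hT
  exact er2_le hθ0 hθ.le hT

/-- Asymptotics of the diagonal on lines close to the critical line. -/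
lemma DD_tendsto (σ : ℝ) (hθ0 : 0 < θ) : 
    Tendsto (fun T => DD (NT θ T) (1/2 + σ / Real.log T) / Lam T) atTop (𝓝 (Pint (1/4) σ θ)) := by
  have hA := Aconst_pos (κ := 1/2) (by norm_num)
  have e : ∀ (s : ℝ) (n : ℕ), tau (1/2) n ^ 2 * (n:ℝ)⁻¹ * (n:ℝ) ^ (-s) = tau (1/2) n ^ 2 * (n:ℝ) ^ (-(1+s)) := by
    intro s n
    rcases Nat.eq_zero_or_pos n with rfl | hn
    · simp
    · have : (0:ℝ) < n := by exact_mod_cast hn
      rw [mul_assoc, ← Real.rpow_neg_one, ← Real.rpow_add this]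
      congr 2; ring
  have hsum : ∀ s : ℝ, 0 < s → Summable fun n : ℕ => tau (1/2) n ^ 2 * (n:ℝ)⁻¹ * (n:ℝ) ^ (-s) := by
    intro s hs
    simp_rw [e]
    exact summable_tau_sq (by norm_num) (by linarith)
  have hlim : Tendsto (fun s : ℝ => s ^ (1/4:ℝ) * ∑' n : ℕ, tau (1/2) n ^ 2 * (n:ℝ)⁻¹ * (n:ℝ) ^ (-s)) (𝓝[>] 0) (𝓝 (Aconst (1/2))) := by
    have h := tendsto_tau_sq (κ := 1/2) (by norm_num)
    simp_rw [e]
    have : ((1:ℝ)/2) ^ 2 = 1/4 := by norm_num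
    rw [this] at h
    exact h
  have hDD : ∀ T : ℝ, 1 < T → DD (NT θ T) (1/2 + σ / Real.log T) = 
      ∑ n ∈ Finset.Icc 1 ⌊T ^ θ⌋₊, (tau (1/2) n ^ 2 * (n:ℝ)⁻¹) * (n:ℝ) ^ (-(2 * σ / Real.log T)) := by
    intro T hT
    unfold DD NT
    refine Finset.sum_congr rfl fun n hn => ?_
    obtain ⟨hn1, hn2⟩ := Finset.mem_Icc.mp hn
    have hn0 : (0:ℝ) < n := by exact_mod_cast hn1
    have h1 : halfTrunc ⌊T ^ θ⌋₊ n = tau (1/2) n := by
      have := halfTrunc_pow (j := 1) hn2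
      simpa using this
    rw [h1, mul_assoc, ← Real.rpow_neg_one, ← Real.rpow_add hn0]
    congr 2
    ring
  rw [tendsto_order]
  constructor
  · intro c hc
    obtain ⟨c', hc1, hc2⟩ := exists_between hc
    have h := sum_exp_lower (w := fun n => tau (1/2) n ^ 2 * (n:ℝ)⁻¹) (fun n => by positivity) (by norm_num : (0:ℝ) < 1/4) hA hsum hlim σ hθ0 
      (c := c' * Aconst (1/2)) (by rw [mul_comm]; exact mul_lt_mul_of_pos_left hc2 hA)
    filter_upwards [h, eventually_gt_atTop 1] with T h1 hT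
    rw [← hDD T hT] at h1
    refine hc1.trans_le ?_
    rw [le_div_iff₀ (Lam_pos hT)]
    unfold Lam
    linarith
  · intro c hc
    obtain ⟨c', hc1, hc2⟩ := exists_between hc
    have h := sum_exp_upper (w := fun n => tau (1/2) n ^ 2 * (n:ℝ)⁻¹) (fun n => by positivity) (by norm_num : (0:ℝ) < 1/4) hA hsum hlim σ hθ0 
      (c := c' * Aconst (1/2)) (by rw [mul_comm c']; exact mul_lt_mul_of_pos_left hc1 hA)
    filter_upwards [h, eventually_gt_atTop 1] with T h1 hT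
    rw [← hDD T hT] at h1
    refine lt_of_le_of_lt ?_ hc2
    rw [div_le_iff₀ (Lam_pos hT)]
    unfold Lam
    linarith

lemma Fl_pos (hε : 0 < ε) : ∀ᶠ p : ℝ × ℝ in Fl ε, 1 < p.1 ∧ 1 < p.2 := by
  have h1 := (Fl_fst ε).eventually (eventually_gt_atTop 1)
  have h2 := (Fl_fst ε).eventually (eventually_gt_atTop (1/ε))
  filter_upwards [h1, h2, Fl_range ε] with p a b c
  refine ⟨a, lt_of_lt_of_le ?_ c.1⟩
  rw [div_lt_iff₀ hε] at b
  linarith

/-- Powers below the first are negligible against `u`. -/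
lemma Fl_rpow_div (hε : 0 < ε) {a : ℝ} (ha : a < 1) : Tendsto (fun p : ℝ × ℝ => p.1 ^ a / p.2) (Fl ε) (𝓝 0) := by
  have h1 : Tendsto (fun T : ℝ => ε⁻¹ * T ^ (-(1 - a))) atTop (𝓝 (ε⁻¹ * 0)) := 
    (tendsto_rpow_neg_atTop (by linarith : 0 < 1 - a)).const_mul _
  rw [mul_zero] at h1
  refine squeeze_zero' ?_ ?_ (h1.comp (Fl_fst ε))
  · filter_upwards [Fl_pos hε] with p hp
    have := hp.1; have := hp.2
    have : 0 < p.1 := by linarith
    positivity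
  · filter_upwards [Fl_pos hε, Fl_range ε] with p hp hr
    have hp0 : 0 < p.1 := by linarith [hp.1]
    have hu0 : 0 < p.2 := by linarith [hp.2]
    simp only [Function.comp]
    rw [div_le_iff₀ hu0]
    have e : p.1 ^ a = ε⁻¹ * p.1 ^ (-(1 - a)) * (ε * p.1) := by
      have : p.1 ^ (-(1 - a)) * p.1 = p.1 ^ a := by
        nth_rewrite 2 [← Real.rpow_one p.1]
        rw [← Real.rpow_add hp0]; congr 1; ring
      field_simp
      rw [← this]
    rw [e]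
    have := hr.1
    gcongr

end params

end Pool.Agent.LibZM
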