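import Mathlib
import Pool.Agent.LibZM.HB7

set_option autoImplicit false

namespace Pool.Agent.LibZM

open MeasureTheory Set Filter Topology Complex ProbabilityTheory
open scoped NNReal

/-- Abscissa at distance `σ / log T` from the critical line. -/
noncomputable def lineT (σ T : ℝ) : ℝ := 1/2 + σ / Real.log T

/-- Normalised Gaussian mean of `(s-1) P(s)^2`. -/
noncomputable def nq (θ σ : ℝ) (p : ℝ × ℝ) : ℝ := En (Q2 (NT θ p.1)) p.2 (vT θ p.1) (lineT σ p.1) / (p.2 * Lam p.1)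

/-- Normalised Gaussian mean of `(s-1)(zeta(s) - P(s)^2)`. -/
noncomputable def ng (θ σ : ℝ) (p : ℝ × ℝ) : ℝ := En (Gf (NT θ p.1)) p.2 (vT θ p.1) (lineT σ p.1) / (p.2 * Lam p.1)

/-- Normalised Gaussian mean of `(s-1) zeta(s)`. -/
noncomputable def nm (θ σ : ℝ) (p : ℝ × ℝ) : ℝ := En riemannZeta₁ p.2 (vT θ p.1) (lineT σ p.1) / (p.2 * Lam p.1)

lemma div_log_tendsto (σ : ℝ) : Tendsto (fun T : ℝ => σ / Real.log T) atTop (𝓝 0) := 
  tendsto_const_nhds.div_atTop Real.tendsto_log_atTop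

lemma lineT_mem (σ : ℝ) : ∀ᶠ T : ℝ in atTop, 1/4 < lineT σ T ∧ lineT σ T < 3/4 := by
  have h := div_log_tendsto σ
  have h1 := h.eventually_const_lt (u := -(1/4)) (by norm_num)
  have h2 := h.eventually_lt_const (u := 1/4) (by norm_num)
  filter_upwards [h1, h2] with T a b
  unfold lineT
  constructor <;> linarith

lemma Lam_tendsto : Tendsto Lam atTop atTop := by
  unfold Lam
  exact Tendsto.const_mul_atTop (Aconst_pos (by norm_num)) ((tendsto_rpow_atTop (by norm_num)).comp Real.tendsto_log_atTop)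

lemma HT_tendsto {θ : ℝ} (hθ : 0 ≤ θ) : Tendsto (HT θ) atTop atTop := tendsto_rpow_atTop (by linarith)

lemma four_le_vT {θ : ℝ} (hθ : 0 ≤ θ) : ∀ᶠ T : ℝ in atTop, 4 ≤ vT θ T := by
  filter_upwards [(HT_tendsto hθ).eventually_ge_atTop 2] with T hT
  rw [← NNReal.coe_le_coe, vT_coe]
  push_cast
  nlinarith

section

variable {θ ε : ℝ}

lemma RT_div (hε : 0 < ε) (hθ : θ < 1) : Tendsto (fun p : ℝ × ℝ => RT θ p.1 / p.2) (Fl ε) (𝓝 0) := 
  Fl_rpow_div hε (by linarith)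

lemma HT_div (hε : 0 < ε) (hθ : θ < 1) : Tendsto (fun p : ℝ × ℝ => HT θ p.1 / p.2) (Fl ε) (𝓝 0) := 
  Fl_rpow_div hε (by linarith)

lemma one_div_u (hε : 0 < ε) : Tendsto (fun p : ℝ × ℝ => 1 / p.2) (Fl ε) (𝓝 0) := by
  have h := Fl_rpow_div hε (a := 0) (by norm_num)
  simpa using h

lemma RT_le_u (hε : 0 < ε) (hθ : θ < 1) {δ : ℝ} (hδ : 0 < δ) : ∀ᶠ p : ℝ × ℝ in Fl ε, RT θ p.1 ≤ δ * p.2 := by
  filter_upwards [(RT_div hε hθ).eventually_lt_const hδ, Fl_pos hε] with p h1 h2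
  have : 0 < p.2 := by linarith [h2.2]
  rw [div_lt_iff₀ this] at h1
  exact h1.le

lemma HT_le_u (hε : 0 < ε) (hθ : θ < 1) {δ : ℝ} (hδ : 0 < δ) : ∀ᶠ p : ℝ × ℝ in Fl ε, HT θ p.1 ≤ δ * p.2 := by
  filter_upwards [(HT_div hε hθ).eventually_lt_const hδ, Fl_pos hε] with p h1 h2
  have : 0 < p.2 := by linarith [h2.2]
  rw [div_lt_iff₀ this] at h1
  exact h1.le

/-- L1: the mean of the polynomial part. -/
theorem nq_tendsto (hε : 0 < ε) (hθ0 : 0 < θ) (hθ : θ < 1) (σ : ℝ) : 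
    Tendsto (nq θ σ) (Fl ε) (𝓝 (Pint (1/4) σ θ)) := by
  have hD := (DD_tendsto σ hθ0).comp (Fl_fst ε)
  have hE1 : Tendsto (fun p : ℝ × ℝ => er1 θ p.1 / Lam p.1) (Fl ε) (𝓝 0) := 
    ((er1_tendsto hθ0.le hθ).div_atTop Lam_tendsto).comp (Fl_fst ε)
  have hE2 : Tendsto (fun p : ℝ × ℝ => er2 θ p.1 / Lam p.1 * (1 / p.2)) (Fl ε) (𝓝 0) := by
    have h := (((er2_tendsto hθ0.le hθ).div_atTop Lam_tendsto).comp (Fl_fst ε)).mul (one_div_u hε)
    rw [mul_zero] at h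
    exact h
  have hR := RT_div (θ := θ) hε hθ
  have h1 := one_div_u hε
  have hlow : Tendsto (fun p : ℝ × ℝ => (1 - RT θ p.1 / p.2) * (DD (NT θ p.1) (1/2 + σ / Real.log p.1) / Lam p.1 - er1 θ p.1 / Lam p.1) 
      - er2 θ p.1 / Lam p.1 * (1 / p.2)) (Fl ε) (𝓝 (Pint (1/4) σ θ)) := by
    have h := ((hR.const_sub 1).mul (hD.sub hE1)).sub hE2
    simpa using h
  have hup : Tendsto (fun p : ℝ × ℝ => (1 / p.2 + 1 + RT θ p.1 / p.2) * (DD (NT θ p.1) (1/2 + σ / Real.log p.1) / Lam p.1 + er1 θ p.1 / Lam p.1) 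
      + er2 θ p.1 / Lam p.1 * (1 / p.2)) (Fl ε) (𝓝 (Pint (1/4) σ θ)) := by
    have h := (((h1.add_const 1).add hR).mul (hD.add hE1)).add hE2
    simpa using h
  have hev : ∀ᶠ p : ℝ × ℝ in Fl ε, 
      ((1 - RT θ p.1 / p.2) * (DD (NT θ p.1) (1/2 + σ / Real.log p.1) / Lam p.1 - er1 θ p.1 / Lam p.1) 
      - er2 θ p.1 / Lam p.1 * (1 / p.2) ≤ nq θ σ p) ∧ 
      (nq θ σ p ≤ (1 / p.2 + 1 + RT θ p.1 / p.2) * (DD (NT θ p.1) (1/2 + σ / Real.log p.1) / Lam p.1 + er1 θ p.1 / Lam p.1) 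
      + er2 θ p.1 / Lam p.1 * (1 / p.2)) := by
    filter_upwards [Fl_pos hε, (Fl_fst ε).eventually (four_le_vT hθ0.le), (Fl_fst ε).eventually (lineT_mem σ), 
      RT_le_u hε hθ one_pos] with p hp hv hl hRu
    have hT0 : 0 < p.1 := by linarith [hp.1]
    have hu0 : 0 < p.2 := by linarith [hp.2]
    have hL := Lam_pos hp.1
    have hR0 := (RT_pos θ hT0).le
    rw [one_mul] at hRu
    obtain ⟨b1, b2⟩ := q_bounds hu0.le hv hR0 hRu (NT θ p.1) (x := lineT σ p.1) hl.1.le (by linarith [hl.2])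
    have e1 : 3 * (NT θ p.1 : ℝ) ^ 2 * Real.exp (-(vT θ p.1 : ℝ) / (16 * (NT θ p.1 : ℝ) ^ 2)) * (NT θ p.1 : ℝ) ^ 4 = er1 θ p.1 := rfl
    have e2 : (NT θ p.1 : ℝ) ^ 2 * (16 * √(vT θ p.1 : ℝ) * Real.exp (-RT θ p.1 / √(vT θ p.1 : ℝ))) = er2 θ p.1 := rfl
    rw [e1, e2] at b1 b2
    have hUL : 0 < p.2 * Lam p.1 := mul_pos hu0 hL
    unfold nq
    constructor
    · rw [le_div_iff₀ hUL]
      refine le_trans (le_of_eq ?_) b2
      unfold lineT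
      field_simp
    · rw [div_le_iff₀ hUL]
      refine le_trans b1 (le_of_eq ?_)
      unfold lineT
      field_simp
  exact tendsto_of_tendsto_of_tendsto_of_le_of_le' hlow hup (hev.mono fun p h => h.1) (hev.mono fun p h => h.2)

end

end Pool.Agent.LibZM
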