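import Mathlib
import Pool.Agent.LibZM.HB8

set_option autoImplicit false

namespace Pool.Agent.LibZM

open MeasureTheory Set Filter Topology Complex ProbabilityTheory
open scoped NNReal

/-- Normalised convexity inequality. -/
lemma ratio_le {Ex Ea Eb E0 W U : ℝ} {L τ : ℝ} (hEa : 0 ≤ Ea) (hEb : 0 ≤ Eb) (hE0 : 0 ≤ E0) (hU : 0 < U) (hL : 0 < L) 
    (hW : 0 ≤ W) (hτ0 : 0 ≤ τ) (hτ1 : τ ≤ 1) (hx : Ex ≤ E0 * (Ea ^ (1 - τ) * Eb ^ τ)) (hb : Eb ≤ W * U) : 
    Ex / (U * L) ≤ (E0 * (W / L) ^ τ) * (Ea / (U * L) + τ) := by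
  have hUL : 0 < U * L := mul_pos hU hL
  obtain ⟨Y, hY⟩ : ∃ Y : ℝ, Y = Ea / (U * L) := ⟨_, rfl⟩
  obtain ⟨Z, hZ⟩ : ∃ Z : ℝ, Z = Eb / (U * L) := ⟨_, rfl⟩
  have hY0 : 0 ≤ Y := by rw [hY]; positivity
  have hZ0 : 0 ≤ Z := by rw [hZ]; positivity
  have eY : Ea = Y * (U * L) := by rw [hY]; field_simp
  have eZ : Eb = Z * (U * L) := by rw [hZ]; field_simp
  have hZW : Z ≤ W / L := by
    rw [hZ, div_le_div_iff₀ hUL hL]
    calc Eb * L ≤ (W * U) * L := by gcongr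
      _ = W * (U * L) := by ring
  have hYτ : Y ^ (1 - τ) ≤ Y + τ := by
    have h := Real.geom_mean_le_arith_mean2_weighted (w₁ := 1 - τ) (w₂ := τ) (p₁ := Y) (p₂ := 1) (by linarith) hτ0 hY0 zero_le_one (by ring)
    rw [Real.one_rpow, mul_one, mul_one] at h
    have : (1 - τ) * Y ≤ Y := by nlinarith
    linarith
  have e1 : Ea ^ (1 - τ) * Eb ^ τ = (Y ^ (1 - τ) * Z ^ τ) * (U * L) := by
    rw [eY, eZ, Real.mul_rpow hY0 hUL.le, Real.mul_rpow hZ0 hUL.le]
    have : (U * L) ^ (1 - τ) * (U * L) ^ τ = U * L := by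
      rw [← Real.rpow_add hUL, sub_add_cancel, Real.rpow_one]
    calc Y ^ (1 - τ) * (U * L) ^ (1 - τ) * (Z ^ τ * (U * L) ^ τ) = (Y ^ (1 - τ) * Z ^ τ) * ((U * L) ^ (1 - τ) * (U * L) ^ τ) := by ring
      _ = _ := by rw [this]
  rw [div_le_iff₀ hUL, ← hY]
  refine hx.trans ?_
  rw [e1]
  have h2 : Z ^ τ ≤ (W / L) ^ τ := Real.rpow_le_rpow hZ0 hZW hτ0
  have h3 : 0 ≤ (W / L) ^ τ := Real.rpow_nonneg (by positivity) _
  have h4 : 0 ≤ Y ^ (1 - τ) := Real.rpow_nonneg hY0 _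
  calc E0 * ((Y ^ (1 - τ) * Z ^ τ) * (U * L)) ≤ E0 * (((Y + τ) * (W / L) ^ τ) * (U * L)) := by
        gcongr
    _ = _ := by ring

lemma log_Lam_div : Tendsto (fun T : ℝ => Real.log (Lam T) / Real.log T) atTop (𝓝 0) := by
  have h1 : Tendsto (fun x : ℝ => Real.log x / x) atTop (𝓝 0) := by
    have := Real.isLittleO_log_id_atTop.tendsto_div_nhds_zero
    simpa using this
  have h2 := (h1.comp Real.tendsto_log_atTop).const_mul (1/4)
  have h3 := (div_log_tendsto (Real.log (Aconst (1/2)))).add h2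
  rw [mul_zero, add_zero] at h3
  refine h3.congr' ?_
  filter_upwards [eventually_gt_atTop 1] with T hT
  have hl := Real.log_pos hT
  have hA := Aconst_pos (κ := 1/2) (by norm_num)
  unfold Lam
  simp only [Function.comp]
  rw [Real.log_mul hA.ne' (by positivity), Real.log_rpow hl]
  ring

/-- Limit of the convexity factor. -/
lemma factor_tendsto {W : ℝ → ℝ} (hW : ∀ᶠ T in atTop, 0 < W T) {ω : ℝ} 
    (hω : Tendsto (fun T => Real.log (W T) / Real.log T) atTop (𝓝 (-ω))) (ρ σ : ℝ) {b : ℝ} (hb : 1/2 < b) : 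
    Tendsto (fun T => (W T / Lam T) ^ ((lineT σ T - lineT ρ T) / (b - lineT ρ T))) atTop (𝓝 (Real.exp (-ω * ((σ - ρ) / (b - 1/2))))) := by
  have h1 : Tendsto (fun T : ℝ => (σ - ρ) / (b - 1/2 - ρ / Real.log T)) atTop (𝓝 ((σ - ρ) / (b - 1/2 - 0))) := 
    tendsto_const_nhds.div (tendsto_const_nhds.sub (div_log_tendsto ρ)) (by rw [sub_zero]; linarith)
  rw [sub_zero] at h1
  have h2 := (hω.sub log_Lam_div).mul h1
  rw [sub_zero] at h2
  refine ((Real.continuous_exp.tendsto _).comp h2).congr' ?_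
  filter_upwards [hW, eventually_gt_atTop 1] with T hWT hT
  have hl := Real.log_pos hT
  have hL := Lam_pos hT
  simp only [Function.comp]
  rw [Real.rpow_def_of_pos (by positivity), Real.log_div hWT.ne' hL.ne']
  congr 1
  have e1 : lineT σ T - lineT ρ T = (σ - ρ) / Real.log T := by unfold lineT; ring
  have e2 : b - lineT ρ T = b - 1/2 - ρ / Real.log T := by unfold lineT; ring
  rw [e1, e2]
  ring

lemma tau_tendsto (ρ σ : ℝ) {b : ℝ} (hb : 1/2 < b) : 
    Tendsto (fun T => (lineT σ T - lineT ρ T) / (b - lineT ρ T)) atTop (𝓝 0) := by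
  have h1 : Tendsto (fun T : ℝ => ((σ - ρ) / Real.log T) / (b - 1/2 - ρ / Real.log T)) atTop (𝓝 (0 / (b - 1/2 - 0))) := 
    (div_log_tendsto (σ - ρ)).div (tendsto_const_nhds.sub (div_log_tendsto ρ)) (by rw [sub_zero]; linarith)
  rw [zero_div] at h1
  refine h1.congr fun T => ?_
  unfold lineT
  congr 1 <;> ring

lemma exp_v_tendsto {θ : ℝ} (hθ : 0 ≤ θ) (M : ℝ) : Tendsto (fun T => Real.exp (M / (2 * (vT θ T : ℝ)))) atTop (𝓝 1) := by
  have h1 : Tendsto (fun T => (vT θ T : ℝ)) atTop atTop := by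
    simp_rw [vT_coe]
    exact (tendsto_pow_atTop (by norm_num)).comp (HT_tendsto hθ)
  have h2 : Tendsto (fun T => M / (2 * (vT θ T : ℝ))) atTop (𝓝 0) := 
    tendsto_const_nhds.div_atTop (h1.const_mul_atTop (by norm_num))
  have := (Real.continuous_exp.tendsto 0).comp h2
  rwa [Real.exp_zero] at this

section

variable {θ ε : ℝ}

/-- Convexity between a line close to the critical line and a far line. -/
theorem conv_eventually (hθ0 : 0 ≤ θ) (hε : 0 < ε) {F : ℝ → ℂ → ℂ} (hF : ∀ T, Differentiable ℂ (F T)) 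
    {b : ℝ} (hb : 2 ≤ b) {Cg : ℝ → ℝ} (hCg : ∀ T, 0 ≤ Cg T) 
    (hgrow : ∀ T, ∀ x ∈ Icc (1/4:ℝ) (b + 1), ∀ y : ℝ, ‖F T (x + y * I)‖ ≤ Cg T * Real.exp |y|)
    {W : ℝ → ℝ} (hW : ∀ᶠ T in atTop, 0 < W T) (hfar : ∀ᶠ p : ℝ × ℝ in Fl ε, En (F p.1) p.2 (vT θ p.1) b ≤ W p.1 * p.2)
    {ω : ℝ} (hω : Tendsto (fun T => Real.log (W T) / Real.log T) atTop (𝓝 (-ω))) {ρ σ : ℝ} (hρσ : ρ < σ) {c η : ℝ} 
    (hc : Real.exp (-ω * ((σ - ρ) / (b - 1/2))) < c) (hη : 0 < η) : 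
    ∀ᶠ p : ℝ × ℝ in Fl ε, En (F p.1) p.2 (vT θ p.1) (lineT σ p.1) / (p.2 * Lam p.1) ≤ 
      c * (En (F p.1) p.2 (vT θ p.1) (lineT ρ p.1) / (p.2 * Lam p.1)) + η := by
  have f1 := factor_tendsto hW hω ρ σ (b := b) (by linarith)
  have f2 := tau_tendsto ρ σ (b := b) (by linarith)
  have f3 := exp_v_tendsto hθ0 ((b+1) ^ 2)
  have f4 := f3.mul f1
  rw [one_mul] at f4
  have f5 := f4.mul f2
  rw [mul_zero] at f5
  have g1 := (Fl_fst ε).eventually (f4.eventually_lt_const hc)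
  have g2 := (Fl_fst ε).eventually (f5.eventually_lt_const hη)
  have g3 := (Fl_fst ε).eventually (f2.eventually_lt_const one_pos)
  filter_upwards [g1, g2, g3, (Fl_fst ε).eventually (lineT_mem ρ), (Fl_fst ε).eventually (lineT_mem σ), Fl_pos hε, 
    (Fl_fst ε).eventually (four_le_vT hθ0), hfar, (Fl_fst ε).eventually hW] with p h1 h2 h3 hρ hσ hp hv hfp hWp
  have hT0 : 0 < p.1 := by linarith [hp.1]
  have hu0 : 0 < p.2 := by linarith [hp.2]
  have hl := Real.log_pos hp.1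
  have hL := Lam_pos hp.1
  have hv0 : 0 < vT θ p.1 := lt_of_lt_of_le (by norm_num) hv
  have hlt : lineT ρ p.1 < lineT σ p.1 := by
    unfold lineT
    have : ρ / Real.log p.1 < σ / Real.log p.1 := by gcongr
    linarith
  have hcv := convex_En (hF p.1) (a' := 1/4) (a := lineT ρ p.1) (b := b) (b' := b + 1) (C := Cg p.1) hρ.1 (by linarith [hρ.2]) 
    (by linarith) (hCg p.1) (hgrow p.1) (u := p.2) hv0 (x := lineT σ p.1) (M := (b+1) ^ 2) ⟨hlt.le, by linarith [hσ.2]⟩ 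
    (by have := hρ.1; have := hρ.2; nlinarith) (by nlinarith)
  have hτ0 : 0 ≤ (lineT σ p.1 - lineT ρ p.1) / (b - lineT ρ p.1) := by
    apply div_nonneg <;> linarith [hρ.2]
  have hr := ratio_le (En_nonneg _ _ _ _) (En_nonneg _ _ _ _) (Real.exp_pos _).le hu0 hL hWp.le hτ0 h3.le hcv hfp
  refine hr.trans ?_
  have hY : 0 ≤ En (F p.1) p.2 (vT θ p.1) (lineT ρ p.1) / (p.2 * Lam p.1) := div_nonneg (En_nonneg _ _ _ _) (by positivity)
  rw [mul_add]
  exact add_le_add (mul_le_mul_of_nonneg_right h1.le hY) h2.le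

/-- Mean of `|s-1|` on a far line. -/
lemma far_mean (hε : 0 < ε) (hθ0 : 0 ≤ θ) (hθ : θ < 1) (b : ℝ) (hb : 1 ≤ b) : 
    ∀ᶠ p : ℝ × ℝ in Fl ε, ∫ t : ℝ, ‖(b:ℂ) + t * I - 1‖ ∂(gaussianReal p.2 (vT θ p.1)) ≤ (b + 1) * p.2 := by
  filter_upwards [Fl_pos hε, (Fl_fst ε).eventually (four_le_vT hθ0), RT_le_u hε hθ (by norm_num : (0:ℝ) < 1/2), 
    HT_le_u hε hθ (by norm_num : (0:ℝ) < 1/32)] with p hp hv hR hH
  have hT0 : 0 < p.1 := by linarith [hp.1]
  have hu0 : 0 < p.2 := by linarith [hp.2]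
  have hv0 : 0 < vT θ p.1 := lt_of_lt_of_le (by norm_num) hv
  have hm := mean_abs_le hu0.le hv0 (RT_pos θ hT0).le
  rw [sqrt_vT θ hT0] at hm
  have he : Real.exp (-RT θ p.1 / HT θ p.1) ≤ 1 := by
    apply Real.exp_le_one_iff.mpr
    apply div_nonpos_of_nonpos_of_nonneg
    · linarith [RT_pos θ hT0]
    · exact (HT_pos θ hT0).le
  have hHp := HT_pos θ hT0
  have h1 : 16 * HT θ p.1 * Real.exp (-RT θ p.1 / HT θ p.1) ≤ 16 * HT θ p.1 * 1 := by gcongr
  have hi : Integrable (fun t : ℝ => ‖(b:ℂ) + t * I - 1‖) (gaussianReal p.2 (vT θ p.1)) := by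
    refine integrable_norm_gauss (F := fun s => s - 1) (by fun_prop) (C := b) (fun t => ?_) _ _
    refine (norm_sub_one_le b t).trans ?_
    rw [abs_of_nonneg (by linarith)]
    have := abs_nonneg t
    nlinarith
  calc ∫ t : ℝ, ‖(b:ℂ) + t * I - 1‖ ∂(gaussianReal p.2 (vT θ p.1)) ≤ ∫ t : ℝ, ((b - 1) + |t|) ∂(gaussianReal p.2 (vT θ p.1)) := by
        refine integral_mono hi ((integrable_const _).add (integrable_abs_gaussian _ _)) fun t => ?_
        refine (norm_sub_one_le b t).trans ?_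
        rw [abs_of_nonneg (by linarith)]
    _ = (b - 1) + ∫ t : ℝ, |t| ∂(gaussianReal p.2 (vT θ p.1)) := by
        rw [integral_add (integrable_const _) (integrable_abs_gaussian _ _)]; simp
    _ ≤ (b - 1) + (p.2 + 1/2 * p.2 + 1/2 * p.2) := by linarith
    _ ≤ _ := by
        have := hp.2
        nlinarith

lemma integrable_far {b : ℝ} (hb : 1 ≤ b) (u : ℝ) (v : ℝ≥0) : Integrable (fun t : ℝ => ‖(b:ℂ) + t * I - 1‖) (gaussianReal u v) := by
  refine integrable_norm_gauss (F := fun s => s - 1) (by fun_prop) (C := b) (fun t => ?_) _ _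
  refine (norm_sub_one_le b t).trans ?_
  rw [abs_of_nonneg (by linarith)]
  have := abs_nonneg t
  nlinarith

lemma En_far_le {F : ℂ → ℂ} (hF : Continuous F) {b K : ℝ} (hb : 1 ≤ b) (hK : 0 ≤ K) (h : ∀ t : ℝ, ‖F (b + t * I)‖ ≤ ‖(b:ℂ) + t * I - 1‖ * K) 
    (u : ℝ) (v : ℝ≥0) : En F u v b ≤ K * ∫ t : ℝ, ‖(b:ℂ) + t * I - 1‖ ∂(gaussianReal u v) := by
  have hi := integrable_far hb u v
  unfold En
  rw [← integral_const_mul]
  have hFi : Integrable (fun t : ℝ => ‖F (b + t * I)‖) (gaussianReal u v) := by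
    refine Integrable.mono' (hi.mul_const K) ?_ (Eventually.of_forall fun t => ?_)
    · have h : Continuous (fun t : ℝ => ‖F (b + t * I)‖) := by fun_prop
      exact h.aestronglyMeasurable
    · rw [norm_norm]; exact h t
  refine integral_mono hFi (hi.const_mul K) fun t => ?_
  exact (h t).trans (le_of_eq (mul_comm _ _))

lemma Z2_pos : 0 < Z2 := lt_of_lt_of_le one_pos one_le_Z2

lemma log_NT_div (hθ0 : 0 ≤ θ) : Tendsto (fun T : ℝ => Real.log (NT θ T) / Real.log T) atTop (𝓝 θ) := by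
  have h1 : Tendsto (fun T : ℝ => θ - Real.log 2 / Real.log T) atTop (𝓝 (θ - 0)) := (div_log_tendsto _).const_sub _
  rw [sub_zero] at h1
  refine tendsto_of_tendsto_of_tendsto_of_le_of_le' h1 tendsto_const_nhds ?_ ?_
  · filter_upwards [eventually_gt_atTop 1] with T hT
    have hl := Real.log_pos hT
    have hT0 : 0 < T := by linarith
    have hN : (1:ℝ) ≤ NT θ T := by exact_mod_cast one_le_NT hθ0 hT.le
    rw [le_div_iff₀ hl, sub_mul, div_mul_cancel₀ _ hl.ne']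
    have h2 := Real.log_le_log (by positivity) (rpow_le_two_NT hθ0 hT.le)
    rw [Real.log_rpow hT0, Real.log_mul (by norm_num) (by positivity)] at h2
    linarith
  · filter_upwards [eventually_gt_atTop 1] with T hT
    have hl := Real.log_pos hT
    have hT0 : 0 < T := by linarith
    have hN : (1:ℝ) ≤ NT θ T := by exact_mod_cast one_le_NT hθ0 hT.le
    rw [div_le_iff₀ hl]
    have h2 := Real.log_le_log (by positivity) (NT_le_rpow θ hT0)
    rwa [Real.log_rpow hT0] at h2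

/-- L2: decay of the difference. -/
theorem ng_decay (hε : 0 < ε) (hθ0 : 0 < θ) (hθ : θ < 1) {κ : ℝ} (hκ0 : 0 ≤ κ) (hκ : κ < θ) {ρ σ : ℝ} (hρσ : ρ < σ) {η : ℝ} (hη : 0 < η) : 
    ∀ᶠ p : ℝ × ℝ in Fl ε, ng θ σ p ≤ Real.exp (-(κ * (σ - ρ))) * ng θ ρ p + η := by
  obtain ⟨b, hb⟩ : ∃ b : ℝ, b = 2 + 1.5 * θ / (θ - κ) := ⟨_, rfl⟩
  have hθκ : 0 < θ - κ := by linarith
  have hb2 : 2 ≤ b := by rw [hb]; have : 0 ≤ 1.5 * θ / (θ - κ) := by positivity
                         linarith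
  have hbκ : κ * (b - 1/2) < (b - 2) * θ := by
    have h1 : (b - 2) * (θ - κ) = 1.5 * θ := by rw [hb]; field_simp; ring
    nlinarith
  refine conv_eventually (F := fun T => Gf (NT θ T)) hθ0.le hε (fun T => differentiable_Gf _) hb2 
    (Cg := fun T => 12 * (b+1) ^ 2 * Real.exp 1 + (b+1) * (NT θ T : ℝ) ^ 2 * Real.exp 1) (fun T => by positivity) 
    (fun T => growth_Gf (by linarith) _) (W := fun T => (Z2 * (NT θ T : ℝ) ^ (2 - b)) * (b + 1)) ?_ ?_ (ω := (b - 2) * θ) ?_ hρσ ?_ hη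
  · filter_upwards [eventually_ge_atTop 1] with T hT
    have hN : (1:ℝ) ≤ NT θ T := by exact_mod_cast one_le_NT hθ0.le hT
    have := Z2_pos
    positivity
  · filter_upwards [far_mean hε hθ0.le hθ b (by linarith), Fl_pos hε] with p hp hp1
    have hN : (1:ℝ) ≤ NT θ p.1 := by exact_mod_cast one_le_NT hθ0.le hp1.1.le
    have hZ := Z2_pos
    have hK : 0 ≤ Z2 * (NT θ p.1 : ℝ) ^ (2 - b) := by positivity
    refine (En_far_le (differentiable_Gf _).continuous (by linarith) hK (fun t => far_line (one_le_NT hθ0.le hp1.1.le) hb2 t) _ _).trans ?_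
    refine (mul_le_mul_of_nonneg_left hp hK).trans (le_of_eq ?_)
    ring
  · have h1 := (div_log_tendsto (Real.log (Z2 * (b + 1)))).add ((log_NT_div hθ0.le).const_mul (2 - b))
    have e : 0 + (2 - b) * θ = -((b - 2) * θ) := by ring
    rw [e] at h1
    refine h1.congr' ?_
    filter_upwards [eventually_gt_atTop 1] with T hT
    have hN : (1:ℝ) ≤ NT θ T := by exact_mod_cast one_le_NT hθ0.le hT.le
    have hN0 : (0:ℝ) < NT θ T := by linarith
    have hZ := Z2_pos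
    have e2 : Z2 * (NT θ T : ℝ) ^ (2 - b) * (b + 1) = (Z2 * (b + 1)) * (NT θ T : ℝ) ^ (2 - b) := by ring
    rw [e2, Real.log_mul (x := Z2 * (b + 1)) (by positivity) (by positivity), Real.log_rpow hN0]
    ring
  · apply Real.exp_lt_exp.mpr
    have hb12 : 0 < b - 1/2 := by linarith
    have h1 : κ < (b - 2) * θ / (b - 1/2) := by
      rw [lt_div_iff₀ hb12]; exact hbκ
    have h2 : 0 < σ - ρ := by linarith
    have e : -((b - 2) * θ) * ((σ - ρ) / (b - 1/2)) = -((b - 2) * θ / (b - 1/2) * (σ - ρ)) := by ring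
    rw [e, neg_lt_neg_iff]
    gcongr

/-- L3: the first moment is essentially nonincreasing. -/
theorem nm_mono (hε : 0 < ε) (hθ0 : 0 < θ) (hθ : θ < 1) {ρ σ : ℝ} (hρσ : ρ < σ) {c η : ℝ} (hc : 1 < c) (hη : 0 < η) : 
    ∀ᶠ p : ℝ × ℝ in Fl ε, nm θ σ p ≤ c * nm θ ρ p + η := by
  refine conv_eventually (F := fun _ => riemannZeta₁) hθ0.le hε (fun T => differentiable_riemannZeta₁) (le_refl 2) 
    (Cg := fun T => 12 * (2+1) ^ 2 * Real.exp 1) (fun T => by positivity) 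
    (fun T => growth_zeta1 (by norm_num)) (W := fun T => Z2 * (2 + 1)) ?_ ?_ (ω := 0) ?_ hρσ ?_ hη
  · have := Z2_pos
    exact Eventually.of_forall fun T => by positivity
  · filter_upwards [far_mean hε hθ0.le hθ 2 (by norm_num)] with p hp
    have hZ := Z2_pos
    refine (En_far_le differentiable_riemannZeta₁.continuous (by norm_num : (1:ℝ) ≤ 2) hZ.le (fun t => far_line_zeta (le_refl 2) t) _ _).trans ?_
    rw [mul_assoc]
    exact mul_le_mul_of_nonneg_left hp hZ.le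
  · rw [neg_zero]
    exact div_log_tendsto _
  · rw [neg_zero, zero_mul, Real.exp_zero]; exact hc

/-- L4a: convexity around the critical line. -/
theorem nm_convex (hε : 0 < ε) (hθ0 : 0 < θ) {C : ℝ} (hC : 0 < C) {c : ℝ} (hc : 1 < c) : 
    ∀ᶠ p : ℝ × ℝ in Fl ε, nm θ 0 p ^ 2 ≤ c * (nm θ C p * nm θ (-C) p) := by
  have f3 := (exp_v_tendsto hθ0.le 1).pow 2
  rw [one_pow] at f3
  filter_upwards [(Fl_fst ε).eventually (f3.eventually_lt_const hc), (Fl_fst ε).eventually (lineT_mem C), 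
    (Fl_fst ε).eventually (lineT_mem (-C)), Fl_pos hε, (Fl_fst ε).eventually (four_le_vT hθ0.le)] with p h1 hl1 hl2 hp hv
  have hT0 : 0 < p.1 := by linarith [hp.1]
  have hu0 : 0 < p.2 := by linarith [hp.2]
  have hl := Real.log_pos hp.1
  have hL := Lam_pos hp.1
  have hv0 : 0 < vT θ p.1 := lt_of_lt_of_le (by norm_num) hv
  have hCl : 0 < C / Real.log p.1 := by positivity
  have e0 : lineT 0 p.1 = 1/2 := by unfold lineT; ring
  have ea : lineT (-C) p.1 = 1/2 - C / Real.log p.1 := by unfold lineT; ring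
  have eb : lineT C p.1 = 1/2 + C / Real.log p.1 := rfl
  have hcv := convex_En differentiable_riemannZeta₁ (a' := 1/4) (a := lineT (-C) p.1) (b := lineT C p.1) (b' := 1) 
    (C := 12 * 1 ^ 2 * Real.exp 1) hl2.1 (by rw [ea, eb]; linarith) 
    (by linarith [hl1.2]) (by positivity) (growth_zeta1 (le_refl 1)) (u := p.2) hv0 (x := lineT 0 p.1) (M := 1) 
    ⟨by rw [e0, ea]; linarith, by rw [e0, eb]; linarith⟩ 
    (by have := hl2.1; have := hl2.2; nlinarith) (by have := hl1.1; have := hl1.2; nlinarith)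
  have hτ : (lineT 0 p.1 - lineT (-C) p.1) / (lineT C p.1 - lineT (-C) p.1) = 1/2 := by
    rw [e0, ea, eb]
    have : (1/2 + C / Real.log p.1 - (1/2 - C / Real.log p.1)) = 2 * (C / Real.log p.1) := by ring
    rw [this, sub_sub_cancel]
    field_simp
  rw [hτ] at hcv
  have hA := En_nonneg riemannZeta₁ p.2 (vT θ p.1) (lineT (-C) p.1)
  have hB := En_nonneg riemannZeta₁ p.2 (vT θ p.1) (lineT C p.1)
  have hX := En_nonneg riemannZeta₁ p.2 (vT θ p.1) (lineT 0 p.1)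
  have hsq : En riemannZeta₁ p.2 (vT θ p.1) (lineT 0 p.1) ^ 2 ≤ 
      Real.exp (1 / (2 * (vT θ p.1 : ℝ))) ^ 2 * (En riemannZeta₁ p.2 (vT θ p.1) (lineT C p.1) * En riemannZeta₁ p.2 (vT θ p.1) (lineT (-C) p.1)) := by
    calc En riemannZeta₁ p.2 (vT θ p.1) (lineT 0 p.1) ^ 2 ≤ (Real.exp (1 / (2 * (vT θ p.1 : ℝ))) * 
          (En riemannZeta₁ p.2 (vT θ p.1) (lineT (-C) p.1) ^ (1 - 1/2 : ℝ) * En riemannZeta₁ p.2 (vT θ p.1) (lineT C p.1) ^ (1/2 : ℝ))) ^ 2 := by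
          gcongr
      _ = _ := by
          have e1 : (1 - 1/2 : ℝ) = 1/2 := by norm_num
          rw [e1, ← Real.sqrt_eq_rpow, ← Real.sqrt_eq_rpow, mul_pow, mul_pow, Real.sq_sqrt hA, Real.sq_sqrt hB]
          ring
  unfold nm
  rw [div_pow, div_mul_div_comm, ← mul_div_assoc, ← pow_two (p.2 * Lam p.1)]
  apply div_le_div_of_nonneg_right _ (by positivity)
  refine hsq.trans ?_
  have : 0 ≤ En riemannZeta₁ p.2 (vT θ p.1) (lineT C p.1) * En riemannZeta₁ p.2 (vT θ p.1) (lineT (-C) p.1) := by positivity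
  exact mul_le_mul_of_nonneg_right h1.le this

end

end Pool.Agent.LibZM
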