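import Mathlib
import Pool.Agent.LibZM.HB9
import Pool.Agent.LibZM.Reflect

set_option autoImplicit false

namespace Pool.Agent.LibZM

open MeasureTheory Set Filter Topology Complex ProbabilityTheory
open scoped NNReal

lemma integrable_growth {F : ℂ → ℂ} (hF : Continuous F) {x C : ℝ} 
    (hC : ∀ t : ℝ, ‖F (x + t * I)‖ ≤ C * Real.exp |t|) (u : ℝ) (v : ℝ≥0) : 
    Integrable (fun t : ℝ => ‖F (x + t * I)‖) (gaussianReal u v) := by
  have hC0 : 0 ≤ C := by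
    have := (norm_nonneg _).trans (hC 0)
    simpa using this
  have i1 := integrable_exp_mul_gaussianReal (μ := u) (v := v) 1
  have i2 := integrable_exp_mul_gaussianReal (μ := u) (v := v) (-1)
  refine Integrable.mono' (g := fun t => C * (Real.exp (1 * t) + Real.exp ((-1) * t))) ((i1.add i2).const_mul C) ?_ 
    (Eventually.of_forall fun t => ?_)
  · have h : Continuous (fun t : ℝ => ‖F (x + t * I)‖) := by fun_prop
    exact h.aestronglyMeasurable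
  · rw [norm_norm]
    refine (hC t).trans ?_
    apply mul_le_mul_of_nonneg_left _ hC0
    rw [one_mul, neg_one_mul]
    rcases abs_cases t with ⟨h, _⟩ | ⟨h, _⟩
    · rw [h]; linarith [Real.exp_pos (-t)]
    · rw [h]; linarith [Real.exp_pos t]

lemma integrable_zeta1 {x : ℝ} (hx : 1/4 ≤ x) (hx1 : x ≤ 1) (u : ℝ) (v : ℝ≥0) : 
    Integrable (fun t : ℝ => ‖riemannZeta₁ (x + t * I)‖) (gaussianReal u v) := 
  integrable_growth differentiable_riemannZeta₁.continuous (fun t => growth_zeta1 (le_refl 1) x ⟨hx, hx1⟩ t) u v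

lemma integrable_Q2 (N : ℕ) {x : ℝ} (hx : 1/4 ≤ x) (hx1 : x ≤ 1) (u : ℝ) (v : ℝ≥0) : 
    Integrable (fun t : ℝ => ‖Q2 N (x + t * I)‖) (gaussianReal u v) := 
  integrable_growth (differentiable_Q2 N).continuous (fun t => growth_Q2 (le_refl 1) N x ⟨hx, hx1⟩ t) u v

lemma integrable_Gf (N : ℕ) {x : ℝ} (hx : 1/4 ≤ x) (hx1 : x ≤ 1) (u : ℝ) (v : ℝ≥0) : 
    Integrable (fun t : ℝ => ‖Gf N (x + t * I)‖) (gaussianReal u v) := 
  integrable_growth (differentiable_Gf N).continuous (fun t => growth_Gf (le_refl 1) N x ⟨hx, hx1⟩ t) u v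

lemma triangle_m (N : ℕ) {x : ℝ} (hx : 1/4 ≤ x) (hx1 : x ≤ 1) (u : ℝ) (v : ℝ≥0) : 
    En riemannZeta₁ u v x ≤ En (Gf N) u v x + En (Q2 N) u v x := by
  unfold En
  rw [← integral_add (integrable_Gf N hx hx1 u v) (integrable_Q2 N hx hx1 u v)]
  refine integral_mono (integrable_zeta1 hx hx1 u v) ((integrable_Gf N hx hx1 u v).add (integrable_Q2 N hx hx1 u v)) fun t => ?_
  have e : riemannZeta₁ (x + t * I) = Gf N (x + t * I) + Q2 N (x + t * I) := by unfold Gf; ring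
  show ‖riemannZeta₁ (x + t * I)‖ ≤ ‖Gf N (x + t * I)‖ + ‖Q2 N (x + t * I)‖
  rw [e]; exact norm_add_le _ _

lemma triangle_q (N : ℕ) {x : ℝ} (hx : 1/4 ≤ x) (hx1 : x ≤ 1) (u : ℝ) (v : ℝ≥0) : 
    En (Q2 N) u v x ≤ En riemannZeta₁ u v x + En (Gf N) u v x := by
  unfold En
  rw [← integral_add (integrable_zeta1 hx hx1 u v) (integrable_Gf N hx hx1 u v)]
  refine integral_mono (integrable_Q2 N hx hx1 u v) ((integrable_zeta1 hx hx1 u v).add (integrable_Gf N hx hx1 u v)) fun t => ?_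
  have e : Q2 N (x + t * I) = riemannZeta₁ (x + t * I) - Gf N (x + t * I) := by unfold Gf; ring
  show ‖Q2 N (x + t * I)‖ ≤ ‖riemannZeta₁ (x + t * I)‖ + ‖Gf N (x + t * I)‖
  rw [e]; exact norm_sub_le _ _

lemma triangle_g (N : ℕ) {x : ℝ} (hx : 1/4 ≤ x) (hx1 : x ≤ 1) (u : ℝ) (v : ℝ≥0) : 
    En (Gf N) u v x ≤ En riemannZeta₁ u v x + En (Q2 N) u v x := by
  unfold En
  rw [← integral_add (integrable_zeta1 hx hx1 u v) (integrable_Q2 N hx hx1 u v)]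
  refine integral_mono (integrable_Gf N hx hx1 u v) ((integrable_zeta1 hx hx1 u v).add (integrable_Q2 N hx hx1 u v)) fun t => ?_
  show ‖Gf N (x + t * I)‖ ≤ ‖riemannZeta₁ (x + t * I)‖ + ‖Q2 N (x + t * I)‖
  unfold Gf; exact norm_sub_le _ _

section

variable {θ ε : ℝ}

lemma tri_ev (hε : 0 < ε) (σ : ℝ) : ∀ᶠ p : ℝ × ℝ in Fl ε, 
    nm θ σ p ≤ ng θ σ p + nq θ σ p ∧ nq θ σ p ≤ nm θ σ p + ng θ σ p ∧ ng θ σ p ≤ nm θ σ p + nq θ σ p := by
  filter_upwards [Fl_pos hε, (Fl_fst ε).eventually (lineT_mem σ)] with p hp hl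
  have hu0 : 0 < p.2 := by linarith [hp.2]
  have hL := Lam_pos hp.1
  have hUL : 0 ≤ p.2 * Lam p.1 := by positivity
  unfold nm ng nq
  rw [← add_div, ← add_div, ← add_div]
  refine ⟨?_, ?_, ?_⟩
  · exact div_le_div_of_nonneg_right (triangle_m _ hl.1.le (by linarith [hl.2]) _ _) hUL
  · exact div_le_div_of_nonneg_right (triangle_q _ hl.1.le (by linarith [hl.2]) _ _) hUL
  · exact div_le_div_of_nonneg_right (triangle_g _ hl.1.le (by linarith [hl.2]) _ _) hUL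

/-- Pointwise reflection bound for `(s-1) zeta(s)`. -/
lemma reflect_pt {δ : ℝ} (hδ0 : 0 ≤ δ) (hδ1 : δ ≤ 1/4) (t : ℝ) : 
    ‖riemannZeta₁ (((1/2 - δ : ℝ) : ℂ) + t * I)‖ ≤ (1 + 8 * δ) * (Real.exp 1 * (|t| + 2) / (2 * Real.pi)) ^ δ * 
      ‖riemannZeta₁ (((1/2 + δ : ℝ) : ℂ) + t * I)‖ := by
  have h := norm_zeta_reflect (y := t) hδ0 hδ1
  have ne1 : ∀ x : ℝ, x < 1 → ((x:ℂ) + t * I) ≠ 1 := by
    intro x hx h1
    have := congrArg Complex.re h1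
    simp at this
    linarith
  have n1 := ne1 (1/2 - δ) (by linarith)
  have n2 := ne1 (1/2 + δ) (by linarith)
  have e1 : riemannZeta₁ (((1/2 - δ : ℝ) : ℂ) + t * I) = ((((1/2 - δ : ℝ) : ℂ) + t * I) - 1) * riemannZeta (((1/2 - δ : ℝ) : ℂ) + t * I) := by
    rw [riemannZeta_eq_inv_sub_mul n1, ← mul_assoc, mul_inv_cancel₀ (sub_ne_zero.mpr n1), one_mul]
  have e2 : riemannZeta₁ (((1/2 + δ : ℝ) : ℂ) + t * I) = ((((1/2 + δ : ℝ) : ℂ) + t * I) - 1) * riemannZeta (((1/2 + δ : ℝ) : ℂ) + t * I) := by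
    rw [riemannZeta_eq_inv_sub_mul n2, ← mul_assoc, mul_inv_cancel₀ (sub_ne_zero.mpr n2), one_mul]
  rw [e1, e2, norm_mul, norm_mul]
  have hA : 1/4 ≤ ‖(((1/2 + δ : ℝ) : ℂ) + t * I) - 1‖ := by
    have h1 := abs_re_le_norm ((((1/2 + δ : ℝ) : ℂ) + t * I) - 1)
    have h2 : ((((1/2 + δ : ℝ) : ℂ) + t * I) - 1).re = δ - 1/2 := by simp; ring
    rw [h2, abs_of_nonpos (by linarith)] at h1
    linarith
  have hB : ‖(((1/2 - δ : ℝ) : ℂ) + t * I) - 1‖ ≤ (1 + 8 * δ) * ‖(((1/2 + δ : ℝ) : ℂ) + t * I) - 1‖ := by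
    have h1 : (((1/2 - δ : ℝ) : ℂ) + t * I) - 1 = ((((1/2 + δ : ℝ) : ℂ) + t * I) - 1) - ((2 * δ : ℝ) : ℂ) := by push_cast; ring
    have h2 : ‖(((1/2 - δ : ℝ) : ℂ) + t * I) - 1‖ ≤ ‖(((1/2 + δ : ℝ) : ℂ) + t * I) - 1‖ + 2 * δ := by
      rw [h1]
      refine (norm_sub_le _ _).trans ?_
      rw [norm_real, Real.norm_eq_abs, abs_of_nonneg (by linarith : 0 ≤ 2 * δ)]
    nlinarith
  have hK : 0 ≤ (Real.exp 1 * (|t| + 2) / (2 * Real.pi)) ^ δ := by positivity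
  calc ‖(((1/2 - δ : ℝ) : ℂ) + t * I) - 1‖ * ‖riemannZeta (((1/2 - δ : ℝ) : ℂ) + t * I)‖ 
      ≤ ((1 + 8 * δ) * ‖(((1/2 + δ : ℝ) : ℂ) + t * I) - 1‖) * ((Real.exp 1 * (|t| + 2) / (2 * Real.pi)) ^ δ * ‖riemannZeta (((1/2 + δ : ℝ) : ℂ) + t * I)‖) := by
        apply mul_le_mul hB h (norm_nonneg _)
        have : 0 ≤ 1 + 8 * δ := by linarith
        positivity
    _ = _ := by ring

lemma sq_le_tl {H R u : ℝ} (hH : 0 < H) (hu : 0 ≤ u) (t : ℝ) : 
    |t - u| ≤ R ∨ (1 + |t|) ^ 2 ≤ ((2 * (1 + u) ^ 2 + 4 * H ^ 2) / H) * tl H R (t - u) := by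
  rcases le_or_gt |t - u| R with h | h
  · left; exact h
  · right
    obtain ⟨y, hy⟩ : ∃ y : ℝ, y = t - u := ⟨_, rfl⟩
    rw [← hy] at h ⊢
    have h7 : |t| ≤ u + |y| := by
      calc |t| = |u + y| := by congr 1; rw [hy]; ring
        _ ≤ |u| + |y| := abs_add_le _ _
        _ = _ := by rw [abs_of_nonneg hu]
    have hy0 := abs_nonneg y
    have ht0 := abs_nonneg t
    obtain ⟨E, hE⟩ : ∃ E : ℝ, E = Real.exp (|y| / H) := ⟨_, rfl⟩
    have hE1 : 1 ≤ E := by rw [hE]; apply Real.one_le_exp; positivity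
    have h1 : |y| ^ 2 ≤ 2 * H ^ 2 * E := by
      have h2 := Real.quadratic_le_exp_of_nonneg (x := |y| / H) (by positivity)
      have h3 : (|y| / H) ^ 2 ≤ 2 * E := by
        rw [hE]
        have : 0 ≤ |y| / H := by positivity
        nlinarith
      rw [div_pow, div_le_iff₀ (by positivity)] at h3
      linarith
    have h3 : 1 ≤ Real.exp (-R / H) * E := by
      rw [hE, ← Real.exp_add]
      apply Real.one_le_exp
      rw [← add_div]
      apply div_nonneg _ hH.le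
      linarith
    have h4 : E * E ≤ Real.exp (2 * H⁻¹ * y) + Real.exp (-(2 * H⁻¹) * y) := by
      rw [hE, ← Real.exp_add]
      rcases abs_cases y with ⟨h5, _⟩ | ⟨h5, _⟩
      · rw [h5]
        have e : y / H + y / H = 2 * H⁻¹ * y := by rw [div_eq_mul_inv]; ring
        rw [e]
        linarith [Real.exp_pos (-(2 * H⁻¹) * y)]
      · rw [h5]
        have e : -y / H + -y / H = -(2 * H⁻¹) * y := by rw [div_eq_mul_inv]; ring
        rw [e]
        linarith [Real.exp_pos (2 * H⁻¹ * y)]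
    have h5 : (1 + |t|) ^ 2 ≤ (2 * (1 + u) ^ 2 + 4 * H ^ 2) * E := by
      calc (1 + |t|) ^ 2 ≤ ((1 + u) + |y|) ^ 2 := by
            apply pow_le_pow_left₀ (by positivity)
            linarith
        _ ≤ 2 * (1 + u) ^ 2 + 2 * |y| ^ 2 := by nlinarith [sq_nonneg ((1 + u) - |y|)]
        _ ≤ 2 * (1 + u) ^ 2 * E + 2 * (2 * H ^ 2 * E) := by
            have : 2 * (1 + u) ^ 2 ≤ 2 * (1 + u) ^ 2 * E := le_mul_of_one_le_right (by positivity) hE1
            linarith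
        _ = _ := by ring
    have hE0 : 0 ≤ E := by linarith
    calc (1 + |t|) ^ 2 ≤ (2 * (1 + u) ^ 2 + 4 * H ^ 2) * E := h5
      _ ≤ (2 * (1 + u) ^ 2 + 4 * H ^ 2) * (E * (Real.exp (-R / H) * E)) := by
          apply mul_le_mul_of_nonneg_left _ (by positivity)
          exact le_mul_of_one_le_right hE0 h3
      _ = (2 * (1 + u) ^ 2 + 4 * H ^ 2) * Real.exp (-R / H) * (E * E) := by ring
      _ ≤ (2 * (1 + u) ^ 2 + 4 * H ^ 2) * Real.exp (-R / H) * (Real.exp (2 * H⁻¹ * y) + Real.exp (-(2 * H⁻¹) * y)) := by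
          gcongr
      _ = _ := by unfold tl; field_simp

/-- Reflection bound for Gaussian means. -/
lemma reflect_En {δ : ℝ} (hδ0 : 0 ≤ δ) (hδ1 : δ ≤ 1/4) {u : ℝ} (hu : 0 ≤ u) {v : ℝ≥0} (hv : 0 < v) {R : ℝ} (hR : 0 ≤ R) : 
    En riemannZeta₁ u v (1/2 - δ) ≤ (1 + 8 * δ) * (Real.exp 1 * (u + R + 2) / (2 * Real.pi)) ^ δ * En riemannZeta₁ u v (1/2 + δ) + 
      96 * (2 * (1 + u) ^ 2 + 4 * v) * Real.exp (-R / √v) := by
  have hv' : (0:ℝ) < v := by exact_mod_cast hv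
  obtain ⟨H, hH⟩ : ∃ H : ℝ, H = √(v:ℝ) := ⟨_, rfl⟩
  have hH0 : 0 < H := by rw [hH]; exact Real.sqrt_pos.mpr hv'
  have hH2 : H ^ 2 = v := by rw [hH]; exact Real.sq_sqrt hv'.le
  obtain ⟨hi, hb⟩ := tl_integral u hv R
  rw [← hH] at hi hb ⊢
  obtain ⟨K, hK⟩ : ∃ K : ℝ, K = (1 + 8 * δ) * (Real.exp 1 * (u + R + 2) / (2 * Real.pi)) ^ δ := ⟨_, rfl⟩
  have hK0 : 0 ≤ K := by rw [hK]; have : 0 ≤ 1 + 8 * δ := by linarith
                         positivity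
  obtain ⟨D, hD⟩ : ∃ D : ℝ, D = 6 * ((2 * (1 + u) ^ 2 + 4 * H ^ 2) / H) := ⟨_, rfl⟩
  have hD0 : 0 ≤ D := by rw [hD]; positivity
  have i1 := integrable_zeta1 (x := 1/2 + δ) (by linarith) (by linarith) u v
  have i2 := integrable_zeta1 (x := 1/2 - δ) (by linarith) (by linarith) u v
  have hpt : ∀ t : ℝ, ‖riemannZeta₁ (((1/2 - δ : ℝ) : ℂ) + t * I)‖ ≤ 
      K * ‖riemannZeta₁ (((1/2 + δ : ℝ) : ℂ) + t * I)‖ + D * tl H R (t - u) := by
    intro t
    have ht := tl_nonneg hH0 R (t - u)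
    rcases sq_le_tl (R := R) hH0 hu t with h | h
    · have h1 := reflect_pt hδ0 hδ1 t
      have h2 : |t| ≤ u + R := by
        calc |t| = |u + (t - u)| := by congr 1; ring
          _ ≤ |u| + |t - u| := abs_add_le _ _
          _ ≤ _ := by rw [abs_of_nonneg hu]; linarith
      have h3 : (Real.exp 1 * (|t| + 2) / (2 * Real.pi)) ^ δ ≤ (Real.exp 1 * (u + R + 2) / (2 * Real.pi)) ^ δ := by
        apply Real.rpow_le_rpow (by positivity) _ hδ0
        gcongr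
      have h4 : 0 ≤ D * tl H R (t - u) := by positivity
      have h5 : 0 ≤ 1 + 8 * δ := by linarith
      calc ‖riemannZeta₁ (((1/2 - δ : ℝ) : ℂ) + t * I)‖ ≤ _ := h1
        _ ≤ (1 + 8 * δ) * (Real.exp 1 * (u + R + 2) / (2 * Real.pi)) ^ δ * ‖riemannZeta₁ (((1/2 + δ : ℝ) : ℂ) + t * I)‖ := by gcongr
        _ = K * ‖riemannZeta₁ (((1/2 + δ : ℝ) : ℂ) + t * I)‖ := by rw [hK]
        _ ≤ _ := by linarith
    · have h1 := norm_zeta1_line (b' := 1) (le_refl 1) (x := 1/2 - δ) ⟨by linarith, by linarith⟩ t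
      have h2 : 0 ≤ K * ‖riemannZeta₁ (((1/2 + δ : ℝ) : ℂ) + t * I)‖ := by positivity
      calc ‖riemannZeta₁ (((1/2 - δ : ℝ) : ℂ) + t * I)‖ ≤ 6 * 1 ^ 2 * (1 + |t|) ^ 2 := h1
        _ ≤ 6 * 1 ^ 2 * (((2 * (1 + u) ^ 2 + 4 * H ^ 2) / H) * tl H R (t - u)) := by gcongr
        _ = D * tl H R (t - u) := by rw [hD]; ring
        _ ≤ _ := by linarith
  calc En riemannZeta₁ u v (1/2 - δ) ≤ ∫ t : ℝ, (K * ‖riemannZeta₁ (((1/2 + δ : ℝ) : ℂ) + t * I)‖ + D * tl H R (t - u)) ∂(gaussianReal u v) := 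
        integral_mono i2 ((i1.const_mul K).add (hi.const_mul D)) hpt
    _ = K * En riemannZeta₁ u v (1/2 + δ) + D * ∫ t : ℝ, tl H R (t - u) ∂(gaussianReal u v) := by
        rw [integral_add (i1.const_mul K) (hi.const_mul D), integral_const_mul, integral_const_mul]; rfl
    _ ≤ K * En riemannZeta₁ u v (1/2 + δ) + D * (16 * H * Real.exp (-R / H)) := by
        have := mul_le_mul_of_nonneg_left hb hD0
        linarith
    _ = _ := by
        rw [hK, hD, hH2]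
        field_simp
        ring

end

end Pool.Agent.LibZM
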