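import Mathlib
import Pool.Agent.LibZM.HB10

set_option autoImplicit false

namespace Pool.Agent.LibZM

open MeasureTheory Set Filter Topology Complex ProbabilityTheory
open scoped NNReal

section

variable {θ ε : ℝ}

/-- The reflection error. -/
lemma er3_tendsto (hθ0 : 0 ≤ θ) (hθ : θ < 1) : 
    Tendsto (fun T : ℝ => 1152 * (T ^ (2:ℝ) * Real.exp (-(1 * T ^ ((1 - θ)/4))))) atTop (𝓝 0) := by
  have h := (lim_exp (by norm_num : (0:ℝ) < 1) (by linarith : 0 < (1 - θ)/4) 2).const_mul 1152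
  rwa [mul_zero] at h

lemma base_le {T u R : ℝ} (hT : 1 ≤ T) (hu : u ≤ T) (hR : R ≤ T) (h0 : 0 ≤ u + R) : 
    Real.exp 1 * (u + R + 2) / (2 * Real.pi) ≤ 2 * T := by
  have he := Real.exp_one_lt_d9
  have hpi := Real.pi_gt_three
  rw [div_le_iff₀ (by positivity)]
  have h1 : u + R + 2 ≤ 4 * T := by linarith
  have he0 := Real.exp_pos 1
  calc Real.exp 1 * (u + R + 2) ≤ 3 * (4 * T) := by
        apply mul_le_mul (by linarith) h1 (by linarith) (by norm_num)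
    _ ≤ 2 * T * (2 * Real.pi) := by nlinarith

/-- L4b: functional equation for the first moment near the critical line. -/
theorem nm_reflect (hε : 0 < ε) (hθ0 : 0 < θ) (hθ : θ < 1) {C : ℝ} (hC : 0 < C) {c η : ℝ} (hc : Real.exp C < c) (hη : 0 < η) : 
    ∀ᶠ p : ℝ × ℝ in Fl ε, nm θ (-C) p ≤ c * nm θ C p + η := by
  have f1 : Tendsto (fun T : ℝ => (1 + 8 * (C / Real.log T)) * (Real.exp C * Real.exp (C * Real.log 2 / Real.log T))) atTop 
      (𝓝 ((1 + 8 * 0) * (Real.exp C * Real.exp 0))) := 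
    (((div_log_tendsto C).const_mul 8).const_add 1).mul (((Real.continuous_exp.tendsto 0).comp (div_log_tendsto (C * Real.log 2))).const_mul (Real.exp C))
  rw [mul_zero, add_zero, one_mul, Real.exp_zero, mul_one] at f1
  have f2 := er3_tendsto hθ0.le hθ
  have g1 := (Fl_fst ε).eventually (f1.eventually_lt_const hc)
  have g2 := (Fl_fst ε).eventually (f2.eventually_lt_const hη)
  have g3 := (Fl_fst ε).eventually (Lam_tendsto.eventually_ge_atTop 1)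
  filter_upwards [g1, g2, g3, Fl_pos hε, Fl_range ε, (Fl_fst ε).eventually (lineT_mem C), 
    (Fl_fst ε).eventually (four_le_vT hθ0.le), RT_le_u hε hθ one_pos] with p h1 h2 h3 hp hr hl hv hRu
  have hT0 : 0 < p.1 := by linarith [hp.1]
  have hu0 : 0 < p.2 := by linarith [hp.2]
  have hlog := Real.log_pos hp.1
  have hL := Lam_pos hp.1
  have hv0 : 0 < vT θ p.1 := lt_of_lt_of_le (by norm_num) hv
  have hδ0 : 0 ≤ C / Real.log p.1 := by positivity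
  have hδ1 : C / Real.log p.1 ≤ 1/4 := by
    have := hl.2; unfold lineT at this; linarith
  have hR0 := (RT_pos θ hT0).le
  have hE := reflect_En hδ0 hδ1 hu0.le hv0 hR0
  rw [sqrt_vT θ hT0, neg_div, RT_div_HT hT0, vT_coe] at hE
  have hRT : RT θ p.1 ≤ p.1 := by linarith [hr.2]
  have hbase := base_le (T := p.1) (u := p.2) (R := RT θ p.1) hp.1.le hr.2 hRT (by linarith)
  have hX0 : 0 ≤ Real.exp 1 * (p.2 + RT θ p.1 + 2) / (2 * Real.pi) := by positivity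
  have hK : (Real.exp 1 * (p.2 + RT θ p.1 + 2) / (2 * Real.pi)) ^ (C / Real.log p.1) ≤ Real.exp C * Real.exp (C * Real.log 2 / Real.log p.1) := by
    refine (Real.rpow_le_rpow hX0 hbase hδ0).trans (le_of_eq ?_)
    rw [Real.rpow_def_of_pos (by positivity), ← Real.exp_add, Real.log_mul (by norm_num) hT0.ne']
    congr 1
    field_simp
    ring
  have hH := HT_le hθ.le hp.1.le
  have hH0 := (HT_pos θ hT0).le
  have hEn := En_nonneg riemannZeta₁ p.2 (vT θ p.1) (1/2 + C / Real.log p.1)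
  have herr : 96 * (2 * (1 + p.2) ^ 2 + 4 * HT θ p.1 ^ 2) * Real.exp (-p.1 ^ ((1 - θ) / 4)) ≤ η := by
    refine le_trans ?_ h2.le
    have e1 : p.1 ^ (2:ℝ) = p.1 ^ 2 := by rw [← Real.rpow_natCast]; norm_num
    rw [one_mul, e1]
    have e2 : 96 * (2 * (1 + p.2) ^ 2 + 4 * HT θ p.1 ^ 2) ≤ 1152 * p.1 ^ 2 := by
      have h4 : (1 + p.2) ^ 2 ≤ (2 * p.1) ^ 2 := by
        apply pow_le_pow_left₀ (by linarith)
        linarith [hr.2, hp.1]
      have h5 : HT θ p.1 ^ 2 ≤ p.1 ^ 2 := by gcongr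
      nlinarith
    calc _ ≤ (1152 * p.1 ^ 2) * Real.exp (-p.1 ^ ((1 - θ) / 4)) := by gcongr
      _ = _ := by ring
  have eC : lineT (-C) p.1 = 1/2 - C / Real.log p.1 := by unfold lineT; ring
  have eC' : lineT C p.1 = 1/2 + C / Real.log p.1 := rfl
  unfold nm
  rw [eC, eC']
  have hUL : 0 < p.2 * Lam p.1 := mul_pos hu0 hL
  have hUL1 : 1 ≤ p.2 * Lam p.1 := by
    have := hp.2; nlinarith
  rw [div_le_iff₀ hUL, add_mul, mul_assoc c, div_mul_cancel₀ _ hUL.ne']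
  have h6 : (1 + 8 * (C / Real.log p.1)) * (Real.exp 1 * (p.2 + RT θ p.1 + 2) / (2 * Real.pi)) ^ (C / Real.log p.1) ≤ c := by
    refine le_trans ?_ h1.le
    apply mul_le_mul_of_nonneg_left hK
    linarith
  have h7 : η ≤ η * (p.2 * Lam p.1) := le_mul_of_one_le_right hη.le hUL1
  calc _ ≤ _ := hE
    _ ≤ c * En riemannZeta₁ p.2 (vT θ p.1) (1/2 + C / Real.log p.1) + η := by
        apply add_le_add (mul_le_mul_of_nonneg_right h6 hEn) herr
    _ ≤ _ := by linarith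

end

/-- Value of the polynomial mean in the limit. -/
noncomputable def pp (σ : ℝ) : ℝ := Pint (1/4) σ 1

lemma Pint_cont (σ : ℝ) : ContinuousAt (fun l : ℝ => Pint (1/4) σ l) 1 := by
  have h := continuousAt_Pint (α := 1/4) (by norm_num) σ (θ := 1)
  simpa using h

lemma exists_theta {P : ℝ → Prop} (h : ∀ᶠ θ in 𝓝 (1:ℝ), P θ) : ∃ θ : ℝ, 0 < θ ∧ θ < 1 ∧ P θ := by
  have h1 : ∀ᶠ θ in 𝓝[<] (1:ℝ), P θ := h.filter_mono nhdsWithin_le_nhds
  have h2 : ∀ᶠ θ in 𝓝[<] (1:ℝ), 0 < θ := by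
    apply Filter.Eventually.filter_mono nhdsWithin_le_nhds
    exact lt_mem_nhds one_pos
  obtain ⟨θ, a, b, c⟩ := (h1.and (h2.and self_mem_nhdsWithin)).exists
  exact ⟨θ, b, c, a⟩

/-- Lower bound for the normalised first moment. -/
theorem nm_lower {A c₀ : ℝ} (hA : 0 < A) (hc₀ : 0 ≤ c₀) (h : c₀ * (1 + Real.exp (-A)) < pp A - Real.exp (-A) * pp 0) : 
    ∃ θ : ℝ, 0 < θ ∧ θ < 1 ∧ ∀ ε : ℝ, 0 < ε → ∀ᶠ p : ℝ × ℝ in Fl ε, c₀ ≤ nm θ 0 p := by
  have hcont : ContinuousAt (fun θ : ℝ => (Pint (1/4) A θ - (1 - θ)) - Real.exp (-(θ ^ 2 * A)) * (Pint (1/4) 0 θ + (1 - θ)) - 2 * (1 - θ) 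
      - c₀ * (θ⁻¹ + Real.exp (-(θ ^ 2 * A)))) 1 := by
    have h1 := Pint_cont A
    have h2 := Pint_cont 0
    have h3 : ContinuousAt (fun θ : ℝ => θ⁻¹) 1 := continuousAt_inv₀ one_ne_zero
    fun_prop
  have hpos : ∀ᶠ θ in 𝓝 (1:ℝ), 0 < (Pint (1/4) A θ - (1 - θ)) - Real.exp (-(θ ^ 2 * A)) * (Pint (1/4) 0 θ + (1 - θ)) - 2 * (1 - θ) 
      - c₀ * (θ⁻¹ + Real.exp (-(θ ^ 2 * A))) := by
    apply hcont.eventually_const_lt
    unfold pp at h
    norm_num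
    linarith
  obtain ⟨θ, hθ0, hθ, hP⟩ := exists_theta hpos
  refine ⟨θ, hθ0, hθ, fun ε hε => ?_⟩
  have hη : 0 < 1 - θ := by linarith
  have hc : 1 < θ⁻¹ := (one_lt_inv₀ hθ0).mpr hθ
  have hκ : θ ^ 2 < θ := by nlinarith
  have q1 := (nq_tendsto hε hθ0 hθ A).eventually_const_lt (u := Pint (1/4) A θ - (1 - θ)) (by linarith)
  have q2 := (nq_tendsto hε hθ0 hθ 0).eventually_lt_const (u := Pint (1/4) 0 θ + (1 - θ)) (by linarith)
  filter_upwards [q1, q2, tri_ev (θ := θ) hε A, tri_ev (θ := θ) hε 0, nm_mono hε hθ0 hθ hA hc hη, 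
    ng_decay hε hθ0 hθ (by positivity) hκ hA hη] with p a1 a2 a3 a4 a5 a6
  rw [sub_zero] at a6
  obtain ⟨E, hE⟩ : ∃ E : ℝ, E = Real.exp (-(θ ^ 2 * A)) := ⟨_, rfl⟩
  rw [← hE] at a6 hP
  have hE0 : 0 < E := by rw [hE]; exact Real.exp_pos _
  -- chain
  have h1 : Pint (1/4) A θ - (1 - θ) ≤ θ⁻¹ * nm θ 0 p + (1 - θ) + (E * ng θ 0 p + (1 - θ)) := by
    linarith [a3.2.1]
  have h2 : ng θ 0 p ≤ nm θ 0 p + (Pint (1/4) 0 θ + (1 - θ)) := by linarith [a4.2.2]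
  have h3 : E * ng θ 0 p ≤ E * (nm θ 0 p + (Pint (1/4) 0 θ + (1 - θ))) := by gcongr
  have h4 : c₀ * (θ⁻¹ + E) < nm θ 0 p * (θ⁻¹ + E) := by nlinarith
  have h5 : 0 < θ⁻¹ + E := by positivity
  exact (lt_of_mul_lt_mul_right h4 h5.le).le

/-- Upper bound for the normalised first moment. -/
theorem nm_upper {B C c₀ : ℝ} (hB : 0 < B) (hC : 0 < C) (hc₀ : 0 < c₀) 
    (h : Real.exp (C / 2) * (pp C + Real.exp (-C) * ((pp B + Real.exp (-B) * pp (-B)) / (1 - Real.exp (-B)))) < c₀) : 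
    ∃ θ : ℝ, 0 < θ ∧ θ < 1 ∧ ∀ ε : ℝ, 0 < ε → ∀ᶠ p : ℝ × ℝ in Fl ε, nm θ 0 p ≤ c₀ := by
  -- the coefficient of the unknown
  obtain ⟨D, hD⟩ : ∃ D : ℝ → ℝ, D = fun θ => 1 - (θ⁻¹ * (θ⁻¹ * Real.exp B)) * Real.exp (-(θ ^ 2 * B)) * Real.exp (-(θ ^ 2 * B)) := ⟨_, rfl⟩
  obtain ⟨Nf, hN⟩ : ∃ Nf : ℝ → ℝ, Nf = fun θ => Real.exp (-(θ ^ 2 * B)) * ((θ⁻¹ * (θ⁻¹ * Real.exp B)) * ((1 - θ) + (Pint (1/4) B θ + (1 - θ))) + 
    (1 - θ) + (Pint (1/4) (-B) θ + (1 - θ))) + (1 - θ) := ⟨_, rfl⟩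
  obtain ⟨X, hX⟩ : ∃ X : ℝ → ℝ, X = fun θ => Real.exp (-(θ ^ 2 * C)) * (Nf θ / D θ) + (1 - θ) + (Pint (1/4) C θ + (1 - θ)) := ⟨_, rfl⟩
  have h3 : ContinuousAt (fun θ : ℝ => θ⁻¹) 1 := continuousAt_inv₀ one_ne_zero
  have hDc : ContinuousAt D 1 := by rw [hD]; fun_prop
  have hNc : ContinuousAt Nf 1 := by
    have h1 := Pint_cont B
    have h2 := Pint_cont (-B)
    rw [hN]; fun_prop
  have hBe : Real.exp (-B) < 1 := by rw [Real.exp_lt_one_iff]; linarith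
  have hD1 : D 1 = 1 - Real.exp (-B) := by
    rw [hD]
    have : Real.exp B * Real.exp (-B) = 1 := by rw [← Real.exp_add, add_neg_cancel, Real.exp_zero]
    simp only [one_pow, one_mul, inv_one]
    rw [this, one_mul]
  have hN1 : Nf 1 = pp B + Real.exp (-B) * pp (-B) := by
    rw [hN]
    have : Real.exp (-B) * Real.exp B = 1 := by rw [← Real.exp_add, neg_add_cancel, Real.exp_zero]
    simp only [one_pow, one_mul, inv_one, sub_self, zero_add, add_zero]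
    rw [mul_add, ← mul_assoc, this, one_mul]; rfl
  have hD0 : D 1 ≠ 0 := by rw [hD1]; intro h; linarith
  have hXc : ContinuousAt X 1 := by
    have h1 := Pint_cont C
    have h2 := hNc.div hDc hD0
    rw [hX]; fun_prop
  have hX1 : X 1 = pp C + Real.exp (-C) * ((pp B + Real.exp (-B) * pp (-B)) / (1 - Real.exp (-B))) := by
    rw [hX]
    simp only [one_pow, one_mul, sub_self, add_zero]
    rw [hN1, hD1]
    unfold pp; ring
  obtain ⟨Y, hY⟩ : ∃ Y : ℝ → ℝ, Y = fun θ => θ⁻¹ * (X θ * (θ⁻¹ * Real.exp C * X θ + (1 - θ))) := ⟨_, rfl⟩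
  have hYc : ContinuousAt Y 1 := by rw [hY]; fun_prop
  have hY1 : Y 1 = (Real.exp (C/2) * X 1) ^ 2 := by
    rw [hY]
    simp only [inv_one, one_mul, sub_self, add_zero]
    have : Real.exp C = Real.exp (C/2) ^ 2 := by rw [← Real.exp_nat_mul]; congr 1; push_cast; ring
    rw [this]; ring
  have hX1p : 0 ≤ X 1 := by
    have k1 : ∀ σ, 0 ≤ pp σ := by
      intro σ
      unfold pp Pint
      apply div_nonneg _ (Real.Gamma_pos_of_pos (by norm_num)).le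
      apply intervalIntegral.integral_nonneg (by norm_num)
      intro t ht
      have := ht.1
      positivity
    have k2 := k1 B
    have k3 := k1 C
    have k4 := k1 (-B)
    rw [hX1]
    have : 0 < 1 - Real.exp (-B) := by linarith
    positivity
  rw [← hX1] at h
  have hY1lt : Y 1 < c₀ ^ 2 := by
    rw [hY1]
    exact pow_lt_pow_left₀ h (by positivity) (by norm_num)
  have ev1 : ∀ᶠ θ in 𝓝 (1:ℝ), Y θ < c₀ ^ 2 := hYc.eventually_lt_const hY1lt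
  have ev2 : ∀ᶠ θ in 𝓝 (1:ℝ), 0 < D θ := hDc.eventually_const_lt (by rw [hD1]; linarith)
  obtain ⟨θ, hθ0, hθ, hYθ, hDθ⟩ := exists_theta (ev1.and ev2)
  refine ⟨θ, hθ0, hθ, fun ε hε => ?_⟩
  have hη : 0 < 1 - θ := by linarith
  have hc : 1 < θ⁻¹ := (one_lt_inv₀ hθ0).mpr hθ
  have hκ : θ ^ 2 < θ := by nlinarith
  have hcB : Real.exp B < θ⁻¹ * Real.exp B := by
    have := Real.exp_pos B; nlinarith
  have hcC : Real.exp C < θ⁻¹ * Real.exp C := by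
    have := Real.exp_pos C; nlinarith
  have q1 := (nq_tendsto hε hθ0 hθ B).eventually_lt_const (u := Pint (1/4) B θ + (1 - θ)) (by linarith)
  have q2 := (nq_tendsto hε hθ0 hθ (-B)).eventually_lt_const (u := Pint (1/4) (-B) θ + (1 - θ)) (by linarith)
  have q3 := (nq_tendsto hε hθ0 hθ C).eventually_lt_const (u := Pint (1/4) C θ + (1 - θ)) (by linarith)
  filter_upwards [q1, q2, q3, tri_ev (θ := θ) hε B, tri_ev (θ := θ) hε (-B), tri_ev (θ := θ) hε C, 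
    ng_decay hε hθ0 hθ (by positivity) hκ hB hη, ng_decay hε hθ0 hθ (by positivity) hκ (neg_lt_zero.mpr hB) hη, 
    ng_decay hε hθ0 hθ (by positivity) hκ hC hη, nm_reflect hε hθ0 hθ hB hcB hη, nm_reflect hε hθ0 hθ hC hcC hη, 
    nm_convex hε hθ0 hC hc, Fl_pos hε] with p a1 a2 a3 t1 t2 t3 d1 d2 d3 r1 r2 cv hp
  have hu0 : 0 < p.2 := by linarith [hp.2]
  have hL := Lam_pos hp.1
  have nm0 : ∀ σ, 0 ≤ nm θ σ p := fun σ => by
    unfold nm
    exact div_nonneg (En_nonneg _ _ _ _) (by positivity)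
  have ng0 : ∀ σ, 0 ≤ ng θ σ p := fun σ => by
    unfold ng
    exact div_nonneg (En_nonneg _ _ _ _) (by positivity)
  rw [sub_zero] at d1 d3
  rw [zero_sub, neg_neg] at d2
  obtain ⟨E, hE⟩ : ∃ E : ℝ, E = Real.exp (-(θ ^ 2 * B)) := ⟨_, rfl⟩
  obtain ⟨G, hG⟩ : ∃ G : ℝ, G = Real.exp (-(θ ^ 2 * C)) := ⟨_, rfl⟩
  obtain ⟨K, hK⟩ : ∃ K : ℝ, K = θ⁻¹ * Real.exp B := ⟨_, rfl⟩
  obtain ⟨K', hK'⟩ : ∃ K' : ℝ, K' = θ⁻¹ * Real.exp C := ⟨_, rfl⟩
  have hE0 : 0 < E := by rw [hE]; exact Real.exp_pos _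
  have hG0 : 0 < G := by rw [hG]; exact Real.exp_pos _
  have hK0 : 0 < K := by rw [hK]; have := Real.exp_pos B; positivity
  have hK'0 : 0 < K' := by rw [hK']; have := Real.exp_pos C; positivity
  rw [← hE] at d1 d2
  rw [← hG] at d3
  rw [← hK] at r1
  rw [← hK'] at r2
  have hi : 1 ≤ θ⁻¹ := hc.le
  have hDv : D θ = 1 - (θ⁻¹ * K) * E * E := by rw [hD, hE, hK]
  have hNv : Nf θ = E * ((θ⁻¹ * K) * ((1 - θ) + (Pint (1/4) B θ + (1 - θ))) + (1 - θ) + (Pint (1/4) (-B) θ + (1 - θ))) + (1 - θ) := by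
    rw [hN, hE, hK]
  -- bound for the difference on the critical line
  have hg0 : ng θ 0 p ≤ Nf θ / D θ := by
    rw [le_div_iff₀ hDθ, hDv, hNv]
    have s1 : nm θ B p ≤ E * ng θ 0 p + (1 - θ) + (Pint (1/4) B θ + (1 - θ)) := by linarith [t1.1]
    have s2 : ng θ (-B) p ≤ K * nm θ B p + (1 - θ) + (Pint (1/4) (-B) θ + (1 - θ)) := by linarith [t2.2.2]
    have s3 : K * nm θ B p ≤ (θ⁻¹ * K) * (E * ng θ 0 p + (1 - θ) + (Pint (1/4) B θ + (1 - θ))) := by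
      calc K * nm θ B p ≤ K * (E * ng θ 0 p + (1 - θ) + (Pint (1/4) B θ + (1 - θ))) := by gcongr
        _ ≤ _ := by
          apply mul_le_mul_of_nonneg_right _ ((nm0 B).trans s1)
          exact le_mul_of_one_le_left hK0.le hi
    have s4 : E * ng θ (-B) p ≤ E * ((θ⁻¹ * K) * (E * ng θ 0 p + (1 - θ) + (Pint (1/4) B θ + (1 - θ))) + (1 - θ) + (Pint (1/4) (-B) θ + (1 - θ))) := by
      apply mul_le_mul_of_nonneg_left _ hE0.le
      linarith
    have s5 := d2.trans (add_le_add_left s4 (1 - θ))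
    linarith
  have hXθ : nm θ C p ≤ X θ := by
    rw [hX]
    simp only
    rw [← hG]
    have s1 : G * ng θ 0 p ≤ G * (Nf θ / D θ) := by gcongr
    linarith [t3.1]
  have hX0 : 0 ≤ X θ := (nm0 C).trans hXθ
  have hfin : nm θ 0 p ^ 2 ≤ Y θ := by
    rw [hY]
    simp only
    rw [← hK']
    refine cv.trans ?_
    have s1 : nm θ (-C) p ≤ K' * X θ + (1 - θ) := by
      have : K' * nm θ C p ≤ K' * X θ := by gcongr
      linarith
    have s2 := nm0 (-C)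
    have s3 := nm0 C
    gcongr
  have hlt : nm θ 0 p ^ 2 < c₀ ^ 2 := lt_of_le_of_lt hfin hYθ
  exact (lt_of_pow_lt_pow_left₀ 2 hc₀.le hlt).le

end Pool.Agent.LibZM
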