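import Mathlib
import Pool.Agent.LibZM.HB11

set_option autoImplicit false

namespace Pool.Agent.LibZM

open MeasureTheory Set Filter Topology Complex ProbabilityTheory
open scoped NNReal

lemma zeta1_crit' (t : ℝ) : riemannZeta₁ (((1/2 : ℝ) : ℂ) + t * I) = (crit t - 1) * riemannZeta (crit t) := by
  have e : (((1/2 : ℝ) : ℂ) + t * I) = crit t := by unfold crit; push_cast; ring
  rw [e, riemannZeta_eq_inv_sub_mul (crit_ne_one t), ← mul_assoc, mul_inv_cancel₀ (sub_ne_zero.mpr (crit_ne_one t)), one_mul]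

lemma norm_crit_sub_one (t : ℝ) : |t| ≤ ‖crit t - 1‖ ∧ ‖crit t - 1‖ ≤ 1 + |t| := by
  have h := norm_line_bounds (x := 1/2) (by norm_num) (by norm_num) t
  have e : (((1/2 : ℝ) : ℂ) + t * I) = crit t := by unfold crit; push_cast; ring
  rwa [e] at h

/-- Gaussian mean against the truncated mean. -/
lemma En_le_trunc {u T R : ℝ} {v : ℝ≥0} (hv : 0 < v) (hR : 0 ≤ R) (hu : R ≤ u) (hu' : u ≤ T - R) : 
    En riemannZeta₁ u v (1/2) ≤ (1 + u + R) * ∫ t in Icc 0 T, ‖riemannZeta (crit t)‖ ∂(gaussianReal u v) + 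
      96 * (2 * (1 + u) ^ 2 + 4 * v) * Real.exp (-R / √v) := by
  have hv' : (0:ℝ) < v := by exact_mod_cast hv
  have hu0 : 0 ≤ u := hR.trans hu
  obtain ⟨H, hH⟩ : ∃ H : ℝ, H = √(v:ℝ) := ⟨_, rfl⟩
  have hH0 : 0 < H := by rw [hH]; exact Real.sqrt_pos.mpr hv'
  have hH2 : H ^ 2 = v := by rw [hH]; exact Real.sq_sqrt hv'.le
  obtain ⟨hi, hb⟩ := tl_integral u hv R
  rw [← hH] at hi hb ⊢
  obtain ⟨D, hD⟩ : ∃ D : ℝ, D = 6 * ((2 * (1 + u) ^ 2 + 4 * H ^ 2) / H) := ⟨_, rfl⟩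
  have hD0 : 0 ≤ D := by rw [hD]; positivity
  have i1 := integrable_zeta1 (x := 1/2) (by norm_num) (by norm_num) u v
  have i2 : Integrable (fun t => ‖riemannZeta (crit t)‖) (gaussianReal u v) := by
    refine Integrable.mono' (g := fun t => 4 + 2 * |t|) ((integrable_const 4).add ((integrable_abs_gaussian u v).const_mul 2)) 
      continuous_zeta_crit.norm.aestronglyMeasurable (Eventually.of_forall fun t => ?_)
    rw [norm_norm]; exact norm_zeta_crit_le t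
  have i3 : Integrable ((Icc 0 T).indicator fun t => ‖riemannZeta (crit t)‖) (gaussianReal u v) := i2.indicator measurableSet_Icc
  have hpt : ∀ t : ℝ, ‖riemannZeta₁ (((1/2 : ℝ) : ℂ) + t * I)‖ ≤ 
      (1 + u + R) * (Icc 0 T).indicator (fun t => ‖riemannZeta (crit t)‖) t + D * tl H R (t - u) := by
    intro t
    have ht := tl_nonneg hH0 R (t - u)
    rcases sq_le_tl (R := R) hH0 hu0 t with h | h
    · have hmem : t ∈ Icc 0 T := by
        rw [abs_le] at h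
        exact ⟨by linarith [h.1], by linarith [h.2]⟩
      rw [indicator_of_mem hmem, zeta1_crit', norm_mul]
      have h2 : |t| ≤ u + R := by
        rw [abs_of_nonneg hmem.1]
        rw [abs_le] at h
        linarith [h.2]
      have h3 := (norm_crit_sub_one t).2
      have h4 : 0 ≤ D * tl H R (t - u) := by positivity
      have h5 := norm_nonneg (riemannZeta (crit t))
      have h6 : ‖crit t - 1‖ * ‖riemannZeta (crit t)‖ ≤ (1 + u + R) * ‖riemannZeta (crit t)‖ := by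
        apply mul_le_mul_of_nonneg_right _ h5
        linarith
      linarith
    · have h1 := norm_zeta1_line (b' := 1) (le_refl 1) (x := 1/2) ⟨by norm_num, by norm_num⟩ t
      have h2 : 0 ≤ (1 + u + R) * (Icc 0 T).indicator (fun t => ‖riemannZeta (crit t)‖) t := by
        apply mul_nonneg (by linarith)
        exact indicator_nonneg (fun t _ => norm_nonneg _) t
      calc ‖riemannZeta₁ (((1/2 : ℝ) : ℂ) + t * I)‖ ≤ 6 * 1 ^ 2 * (1 + |t|) ^ 2 := h1
        _ ≤ 6 * 1 ^ 2 * (((2 * (1 + u) ^ 2 + 4 * H ^ 2) / H) * tl H R (t - u)) := by gcongr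
        _ = D * tl H R (t - u) := by rw [hD]; ring
        _ ≤ _ := by linarith
  calc En riemannZeta₁ u v (1/2) ≤ ∫ t : ℝ, ((1 + u + R) * (Icc 0 T).indicator (fun t => ‖riemannZeta (crit t)‖) t + D * tl H R (t - u)) ∂(gaussianReal u v) := 
        integral_mono i1 ((i3.const_mul _).add (hi.const_mul D)) hpt
    _ = (1 + u + R) * (∫ t in Icc 0 T, ‖riemannZeta (crit t)‖ ∂(gaussianReal u v)) + D * ∫ t : ℝ, tl H R (t - u) ∂(gaussianReal u v) := by
        rw [integral_add (i3.const_mul _) (hi.const_mul D), integral_const_mul, integral_const_mul, integral_indicator measurableSet_Icc]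
    _ ≤ (1 + u + R) * (∫ t in Icc 0 T, ‖riemannZeta (crit t)‖ ∂(gaussianReal u v)) + D * (16 * H * Real.exp (-R / H)) := by
        have := mul_le_mul_of_nonneg_left hb hD0
        linarith
    _ = _ := by
        rw [hD, hH2]
        field_simp
        ring

lemma err_small {θ : ℝ} (hθ0 : 0 < θ) (hθ : θ < 1) : 
    ∀ᶠ T : ℝ in atTop, ∀ u, 0 ≤ u → u ≤ T → 96 * (2 * (1 + u) ^ 2 + 4 * (vT θ T : ℝ)) * Real.exp (-RT θ T / √(vT θ T : ℝ)) ≤ 1 := by
  filter_upwards [(er3_tendsto hθ0.le hθ).eventually_lt_const one_pos, eventually_ge_atTop 1] with T h2 hT u hu hu'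
  have hT0 : 0 < T := by linarith
  rw [sqrt_vT θ hT0, neg_div, RT_div_HT hT0, vT_coe]
  refine le_trans ?_ h2.le
  have e1 : T ^ (2:ℝ) = T ^ 2 := by rw [← Real.rpow_natCast]; norm_num
  rw [one_mul, e1]
  have hH := HT_le hθ.le hT
  have hH0 := (HT_pos θ hT0).le
  have e2 : 96 * (2 * (1 + u) ^ 2 + 4 * HT θ T ^ 2) ≤ 1152 * T ^ 2 := by
    have h4 : (1 + u) ^ 2 ≤ (2 * T) ^ 2 := by
      apply pow_le_pow_left₀ (by linarith)
      linarith
    have h5 : HT θ T ^ 2 ≤ T ^ 2 := by gcongr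
    nlinarith
  calc _ ≤ (1152 * T ^ 2) * Real.exp (-T ^ ((1 - θ) / 4)) := by gcongr
    _ = _ := by ring

/-- Lower transfer. -/
theorem lower_transfer {c₀ c₁ : ℝ} (hc1 : 0 < c₁) (hc : c₁ < c₀) {θ : ℝ} (hθ0 : 0 < θ) (hθ : θ < 1) 
    (h : ∀ ε : ℝ, 0 < ε → ∀ᶠ p : ℝ × ℝ in Fl ε, c₀ ≤ nm θ 0 p) : 
    ∀ᶠ T : ℝ in atTop, c₁ * (T * Lam T) ≤ ∫ t in Icc 0 T, ‖riemannZeta (crit t)‖ := by
  have hc0 : 0 < c₀ := hc1.trans hc
  obtain ⟨ε, hε0, hε1, hε⟩ : ∃ ε : ℝ, 0 < ε ∧ ε < 1/4 ∧ c₁ < (1 - 2 * ε) * ((1 - ε) * c₀) := by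
    have hcont : ContinuousAt (fun ε : ℝ => (1 - 2 * ε) * ((1 - ε) * c₀)) 0 := by fun_prop
    have h1 : ∀ᶠ ε : ℝ in 𝓝 0, c₁ < (1 - 2 * ε) * ((1 - ε) * c₀) := hcont.eventually_const_lt (by norm_num; exact hc)
    have h2 : ∀ᶠ ε : ℝ in 𝓝[>] 0, c₁ < (1 - 2 * ε) * ((1 - ε) * c₀) := h1.filter_mono nhdsWithin_le_nhds
    have h3 : ∀ᶠ ε : ℝ in 𝓝[>] 0, ε < 1/4 := by
      apply Filter.Eventually.filter_mono nhdsWithin_le_nhds
      exact gt_mem_nhds (by norm_num)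
    obtain ⟨ε, a, b, c⟩ := (h2.and (h3.and self_mem_nhdsWithin)).exists
    exact ⟨ε, c, b, a⟩
  have k1 := Fl_iff.mp (h ε hε0)
  have k2 := Fl_iff.mp (RT_le_u (θ := θ) hε0 hθ (δ := ε / 4) (by positivity))
  have k3 := Fl_iff.mp (Fl_pos hε0)
  have k4 : ∀ᶠ T : ℝ in atTop, 4 / (ε ^ 2 * c₀) ≤ Lam T := Lam_tendsto.eventually_ge_atTop _
  filter_upwards [k1, k2, k3, k4, err_small hθ0 hθ, four_le_vT hθ0.le, eventually_ge_atTop (4 / ε ^ 2), eventually_gt_atTop 1] with T h1 h2 h3 h4 h5 h6 h7 hT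
  have hT0 : 0 < T := by linarith
  have hL := Lam_pos hT
  have hv0 : 0 < vT θ T := lt_of_lt_of_le (by norm_num) h6
  have hR0 := (RT_pos θ hT0).le
  have hεT1 : 4 ≤ ε * (ε * T) := by
    rw [div_le_iff₀ (by positivity)] at h7; nlinarith
  have hεΛ : 4 ≤ ε ^ 2 * c₀ * Lam T := by
    rw [div_le_iff₀ (by positivity)] at h4; linarith
  have hloc : ∀ u, ε * T ≤ u → u ≤ T - ε * T → (1 - ε) * c₀ * Lam T ≤ ∫ t in Icc 0 T, ‖riemannZeta (crit t)‖ ∂(gaussianReal u (vT θ T)) := by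
    intro u hu hu'
    have huT : u ≤ T := by nlinarith
    have a1 := h1 u hu huT
    have a2 := h2 u hu huT
    have a3 := h3 u hu huT
    have hu0 : 0 < u := by linarith [a3.2]
    have hRε : RT θ T ≤ ε * T := by nlinarith
    have hmain := En_le_trunc (u := u) (T := T) (R := RT θ T) hv0 hR0 (by linarith) (by linarith)
    have herr := h5 u hu0.le huT
    have e0 : lineT 0 T = 1/2 := by unfold lineT; ring
    unfold nm at a1
    rw [e0, le_div_iff₀ (mul_pos hu0 hL)] at a1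
    obtain ⟨J, hJ⟩ : ∃ J : ℝ, J = ∫ t in Icc 0 T, ‖riemannZeta (crit t)‖ ∂(gaussianReal u (vT θ T)) := ⟨_, rfl⟩
    rw [← hJ] at hmain ⊢
    by_contra hcon
    push Not at hcon
    have b1 : (1 + u + RT θ T) * J ≤ (1 + u + RT θ T) * ((1 - ε) * c₀ * Lam T) := by
      apply mul_le_mul_of_nonneg_left hcon.le
      linarith
    have hcΛ : 0 < c₀ * Lam T := mul_pos hc0 hL
    -- (1 + R) ≤ (ε/2) u
    have b2 : 1 + RT θ T ≤ ε / 2 * u := by nlinarith
    have b3 : (1 + u + RT θ T) * ((1 - ε) * c₀ * Lam T) ≤ (1 + ε / 2) * u * ((1 - ε) * c₀ * Lam T) := by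
      apply mul_le_mul_of_nonneg_right _ _
      · linarith
      · have : 0 < 1 - ε := by linarith
        positivity
    have b4 : c₀ * (u * Lam T) ≤ (1 + ε / 2) * u * ((1 - ε) * c₀ * Lam T) + 1 := by linarith
    have b5 : (1 + ε / 2) * (1 - ε) ≤ 1 - ε / 2 := by nlinarith
    have b6 : (1 + ε / 2) * u * ((1 - ε) * c₀ * Lam T) ≤ (1 - ε / 2) * (u * (c₀ * Lam T)) := by
      calc (1 + ε / 2) * u * ((1 - ε) * c₀ * Lam T) = ((1 + ε / 2) * (1 - ε)) * (u * (c₀ * Lam T)) := by ring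
        _ ≤ _ := by gcongr
    have b7 : 1 < ε / 2 * (u * (c₀ * Lam T)) := by
      have c1 : 4 ≤ u := by nlinarith
      have c2 : 4 ≤ ε * (c₀ * Lam T) := by nlinarith [mul_pos hε0 hcΛ]
      nlinarith
    nlinarith
  have hmom := moment_ge (v := vT θ T) hv0.ne' (h := fun t => ‖riemannZeta (crit t)‖) continuous_zeta_crit.norm (fun t => norm_nonneg _) 
    (T := T) (R := ε * T) (c := (1 - ε) * c₀ * Lam T) (by nlinarith) hloc
  refine le_trans ?_ hmom
  have : c₁ * (T * Lam T) ≤ ((1 - 2 * ε) * ((1 - ε) * c₀)) * (T * Lam T) := by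
    apply mul_le_mul_of_nonneg_right hε.le (by positivity)
  calc c₁ * (T * Lam T) ≤ _ := this
    _ = _ := by ring

end Pool.Agent.LibZM
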