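import Mathlib
import Pool.Agent.LibZM.HB12

set_option autoImplicit false

namespace Pool.Agent.LibZM

open MeasureTheory Set Filter Topology Complex ProbabilityTheory
open scoped NNReal

lemma setIntegral_gaussian' {v : ℝ≥0} (hv : v ≠ 0) (u : ℝ) {s : Set ℝ} (hs : MeasurableSet s) (h : ℝ → ℝ) :
    ∫ t in s, h t ∂(gaussianReal u v) = ∫ t in s, gaussianPDFReal u v t * h t := by
  rw [← integral_indicator hs, ← integral_indicator hs, integral_gaussianReal_eq_integral_smul hv]
  congr 1; ext t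
  simp only [indicator, smul_eq_mul]
  split_ifs <;> simp

lemma mass_in (t : ℝ) {v : ℝ≥0} (hv : 0 < v) {R : ℝ} (hR : 0 < R) : 
    1 - 16 * √v * Real.exp (-R / √v) / R ≤ ∫ u in Icc (t - R) (t + R), gaussianPDFReal t v u := by
  have hv' : (0:ℝ) < v := by exact_mod_cast hv
  have hH0 : 0 < √(v:ℝ) := Real.sqrt_pos.mpr hv'
  obtain ⟨hi, hb⟩ := tl_integral t hv R
  have e1 : ∫ u in Icc (t - R) (t + R), gaussianPDFReal t v u = ∫ u in Icc (t - R) (t + R), (1:ℝ) ∂(gaussianReal t v) := by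
    rw [setIntegral_gaussian' hv.ne' t measurableSet_Icc]; simp
  rw [e1, ← integral_indicator measurableSet_Icc]
  have hpt : ∀ u : ℝ, 1 - tl (√v) R (u - t) / R ≤ (Icc (t - R) (t + R)).indicator (fun _ => (1:ℝ)) u := by
    intro u
    by_cases hu : u ∈ Icc (t - R) (t + R)
    · rw [indicator_of_mem hu]
      have := tl_nonneg hH0 R (u - t)
      have : 0 ≤ tl (√v) R (u - t) / R := by positivity
      linarith
    · rw [indicator_of_notMem hu]
      have hgt : R < |u - t| := by
        by_contra hcon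
        push Not at hcon
        rw [abs_le] at hcon
        exact hu ⟨by linarith [hcon.1], by linarith [hcon.2]⟩
      rcases abs_le_tl (R := R) hH0 (u - t) with h | h
      · linarith
      · have : 1 ≤ tl (√v) R (u - t) / R := by
          rw [le_div_iff₀ hR]; linarith
        linarith
  have hind : Integrable ((Icc (t - R) (t + R)).indicator (fun _ => (1:ℝ))) (gaussianReal t v) := 
    (integrable_const 1).indicator measurableSet_Icc
  have hlow : Integrable (fun u => 1 - tl (√v) R (u - t) / R) (gaussianReal t v) := (integrable_const 1).sub (hi.div_const R)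
  have h1 := integral_mono hlow hind hpt
  refine le_trans ?_ h1
  rw [integral_sub (integrable_const 1) (hi.div_const R), integral_div]
  simp only [integral_const, probReal_univ, smul_eq_mul, mul_one]
  have : (∫ u, tl (√v) R (u - t) ∂(gaussianReal t v)) / R ≤ 16 * √v * Real.exp (-R / √v) / R := by gcongr
  linarith

/-- Averaging over centres, upper version. -/
theorem moment_le {v : ℝ≥0} (hv : v ≠ 0) {h : ℝ → ℝ} (hc : Continuous h) (h0 : ∀ t, 0 ≤ h t) {a b α β c m : ℝ} 
    (hα : 0 < α) (hαβ : α ≤ β) (hcb : ∀ u ∈ Icc α β, ∫ t in Icc a b, t * h t ∂(gaussianReal u v) ≤ c * u) 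
    (hm : ∀ t ∈ Icc a b, m ≤ t * ∫ u in Icc α β, u⁻¹ * gaussianPDFReal t v u) : 
    m * ∫ t in Icc a b, h t ≤ c * (β - α) := by
  have hcont : ContinuousOn (Function.uncurry fun (u t : ℝ) => u⁻¹ * (gaussianPDFReal u v t * (t * h t))) (Icc α β ×ˢ Icc a b) := by
    unfold Function.uncurry
    simp only [gaussianPDFReal_def]
    apply ContinuousOn.mul
    · apply ContinuousOn.inv₀ (by fun_prop)
      intro x hx
      have := hx.1.1
      linarith
    · apply Continuous.continuousOn
      fun_prop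
  have hint : Integrable (Function.uncurry fun (u t : ℝ) => u⁻¹ * (gaussianPDFReal u v t * (t * h t))) 
      ((volume.restrict (Icc α β)).prod (volume.restrict (Icc a b))) := by
    rw [Measure.prod_restrict]
    exact hcont.integrableOn_compact (μ := volume) (isCompact_Icc.prod isCompact_Icc)
  have e1 : ∀ u, ∫ t in Icc a b, u⁻¹ * (gaussianPDFReal u v t * (t * h t)) = u⁻¹ * ∫ t in Icc a b, t * h t ∂(gaussianReal u v) := by
    intro u
    rw [integral_const_mul, setIntegral_gaussian' hv u measurableSet_Icc]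
  have hleft : ∫ u in Icc α β, (∫ t in Icc a b, u⁻¹ * (gaussianPDFReal u v t * (t * h t))) ≤ c * (β - α) := by
    calc ∫ u in Icc α β, (∫ t in Icc a b, u⁻¹ * (gaussianPDFReal u v t * (t * h t))) ≤ ∫ u in Icc α β, c := by
          refine setIntegral_mono_on hint.integral_prod_left (by simp) measurableSet_Icc fun u hu => ?_
          rw [e1]
          have hu0 : 0 < u := lt_of_lt_of_le hα hu.1
          calc u⁻¹ * ∫ t in Icc a b, t * h t ∂(gaussianReal u v) ≤ u⁻¹ * (c * u) := by
                have := hcb u hu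
                gcongr
            _ = c := by field_simp
      _ = c * (β - α) := by
          rw [setIntegral_const, smul_eq_mul, measureReal_def, Real.volume_Icc, ENNReal.toReal_ofReal (by linarith)]
          ring
  refine le_trans ?_ hleft
  rw [integral_integral_swap hint, ← integral_const_mul]
  refine setIntegral_mono_on ?_ hint.integral_prod_right measurableSet_Icc fun t ht => ?_
  · exact ((hc.continuousOn).integrableOn_compact isCompact_Icc).const_mul m
  · have e2 : ∫ u in Icc α β, u⁻¹ * (gaussianPDFReal u v t * (t * h t)) = (t * ∫ u in Icc α β, u⁻¹ * gaussianPDFReal t v u) * h t := by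
      have e3 : ∀ u, u⁻¹ * (gaussianPDFReal u v t * (t * h t)) = (u⁻¹ * gaussianPDFReal t v u) * (t * h t) := fun u => by
        rw [pdf_symm v u t]; ring
      simp_rw [e3]
      rw [integral_mul_const]; ring
    rw [e2]
    exact mul_le_mul_of_nonneg_right (hm t ht) (h0 t)

lemma Lam_mono {S T : ℝ} (hS : 1 ≤ S) (hST : S ≤ T) : Lam S ≤ Lam T := by
  unfold Lam
  have hA := Aconst_pos (κ := 1/2) (by norm_num)
  have h1 := Real.log_nonneg hS
  have h2 := Real.log_le_log (by linarith) hST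
  gcongr

lemma Lam_dilate {δ : ℝ} (hδ : 0 < δ) (hδ1 : δ ≤ 1) : ∀ᶠ T : ℝ in atTop, Lam ((1 + δ) * T) ≤ (1 + δ) * Lam T := by
  filter_upwards [Real.tendsto_log_atTop.eventually_ge_atTop (Real.log 2 / δ), eventually_gt_atTop 1] with T h1 hT
  have hl := Real.log_pos hT
  have hA := Aconst_pos (κ := 1/2) (by norm_num)
  have h2 : Real.log ((1 + δ) * T) ≤ (1 + δ) * Real.log T := by
    rw [Real.log_mul (by linarith) (by linarith)]
    have h3 : Real.log (1 + δ) ≤ Real.log 2 := Real.log_le_log (by linarith) (by linarith)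
    rw [div_le_iff₀ hδ] at h1
    linarith
  have h4 : 0 ≤ Real.log ((1 + δ) * T) := Real.log_nonneg (by nlinarith)
  unfold Lam
  calc Aconst (1/2) * Real.log ((1 + δ) * T) ^ (1/4:ℝ) ≤ Aconst (1/2) * ((1 + δ) * Real.log T) ^ (1/4:ℝ) := by gcongr
    _ = Aconst (1/2) * ((1 + δ) ^ (1/4:ℝ) * Real.log T ^ (1/4:ℝ)) := by rw [Real.mul_rpow (by linarith) hl.le]
    _ ≤ Aconst (1/2) * ((1 + δ) ^ (1:ℝ) * Real.log T ^ (1/4:ℝ)) := by
        gcongr
        · linarith
        · norm_num
    _ = _ := by rw [Real.rpow_one]; ring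

/-- One block of the upper transfer. -/
theorem upper_block {c₀ c₁ : ℝ} (hc0 : 0 < c₀) (hc : c₀ < c₁) {θ : ℝ} (hθ0 : 0 < θ) (hθ : θ < 1) 
    (h : ∀ ε : ℝ, 0 < ε → ∀ᶠ p : ℝ × ℝ in Fl ε, nm θ 0 p ≤ c₀) : 
    ∃ l : ℝ, 0 < l ∧ l < 1 ∧ ∀ᶠ T : ℝ in atTop, ∫ t in Icc (l * T) T, ‖riemannZeta (crit t)‖ ≤ (1 - l) * (c₁ * (T * Lam T)) := by
  obtain ⟨δ, hδ0, hδ1, hδ⟩ : ∃ δ : ℝ, 0 < δ ∧ δ < 1/4 ∧ (1 + δ) ^ 3 * c₀ < (1 - δ) ^ 2 * c₁ := by
    have hcont : ContinuousAt (fun δ : ℝ => (1 - δ) ^ 2 * c₁ - (1 + δ) ^ 3 * c₀) 0 := by fun_prop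
    have h1 : ∀ᶠ δ : ℝ in 𝓝 0, 0 < (1 - δ) ^ 2 * c₁ - (1 + δ) ^ 3 * c₀ := hcont.eventually_const_lt (by norm_num; exact hc)
    have h2 : ∀ᶠ δ : ℝ in 𝓝[>] 0, 0 < (1 - δ) ^ 2 * c₁ - (1 + δ) ^ 3 * c₀ := h1.filter_mono nhdsWithin_le_nhds
    have h3 : ∀ᶠ δ : ℝ in 𝓝[>] 0, δ < 1/4 := by
      apply Filter.Eventually.filter_mono nhdsWithin_le_nhds
      exact gt_mem_nhds (by norm_num)
    obtain ⟨δ, a, b, c⟩ := (h2.and (h3.and self_mem_nhdsWithin)).exists
    exact ⟨δ, c, b, by linarith⟩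
  refine ⟨δ, hδ0, by linarith, ?_⟩
  obtain ⟨ε, hε⟩ : ∃ ε : ℝ, ε = δ / 4 := ⟨_, rfl⟩
  have hε0 : 0 < ε := by rw [hε]; positivity
  have hscale : Tendsto (fun T : ℝ => (1 + δ) * T) atTop atTop := tendsto_id.const_mul_atTop (by linarith)
  have k1 := hscale.eventually (Fl_iff.mp (h ε hε0))
  have k2 := hscale.eventually (Fl_iff.mp (RT_le_u (θ := θ) hε0 hθ (δ := δ ^ 2 / 4) (by positivity)))
  have k3 := hscale.eventually (Fl_iff.mp (Fl_pos hε0))
  have k6 := hscale.eventually (four_le_vT hθ0.le)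
  have k7 := hscale.eventually ((er3_tendsto hθ0.le hθ).eventually_lt_const hδ0)
  filter_upwards [k1, k2, k3, k6, k7, Lam_dilate hδ0 (by linarith), eventually_gt_atTop 1] with T h1 h2 h3 h6 h7 h8 hT
  obtain ⟨S, hS⟩ : ∃ S : ℝ, S = (1 + δ) * T := ⟨_, rfl⟩
  rw [← hS] at h1 h2 h3 h6 h7 h8
  have hT0 : 0 < T := by linarith
  have hST : S = T + δ * T := by rw [hS]; ring
  have hδT : 0 < δ * T := by positivity
  have hS1 : 1 < S := by linarith
  have hS0 : 0 < S := by linarith
  have hLS := Lam_pos hS1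
  have hLT := Lam_pos hT
  have hv0 : 0 < vT θ S := lt_of_lt_of_le (by norm_num) h6
  have hR0 := RT_pos θ hS0
  have hεS : ε * S ≤ δ * T / 2 := by rw [hε, hS]; nlinarith
  have hεS0 : 0 < ε * S := by positivity
  have hRδ : RT θ S ≤ δ * (δ * T) := by
    have h10 := h2 S (by linarith) le_rfl
    refine h10.trans ?_
    show δ ^ 2 / 4 * S ≤ δ * (δ * T)
    have e9 : δ ^ 2 / 4 * S = (δ * (δ * T)) * ((1 + δ) / 4) := by rw [hS]; ring
    rw [e9]
    apply mul_le_of_le_one_right (by positivity)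
    linarith
  have hRδ2 : δ * (δ * T) ≤ δ * T / 4 := by nlinarith
  have hmassS : 1 - δ ≤ 1 - 16 * √(vT θ S : ℝ) * Real.exp (-RT θ S / √(vT θ S : ℝ)) / RT θ S := by
    rw [sqrt_vT θ hS0, neg_div, RT_div_HT hS0]
    have hHR : HT θ S ≤ RT θ S := by
      unfold HT RT
      exact Real.rpow_le_rpow_of_exponent_le hS1.le (by linarith)
    have e : 16 * HT θ S * Real.exp (-S ^ ((1 - θ) / 4)) / RT θ S ≤ 16 * Real.exp (-S ^ ((1 - θ) / 4)) := by
      rw [div_le_iff₀ hR0]
      have := Real.exp_pos (-S ^ ((1 - θ) / 4))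
      nlinarith
    have e2 : 16 * Real.exp (-S ^ ((1 - θ) / 4)) ≤ 1152 * (S ^ (2:ℝ) * Real.exp (-(1 * S ^ ((1 - θ)/4)))) := by
      rw [one_mul]
      have hS2 : 1 ≤ S ^ (2:ℝ) := Real.one_le_rpow hS1.le (by norm_num)
      have := Real.exp_pos (-S ^ ((1 - θ) / 4))
      nlinarith
    linarith
  have hmain : (1 - δ) / (1 + δ) * ∫ t in Icc (δ * T) T, ‖riemannZeta (crit t)‖ ≤ (c₀ * Lam S) * (S - ε * S) := by
    apply moment_le (v := vT θ S) hv0.ne' continuous_zeta_crit.norm (fun t => norm_nonneg _) hεS0 (by nlinarith)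
    · intro u hu
      have hu0 : 0 < u := lt_of_lt_of_le hεS0 hu.1
      have a1 := h1 u hu.1 hu.2
      unfold nm at a1
      have e0 : lineT 0 S = 1/2 := by unfold lineT; ring
      simp only at a1
      rw [e0, div_le_iff₀ (mul_pos hu0 hLS)] at a1
      have i1 := integrable_zeta1 (x := 1/2) (by norm_num) (by norm_num) u (vT θ S)
      have i2 : IntegrableOn (fun t => t * ‖riemannZeta (crit t)‖) (Icc (δ * T) T) (gaussianReal u (vT θ S)) := by
        have hc : Continuous (fun t => t * ‖riemannZeta (crit t)‖) := continuous_id.mul continuous_zeta_crit.norm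
        exact hc.continuousOn.integrableOn_compact isCompact_Icc
      calc ∫ t in Icc (δ * T) T, t * ‖riemannZeta (crit t)‖ ∂(gaussianReal u (vT θ S)) 
          ≤ ∫ t in Icc (δ * T) T, ‖riemannZeta₁ (((1/2 : ℝ) : ℂ) + t * I)‖ ∂(gaussianReal u (vT θ S)) := by
            refine setIntegral_mono_on i2 i1.integrableOn measurableSet_Icc fun t ht => ?_
            rw [zeta1_crit', norm_mul]
            have h4 := (norm_crit_sub_one t).1
            have h5 := le_abs_self t
            have h6 := norm_nonneg (riemannZeta (crit t))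
            apply mul_le_mul_of_nonneg_right _ h6
            linarith
        _ ≤ En riemannZeta₁ u (vT θ S) (1/2) := setIntegral_le_integral i1 (Eventually.of_forall fun t => norm_nonneg _)
        _ ≤ _ := by linarith
    · intro t ht
      have ht0 : 0 < t := lt_of_lt_of_le hδT ht.1
      have hin : Icc (t - RT θ S) (t + RT θ S) ⊆ Icc (ε * S) S := by
        apply Icc_subset_Icc
        · linarith [ht.1]
        · linarith [ht.2]
      have hRt : RT θ S ≤ δ * t := by
        refine hRδ.trans ?_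
        have := ht.1
        gcongr
      have hpos : 0 < t + RT θ S := by linarith
      have c1 : ContinuousOn (fun u : ℝ => u⁻¹ * gaussianPDFReal t (vT θ S) u) (Icc (ε * S) S) := by
        apply ContinuousOn.mul
        · apply ContinuousOn.inv₀ (by fun_prop)
          intro x hx
          have := hx.1
          linarith
        · simp only [gaussianPDFReal_def]
          apply Continuous.continuousOn
          fun_prop
      have i1 : IntegrableOn (fun u : ℝ => u⁻¹ * gaussianPDFReal t (vT θ S) u) (Icc (ε * S) S) := c1.integrableOn_compact isCompact_Icc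
      have s1 : ∫ u in Icc (t - RT θ S) (t + RT θ S), u⁻¹ * gaussianPDFReal t (vT θ S) u ≤ ∫ u in Icc (ε * S) S, u⁻¹ * gaussianPDFReal t (vT θ S) u := by
        apply setIntegral_mono_set i1 _ (LE.le.eventuallyLE hin)
        rw [EventuallyLE, ae_restrict_iff' measurableSet_Icc]
        refine Eventually.of_forall fun u hu => ?_
        have hu0 : 0 < u := lt_of_lt_of_le hεS0 hu.1
        have := gaussianPDFReal_nonneg t (vT θ S) u
        simp only [Pi.zero_apply]
        positivity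
      have s2 : (t + RT θ S)⁻¹ * ∫ u in Icc (t - RT θ S) (t + RT θ S), gaussianPDFReal t (vT θ S) u ≤ ∫ u in Icc (t - RT θ S) (t + RT θ S), u⁻¹ * gaussianPDFReal t (vT θ S) u := by
        rw [← integral_const_mul]
        refine setIntegral_mono_on ((integrable_gaussianPDFReal t (vT θ S)).integrableOn.const_mul _) (i1.mono_set hin) measurableSet_Icc fun u hu => ?_
        have hu0 : 0 < u := lt_of_lt_of_le hεS0 (hin hu).1
        have := gaussianPDFReal_nonneg t (vT θ S) u
        have h9 : (t + RT θ S)⁻¹ ≤ u⁻¹ := by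
          apply inv_anti₀ hu0 hu.2
        gcongr
      have s3 := hmassS.trans (mass_in t hv0 hR0)
      calc (1 - δ) / (1 + δ) ≤ t * ((t + RT θ S)⁻¹ * (1 - δ)) := by
            rw [div_le_iff₀ (by linarith)]
            have : t * ((t + RT θ S)⁻¹ * (1 - δ)) * (1 + δ) = (1 - δ) * ((t * (1 + δ)) / (t + RT θ S)) := by
              field_simp
            rw [this]
            have h10 : 1 ≤ (t * (1 + δ)) / (t + RT θ S) := by
              rw [le_div_iff₀ hpos]; linarith
            have h11 : 0 ≤ 1 - δ := by linarith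
            nlinarith
        _ ≤ t * ((t + RT θ S)⁻¹ * ∫ u in Icc (t - RT θ S) (t + RT θ S), gaussianPDFReal t (vT θ S) u) := by gcongr
        _ ≤ _ := by
            apply mul_le_mul_of_nonneg_left (s2.trans s1) ht0.le
  obtain ⟨J, hJ⟩ : ∃ J : ℝ, J = ∫ t in Icc (δ * T) T, ‖riemannZeta (crit t)‖ := ⟨_, rfl⟩
  rw [← hJ] at hmain ⊢
  have hJ1 : (1 - δ) * J ≤ (1 + δ) * ((c₀ * Lam S) * (S - ε * S)) := by
    have e : (1 - δ) * J = (1 + δ) * ((1 - δ) / (1 + δ) * J) := by field_simp
    rw [e]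
    apply mul_le_mul_of_nonneg_left hmain (by linarith)
  have hJ2 : (c₀ * Lam S) * (S - ε * S) ≤ (c₀ * ((1 + δ) * Lam T)) * ((1 + δ) * T) := by
    apply mul_le_mul
    · gcongr
    · rw [← hS]; linarith
    · have : ε * S ≤ S := by nlinarith
      linarith
    · positivity
  have hTL : 0 < T * Lam T := by positivity
  have hJ3 : (1 - δ) * J ≤ (1 - δ) * ((1 - δ) * (c₁ * (T * Lam T))) := by
    calc (1 - δ) * J ≤ (1 + δ) * ((c₀ * Lam S) * (S - ε * S)) := hJ1
      _ ≤ (1 + δ) * ((c₀ * ((1 + δ) * Lam T)) * ((1 + δ) * T)) := by gcongr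
      _ = ((1 + δ) ^ 3 * c₀) * (T * Lam T) := by ring
      _ ≤ ((1 - δ) ^ 2 * c₁) * (T * Lam T) := by gcongr
      _ = _ := by ring
  exact le_of_mul_le_mul_left hJ3 (by linarith)

/-- Upper transfer. -/
theorem upper_transfer {c₀ c₂ : ℝ} (hc0 : 0 < c₀) (hc : c₀ < c₂) {θ : ℝ} (hθ0 : 0 < θ) (hθ : θ < 1) 
    (h : ∀ ε : ℝ, 0 < ε → ∀ᶠ p : ℝ × ℝ in Fl ε, nm θ 0 p ≤ c₀) : 
    ∀ᶠ T : ℝ in atTop, ∫ t in Icc 0 T, ‖riemannZeta (crit t)‖ ≤ c₂ * (T * Lam T) := by
  obtain ⟨c₁, hc1, hc2⟩ := exists_between hc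
  obtain ⟨l, hl0, hl1, hl⟩ := upper_block hc0 hc1 hθ0 hθ h
  obtain ⟨T0, hT0⟩ := eventually_atTop.mp (hl.and (eventually_ge_atTop 1))
  have hT01 : 1 ≤ T0 := (hT0 T0 le_rfl).2
  obtain ⟨f, hf⟩ : ∃ f : ℝ → ℝ, f = fun t => ‖riemannZeta (crit t)‖ := ⟨_, rfl⟩
  have hfc : Continuous f := by rw [hf]; exact continuous_zeta_crit.norm
  have hf0 : ∀ t, 0 ≤ f t := fun t => by rw [hf]; exact norm_nonneg _
  have hfi : ∀ a b : ℝ, IntegrableOn f (Icc a b) := fun a b => hfc.continuousOn.integrableOn_compact isCompact_Icc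
  have hc1p : 0 < c₁ := hc0.trans hc1
  obtain ⟨C0, hC0⟩ : ∃ C0 : ℝ, C0 = ∫ t in Icc 0 T0, f t := ⟨_, rfl⟩
  have hsplit : ∀ a T : ℝ, 0 ≤ a → a ≤ T → ∫ t in Icc 0 T, f t ≤ (∫ t in Icc 0 a, f t) + ∫ t in Icc a T, f t := by
    intro a T ha haT
    rw [← Icc_union_Icc_eq_Icc ha haT]
    have hr : ∫ t in Icc 0 a ∪ Icc a T, f t ≤ ∫ t in Icc 0 a ∪ Icc a T, f t := le_rfl
    have hu := MeasureTheory.setIntegral_union₀ (μ := volume) (f := f) (s := Icc 0 a) (t := Icc a T) ?_ measurableSet_Icc.nullMeasurableSet (hfi 0 a) (hfi a T)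
    · rw [hu]
    · rw [AEDisjoint, Icc_inter_Icc_eq_singleton ha haT]; simp
  have key : ∀ n : ℕ, ∀ T : ℝ, T0 ≤ T → l ^ n * T ≤ T0 → ∫ t in Icc 0 T, f t ≤ C0 + c₁ * (T * Lam T) := by
    intro n
    induction n with
    | zero =>
      intro T h1 h2
      rw [pow_zero, one_mul] at h2
      have : T = T0 := le_antisymm h2 h1
      rw [this, hC0]
      have h3 : 0 ≤ Lam T0 := by
        unfold Lam
        have := Aconst_pos (κ := 1/2) (by norm_num)
        have := Real.log_nonneg hT01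
        positivity
      have : 0 ≤ c₁ * (T0 * Lam T0) := by positivity
      linarith
    | succ n ih =>
      intro T h1 h2
      have hTpos : 0 < T := by linarith
      have hTge : 1 ≤ T := by linarith
      have hblock := (hT0 T h1).1
      have hb : ∫ t in Icc (l * T) T, f t ≤ (1 - l) * (c₁ * (T * Lam T)) := by rw [hf]; exact hblock
      have hLT : 0 ≤ Lam T := by
        unfold Lam
        have := Aconst_pos (κ := 1/2) (by norm_num)
        have := Real.log_nonneg hTge
        positivity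
      have hlT : l * T ≤ T := by nlinarith
      have hs := hsplit (l * T) T (by positivity) hlT
      rcases le_or_gt T0 (l * T) with h3 | h3
      · have h4 := ih (l * T) h3 (by rw [pow_succ] at h2; linarith)
        have h5 : Lam (l * T) ≤ Lam T := Lam_mono (by linarith) hlT
        have h6 : c₁ * (l * T * Lam (l * T)) ≤ c₁ * (l * T * Lam T) := by gcongr
        calc ∫ t in Icc 0 T, f t ≤ _ := hs
          _ ≤ (C0 + c₁ * (l * T * Lam T)) + (1 - l) * (c₁ * (T * Lam T)) := by linarith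
          _ = _ := by ring
      · have h4 : ∫ t in Icc 0 (l * T), f t ≤ C0 := by
          rw [hC0]
          apply setIntegral_mono_set (hfi 0 T0) (Eventually.of_forall fun t => hf0 t)
          apply LE.le.eventuallyLE
          exact Icc_subset_Icc le_rfl h3.le
        have h5 : (1 - l) * (c₁ * (T * Lam T)) ≤ c₁ * (T * Lam T) := by
          have : 0 ≤ c₁ * (T * Lam T) := by positivity
          nlinarith
        linarith
  have hfin : ∀ᶠ T : ℝ in atTop, C0 ≤ (c₂ - c₁) * (T * Lam T) := by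
    have h1 : Tendsto (fun T : ℝ => (c₂ - c₁) * (T * Lam T)) atTop atTop := 
      (tendsto_id.atTop_mul_atTop₀ Lam_tendsto).const_mul_atTop (by linarith)
    exact h1.eventually_ge_atTop C0
  filter_upwards [hfin, eventually_ge_atTop T0] with T h1 h2
  have hn : ∃ n : ℕ, l ^ n * T ≤ T0 := by
    have h3 : Tendsto (fun n : ℕ => l ^ n * T) atTop (𝓝 (0 * T)) := (tendsto_pow_atTop_nhds_zero_of_lt_one hl0.le hl1).mul_const T
    rw [zero_mul] at h3
    obtain ⟨n, hn⟩ := (h3.eventually_lt_const (show (0:ℝ) < T0 by linarith)).exists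
    exact ⟨n, hn.le⟩
  obtain ⟨n, hn⟩ := hn
  have h3 := key n T h2 hn
  rw [hf] at h3
  have h4 : c₁ * (T * Lam T) + (c₂ - c₁) * (T * Lam T) = c₂ * (T * Lam T) := by ring
  linarith

end Pool.Agent.LibZM
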