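import Mathlib
import Pool.Agent.LibZM.HB11

set_option autoImplicit false

namespace Pool.Agent.LibZM

open MeasureTheory Set Filter Topology Complex ProbabilityTheory
open scoped NNReal

lemma one_le_DD {N : ℕ} (hN : 1 ≤ N) (x : ℝ) : 1 ≤ DD N x := by
  unfold DD
  have h1 : (1:ℕ) ∈ Finset.Icc 1 N := Finset.mem_Icc.mpr ⟨le_rfl, hN⟩
  have h := Finset.single_le_sum (f := fun n : ℕ => halfTrunc N n ^ 2 * (n:ℝ) ^ (-(2 * x))) (fun n _ => by positivity) h1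
  have e : halfTrunc N 1 = 1 := by
    rw [halfTrunc_apply, if_pos hN]
    exact (tau_isMultiplicative (1/2)).map_one
  simp only [e, Nat.cast_one, Real.one_rpow, one_pow, mul_one] at h
  exact h

section

variable {θ ε : ℝ}

/-- Uniform bounds for the polynomial part on all lines between 1/2 and 3/4. -/
theorem nc_q (hε : 0 < ε) (hθ0 : 0 < θ) (hθ : θ < 1) {η : ℝ} (hη : 0 < η) (hη1 : η ≤ 1) : 
    ∀ᶠ p : ℝ × ℝ in Fl ε, ∀ d : ℝ, 0 ≤ d → d ≤ 1/4 → 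
      En (Q2 (NT θ p.1)) p.2 (vT θ p.1) (1/2 + d) ≤ (1 + η) * (p.2 * DD (NT θ p.1) (1/2 + d)) ∧ 
      (1 - η) * (p.2 * DD (NT θ p.1) (1/2 + d)) ≤ En (Q2 (NT θ p.1)) p.2 (vT θ p.1) (1/2 + d) := by
  have hη4 : 0 < η / 8 := by positivity
  have g1 := (Fl_fst ε).eventually ((er1_tendsto hθ0.le hθ).eventually_lt_const hη4)
  have g2 := (Fl_fst ε).eventually ((er2_tendsto hθ0.le hθ).eventually_lt_const hη4)
  have g3 := (one_div_u hε).eventually_lt_const hη4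
  filter_upwards [Fl_pos hε, (Fl_fst ε).eventually (four_le_vT hθ0.le), RT_le_u hε hθ hη4, g1, g2, g3] with p hp hv hRu h1 h2 h3
  intro d hd0 hd1
  have hT0 : 0 < p.1 := by linarith [hp.1]
  have hu0 : 0 < p.2 := by linarith [hp.2]
  have hR0 := (RT_pos θ hT0).le
  have hRu' : RT θ p.1 ≤ p.2 := by nlinarith
  obtain ⟨b1, b2⟩ := q_bounds hu0.le hv hR0 hRu' (NT θ p.1) (x := 1/2 + d) (by linarith) (by linarith)
  have e1 : 3 * (NT θ p.1 : ℝ) ^ 2 * Real.exp (-(vT θ p.1 : ℝ) / (16 * (NT θ p.1 : ℝ) ^ 2)) * (NT θ p.1 : ℝ) ^ 4 = er1 θ p.1 := rfl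
  have e2 : (NT θ p.1 : ℝ) ^ 2 * (16 * √(vT θ p.1 : ℝ) * Real.exp (-RT θ p.1 / √(vT θ p.1 : ℝ))) = er2 θ p.1 := rfl
  rw [e1, e2] at b1 b2
  have hD := one_le_DD (one_le_NT hθ0.le hp.1.le) (1/2 + d)
  have n1 := er1_nonneg θ p.1
  have n2 := er2_nonneg θ p.1
  rw [div_lt_iff₀ hu0] at h3
  obtain ⟨D, hDD⟩ : ∃ D : ℝ, D = DD (NT θ p.1) (1/2 + d) := ⟨_, rfl⟩
  rw [← hDD] at b1 b2 hD ⊢
  obtain ⟨u, hu⟩ : ∃ u : ℝ, u = p.2 := ⟨_, rfl⟩
  rw [← hu] at b1 b2 hRu hu0 h3 ⊢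
  have huD : u ≤ u * D := le_mul_of_one_le_right hu0.le hD
  have hu1 : 1 < u := by rw [hu]; exact hp.2
  have hDpos : 0 < D := by linarith
  constructor
  · refine b1.trans ?_
    have c1 : 1 + u + RT θ p.1 ≤ (1 + η / 4) * u := by linarith
    have c2 : D + er1 θ p.1 ≤ (1 + η / 8) * D := by nlinarith
    have c3 : (1 + u + RT θ p.1) * (D + er1 θ p.1) ≤ ((1 + η / 4) * u) * ((1 + η / 8) * D) := by
      apply mul_le_mul c1 c2 (by linarith) (by positivity)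
    have c4 : er2 θ p.1 ≤ η / 8 * (u * D) := by nlinarith
    have c5 : ((1 + η / 4) * u) * ((1 + η / 8) * D) = (1 + η / 4) * (1 + η / 8) * (u * D) := by ring
    have c6 : (1 + η / 4) * (1 + η / 8) + η / 8 ≤ 1 + η := by nlinarith
    have c7 : 0 < u * D := by positivity
    nlinarith
  · refine le_trans ?_ b2
    have c1 : (1 - η / 4) * u ≤ u - RT θ p.1 := by linarith
    have c2 : (1 - η / 8) * D ≤ D - er1 θ p.1 := by nlinarith
    have c3 : ((1 - η / 4) * u) * ((1 - η / 8) * D) ≤ (u - RT θ p.1) * (D - er1 θ p.1) := by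
      apply mul_le_mul c1 c2
      · have : 0 < 1 - η / 8 := by linarith
        positivity
      · have : 0 < 1 - η / 4 := by linarith
        have : 0 < (1 - η / 4) * u := by positivity
        linarith
    have c4 : er2 θ p.1 ≤ η / 8 * (u * D) := by nlinarith
    have c5 : ((1 - η / 4) * u) * ((1 - η / 8) * D) = (1 - η / 4) * (1 - η / 8) * (u * D) := by ring
    have c6 : 1 - η ≤ (1 - η / 4) * (1 - η / 8) - η / 8 := by nlinarith
    have c7 : 0 < u * D := by positivity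
    nlinarith

end

/-- Upper bound for the mean of the difference on the critical line. -/
theorem ng_upper {B c₀ : ℝ} (hB : 0 < B) (h : (pp B + Real.exp (-B) * pp (-B)) / (1 - Real.exp (-B)) < c₀) : 
    ∀ᶠ θ : ℝ in 𝓝[<] (1:ℝ), ∀ ε : ℝ, 0 < ε → ∀ᶠ p : ℝ × ℝ in Fl ε, ng θ 0 p ≤ c₀ := by
  obtain ⟨D, hD⟩ : ∃ D : ℝ → ℝ, D = fun θ => 1 - (θ⁻¹ * (θ⁻¹ * Real.exp B)) * Real.exp (-(θ ^ 2 * B)) * Real.exp (-(θ ^ 2 * B)) := ⟨_, rfl⟩
  obtain ⟨Nf, hN⟩ : ∃ Nf : ℝ → ℝ, Nf = fun θ => Real.exp (-(θ ^ 2 * B)) * ((θ⁻¹ * (θ⁻¹ * Real.exp B)) * ((1 - θ) + (Pint (1/4) B θ + (1 - θ))) + 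
    (1 - θ) + (Pint (1/4) (-B) θ + (1 - θ))) + (1 - θ) := ⟨_, rfl⟩
  have h3 : ContinuousAt (fun θ : ℝ => θ⁻¹) 1 := continuousAt_inv₀ one_ne_zero
  have hDc : ContinuousAt D 1 := by rw [hD]; fun_prop
  have hNc : ContinuousAt Nf 1 := by
    have h1 := Pint_cont B
    have h2 := Pint_cont (-B)
    rw [hN]; fun_prop
  have hBe : Real.exp (-B) < 1 := by rw [Real.exp_lt_one_iff]; linarith
  have hD1 : D 1 = 1 - Real.exp (-B) := by
    rw [hD]
    have : Real.exp B * Real.exp (-B) = 1 := by rw [← Real.exp_add, add_neg_cancel, Real.exp_zero]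
    simp only [one_pow, one_mul, inv_one]
    rw [this, one_mul]
  have hN1 : Nf 1 = pp B + Real.exp (-B) * pp (-B) := by
    rw [hN]
    have : Real.exp (-B) * Real.exp B = 1 := by rw [← Real.exp_add, neg_add_cancel, Real.exp_zero]
    simp only [one_pow, one_mul, inv_one, sub_self, zero_add, add_zero]
    rw [mul_add, ← mul_assoc, this, one_mul]; rfl
  have hD0 : D 1 ≠ 0 := by rw [hD1]; intro h; linarith
  have hXc : ContinuousAt (fun θ => Nf θ / D θ) 1 := hNc.div hDc hD0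
  have ev1 : ∀ᶠ θ in 𝓝 (1:ℝ), Nf θ / D θ < c₀ := hXc.eventually_lt_const (by show Nf 1 / D 1 < c₀; rw [hN1, hD1]; exact h)
  have ev2 : ∀ᶠ θ in 𝓝 (1:ℝ), 0 < D θ := hDc.eventually_const_lt (by rw [hD1]; linarith)
  have ev3 : ∀ᶠ θ in 𝓝 (1:ℝ), 0 < θ := lt_mem_nhds one_pos
  filter_upwards [(ev1.and (ev2.and ev3)).filter_mono nhdsWithin_le_nhds, self_mem_nhdsWithin] with θ hev hθ ε hε
  obtain ⟨hXθ, hDθ, hθ0⟩ := hev
  rw [mem_Iio] at hθ
  have hη : 0 < 1 - θ := by linarith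
  have hc : 1 < θ⁻¹ := (one_lt_inv₀ hθ0).mpr hθ
  have hκ : θ ^ 2 < θ := by nlinarith
  have hcB : Real.exp B < θ⁻¹ * Real.exp B := by
    have := Real.exp_pos B; nlinarith
  have q1 := (nq_tendsto hε hθ0 hθ B).eventually_lt_const (u := Pint (1/4) B θ + (1 - θ)) (by linarith)
  have q2 := (nq_tendsto hε hθ0 hθ (-B)).eventually_lt_const (u := Pint (1/4) (-B) θ + (1 - θ)) (by linarith)
  filter_upwards [q1, q2, tri_ev (θ := θ) hε B, tri_ev (θ := θ) hε (-B), 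
    ng_decay hε hθ0 hθ (by positivity) hκ hB hη, ng_decay hε hθ0 hθ (by positivity) hκ (neg_lt_zero.mpr hB) hη, 
    nm_reflect hε hθ0 hθ hB hcB hη, Fl_pos hε] with p a1 a2 t1 t2 d1 d2 r1 hp
  have hu0 : 0 < p.2 := by linarith [hp.2]
  have hL := Lam_pos hp.1
  have nm0 : ∀ σ, 0 ≤ nm θ σ p := fun σ => by
    unfold nm
    exact div_nonneg (En_nonneg _ _ _ _) (by positivity)
  rw [sub_zero] at d1
  rw [zero_sub, neg_neg] at d2
  obtain ⟨E, hE⟩ : ∃ E : ℝ, E = Real.exp (-(θ ^ 2 * B)) := ⟨_, rfl⟩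
  obtain ⟨K, hK⟩ : ∃ K : ℝ, K = θ⁻¹ * Real.exp B := ⟨_, rfl⟩
  have hE0 : 0 < E := by rw [hE]; exact Real.exp_pos _
  have hK0 : 0 < K := by rw [hK]; have := Real.exp_pos B; positivity
  rw [← hE] at d1 d2
  rw [← hK] at r1
  have hi : 1 ≤ θ⁻¹ := hc.le
  have hDv : D θ = 1 - (θ⁻¹ * K) * E * E := by rw [hD, hE, hK]
  have hNv : Nf θ = E * ((θ⁻¹ * K) * ((1 - θ) + (Pint (1/4) B θ + (1 - θ))) + (1 - θ) + (Pint (1/4) (-B) θ + (1 - θ))) + (1 - θ) := by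
    rw [hN, hE, hK]
  have hg0 : ng θ 0 p ≤ Nf θ / D θ := by
    rw [le_div_iff₀ hDθ, hDv, hNv]
    have s1 : nm θ B p ≤ E * ng θ 0 p + (1 - θ) + (Pint (1/4) B θ + (1 - θ)) := by linarith [t1.1]
    have s2 : ng θ (-B) p ≤ K * nm θ B p + (1 - θ) + (Pint (1/4) (-B) θ + (1 - θ)) := by linarith [t2.2.2]
    have s3 : K * nm θ B p ≤ (θ⁻¹ * K) * (E * ng θ 0 p + (1 - θ) + (Pint (1/4) B θ + (1 - θ))) := by
      calc K * nm θ B p ≤ K * (E * ng θ 0 p + (1 - θ) + (Pint (1/4) B θ + (1 - θ))) := by gcongr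
        _ ≤ _ := by
          apply mul_le_mul_of_nonneg_right _ ((nm0 B).trans s1)
          exact le_mul_of_one_le_left hK0.le hi
    have s4 : E * ng θ (-B) p ≤ E * ((θ⁻¹ * K) * (E * ng θ 0 p + (1 - θ) + (Pint (1/4) B θ + (1 - θ))) + (1 - θ) + (Pint (1/4) (-B) θ + (1 - θ))) := by
      apply mul_le_mul_of_nonneg_left _ hE0.le
      linarith
    have s5 := d2.trans (add_le_add_left s4 (1 - θ))
    linarith
  linarith

section

variable {θ ε : ℝ}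

/-- Uniform decay of the difference on all lines between 1/2 and 3/4. -/
theorem nc_g (hε : 0 < ε) (hθ0 : 0 < θ) (hθ : θ < 1) {κ : ℝ} (hκ0 : 0 ≤ κ) (hκ : κ < θ) {K : ℝ} (hK : 1 ≤ K) 
    (hng : ∀ᶠ p : ℝ × ℝ in Fl ε, ng θ 0 p ≤ K) {c : ℝ} (hc : 1 < c) : 
    ∀ᶠ p : ℝ × ℝ in Fl ε, ∀ d : ℝ, 0 ≤ d → d ≤ 1/4 → 
      En (Gf (NT θ p.1)) p.2 (vT θ p.1) (1/2 + d) ≤ c * (K * (p.2 * Lam p.1)) * Real.exp (-(κ * d * Real.log p.1)) := by
  obtain ⟨b, hb⟩ : ∃ b : ℝ, b = 2 + 1.5 * θ / (θ - κ) := ⟨_, rfl⟩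
  have hθκ : 0 < θ - κ := by linarith
  have hb2 : 2 ≤ b := by rw [hb]; have : 0 ≤ 1.5 * θ / (θ - κ) := by positivity
                         linarith
  have hbκ : κ * (b - 1/2) < (b - 2) * θ := by
    have h1 : (b - 2) * (θ - κ) = 1.5 * θ := by rw [hb]; field_simp; ring
    nlinarith
  -- the far line
  obtain ⟨C, hC⟩ : ∃ C : ℝ, C = Z2 * (b + 1) := ⟨_, rfl⟩
  have hC0 : 0 < C := by rw [hC]; have := Z2_pos; positivity
  have hlogW : Tendsto (fun T : ℝ => (Real.log C + (2 - b) * Real.log (NT θ T)) / Real.log T) atTop (𝓝 (-((b - 2) * θ))) := by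
    have h1 := (div_log_tendsto (Real.log C)).add ((log_NT_div hθ0.le).const_mul (2 - b))
    have e : 0 + (2 - b) * θ = -((b - 2) * θ) := by ring
    rw [e] at h1
    refine h1.congr fun T => ?_
    ring
  have k1 : ∀ᶠ T : ℝ in atTop, (Real.log C + (2 - b) * Real.log (NT θ T)) / Real.log T < -(κ * (b - 1/2)) := 
    hlogW.eventually_lt_const (by linarith)
  have k2 : ∀ᶠ T : ℝ in atTop, 1 ≤ Lam T := Lam_tendsto.eventually_ge_atTop 1
  have k3 : ∀ᶠ T : ℝ in atTop, Real.exp ((b+1) ^ 2 / (2 * (vT θ T : ℝ))) < c := 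
    (exp_v_tendsto hθ0.le ((b+1) ^ 2)).eventually_lt_const hc
  filter_upwards [(Fl_fst ε).eventually k1, (Fl_fst ε).eventually k2, (Fl_fst ε).eventually k3, hng, Fl_pos hε, 
    (Fl_fst ε).eventually (four_le_vT hθ0.le), far_mean hε hθ0.le hθ b (by linarith)] with p h1 h2 h3 h4 hp hv hfar d hd0 hd1
  have hT0 : 0 < p.1 := by linarith [hp.1]
  have hu0 : 0 < p.2 := by linarith [hp.2]
  have hl := Real.log_pos hp.1
  have hv0 : 0 < vT θ p.1 := lt_of_lt_of_le (by norm_num) hv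
  have hN : (1:ℝ) ≤ NT θ p.1 := by exact_mod_cast one_le_NT hθ0.le hp.1.le
  have hN0 : (0:ℝ) < NT θ p.1 := by linarith
  have hZ := Z2_pos
  have hcv := convex_En (differentiable_Gf (NT θ p.1)) (a' := 1/4) (a := 1/2) (b := b) (b' := b + 1) 
    (C := 12 * (b+1) ^ 2 * Real.exp 1 + (b+1) * (NT θ p.1 : ℝ) ^ 2 * Real.exp 1) (by norm_num) (by linarith) 
    (by linarith) (by positivity) (growth_Gf (by linarith) _) (u := p.2) hv0 (x := 1/2 + d) (M := (b+1) ^ 2) 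
    ⟨by linarith, by linarith⟩ (by nlinarith) (by nlinarith)
  obtain ⟨Ea, hEa⟩ : ∃ Ea : ℝ, Ea = En (Gf (NT θ p.1)) p.2 (vT θ p.1) (1/2) := ⟨_, rfl⟩
  obtain ⟨Eb, hEb⟩ : ∃ Eb : ℝ, Eb = En (Gf (NT θ p.1)) p.2 (vT θ p.1) b := ⟨_, rfl⟩
  obtain ⟨τ, hτ⟩ : ∃ τ : ℝ, τ = (1/2 + d - 1/2) / (b - 1/2) := ⟨_, rfl⟩
  rw [← hEa, ← hEb, ← hτ] at hcv
  have hb12 : 0 < b - 1/2 := by linarith
  have hτ0 : 0 ≤ τ := by rw [hτ]; apply div_nonneg _ hb12.le; linarith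
  have hτ1 : τ ≤ 1 := by rw [hτ, div_le_one hb12]; linarith
  have hτb : τ * (b - 1/2) = d := by rw [hτ, div_mul_cancel₀ _ hb12.ne']; ring
  have hEa0 : 0 ≤ Ea := by rw [hEa]; exact En_nonneg _ _ _ _
  have hEb0 : 0 ≤ Eb := by rw [hEb]; exact En_nonneg _ _ _ _
  have hL : 0 < Lam p.1 := by linarith
  have hUL : 0 < p.2 * Lam p.1 := mul_pos hu0 hL
  have hEaK : Ea ≤ K * (p.2 * Lam p.1) := by
    unfold ng at h4
    rw [div_le_iff₀ hUL] at h4
    have e0 : lineT 0 p.1 = 1/2 := by unfold lineT; ring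
    rw [e0, ← hEa] at h4
    exact h4
  obtain ⟨W, hW⟩ : ∃ W : ℝ, W = C * (NT θ p.1 : ℝ) ^ (2 - b) := ⟨_, rfl⟩
  have hW0 : 0 < W := by rw [hW]; positivity
  have hEbW : Eb ≤ W * p.2 := by
    rw [hEb]
    have hK : 0 ≤ Z2 * (NT θ p.1 : ℝ) ^ (2 - b) := by positivity
    refine (En_far_le (differentiable_Gf _).continuous (by linarith) hK (fun t => far_line (one_le_NT hθ0.le hp.1.le) hb2 t) _ _).trans ?_
    refine (mul_le_mul_of_nonneg_left hfar hK).trans (le_of_eq ?_)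
    rw [hW, hC]; ring
  have hK0 : 0 < K := by linarith
  have hX : Ea ^ (1 - τ) * Eb ^ τ ≤ (K * (p.2 * Lam p.1)) * W ^ τ := by
    calc Ea ^ (1 - τ) * Eb ^ τ ≤ (K * (p.2 * Lam p.1)) ^ (1 - τ) * (W * p.2) ^ τ := by
          apply mul_le_mul
          · exact Real.rpow_le_rpow hEa0 hEaK (by linarith)
          · exact Real.rpow_le_rpow hEb0 hEbW hτ0
          · positivity
          · positivity
      _ ≤ (K * (p.2 * Lam p.1)) ^ (1 - τ) * (W * (K * (p.2 * Lam p.1))) ^ τ := by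
          apply mul_le_mul_of_nonneg_left _ (by positivity)
          apply Real.rpow_le_rpow (by positivity) _ hτ0
          apply mul_le_mul_of_nonneg_left _ hW0.le
          have c1 : p.2 ≤ p.2 * Lam p.1 := le_mul_of_one_le_right hu0.le h2
          have c2 : p.2 * Lam p.1 ≤ K * (p.2 * Lam p.1) := le_mul_of_one_le_left hUL.le hK
          linarith
      _ = ((K * (p.2 * Lam p.1)) ^ (1 - τ) * (K * (p.2 * Lam p.1)) ^ τ) * W ^ τ := by
          rw [Real.mul_rpow hW0.le (by positivity)]; ring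
      _ = _ := by
          rw [← Real.rpow_add (by positivity), sub_add_cancel, Real.rpow_one]
  have hWτ : W ^ τ ≤ Real.exp (-(κ * d * Real.log p.1)) := by
    rw [Real.rpow_def_of_pos hW0]
    apply Real.exp_le_exp.mpr
    have hlw : Real.log W = Real.log C + (2 - b) * Real.log (NT θ p.1) := by
      rw [hW, Real.log_mul hC0.ne' (by positivity), Real.log_rpow hN0]
    rw [hlw]
    rw [div_lt_iff₀ hl] at h1
    calc (Real.log C + (2 - b) * Real.log (NT θ p.1)) * τ ≤ (-(κ * (b - 1/2)) * Real.log p.1) * τ := by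
          apply mul_le_mul_of_nonneg_right h1.le hτ0
      _ = -(κ * (τ * (b - 1/2)) * Real.log p.1) := by ring
      _ = _ := by rw [hτb]
  have hexp := Real.exp_pos ((b+1) ^ 2 / (2 * (vT θ p.1 : ℝ)))
  calc En (Gf (NT θ p.1)) p.2 (vT θ p.1) (1/2 + d) ≤ Real.exp ((b+1) ^ 2 / (2 * (vT θ p.1 : ℝ))) * (Ea ^ (1 - τ) * Eb ^ τ) := hcv
    _ ≤ c * ((K * (p.2 * Lam p.1)) * Real.exp (-(κ * d * Real.log p.1))) := by
        apply mul_le_mul h3.le _ (by positivity) (by linarith)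
        refine hX.trans ?_
        apply mul_le_mul_of_nonneg_left hWτ (by positivity)
    _ = _ := by ring

end

end Pool.Agent.LibZM
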