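import Mathlib
import Pool.Agent.LibZM.HB13

set_option autoImplicit false

namespace Pool.Agent.LibZM

open MeasureTheory Set Filter Topology Complex ProbabilityTheory
open scoped NNReal

/-- One block of the upper transfer, for a general function. -/
theorem block_up {δ : ℝ} (hδ0 : 0 < δ) (hδ1 : δ < 1/4) {θ : ℝ} (hθ0 : 0 < θ) (hθ : θ < 1) : 
    ∀ᶠ T : ℝ in atTop, ∀ f g : ℝ → ℝ, Continuous f → (∀ t, 0 ≤ f t) → (∀ t, 0 ≤ g t) → (∀ t, 0 ≤ t → t * f t ≤ g t) → 
      (∀ u, Integrable g (gaussianReal u (vT θ ((1 + δ) * T)))) → ∀ c : ℝ, 0 ≤ c → 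
      (∀ u, δ / 4 * ((1 + δ) * T) ≤ u → u ≤ (1 + δ) * T → ∫ t, g t ∂(gaussianReal u (vT θ ((1 + δ) * T))) ≤ c * u) → 
      (1 - δ) / (1 + δ) * ∫ t in Icc (δ * T) T, f t ≤ c * ((1 + δ) * T) := by
  obtain ⟨ε, hε⟩ : ∃ ε : ℝ, ε = δ / 4 := ⟨_, rfl⟩
  rw [← hε]
  have hε0 : 0 < ε := by rw [hε]; positivity
  have hscale : Tendsto (fun T : ℝ => (1 + δ) * T) atTop atTop := tendsto_id.const_mul_atTop (by linarith)
  have k2 := hscale.eventually (Fl_iff.mp (RT_le_u (θ := θ) hε0 hθ (δ := δ ^ 2 / 4) (by positivity)))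
  have k6 := hscale.eventually (four_le_vT hθ0.le)
  have k7 := hscale.eventually ((er3_tendsto hθ0.le hθ).eventually_lt_const hδ0)
  filter_upwards [k2, k6, k7, eventually_gt_atTop 1] with T h2 h6 h7 hT f g hfc hf0 hg0 hfg hgi c hc0 hcu
  obtain ⟨S, hS⟩ : ∃ S : ℝ, S = (1 + δ) * T := ⟨_, rfl⟩
  rw [← hS] at h2 h6 h7 hgi hcu ⊢
  have hT0 : 0 < T := by linarith
  have hST : S = T + δ * T := by rw [hS]; ring
  have hδT : 0 < δ * T := by positivity
  have hS1 : 1 < S := by linarith
  have hS0 : 0 < S := by linarith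
  have hv0 : 0 < vT θ S := lt_of_lt_of_le (by norm_num) h6
  have hR0 := RT_pos θ hS0
  have hεS : ε * S ≤ δ * T / 2 := by rw [hε, hS]; nlinarith
  have hεS0 : 0 < ε * S := by positivity
  have hRδ : RT θ S ≤ δ * (δ * T) := by
    have h10 := h2 S (by nlinarith) le_rfl
    refine h10.trans ?_
    show δ ^ 2 / 4 * S ≤ δ * (δ * T)
    have e9 : δ ^ 2 / 4 * S = (δ * (δ * T)) * ((1 + δ) / 4) := by rw [hS]; ring
    rw [e9]
    apply mul_le_of_le_one_right (by positivity)
    linarith
  have hRδ2 : δ * (δ * T) ≤ δ * T / 4 := by nlinarith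
  have hmassS : 1 - δ ≤ 1 - 16 * √(vT θ S : ℝ) * Real.exp (-RT θ S / √(vT θ S : ℝ)) / RT θ S := by
    rw [sqrt_vT θ hS0, neg_div, RT_div_HT hS0]
    have hHR : HT θ S ≤ RT θ S := by
      unfold HT RT
      exact Real.rpow_le_rpow_of_exponent_le hS1.le (by linarith)
    have e : 16 * HT θ S * Real.exp (-S ^ ((1 - θ) / 4)) / RT θ S ≤ 16 * Real.exp (-S ^ ((1 - θ) / 4)) := by
      rw [div_le_iff₀ hR0]
      have := Real.exp_pos (-S ^ ((1 - θ) / 4))
      nlinarith
    have e2 : 16 * Real.exp (-S ^ ((1 - θ) / 4)) ≤ 1152 * (S ^ (2:ℝ) * Real.exp (-(1 * S ^ ((1 - θ)/4)))) := by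
      rw [one_mul]
      have hS2 : 1 ≤ S ^ (2:ℝ) := Real.one_le_rpow hS1.le (by norm_num)
      have := Real.exp_pos (-S ^ ((1 - θ) / 4))
      nlinarith
    linarith
  have hmain : (1 - δ) / (1 + δ) * ∫ t in Icc (δ * T) T, f t ≤ c * (S - ε * S) := by
    apply moment_le (v := vT θ S) hv0.ne' hfc hf0 hεS0 (by nlinarith)
    · intro u hu
      have i2 : IntegrableOn (fun t => t * f t) (Icc (δ * T) T) (gaussianReal u (vT θ S)) := by
        have hc : Continuous (fun t => t * f t) := continuous_id.mul hfc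
        exact hc.continuousOn.integrableOn_compact isCompact_Icc
      calc ∫ t in Icc (δ * T) T, t * f t ∂(gaussianReal u (vT θ S)) 
          ≤ ∫ t in Icc (δ * T) T, g t ∂(gaussianReal u (vT θ S)) := by
            refine setIntegral_mono_on i2 (hgi u).integrableOn measurableSet_Icc fun t ht => ?_
            exact hfg t (by linarith [ht.1])
        _ ≤ ∫ t, g t ∂(gaussianReal u (vT θ S)) := setIntegral_le_integral (hgi u) (Eventually.of_forall fun t => hg0 t)
        _ ≤ _ := hcu u hu.1 hu.2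
    · intro t ht
      have ht0 : 0 < t := lt_of_lt_of_le hδT ht.1
      have hin : Icc (t - RT θ S) (t + RT θ S) ⊆ Icc (ε * S) S := by
        apply Icc_subset_Icc
        · linarith [ht.1]
        · linarith [ht.2]
      have hRt : RT θ S ≤ δ * t := by
        refine hRδ.trans ?_
        have := ht.1
        gcongr
      have hpos : 0 < t + RT θ S := by linarith
      have c1 : ContinuousOn (fun u : ℝ => u⁻¹ * gaussianPDFReal t (vT θ S) u) (Icc (ε * S) S) := by
        apply ContinuousOn.mul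
        · apply ContinuousOn.inv₀ (by fun_prop)
          intro x hx
          have := hx.1
          linarith
        · simp only [gaussianPDFReal_def]
          apply Continuous.continuousOn
          fun_prop
      have i1 : IntegrableOn (fun u : ℝ => u⁻¹ * gaussianPDFReal t (vT θ S) u) (Icc (ε * S) S) := c1.integrableOn_compact isCompact_Icc
      have s1 : ∫ u in Icc (t - RT θ S) (t + RT θ S), u⁻¹ * gaussianPDFReal t (vT θ S) u ≤ ∫ u in Icc (ε * S) S, u⁻¹ * gaussianPDFReal t (vT θ S) u := by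
        apply setIntegral_mono_set i1 _ (LE.le.eventuallyLE hin)
        rw [EventuallyLE, ae_restrict_iff' measurableSet_Icc]
        refine Eventually.of_forall fun u hu => ?_
        have hu0 : 0 < u := lt_of_lt_of_le hεS0 hu.1
        have := gaussianPDFReal_nonneg t (vT θ S) u
        simp only [Pi.zero_apply]
        positivity
      have s2 : (t + RT θ S)⁻¹ * ∫ u in Icc (t - RT θ S) (t + RT θ S), gaussianPDFReal t (vT θ S) u ≤ ∫ u in Icc (t - RT θ S) (t + RT θ S), u⁻¹ * gaussianPDFReal t (vT θ S) u := by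
        rw [← integral_const_mul]
        refine setIntegral_mono_on ((integrable_gaussianPDFReal t (vT θ S)).integrableOn.const_mul _) (i1.mono_set hin) measurableSet_Icc fun u hu => ?_
        have hu0 : 0 < u := lt_of_lt_of_le hεS0 (hin hu).1
        have := gaussianPDFReal_nonneg t (vT θ S) u
        have h9 : (t + RT θ S)⁻¹ ≤ u⁻¹ := by
          apply inv_anti₀ hu0 hu.2
        gcongr
      have s3 := hmassS.trans (mass_in t hv0 hR0)
      calc (1 - δ) / (1 + δ) ≤ t * ((t + RT θ S)⁻¹ * (1 - δ)) := by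
            rw [div_le_iff₀ (by linarith)]
            have : t * ((t + RT θ S)⁻¹ * (1 - δ)) * (1 + δ) = (1 - δ) * ((t * (1 + δ)) / (t + RT θ S)) := by
              field_simp
            rw [this]
            have h10 : 1 ≤ (t * (1 + δ)) / (t + RT θ S) := by
              rw [le_div_iff₀ hpos]; linarith
            have h11 : 0 ≤ 1 - δ := by linarith
            nlinarith
        _ ≤ t * ((t + RT θ S)⁻¹ * ∫ u in Icc (t - RT θ S) (t + RT θ S), gaussianPDFReal t (vT θ S) u) := by gcongr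
        _ ≤ _ := by
            apply mul_le_mul_of_nonneg_left (s2.trans s1) ht0.le
  refine hmain.trans ?_
  apply mul_le_mul_of_nonneg_left _ hc0
  linarith

/-- Summation over blocks. -/
theorem block_sum {f A Λ : ℝ → ℝ} (hfc : Continuous f) (hf0 : ∀ t, 0 ≤ f t) {l a c1 c2 C0 T0 : ℝ} (hl0 : 0 < l) (hl1 : l < 1) 
    (ha0 : 0 < a) (ha1 : a ≤ 1) (hc1 : 0 ≤ c1) (hc2 : 0 ≤ c2) (hT01 : 1 ≤ T0) 
    (hA0 : ∀ T, 1 ≤ T → 0 ≤ A T) (hA : ∀ S T, 1 ≤ S → S ≤ T → A S ≤ A T) 
    (hΛ0 : ∀ T, 1 ≤ T → 0 ≤ Λ T) (hΛ : ∀ S T, 1 ≤ S → S ≤ T → Λ S ≤ Λ T) (hC0 : ∫ t in Icc 0 T0, f t ≤ C0) 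
    (hblock : ∀ T, T0 ≤ T → ∫ t in Icc (l * T) T, f t ≤ (1 - l) * (c1 * (T * A T) + c2 * (T ^ a * Λ T))) : 
    ∀ T, T0 ≤ T → ∫ t in Icc 0 T, f t ≤ C0 + c1 * (T * A T) + c2 / a * (T ^ a * Λ T) := by
  have hfi : ∀ a b : ℝ, IntegrableOn f (Icc a b) := fun a b => hfc.continuousOn.integrableOn_compact isCompact_Icc
  have hsplit : ∀ a T : ℝ, 0 ≤ a → a ≤ T → ∫ t in Icc 0 T, f t ≤ (∫ t in Icc 0 a, f t) + ∫ t in Icc a T, f t := by
    intro a T ha haT
    rw [← Icc_union_Icc_eq_Icc ha haT]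
    have hu := MeasureTheory.setIntegral_union₀ (μ := volume) (f := f) (s := Icc 0 a) (t := Icc a T) ?_ measurableSet_Icc.nullMeasurableSet (hfi 0 a) (hfi a T)
    · rw [hu]
    · rw [AEDisjoint, Icc_inter_Icc_eq_singleton ha haT]; simp
  have hla : l ^ a ≤ 1 - a * (1 - l) := by
    have h := _root_.rpow_one_add_le_one_add_mul_self (s := l - 1) (by linarith) ha0.le ha1
    have e : 1 + (l - 1) = l := by ring
    rw [e] at h
    linarith
  have hla0 : 0 ≤ l ^ a := Real.rpow_nonneg hl0.le a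
  have key : ∀ n : ℕ, ∀ T : ℝ, T0 ≤ T → l ^ n * T ≤ T0 → ∫ t in Icc 0 T, f t ≤ C0 + c1 * (T * A T) + c2 / a * (T ^ a * Λ T) := by
    intro n
    induction n with
    | zero =>
      intro T h1 h2
      rw [pow_zero, one_mul] at h2
      have hTT : T = T0 := le_antisymm h2 h1
      rw [hTT]
      have h3 := hA0 T0 hT01
      have h4 := hΛ0 T0 hT01
      have h5 : 0 ≤ c1 * (T0 * A T0) := by positivity
      have h6 : 0 ≤ c2 / a * (T0 ^ a * Λ T0) := by positivity
      linarith
    | succ n ih =>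
      intro T h1 h2
      have hTpos : 0 < T := by linarith
      have hTge : 1 ≤ T := by linarith
      have hb := hblock T h1
      have hlT : l * T ≤ T := by nlinarith
      have hs := hsplit (l * T) T (by positivity) hlT
      have hAT := hA0 T hTge
      have hΛT := hΛ0 T hTge
      rcases le_or_gt T0 (l * T) with h3 | h3
      · have h4 := ih (l * T) h3 (by rw [pow_succ] at h2; linarith)
        have h5 : A (l * T) ≤ A T := hA _ _ (by linarith) hlT
        have h6 : Λ (l * T) ≤ Λ T := hΛ _ _ (by linarith) hlT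
        have h7 : c1 * (l * T * A (l * T)) ≤ c1 * (l * T * A T) := by gcongr
        have h8 : c2 / a * ((l * T) ^ a * Λ (l * T)) ≤ c2 / a * ((l * T) ^ a * Λ T) := by gcongr
        rw [Real.mul_rpow hl0.le hTpos.le] at h4 h8
        have h9 : c2 / a * (l ^ a * T ^ a * Λ T) + (1 - l) * (c2 * (T ^ a * Λ T)) ≤ c2 / a * (T ^ a * Λ T) := by
          have e1 : c2 / a * (T ^ a * Λ T) - (c2 / a * (l ^ a * T ^ a * Λ T) + (1 - l) * (c2 * (T ^ a * Λ T))) = 
              c2 / a * (T ^ a * Λ T) * ((1 - a * (1 - l)) - l ^ a) := by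
            field_simp
            ring
          have e2 : 0 ≤ c2 / a * (T ^ a * Λ T) * ((1 - a * (1 - l)) - l ^ a) := by
            apply mul_nonneg (by positivity)
            linarith
          linarith
        have h10 : ∫ t in Icc 0 (l * T), f t ≤ C0 + c1 * (l * T * A T) + c2 / a * (l ^ a * T ^ a * Λ T) := by linarith
        calc ∫ t in Icc 0 T, f t ≤ _ := hs
          _ ≤ (C0 + c1 * (l * T * A T) + c2 / a * (l ^ a * T ^ a * Λ T)) + (1 - l) * (c1 * (T * A T) + c2 * (T ^ a * Λ T)) := add_le_add h10 hb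
          _ = C0 + c1 * (T * A T) + (c2 / a * (l ^ a * T ^ a * Λ T) + (1 - l) * (c2 * (T ^ a * Λ T))) := by ring
          _ ≤ _ := by linarith
      · have h4 : ∫ t in Icc 0 (l * T), f t ≤ C0 := by
          refine le_trans ?_ hC0
          apply setIntegral_mono_set (hfi 0 T0) (Eventually.of_forall fun t => hf0 t)
          apply LE.le.eventuallyLE
          exact Icc_subset_Icc le_rfl h3.le
        have h5 : (1 - l) * (c1 * (T * A T) + c2 * (T ^ a * Λ T)) ≤ c1 * (T * A T) + c2 / a * (T ^ a * Λ T) := by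
          have e1 : 0 ≤ c1 * (T * A T) := by positivity
          have e2 : 0 ≤ c2 * (T ^ a * Λ T) := by positivity
          have e3 : c2 * (T ^ a * Λ T) ≤ c2 / a * (T ^ a * Λ T) := by
            have : c2 ≤ c2 / a := by
              rw [le_div_iff₀ ha0]; nlinarith
            gcongr
          nlinarith
        linarith
  intro T hT
  have hn : ∃ n : ℕ, l ^ n * T ≤ T0 := by
    have h3 : Tendsto (fun n : ℕ => l ^ n * T) atTop (𝓝 (0 * T)) := (tendsto_pow_atTop_nhds_zero_of_lt_one hl0.le hl1).mul_const T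
    rw [zero_mul] at h3
    obtain ⟨n, hn⟩ := (h3.eventually_lt_const (show (0:ℝ) < T0 by linarith)).exists
    exact ⟨n, hn.le⟩
  obtain ⟨n, hn⟩ := hn
  exact key n T hT hn

/-- Lower transfer for a general function. -/
theorem block_low {ε : ℝ} (hε0 : 0 < ε) (hε1 : ε < 1/4) {θ : ℝ} (hθ0 : 0 < θ) (hθ : θ < 1) : 
    ∀ᶠ T : ℝ in atTop, ∀ f g : ℝ → ℝ, Continuous f → (∀ t, 0 ≤ f t) → Continuous g → (∀ t, 0 ≤ g t) → 
      (∀ t, 0 ≤ t → g t ≤ (1 + t) * f t) → (∀ t, g t ≤ 6 * (1 + |t|) ^ 2) → ∀ c : ℝ, 0 ≤ c → 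
      (∀ u, ε * T ≤ u → u ≤ T → c * u ≤ ∫ t, g t ∂(gaussianReal u (vT θ T))) → 
      (T - 2 * (ε * T)) * ((1 - ε) * c - ε) ≤ ∫ t in Icc 0 T, f t := by
  have k2 := Fl_iff.mp (RT_le_u (θ := θ) hε0 hθ (δ := ε / 4) (by positivity))
  have k3 := Fl_iff.mp (Fl_pos hε0)
  filter_upwards [k2, k3, err_small hθ0 hθ, four_le_vT hθ0.le, eventually_ge_atTop (4 / ε ^ 2), eventually_gt_atTop 1] with 
    T h2 h3 h5 h6 h7 hT f g hfc hf0 hgc hg0 hgf hg6 c hc0 hcu
  have hT0 : 0 < T := by linarith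
  have hv0 : 0 < vT θ T := lt_of_lt_of_le (by norm_num) h6
  have hv' : (0:ℝ) < vT θ T := by exact_mod_cast hv0
  have hR0 := (RT_pos θ hT0).le
  have hεT1 : 4 ≤ ε * (ε * T) := by
    rw [div_le_iff₀ (by positivity)] at h7; nlinarith
  have hloc : ∀ u, ε * T ≤ u → u ≤ T - ε * T → (1 - ε) * c - ε ≤ ∫ t in Icc 0 T, f t ∂(gaussianReal u (vT θ T)) := by
    intro u hu hu'
    have huT : u ≤ T := by nlinarith
    have a1 := hcu u hu huT
    have a2 := h2 u hu huT
    have a3 := h3 u hu huT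
    have hu0 : 0 < u := by linarith [a3.2]
    have hRε : RT θ T ≤ ε * T := by nlinarith
    have herr := h5 u hu0.le huT
    obtain ⟨R, hR⟩ : ∃ R : ℝ, R = RT θ T := ⟨_, rfl⟩
    obtain ⟨v, hv⟩ : ∃ v : ℝ≥0, v = vT θ T := ⟨_, rfl⟩
    rw [← hR] at a2 hR0 hRε herr
    rw [← hv] at hv0 hv' a1 herr ⊢
    obtain ⟨H, hH⟩ : ∃ H : ℝ, H = √(v:ℝ) := ⟨_, rfl⟩
    have hH0 : 0 < H := by rw [hH]; exact Real.sqrt_pos.mpr hv'
    have hH2 : H ^ 2 = v := by rw [hH]; exact Real.sq_sqrt hv'.le
    obtain ⟨hi, hb⟩ := tl_integral u hv0 R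
    rw [← hH] at hi hb herr
    obtain ⟨D, hD⟩ : ∃ D : ℝ, D = 6 * ((2 * (1 + u) ^ 2 + 4 * H ^ 2) / H) := ⟨_, rfl⟩
    have hD0 : 0 ≤ D := by rw [hD]; positivity
    have i3 : Integrable ((Icc 0 T).indicator f) (gaussianReal u v) := by
      rw [integrable_indicator_iff measurableSet_Icc]
      exact hfc.continuousOn.integrableOn_compact isCompact_Icc
    have hpt : ∀ t : ℝ, g t ≤ (1 + u + R) * (Icc 0 T).indicator f t + D * tl H R (t - u) := by
      intro t
      have ht := tl_nonneg hH0 R (t - u)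
      rcases sq_le_tl (R := R) hH0 hu0.le t with h | h
      · have hmem : t ∈ Icc 0 T := by
          rw [abs_le] at h
          exact ⟨by linarith [h.1], by linarith [h.2]⟩
        rw [indicator_of_mem hmem]
        have h2 : t ≤ u + R := by
          rw [abs_le] at h
          linarith [h.2]
        have h4 : 0 ≤ D * tl H R (t - u) := by positivity
        have h6 : g t ≤ (1 + u + R) * f t := by
          refine (hgf t hmem.1).trans ?_
          apply mul_le_mul_of_nonneg_right _ (hf0 t)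
          linarith
        linarith
      · have h1 := hg6 t
        have h2 : 0 ≤ (1 + u + R) * (Icc 0 T).indicator f t := by
          apply mul_nonneg (by linarith)
          exact indicator_nonneg (fun t _ => hf0 t) t
        calc g t ≤ 6 * (1 + |t|) ^ 2 := h1
          _ ≤ 6 * (((2 * (1 + u) ^ 2 + 4 * H ^ 2) / H) * tl H R (t - u)) := by gcongr
          _ = D * tl H R (t - u) := by rw [hD]; ring
          _ ≤ _ := by linarith
    have i1 : Integrable g (gaussianReal u v) := by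
      refine Integrable.mono' ((i3.const_mul (1 + u + R)).add (hi.const_mul D)) hgc.aestronglyMeasurable (Eventually.of_forall fun t => ?_)
      rw [Real.norm_eq_abs, abs_of_nonneg (hg0 t)]
      exact hpt t
    obtain ⟨J, hJ⟩ : ∃ J : ℝ, J = ∫ t in Icc 0 T, f t ∂(gaussianReal u v) := ⟨_, rfl⟩
    rw [← hJ]
    have hmain : ∫ t, g t ∂(gaussianReal u v) ≤ (1 + u + R) * J + 1 := by
      calc ∫ t, g t ∂(gaussianReal u v) ≤ ∫ t : ℝ, ((1 + u + R) * (Icc 0 T).indicator f t + D * tl H R (t - u)) ∂(gaussianReal u v) := 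
            integral_mono i1 ((i3.const_mul _).add (hi.const_mul D)) hpt
        _ = (1 + u + R) * J + D * ∫ t : ℝ, tl H R (t - u) ∂(gaussianReal u v) := by
            rw [integral_add (i3.const_mul _) (hi.const_mul D), integral_const_mul, integral_const_mul, integral_indicator measurableSet_Icc, hJ]
        _ ≤ (1 + u + R) * J + D * (16 * H * Real.exp (-R / H)) := by
            have := mul_le_mul_of_nonneg_left hb hD0
            linarith
        _ ≤ _ := by
            have e : D * (16 * H * Real.exp (-R / H)) = 96 * (2 * (1 + u) ^ 2 + 4 * (v:ℝ)) * Real.exp (-R / H) := by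
              rw [hD, ← hH2]
              field_simp
              ring
            rw [e]
            linarith
    by_contra hcon
    push Not at hcon
    have b2 : 1 + R ≤ ε / 2 * u := by nlinarith
    have hu4 : 4 ≤ u := by nlinarith
    rcases le_or_gt ((1 - ε) * c - ε) 0 with h0 | h0
    · have hJ0 : 0 ≤ J := by rw [hJ]; exact integral_nonneg fun t => hf0 t
      linarith
    · have b1 : (1 + u + R) * J ≤ (1 + ε / 2) * u * ((1 - ε) * c - ε) := by
        calc (1 + u + R) * J ≤ (1 + u + R) * ((1 - ε) * c - ε) := by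
              apply mul_le_mul_of_nonneg_left hcon.le
              linarith
          _ ≤ _ := by
              apply mul_le_mul_of_nonneg_right _ h0.le
              linarith
      have b4 : c * u ≤ (1 + ε / 2) * u * ((1 - ε) * c - ε) + 1 := by linarith
      have b5 : (1 + ε / 2) * (1 - ε) ≤ 1 := by nlinarith
      have hεu : 4 ≤ ε * u := by nlinarith
      have b6 : (1 + ε / 2) * u * ((1 - ε) * c - ε) ≤ c * u - 4 := by
        have e1 : (1 + ε / 2) * u * ((1 - ε) * c - ε) = ((1 + ε / 2) * (1 - ε)) * (c * u) - (1 + ε / 2) * (ε * u) := by ring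
        rw [e1]
        have e2 : 0 ≤ c * u := by positivity
        have e3 : ((1 + ε / 2) * (1 - ε)) * (c * u) ≤ c * u := mul_le_of_le_one_left e2 b5
        have e4 : ε * u ≤ (1 + ε / 2) * (ε * u) := by
          apply le_mul_of_one_le_left (by positivity)
          linarith
        linarith
      linarith
  exact moment_ge (v := vT θ T) hv0.ne' hfc hf0 (T := T) (R := ε * T) (c := (1 - ε) * c - ε) (by nlinarith) hloc

end Pool.Agent.LibZM
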