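import Mathlib
import Pool.Agent.LibZM.NC1
import Pool.Agent.LibZM.NC2

set_option autoImplicit false

namespace Pool.Agent.LibZM

open MeasureTheory Set Filter Topology Complex ProbabilityTheory
open scoped NNReal

/-- Truncated main term at distance `d` from the critical line. -/
noncomputable def SN (T d : ℝ) : ℝ := ∑ n ∈ Finset.Icc 1 ⌊T⌋₊, tau (1/2) n ^ 2 * (n:ℝ) ^ (-(1 + 2 * d))

lemma DD_eq (N : ℕ) (d : ℝ) : DD N (1/2 + d) = ∑ n ∈ Finset.Icc 1 N, tau (1/2) n ^ 2 * (n:ℝ) ^ (-(1 + 2 * d)) := by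
  unfold DD
  refine Finset.sum_congr rfl fun n hn => ?_
  obtain ⟨hn1, hn2⟩ := Finset.mem_Icc.mp hn
  rw [halfTrunc_apply, if_pos hn2]
  congr 2; ring

lemma SN_eq_DD (T d : ℝ) : SN T d = DD ⌊T⌋₊ (1/2 + d) := by rw [DD_eq]; rfl

lemma one_le_SN {T : ℝ} (hT : 1 ≤ T) (d : ℝ) : 1 ≤ SN T d := by
  rw [SN_eq_DD]
  exact one_le_DD (Nat.le_floor (by simpa using hT)) _

lemma DD_mono {M N : ℕ} (h : M ≤ N) (d : ℝ) : DD M (1/2 + d) ≤ DD N (1/2 + d) := by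
  rw [DD_eq, DD_eq]
  apply Finset.sum_le_sum_of_subset_of_nonneg (Finset.Icc_subset_Icc_right h)
  intro n _ _
  positivity

lemma SN_mono {S T : ℝ} (h : S ≤ T) (d : ℝ) : SN S d ≤ SN T d := by
  rw [SN_eq_DD, SN_eq_DD]
  exact DD_mono (Nat.floor_le_floor h) d

lemma DD_NT_le_SN {θ : ℝ} (hθ : θ ≤ 1) {T : ℝ} (hT : 1 ≤ T) (d : ℝ) : DD (NT θ T) (1/2 + d) ≤ SN T d := by
  rw [SN_eq_DD]
  apply DD_mono
  apply Nat.floor_le_floor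
  calc T ^ θ ≤ T ^ (1:ℝ) := Real.rpow_le_rpow_of_exponent_le hT hθ
    _ = T := Real.rpow_one T

lemma tau_half_sq_le_one (n : ℕ) : tau (1/2) n ^ 2 ≤ 1 := by
  have h := tau_sq_le (κ := 1/2) (by norm_num) n
  have h2 := tau_mono (α := (1/2:ℝ)^2) (β := 1) (by positivity) (by norm_num) n
  refine h.trans (h2.trans ?_)
  rcases Nat.eq_zero_or_pos n with rfl | hn
  · simp
  · rw [tau_one_apply (by omega)]

lemma SN_dilate {δ : ℝ} (hδ : 0 < δ) {T : ℝ} (hT : 1 ≤ δ * T) (hT1 : 1 ≤ T) {d : ℝ} (hd : 0 ≤ d) : 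
    SN ((1 + δ) * T) d ≤ (1 + 4 * δ) * SN T d := by
  have hT0 : 0 < T := by linarith
  have h1 := one_le_SN hT1 d
  have hfl : ⌊T⌋₊ ≤ ⌊(1 + δ) * T⌋₊ := Nat.floor_le_floor (by nlinarith)
  have hsub : Finset.Icc 1 ⌊T⌋₊ ⊆ Finset.Icc 1 ⌊(1 + δ) * T⌋₊ := Finset.Icc_subset_Icc_right hfl
  have hsd := Finset.sum_sdiff (f := fun n : ℕ => tau (1/2) n ^ 2 * (n:ℝ) ^ (-(1 + 2 * d))) hsub
  have hb : ∑ n ∈ Finset.Icc 1 ⌊(1 + δ) * T⌋₊ \ Finset.Icc 1 ⌊T⌋₊, tau (1/2) n ^ 2 * (n:ℝ) ^ (-(1 + 2 * d)) ≤ 4 * δ := by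
    have hcard : ((Finset.Icc 1 ⌊(1 + δ) * T⌋₊ \ Finset.Icc 1 ⌊T⌋₊).card : ℝ) ≤ δ * T + 1 := by
      rw [Finset.card_sdiff_of_subset hsub, Nat.card_Icc, Nat.card_Icc]
      have e : (⌊(1 + δ) * T⌋₊ + 1 - 1 - (⌊T⌋₊ + 1 - 1) : ℕ) = ⌊(1 + δ) * T⌋₊ - ⌊T⌋₊ := by omega
      rw [e, Nat.cast_sub hfl]
      have h2 : (⌊(1 + δ) * T⌋₊ : ℝ) ≤ (1 + δ) * T := Nat.floor_le (by positivity)
      have h3 : T < ⌊T⌋₊ + 1 := Nat.lt_floor_add_one T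
      nlinarith
    calc _ ≤ ∑ n ∈ Finset.Icc 1 ⌊(1 + δ) * T⌋₊ \ Finset.Icc 1 ⌊T⌋₊, T⁻¹ := by
          refine Finset.sum_le_sum fun n hn => ?_
          rw [Finset.mem_sdiff, Finset.mem_Icc, Finset.mem_Icc] at hn
          have hn1 : 1 ≤ n := hn.1.1
          have hn2 : ⌊T⌋₊ < n := by
            by_contra hcon
            push Not at hcon
            exact hn.2 ⟨hn1, hcon⟩
          have hn3 : T < n := (Nat.floor_lt hT0.le).mp hn2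
          have h4 : (n:ℝ) ^ (-(1 + 2 * d)) ≤ (n:ℝ) ^ (-(1:ℝ)) := by
            apply Real.rpow_le_rpow_of_exponent_le (by exact_mod_cast hn1)
            linarith
          rw [Real.rpow_neg_one] at h4
          have h5 : (n:ℝ)⁻¹ ≤ T⁻¹ := by
            apply inv_anti₀ hT0 hn3.le
          have h6 := tau_half_sq_le_one n
          calc tau (1/2) n ^ 2 * (n:ℝ) ^ (-(1 + 2 * d)) ≤ 1 * (n:ℝ)⁻¹ := by
                apply mul_le_mul h6 h4 (by positivity) (by norm_num)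
            _ ≤ _ := by linarith
      _ = ((Finset.Icc 1 ⌊(1 + δ) * T⌋₊ \ Finset.Icc 1 ⌊T⌋₊).card : ℝ) * T⁻¹ := by rw [Finset.sum_const, nsmul_eq_mul]
      _ ≤ (δ * T + 1) * T⁻¹ := by gcongr
      _ ≤ 4 * δ := by
          rw [← div_eq_mul_inv, div_le_iff₀ hT0]
          nlinarith
  have e1 : SN ((1 + δ) * T) d = ∑ n ∈ Finset.Icc 1 ⌊(1 + δ) * T⌋₊ \ Finset.Icc 1 ⌊T⌋₊, tau (1/2) n ^ 2 * (n:ℝ) ^ (-(1 + 2 * d)) + SN T d := hsd.symm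
  rw [e1]
  nlinarith

/-- Comparison of the two truncations of the main term. -/
theorem SN_le_DD {η : ℝ} (hη : 0 < η) : ∀ᶠ θ : ℝ in 𝓝[<] (1:ℝ), ∀ᶠ T : ℝ in atTop, ∀ d : ℝ, 0 ≤ d → 
    SN T d ≤ DD (NT θ T) (1/2 + d) + η * (Lam T * Real.exp (-(2 * θ * d * Real.log T))) := by
  have hc : ∀ᶠ θ : ℝ in 𝓝[<] (1:ℝ), Pint (1/4) 0 1 - η / 4 < Pint (1/4) 0 θ := by
    apply Filter.Eventually.filter_mono nhdsWithin_le_nhds
    exact (Pint_cont 0).eventually_const_lt (by linarith)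
  have hpos : ∀ᶠ θ : ℝ in 𝓝[<] (1:ℝ), 0 < θ := by
    apply Filter.Eventually.filter_mono nhdsWithin_le_nhds
    exact lt_mem_nhds one_pos
  filter_upwards [hc, hpos, self_mem_nhdsWithin] with θ h1 h2 hθ
  rw [mem_Iio] at hθ
  have t1 := (DD_tendsto 0 (θ := 1) one_pos).eventually_lt_const (u := Pint (1/4) 0 1 + η / 4) (by linarith)
  have t2 := (DD_tendsto 0 (θ := θ) h2).eventually_const_lt (u := Pint (1/4) 0 θ - η / 4) (by linarith)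
  filter_upwards [t1, t2, eventually_gt_atTop 1] with T a1 a2 hT d hd
  have hL := Lam_pos hT
  have hT0 : 0 < T := by linarith
  have e0 : (1/2 + 0 / Real.log T : ℝ) = 1/2 + 0 := by rw [zero_div]
  rw [e0, div_lt_iff₀ hL] at a1
  rw [e0, lt_div_iff₀ hL] at a2
  have hN1 : NT 1 T = ⌊T⌋₊ := by unfold NT; rw [Real.rpow_one]
  rw [hN1] at a1
  have hdiff0 : DD ⌊T⌋₊ (1/2 + 0) - DD (NT θ T) (1/2 + 0) ≤ η * Lam T := by nlinarith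
  have hle : NT θ T ≤ ⌊T⌋₊ := by
    apply Nat.floor_le_floor
    calc T ^ θ ≤ T ^ (1:ℝ) := Real.rpow_le_rpow_of_exponent_le hT.le hθ.le
      _ = T := Real.rpow_one T
  have hsub : Finset.Icc 1 (NT θ T) ⊆ Finset.Icc 1 ⌊T⌋₊ := Finset.Icc_subset_Icc_right hle
  have hsd := Finset.sum_sdiff (f := fun n : ℕ => tau (1/2) n ^ 2 * (n:ℝ) ^ (-(1 + 2 * d))) hsub
  have hsd0 := Finset.sum_sdiff (f := fun n : ℕ => tau (1/2) n ^ 2 * (n:ℝ) ^ (-(1 + 2 * (0:ℝ)))) hsub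
  rw [DD_eq, DD_eq, ← hsd0] at hdiff0
  rw [DD_eq]
  have e1 : SN T d = ∑ n ∈ Finset.Icc 1 ⌊T⌋₊, tau (1/2) n ^ 2 * (n:ℝ) ^ (-(1 + 2 * d)) := rfl
  rw [e1, ← hsd]
  have hE : Real.exp (-(2 * θ * d * Real.log T)) = (T ^ θ) ^ (-(2 * d)) := by
    rw [← Real.rpow_mul hT0.le, Real.rpow_def_of_pos hT0]
    congr 1; ring
  have hkey : ∑ n ∈ Finset.Icc 1 ⌊T⌋₊ \ Finset.Icc 1 (NT θ T), tau (1/2) n ^ 2 * (n:ℝ) ^ (-(1 + 2 * d)) ≤ 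
      (T ^ θ) ^ (-(2 * d)) * ∑ n ∈ Finset.Icc 1 ⌊T⌋₊ \ Finset.Icc 1 (NT θ T), tau (1/2) n ^ 2 * (n:ℝ) ^ (-(1 + 2 * (0:ℝ))) := by
    rw [Finset.mul_sum]
    refine Finset.sum_le_sum fun n hn => ?_
    rw [Finset.mem_sdiff, Finset.mem_Icc, Finset.mem_Icc] at hn
    have hn1 : 1 ≤ n := hn.1.1
    have hn0 : (0:ℝ) < n := by exact_mod_cast hn1
    have hn2 : NT θ T < n := by
      by_contra hcon
      push Not at hcon
      exact hn.2 ⟨hn1, hcon⟩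
    have hn3 : T ^ θ < n := (Nat.floor_lt (by positivity)).mp hn2
    have h4 : (n:ℝ) ^ (-(1 + 2 * d)) = (n:ℝ) ^ (-(2 * d)) * (n:ℝ) ^ (-(1 + 2 * (0:ℝ))) := by
      rw [← Real.rpow_add hn0]; congr 1; ring
    rw [h4]
    have h5 : (n:ℝ) ^ (-(2 * d)) ≤ (T ^ θ) ^ (-(2 * d)) := 
      Real.rpow_le_rpow_of_nonpos (by positivity) hn3.le (by linarith)
    calc tau (1/2) n ^ 2 * ((n:ℝ) ^ (-(2 * d)) * (n:ℝ) ^ (-(1 + 2 * (0:ℝ)))) 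
        = (n:ℝ) ^ (-(2 * d)) * (tau (1/2) n ^ 2 * (n:ℝ) ^ (-(1 + 2 * (0:ℝ)))) := by ring
      _ ≤ _ := by gcongr
  rw [hE]
  have h6 : 0 ≤ (T ^ θ) ^ (-(2 * d)) := by positivity
  have h7 : ∑ n ∈ Finset.Icc 1 ⌊T⌋₊ \ Finset.Icc 1 (NT θ T), tau (1/2) n ^ 2 * (n:ℝ) ^ (-(1 + 2 * (0:ℝ))) ≤ η * Lam T := by linarith
  have h8 := mul_le_mul_of_nonneg_left h7 h6
  linarith

/-- The full inequality on Gaussian windows. -/
theorem window {K η κ : ℝ} (hK : 1 ≤ K) (hη : 0 < η) (hη1 : η ≤ 1) (hκ0 : 0 ≤ κ) (hκ : κ < 1) 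
    (hng : ∀ᶠ θ : ℝ in 𝓝[<] (1:ℝ), ∀ ε : ℝ, 0 < ε → ∀ᶠ p : ℝ × ℝ in Fl ε, ng θ 0 p ≤ K) : 
    ∃ θ : ℝ, 0 < θ ∧ θ < 1 ∧ ∀ ε : ℝ, 0 < ε → ∀ᶠ p : ℝ × ℝ in Fl ε, ∀ d : ℝ, 0 ≤ d → d ≤ 1/4 → 
      En riemannZeta₁ p.2 (vT θ p.1) (1/2 + d) ≤ 
        ((1 + η) * SN p.1 d + (K + η) * (Lam p.1 * Real.exp (-(κ * d * Real.log p.1)))) * p.2 ∧ 
      ((1 - η) * SN p.1 d - (K + η) * (Lam p.1 * Real.exp (-(κ * d * Real.log p.1)))) * p.2 ≤ 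
        En riemannZeta₁ p.2 (vT θ p.1) (1/2 + d) := by
  have hK0 : 0 < K := by linarith
  have hpos : ∀ᶠ θ : ℝ in 𝓝[<] (1:ℝ), 0 < θ := by
    apply Filter.Eventually.filter_mono nhdsWithin_le_nhds
    exact lt_mem_nhds one_pos
  have hgt : ∀ᶠ θ : ℝ in 𝓝[<] (1:ℝ), κ < θ := by
    apply Filter.Eventually.filter_mono nhdsWithin_le_nhds
    exact lt_mem_nhds hκ
  obtain ⟨θ, ⟨⟨⟨h1, h2⟩, h3⟩, h4⟩, h5⟩ := ((((hng.and (SN_le_DD (η := η / 2) (by positivity))).and hpos).and hgt).and self_mem_nhdsWithin).exists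
  refine ⟨θ, h3, h5, fun ε hε => ?_⟩
  have hc : 1 < 1 + η / (2 * K) := by
    have : 0 < η / (2 * K) := by positivity
    linarith
  filter_upwards [nc_q hε h3 h5 hη hη1, nc_g hε h3 h5 hκ0 h4 hK (h1 ε hε) hc, (Fl_fst ε).eventually h2, Fl_pos hε] with p q1 q2 q3 hp d hd0 hd1
  have hT0 : 0 < p.1 := by linarith [hp.1]
  have hu0 : 0 < p.2 := by linarith [hp.2]
  have hl := Real.log_pos hp.1
  have hL := Lam_pos hp.1
  obtain ⟨a1, a2⟩ := q1 d hd0 hd1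
  have a3 := q2 d hd0 hd1
  have a4 := q3 d hd0
  have t1 := triangle_m (NT θ p.1) (x := 1/2 + d) (by linarith) (by linarith) p.2 (vT θ p.1)
  have t2 := triangle_q (NT θ p.1) (x := 1/2 + d) (by linarith) (by linarith) p.2 (vT θ p.1)
  obtain ⟨E, hE⟩ : ∃ E : ℝ, E = Real.exp (-(κ * d * Real.log p.1)) := ⟨_, rfl⟩
  obtain ⟨D, hD⟩ : ∃ D : ℝ, D = DD (NT θ p.1) (1/2 + d) := ⟨_, rfl⟩
  have hE0 : 0 < E := by rw [hE]; exact Real.exp_pos _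
  have hE2 : Real.exp (-(2 * θ * d * Real.log p.1)) ≤ E := by
    rw [hE]
    apply Real.exp_le_exp.mpr
    rw [neg_le_neg_iff]
    apply mul_le_mul_of_nonneg_right _ hl.le
    apply mul_le_mul_of_nonneg_right _ hd0
    linarith
  rw [← hE] at a3 ⊢
  rw [← hD] at a1 a2 a4
  have hDS : D ≤ SN p.1 d := by rw [hD]; exact DD_NT_le_SN h5.le hp.1.le d
  have hc2 : (1 + η / (2 * K)) * (K * (p.2 * Lam p.1)) * E = (K + η / 2) * (Lam p.1 * E) * p.2 := by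
    field_simp
  rw [hc2] at a3
  have hLE : 0 < Lam p.1 * E := mul_pos hL hE0
  have a5 : SN p.1 d ≤ D + η / 2 * (Lam p.1 * E) := by
    refine a4.trans ?_
    gcongr
  obtain ⟨X, hX⟩ : ∃ X : ℝ, X = Lam p.1 * E := ⟨_, rfl⟩
  rw [← hX] at a3 a5 hLE ⊢
  constructor
  · refine t1.trans ?_
    have b1 : (1 + η) * (p.2 * D) ≤ (1 + η) * (p.2 * SN p.1 d) := by gcongr
    have b2 : (K + η / 2) * X * p.2 ≤ (K + η) * X * p.2 := by gcongr; linarith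
    calc _ ≤ (K + η / 2) * X * p.2 + (1 + η) * (p.2 * D) := add_le_add a3 a1
      _ ≤ (K + η) * X * p.2 + (1 + η) * (p.2 * SN p.1 d) := add_le_add b2 b1
      _ = _ := by ring
  · have b1 : (1 - η) * (p.2 * D) ≤ En riemannZeta₁ p.2 (vT θ p.1) (1/2 + d) + (K + η / 2) * X * p.2 := by linarith
    have b3 : (1 - η) * SN p.1 d ≤ (1 - η) * D + η / 2 * X := by
      have c1 : (1 - η) * SN p.1 d ≤ (1 - η) * (D + η / 2 * X) := mul_le_mul_of_nonneg_left a5 (by linarith)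
      have c2 : 0 ≤ η * (η / 2 * X) := by positivity
      nlinarith
    have b4 : (1 - η) * SN p.1 d * p.2 ≤ ((1 - η) * D + η / 2 * X) * p.2 := mul_le_mul_of_nonneg_right b3 hu0.le
    nlinarith

end Pool.Agent.LibZM
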