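import Mathlib
import Pool.Agent.LibZM.NC3

set_option autoImplicit false

namespace Pool.Agent.LibZM

open MeasureTheory Set Filter Topology Complex ProbabilityTheory
open scoped NNReal

/-- The modulus of zeta on the vertical line with abscissa `1/2 + d`. -/
noncomputable def zl (d t : ℝ) : ℝ := ‖riemannZeta (((1/2 + d : ℝ) : ℂ) + t * I)‖

section lines

variable {d : ℝ}

lemma line_ne_one (hd1 : d ≤ 1/4) (t : ℝ) : (((1/2 + d : ℝ) : ℂ) + t * I) ≠ 1 := by
  intro h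
  have := congrArg Complex.re h
  simp at this
  linarith

lemma continuous_zl (hd1 : d ≤ 1/4) : Continuous (zl d) := by
  unfold zl
  apply Continuous.norm
  rw [continuous_iff_continuousAt]
  intro t
  have h1 : DifferentiableAt ℂ riemannZeta (((1/2 + d : ℝ) : ℂ) + t * I) := differentiableAt_riemannZeta (line_ne_one hd1 t)
  have h2 : ContinuousAt (fun t : ℝ => (((1/2 + d : ℝ) : ℂ) + t * I)) t := by fun_prop
  exact ContinuousAt.comp (f := fun t : ℝ => (((1/2 + d : ℝ) : ℂ) + t * I)) h1.continuousAt h2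

lemma zl_nonneg (d t : ℝ) : 0 ≤ zl d t := norm_nonneg _

lemma zeta1_line_eq (hd1 : d ≤ 1/4) (t : ℝ) : 
    ‖riemannZeta₁ (((1/2 + d : ℝ) : ℂ) + t * I)‖ = ‖(((1/2 + d : ℝ) : ℂ) + t * I) - 1‖ * zl d t := by
  have n1 := line_ne_one hd1 t
  have e1 : riemannZeta₁ (((1/2 + d : ℝ) : ℂ) + t * I) = ((((1/2 + d : ℝ) : ℂ) + t * I) - 1) * riemannZeta (((1/2 + d : ℝ) : ℂ) + t * I) := by
    rw [riemannZeta_eq_inv_sub_mul n1, ← mul_assoc, mul_inv_cancel₀ (sub_ne_zero.mpr n1), one_mul]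
  rw [e1, norm_mul]; rfl

lemma zl_le (hd0 : 0 ≤ d) (hd1 : d ≤ 1/4) (t : ℝ) : zl d t ≤ 24 * (1 + |t|) ^ 2 := by
  have h1 := norm_zeta1_line (b' := 1) (le_refl 1) (x := 1/2 + d) ⟨by linarith, by linarith⟩ t
  have h2 := zeta1_line_eq hd1 t
  have h3 : 1/4 ≤ ‖(((1/2 + d : ℝ) : ℂ) + t * I) - 1‖ := by
    have h4 := abs_re_le_norm ((((1/2 + d : ℝ) : ℂ) + t * I) - 1)
    have h5 : ((((1/2 + d : ℝ) : ℂ) + t * I) - 1).re = d - 1/2 := by simp; ring
    rw [h5, abs_of_nonpos (by linarith)] at h4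
    linarith
  rw [h2] at h1
  have h6 := zl_nonneg d t
  have h7 : 1/4 * zl d t ≤ ‖(((1/2 + d : ℝ) : ℂ) + t * I) - 1‖ * zl d t := by gcongr
  linarith

lemma integral_zl_le (hd0 : 0 ≤ d) (hd1 : d ≤ 1/4) {T : ℝ} (hT : 0 ≤ T) : ∫ t in Icc 0 T, zl d t ≤ 24 * (1 + T) ^ 2 * T := by
  have h1 : ∫ t in Icc 0 T, zl d t ≤ ∫ t in Icc 0 T, 24 * (1 + T) ^ 2 := by
    refine setIntegral_mono_on ((continuous_zl hd1).continuousOn.integrableOn_compact isCompact_Icc) (continuous_const.continuousOn.integrableOn_compact isCompact_Icc) measurableSet_Icc fun t ht => ?_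
    refine (zl_le hd0 hd1 t).trans ?_
    rw [abs_of_nonneg ht.1]
    have := ht.1
    have := ht.2
    gcongr
  refine h1.trans (le_of_eq ?_)
  rw [setIntegral_const, smul_eq_mul, measureReal_def, Real.volume_Icc, ENNReal.toReal_ofReal (by linarith)]
  ring

end lines

lemma exists_delta {P : ℝ → Prop} (h : ∀ᶠ x in 𝓝 (0:ℝ), P x) : ∃ x : ℝ, 0 < x ∧ x < 1/4 ∧ P x := by
  have h1 : ∀ᶠ x in 𝓝[>] (0:ℝ), P x := h.filter_mono nhdsWithin_le_nhds
  have h2 : ∀ᶠ x in 𝓝[>] (0:ℝ), x < 1/4 := by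
    apply Filter.Eventually.filter_mono nhdsWithin_le_nhds
    exact gt_mem_nhds (by norm_num)
  obtain ⟨x, a, b, c⟩ := (h1.and (h2.and self_mem_nhdsWithin)).exists
  exact ⟨x, c, b, a⟩

/-- Upper bound on `[0,T]`, uniform in the line. -/
theorem upper_line {K η κ : ℝ} (hK : 1 ≤ K) (hη : 0 < η) (hη1 : η ≤ 1) (hκ0 : 0 ≤ κ) (hκ : κ < 1) 
    (hng : ∀ᶠ θ : ℝ in 𝓝[<] (1:ℝ), ∀ ε : ℝ, 0 < ε → ∀ᶠ p : ℝ × ℝ in Fl ε, ng θ 0 p ≤ K) : 
    ∀ᶠ T : ℝ in atTop, ∀ d : ℝ, 0 ≤ d → d ≤ 1/4 → 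
      ∫ t in Icc 0 T, zl d t ≤ (1 + η) * (T * SN T d) + (K + η) / (1 - κ * d) * (T * (Lam T * Real.exp (-(κ * d * Real.log T)))) := by
  have hK0 : 0 < K := by linarith
  obtain ⟨η₁, hη₁⟩ : ∃ x : ℝ, x = η / 4 := ⟨_, rfl⟩
  have hη₁0 : 0 < η₁ := by rw [hη₁]; positivity
  obtain ⟨δ, hδ0, hδ1, hA, hB⟩ : ∃ δ : ℝ, 0 < δ ∧ δ < 1/4 ∧ 
      (1 + δ) ^ 2 * ((1 + η₁) * (1 + 4 * δ)) < (1 - δ) ^ 2 * (1 + η / 2) ∧ (1 + δ) ^ 2 * ((K + η₁) * (1 + δ)) < (1 - δ) ^ 2 * (K + η / 2) := by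
    apply exists_delta
    have c1 : ContinuousAt (fun δ : ℝ => (1 - δ) ^ 2 * (1 + η / 2) - (1 + δ) ^ 2 * ((1 + η₁) * (1 + 4 * δ))) 0 := by fun_prop
    have c2 : ContinuousAt (fun δ : ℝ => (1 - δ) ^ 2 * (K + η / 2) - (1 + δ) ^ 2 * ((K + η₁) * (1 + δ))) 0 := by fun_prop
    have d1 := c1.eventually_const_lt (u := 0) (by rw [hη₁]; norm_num; linarith)
    have d2 := c2.eventually_const_lt (u := 0) (by rw [hη₁]; norm_num; linarith)
    filter_upwards [d1, d2] with x h1 h2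
    exact ⟨by linarith, by linarith⟩
  obtain ⟨θ, hθ0, hθ, hwin⟩ := window hK hη₁0 (by rw [hη₁]; linarith) hκ0 hκ hng
  have hscale : Tendsto (fun T : ℝ => (1 + δ) * T) atTop atTop := tendsto_id.const_mul_atTop (by linarith)
  have w1 := hscale.eventually (Fl_iff.mp (hwin (δ / 4) (by positivity)))
  have w2 := block_up hδ0 hδ1 hθ0 hθ
  have hblk : ∀ᶠ T : ℝ in atTop, ∀ d : ℝ, 0 ≤ d → d ≤ 1/4 → ∫ t in Icc (δ * T) T, zl d t ≤ 
      (1 - δ) * ((1 + η / 2) * (T * SN T d) + (K + η / 2) * (T ^ (1 - κ * d) * Lam T)) := by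
    filter_upwards [w1, w2, Lam_dilate hδ0 (by linarith), eventually_gt_atTop 1, eventually_ge_atTop δ⁻¹] with T h1 h2 h3 hT hTδ d hd0 hd1
    have hT0 : 0 < T := by linarith
    have hS1 : 1 < (1 + δ) * T := by nlinarith
    have hLT := Lam_pos hT
    have hLS := Lam_pos hS1
    have hδT : 1 ≤ δ * T := by
      rw [inv_eq_one_div, div_le_iff₀ hδ0] at hTδ; linarith
    obtain ⟨c, hc⟩ : ∃ c : ℝ, c = (1 + η₁) * SN ((1 + δ) * T) d + (K + η₁) * (Lam ((1 + δ) * T) * Real.exp (-(κ * d * Real.log ((1 + δ) * T)))) := ⟨_, rfl⟩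
    have hSN1 := one_le_SN hS1.le d
    have hc0 : 0 ≤ c := by
      rw [hc]
      have : 0 ≤ SN ((1 + δ) * T) d := by linarith
      positivity
    have hm := h2 (zl d) (fun t => ‖riemannZeta₁ (((1/2 + d : ℝ) : ℂ) + t * I)‖) (continuous_zl hd1) (zl_nonneg d) (fun t => norm_nonneg _) 
      (fun t ht => by
        rw [zeta1_line_eq hd1]
        have h4 := (norm_line_bounds (x := 1/2 + d) (by linarith) (by linarith) t).1
        rw [abs_of_nonneg ht] at h4
        exact mul_le_mul_of_nonneg_right h4 (zl_nonneg d t)) 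
      (fun u => integrable_zeta1 (by linarith) (by linarith) u _) c hc0 
      (fun u hu1 hu2 => by
        have h4 := (h1 u hu1 hu2 d hd0 hd1).1
        rw [hc]
        exact h4)
    have hcle : c ≤ (1 + η₁) * (1 + 4 * δ) * SN T d + (K + η₁) * (1 + δ) * (Lam T * Real.exp (-(κ * d * Real.log T))) := by
      have a1 := SN_dilate hδ0 hδT hT.le hd0
      have a2 : Real.exp (-(κ * d * Real.log ((1 + δ) * T))) ≤ Real.exp (-(κ * d * Real.log T)) := by
        apply Real.exp_le_exp.mpr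
        rw [neg_le_neg_iff]
        have := Real.log_le_log hT0 (show T ≤ (1 + δ) * T by nlinarith)
        gcongr
      rw [hc]
      calc (1 + η₁) * SN ((1 + δ) * T) d + (K + η₁) * (Lam ((1 + δ) * T) * Real.exp (-(κ * d * Real.log ((1 + δ) * T)))) 
          ≤ (1 + η₁) * ((1 + 4 * δ) * SN T d) + (K + η₁) * (((1 + δ) * Lam T) * Real.exp (-(κ * d * Real.log T))) := by gcongr
        _ = _ := by ring
    have hTa : T ^ (1 - κ * d) = T * Real.exp (-(κ * d * Real.log T)) := by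
      rw [Real.rpow_sub hT0, Real.rpow_one, Real.rpow_def_of_pos hT0, div_eq_mul_inv, ← Real.exp_neg]
      congr 2; ring
    rw [hTa]
    obtain ⟨E, hE⟩ : ∃ E : ℝ, E = Real.exp (-(κ * d * Real.log T)) := ⟨_, rfl⟩
    rw [← hE] at hcle ⊢
    have hE0 : 0 < E := by rw [hE]; exact Real.exp_pos _
    obtain ⟨J, hJ⟩ : ∃ J : ℝ, J = ∫ t in Icc (δ * T) T, zl d t := ⟨_, rfl⟩
    rw [← hJ] at hm ⊢
    have hm2 : (1 - δ) * J ≤ (1 + δ) ^ 2 * (c * T) := by
      have e : (1 - δ) * J = (1 + δ) * ((1 - δ) / (1 + δ) * J) := by field_simp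
      rw [e]
      calc (1 + δ) * ((1 - δ) / (1 + δ) * J) ≤ (1 + δ) * (c * ((1 + δ) * T)) := by gcongr
        _ = _ := by ring
    have hSNT := one_le_SN hT.le d
    have hm3 : (1 + δ) ^ 2 * (c * T) ≤ (1 - δ) ^ 2 * ((1 + η / 2) * (T * SN T d) + (K + η / 2) * (T * E * Lam T)) := by
      have a1 : (1 + δ) ^ 2 * (c * T) ≤ (1 + δ) ^ 2 * (((1 + η₁) * (1 + 4 * δ) * SN T d + (K + η₁) * (1 + δ) * (Lam T * E)) * T) := by gcongr
      have a2 : (1 + δ) ^ 2 * ((1 + η₁) * (1 + 4 * δ)) * (T * SN T d) ≤ (1 - δ) ^ 2 * (1 + η / 2) * (T * SN T d) := by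
        apply mul_le_mul_of_nonneg_right hA.le
        have : 0 ≤ SN T d := by linarith
        positivity
      have a3 : (1 + δ) ^ 2 * ((K + η₁) * (1 + δ)) * (T * E * Lam T) ≤ (1 - δ) ^ 2 * (K + η / 2) * (T * E * Lam T) := by
        apply mul_le_mul_of_nonneg_right hB.le
        positivity
      calc _ ≤ _ := a1
        _ = (1 + δ) ^ 2 * ((1 + η₁) * (1 + 4 * δ)) * (T * SN T d) + (1 + δ) ^ 2 * ((K + η₁) * (1 + δ)) * (T * E * Lam T) := by ring
        _ ≤ (1 - δ) ^ 2 * (1 + η / 2) * (T * SN T d) + (1 - δ) ^ 2 * (K + η / 2) * (T * E * Lam T) := add_le_add a2 a3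
        _ = _ := by ring
    have hδpos : 0 < 1 - δ := by linarith
    have hfin : (1 - δ) * J ≤ (1 - δ) * ((1 - δ) * ((1 + η / 2) * (T * SN T d) + (K + η / 2) * (T * E * Lam T))) := by
      calc (1 - δ) * J ≤ _ := hm2
        _ ≤ _ := hm3
        _ = _ := by ring
    exact le_of_mul_le_mul_left hfin hδpos
  obtain ⟨T0, hT0⟩ := eventually_atTop.mp (hblk.and (eventually_ge_atTop 1))
  have hT01 : 1 ≤ T0 := (hT0 T0 le_rfl).2
  obtain ⟨C0, hC0⟩ : ∃ C0 : ℝ, C0 = 24 * (1 + T0) ^ 2 * T0 := ⟨_, rfl⟩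
  filter_upwards [eventually_ge_atTop T0, eventually_ge_atTop (C0 / (η / 2))] with T hT hTC d hd0 hd1
  have hT1 : 1 ≤ T := by linarith
  have hTpos : 0 < T := by linarith
  have hκd : κ * d ≤ 1/4 := by nlinarith
  have hκd0 : 0 ≤ κ * d := by positivity
  have hsum := block_sum (f := zl d) (A := fun T => SN T d) (Λ := Lam) (continuous_zl hd1) (zl_nonneg d) hδ0 (by linarith : δ < 1) 
    (a := 1 - κ * d) (by linarith) (by linarith) (c1 := 1 + η / 2) (c2 := K + η / 2) (C0 := C0) (T0 := T0) (by positivity) (by positivity) hT01 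
    (fun T hT => by have := one_le_SN hT d; linarith) (fun S T _ hST => SN_mono hST d) 
    (fun T hT => by
      unfold Lam
      have := Aconst_pos (κ := 1/2) (by norm_num)
      have := Real.log_nonneg hT
      positivity) (fun S T hS hST => Lam_mono hS hST) 
    (by rw [hC0]; exact integral_zl_le hd0 hd1 (by linarith)) (fun T hT => (hT0 T hT).1 d hd0 hd1) T hT
  have hTa : T ^ (1 - κ * d) = T * Real.exp (-(κ * d * Real.log T)) := by
    rw [Real.rpow_sub hTpos, Real.rpow_one, Real.rpow_def_of_pos hTpos, div_eq_mul_inv, ← Real.exp_neg]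
    congr 2; ring
  rw [hTa] at hsum
  have hC0' : C0 ≤ η / 2 * (T * SN T d) := by
    rw [div_le_iff₀ (by positivity)] at hTC
    have h1 := one_le_SN hT1 d
    have h2 : T ≤ T * SN T d := le_mul_of_one_le_right hTpos.le h1
    nlinarith
  have hLT : 0 ≤ Lam T := by
    unfold Lam
    have := Aconst_pos (κ := 1/2) (by norm_num)
    have := Real.log_nonneg hT1
    positivity
  have hlast : (K + η / 2) / (1 - κ * d) * (T * Real.exp (-(κ * d * Real.log T)) * Lam T) ≤ 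
      (K + η) / (1 - κ * d) * (T * (Lam T * Real.exp (-(κ * d * Real.log T)))) := by
    have e : T * Real.exp (-(κ * d * Real.log T)) * Lam T = T * (Lam T * Real.exp (-(κ * d * Real.log T))) := by ring
    rw [e]
    apply mul_le_mul_of_nonneg_right
    · apply div_le_div_of_nonneg_right _ (by linarith)
      linarith
    · positivity
  linarith

/-- Lower bound on `[0,T]`, uniform in the line. -/
theorem lower_line {K η κ : ℝ} (hK : 1 ≤ K) (hη : 0 < η) (hη1 : η ≤ 1) (hκ0 : 0 ≤ κ) (hκ : κ < 1) 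
    (hng : ∀ᶠ θ : ℝ in 𝓝[<] (1:ℝ), ∀ ε : ℝ, 0 < ε → ∀ᶠ p : ℝ × ℝ in Fl ε, ng θ 0 p ≤ K) : 
    ∀ᶠ T : ℝ in atTop, ∀ d : ℝ, 0 ≤ d → d ≤ 1/4 → 
      (1 - η) * (T * SN T d) - (K + η) * (T * (Lam T * Real.exp (-(κ * d * Real.log T)))) ≤ ∫ t in Icc 0 T, zl d t := by
  have hK0 : 0 < K := by linarith
  obtain ⟨ε, hε⟩ : ∃ x : ℝ, x = η / 8 := ⟨_, rfl⟩
  have hε0 : 0 < ε := by rw [hε]; positivity
  have hε1 : ε < 1/4 := by rw [hε]; linarith
  obtain ⟨θ, hθ0, hθ, hwin⟩ := window hK hε0 (by linarith) hκ0 hκ hng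
  filter_upwards [Fl_iff.mp (hwin ε hε0), block_low hε0 hε1 hθ0 hθ, eventually_gt_atTop 1] with T h1 h2 hT d hd0 hd1
  have hT0 : 0 < T := by linarith
  have hL := Lam_pos hT
  have hSN := one_le_SN hT.le d
  obtain ⟨X, hX⟩ : ∃ X : ℝ, X = Lam T * Real.exp (-(κ * d * Real.log T)) := ⟨_, rfl⟩
  have hX0 : 0 < X := by rw [hX]; positivity
  obtain ⟨c, hc⟩ : ∃ c : ℝ, c = (1 - ε) * SN T d - (K + ε) * X := ⟨_, rfl⟩
  rw [← hX]
  have hint0 : 0 ≤ ∫ t in Icc 0 T, zl d t := integral_nonneg fun t => zl_nonneg d t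
  rcases le_or_gt c 0 with hc0 | hc0
  · have e1 : (1 - η) * (T * SN T d) - (K + η) * (T * X) ≤ T * c := by
      have b1 : (1 - η) * (T * SN T d) ≤ (1 - ε) * (T * SN T d) := by
        apply mul_le_mul_of_nonneg_right (by rw [hε]; linarith)
        have : 0 ≤ SN T d := by linarith
        positivity
      have b2 : (K + ε) * (T * X) ≤ (K + η) * (T * X) := by
        apply mul_le_mul_of_nonneg_right (by rw [hε]; linarith)
        positivity
      have e : T * c = (1 - ε) * (T * SN T d) - (K + ε) * (T * X) := by rw [hc]; ring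
      rw [e]; linarith
    have e2 : T * c ≤ 0 := mul_nonpos_of_nonneg_of_nonpos hT0.le hc0
    linarith
  · have hm := h2 (zl d) (fun t => ‖riemannZeta₁ (((1/2 + d : ℝ) : ℂ) + t * I)‖) (continuous_zl hd1) (zl_nonneg d) 
      (by
        have h := differentiable_riemannZeta₁.continuous
        fun_prop) (fun t => norm_nonneg _) 
      (fun t ht => by
        rw [zeta1_line_eq hd1]
        have h4 := (norm_line_bounds (x := 1/2 + d) (by linarith) (by linarith) t).2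
        rw [abs_of_nonneg ht] at h4
        exact mul_le_mul_of_nonneg_right h4 (zl_nonneg d t)) 
      (fun t => by
        have := norm_zeta1_line (b' := 1) (le_refl 1) (x := 1/2 + d) ⟨by linarith, by linarith⟩ t
        simpa using this) c hc0.le 
      (fun u hu1 hu2 => by
        have h4 := (h1 u hu1 hu2 d hd0 hd1).2
        rw [← hX, ← hc] at h4
        exact h4)
    refine le_trans ?_ hm
    have hcS : c ≤ SN T d := by
      rw [hc]
      have : 0 ≤ (K + ε) * X := by positivity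
      nlinarith
    have hA : c - 3 * ε * c - ε ≤ (1 - 2 * ε) * ((1 - ε) * c - ε) := by
      have e : (1 - 2 * ε) * ((1 - ε) * c - ε) - (c - 3 * ε * c - ε) = 2 * ε ^ 2 * c + 2 * ε ^ 2 := by ring
      have : 0 ≤ 2 * ε ^ 2 * c + 2 * ε ^ 2 := by positivity
      linarith
    have hB : (1 - η) * SN T d - (K + η) * X ≤ c - 3 * ε * c - ε := by
      have b1 : (K + ε) * X ≤ (K + η) * X := by
        apply mul_le_mul_of_nonneg_right (by rw [hε]; linarith) hX0.le
      have b2 : 3 * ε * c ≤ 3 * ε * SN T d := by gcongr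
      have b3 : ε ≤ ε * SN T d := le_mul_of_one_le_right hε0.le hSN
      have b4 : (1 - η) * SN T d ≤ (1 - ε) * SN T d - 3 * ε * SN T d - ε * SN T d := by
        rw [hε]
        have : 0 ≤ η * SN T d := by
          have : 0 ≤ SN T d := by linarith
          positivity
        nlinarith
      rw [hc] at b2 ⊢
      linarith
    calc (1 - η) * (T * SN T d) - (K + η) * (T * X) = T * ((1 - η) * SN T d - (K + η) * X) := by ring
      _ ≤ T * ((1 - 2 * ε) * ((1 - ε) * c - ε)) := by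
          apply mul_le_mul_of_nonneg_left (hB.trans hA) hT0.le
      _ = _ := by ring

end Pool.Agent.LibZM
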