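import Mathlib

set_option autoImplicit false

namespace Pool.Agent.LibZM.Numer

open MeasureTheory Set

theorem Gamma_quarter_add (n : ℕ) : Real.Gamma ((n:ℝ) + 1/4) = (∏ k ∈ Finset.range n, ((k:ℝ) + 1/4)) * Real.Gamma (1/4) := by
  induction n with
  | zero => simp
  | succ n ih =>
    rw [Finset.prod_range_succ, Nat.cast_succ]
    have : (n:ℝ) + 1 + 1/4 = ((n:ℝ) + 1/4) + 1 := by ring
    rw [this, Real.Gamma_add_one (by positivity), ih]
    ring

theorem Gamma_quarter_lower : (358/100 : ℝ) < Real.Gamma (1/4) := by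
  have hfeq : ∀ {y : ℝ}, 0 < y → (Real.log ∘ Real.Gamma) (y + 1) = (Real.log ∘ Real.Gamma) y + Real.log y := by
    intro y hy
    simp only [Function.comp]
    rw [Real.Gamma_add_one hy.ne', Real.log_mul hy.ne' (Real.Gamma_pos_of_pos hy).ne']
    ring
  have h := Real.BohrMollerup.f_add_nat_ge (n := 16) (x := 1/4) Real.convexOn_log_Gamma hfeq (by norm_num) (by norm_num)
  simp only [Function.comp] at h
  have h16 : Real.Gamma ((16:ℕ):ℝ) = 1307674368000 := by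
    have := Real.Gamma_nat_eq_factorial 15
    have h2 : ((15:ℕ):ℝ) + 1 = ((16:ℕ):ℝ) := by norm_num
    rw [h2] at this
    rw [this]
    norm_num [Nat.factorial]
  have hpos : 0 < Real.Gamma (1/4) := Real.Gamma_pos_of_pos (by norm_num)
  rw [h16, Gamma_quarter_add] at h
  set P := ∏ k ∈ Finset.range 16, ((k:ℝ) + 1/4) with hP
  have hPpos : 0 < P := Finset.prod_pos fun k _ => by positivity
  rw [Real.log_mul hPpos.ne' hpos.ne'] at h
  have h15 : Real.log (((16:ℕ):ℝ) - 1) = Real.log 15 := by norm_num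
  rw [h15] at h
  -- 15^(1/4) > 1.9679
  have h2 : Real.log (19679/10000) ≤ 1/4 * Real.log 15 := by
    have h3 : 4 * Real.log (19679/10000) = Real.log ((19679/10000)^4) := by
      rw [Real.log_pow]; norm_num
    have h4 : Real.log ((19679/10000:ℝ)^4) ≤ Real.log 15 := Real.log_le_log (by positivity) (by norm_num)
    linarith
  have h5 : Real.log (1307674368000 * (19679/10000) / P) ≤ Real.log (Real.Gamma (1/4)) := by
    rw [Real.log_div (by norm_num) hPpos.ne', Real.log_mul (by norm_num) (by norm_num)]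
    linarith
  have h6 := (Real.log_le_log_iff (by positivity) hpos).mp h5
  refine lt_of_lt_of_le ?_ h6
  rw [lt_div_iff₀ hPpos, hP]
  norm_num [Finset.prod_range_succ]

theorem exp_taylor_le (N : ℕ) {x : ℝ} (hx : 0 ≤ x) : 
    Real.exp x ≤ ∑ k ∈ Finset.range N, x ^ k / k.factorial + x ^ N / N.factorial * Real.exp x := by
  have hs : Summable fun k : ℕ => x ^ k / k.factorial := Real.summable_pow_div_factorial x
  have h1 : Real.exp x = ∑' k : ℕ, x ^ k / k.factorial := by rw [Real.exp_eq_exp_ℝ, NormedSpace.exp_eq_tsum_div]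
  have h2 := hs.sum_add_tsum_nat_add N
  rw [h1, ← h2]
  gcongr
  · rw [h2, ← tsum_mul_left]
    refine Summable.tsum_le_tsum (fun j => ?_) ((summable_nat_add_iff N).mpr hs) (hs.mul_left _)
    have h3 : ((N.factorial : ℝ) * j.factorial) ≤ (j + N).factorial := by
      rw [add_comm]
      exact_mod_cast Nat.le_of_dvd (Nat.factorial_pos _) (Nat.factorial_mul_factorial_dvd_factorial_add N j)
    rw [div_mul_div_comm, ← pow_add, add_comm N j]
    gcongr

/-- same body as `Pool.Agent.LibZM.Pint` -/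
noncomputable def PintN (α σ θ : ℝ) : ℝ := (∫ t in (0:ℝ)..θ, t ^ (α - 1) * Real.exp (-(2 * σ * t))) / Real.Gamma α

theorem int_Ioi {r : ℝ} (hr : 0 < r) : ∫ t in Ioi (0:ℝ), t ^ ((1/4:ℝ) - 1) * Real.exp (-(r * t)) = (1 / r) ^ (1/4:ℝ) * Real.Gamma (1/4) :=
  Real.integral_rpow_mul_exp_neg_mul_Ioi (by norm_num) hr

theorem intOn_Ioi {r : ℝ} (hr : 0 < r) : IntegrableOn (fun t : ℝ => t ^ ((1/4:ℝ) - 1) * Real.exp (-(r * t))) (Ioi 0) := by
  by_contra h
  have h1 := int_Ioi hr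
  rw [integral_undef h] at h1
  have : 0 < (1 / r) ^ (1/4:ℝ) * Real.Gamma (1/4) := mul_pos (Real.rpow_pos_of_pos (by positivity) _) (Real.Gamma_pos_of_pos (by norm_num))
  linarith

theorem int_split {r : ℝ} (hr : 0 < r) : (1 / r) ^ (1/4:ℝ) * Real.Gamma (1/4) =
    (∫ t in (0:ℝ)..1, t ^ ((1/4:ℝ) - 1) * Real.exp (-(r * t))) + ∫ t in Ioi (1:ℝ), t ^ ((1/4:ℝ) - 1) * Real.exp (-(r * t)) := by
  rw [← int_Ioi hr, intervalIntegral.integral_of_le (by norm_num)]
  rw [← setIntegral_union (Set.Ioc_disjoint_Ioi le_rfl) measurableSet_Ioi]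
  · rw [Set.Ioc_union_Ioi_eq_Ioi (by norm_num)]
  · exact (intOn_Ioi hr).mono_set (fun x hx => hx.1)
  · exact (intOn_Ioi hr).mono_set (Set.Ioi_subset_Ioi zero_le_one)

theorem int_tail_nonneg {r : ℝ} : 0 ≤ ∫ t in Ioi (1:ℝ), t ^ ((1/4:ℝ) - 1) * Real.exp (-(r * t)) :=
  setIntegral_nonneg measurableSet_Ioi fun t ht => by
    have : (1:ℝ) < t := ht
    positivity

theorem int_tail_le {r : ℝ} (hr : 0 < r) : ∫ t in Ioi (1:ℝ), t ^ ((1/4:ℝ) - 1) * Real.exp (-(r * t)) ≤ Real.exp (-r) / r := by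
  have h1 : ∫ t in Ioi (1:ℝ), Real.exp (-r * t) = Real.exp (-r) / r := by
    have := integral_exp_mul_Ioi (a := -r) (by linarith) 1
    rw [this]; field_simp
  rw [← h1]
  refine setIntegral_mono_on ((intOn_Ioi hr).mono_set (Set.Ioi_subset_Ioi zero_le_one)) (integrableOn_exp_mul_Ioi (by linarith) 1) measurableSet_Ioi fun t ht => ?_
  have ht' : (1:ℝ) < t := ht
  have h2 : t ^ ((1/4:ℝ) - 1) ≤ 1 := Real.rpow_le_one_of_one_le_of_nonpos ht'.le (by norm_num)
  rw [neg_mul]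
  calc _ ≤ 1 * Real.exp (-(r * t)) := by gcongr
    _ = _ := one_mul _

theorem PintN_le {σ : ℝ} (hσ : 0 < σ) : PintN (1/4) σ 1 ≤ (1 / (2 * σ)) ^ (1/4:ℝ) := by
  unfold PintN
  rw [div_le_iff₀ (Real.Gamma_pos_of_pos (by norm_num)), int_split (by positivity : 0 < 2 * σ)]
  linarith [int_tail_nonneg (r := 2 * σ)]

theorem le_PintN {σ : ℝ} (hσ : 0 < σ) : (1 / (2 * σ)) ^ (1/4:ℝ) - Real.exp (-(2 * σ)) / (2 * σ) / Real.Gamma (1/4) ≤ PintN (1/4) σ 1 := by
  unfold PintN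
  have hG : 0 < Real.Gamma (1/4) := Real.Gamma_pos_of_pos (by norm_num)
  rw [le_div_iff₀ hG, sub_mul, div_mul_cancel₀ _ hG.ne', int_split (by positivity : 0 < 2 * σ)]
  linarith [int_tail_le (r := 2 * σ) (by positivity)]

theorem PintN_zero : PintN (1/4) 0 1 = 4 / Real.Gamma (1/4) := by
  unfold PintN
  congr 1
  have : (fun t : ℝ => t ^ ((1/4:ℝ) - 1) * Real.exp (-(2 * 0 * t))) = fun t : ℝ => t ^ (-(3/4:ℝ)) := by
    ext t; norm_num
  rw [this, integral_rpow (Or.inl (by norm_num))]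
  norm_num

theorem int_pow (k : ℕ) : ∫ t in (0:ℝ)..1, t ^ (-(3/4:ℝ)) * t ^ k = 1 / ((k:ℝ) + 1/4) := by
  have h1 : ∫ t in (0:ℝ)..1, t ^ (-(3/4:ℝ)) * t ^ k = ∫ t in (0:ℝ)..1, t ^ ((k:ℝ) - 3/4) := by
    rw [intervalIntegral.integral_of_le (by norm_num), intervalIntegral.integral_of_le (by norm_num)]
    refine setIntegral_congr_fun measurableSet_Ioc fun t ht => ?_
    have ht0 : 0 < t := ht.1
    show t ^ (-(3/4:ℝ)) * t ^ k = t ^ ((k:ℝ) - 3/4)
    rw [← Real.rpow_natCast, ← Real.rpow_add ht0]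
    congr 1; ring
  have hk : (0:ℝ) ≤ k := Nat.cast_nonneg k
  rw [h1, integral_rpow (Or.inl (by linarith))]
  have h2 : (k:ℝ) - 3/4 + 1 = k + 1/4 := by ring
  rw [h2, Real.one_rpow, Real.zero_rpow (by positivity), sub_zero]

theorem intInt_pow (k : ℕ) : IntervalIntegrable (fun t : ℝ => t ^ (-(3/4:ℝ)) * t ^ k) volume 0 1 :=
  (intervalIntegral.intervalIntegrable_rpow' (by norm_num)).mul_continuousOn (by fun_prop)

theorem intInt_sum : IntervalIntegrable (fun t : ℝ => ∑ k ∈ Finset.range 16, (4:ℝ) ^ k / k.factorial * (t ^ (-(3/4:ℝ)) * t ^ k)) volume 0 1 := by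
  have := IntervalIntegrable.sum (Finset.range 16) (f := fun (k : ℕ) (t : ℝ) => (4:ℝ) ^ k / k.factorial * (t ^ (-(3/4:ℝ)) * t ^ k)) (a := 0) (b := 1) (μ := volume)
        (fun k _ => (intInt_pow k).const_mul _)
  have h2 : (∑ k ∈ Finset.range 16, fun (t : ℝ) => (4:ℝ) ^ k / k.factorial * (t ^ (-(3/4:ℝ)) * t ^ k)) = 
      (fun t : ℝ => ∑ k ∈ Finset.range 16, (4:ℝ) ^ k / k.factorial * (t ^ (-(3/4:ℝ)) * t ^ k)) := by
    funext t
    simp
  rw [← h2]
  exact this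

theorem int_exp4 : ∫ t in (0:ℝ)..1, t ^ ((1/4:ℝ) - 1) * Real.exp (-(2 * (-2) * t)) ≤
    ∑ k ∈ Finset.range 16, (4:ℝ) ^ k / k.factorial * (1 / ((k:ℝ) + 1/4)) + 4 ^ 16 / (Nat.factorial 16) * Real.exp 4 * (1 / (16 + 1/4)) := by
  have h0 : ∫ t in (0:ℝ)..1, t ^ ((1/4:ℝ) - 1) * Real.exp (-(2 * (-2) * t)) ≤ 
      ∫ t in (0:ℝ)..1, (∑ k ∈ Finset.range 16, (4:ℝ) ^ k / k.factorial * (t ^ (-(3/4:ℝ)) * t ^ k) + 
        4 ^ 16 / (Nat.factorial 16) * Real.exp 4 * (t ^ (-(3/4:ℝ)) * t ^ 16)) := by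
    refine intervalIntegral.integral_mono_on (by norm_num) ?_ ?_ fun t ht => ?_
    · exact (intervalIntegral.intervalIntegrable_rpow' (by norm_num)).mul_continuousOn (by fun_prop)
    · refine IntervalIntegrable.add ?_ ((intInt_pow 16).const_mul _)
      exact intInt_sum
    · have ht0 : 0 ≤ t := ht.1
      have h1 := exp_taylor_le 16 (x := 4 * t) (by positivity)
      have h2 : Real.exp (4 * t) ≤ Real.exp 4 := Real.exp_le_exp.mpr (by linarith [ht.2])
      have h3 : Real.exp (4 * t) ≤ ∑ k ∈ Finset.range 16, (4 * t) ^ k / k.factorial + (4 * t) ^ 16 / (Nat.factorial 16) * Real.exp 4 := by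
        refine h1.trans ?_
        gcongr
      have h4 : ((1/4:ℝ) - 1) = -(3/4) := by norm_num
      have h5 : -(2 * (-2) * t) = 4 * t := by ring
      rw [h4, h5]
      have h6 : 0 ≤ t ^ (-(3/4:ℝ)) := Real.rpow_nonneg ht0 _
      calc t ^ (-(3/4:ℝ)) * Real.exp (4 * t) ≤ t ^ (-(3/4:ℝ)) * (∑ k ∈ Finset.range 16, (4 * t) ^ k / k.factorial + (4 * t) ^ 16 / (Nat.factorial 16) * Real.exp 4) := by gcongr
        _ = _ := by
          rw [mul_add, Finset.mul_sum]
          congr 1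
          · refine Finset.sum_congr rfl fun k _ => ?_
            rw [mul_pow]; ring
          · rw [mul_pow]; ring
  refine h0.trans (le_of_eq ?_)
  rw [intervalIntegral.integral_add]
  · rw [intervalIntegral.integral_const_mul, int_pow, intervalIntegral.integral_finsetSum]
    · congr 1
      · refine Finset.sum_congr rfl fun k _ => ?_
        rw [intervalIntegral.integral_const_mul, int_pow]
    · exact fun k _ => (intInt_pow k).const_mul _
  · exact intInt_sum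
  · exact (intInt_pow 16).const_mul _

theorem exp4_le : Real.exp 4 ≤ 55 := by
  have h1 : Real.exp 4 = Real.exp 1 ^ 4 := by rw [← Real.exp_nat_mul]; norm_num
  rw [h1]
  have := Real.exp_one_lt_d9
  calc Real.exp 1 ^ 4 ≤ 2.7182818286 ^ 4 := by gcongr
    _ ≤ 55 := by norm_num

theorem PintN_neg2 : PintN (1/4) (-2) 1 ≤ 555/100 := by
  unfold PintN
  have hG : 0 < Real.Gamma (1/4) := Real.Gamma_pos_of_pos (by norm_num)
  have hG2 := Gamma_quarter_lower
  rw [div_le_iff₀ hG]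
  have h1 := int_exp4
  have h2 := exp4_le
  have h3 : ∑ k ∈ Finset.range 16, (4:ℝ) ^ k / k.factorial * (1 / ((k:ℝ) + 1/4)) + 4 ^ 16 / (Nat.factorial 16) * 55 * (1 / (16 + 1/4)) ≤ 555/100 * (358/100) := by
    norm_num [Finset.sum_range_succ, Nat.factorial]
  have h4 : (4:ℝ) ^ 16 / (Nat.factorial 16) * Real.exp 4 * (1 / (16 + 1/4)) ≤ 4 ^ 16 / (Nat.factorial 16) * 55 * (1 / (16 + 1/4)) := by gcongr
  linarith

theorem rpow_quarter_le {x y : ℝ} (hx : 0 ≤ x) (hy : 0 ≤ y) (h : x ≤ y ^ 4) : x ^ (1/4:ℝ) ≤ y := by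
  calc x ^ (1/4:ℝ) ≤ (y ^ 4) ^ (1/4:ℝ) := by gcongr
    _ = y := by
      rw [← Real.rpow_natCast, ← Real.rpow_mul hy]; norm_num

theorem le_rpow_quarter {x y : ℝ} (hy : 0 ≤ y) (h : y ^ 4 ≤ x) : y ≤ x ^ (1/4:ℝ) := by
  have h1 : (y ^ 4) ^ (1/4:ℝ) = y := by
    rw [← Real.rpow_natCast, ← Real.rpow_mul hy]
    norm_num
  rw [← h1]
  gcongr

theorem exp_le_of_pow {x y : ℝ} (n : ℕ) (hn : n ≠ 0) (hy : 0 ≤ y) (h : Real.exp (n * x) ≤ y ^ n) : Real.exp x ≤ y := by
  rw [Real.exp_nat_mul] at h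
  exact (pow_le_pow_iff_left₀ (Real.exp_pos _).le hy hn).mp h

theorem exp_neg_nat_le (n : ℕ) {y : ℝ} (hy : 0 < y) (h : 1 ≤ y * 2.7182818283 ^ n) : Real.exp (-(n:ℝ)) ≤ y := by
  have h1 := Real.exp_one_gt_d9
  have h2 : Real.exp (n:ℝ) = Real.exp 1 ^ n := by rw [← Real.exp_nat_mul, mul_one]
  rw [Real.exp_neg, h2, inv_le_comm₀ (by positivity) hy]
  have h3 : (2.7182818283:ℝ) ^ n ≤ Real.exp 1 ^ n := by gcongr
  refine le_trans ?_ h3
  rw [inv_le_iff_one_le_mul₀ hy]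
  linarith

theorem exp_nat_le (n : ℕ) {y : ℝ} (h : 2.7182818286 ^ n ≤ y) : Real.exp (n:ℝ) ≤ y := by
  have h1 := Real.exp_one_lt_d9
  have h2 : Real.exp (n:ℝ) = Real.exp 1 ^ n := by rw [← Real.exp_nat_mul, mul_one]
  rw [h2]
  have h3 : Real.exp 1 ^ n ≤ (2.7182818286:ℝ) ^ n := by gcongr
  exact h3.trans h

theorem e1 : Real.exp (-(15/4)) ≤ 2353/100000 := by
  refine exp_le_of_pow 4 (by norm_num) (by norm_num) ?_
  have : ((4:ℕ):ℝ) * (-(15/4)) = -((15:ℕ):ℝ) := by norm_num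
  rw [this]
  exact exp_neg_nat_le 15 (by norm_num) (by norm_num)

theorem e2 : Real.exp (-(5/4)) ≤ 28653/100000 := by
  refine exp_le_of_pow 4 (by norm_num) (by norm_num) ?_
  have : ((4:ℕ):ℝ) * (-(5/4)) = -((5:ℕ):ℝ) := by norm_num
  rw [this]
  exact exp_neg_nat_le 5 (by norm_num) (by norm_num)

theorem e3 : Real.exp (5/8) ≤ 18684/10000 := by
  refine exp_le_of_pow 8 (by norm_num) (by norm_num) ?_
  have : ((8:ℕ):ℝ) * (5/8) = ((5:ℕ):ℝ) := by norm_num
  rw [this]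
  exact exp_nat_le 5 (by norm_num)

theorem e4 : Real.exp (-2) ≤ 13534/100000 := by
  have := exp_neg_nat_le 2 (y := 13534/100000) (by norm_num) (by norm_num)
  simpa using this

theorem n1 : (14/25) * (1 + Real.exp (-(15/4))) < PintN (1/4) (15/4) 1 - Real.exp (-(15/4)) * PintN (1/4) 0 1 := by
  have h1 := le_PintN (σ := 15/4) (by norm_num)
  have hG2 := Gamma_quarter_lower
  have hG : 0 < Real.Gamma (1/4) := Real.Gamma_pos_of_pos (by norm_num)
  have h2 : (6042/10000:ℝ) ≤ (1 / (2 * (15/4))) ^ (1/4:ℝ) := le_rpow_quarter (by norm_num) (by norm_num)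
  have h3 : Real.exp (-(2 * (15/4))) / (2 * (15/4)) / Real.Gamma (1/4) ≤ 1/1000 := by
    have h4 : Real.exp (-(2 * (15/4))) ≤ Real.exp (-((7:ℕ):ℝ)) := Real.exp_le_exp.mpr (by norm_num)
    have h5 : Real.exp (-((7:ℕ):ℝ)) ≤ 1/1000 := exp_neg_nat_le 7 (by norm_num) (by norm_num)
    rw [div_le_iff₀ hG, div_le_iff₀ (by norm_num)]
    nlinarith
  have h6 : PintN (1/4) 0 1 ≤ 1118/1000 := by
    rw [PintN_zero, div_le_iff₀ hG]
    linarith
  have h7 := e1
  have h8 : Real.exp (-(15/4)) * PintN (1/4) 0 1 ≤ 2353/100000 * (1118/1000) := by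
    have : 0 ≤ PintN (1/4) 0 1 := by rw [PintN_zero]; positivity
    exact mul_le_mul h7 h6 this (by norm_num)
  linarith

theorem n2 : Real.exp (5/8) * (PintN (1/4) (5/4) 1 + Real.exp (-(5/4)) * 
    ((PintN (1/4) 2 1 + Real.exp (-2) * PintN (1/4) (-2) 1) / (1 - Real.exp (-2)))) < 12/5 := by
  have h1 : PintN (1/4) (5/4) 1 ≤ 7953/10000 := (PintN_le (by norm_num)).trans (rpow_quarter_le (by norm_num) (by norm_num) (by norm_num))
  have h2 : PintN (1/4) 2 1 ≤ 7072/10000 := (PintN_le (by norm_num)).trans (rpow_quarter_le (by norm_num) (by norm_num) (by norm_num))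
  have h3 := PintN_neg2
  have he4 := e4
  have h4 : 0 ≤ PintN (1/4) (-2) 1 := by
    unfold PintN
    have hG : 0 < Real.Gamma (1/4) := Real.Gamma_pos_of_pos (by norm_num)
    refine div_nonneg (intervalIntegral.integral_nonneg (by norm_num) fun t ht => ?_) hG.le
    have : 0 ≤ t := ht.1
    positivity
  have h4' : 0 ≤ PintN (1/4) 2 1 := by
    unfold PintN
    have hG : 0 < Real.Gamma (1/4) := Real.Gamma_pos_of_pos (by norm_num)
    refine div_nonneg (intervalIntegral.integral_nonneg (by norm_num) fun t ht => ?_) hG.le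
    have : 0 ≤ t := ht.1
    positivity
  have h5 : Real.exp (-2) * PintN (1/4) (-2) 1 ≤ 13534/100000 * (555/100) := mul_le_mul he4 h3 h4 (by norm_num)
  have h6 : (PintN (1/4) 2 1 + Real.exp (-2) * PintN (1/4) (-2) 1) / (1 - Real.exp (-2)) ≤ 16867/10000 := by
    rw [div_le_iff₀ (by linarith)]
    nlinarith
  have h7 : 0 ≤ (PintN (1/4) 2 1 + Real.exp (-2) * PintN (1/4) (-2) 1) / (1 - Real.exp (-2)) := by
    apply div_nonneg
    · have := Real.exp_pos (-2); positivity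
    · linarith
  have h8 : Real.exp (-(5/4)) * ((PintN (1/4) 2 1 + Real.exp (-2) * PintN (1/4) (-2) 1) / (1 - Real.exp (-2))) ≤ 28653/100000 * (16867/10000) :=
    mul_le_mul e2 h6 h7 (by norm_num)
  have h9 : 0 ≤ PintN (1/4) (5/4) 1 + Real.exp (-(5/4)) * ((PintN (1/4) 2 1 + Real.exp (-2) * PintN (1/4) (-2) 1) / (1 - Real.exp (-2))) := by
    have : 0 ≤ PintN (1/4) (5/4) 1 := by
      unfold PintN
      have hG : 0 < Real.Gamma (1/4) := Real.Gamma_pos_of_pos (by norm_num)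
      refine div_nonneg (intervalIntegral.integral_nonneg (by norm_num) fun t ht => ?_) hG.le
      have : 0 ≤ t := ht.1
      positivity
    positivity
  refine lt_of_le_of_lt (mul_le_mul e3 (add_le_add h1 h8) h9 (by norm_num)) (by norm_num)

end Pool.Agent.LibZM.Numer
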