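import Mathlib
import Pool.Agent.LibZM.NC4
import Pool.Agent.LibZM.Numer

set_option autoImplicit false

namespace Pool.Agent.LibZM

open MeasureTheory Set Filter Topology Complex ProbabilityTheory
open scoped NNReal

lemma Pint_zero_pos : 0 < Pint (1/4) 0 1 := by
  have h : Pint (1/4) 0 1 = Numer.PintN (1/4) 0 1 := rfl
  rw [h, Numer.PintN_zero]
  have := Real.Gamma_pos_of_pos (show (0:ℝ) < 1/4 by norm_num)
  positivity

lemma sn_crit_lower : ∃ c₀ : ℝ, 0 < c₀ ∧ ∀ X : ℝ, Real.exp 1 ≤ X → c₀ * (Real.log X) ^ (1/4:ℝ) ≤ DD ⌊X⌋₊ (1/2 + 0) := by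
  have hP := Pint_zero_pos
  have hA := Aconst_pos (κ := 1/2) (by norm_num)
  have t1 := (DD_tendsto 0 (θ := 1) one_pos).eventually_const_lt (u := Pint (1/4) 0 1 / 2) (by linarith)
  obtain ⟨X0, hX0⟩ := eventually_atTop.mp (t1.and (eventually_ge_atTop (Real.exp 1)))
  have hX0e : Real.exp 1 ≤ X0 := (hX0 X0 le_rfl).2
  have he1 : 1 < Real.exp 1 := by rw [Real.one_lt_exp_iff]; norm_num
  have hlX0 : 1 ≤ Real.log X0 := by
    have := Real.log_le_log (by positivity) hX0e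
    rwa [Real.log_exp] at this
  refine ⟨min (Pint (1/4) 0 1 / 2 * Aconst (1/2)) ((Real.log X0) ^ (1/4:ℝ))⁻¹, lt_min (by positivity) (by positivity), fun X hX => ?_⟩
  have hX1 : 1 < X := by linarith
  have hlX : 0 < Real.log X := Real.log_pos hX1
  rcases le_or_gt X0 X with h | h
  · have h1 := (hX0 X h).1
    have e0 : (1/2 + 0 / Real.log X : ℝ) = 1/2 + 0 := by rw [zero_div]
    have hN1 : NT 1 X = ⌊X⌋₊ := by unfold NT; rw [Real.rpow_one]
    rw [e0, hN1, lt_div_iff₀ (Lam_pos hX1)] at h1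
    refine le_trans ?_ h1.le
    unfold Lam
    calc _ ≤ (Pint (1/4) 0 1 / 2 * Aconst (1/2)) * (Real.log X) ^ (1/4:ℝ) := by
          apply mul_le_mul_of_nonneg_right (min_le_left _ _) (by positivity)
      _ = _ := by ring
  · have h1 := one_le_DD (N := ⌊X⌋₊) (Nat.le_floor (by simpa using hX1.le)) (1/2 + 0)
    refine le_trans ?_ h1
    calc _ ≤ ((Real.log X0) ^ (1/4:ℝ))⁻¹ * (Real.log X) ^ (1/4:ℝ) := by
          apply mul_le_mul_of_nonneg_right (min_le_right _ _) (by positivity)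
      _ ≤ ((Real.log X0) ^ (1/4:ℝ))⁻¹ * (Real.log X0) ^ (1/4:ℝ) := by
          have := Real.log_le_log (by linarith) h.le
          gcongr
      _ = 1 := inv_mul_cancel₀ (by positivity)

/-- Away from the critical line the convexity term is negligible. -/
theorem far_small {η : ℝ} (hη : 0 < η) : ∃ Λ : ℝ, 0 < Λ ∧ ∀ T d : ℝ, 1 < T → 0 ≤ d → d ≤ 1/4 → Λ ≤ d * Real.log T → 
    Lam T * Real.exp (-(d * Real.log T) / 2) ≤ η * SN T d := by
  obtain ⟨c₀, hc0, hc⟩ := sn_crit_lower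
  have hA := Aconst_pos (κ := 1/2) (by norm_num)
  have hlim := lim_exp (a := 1/2) (ε := 1) (by norm_num) one_pos (1/4)
  have hev := hlim.eventually_lt_const (u := η * c₀ * Real.exp (-2) / Aconst (1/2)) (by positivity)
  obtain ⟨Λ, hΛ⟩ := eventually_atTop.mp (hev.and (eventually_ge_atTop 1))
  have hΛ1 : 1 ≤ Λ := (hΛ Λ le_rfl).2
  refine ⟨Λ, by linarith, fun T d hT hd0 hd1 hx => ?_⟩
  have hT0 : 0 < T := by linarith
  have hl := Real.log_pos hT
  have hdpos : 0 < d := by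
    rcases hd0.eq_or_lt with h | h
    · rw [← h, zero_mul] at hx; linarith
    · exact h
  obtain ⟨x, hxd⟩ : ∃ x : ℝ, x = d * Real.log T := ⟨_, rfl⟩
  have hx1 : 1 ≤ x := by rw [hxd]; linarith
  have h1 := (hΛ x (by rw [hxd]; exact hx)).1
  rw [Real.rpow_one, lt_div_iff₀ hA] at h1
  -- lower bound for SN
  obtain ⟨X, hX⟩ : ∃ X : ℝ, X = Real.exp (1/d) := ⟨_, rfl⟩
  have hXT : X ≤ T := by
    rw [hX, ← Real.le_log_iff_exp_le hT0, div_le_iff₀ hdpos]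
    rw [hxd] at hx1; linarith
  have hXe : Real.exp 1 ≤ X := by
    rw [hX]
    apply Real.exp_le_exp.mpr
    rw [le_div_iff₀ hdpos]; linarith
  have hlogX : Real.log X = 1/d := by rw [hX, Real.log_exp]
  have h2 := hc X hXe
  rw [hlogX] at h2
  have h3 : Real.exp (-2) * DD ⌊X⌋₊ (1/2 + 0) ≤ SN T d := by
    rw [SN_eq_DD]
    refine le_trans ?_ (DD_mono (Nat.floor_le_floor hXT) d)
    rw [DD_eq, DD_eq, Finset.mul_sum]
    refine Finset.sum_le_sum fun n hn => ?_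
    obtain ⟨hn1, hn2⟩ := Finset.mem_Icc.mp hn
    have hn0 : (0:ℝ) < n := by exact_mod_cast hn1
    have hnX : (n:ℝ) ≤ X := (Nat.le_floor_iff (by rw [hX]; positivity)).mp hn2
    have h4 : Real.exp (-2) ≤ (n:ℝ) ^ (-(2 * d)) := by
      rw [Real.rpow_def_of_pos hn0]
      apply Real.exp_le_exp.mpr
      have h5 := Real.log_le_log hn0 hnX
      rw [hlogX] at h5
      have h6 : Real.log n * d ≤ 1 := by
        calc Real.log n * d ≤ 1/d * d := by gcongr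
          _ = 1 := by field_simp
      nlinarith
    have e1 : (n:ℝ) ^ (-(1 + 2 * d)) = (n:ℝ) ^ (-(2 * d)) * (n:ℝ) ^ (-(1 + 2 * (0:ℝ))) := by
      rw [← Real.rpow_add hn0]; congr 1; ring
    rw [e1]
    calc Real.exp (-2) * (tau (1/2) n ^ 2 * (n:ℝ) ^ (-(1 + 2 * (0:ℝ)))) ≤ (n:ℝ) ^ (-(2 * d)) * (tau (1/2) n ^ 2 * (n:ℝ) ^ (-(1 + 2 * (0:ℝ)))) := by
          gcongr
      _ = _ := by ring
  have hLam : Lam T = Aconst (1/2) * (x ^ (1/4:ℝ) * (1/d) ^ (1/4:ℝ)) := by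
    unfold Lam
    rw [← Real.mul_rpow (by linarith) (by positivity)]
    congr 2
    rw [hxd]; field_simp
  have e2 : Real.exp (-(d * Real.log T) / 2) = Real.exp (-(1/2 * x)) := by rw [hxd]; congr 1; ring
  rw [e2, hLam]
  have h4 : 0 < (1/d) ^ (1/4:ℝ) := by positivity
  calc Aconst (1/2) * (x ^ (1/4:ℝ) * (1/d) ^ (1/4:ℝ)) * Real.exp (-(1/2 * x)) 
      = (x ^ (1/4:ℝ) * Real.exp (-(1/2 * x)) * Aconst (1/2)) * (1/d) ^ (1/4:ℝ) := by ring
    _ ≤ (η * c₀ * Real.exp (-2)) * (1/d) ^ (1/4:ℝ) := by gcongr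
    _ = η * (Real.exp (-2) * (c₀ * (1/d) ^ (1/4:ℝ))) := by ring
    _ ≤ η * (Real.exp (-2) * DD ⌊X⌋₊ (1/2 + 0)) := by gcongr
    _ ≤ η * SN T d := by gcongr

/-- Uniform approximate formula for the first moment on lines near the critical line. -/
theorem first_uniform {K₀ K : ℝ} (hK0 : 1 ≤ K₀) (hKK : K₀ < K) 
    (hng : ∀ᶠ θ : ℝ in 𝓝[<] (1:ℝ), ∀ ε : ℝ, 0 < ε → ∀ᶠ p : ℝ × ℝ in Fl ε, ng θ 0 p ≤ K₀) {η : ℝ} (hη : 0 < η) : 
    ∀ᶠ T : ℝ in atTop, ∀ d : ℝ, 0 ≤ d → d ≤ 1/4 → 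
      |(∫ t in Icc 0 T, zl d t) - T * SN T d| ≤ η * (T * SN T d) + K * (T * (Lam T * Real.exp (-(d * Real.log T)))) := by
  -- parameters
  obtain ⟨ρ, hρ0, hρ1, hρK, hρη⟩ : ∃ ρ : ℝ, 0 < ρ ∧ ρ < 1/4 ∧ (K₀ + ρ) * (1 + ρ) ^ 2 < K ∧ ρ < η / 2 := by
    apply exists_delta
    have c1 : ContinuousAt (fun ρ : ℝ => (K₀ + ρ) * (1 + ρ) ^ 2) 0 := by fun_prop
    have d1 := c1.eventually_lt_const (u := K) (by norm_num; exact hKK)
    have d2 : ∀ᶠ ρ : ℝ in 𝓝 0, ρ < η / 2 := gt_mem_nhds (by positivity)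
    filter_upwards [d1, d2] with x h1 h2
    exact ⟨h1, h2⟩
  obtain ⟨Λ, hΛ0, hΛ⟩ := far_small (η := η / (4 * (K₀ + ρ))) (by positivity)
  obtain ⟨κ, hκh, hκ1, hκΛ⟩ : ∃ κ : ℝ, 1/2 ≤ κ ∧ κ < 1 ∧ Real.exp ((1 - κ) * Λ) ≤ 1 + ρ := by
    have c1 : ContinuousAt (fun κ : ℝ => Real.exp ((1 - κ) * Λ)) 1 := by fun_prop
    have d1 := c1.eventually_lt_const (u := 1 + ρ) (by norm_num; exact hρ0)
    have d2 : ∀ᶠ κ : ℝ in 𝓝 (1:ℝ), 1/2 < κ := lt_mem_nhds (by norm_num)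
    obtain ⟨κ, ⟨h1, h2⟩, h3⟩ := (((d1.and d2).filter_mono nhdsWithin_le_nhds : ∀ᶠ κ in 𝓝[<] (1:ℝ), _).and self_mem_nhdsWithin).exists
    exact ⟨κ, h2.le, h3, h1.le⟩
  have u1 := upper_line hK0 hρ0 (by linarith) (by linarith) hκ1 hng
  have u2 := lower_line hK0 hρ0 (by linarith) (by linarith) hκ1 hng
  have u3 : ∀ᶠ T : ℝ in atTop, Λ / Real.log T < ρ / 2 := (div_log_tendsto Λ).eventually_lt_const (by positivity)
  filter_upwards [u1, u2, u3, eventually_gt_atTop 1] with T h1 h2 h3 hT d hd0 hd1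
  have hT0 : 0 < T := by linarith
  have hl := Real.log_pos hT
  have hL := Lam_pos hT
  have b1 := h1 d hd0 hd1
  have b2 := h2 d hd0 hd1
  have hSN := one_le_SN hT.le d
  have hTS : 0 < T * SN T d := by
    have : 0 < SN T d := by linarith
    positivity
  obtain ⟨x, hx⟩ : ∃ x : ℝ, x = d * Real.log T := ⟨_, rfl⟩
  have hx0 : 0 ≤ x := by rw [hx]; positivity
  have eκ : κ * d * Real.log T = κ * x := by rw [hx]; ring
  rw [eκ] at b1 b2
  rw [← hx]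
  have hκd : κ * d ≤ 1/4 := by nlinarith
  have hκd0 : 0 ≤ κ * d := mul_nonneg (by linarith) hd0
  obtain ⟨J, hJ⟩ : ∃ J : ℝ, J = ∫ t in Icc 0 T, zl d t := ⟨_, rfl⟩
  rw [← hJ] at b1 b2 ⊢
  rcases le_or_gt x Λ with hxΛ | hxΛ
  · -- close to the critical line
    have hdρ : d ≤ ρ / 2 := by
      have : d ≤ Λ / Real.log T := by
        rw [le_div_iff₀ hl, ← hx]; exact hxΛ
      linarith
    have e1 : Real.exp (-(κ * x)) ≤ (1 + ρ) * Real.exp (-x) := by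
      have : Real.exp (-(κ * x)) = Real.exp ((1 - κ) * x) * Real.exp (-x) := by
        rw [← Real.exp_add]; congr 1; ring
      rw [this]
      apply mul_le_mul_of_nonneg_right _ (Real.exp_pos _).le
      refine le_trans ?_ hκΛ
      apply Real.exp_le_exp.mpr
      apply mul_le_mul_of_nonneg_left hxΛ
      linarith
    have e2 : (K₀ + ρ) / (1 - κ * d) ≤ (K₀ + ρ) * (1 + ρ) := by
      rw [div_le_iff₀ (by linarith)]
      have : 1 ≤ (1 + ρ) * (1 - κ * d) := by nlinarith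
      nlinarith
    have hY : 0 < T * (Lam T * Real.exp (-x)) := by positivity
    have e3 : T * (Lam T * Real.exp (-(κ * x))) ≤ (1 + ρ) * (T * (Lam T * Real.exp (-x))) := by
      calc T * (Lam T * Real.exp (-(κ * x))) ≤ T * (Lam T * ((1 + ρ) * Real.exp (-x))) := by gcongr
        _ = _ := by ring
    have e4 : (K₀ + ρ) * (1 + ρ) * ((1 + ρ) * (T * (Lam T * Real.exp (-x)))) ≤ K * (T * (Lam T * Real.exp (-x))) := by
      calc _ = ((K₀ + ρ) * (1 + ρ) ^ 2) * (T * (Lam T * Real.exp (-x))) := by ring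
        _ ≤ _ := by gcongr
    have hX0 : 0 ≤ T * (Lam T * Real.exp (-(κ * x))) := by positivity
    rw [abs_le]
    constructor
    · have c1 : (K₀ + ρ) * (T * (Lam T * Real.exp (-(κ * x)))) ≤ K * (T * (Lam T * Real.exp (-x))) := by
        calc (K₀ + ρ) * (T * (Lam T * Real.exp (-(κ * x)))) ≤ (K₀ + ρ) * (1 + ρ) * ((1 + ρ) * (T * (Lam T * Real.exp (-x)))) := by
              apply mul_le_mul _ e3 hX0 (by positivity)
              nlinarith
          _ ≤ _ := e4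
      nlinarith
    · have c1 : (K₀ + ρ) / (1 - κ * d) * (T * (Lam T * Real.exp (-(κ * x)))) ≤ K * (T * (Lam T * Real.exp (-x))) := by
        calc _ ≤ (K₀ + ρ) * (1 + ρ) * ((1 + ρ) * (T * (Lam T * Real.exp (-x)))) := mul_le_mul e2 e3 hX0 (by positivity)
          _ ≤ _ := e4
      nlinarith
  · -- away from the critical line
    have f1 := hΛ T d hT hd0 hd1 (by rw [← hx]; exact hxΛ.le)
    rw [← hx] at f1
    have f2 : Real.exp (-(κ * x)) ≤ Real.exp (-x / 2) := by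
      apply Real.exp_le_exp.mpr; nlinarith
    have e2 : (K₀ + ρ) / (1 - κ * d) ≤ 2 * (K₀ + ρ) := by
      rw [div_le_iff₀ (by linarith)]
      nlinarith
    have f3 : 2 * (K₀ + ρ) * (T * (Lam T * Real.exp (-(κ * x)))) ≤ η / 2 * (T * SN T d) := by
      calc 2 * (K₀ + ρ) * (T * (Lam T * Real.exp (-(κ * x)))) ≤ 2 * (K₀ + ρ) * (T * (Lam T * Real.exp (-x / 2))) := by gcongr
        _ ≤ 2 * (K₀ + ρ) * (T * (η / (4 * (K₀ + ρ)) * SN T d)) := by gcongr
        _ = _ := by field_simp; ring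
    have hX0 : 0 ≤ T * (Lam T * Real.exp (-(κ * x))) := by positivity
    have hY : 0 ≤ K * (T * (Lam T * Real.exp (-x))) := by
      have : 0 < K := by linarith
      positivity
    rw [abs_le]
    constructor
    · have c1 : (K₀ + ρ) * (T * (Lam T * Real.exp (-(κ * x)))) ≤ 2 * (K₀ + ρ) * (T * (Lam T * Real.exp (-(κ * x)))) := by
        apply mul_le_mul_of_nonneg_right _ hX0
        linarith
      nlinarith
    · have c1 : (K₀ + ρ) / (1 - κ * d) * (T * (Lam T * Real.exp (-(κ * x)))) ≤ 2 * (K₀ + ρ) * (T * (Lam T * Real.exp (-(κ * x)))) := by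
        apply mul_le_mul_of_nonneg_right e2 hX0
      nlinarith

/-- The truncated sum near the critical line. -/
theorem SN_near {δ : ℝ → ℝ} (hδ : Tendsto δ atTop (𝓝 0)) (hδL : Tendsto (fun T => δ T * Real.log T) atTop atTop) : 
    Tendsto (fun T => SN T (δ T) * (2 * δ T) ^ (1/4:ℝ)) atTop (𝓝 (Aconst (1/2))) := by
  have hpos : ∀ᶠ T : ℝ in atTop, 0 < δ T := by
    filter_upwards [hδL.eventually_gt_atTop 0, eventually_gt_atTop 1] with T h1 h2
    exact (mul_pos_iff_of_pos_right (Real.log_pos h2)).mp h1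
  have hF := tendsto_tau_sq (κ := 1/2) (by norm_num)
  have e4 : ((1:ℝ)/2) ^ 2 = 1/4 := by norm_num
  rw [e4] at hF
  have w1 : Tendsto δ atTop (𝓝[>] 0) := tendsto_nhdsWithin_of_tendsto_nhds_of_eventually_within _ hδ hpos
  have w2 : Tendsto (fun T => 2 * δ T) atTop (𝓝[>] 0) := by
    apply tendsto_nhdsWithin_of_tendsto_nhds_of_eventually_within
    · have := hδ.const_mul 2
      rwa [mul_zero] at this
    · filter_upwards [hpos] with T hT
      rw [mem_Ioi]; positivity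
  have g1 := hF.comp w1
  have g2 := hF.comp w2
  have g3 : Tendsto (fun T => Real.exp (-(δ T * Real.log T))) atTop (𝓝 0) := Real.tendsto_exp_neg_atTop_nhds_zero.comp hδL
  have g4 := (g3.mul g1).const_mul ((2:ℝ) ^ (1/4:ℝ))
  rw [zero_mul, mul_zero] at g4
  have g5 := g2.sub g4
  rw [sub_zero] at g5
  have key : ∀ᶠ T : ℝ in atTop, 
      (2 * δ T) ^ (1/4:ℝ) * (∑' n : ℕ, tau (1/2) n ^ 2 * (n:ℝ) ^ (-(1 + 2 * δ T))) - 
        (2:ℝ) ^ (1/4:ℝ) * (Real.exp (-(δ T * Real.log T)) * ((δ T) ^ (1/4:ℝ) * ∑' n : ℕ, tau (1/2) n ^ 2 * (n:ℝ) ^ (-(1 + δ T)))) ≤ 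
      SN T (δ T) * (2 * δ T) ^ (1/4:ℝ) ∧ 
      SN T (δ T) * (2 * δ T) ^ (1/4:ℝ) ≤ (2 * δ T) ^ (1/4:ℝ) * (∑' n : ℕ, tau (1/2) n ^ 2 * (n:ℝ) ^ (-(1 + 2 * δ T))) := by
    filter_upwards [hpos, eventually_gt_atTop 1] with T hd hT
    have hT0 : 0 < T := by linarith
    have s1 := summable_tau_sq (κ := 1/2) (by norm_num) (show 1 < 1 + 2 * δ T by linarith)
    have s2 := summable_tau_sq (κ := 1/2) (by norm_num) (show 1 < 1 + δ T by linarith)
    have hle : SN T (δ T) ≤ ∑' n : ℕ, tau (1/2) n ^ 2 * (n:ℝ) ^ (-(1 + 2 * δ T)) := by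
      unfold SN
      exact s1.sum_le_tsum _ fun n _ => by positivity
    have hge : (∑' n : ℕ, tau (1/2) n ^ 2 * (n:ℝ) ^ (-(1 + 2 * δ T))) ≤ 
        SN T (δ T) + Real.exp (-(δ T * Real.log T)) * ∑' n : ℕ, tau (1/2) n ^ 2 * (n:ℝ) ^ (-(1 + δ T)) := by
      have hsplit := s1.sum_add_tsum_compl (s := Finset.Icc 1 ⌊T⌋₊)
      rw [← hsplit]
      have e1 : SN T (δ T) = ∑ n ∈ Finset.Icc 1 ⌊T⌋₊, tau (1/2) n ^ 2 * (n:ℝ) ^ (-(1 + 2 * δ T)) := rfl
      rw [e1, ← tsum_mul_left]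
      apply add_le_add le_rfl
      have s3 : Summable fun n : ℕ => Real.exp (-(δ T * Real.log T)) * (tau (1/2) n ^ 2 * (n:ℝ) ^ (-(1 + δ T))) := s2.mul_left _
      have hsub : ∑' x : ↑((↑(Finset.Icc 1 ⌊T⌋₊) : Set ℕ)ᶜ), tau (1/2) (x:ℕ) ^ 2 * ((x:ℕ):ℝ) ^ (-(1 + 2 * δ T)) ≤ 
          ∑' x : ↑((↑(Finset.Icc 1 ⌊T⌋₊) : Set ℕ)ᶜ), Real.exp (-(δ T * Real.log T)) * (tau (1/2) (x:ℕ) ^ 2 * ((x:ℕ):ℝ) ^ (-(1 + δ T))) := by
        apply Summable.tsum_le_tsum _ (s1.subtype _) (s3.subtype _)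
        rintro ⟨n, hn⟩
        simp only [Set.mem_compl_iff, Finset.coe_Icc, Set.mem_Icc, not_and_or, not_le] at hn
        rcases hn with hn | hn
        · have : n = 0 := by omega
          subst this
          simp
        · have hn1 : 1 ≤ n := by omega
          have hn0 : (0:ℝ) < n := by exact_mod_cast hn1
          have hn3 : T < n := (Nat.floor_lt hT0.le).mp hn
          have h5 : (n:ℝ) ^ (-(δ T)) ≤ Real.exp (-(δ T * Real.log T)) := by
            have e6 : Real.exp (-(δ T * Real.log T)) = T ^ (-(δ T)) := by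
              rw [Real.rpow_def_of_pos hT0]; congr 1; ring
            rw [e6]
            exact Real.rpow_le_rpow_of_nonpos hT0 hn3.le (by linarith)
          have h6 : (n:ℝ) ^ (-(1 + 2 * δ T)) = (n:ℝ) ^ (-(δ T)) * (n:ℝ) ^ (-(1 + δ T)) := by
            rw [← Real.rpow_add hn0]; congr 1; ring
          show tau (1/2) n ^ 2 * (n:ℝ) ^ (-(1 + 2 * δ T)) ≤ Real.exp (-(δ T * Real.log T)) * (tau (1/2) n ^ 2 * (n:ℝ) ^ (-(1 + δ T)))
          rw [h6]
          calc tau (1/2) n ^ 2 * ((n:ℝ) ^ (-(δ T)) * (n:ℝ) ^ (-(1 + δ T))) = (n:ℝ) ^ (-(δ T)) * (tau (1/2) n ^ 2 * (n:ℝ) ^ (-(1 + δ T))) := by ring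
            _ ≤ _ := by gcongr
      refine hsub.trans ?_
      exact Summable.tsum_subtype_le (f := fun n : ℕ => Real.exp (-(δ T * Real.log T)) * (tau (1/2) n ^ 2 * (n:ℝ) ^ (-(1 + δ T)))) _ (fun n => by positivity) s3
    have hp0 : 0 ≤ (2 * δ T) ^ (1/4:ℝ) := by positivity
    constructor
    · have e2 : (2:ℝ) ^ (1/4:ℝ) * (Real.exp (-(δ T * Real.log T)) * ((δ T) ^ (1/4:ℝ) * ∑' n : ℕ, tau (1/2) n ^ 2 * (n:ℝ) ^ (-(1 + δ T)))) = 
          (2 * δ T) ^ (1/4:ℝ) * (Real.exp (-(δ T * Real.log T)) * ∑' n : ℕ, tau (1/2) n ^ 2 * (n:ℝ) ^ (-(1 + δ T))) := by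
        rw [Real.mul_rpow (by norm_num) hd.le]; ring
      rw [e2, ← mul_sub, mul_comm (SN T (δ T))]
      apply mul_le_mul_of_nonneg_left _ hp0
      linarith
    · rw [mul_comm]
      exact mul_le_mul_of_nonneg_left hle hp0
  exact tendsto_of_tendsto_of_tendsto_of_le_of_le' g5 g2 (key.mono fun T h => h.1) (key.mono fun T h => h.2)

/-- The truncated sum at a fixed multiple of the mean spacing. -/
theorem SN_fixed (l : ℝ) : Tendsto (fun T => SN T (l / Real.log T) / Lam T) atTop (𝓝 (Pint (1/4) l 1)) := by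
  refine (DD_tendsto l (θ := 1) one_pos).congr fun T => ?_
  have hN1 : NT 1 T = ⌊T⌋₊ := by unfold NT; rw [Real.rpow_one]
  rw [hN1, SN_eq_DD]

end Pool.Agent.LibZM
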