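import Mathlib
import Pool.Agent.LibZM.NC5

set_option autoImplicit false

/-! The first absolute moment of zeta on lines near the critical line: a uniform approximate formula,
the asymptotic formula as soon as the distance is large compared with the mean spacing `1/log T`, and
explicit two-sided bounds at distance `l/log T`. -/

namespace Pool.Agent.LibZM.NearLineFull

open Filter Topology

/-- The generalised divisor coefficient `d_κ(p^a) = κ(κ+1)⋯(κ+a-1)/a!`. -/
noncomputable def divCoeff (κ : ℝ) (a : ℕ) : ℝ := ∏ i ∈ Finset.range a, (κ + i) / (i + 1)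

/-- The multiplicative function `d_{1/2}`, the Dirichlet coefficients of `ζ(s)^{1/2}`. -/
noncomputable def dHalf (n : ℕ) : ℝ := ∏ p ∈ n.primeFactors, divCoeff (1 / 2) (n.factorization p)

/-- The Euler factor at `p` of the arithmetic constant `a_κ`. -/
noncomputable def eulerFactor (κ : ℝ) (p : Nat.Primes) : ℝ :=
  (1 - 1 / (p : ℝ)) ^ (κ ^ 2) * ∑' a : ℕ, divCoeff κ a ^ 2 / (p : ℝ) ^ a

/-- The arithmetic constant `a_{1/2}` of the first moment. -/
noncomputable def aHalf : ℝ := ∏' p : Nat.Primes, eulerFactor (1 / 2) p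

/-- The sum over `1 ≤ n ≤ T` of `d_{1/2}(n)^2 n^{-2σ}`. -/
noncomputable def diag (T σ : ℝ) : ℝ := ∑ n ∈ Finset.Icc 1 ⌊T⌋₊, dHalf n ^ 2 / (n : ℝ) ^ (2 * σ)

/-- The integral over `[0,T]` of `|ζ(σ+it)|`. -/
noncomputable def moment (T σ : ℝ) : ℝ := ∫ t in (0:ℝ)..T, ‖riemannZeta ((σ : ℂ) + (t : ℂ) * Complex.I)‖

/-- `p(l) = Γ(1/4)⁻¹ ∫_0^1 y^{-3/4} e^{-2ly} dy`. -/
noncomputable def profile (l : ℝ) : ℝ :=
  (∫ y in (0:ℝ)..1, y ^ (-3 / 4 : ℝ) * Real.exp (-(2 * l * y))) / Real.Gamma (1 / 4)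

lemma eulerFactor_eq (κ : ℝ) (p : Nat.Primes) : eulerFactor κ p = LibZM.Efac κ ((p:ℝ)⁻¹) := by
  unfold eulerFactor LibZM.Efac LibZM.Gsum
  rw [one_div]
  congr 1
  congr 1
  funext a
  rw [inv_pow, div_eq_mul_inv]
  rfl

lemma aHalf_eq : aHalf = LibZM.Aconst (1 / 2) := by
  unfold aHalf
  have hfun : (fun p : Nat.Primes => eulerFactor (1 / 2) p) =
      fun p : Nat.Primes => LibZM.Efac (1 / 2) ((p:ℝ)⁻¹) := funext fun p => eulerFactor_eq _ p
  rw [hfun]; rfl

lemma dHalf_eq {n : ℕ} (hn : n ≠ 0) : dHalf n = LibZM.tau (1 / 2) n := by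
  rw [LibZM.tau_apply hn]
  unfold dHalf
  rw [Nat.prod_factorization_eq_prod_primeFactors]
  rfl

lemma diag_eq (T σ : ℝ) : diag T σ = LibZM.SN T (σ - 1 / 2) := by
  unfold diag LibZM.SN
  refine Finset.sum_congr rfl fun n hn => ?_
  have hn1 := (Finset.mem_Icc.mp hn).1
  have hn0 : (0:ℝ) < n := by exact_mod_cast hn1
  rw [dHalf_eq (by omega), div_eq_mul_inv, ← Real.rpow_neg hn0.le]
  congr 2; ring

lemma moment_eq {T : ℝ} (hT : 0 ≤ T) (σ : ℝ) : moment T σ = ∫ t in Set.Icc 0 T, LibZM.zl (σ - 1 / 2) t := by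
  unfold moment
  rw [intervalIntegral.integral_of_le hT, MeasureTheory.integral_Icc_eq_integral_Ioc]
  unfold LibZM.zl
  have e : (1 / 2 + (σ - 1 / 2) : ℝ) = σ := by ring
  rw [e]

lemma profile_eq (l : ℝ) : profile l = LibZM.Pint (1 / 4) l 1 := by
  unfold profile LibZM.Pint
  norm_num

/-- The constant of the convexity argument. -/
lemma const_num : (LibZM.pp 2 + Real.exp (-2) * LibZM.pp (-2)) / (1 - Real.exp (-2)) < 169 / 100 := by
  have h2 : LibZM.Numer.PintN (1/4) 2 1 ≤ 7072/10000 :=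
    (LibZM.Numer.PintN_le (by norm_num)).trans (LibZM.Numer.rpow_quarter_le (by norm_num) (by norm_num) (by norm_num))
  have h3 := LibZM.Numer.PintN_neg2
  have he4 := LibZM.Numer.e4
  have h4 : 0 ≤ LibZM.Numer.PintN (1/4) (-2) 1 := by
    unfold LibZM.Numer.PintN
    have hG : 0 < Real.Gamma (1/4) := Real.Gamma_pos_of_pos (by norm_num)
    refine div_nonneg (intervalIntegral.integral_nonneg (by norm_num) fun t ht => ?_) hG.le
    have : 0 ≤ t := ht.1
    positivity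
  have h5 : Real.exp (-2) * LibZM.Numer.PintN (1/4) (-2) 1 ≤ 13534/100000 * (555/100) :=
    mul_le_mul he4 h3 h4 (by norm_num)
  have e1 : LibZM.pp 2 = LibZM.Numer.PintN (1/4) 2 1 := rfl
  have e2 : LibZM.pp (-2) = LibZM.Numer.PintN (1/4) (-2) 1 := rfl
  rw [e1, e2, div_lt_iff₀ (by linarith)]
  nlinarith

/-- Main result: (1) convergence and positivity of `a_{1/2}`; (2) a formula uniform on
`1/2 ≤ σ ≤ 3/4`; (3) the asymptotic formula when `σ(T) → 1/2` and `(σ(T) - 1/2) log T → ∞`;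
(4) explicit bounds at distance `l / log T` from the critical line. -/
theorem full :
    ((Multipliable fun p : Nat.Primes => eulerFactor (1 / 2) p) ∧ 0 < aHalf) ∧
      (∀ η : ℝ, 0 < η → ∀ᶠ T : ℝ in atTop, ∀ σ : ℝ, 1 / 2 ≤ σ → σ ≤ 3 / 4 →
        |moment T σ - T * diag T σ| ≤
          η * (T * diag T σ) + 17 / 10 * aHalf * (T ^ (3 / 2 - σ) * Real.log T ^ (1 / 4 : ℝ))) ∧
      (∀ σ : ℝ → ℝ, Tendsto σ atTop (𝓝 (1 / 2)) →
        Tendsto (fun T => (σ T - 1 / 2) * Real.log T) atTop atTop →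
        Tendsto (fun T => moment T (σ T) / (T * (2 * σ T - 1) ^ (-1 / 4 : ℝ))) atTop (𝓝 aHalf)) ∧
      (∀ l : ℝ, 0 ≤ l → ∀ᶠ T : ℝ in atTop,
        |moment T (1 / 2 + l / Real.log T) / (T * Real.log T ^ (1 / 4 : ℝ)) - aHalf * profile l| ≤
          17 / 10 * aHalf * Real.exp (-l)) := by
  have hfun : (fun p : Nat.Primes => eulerFactor (1 / 2) p) =
      fun p : Nat.Primes => LibZM.Efac (1 / 2) ((p:ℝ)⁻¹) := funext fun p => eulerFactor_eq _ p
  have hA := LibZM.Aconst_pos (κ := 1 / 2) (by norm_num)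
  have hng := LibZM.ng_upper (B := 2) (by norm_num) const_num
  have hmain : ∀ η : ℝ, 0 < η → ∀ᶠ T : ℝ in atTop, ∀ d : ℝ, 0 ≤ d → d ≤ 1/4 →
      |(∫ t in Set.Icc 0 T, LibZM.zl d t) - T * LibZM.SN T d| ≤
        η * (T * LibZM.SN T d) + 339 / 200 * (T * (LibZM.Lam T * Real.exp (-(d * Real.log T)))) := fun η hη =>
    LibZM.first_uniform (by norm_num) (by norm_num) hng hη
  refine ⟨⟨?_, ?_⟩, ?_, ?_, ?_⟩
  · rw [hfun]; exact LibZM.multipliable_Efac (by norm_num)
  · rw [aHalf_eq]; exact hA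
  · intro η hη
    filter_upwards [hmain η hη, eventually_gt_atTop 1] with T h1 hT σ hσ0 hσ1
    have hT0 : 0 < T := by linarith
    have hl := Real.log_pos hT
    have h2 := h1 (σ - 1/2) (by linarith) (by linarith)
    rw [moment_eq hT0.le, diag_eq, aHalf_eq]
    refine h2.trans ?_
    have e1 : T * Real.exp (-((σ - 1/2) * Real.log T)) = T ^ (3/2 - σ) := by
      rw [Real.rpow_def_of_pos hT0]
      nth_rewrite 1 [← Real.exp_log hT0]
      rw [← Real.exp_add]
      congr 1; ring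
    have e2 : T * (LibZM.Lam T * Real.exp (-((σ - 1/2) * Real.log T))) =
        LibZM.Aconst (1/2) * (T ^ (3/2 - σ) * Real.log T ^ (1/4:ℝ)) := by
      rw [← e1]; unfold LibZM.Lam; ring
    rw [e2]
    have : 0 < LibZM.Aconst (1/2) * (T ^ (3/2 - σ) * Real.log T ^ (1/4:ℝ)) := by positivity
    nlinarith
  · intro σ hσ hσL
    have hδ : Tendsto (fun T => σ T - 1/2) atTop (𝓝 0) := by
      have := hσ.sub_const (1/2)
      rwa [sub_self] at this
    have hSN := LibZM.SN_near hδ hσL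
    have hpos : ∀ᶠ T : ℝ in atTop, 0 < σ T - 1/2 := by
      filter_upwards [hσL.eventually_gt_atTop 0, eventually_gt_atTop 1] with T h1 h2
      exact (mul_pos_iff_of_pos_right (Real.log_pos h2)).mp h1
    rw [aHalf_eq]
    obtain ⟨A, hAdef⟩ : ∃ A : ℝ, A = LibZM.Aconst (1/2) := ⟨_, rfl⟩
    rw [← hAdef] at hSN hA ⊢
    -- the error term
    have herr : Tendsto (fun T => 339/200 * (LibZM.Lam T * Real.exp (-((σ T - 1/2) * Real.log T))) * (2 * (σ T - 1/2)) ^ (1/4:ℝ)) atTop (𝓝 0) := by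
      have h1 := LibZM.lim_exp (a := 1) (ε := 1) one_pos one_pos (1/4)
      have h2 := (h1.comp hσL).const_mul (339/200 * A * (2:ℝ) ^ (1/4:ℝ))
      rw [mul_zero] at h2
      refine h2.congr' ?_
      filter_upwards [hpos, eventually_gt_atTop 1] with T hd hT
      have hl := Real.log_pos hT
      simp only [Function.comp, Real.rpow_one, one_mul]
      rw [Real.mul_rpow hd.le hl.le, Real.mul_rpow (by norm_num) hd.le]
      unfold LibZM.Lam
      rw [← hAdef]
      ring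
    rw [Metric.tendsto_atTop']
    intro ε hε
    obtain ⟨η, hη0, hη⟩ : ∃ η : ℝ, 0 < η ∧ η * (A + 1) = ε / 4 := ⟨ε / 4 / (A + 1), by positivity, by field_simp⟩
    have k1 := hSN.eventually_lt_const (u := A + 1) (by linarith)
    have k2 := herr.eventually_lt_const (u := ε / 4) (by positivity)
    have k3 := Metric.tendsto_nhds.mp hSN (ε / 4) (by positivity)
    have k4 : ∀ᶠ T : ℝ in atTop, σ T - 1/2 < 1/4 := hδ.eventually_lt_const (by norm_num)
    obtain ⟨T0, hT0⟩ := eventually_atTop.mp ((hmain η hη0).and (k1.and (k2.and (k3.and (k4.and (hpos.and (eventually_gt_atTop 1)))))))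
    refine ⟨T0, fun T hT => ?_⟩
    obtain ⟨h1, h2, h3, h4, h5, h6, h7⟩ := hT0 T hT.le
    have hTpos : 0 < T := by linarith
    have h8 := h1 (σ T - 1/2) h6.le h5.le
    rw [Real.dist_eq] at h4 ⊢
    rw [moment_eq hTpos.le]
    obtain ⟨J, hJ⟩ : ∃ J : ℝ, J = ∫ t in Set.Icc 0 T, LibZM.zl (σ T - 1/2) t := ⟨_, rfl⟩
    obtain ⟨S, hS⟩ : ∃ S : ℝ, S = LibZM.SN T (σ T - 1/2) := ⟨_, rfl⟩
    obtain ⟨r, hr⟩ : ∃ r : ℝ, r = (2 * (σ T - 1/2)) ^ (1/4:ℝ) := ⟨_, rfl⟩
    rw [← hJ, ← hS] at h8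
    rw [← hJ]
    rw [← hS, ← hr] at h2 h4
    rw [← hr] at h3
    have hr0 : 0 < r := by rw [hr]; positivity
    have er : (2 * σ T - 1) ^ (-1/4 : ℝ) = r⁻¹ := by
      have e1 : 2 * σ T - 1 = 2 * (σ T - 1/2) := by ring
      rw [hr, e1, ← Real.rpow_neg (by linarith)]
      norm_num
    have e2 : J / (T * (2 * σ T - 1) ^ (-1/4 : ℝ)) = J / T * r := by
      rw [er]; field_simp
    rw [e2]
    have h9 : |J / T - S| ≤ η * S + 339/200 * (LibZM.Lam T * Real.exp (-((σ T - 1/2) * Real.log T))) := by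
      have e3 : J / T - S = (J - T * S) / T := by field_simp
      rw [e3, abs_div, abs_of_pos hTpos, div_le_iff₀ hTpos]
      refine h8.trans (le_of_eq ?_)
      ring
    have h10 : |J / T * r - S * r| ≤ η * (S * r) + 339/200 * (LibZM.Lam T * Real.exp (-((σ T - 1/2) * Real.log T))) * r := by
      rw [← sub_mul, abs_mul, abs_of_pos hr0]
      calc |J / T - S| * r ≤ _ := mul_le_mul_of_nonneg_right h9 hr0.le
        _ = _ := by ring
    have h11 : η * (S * r) < ε / 4 := by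
      rw [← hη]
      exact mul_lt_mul_of_pos_left h2 hη0
    calc |J / T * r - A| = |(J / T * r - S * r) + (S * r - A)| := by congr 1; ring
      _ ≤ |J / T * r - S * r| + |S * r - A| := abs_add_le _ _
      _ < ε := by linarith
  · intro l hl0
    have hfix := LibZM.SN_fixed l
    rw [← profile_eq] at hfix
    have hdl := LibZM.div_log_tendsto l
    have hel := Real.exp_pos (-l)
    obtain ⟨B, hB⟩ : ∃ B : ℝ, B = |profile l| + 1 := ⟨_, rfl⟩
    have hB0 : 0 < B := by rw [hB]; positivity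
    obtain ⟨η, hη0, hη⟩ : ∃ η : ℝ, 0 < η ∧ η * B = Real.exp (-l) / 400 := ⟨Real.exp (-l) / 400 / B, by positivity, by field_simp⟩
    have k1 := hfix.eventually_lt_const (u := B) (by rw [hB]; linarith [le_abs_self (profile l)])
    have k3 := Metric.tendsto_nhds.mp hfix (Real.exp (-l) / 400) (by positivity)
    have k4 : ∀ᶠ T : ℝ in atTop, l / Real.log T < 1/4 := hdl.eventually_lt_const (by norm_num)
    filter_upwards [hmain η hη0, k1, k3, k4, eventually_gt_atTop 1] with T h1 h2 h3 h4 hT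
    have hT0 : 0 < T := by linarith
    have hl := Real.log_pos hT
    have hL := LibZM.Lam_pos hT
    have h5 := h1 (l / Real.log T) (by positivity) h4.le
    rw [div_mul_cancel₀ _ hl.ne'] at h5
    have e0 : (1 / 2 + l / Real.log T - 1 / 2 : ℝ) = l / Real.log T := by ring
    rw [moment_eq hT0.le, e0, aHalf_eq]
    rw [Real.dist_eq] at h3
    obtain ⟨J, hJ⟩ : ∃ J : ℝ, J = ∫ t in Set.Icc 0 T, LibZM.zl (l / Real.log T) t := ⟨_, rfl⟩
    obtain ⟨S, hS⟩ : ∃ S : ℝ, S = LibZM.SN T (l / Real.log T) := ⟨_, rfl⟩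
    rw [← hJ, ← hS] at h5
    rw [← hS] at h2 h3
    rw [← hJ]
    obtain ⟨Λ, hΛ⟩ : ∃ Λ : ℝ, Λ = LibZM.Lam T := ⟨_, rfl⟩
    rw [← hΛ] at h2 h3 h5 hL
    obtain ⟨A, hAdef⟩ : ∃ A : ℝ, A = LibZM.Aconst (1/2) := ⟨_, rfl⟩
    rw [← hAdef] at hA ⊢
    have hΛA : Λ = A * Real.log T ^ (1/4:ℝ) := by rw [hΛ, hAdef]; rfl
    have hq : 0 < Real.log T ^ (1/4:ℝ) := by positivity
    have e1 : J / (T * Real.log T ^ (1/4:ℝ)) - A * profile l = A * ((J - T * S) / (T * Λ)) + A * (S / Λ - profile l) := by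
      rw [hΛA]; field_simp; ring
    have h6 : |(J - T * S) / (T * Λ)| ≤ η * (S / Λ) + 339/200 * Real.exp (-l) := by
      rw [abs_div, abs_of_pos (mul_pos hT0 hL), div_le_iff₀ (mul_pos hT0 hL)]
      refine h5.trans (le_of_eq ?_)
      field_simp
    have h7 : η * (S / Λ) ≤ Real.exp (-l) / 400 := by
      rw [← hη]
      exact mul_le_mul_of_nonneg_left h2.le hη0.le
    rw [e1]
    calc |A * ((J - T * S) / (T * Λ)) + A * (S / Λ - profile l)| 
        ≤ |A * ((J - T * S) / (T * Λ))| + |A * (S / Λ - profile l)| := abs_add_le _ _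
      _ = A * |(J - T * S) / (T * Λ)| + A * |S / Λ - profile l| := by rw [abs_mul, abs_mul, abs_of_pos hA]
      _ ≤ A * (Real.exp (-l) / 400 + 339/200 * Real.exp (-l)) + A * (Real.exp (-l) / 400) := by
          apply add_le_add
          · apply mul_le_mul_of_nonneg_left _ hA.le
            linarith
          · exact mul_le_mul_of_nonneg_left h3.le hA.le
      _ = 17/10 * A * Real.exp (-l) := by ring

end Pool.Agent.LibZM.NearLineFull
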