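import Mathlib
import Pool.Agent.LibZM.HB11
import Pool.Agent.LibZM.CS6

set_option autoImplicit false

namespace Pool.Agent.LibZM

open MeasureTheory Set Filter Topology Complex ProbabilityTheory
open scoped NNReal

lemma pow_le_tl {H R u : ℝ} (hH : 0 < H) (hu : 0 ≤ u) (k : ℕ) (t : ℝ) : 
    |t - u| ≤ R ∨ (1 + |t|) ^ k ≤ (2 ^ k * ((1 + u) ^ k + k.factorial * H ^ k) / H) * tl H R (t - u) := by
  rcases le_or_gt |t - u| R with h | h
  · left; exact h
  · right
    obtain ⟨y, hy⟩ : ∃ y : ℝ, y = t - u := ⟨_, rfl⟩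
    rw [← hy] at h ⊢
    have h7 : |t| ≤ u + |y| := by
      calc |t| = |u + y| := by congr 1; rw [hy]; ring
        _ ≤ |u| + |y| := abs_add_le _ _
        _ = _ := by rw [abs_of_nonneg hu]
    have hy0 := abs_nonneg y
    have ht0 := abs_nonneg t
    obtain ⟨E, hE⟩ : ∃ E : ℝ, E = Real.exp (|y| / H) := ⟨_, rfl⟩
    have hE1 : 1 ≤ E := by rw [hE]; apply Real.one_le_exp; positivity
    have h1 : |y| ^ k ≤ k.factorial * H ^ k * E := by
      have h2 := pow_le_fact_exp (x := |y| / H) (by positivity) k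
      rw [← hE, div_pow, div_le_iff₀ (by positivity)] at h2
      linarith
    have h3 : 1 ≤ Real.exp (-R / H) * E := by
      rw [hE, ← Real.exp_add]
      apply Real.one_le_exp
      rw [← add_div]
      apply div_nonneg _ hH.le
      linarith
    have h4 : E * E ≤ Real.exp (2 * H⁻¹ * y) + Real.exp (-(2 * H⁻¹) * y) := by
      rw [hE, ← Real.exp_add]
      rcases abs_cases y with ⟨h5, _⟩ | ⟨h5, _⟩
      · rw [h5]
        have e : y / H + y / H = 2 * H⁻¹ * y := by rw [div_eq_mul_inv]; ring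
        rw [e]
        linarith [Real.exp_pos (-(2 * H⁻¹) * y)]
      · rw [h5]
        have e : -y / H + -y / H = -(2 * H⁻¹) * y := by rw [div_eq_mul_inv]; ring
        rw [e]
        linarith [Real.exp_pos (2 * H⁻¹ * y)]
    have h5 : (1 + |t|) ^ k ≤ (2 ^ k * ((1 + u) ^ k + k.factorial * H ^ k)) * E := by
      calc (1 + |t|) ^ k ≤ ((1 + u) + |y|) ^ k := by
            apply pow_le_pow_left₀ (by positivity)
            linarith
        _ ≤ 2 ^ (k - 1) * ((1 + u) ^ k + |y| ^ k) := add_pow_le (by linarith) hy0 k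
        _ ≤ 2 ^ k * ((1 + u) ^ k + |y| ^ k) := by
            apply mul_le_mul_of_nonneg_right _ (by positivity)
            exact pow_le_pow_right₀ (by norm_num) (Nat.sub_le k 1)
        _ ≤ 2 ^ k * ((1 + u) ^ k * E + k.factorial * H ^ k * E) := by
            have h6 : (1 + u) ^ k ≤ (1 + u) ^ k * E := le_mul_of_one_le_right (by positivity) hE1
            gcongr
        _ = _ := by ring
    have hE0 : 0 ≤ E := by linarith
    have hF : (0:ℝ) ≤ 2 ^ k * ((1 + u) ^ k + k.factorial * H ^ k) := by positivity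
    calc (1 + |t|) ^ k ≤ (2 ^ k * ((1 + u) ^ k + k.factorial * H ^ k)) * E := h5
      _ ≤ (2 ^ k * ((1 + u) ^ k + k.factorial * H ^ k)) * (E * (Real.exp (-R / H) * E)) := by
          apply mul_le_mul_of_nonneg_left _ hF
          exact le_mul_of_one_le_right hE0 h3
      _ = (2 ^ k * ((1 + u) ^ k + k.factorial * H ^ k)) * Real.exp (-R / H) * (E * E) := by ring
      _ ≤ (2 ^ k * ((1 + u) ^ k + k.factorial * H ^ k)) * Real.exp (-R / H) * (Real.exp (2 * H⁻¹ * y) + Real.exp (-(2 * H⁻¹) * y)) := by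
          gcongr
      _ = _ := by unfold tl; field_simp

/-- Comparison of Gaussian means with control of the tail. -/
theorem transfer {f g : ℝ → ℝ} {u : ℝ} (hu : 0 ≤ u) {v : ℝ≥0} (hv : 0 < v) {R K A : ℝ} {k : ℕ} (hK : 0 ≤ K) (hA : 0 ≤ A)
    (hf : Integrable f (gaussianReal u v)) (hg : Integrable g (gaussianReal u v)) (hg0 : ∀ t, 0 ≤ g t)
    (h1 : ∀ t, |t - u| ≤ R → f t ≤ K * g t) (h2 : ∀ t, f t ≤ A * (1 + |t|) ^ k) :
    ∫ t, f t ∂(gaussianReal u v) ≤ K * ∫ t, g t ∂(gaussianReal u v) + 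
      16 * A * (2 ^ k * ((1 + u) ^ k + k.factorial * (√(v:ℝ)) ^ k)) * Real.exp (-R / √(v:ℝ)) := by
  have hv' : (0:ℝ) < v := by exact_mod_cast hv
  obtain ⟨H, hH⟩ : ∃ H : ℝ, H = √(v:ℝ) := ⟨_, rfl⟩
  have hH0 : 0 < H := by rw [hH]; exact Real.sqrt_pos.mpr hv'
  obtain ⟨hi, hb⟩ := tl_integral u hv R
  rw [← hH] at hi hb ⊢
  obtain ⟨D, hD⟩ : ∃ D : ℝ, D = A * (2 ^ k * ((1 + u) ^ k + k.factorial * H ^ k) / H) := ⟨_, rfl⟩
  have hD0 : 0 ≤ D := by rw [hD]; positivity
  have hpt : ∀ t : ℝ, f t ≤ K * g t + D * tl H R (t - u) := by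
    intro t
    have ht := tl_nonneg hH0 R (t - u)
    rcases pow_le_tl (R := R) hH0 hu k t with h | h
    · have := h1 t h
      have : 0 ≤ D * tl H R (t - u) := by positivity
      linarith
    · have h3 : 0 ≤ K * g t := mul_nonneg hK (hg0 t)
      have h4 := h2 t
      have h5 : A * (1 + |t|) ^ k ≤ A * ((2 ^ k * ((1 + u) ^ k + k.factorial * H ^ k) / H) * tl H R (t - u)) := by gcongr
      rw [hD]
      linarith
  calc ∫ t, f t ∂(gaussianReal u v) ≤ ∫ t : ℝ, (K * g t + D * tl H R (t - u)) ∂(gaussianReal u v) := 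
        integral_mono hf ((hg.const_mul K).add (hi.const_mul D)) hpt
    _ = K * ∫ t, g t ∂(gaussianReal u v) + D * ∫ t : ℝ, tl H R (t - u) ∂(gaussianReal u v) := by
        rw [integral_add (hg.const_mul K) (hi.const_mul D), integral_const_mul, integral_const_mul]
    _ ≤ K * ∫ t, g t ∂(gaussianReal u v) + D * (16 * H * Real.exp (-R / H)) := by
        have := mul_le_mul_of_nonneg_left hb hD0
        linarith
    _ = _ := by
        rw [hD]
        field_simp

/-- The tail error is eventually at most one. -/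
lemma err_ev {θ η : ℝ} (hη : 0 < η) (hθ0 : 0 ≤ θ) (hθ : θ < 1) (k m : ℕ) {A0 : ℝ} (hA0 : 0 ≤ A0) : 
    ∀ᶠ q : ℝ × ℝ in Fl η, ∀ A : ℝ, 0 ≤ A → A ≤ A0 * q.1 ^ m → 
      16 * A * (2 ^ k * ((1 + q.2) ^ k + k.factorial * (√(vT θ q.1 : ℝ)) ^ k)) * Real.exp (-RT θ q.1 / √(vT θ q.1 : ℝ)) ≤ 1 := by
  have h1 := (lim_exp_nat (a := 1) one_pos (by linarith : 0 < (1 - θ)/4) (m + k)).const_mul (16 * A0 * (2 ^ k * (2 ^ k + (k.factorial : ℝ))))
  rw [mul_zero] at h1
  filter_upwards [(Fl_fst η).eventually (h1.eventually_lt_const one_pos), Fl_pos hη, Fl_range η] with q hq hp hr A hA hA1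
  have hT0 : 0 < q.1 := by linarith [hp.1]
  have hu0 : 0 < q.2 := by linarith [hp.2]
  rw [sqrt_vT θ hT0, neg_div, RT_div_HT hT0]
  have hH := HT_le hθ.le hp.1.le
  have hH0 := (HT_pos θ hT0).le
  have e1 : (1 + q.2) ^ k ≤ 2 ^ k * q.1 ^ k := by
    rw [← mul_pow]
    apply pow_le_pow_left₀ (by linarith)
    linarith [hr.2, hp.1]
  have e2 : (HT θ q.1) ^ k ≤ q.1 ^ k := by gcongr
  rw [one_mul] at hq
  calc 16 * A * (2 ^ k * ((1 + q.2) ^ k + k.factorial * HT θ q.1 ^ k)) * Real.exp (-q.1 ^ ((1 - θ) / 4)) 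
      ≤ 16 * (A0 * q.1 ^ m) * (2 ^ k * (2 ^ k * q.1 ^ k + k.factorial * q.1 ^ k)) * Real.exp (-q.1 ^ ((1 - θ) / 4)) := by
        gcongr
    _ = (16 * A0 * (2 ^ k * (2 ^ k + (k.factorial : ℝ)))) * (q.1 ^ (m + k) * Real.exp (-q.1 ^ ((1 - θ) / 4))) := by
        rw [pow_add]; ring
    _ ≤ 1 := hq.le

lemma integrable_poly {f : ℝ → ℝ} (hf : Continuous f) {A : ℝ} {k : ℕ} (h : ∀ t, |f t| ≤ A * (1 + |t|) ^ k) (u : ℝ) (v : ℝ≥0) : 
    Integrable f (gaussianReal u v) := by
  have hA : 0 ≤ A := by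
    have := (abs_nonneg _).trans (h 0)
    simpa using this
  have i1 := integrable_exp_mul_gaussianReal (μ := u) (v := v) 1
  have i2 := integrable_exp_mul_gaussianReal (μ := u) (v := v) (-1)
  refine Integrable.mono' (g := fun t => (A * (k.factorial * Real.exp 1)) * (Real.exp (1 * t) + Real.exp ((-1) * t))) 
    ((i1.add i2).const_mul _) hf.aestronglyMeasurable (Eventually.of_forall fun t => ?_)
  rw [Real.norm_eq_abs]
  refine (h t).trans ?_
  have h1 := pow_le_fact_exp (x := 1 + |t|) (by positivity) k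
  rw [Real.exp_add] at h1
  have h2 : Real.exp |t| ≤ Real.exp (1 * t) + Real.exp ((-1) * t) := by
    rw [one_mul, neg_one_mul]
    rcases abs_cases t with ⟨h, _⟩ | ⟨h, _⟩
    · rw [h]; linarith [Real.exp_pos (-t)]
    · rw [h]; linarith [Real.exp_pos t]
  calc A * (1 + |t|) ^ k ≤ A * (k.factorial * (Real.exp 1 * Real.exp |t|)) := by gcongr
    _ ≤ A * (k.factorial * (Real.exp 1 * (Real.exp (1 * t) + Real.exp ((-1) * t)))) := by gcongr
    _ = _ := by ring

/-- Gaussian mean of a power of `1 + |t|`. -/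
lemma mean_pow_ev {θ η : ℝ} (hη : 0 < η) (hθ0 : 0 ≤ θ) (hθ : θ < 1) (k : ℕ) : 
    ∀ᶠ q : ℝ × ℝ in Fl η, ∫ t, (1 + |t|) ^ k ∂(gaussianReal q.2 (vT θ q.1)) ≤ (3 * q.1) ^ k + 1 := by
  filter_upwards [err_ev hη hθ0 hθ k 0 (A0 := 1) zero_le_one, Fl_pos hη, Fl_range η, 
    (Fl_fst η).eventually (four_le_vT hθ0), RT_le_u hη hθ one_pos] with q hq hp hr hv hR
  have hT0 : 0 < q.1 := by linarith [hp.1]
  have hu0 : 0 < q.2 := by linarith [hp.2]
  have hv0 : 0 < vT θ q.1 := lt_of_lt_of_le (by norm_num) hv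
  have hc : Continuous fun t : ℝ => (1 + |t|) ^ k := by fun_prop
  have hi : Integrable (fun t : ℝ => (1 + |t|) ^ k) (gaussianReal q.2 (vT θ q.1)) := 
    integrable_poly hc (A := 1) (k := k) (fun t => by rw [one_mul, abs_of_nonneg (by positivity)]) _ _
  have h := transfer (f := fun t : ℝ => (1 + |t|) ^ k) (g := fun _ => (1:ℝ)) hu0.le hv0 (R := RT θ q.1) (K := (3 * q.1) ^ k) (A := 1) (k := k) 
    (by positivity) zero_le_one hi (integrable_const _) (fun _ => zero_le_one) ?_ (fun t => by rw [one_mul])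
  · have h2 := hq 1 zero_le_one (by simp)
    simp only [integral_const, probReal_univ, smul_eq_mul, mul_one] at h h2
    linarith
  · intro t ht
    rw [mul_one]
    apply pow_le_pow_left₀ (by positivity)
    have h7 : |t| ≤ q.2 + |t - q.2| := by
      calc |t| = |q.2 + (t - q.2)| := by congr 1; ring
        _ ≤ |q.2| + |t - q.2| := abs_add_le _ _
        _ = _ := by rw [abs_of_nonneg hu0.le]
    have := hp.1
    linarith [hr.2]

end Pool.Agent.LibZM
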