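import Mathlib
import Pool.Agent.LibZM.ZU1

set_option autoImplicit false

namespace Pool.Agent.LibZM

open MeasureTheory Set Filter Topology Complex ProbabilityTheory
open scoped NNReal ComplexConjugate

/-- The indicator of `1..M`. -/
noncomputable def oneT (M : ℕ) : ArithmeticFunction ℝ := ⟨fun n => if n = 0 then 0 else if n ≤ M then 1 else 0, by simp⟩

lemma oneT_apply (M n : ℕ) : oneT M n = if n = 0 then 0 else if n ≤ M then 1 else 0 := rfl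

lemma oneT_nonneg (M n : ℕ) : 0 ≤ oneT M n := by
  rw [oneT_apply]; split_ifs <;> norm_num

lemma oneT_le_one (M n : ℕ) : oneT M n ≤ 1 := by
  rw [oneT_apply]; split_ifs <;> norm_num

lemma oneT_le_tau (M n : ℕ) : oneT M n ≤ tau 1 n := by
  rcases Nat.eq_zero_or_pos n with rfl | h
  · simp
  · rw [tau_one_apply h.ne']; exact oneT_le_one M n

lemma oneT_supp (M : ℕ) : SuppLe (oneT M) M := by
  intro n hn
  rw [oneT_apply, if_neg (by omega), if_neg (by omega)]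

lemma differentiable_dp (f : ArithmeticFunction ℝ) (M : ℕ) : Differentiable ℂ (dp f M) := by
  have : dp f M = fun s => ∑ n ∈ Finset.Icc 1 M, ((f n : ℝ) : ℂ) * cexp (-((Real.log n : ℝ) : ℂ) * s) := by
    funext s; exact dp_eq_exp _ _ _
  rw [this]
  fun_prop

lemma dp_conj (f : ArithmeticFunction ℝ) (M : ℕ) (s : ℂ) : dp f M (conj s) = conj (dp f M s) := by
  rw [dp_eq_exp, dp_eq_exp, map_sum]
  refine Finset.sum_congr rfl fun n _ => ?_
  rw [map_mul, ← Complex.exp_conj, map_mul, map_neg, conj_ofReal, conj_ofReal]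

lemma norm_dp_line_le {f : ArithmeticFunction ℝ} (hf : ∀ n, 0 ≤ f n) (M : ℕ) (x y : ℝ) : 
    ‖dp f M (x + y * I)‖ ≤ ∑ n ∈ Finset.Icc 1 M, f n * (n:ℝ) ^ (-x) := by
  rw [dp_eq_exp]
  refine (norm_sum_le _ _).trans (Finset.sum_le_sum fun n hn => ?_)
  rw [norm_mul, norm_term_line (Finset.mem_Icc.mp hn).1, norm_real, Real.norm_eq_abs, abs_of_nonneg (hf n)]

lemma norm_oneT_line {M : ℕ} {x : ℝ} (hx : 0 ≤ x) (y : ℝ) : ‖dp (oneT M) M (x + y * I)‖ ≤ M := by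
  refine (norm_dp_line_le (oneT_nonneg M) M x y).trans ?_
  calc ∑ n ∈ Finset.Icc 1 M, oneT M n * (n:ℝ) ^ (-x) ≤ ∑ n ∈ Finset.Icc 1 M, (1:ℝ) := by
        refine Finset.sum_le_sum fun n hn => ?_
        have hn1 := (Finset.mem_Icc.mp hn).1
        have h1 : (n:ℝ) ^ (-x) ≤ 1 := Real.rpow_le_one_of_one_le_of_nonpos (by exact_mod_cast hn1) (by linarith)
        have h2 := oneT_le_one M n
        calc oneT M n * (n:ℝ) ^ (-x) ≤ 1 * 1 := by gcongr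
          _ = 1 := one_mul 1
    _ = M := by simp

lemma norm_dp_tau_line {α : ℝ} (hα : 0 ≤ α) {p : ArithmeticFunction ℝ} (hp0 : ∀ n, 0 ≤ p n) (hp : ∀ n, p n ≤ tau α n) (Y : ℕ) 
    {x : ℝ} {j : ℕ} (hx : -(j:ℝ) ≤ x) (y : ℝ) : ‖dp p Y (x + y * I)‖ ≤ Ctau α * (Y:ℝ) ^ (j + 2) := by
  refine (norm_dp_line_le hp0 Y x y).trans ?_
  calc ∑ n ∈ Finset.Icc 1 Y, p n * (n:ℝ) ^ (-x) ≤ ∑ n ∈ Finset.Icc 1 Y, (tau α n * (n:ℝ) ^ (-(2:ℝ))) * (Y:ℝ) ^ (j + 2) := by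
        refine Finset.sum_le_sum fun n hn => ?_
        obtain ⟨hn1, hnY⟩ := Finset.mem_Icc.mp hn
        have hn1' : (1:ℝ) ≤ n := by exact_mod_cast hn1
        have hn0 : (0:ℝ) < n := by linarith
        have hnY' : (n:ℝ) ≤ Y := by exact_mod_cast hnY
        have h1 : (n:ℝ) ^ (-x) ≤ (n:ℝ) ^ j := by
          rw [← Real.rpow_natCast]
          exact Real.rpow_le_rpow_of_exponent_le hn1' (by linarith)
        have h2 : (n:ℝ) ^ j = (n:ℝ) ^ (-(2:ℝ)) * (n:ℝ) ^ (j + 2) := by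
          rw [← Real.rpow_natCast, ← Real.rpow_natCast, ← Real.rpow_add hn0]
          congr 1; push_cast; ring
        have h3 := tau_nonneg hα n
        calc p n * (n:ℝ) ^ (-x) ≤ tau α n * (n:ℝ) ^ j := by
              apply mul_le_mul (hp n) h1 (by positivity) h3
          _ = tau α n * (n:ℝ) ^ (-(2:ℝ)) * (n:ℝ) ^ (j + 2) := by rw [h2]; ring
          _ ≤ _ := by gcongr
    _ = (∑ n ∈ Finset.Icc 1 Y, (tau α n * (n:ℝ) ^ (-(2:ℝ)))) * (Y:ℝ) ^ (j + 2) := by rw [Finset.sum_mul]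
    _ ≤ Ctau α * (Y:ℝ) ^ (j + 2) := by
        gcongr
        exact (summable_tau hα (by norm_num : (1:ℝ) < 2)).sum_le_tsum _ (fun n _ => mul_nonneg (tau_nonneg hα n) (by positivity))

/-- For abscissa at least two no growth. -/
lemma norm_dp_tau_far {α : ℝ} (hα : 0 ≤ α) {p : ArithmeticFunction ℝ} (hp0 : ∀ n, 0 ≤ p n) (hp : ∀ n, p n ≤ tau α n) (Y : ℕ) 
    {x : ℝ} (hx : 2 ≤ x) (y : ℝ) : ‖dp p Y (x + y * I)‖ ≤ Ctau α := by
  refine (norm_dp_line_le hp0 Y x y).trans ?_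
  calc ∑ n ∈ Finset.Icc 1 Y, p n * (n:ℝ) ^ (-x) ≤ ∑ n ∈ Finset.Icc 1 Y, (tau α n * (n:ℝ) ^ (-(2:ℝ))) := by
        refine Finset.sum_le_sum fun n hn => ?_
        obtain ⟨hn1, hnY⟩ := Finset.mem_Icc.mp hn
        have hn1' : (1:ℝ) ≤ n := by exact_mod_cast hn1
        have h1 : (n:ℝ) ^ (-x) ≤ (n:ℝ) ^ (-(2:ℝ)) := Real.rpow_le_rpow_of_exponent_le hn1' (by linarith)
        exact mul_le_mul (hp n) h1 (by positivity) (tau_nonneg hα n)
    _ ≤ Ctau α := (summable_tau hα (by norm_num : (1:ℝ) < 2)).sum_le_tsum _ (fun n _ => mul_nonneg (tau_nonneg hα n) (by positivity))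

/-- Symmetric product. -/
noncomputable def Rf (p : ArithmeticFunction ℝ) (Y : ℕ) (s : ℂ) : ℂ := dp p Y s * dp p Y (1 - s)

/-- Twisted square of zeta. -/
noncomputable def F2 (p : ArithmeticFunction ℝ) (Y : ℕ) (s : ℂ) : ℂ := riemannZeta₁ s ^ 2 * Rf p Y s

/-- Twisted square of the difference. -/
noncomputable def G3 (p : ArithmeticFunction ℝ) (Y M : ℕ) (s : ℂ) : ℂ := (riemannZeta₁ s - (s - 1) * dp (oneT M) M s) ^ 2 * Rf p Y s

/-- Twisted square of the partial sum. -/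
noncomputable def Q4 (p : ArithmeticFunction ℝ) (Y M : ℕ) (s : ℂ) : ℂ := ((s - 1) * dp (oneT M) M s) ^ 2 * Rf p Y s

lemma differentiable_Rf (p : ArithmeticFunction ℝ) (Y : ℕ) : Differentiable ℂ (Rf p Y) := by
  unfold Rf
  exact (differentiable_dp p Y).mul ((differentiable_dp p Y).comp (differentiable_id.const_sub 1))

lemma differentiable_F2 (p : ArithmeticFunction ℝ) (Y : ℕ) : Differentiable ℂ (F2 p Y) := by
  have h1 := differentiable_Rf p Y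
  have h2 := differentiable_riemannZeta₁
  unfold F2; fun_prop

lemma differentiable_G3 (p : ArithmeticFunction ℝ) (Y M : ℕ) : Differentiable ℂ (G3 p Y M) := by
  have h1 := differentiable_Rf p Y
  have h2 := differentiable_riemannZeta₁
  have h3 := differentiable_dp (oneT M) M
  unfold G3; fun_prop

lemma differentiable_Q4 (p : ArithmeticFunction ℝ) (Y M : ℕ) : Differentiable ℂ (Q4 p Y M) := by
  have h1 := differentiable_Rf p Y
  have h3 := differentiable_dp (oneT M) M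
  unfold Q4; fun_prop

lemma Rf_symm (p : ArithmeticFunction ℝ) (Y : ℕ) (s : ℂ) : Rf p Y (1 - s) = Rf p Y s := by
  unfold Rf; rw [sub_sub_cancel, mul_comm]

lemma Rf_conj (p : ArithmeticFunction ℝ) (Y : ℕ) (s : ℂ) : Rf p Y (conj s) = conj (Rf p Y s) := by
  unfold Rf
  rw [map_mul, ← dp_conj, ← dp_conj, map_sub, map_one]

lemma norm_Rf_reflect (p : ArithmeticFunction ℝ) (Y : ℕ) (δ t : ℝ) : 
    ‖Rf p Y (((1/2 - δ : ℝ) : ℂ) + t * I)‖ = ‖Rf p Y (((1/2 + δ : ℝ) : ℂ) + t * I)‖ := by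
  have e : ((1/2 - δ : ℝ) : ℂ) + t * I = 1 - conj (((1/2 + δ : ℝ) : ℂ) + t * I) := by
    rw [map_add, map_mul, conj_ofReal, conj_ofReal, conj_I]; push_cast; ring
  rw [e, Rf_symm, Rf_conj, Complex.norm_conj]

/-- Admissible data. -/
structure Adm (α T : ℝ) (p : ArithmeticFunction ℝ) (Y : ℕ) : Prop where
  nn : ∀ n, 0 ≤ p n
  le : ∀ n, p n ≤ tau α n
  supp : SuppLe p Y
  len : (Y:ℝ) ≤ T ^ (1/100 : ℝ)

variable {α T : ℝ} {p : ArithmeticFunction ℝ} {Y M : ℕ}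

lemma Adm.pow10 (h : Adm α T p Y) (hT : 1 ≤ T) : (Y:ℝ) ^ 10 ≤ T := by
  have hT0 : 0 < T := by linarith
  calc (Y:ℝ) ^ 10 ≤ (T ^ (1/100 : ℝ)) ^ 10 := pow_le_pow_left₀ (by positivity) h.len 10
    _ = T ^ (1/10 : ℝ) := by rw [← Real.rpow_natCast, ← Real.rpow_mul hT0.le]; norm_num
    _ ≤ T ^ (1:ℝ) := Real.rpow_le_rpow_of_exponent_le hT (by norm_num)
    _ = T := Real.rpow_one T

lemma Adm.dp_le (h : Adm α T p Y) (hα : 0 ≤ α) (hT : 1 ≤ T) {x : ℝ} (hx : -8 ≤ x) (y : ℝ) : ‖dp p Y (x + y * I)‖ ≤ Ctau α * T := by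
  refine (norm_dp_tau_line hα h.nn h.le Y (j := 8) (by push_cast; linarith) y).trans ?_
  exact mul_le_mul_of_nonneg_left (h.pow10 hT) (Ctau_nonneg hα)

lemma Adm.Rf_le (h : Adm α T p Y) (hα : 0 ≤ α) (hT : 1 ≤ T) {x : ℝ} (hx : -8 ≤ x) (hx' : x ≤ 9) (y : ℝ) : 
    ‖Rf p Y (x + y * I)‖ ≤ (Ctau α * T) ^ 2 := by
  unfold Rf
  rw [norm_mul, pow_two]
  have e : 1 - ((x:ℂ) + y * I) = ((1 - x : ℝ) : ℂ) + ((-y : ℝ) : ℂ) * I := by push_cast; ring
  rw [e]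
  exact mul_le_mul (h.dp_le hα hT hx y) (h.dp_le hα hT (by linarith) _) (norm_nonneg _) (mul_nonneg (Ctau_nonneg hα) (by linarith))

/-- The constant in the polynomial bounds. -/
noncomputable def A1 (α T : ℝ) : ℝ := (495 * T) ^ 2 * (Ctau α * T) ^ 2

lemma A1_nonneg (α T : ℝ) : 0 ≤ A1 α T := by unfold A1; positivity

lemma Adm.F2_le (h : Adm α T p Y) (hα : 0 ≤ α) (hT : 1 ≤ T) {x : ℝ} (hx : x ∈ Icc (1/4:ℝ) 9) (y : ℝ) : 
    ‖F2 p Y (x + y * I)‖ ≤ A1 α T * (1 + |y|) ^ 4 := by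
  unfold F2 A1
  rw [norm_mul, norm_pow]
  have h1 := norm_zeta1_line (b' := 9) (by norm_num) hx y
  have h2 := h.Rf_le hα hT (x := x) (by linarith [hx.1]) hx.2 y
  have hy := abs_nonneg y
  have h3 : 6 * (9:ℝ) ^ 2 * (1 + |y|) ^ 2 ≤ 495 * T * (1 + |y|) ^ 2 := by
    apply mul_le_mul_of_nonneg_right _ (by positivity)
    linarith
  calc ‖riemannZeta₁ (x + y * I)‖ ^ 2 * ‖Rf p Y (x + y * I)‖ ≤ (495 * T * (1 + |y|) ^ 2) ^ 2 * (Ctau α * T) ^ 2 := by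
        have := h1.trans h3
        gcongr
    _ = _ := by ring

lemma norm_sub_one_oneT {x : ℝ} (hx : x ∈ Icc (1/4:ℝ) 9) (hM : (M:ℝ) ≤ T) (y : ℝ) : 
    ‖((x:ℂ) + y * I - 1) * dp (oneT M) M (x + y * I)‖ ≤ 9 * T * (1 + |y|) := by
  rw [norm_mul]
  have h1 := (norm_line_sub_one_le (b' := 9) (by norm_num) hx y).1
  have h2 := norm_oneT_line (M := M) (x := x) (by linarith [hx.1]) y
  calc ‖(x:ℂ) + y * I - 1‖ * ‖dp (oneT M) M (x + y * I)‖ ≤ (9 * (1 + |y|)) * T := by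
        have := h2.trans hM
        gcongr
    _ = _ := by ring

lemma Adm.Q4_le (h : Adm α T p Y) (hα : 0 ≤ α) (hT : 1 ≤ T) (hM : (M:ℝ) ≤ T) {x : ℝ} (hx : x ∈ Icc (1/4:ℝ) 9) (y : ℝ) : 
    ‖Q4 p Y M (x + y * I)‖ ≤ A1 α T * (1 + |y|) ^ 4 := by
  unfold Q4 A1
  rw [norm_mul, norm_pow]
  have h1 := norm_sub_one_oneT hx hM y
  have h2 := h.Rf_le hα hT (x := x) (by linarith [hx.1]) hx.2 y
  have hy := abs_nonneg y
  have h3 : 9 * T * (1 + |y|) ≤ 495 * T * (1 + |y|) ^ 2 := by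
    have h4 : 1 + |y| ≤ (1 + |y|) ^ 2 := by nlinarith
    calc 9 * T * (1 + |y|) ≤ 495 * T * (1 + |y|) := by
          apply mul_le_mul_of_nonneg_right _ (by positivity)
          linarith
      _ ≤ _ := by gcongr
  calc ‖((x:ℂ) + y * I - 1) * dp (oneT M) M (x + y * I)‖ ^ 2 * ‖Rf p Y (x + y * I)‖ ≤ (495 * T * (1 + |y|) ^ 2) ^ 2 * (Ctau α * T) ^ 2 := by
        have := h1.trans h3
        gcongr
    _ = _ := by ring

lemma Adm.G3_le (h : Adm α T p Y) (hα : 0 ≤ α) (hT : 1 ≤ T) (hM : (M:ℝ) ≤ T) {x : ℝ} (hx : x ∈ Icc (1/4:ℝ) 9) (y : ℝ) : 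
    ‖G3 p Y M (x + y * I)‖ ≤ A1 α T * (1 + |y|) ^ 4 := by
  unfold G3 A1
  rw [norm_mul, norm_pow]
  have h0 := norm_zeta1_line (b' := 9) (by norm_num) hx y
  have h1 := norm_sub_one_oneT hx hM y
  have h2 := h.Rf_le hα hT (x := x) (by linarith [hx.1]) hx.2 y
  have hy := abs_nonneg y
  have h4 : 1 + |y| ≤ (1 + |y|) ^ 2 := by nlinarith
  have h3 : ‖riemannZeta₁ (x + y * I) - ((x:ℂ) + y * I - 1) * dp (oneT M) M (x + y * I)‖ ≤ 495 * T * (1 + |y|) ^ 2 := by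
    refine (norm_sub_le _ _).trans ?_
    calc ‖riemannZeta₁ (x + y * I)‖ + ‖((x:ℂ) + y * I - 1) * dp (oneT M) M (x + y * I)‖ 
        ≤ 6 * (9:ℝ) ^ 2 * (1 + |y|) ^ 2 + 9 * T * (1 + |y|) := add_le_add h0 h1
      _ ≤ 486 * T * (1 + |y|) ^ 2 + 9 * T * (1 + |y|) ^ 2 := by
          have h5 : 6 * (9:ℝ) ^ 2 * (1 + |y|) ^ 2 ≤ 486 * T * (1 + |y|) ^ 2 := by
            apply mul_le_mul_of_nonneg_right _ (by positivity)
            linarith
          have h6 : 9 * T * (1 + |y|) ≤ 9 * T * (1 + |y|) ^ 2 := by gcongr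
          linarith
      _ = _ := by ring
  calc ‖riemannZeta₁ (x + y * I) - ((x:ℂ) + y * I - 1) * dp (oneT M) M (x + y * I)‖ ^ 2 * ‖Rf p Y (x + y * I)‖ 
      ≤ (495 * T * (1 + |y|) ^ 2) ^ 2 * (Ctau α * T) ^ 2 := by gcongr
    _ = _ := by ring

lemma exp_growth {A y : ℝ} (hA : 0 ≤ A) : A * (1 + |y|) ^ 4 ≤ (A * (24 * Real.exp 1)) * Real.exp |y| := by
  have h1 := pow_le_fact_exp (x := 1 + |y|) (by positivity) 4
  rw [Real.exp_add] at h1
  have e : ((4:ℕ).factorial : ℝ) = 24 := by norm_num [Nat.factorial]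
  rw [e] at h1
  calc A * (1 + |y|) ^ 4 ≤ A * (24 * (Real.exp 1 * Real.exp |y|)) := by gcongr
    _ = _ := by ring

lemma Adm.int_F2 (h : Adm α T p Y) (hα : 0 ≤ α) (hT : 1 ≤ T) {x : ℝ} (hx : x ∈ Icc (1/4:ℝ) 9) (u : ℝ) (v : ℝ≥0) : 
    Integrable (fun t : ℝ => ‖F2 p Y (x + t * I)‖) (gaussianReal u v) := by
  have hc := (differentiable_F2 p Y).continuous
  refine integrable_poly (A := A1 α T) (k := 4) (by fun_prop) (fun t => ?_) u v
  rw [abs_norm]; exact h.F2_le hα hT hx t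

lemma Adm.int_Q4 (h : Adm α T p Y) (hα : 0 ≤ α) (hT : 1 ≤ T) (hM : (M:ℝ) ≤ T) {x : ℝ} (hx : x ∈ Icc (1/4:ℝ) 9) (u : ℝ) (v : ℝ≥0) : 
    Integrable (fun t : ℝ => ‖Q4 p Y M (x + t * I)‖) (gaussianReal u v) := by
  have hc := (differentiable_Q4 p Y M).continuous
  refine integrable_poly (A := A1 α T) (k := 4) (by fun_prop) (fun t => ?_) u v
  rw [abs_norm]; exact h.Q4_le hα hT hM hx t

lemma Adm.int_G3 (h : Adm α T p Y) (hα : 0 ≤ α) (hT : 1 ≤ T) (hM : (M:ℝ) ≤ T) {x : ℝ} (hx : x ∈ Icc (1/4:ℝ) 9) (u : ℝ) (v : ℝ≥0) : 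
    Integrable (fun t : ℝ => ‖G3 p Y M (x + t * I)‖) (gaussianReal u v) := by
  have hc := (differentiable_G3 p Y M).continuous
  refine integrable_poly (A := A1 α T) (k := 4) (by fun_prop) (fun t => ?_) u v
  rw [abs_norm]; exact h.G3_le hα hT hM hx t

/-- Triangle inequalities. -/
lemma Adm.tri (h : Adm α T p Y) (hα : 0 ≤ α) (hT : 1 ≤ T) (hM : (M:ℝ) ≤ T) {x : ℝ} (hx : x ∈ Icc (1/4:ℝ) 9) (u : ℝ) (v : ℝ≥0) : 
    En (F2 p Y) u v x ≤ 2 * En (Q4 p Y M) u v x + 2 * En (G3 p Y M) u v x ∧ 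
    En (G3 p Y M) u v x ≤ 2 * En (F2 p Y) u v x + 2 * En (Q4 p Y M) u v x := by
  have iF := h.int_F2 hα hT hx u v
  have iQ := h.int_Q4 hα hT hM hx u v
  have iG := h.int_G3 hα hT hM hx u v
  have key : ∀ a b : ℂ, ‖a + b‖ ^ 2 ≤ 2 * ‖a‖ ^ 2 + 2 * ‖b‖ ^ 2 := by
    intro a b
    have h1 := norm_add_le a b
    have h2 := norm_nonneg (a + b)
    nlinarith [sq_nonneg (‖a‖ - ‖b‖)]
  constructor
  · calc En (F2 p Y) u v x ≤ ∫ t : ℝ, (2 * ‖Q4 p Y M (x + t * I)‖ + 2 * ‖G3 p Y M (x + t * I)‖) ∂(gaussianReal u v) := by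
          refine integral_mono iF ((iQ.const_mul 2).add (iG.const_mul 2)) fun t => ?_
          show ‖F2 p Y (x + t * I)‖ ≤ 2 * ‖Q4 p Y M (x + t * I)‖ + 2 * ‖G3 p Y M (x + t * I)‖
          unfold F2 Q4 G3
          rw [norm_mul, norm_mul, norm_mul, norm_pow, norm_pow, norm_pow]
          have h1 := key (((x:ℂ) + t * I - 1) * dp (oneT M) M (x + t * I)) (riemannZeta₁ (x + t * I) - ((x:ℂ) + t * I - 1) * dp (oneT M) M (x + t * I))
          rw [add_sub_cancel] at h1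
          calc _ ≤ (2 * ‖((x:ℂ) + t * I - 1) * dp (oneT M) M (x + t * I)‖ ^ 2 + 2 * ‖riemannZeta₁ (x + t * I) - ((x:ℂ) + t * I - 1) * dp (oneT M) M (x + t * I)‖ ^ 2) * 
                ‖Rf p Y (x + t * I)‖ := mul_le_mul_of_nonneg_right h1 (norm_nonneg _)
            _ = _ := by ring
      _ = _ := by
          rw [integral_add (iQ.const_mul 2) (iG.const_mul 2), integral_const_mul, integral_const_mul]; rfl
  · calc En (G3 p Y M) u v x ≤ ∫ t : ℝ, (2 * ‖F2 p Y (x + t * I)‖ + 2 * ‖Q4 p Y M (x + t * I)‖) ∂(gaussianReal u v) := by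
          refine integral_mono iG ((iF.const_mul 2).add (iQ.const_mul 2)) fun t => ?_
          show ‖G3 p Y M (x + t * I)‖ ≤ 2 * ‖F2 p Y (x + t * I)‖ + 2 * ‖Q4 p Y M (x + t * I)‖
          unfold F2 Q4 G3
          rw [norm_mul, norm_mul, norm_mul, norm_pow, norm_pow, norm_pow]
          have h1 := key (riemannZeta₁ (x + t * I)) (-(((x:ℂ) + t * I - 1) * dp (oneT M) M (x + t * I)))
          rw [norm_neg, ← sub_eq_add_neg] at h1
          calc _ ≤ (2 * ‖riemannZeta₁ (x + t * I)‖ ^ 2 + 2 * ‖((x:ℂ) + t * I - 1) * dp (oneT M) M (x + t * I)‖ ^ 2) * 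
                ‖Rf p Y (x + t * I)‖ := mul_le_mul_of_nonneg_right h1 (norm_nonneg _)
            _ = _ := by ring
      _ = _ := by
          rw [integral_add (iF.const_mul 2) (iQ.const_mul 2), integral_const_mul, integral_const_mul]; rfl

end Pool.Agent.LibZM
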