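import Mathlib
import Pool.Agent.LibZM.ZU2

set_option autoImplicit false

namespace Pool.Agent.LibZM

open MeasureTheory Set Filter Topology Complex ProbabilityTheory
open scoped NNReal ComplexConjugate

/-- Coefficients twisted by a power. -/
noncomputable def tws (f : ArithmeticFunction ℝ) (a : ℝ) : ArithmeticFunction ℝ := ⟨fun n => f n * (n:ℝ) ^ a, by simp⟩

lemma tws_apply (f : ArithmeticFunction ℝ) (a : ℝ) (n : ℕ) : tws f a n = f n * (n:ℝ) ^ a := rfl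

lemma tws_supp {f : ArithmeticFunction ℝ} {M : ℕ} (hf : SuppLe f M) (a : ℝ) : SuppLe (tws f a) M := by
  intro n hn
  rw [tws_apply, hf n hn, zero_mul]

lemma tws_nonneg {f : ArithmeticFunction ℝ} (hf : ∀ n, 0 ≤ f n) (a : ℝ) (n : ℕ) : 0 ≤ tws f a n := by
  rw [tws_apply]; have := hf n; positivity

lemma tws_neg_le {f : ArithmeticFunction ℝ} (hf : ∀ n, 0 ≤ f n) {a : ℝ} (ha : 0 ≤ a) (n : ℕ) : tws f (-a) n ≤ f n := by
  rw [tws_apply]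
  rcases Nat.eq_zero_or_pos n with rfl | hn
  · simp
  · have hn1 : (1:ℝ) ≤ n := by exact_mod_cast hn
    have h1 : (n:ℝ) ^ (-a) ≤ 1 := Real.rpow_le_one_of_one_le_of_nonpos hn1 (by linarith)
    exact mul_le_of_le_one_right (hf n) h1

lemma tws_le {f : ArithmeticFunction ℝ} (hf : ∀ n, 0 ≤ f n) {M : ℕ} (hM : SuppLe f M) {a : ℝ} (ha : 0 ≤ a) (n : ℕ) : 
    tws f a n ≤ (M:ℝ) ^ a * f n := by
  rw [tws_apply]
  by_cases h : n ≤ M
  · have h1 : (n:ℝ) ^ a ≤ (M:ℝ) ^ a := Real.rpow_le_rpow (Nat.cast_nonneg n) (by exact_mod_cast h) ha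
    have := hf n
    rw [mul_comm]
    gcongr
  · rw [hM n (by omega)]; simp

lemma dp_shift (f : ArithmeticFunction ℝ) (M : ℕ) (x t : ℝ) : 
    dp f M (((1/2 + x : ℝ) : ℂ) + t * I) = dp (tws f (-x)) M (crit t) := by
  rw [dp_eq_exp, dp_eq_exp]
  refine Finset.sum_congr rfl fun n hn => ?_
  have hn1 := (Finset.mem_Icc.mp hn).1
  have hn0 : (0:ℝ) < n := by exact_mod_cast hn1
  rw [tws_apply]
  have : (((n:ℝ) ^ (-x) : ℝ) : ℂ) = cexp (((Real.log n : ℝ) : ℂ) * ((-x : ℝ) : ℂ)) := by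
    rw [Real.rpow_def_of_pos hn0]; push_cast; rfl
  rw [ofReal_mul, this, mul_assoc, ← Complex.exp_add]
  congr 2
  unfold crit; push_cast; ring

lemma diag_tau_ev {κ : ℝ} (hκ : 0 ≤ κ) : ∃ C : ℝ, 0 < C ∧ ∀ᶠ T : ℝ in atTop, ∀ N : ℕ, (N:ℝ) ≤ T → 
    ∑ q ∈ Finset.Icc 1 N, tau κ q ^ 2 * (q:ℝ)⁻¹ ≤ C * (Real.log T) ^ (κ ^ 2) := by
  have hA := Aconst_pos hκ
  refine ⟨Real.exp 1 * (Aconst κ + 1), by positivity, ?_⟩
  have hs : Tendsto (fun T : ℝ => (Real.log T)⁻¹) atTop (𝓝[>] 0) := tendsto_inv_log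
  have h1 := (tendsto_tau_sq hκ).comp hs
  filter_upwards [h1.eventually_lt_const (lt_add_one (Aconst κ)), eventually_gt_atTop 1] with T h2 hT N hN
  have hl := Real.log_pos hT
  have hT0 : 0 < T := by linarith
  simp only [Function.comp] at h2
  obtain ⟨s, hs⟩ : ∃ s : ℝ, s = (Real.log T)⁻¹ := ⟨_, rfl⟩
  rw [← hs] at h2
  have hs0 : 0 < s := by rw [hs]; positivity
  obtain ⟨S, hS⟩ : ∃ S : ℝ, S = ∑' n : ℕ, tau κ n ^ 2 * (n:ℝ) ^ (-(1+s)) := ⟨_, rfl⟩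
  rw [← hS] at h2
  have h3 : S ≤ (Aconst κ + 1) * (Real.log T) ^ (κ ^ 2) := by
    have e : s ^ (κ ^ 2) * (Real.log T) ^ (κ ^ 2) = 1 := by
      rw [← Real.mul_rpow hs0.le hl.le, hs, inv_mul_cancel₀ hl.ne', Real.one_rpow]
    calc S = (s ^ (κ ^ 2) * S) * (Real.log T) ^ (κ ^ 2) := by
          rw [mul_right_comm, e, one_mul]
      _ ≤ _ := by
          apply mul_le_mul_of_nonneg_right h2.le (by positivity)
  have h4 : ∑ q ∈ Finset.Icc 1 N, tau κ q ^ 2 * (q:ℝ)⁻¹ ≤ Real.exp 1 * S := by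
    calc ∑ q ∈ Finset.Icc 1 N, tau κ q ^ 2 * (q:ℝ)⁻¹ ≤ ∑ q ∈ Finset.Icc 1 N, Real.exp 1 * (tau κ q ^ 2 * (q:ℝ) ^ (-(1+s))) := by
          refine Finset.sum_le_sum fun n hn => ?_
          obtain ⟨hn1, hnN⟩ := Finset.mem_Icc.mp hn
          have hn0 : (0:ℝ) < n := by exact_mod_cast hn1
          have hnT : (n:ℝ) ≤ T := le_trans (by exact_mod_cast hnN) hN
          have h5 : (n:ℝ) ^ s ≤ Real.exp 1 := by
            calc (n:ℝ) ^ s ≤ T ^ s := Real.rpow_le_rpow hn0.le hnT hs0.le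
              _ = Real.exp 1 := by
                rw [Real.rpow_def_of_pos hT0, hs, mul_inv_cancel₀ hl.ne']
          have h6 : (n:ℝ)⁻¹ = (n:ℝ) ^ s * (n:ℝ) ^ (-(1+s)) := by
            rw [← Real.rpow_add hn0, ← Real.rpow_neg_one]; congr 1; ring
          rw [h6]
          calc tau κ n ^ 2 * ((n:ℝ) ^ s * (n:ℝ) ^ (-(1+s))) = (n:ℝ) ^ s * (tau κ n ^ 2 * (n:ℝ) ^ (-(1+s))) := by ring
            _ ≤ _ := by gcongr
      _ = Real.exp 1 * ∑ q ∈ Finset.Icc 1 N, (tau κ q ^ 2 * (q:ℝ) ^ (-(1+s))) := by rw [Finset.mul_sum]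
      _ ≤ Real.exp 1 * S := by
          gcongr
          rw [hS]
          exact (summable_tau_sq hκ (by linarith : 1 < 1 + s)).sum_le_tsum _ (fun n _ => by positivity)
  calc _ ≤ Real.exp 1 * S := h4
    _ ≤ Real.exp 1 * ((Aconst κ + 1) * (Real.log T) ^ (κ ^ 2)) := by gcongr
    _ = _ := by ring

/-- Mean square of polynomials with divisor-bounded coefficients. -/
theorem mean_sq_ev {κ : ℝ} (hκ : 0 ≤ κ) (η : ℝ) : ∃ C : ℝ, 0 < C ∧ ∀ᶠ q : ℝ × ℝ in Fl η, ∀ c : ArithmeticFunction ℝ, (∀ n, 0 ≤ c n) → 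
    ∀ B : ℝ, 0 ≤ B → (∀ n, c n ≤ B * tau κ n) → ∀ N : ℕ, (N:ℝ) ≤ q.1 ^ (81/100:ℝ) → 
    ∫ t, ‖dp c N (crit t)‖ ^ 2 ∂(gaussianReal q.2 (vT (4/5) q.1)) ≤ C * B ^ 2 * (Real.log q.1) ^ (κ ^ 2) := by
  obtain ⟨C, hC0, hC⟩ := diag_tau_ev hκ
  refine ⟨C + 1, by positivity, ?_⟩
  have hK := Ctau_nonneg hκ
  have h1 := (lim_exp_nat (a := 1/16) (by norm_num) (by norm_num : (0:ℝ) < 18/100) 6).const_mul (3 * Ctau κ ^ 2)
  rw [mul_zero] at h1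
  filter_upwards [(Fl_fst η).eventually hC, (Fl_fst η).eventually (h1.eventually_lt_const one_pos), (Fl_fst η).eventually (eventually_ge_atTop (Real.exp 1)), 
    (Fl_fst η).eventually (four_le_vT (θ := 4/5) (by norm_num))] with q hq hq1 hqe hv c hc B hB hcB N hN
  have hT1 : 1 ≤ q.1 := le_trans (Real.one_le_exp zero_le_one) hqe
  have hT0 : 0 < q.1 := by linarith
  have hl1 : 1 ≤ Real.log q.1 := by rw [Real.le_log_iff_exp_le hT0]; exact hqe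
  have hL1 : 1 ≤ (Real.log q.1) ^ (κ ^ 2) := Real.one_le_rpow hl1 (by positivity)
  have hNT : (N:ℝ) ≤ q.1 := by
    calc (N:ℝ) ≤ q.1 ^ (81/100:ℝ) := hN
      _ ≤ q.1 ^ (1:ℝ) := Real.rpow_le_rpow_of_exponent_le hT1 (by norm_num)
      _ = q.1 := Real.rpow_one _
  have hms := (abs_le.mp (mean_square q.2 hv hc N)).2
  have hdiag : ∑ n ∈ Finset.Icc 1 N, (c n) ^ 2 * (n:ℝ)⁻¹ ≤ C * B ^ 2 * (Real.log q.1) ^ (κ ^ 2) := by
    calc ∑ n ∈ Finset.Icc 1 N, (c n) ^ 2 * (n:ℝ)⁻¹ ≤ ∑ n ∈ Finset.Icc 1 N, B ^ 2 * (tau κ n ^ 2 * (n:ℝ)⁻¹) := by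
          refine Finset.sum_le_sum fun n _ => ?_
          have h2 := hc n
          have h3 := hcB n
          calc (c n) ^ 2 * (n:ℝ)⁻¹ ≤ (B * tau κ n) ^ 2 * (n:ℝ)⁻¹ := by gcongr
            _ = _ := by ring
      _ = B ^ 2 * ∑ n ∈ Finset.Icc 1 N, (tau κ n ^ 2 * (n:ℝ)⁻¹) := by rw [Finset.mul_sum]
      _ ≤ B ^ 2 * (C * (Real.log q.1) ^ (κ ^ 2)) := by
          have := hq N hNT
          gcongr
      _ = _ := by ring
  have herr : 3 * (N:ℝ) ^ 2 * Real.exp (-(vT (4/5) q.1 : ℝ) / (16 * (N:ℝ) ^ 2)) * (∑ n ∈ Finset.Icc 1 N, c n) ^ 2 ≤ B ^ 2 := by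
    rcases Nat.eq_zero_or_pos N with rfl | hN1
    · simp; positivity
    have hN0 : (0:ℝ) < N := by exact_mod_cast hN1
    have hsum : ∑ n ∈ Finset.Icc 1 N, c n ≤ B * (Ctau κ * q.1 ^ 2) := by
      calc ∑ n ∈ Finset.Icc 1 N, c n ≤ ∑ n ∈ Finset.Icc 1 N, B * ((tau κ n * (n:ℝ) ^ (-(2:ℝ))) * q.1 ^ 2) := by
            refine Finset.sum_le_sum fun n hn => ?_
            obtain ⟨hn1, hnN⟩ := Finset.mem_Icc.mp hn
            have hn0 : (0:ℝ) < n := by exact_mod_cast hn1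
            have hnT : (n:ℝ) ≤ q.1 := le_trans (by exact_mod_cast hnN) hNT
            have h4 := tau_nonneg hκ n
            have h5 : 1 ≤ (n:ℝ) ^ (-(2:ℝ)) * q.1 ^ 2 := by
              rw [Real.rpow_neg hn0.le, Real.rpow_two, inv_mul_eq_div, one_le_div (by positivity)]
              gcongr
            calc c n ≤ B * (tau κ n * 1) := by rw [mul_one]; exact hcB n
              _ ≤ B * (tau κ n * ((n:ℝ) ^ (-(2:ℝ)) * q.1 ^ 2)) := by gcongr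
              _ = _ := by ring
        _ = B * ((∑ n ∈ Finset.Icc 1 N, (tau κ n * (n:ℝ) ^ (-(2:ℝ)))) * q.1 ^ 2) := by rw [Finset.sum_mul, Finset.mul_sum]
        _ ≤ B * (Ctau κ * q.1 ^ 2) := by
            gcongr
            exact (summable_tau hκ (by norm_num : (1:ℝ) < 2)).sum_le_tsum _ (fun n _ => mul_nonneg (tau_nonneg hκ n) (by positivity))
    have hsum0 : 0 ≤ ∑ n ∈ Finset.Icc 1 N, c n := Finset.sum_nonneg fun n _ => hc n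
    have hv2 : (1/16) * q.1 ^ (18/100:ℝ) ≤ (vT (4/5) q.1 : ℝ) / (16 * (N:ℝ) ^ 2) := by
      rw [vT_coe, HT, le_div_iff₀ (by positivity)]
      have e1 : (q.1 ^ ((1 + (4/5:ℝ)) / 2)) ^ 2 = q.1 ^ (18/100:ℝ) * (q.1 ^ (81/100:ℝ)) ^ 2 := by
        rw [← Real.rpow_natCast, ← Real.rpow_natCast, ← Real.rpow_mul hT0.le, ← Real.rpow_mul hT0.le, ← Real.rpow_add hT0]
        congr 1; norm_num
      rw [e1]
      have h6 : (N:ℝ) ^ 2 ≤ (q.1 ^ (81/100:ℝ)) ^ 2 := by gcongr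
      have h7 : 0 ≤ q.1 ^ (18/100:ℝ) := by positivity
      nlinarith
    have hexp : Real.exp (-(vT (4/5) q.1 : ℝ) / (16 * (N:ℝ) ^ 2)) ≤ Real.exp (-((1/16) * q.1 ^ (18/100:ℝ))) := by
      apply Real.exp_le_exp.mpr
      rw [neg_div]
      linarith
    calc 3 * (N:ℝ) ^ 2 * Real.exp (-(vT (4/5) q.1 : ℝ) / (16 * (N:ℝ) ^ 2)) * (∑ n ∈ Finset.Icc 1 N, c n) ^ 2 
        ≤ 3 * q.1 ^ 2 * Real.exp (-((1/16) * q.1 ^ (18/100:ℝ))) * (B * (Ctau κ * q.1 ^ 2)) ^ 2 := by gcongr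
      _ = B ^ 2 * (3 * Ctau κ ^ 2 * (q.1 ^ 6 * Real.exp (-((1/16) * q.1 ^ (18/100:ℝ))))) := by ring
      _ ≤ B ^ 2 * 1 := by gcongr
      _ = B ^ 2 := mul_one _
  have hB2 : B ^ 2 ≤ 1 * B ^ 2 * (Real.log q.1) ^ (κ ^ 2) := by
    rw [one_mul]
    exact le_mul_of_one_le_right (by positivity) hL1
  calc ∫ t, ‖dp c N (crit t)‖ ^ 2 ∂(gaussianReal q.2 (vT (4/5) q.1)) ≤ C * B ^ 2 * (Real.log q.1) ^ (κ ^ 2) + B ^ 2 := by linarith
    _ ≤ C * B ^ 2 * (Real.log q.1) ^ (κ ^ 2) + 1 * B ^ 2 * (Real.log q.1) ^ (κ ^ 2) := by linarith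
    _ = _ := by ring

lemma mul_tau_le {f g : ArithmeticFunction ℝ} {a b B : ℝ} (hg0 : ∀ n, 0 ≤ g n) (hf0 : ∀ n, 0 ≤ f n)
    (hf : ∀ n, f n ≤ tau a n) (hg : ∀ n, g n ≤ B * tau b n) (n : ℕ) : (f * g) n ≤ B * tau (a + b) n := by
  obtain ⟨g', e⟩ : ∃ g' : ArithmeticFunction ℝ, ∀ n, g' n = B * tau b n := ⟨⟨fun n => B * tau b n, by simp⟩, fun _ => rfl⟩
  have h1 : (f * g) n ≤ (tau a * g') n := 
    mul_apply_mono hf0 hf hg0 (fun n => by rw [e]; exact hg n) n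
  refine h1.trans (le_of_eq ?_)
  rw [← tau_mul, ArithmeticFunction.mul_apply, ArithmeticFunction.mul_apply, Finset.mul_sum]
  refine Finset.sum_congr rfl fun x _ => ?_
  rw [e]; ring

variable {α : ℝ}

/-- Upper bound for the polynomial side. -/
theorem Q4_ev (hα : 0 ≤ α) {η : ℝ} (hη : 0 < η) {c : ℝ} (_hc : 0 ≤ c) : ∃ C : ℝ, 0 < C ∧ ∀ᶠ q : ℝ × ℝ in Fl η, ∀ (p : ArithmeticFunction ℝ) (Y : ℕ), 
    Adm α q.1 p Y → ∀ δ : ℝ, 0 ≤ δ → δ ≤ c / Real.log q.1 → 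
    En (Q4 p Y (NT (4/5) q.1)) q.2 (vT (4/5) q.1) (1/2 + δ) ≤ C * (q.1 ^ 2 * (Real.log q.1) ^ ((1 + α) ^ 2)) := by
  obtain ⟨C, hC0, hC⟩ := mean_sq_ev (κ := 1 + α) (by linarith) η
  refine ⟨9 * (C * 1 ^ 2 + C * Real.exp c ^ 2) + 1, by positivity, ?_⟩
  filter_upwards [hC, Fl_pos hη, Fl_range η, (Fl_fst η).eventually (eventually_ge_atTop (Real.exp 1)), 
    (Fl_fst η).eventually (four_le_vT (θ := 4/5) (by norm_num)), RT_le_u hη (by norm_num : (4/5:ℝ) < 1) one_pos, 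
    err_ev hη (by norm_num) (by norm_num : (4/5:ℝ) < 1) 4 4 (A0 := 495 ^ 2 * Ctau α ^ 2) (by positivity), 
    (Fl_fst η).eventually ((div_log_tendsto c).eventually_lt_const (by norm_num : (0:ℝ) < 1/4))] with 
    q hq hp hr hqe hv hR herr hcl p Y hA δ hδ0 hδc
  have hT1 : 1 ≤ q.1 := hp.1.le
  have hT0 : 0 < q.1 := by linarith
  have hu0 : 0 < q.2 := by linarith [hp.2]
  have hv0 : 0 < vT (4/5) q.1 := lt_of_lt_of_le (by norm_num) hv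
  have hl1 : 1 ≤ Real.log q.1 := by rw [Real.le_log_iff_exp_le hT0]; exact hqe
  have hl0 : 0 < Real.log q.1 := by linarith
  have hL1 : 1 ≤ (Real.log q.1) ^ ((1 + α) ^ 2) := Real.one_le_rpow hl1 (by positivity)
  obtain ⟨M, hM⟩ : ∃ M : ℕ, M = NT (4/5) q.1 := ⟨_, rfl⟩
  rw [← hM]
  have hMT : (M:ℝ) ≤ q.1 := by rw [hM]; exact NT_le (by norm_num) hT1
  have hMT' : (M:ℝ) ≤ q.1 ^ (4/5:ℝ) := by rw [hM]; exact NT_le_rpow _ hT0
  have hδ14 : δ ≤ 1/4 := by linarith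
  have hx : (1/2 + δ) ∈ Icc (1/4:ℝ) 9 := ⟨by linarith, by linarith⟩
  obtain ⟨v, hvv⟩ : ∃ v : ℝ≥0, v = vT (4/5) q.1 := ⟨_, rfl⟩
  rw [← hvv] at hq hv hv0 herr ⊢
  -- the two Dirichlet polynomials
  obtain ⟨c1, hc1⟩ : ∃ c1 : ArithmeticFunction ℝ, c1 = tws (oneT M) (-δ) * tws p (-δ) := ⟨_, rfl⟩
  obtain ⟨c2, hc2⟩ : ∃ c2 : ArithmeticFunction ℝ, c2 = tws (oneT M) (-δ) * tws p δ := ⟨_, rfl⟩
  have hMY : ((M * Y : ℕ) : ℝ) ≤ q.1 ^ (81/100:ℝ) := by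
    push_cast
    calc (M:ℝ) * Y ≤ q.1 ^ (4/5:ℝ) * q.1 ^ (1/100:ℝ) := mul_le_mul hMT' hA.len (by positivity) (by positivity)
      _ = q.1 ^ (81/100:ℝ) := by rw [← Real.rpow_add hT0]; norm_num
  have hn1 : ∀ n, 0 ≤ tws (oneT M) (-δ) n := tws_nonneg (oneT_nonneg M) _
  have hn2 : ∀ a n, 0 ≤ tws p a n := fun a => tws_nonneg hA.nn a
  have hb1 : ∀ n, tws (oneT M) (-δ) n ≤ tau 1 n := fun n => (tws_neg_le (oneT_nonneg M) hδ0 n).trans (oneT_le_tau M n)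
  have hb2 : ∀ n, tws p (-δ) n ≤ 1 * tau α n := fun n => by
    rw [one_mul]; exact (tws_neg_le hA.nn hδ0 n).trans (hA.le n)
  have hYδ : (Y:ℝ) ^ δ ≤ Real.exp c := by
    calc (Y:ℝ) ^ δ ≤ (q.1 ^ (1/100:ℝ)) ^ δ := Real.rpow_le_rpow (Nat.cast_nonneg Y) hA.len hδ0
      _ = Real.exp (Real.log q.1 * δ / 100) := by
          rw [← Real.rpow_mul hT0.le, Real.rpow_def_of_pos hT0]; congr 1; ring
      _ ≤ Real.exp c := by
          apply Real.exp_le_exp.mpr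
          rw [le_div_iff₀ hl0] at hδc
          have : 0 ≤ Real.log q.1 * δ := by positivity
          linarith
  have hb3 : ∀ n, tws p δ n ≤ Real.exp c * tau α n := fun n => by
    refine (tws_le hA.nn hA.supp hδ0 n).trans ?_
    have h1 := hA.le n
    have h2 := hA.nn n
    gcongr
  have hc1n : ∀ n, 0 ≤ c1 n := by rw [hc1]; exact mul_apply_nonneg hn1 (hn2 _)
  have hc2n : ∀ n, 0 ≤ c2 n := by rw [hc2]; exact mul_apply_nonneg hn1 (hn2 _)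
  have hc1b : ∀ n, c1 n ≤ 1 * tau (1 + α) n := by rw [hc1]; exact mul_tau_le (hn2 _) hn1 hb1 hb2
  have hc2b : ∀ n, c2 n ≤ Real.exp c * tau (1 + α) n := by rw [hc2]; exact mul_tau_le (hn2 _) hn1 hb1 hb3
  have m1 := hq c1 hc1n 1 zero_le_one hc1b (M * Y) hMY
  have m2 := hq c2 hc2n (Real.exp c) (Real.exp_pos c).le hc2b (M * Y) hMY
  have e1 : ∀ t : ℝ, dp c1 (M * Y) (crit t) = dp (oneT M) M (((1/2 + δ : ℝ) : ℂ) + t * I) * dp p Y (((1/2 + δ : ℝ) : ℂ) + t * I) := by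
    intro t
    rw [hc1, dp_mul (tws_supp (oneT_supp M) _) (tws_supp hA.supp _) (crit_ne_zero t), dp_shift, dp_shift]
  have e2 : ∀ t : ℝ, dp c2 (M * Y) (crit t) = dp (oneT M) M (((1/2 + δ : ℝ) : ℂ) + t * I) * dp p Y (((1/2 + (-δ) : ℝ) : ℂ) + t * I) := by
    intro t
    rw [hc2, dp_mul (tws_supp (oneT_supp M) _) (tws_supp hA.supp _) (crit_ne_zero t), dp_shift, dp_shift, neg_neg]
  have i1 : Integrable (fun t => ‖dp c1 (M * Y) (crit t)‖ ^ 2) (gaussianReal q.2 v) := by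
    have hc := continuous_dp_crit c1 (M * Y)
    refine integrable_poly (A := (∑ n ∈ Finset.Icc 1 (M * Y), c1 n) ^ 2) (k := 0) (by fun_prop) (fun t => ?_) _ _
    rw [abs_of_nonneg (by positivity), pow_zero, mul_one]
    have := norm_dp_crit_le hc1n (M * Y) t
    gcongr
  have i2 : Integrable (fun t => ‖dp c2 (M * Y) (crit t)‖ ^ 2) (gaussianReal q.2 v) := by
    have hc := continuous_dp_crit c2 (M * Y)
    refine integrable_poly (A := (∑ n ∈ Finset.Icc 1 (M * Y), c2 n) ^ 2) (k := 0) (by fun_prop) (fun t => ?_) _ _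
    rw [abs_of_nonneg (by positivity), pow_zero, mul_one]
    have := norm_dp_crit_le hc2n (M * Y) t
    gcongr
  have hpt : ∀ t : ℝ, ‖Q4 p Y M (((1/2 + δ : ℝ) : ℂ) + t * I)‖ ≤ (1 + |t|) ^ 2 * (‖dp c1 (M * Y) (crit t)‖ ^ 2 + ‖dp c2 (M * Y) (crit t)‖ ^ 2) := by
    intro t
    have h3 := (norm_line_bounds (x := 1/2 + δ) (by linarith) (by linarith) t).2
    unfold Q4 Rf
    have e3 : ‖dp p Y (1 - (((1/2 + δ : ℝ) : ℂ) + t * I))‖ = ‖dp p Y (((1/2 + (-δ) : ℝ) : ℂ) + t * I)‖ := by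
      have e4 : 1 - (((1/2 + δ : ℝ) : ℂ) + t * I) = conj (((1/2 + (-δ) : ℝ) : ℂ) + t * I) := by
        rw [map_add, map_mul, conj_ofReal, conj_ofReal, conj_I]; push_cast; ring
      rw [e4, dp_conj, Complex.norm_conj]
    rw [norm_mul, norm_mul, norm_pow, norm_mul, e3, e1, e2, norm_mul, norm_mul]
    obtain ⟨a, ha⟩ : ∃ a : ℝ, a = ‖dp (oneT M) M (((1/2 + δ : ℝ) : ℂ) + t * I)‖ := ⟨_, rfl⟩
    obtain ⟨b, hb⟩ : ∃ b : ℝ, b = ‖dp p Y (((1/2 + δ : ℝ) : ℂ) + t * I)‖ := ⟨_, rfl⟩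
    obtain ⟨d, hd⟩ : ∃ d : ℝ, d = ‖dp p Y (((1/2 + (-δ) : ℝ) : ℂ) + t * I)‖ := ⟨_, rfl⟩
    obtain ⟨w, hw⟩ : ∃ w : ℝ, w = ‖(((1/2 + δ : ℝ) : ℂ) + t * I) - 1‖ := ⟨_, rfl⟩
    rw [← hw] at h3
    rw [← ha, ← hb, ← hd, ← hw]
    have hw0 : 0 ≤ w := by rw [hw]; exact norm_nonneg _
    have ha0 : 0 ≤ a := by rw [ha]; exact norm_nonneg _
    have hb0 : 0 ≤ b := by rw [hb]; exact norm_nonneg _
    have hd0 : 0 ≤ d := by rw [hd]; exact norm_nonneg _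
    calc (w * a) ^ 2 * (b * d) ≤ w ^ 2 * ((a * b) ^ 2 + (a * d) ^ 2) := by
          have : 0 ≤ w ^ 2 * a ^ 2 * (b ^ 2 + d ^ 2 - b * d) := by
            have : 0 ≤ b ^ 2 + d ^ 2 - b * d := by nlinarith [sq_nonneg (b - d), mul_nonneg hb0 hd0]
            positivity
          nlinarith
      _ ≤ (1 + |t|) ^ 2 * ((a * b) ^ 2 + (a * d) ^ 2) := by gcongr
  have hbound := transfer (f := fun t => ‖Q4 p Y M (((1/2 + δ : ℝ) : ℂ) + t * I)‖) 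
    (g := fun t => ‖dp c1 (M * Y) (crit t)‖ ^ 2 + ‖dp c2 (M * Y) (crit t)‖ ^ 2) hu0.le hv0 (R := RT (4/5) q.1) (K := (3 * q.1) ^ 2) (A := A1 α q.1) (k := 4) 
    (by positivity) (A1_nonneg _ _) (hA.int_Q4 hα hT1 hMT hx _ _) (i1.add i2) (fun t => by positivity) ?_ (fun t => hA.Q4_le hα hT1 hMT hx t)
  · have herr' := herr (A1 α q.1) (A1_nonneg _ _) (by unfold A1; exact le_of_eq (by ring))
    rw [integral_add i1 i2] at hbound
    have h9 : (1:ℝ) ≤ q.1 ^ 2 * (Real.log q.1) ^ ((1 + α) ^ 2) := by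
      have : (1:ℝ) ≤ q.1 ^ 2 := one_le_pow₀ hT1
      nlinarith
    calc En (Q4 p Y M) q.2 v (1/2 + δ) ≤ (3 * q.1) ^ 2 * ((∫ t, ‖dp c1 (M * Y) (crit t)‖ ^ 2 ∂(gaussianReal q.2 v)) + 
            ∫ t, ‖dp c2 (M * Y) (crit t)‖ ^ 2 ∂(gaussianReal q.2 v)) + 1 := by
          refine hbound.trans ?_
          linarith
      _ ≤ (3 * q.1) ^ 2 * (C * 1 ^ 2 * (Real.log q.1) ^ ((1 + α) ^ 2) + C * Real.exp c ^ 2 * (Real.log q.1) ^ ((1 + α) ^ 2)) + 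
            1 * (q.1 ^ 2 * (Real.log q.1) ^ ((1 + α) ^ 2)) := by
          rw [one_mul (q.1 ^ 2 * (Real.log q.1) ^ ((1 + α) ^ 2))]
          gcongr
      _ = _ := by ring
  · intro t ht
    refine (hpt t).trans ?_
    apply mul_le_mul_of_nonneg_right _ (by positivity)
    apply pow_le_pow_left₀ (by positivity)
    have h7 : |t| ≤ q.2 + |t - q.2| := by
      calc |t| = |q.2 + (t - q.2)| := by congr 1; ring
        _ ≤ |q.2| + |t - q.2| := abs_add_le _ _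
        _ = _ := by rw [abs_of_nonneg hu0.le]
    linarith [hr.2]

end Pool.Agent.LibZM
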