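import Mathlib
import Pool.Agent.LibZM.ZU3
import Pool.Agent.LibZM.HB12

set_option autoImplicit false

namespace Pool.Agent.LibZM

open MeasureTheory Set Filter Topology Complex ProbabilityTheory
open scoped NNReal ComplexConjugate

variable {α : ℝ}

/-- Reflection for the twisted second moment. -/
theorem refl_ev (hα : 0 ≤ α) {η : ℝ} (hη : 0 < η) {c : ℝ} (hc : 0 < c) : ∀ᶠ q : ℝ × ℝ in Fl η, ∀ (p : ArithmeticFunction ℝ) (Y : ℕ), 
    Adm α q.1 p Y → En (F2 p Y) q.2 (vT (4/5) q.1) (1/2 - c / Real.log q.1) ≤ 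
      4 * Real.exp (2 * c) * En (F2 p Y) q.2 (vT (4/5) q.1) (1/2 + c / Real.log q.1) + 1 := by
  have f1 : Tendsto (fun T : ℝ => (1 + 8 * (c / Real.log T)) * (Real.exp c * Real.exp (c * Real.log 2 / Real.log T))) atTop 
      (𝓝 ((1 + 8 * 0) * (Real.exp c * Real.exp 0))) := 
    (((div_log_tendsto c).const_mul 8).const_add 1).mul (((Real.continuous_exp.tendsto 0).comp (div_log_tendsto (c * Real.log 2))).const_mul (Real.exp c))
  rw [mul_zero, add_zero, one_mul, Real.exp_zero, mul_one] at f1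
  have hlt : Real.exp c < 2 * Real.exp c := by have := Real.exp_pos c; linarith
  filter_upwards [(Fl_fst η).eventually (f1.eventually_lt_const hlt), Fl_pos hη, Fl_range η, 
    (Fl_fst η).eventually (four_le_vT (θ := 4/5) (by norm_num)), RT_le_u hη (by norm_num : (4/5:ℝ) < 1) one_pos, 
    err_ev hη (by norm_num) (by norm_num : (4/5:ℝ) < 1) 4 4 (A0 := 495 ^ 2 * Ctau α ^ 2) (by positivity), 
    (Fl_fst η).eventually ((div_log_tendsto c).eventually_lt_const (by norm_num : (0:ℝ) < 1/4))] with q h1 hp hr hv hR herr hcl p Y hA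
  have hT1 : 1 ≤ q.1 := hp.1.le
  have hT0 : 0 < q.1 := by linarith
  have hu0 : 0 < q.2 := by linarith [hp.2]
  have hv0 : 0 < vT (4/5) q.1 := lt_of_lt_of_le (by norm_num) hv
  have hl := Real.log_pos hp.1
  obtain ⟨δ, hδ⟩ : ∃ δ : ℝ, δ = c / Real.log q.1 := ⟨_, rfl⟩
  rw [← hδ] at h1 hcl ⊢
  have hδ0 : 0 ≤ δ := by rw [hδ]; positivity
  have hx1 : (1/2 - δ) ∈ Icc (1/4:ℝ) 9 := ⟨by linarith, by linarith⟩
  have hx2 : (1/2 + δ) ∈ Icc (1/4:ℝ) 9 := ⟨by linarith, by linarith⟩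
  have hR0 := (RT_pos (4/5) hT0).le
  have hbase := base_le (T := q.1) (u := q.2) (R := RT (4/5) q.1) hT1 hr.2 (by linarith [hr.2]) (by linarith)
  have hK : (2 * q.1) ^ δ = Real.exp c * Real.exp (c * Real.log 2 / Real.log q.1) := by
    rw [Real.rpow_def_of_pos (by positivity), ← Real.exp_add, Real.log_mul (by norm_num) hT0.ne', hδ]
    congr 1
    field_simp
    ring
  have hbound := transfer (f := fun t : ℝ => ‖F2 p Y (((1/2 - δ : ℝ) : ℂ) + t * I)‖) 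
    (g := fun t : ℝ => ‖F2 p Y (((1/2 + δ : ℝ) : ℂ) + t * I)‖) hu0.le hv0 (R := RT (4/5) q.1) (K := 4 * Real.exp (2 * c)) (A := A1 α q.1) (k := 4) 
    (by positivity) (A1_nonneg _ _) (hA.int_F2 hα hT1 hx1 _ _) (hA.int_F2 hα hT1 hx2 _ _) (fun t => norm_nonneg _) ?_ (fun t => hA.F2_le hα hT1 hx1 t)
  · have herr' := herr (A1 α q.1) (A1_nonneg _ _) (by unfold A1; exact le_of_eq (by ring))
    unfold En
    linarith
  · intro t ht
    have h7 : |t| ≤ q.2 + |t - q.2| := by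
      calc |t| = |q.2 + (t - q.2)| := by congr 1; ring
        _ ≤ |q.2| + |t - q.2| := abs_add_le _ _
        _ = _ := by rw [abs_of_nonneg hu0.le]
    have h2 := reflect_pt hδ0 hcl.le t
    have h3 : (Real.exp 1 * (|t| + 2) / (2 * Real.pi)) ^ δ ≤ (2 * q.1) ^ δ := by
      apply Real.rpow_le_rpow (by positivity) _ hδ0
      refine le_trans ?_ hbase
      gcongr
      linarith
    have h5 : 0 ≤ 1 + 8 * δ := by linarith
    have h4 : (1 + 8 * δ) * (Real.exp 1 * (|t| + 2) / (2 * Real.pi)) ^ δ ≤ 2 * Real.exp c := by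
      calc (1 + 8 * δ) * (Real.exp 1 * (|t| + 2) / (2 * Real.pi)) ^ δ ≤ (1 + 8 * δ) * (2 * q.1) ^ δ := by gcongr
        _ ≤ 2 * Real.exp c := by rw [hK]; exact h1.le
    unfold F2
    rw [norm_mul, norm_mul, norm_pow, norm_pow, norm_Rf_reflect]
    have h6 : ‖riemannZeta₁ (((1/2 - δ : ℝ) : ℂ) + t * I)‖ ≤ 2 * Real.exp c * ‖riemannZeta₁ (((1/2 + δ : ℝ) : ℂ) + t * I)‖ := by
      refine h2.trans ?_
      exact mul_le_mul_of_nonneg_right h4 (norm_nonneg _)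
    have e : Real.exp (2 * c) = Real.exp c ^ 2 := by rw [← Real.exp_nat_mul]; norm_num
    calc ‖riemannZeta₁ (((1/2 - δ : ℝ) : ℂ) + t * I)‖ ^ 2 * ‖Rf p Y (((1/2 + δ : ℝ) : ℂ) + t * I)‖ 
        ≤ (2 * Real.exp c * ‖riemannZeta₁ (((1/2 + δ : ℝ) : ℂ) + t * I)‖) ^ 2 * ‖Rf p Y (((1/2 + δ : ℝ) : ℂ) + t * I)‖ := by gcongr
      _ = _ := by rw [e]; ring

lemma stepB {a am a0 c : ℝ} (ham : 0 ≤ am) (ha0 : 0 ≤ a0) (hc : 0 ≤ c) (h : a ≤ 2 * (am ^ (1 - 1/2 : ℝ) * a0 ^ (1/2 : ℝ))) 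
    (h2 : am ≤ 4 * Real.exp (2 * c) * a0 + 1) : a ≤ 4 * Real.exp c * (a0 + 1) := by
  have e0 : (1 - 1/2 : ℝ) = 1/2 := by norm_num
  rw [e0, ← Real.mul_rpow ham ha0, ← Real.sqrt_eq_rpow] at h
  have e : Real.exp (2 * c) = Real.exp c ^ 2 := by rw [← Real.exp_nat_mul]; norm_num
  have hE : 1 ≤ Real.exp c := Real.one_le_exp hc
  have h3 : √(am * a0) ≤ 2 * Real.exp c * (a0 + 1) := by
    apply Real.sqrt_le_iff.mpr
    refine ⟨by positivity, ?_⟩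
    have hE2 : 1 ≤ Real.exp c ^ 2 := one_le_pow₀ hE
    have h4 : am ≤ 4 * Real.exp c ^ 2 * (a0 + 1) := by rw [e] at h2; nlinarith
    calc am * a0 ≤ (4 * Real.exp c ^ 2 * (a0 + 1)) * (a0 + 1) := by
          apply mul_le_mul h4 (by linarith) ha0 (by positivity)
      _ = _ := by ring
  linarith

/-- Convexity near the critical line. -/
theorem convB_ev (hα : 0 ≤ α) {η : ℝ} (hη : 0 < η) {c : ℝ} (hc : 0 < c) : ∀ᶠ q : ℝ × ℝ in Fl η, ∀ (p : ArithmeticFunction ℝ) (Y : ℕ), 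
    Adm α q.1 p Y → En (F2 p Y) q.2 (vT (4/5) q.1) (1/2) ≤ 4 * Real.exp c * (En (F2 p Y) q.2 (vT (4/5) q.1) (1/2 + c / Real.log q.1) + 1) := by
  have f3 := exp_v_tendsto (θ := 4/5) (by norm_num) 81
  filter_upwards [refl_ev hα hη hc, (Fl_fst η).eventually (f3.eventually_lt_const (by norm_num : (1:ℝ) < 2)), Fl_pos hη, 
    (Fl_fst η).eventually (four_le_vT (θ := 4/5) (by norm_num)), 
    (Fl_fst η).eventually ((div_log_tendsto c).eventually_lt_const (by norm_num : (0:ℝ) < 1/4))] with q hq h2 hp hv hcl p Y hA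
  have hT1 : 1 ≤ q.1 := hp.1.le
  have hv0 : 0 < vT (4/5) q.1 := lt_of_lt_of_le (by norm_num) hv
  have hl := Real.log_pos hp.1
  have hq' := hq p Y hA
  obtain ⟨δ, hδ⟩ : ∃ δ : ℝ, δ = c / Real.log q.1 := ⟨_, rfl⟩
  rw [← hδ] at hcl hq' ⊢
  have hδ0 : 0 < δ := by rw [hδ]; positivity
  have hcv := convex_En (differentiable_F2 p Y) (a' := 1/4) (a := 1/2 - δ) (b := 1/2 + δ) (b' := 9) (C := A1 α q.1 * (24 * Real.exp 1)) 
    (by linarith) (by linarith) (by linarith) (mul_nonneg (A1_nonneg _ _) (by positivity)) 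
    (fun x hx y => (hA.F2_le hα hT1 hx y).trans (exp_growth (A1_nonneg _ _))) (u := q.2) hv0 (x := 1/2) (M := 81) ⟨by linarith, by linarith⟩ 
    (by nlinarith) (by nlinarith)
  have hτ : (1/2 - (1/2 - δ)) / (1/2 + δ - (1/2 - δ)) = 1/2 := by field_simp; ring
  rw [hτ] at hcv
  refine stepB (En_nonneg _ _ _ _) (En_nonneg _ _ _ _) hc.le (hcv.trans ?_) hq'
  apply mul_le_mul_of_nonneg_right h2.le
  exact mul_nonneg (Real.rpow_nonneg (En_nonneg _ _ _ _) _) (Real.rpow_nonneg (En_nonneg _ _ _ _) _)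

/-- Far line. -/
lemma Adm.G3_far {T : ℝ} {p : ArithmeticFunction ℝ} {Y M : ℕ} (h : Adm α T p Y) (hα : 0 ≤ α) (hM : 1 ≤ M) (t : ℝ) : 
    ‖G3 p Y M (((8:ℝ):ℂ) + t * I)‖ ≤ 81 * (Z2 * (M:ℝ) ^ (-6:ℝ)) ^ 2 * (Ctau α * (Ctau α * (Y:ℝ) ^ 9)) * (1 + |t|) ^ 2 := by
  obtain ⟨s, hs⟩ : ∃ s : ℂ, s = ((8:ℝ):ℂ) + t * I := ⟨_, rfl⟩
  have hre : s.re = 8 := by simp [hs]
  have hre1 : 1 < s.re := by rw [hre]; norm_num
  have hs1 : s ≠ 1 := by rintro h; rw [h] at hre1; simp at hre1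
  have hs1' : s - 1 ≠ 0 := sub_ne_zero.mpr hs1
  have hM0 : (0:ℝ) < M := by exact_mod_cast hM
  have h1 := hasSum_zeta_pow 1 hre1
  rw [pow_one] at h1
  have h2 : HasSum (fun n : ℕ => (((oneT M) n : ℝ) : ℂ) * cexp (-((Real.log n : ℝ) : ℂ) * s)) (dp (oneT M) M s) := by
    rw [dp_eq_exp]
    apply hasSum_sum_of_ne_finset_zero
    intro n hn
    rw [Finset.mem_Icc, not_and_or, not_le, not_le] at hn
    rcases hn with h | h
    · have : n = 0 := by omega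
      subst this; simp
    · rw [oneT_supp M n h]; simp
  have h3 := h1.sub h2
  have hbd : ∀ n : ℕ, ‖((tau ((1:ℕ):ℝ) n : ℝ) : ℂ) * cexp (-((Real.log n : ℝ) : ℂ) * s) - (((oneT M) n : ℝ) : ℂ) * cexp (-((Real.log n : ℝ) : ℂ) * s)‖ ≤ 
      (M:ℝ) ^ (-6:ℝ) * (n:ℝ) ^ (-(2:ℝ)) := by
    intro n
    rcases Nat.eq_zero_or_pos n with rfl | hn
    · simp
    · have hn0 : (0:ℝ) < n := by exact_mod_cast hn
      rw [← sub_mul, norm_mul]
      rw [hs, norm_term_line hn, ← ofReal_sub, norm_real, Real.norm_eq_abs]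
      have e1 : tau ((1:ℕ):ℝ) n = 1 := by rw [Nat.cast_one]; exact tau_one_apply (by omega)
      by_cases hnM : n ≤ M
      · have e : (oneT M) n = 1 := by rw [oneT_apply, if_neg (by omega), if_pos hnM]
        rw [e, e1, sub_self, abs_zero, zero_mul]; positivity
      · push Not at hnM
        have hnM' : (M:ℝ) ≤ n := by exact_mod_cast hnM.le
        have e : (oneT M) n = 0 := by rw [oneT_apply, if_neg (by omega), if_neg (by omega)]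
        rw [e, e1, sub_zero, abs_one, one_mul]
        calc (n:ℝ) ^ (-(8:ℝ)) = (n:ℝ) ^ (-6:ℝ) * (n:ℝ) ^ (-(2:ℝ)) := by
              rw [← Real.rpow_add hn0]; congr 1; norm_num
          _ ≤ (M:ℝ) ^ (-6:ℝ) * (n:ℝ) ^ (-(2:ℝ)) := by
              apply mul_le_mul_of_nonneg_right _ (by positivity)
              exact Real.rpow_le_rpow_of_nonpos hM0 hnM' (by norm_num)
  have h4 := tsum_of_norm_bounded (Z2_summable.mul_left ((M:ℝ) ^ (-6:ℝ))).hasSum hbd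
  rw [h3.tsum_eq, tsum_mul_left] at h4
  have h5 : riemannZeta₁ s - (s - 1) * dp (oneT M) M s = (s - 1) * (riemannZeta s - dp (oneT M) M s) := by
    rw [riemannZeta_eq_inv_sub_mul hs1]
    field_simp
  have h6 : ‖s - 1‖ ≤ 9 * (1 + |t|) := by
    rw [hs]; exact (norm_line_sub_one_le (b' := 9) (by norm_num) (x := 8) ⟨by norm_num, by norm_num⟩ t).1
  have h7 : ‖dp p Y s‖ ≤ Ctau α := by
    rw [hs]; exact norm_dp_tau_far hα h.nn h.le Y (by norm_num) t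
  have h8 : ‖dp p Y (1 - s)‖ ≤ Ctau α * (Y:ℝ) ^ 9 := by
    have e : 1 - s = ((-7 : ℝ) : ℂ) + ((-t : ℝ) : ℂ) * I := by rw [hs]; push_cast; ring
    rw [e]
    exact norm_dp_tau_line hα h.nn h.le Y (j := 7) (by norm_num) _
  rw [← hs]
  unfold G3 Rf
  rw [h5, norm_mul, norm_pow, norm_mul, norm_mul]
  have h9 : ‖riemannZeta s - dp (oneT M) M s‖ ≤ Z2 * (M:ℝ) ^ (-6:ℝ) := by rw [mul_comm Z2]; exact h4
  have hC := Ctau_nonneg hα
  have hZ := Z2_pos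
  calc (‖s - 1‖ * ‖riemannZeta s - dp (oneT M) M s‖) ^ 2 * (‖dp p Y s‖ * ‖dp p Y (1 - s)‖) 
      ≤ ((9 * (1 + |t|)) * (Z2 * (M:ℝ) ^ (-6:ℝ))) ^ 2 * (Ctau α * (Ctau α * (Y:ℝ) ^ 9)) := by gcongr
    _ = _ := by ring

lemma far_const {T : ℝ} (hT : 1 ≤ T) {M Y : ℕ} (hM : T ^ (4/5:ℝ) ≤ 2 * M) (hY : (Y:ℝ) ≤ T ^ (1/100 : ℝ)) : 
    ((M:ℝ) ^ (-6:ℝ)) ^ 2 * (Y:ℝ) ^ 9 ≤ 4096 * T ^ (-(951/100):ℝ) := by
  have hT0 : 0 < T := by linarith
  have hM0 : (0:ℝ) < M := by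
    have : 0 < T ^ (4/5:ℝ) := by positivity
    linarith
  have h1 : ((M:ℝ) ^ (-6:ℝ)) ^ 2 ≤ 4096 * T ^ (-(96/10):ℝ) := by
    have e1 : ((M:ℝ) ^ (-6:ℝ)) ^ 2 = ((M:ℝ) ^ 12)⁻¹ := by
      rw [← Real.rpow_natCast, ← Real.rpow_natCast, ← Real.rpow_mul hM0.le, ← Real.rpow_neg hM0.le]; norm_num
    have e2 : T ^ (-(96/10):ℝ) = ((T ^ (4/5:ℝ)) ^ 12)⁻¹ := by
      rw [← Real.rpow_natCast, ← Real.rpow_mul hT0.le, ← Real.rpow_neg hT0.le]; norm_num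
    rw [e1, e2, ← div_eq_mul_inv, le_div_iff₀ (by positivity), inv_mul_le_iff₀ (by positivity)]
    calc (T ^ (4/5:ℝ)) ^ 12 ≤ (2 * M) ^ 12 := by gcongr
      _ = _ := by ring
  have h2 : (Y:ℝ) ^ 9 ≤ T ^ (9/100:ℝ) := by
    calc (Y:ℝ) ^ 9 ≤ (T ^ (1/100 : ℝ)) ^ 9 := by gcongr
      _ = _ := by rw [← Real.rpow_natCast, ← Real.rpow_mul hT0.le]; norm_num
  calc ((M:ℝ) ^ (-6:ℝ)) ^ 2 * (Y:ℝ) ^ 9 ≤ (4096 * T ^ (-(96/10):ℝ)) * T ^ (9/100:ℝ) := by gcongr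
    _ = 4096 * (T ^ (-(96/10):ℝ) * T ^ (9/100:ℝ)) := by ring
    _ = _ := by rw [← Real.rpow_add hT0]; norm_num

lemma stepD {g0 g gb τ T C c : ℝ} (hT : 1 < T) (hg : 0 ≤ g) (hgb : 0 ≤ gb) (hτ0 : 0 ≤ τ) (hτ1 : τ ≤ 1) (hC : 0 < C) 
    (hτ : τ * Real.log T = c / (15/2)) (hCτ : C ^ τ ≤ 2) (h : g0 ≤ 2 * (g ^ (1 - τ) * gb ^ τ)) 
    (hb : gb ≤ (C * T ^ (-(951/100):ℝ)) * T ^ 2) : g0 ≤ 4 * Real.exp (-(1268/1000 * c)) * (g + T ^ 2) := by
  have hT0 : 0 < T := by linarith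
  have h1 : gb ^ τ ≤ C ^ τ * Real.exp (-(1268/1000 * c)) * (T ^ 2) ^ τ := by
    calc gb ^ τ ≤ ((C * T ^ (-(951/100):ℝ)) * T ^ 2) ^ τ := Real.rpow_le_rpow hgb hb hτ0
      _ = C ^ τ * (T ^ (-(951/100):ℝ)) ^ τ * (T ^ 2) ^ τ := by
          rw [Real.mul_rpow (by positivity) (by positivity), Real.mul_rpow hC.le (by positivity)]
      _ = _ := by
          congr 2
          rw [← Real.rpow_mul hT0.le, Real.rpow_def_of_pos hT0]
          congr 1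
          linear_combination (-(951/100)) * hτ
  have h2 : g ^ (1 - τ) * (T ^ 2) ^ τ ≤ g + T ^ 2 := by
    have h := Real.geom_mean_le_arith_mean2_weighted (w₁ := 1 - τ) (w₂ := τ) (p₁ := g) (p₂ := T ^ 2) (by linarith) hτ0 hg (by positivity) (by ring)
    have h3 : τ * T ^ 2 ≤ T ^ 2 := by
      have : 0 ≤ T ^ 2 := by positivity
      nlinarith
    nlinarith
  have h3 : 0 ≤ g ^ (1 - τ) := Real.rpow_nonneg hg _
  have h4 := Real.exp_pos (-(1268/1000 * c))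
  calc g0 ≤ 2 * (g ^ (1 - τ) * gb ^ τ) := h
    _ ≤ 2 * (g ^ (1 - τ) * (C ^ τ * Real.exp (-(1268/1000 * c)) * (T ^ 2) ^ τ)) := by gcongr
    _ = 2 * C ^ τ * Real.exp (-(1268/1000 * c)) * (g ^ (1 - τ) * (T ^ 2) ^ τ) := by ring
    _ ≤ 2 * 2 * Real.exp (-(1268/1000 * c)) * (g + T ^ 2) := by gcongr
    _ = _ := by ring

/-- Decay of the difference. -/
theorem convD_ev (hα : 0 ≤ α) {η : ℝ} (hη : 0 < η) {c : ℝ} (hc : 0 < c) : ∀ᶠ q : ℝ × ℝ in Fl η, ∀ (p : ArithmeticFunction ℝ) (Y : ℕ), 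
    Adm α q.1 p Y → En (G3 p Y (NT (4/5) q.1)) q.2 (vT (4/5) q.1) (1/2 + c / Real.log q.1) ≤ 
      4 * Real.exp (-(1268/1000 * c)) * (En (G3 p Y (NT (4/5) q.1)) q.2 (vT (4/5) q.1) (1/2) + q.1 ^ 2) := by
  have f3 := exp_v_tendsto (θ := 4/5) (by norm_num) 81
  have hZ := Z2_pos
  have hCt := Ctau_nonneg hα
  obtain ⟨C, hC⟩ : ∃ C : ℝ, C = 810 * Z2 ^ 2 * Ctau α ^ 2 * 4096 + 1 := ⟨_, rfl⟩
  have hC0 : 0 < C := by rw [hC]; positivity
  have f4 : Tendsto (fun T : ℝ => C ^ ((c / Real.log T) / (15/2))) atTop (𝓝 (C ^ ((0:ℝ) / (15/2)))) := by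
    have h1 := (div_log_tendsto c).div_const (15/2)
    exact Filter.Tendsto.rpow tendsto_const_nhds h1 (Or.inl hC0.ne')
  rw [zero_div, Real.rpow_zero] at f4
  filter_upwards [(Fl_fst η).eventually (f4.eventually_lt_const (by norm_num : (1:ℝ) < 2)), mean_pow_ev hη (by norm_num) (by norm_num : (4/5:ℝ) < 1) 2, 
    (Fl_fst η).eventually (f3.eventually_lt_const (by norm_num : (1:ℝ) < 2)), Fl_pos hη, 
    (Fl_fst η).eventually (four_le_vT (θ := 4/5) (by norm_num)), 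
    (Fl_fst η).eventually ((div_log_tendsto c).eventually_lt_const (by norm_num : (0:ℝ) < 1/4))] with q hCτ hmp h2 hp hv hcl p Y hA
  have hT1 : 1 ≤ q.1 := hp.1.le
  have hT0 : 0 < q.1 := by linarith
  have hv0 : 0 < vT (4/5) q.1 := lt_of_lt_of_le (by norm_num) hv
  have hl := Real.log_pos hp.1
  obtain ⟨M, hM⟩ : ∃ M : ℕ, M = NT (4/5) q.1 := ⟨_, rfl⟩
  rw [← hM]
  have hMT : (M:ℝ) ≤ q.1 := by rw [hM]; exact NT_le (by norm_num) hT1
  have hM2 : q.1 ^ (4/5:ℝ) ≤ 2 * M := by rw [hM]; exact rpow_le_two_NT (by norm_num) hT1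
  have hM1 : 1 ≤ M := by rw [hM]; exact one_le_NT (by norm_num) hT1
  have hδc : c / Real.log q.1 * Real.log q.1 = c := div_mul_cancel₀ c hl.ne'
  obtain ⟨δ, hδ⟩ : ∃ δ : ℝ, δ = c / Real.log q.1 := ⟨_, rfl⟩
  rw [← hδ] at hcl hCτ hδc ⊢
  have hδ0 : 0 < δ := by rw [hδ]; positivity
  have hcv := convex_En (differentiable_G3 p Y M) (a' := 1/4) (a := 1/2) (b := 8) (b' := 9) (C := A1 α q.1 * (24 * Real.exp 1)) 
    (by norm_num) (by norm_num) (by norm_num) (mul_nonneg (A1_nonneg _ _) (by positivity)) 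
    (fun x hx y => (hA.G3_le hα hT1 hMT hx y).trans (exp_growth (A1_nonneg _ _))) (u := q.2) hv0 (x := 1/2 + δ) (M := 81) ⟨by linarith, by linarith⟩ 
    (by norm_num) (by norm_num)
  have hτ : (1/2 + δ - 1/2) / (8 - 1/2 : ℝ) = δ / (15/2) := by norm_num
  rw [hτ] at hcv
  have hτ0 : 0 ≤ δ / (15/2) := by positivity
  have hgb : En (G3 p Y M) q.2 (vT (4/5) q.1) 8 ≤ (C * q.1 ^ (-(951/100):ℝ)) * q.1 ^ 2 := by
    have hi : Integrable (fun t : ℝ => (1 + |t|) ^ 2) (gaussianReal q.2 (vT (4/5) q.1)) := 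
      integrable_poly (by fun_prop) (A := 1) (k := 2) (fun t => by rw [one_mul, abs_of_nonneg (by positivity)]) _ _
    have hfc := far_const hT1 hM2 hA.len
    obtain ⟨D, hD⟩ : ∃ D : ℝ, D = 81 * (Z2 * (M:ℝ) ^ (-6:ℝ)) ^ 2 * (Ctau α * (Ctau α * (Y:ℝ) ^ 9)) := ⟨_, rfl⟩
    have hD0 : 0 ≤ D := by rw [hD]; positivity
    calc En (G3 p Y M) q.2 (vT (4/5) q.1) 8 ≤ ∫ t : ℝ, D * (1 + |t|) ^ 2 ∂(gaussianReal q.2 (vT (4/5) q.1)) := by
          refine integral_mono (hA.int_G3 hα hT1 hMT (by constructor <;> norm_num) _ _) (hi.const_mul D) fun t => ?_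
          rw [hD]; exact hA.G3_far hα hM1 t
      _ = D * ∫ t : ℝ, (1 + |t|) ^ 2 ∂(gaussianReal q.2 (vT (4/5) q.1)) := by rw [integral_const_mul]
      _ ≤ D * (10 * q.1 ^ 2) := by
          apply mul_le_mul_of_nonneg_left _ hD0
          refine hmp.trans ?_
          have : 1 ≤ q.1 ^ 2 := one_le_pow₀ hT1
          nlinarith
      _ = (810 * Z2 ^ 2 * Ctau α ^ 2) * (((M:ℝ) ^ (-6:ℝ)) ^ 2 * (Y:ℝ) ^ 9) * q.1 ^ 2 := by rw [hD]; ring
      _ ≤ (810 * Z2 ^ 2 * Ctau α ^ 2) * (4096 * q.1 ^ (-(951/100):ℝ)) * q.1 ^ 2 := by gcongr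
      _ = ((810 * Z2 ^ 2 * Ctau α ^ 2 * 4096) * q.1 ^ (-(951/100):ℝ)) * q.1 ^ 2 := by ring
      _ ≤ (C * q.1 ^ (-(951/100):ℝ)) * q.1 ^ 2 := by
          gcongr
          rw [hC]; linarith
  refine stepD (gb := En (G3 p Y M) q.2 (vT (4/5) q.1) 8) (τ := δ / (15/2)) (C := C) hp.1 (En_nonneg _ _ _ _) (En_nonneg _ _ _ _) hτ0 (by linarith) hC0 
    (by rw [div_mul_eq_mul_div, hδc]) hCτ.le (hcv.trans ?_) hgb
  apply mul_le_mul_of_nonneg_right h2.le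
  exact mul_nonneg (Real.rpow_nonneg (En_nonneg _ _ _ _) _) (Real.rpow_nonneg (En_nonneg _ _ _ _) _)

lemma final_alg {a a0 q q0 g g0 X E : ℝ} (hE : 0 < E) (h1 : a ≤ 4 * E * (a0 + 1)) (h2 : a0 ≤ 2 * q0 + 2 * g0) 
    {D : ℝ} (h3 : g0 ≤ 4 * D * (g + X)) (h4 : g ≤ 2 * a + 2 * q) (hD : E * D ≤ 1/128) (hD0 : 0 ≤ D) (ha : 0 ≤ a) (hq : 0 ≤ q) (hX : 0 ≤ X) : 
    a ≤ 16 * E * q0 + 8 * E + q + X := by
  have h5 : g0 ≤ 4 * D * (2 * a + 2 * q + X) := h3.trans (by gcongr)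
  have h6 : a ≤ 4 * E * (2 * q0 + 2 * (4 * D * (2 * a + 2 * q + X)) + 1) := by
    refine h1.trans ?_
    gcongr
    linarith
  have h7 : a ≤ 8 * E * q0 + 4 * E + 32 * (E * D) * (2 * a + 2 * q + X) := by
    refine h6.trans (le_of_eq ?_)
    ring
  have h8 : 32 * (E * D) * (2 * a + 2 * q + X) ≤ 32 * (1/128) * (2 * a + 2 * q + X) := by gcongr
  linarith

end Pool.Agent.LibZM
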