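import Mathlib
import Pool.Agent.LibZM.ZU4

set_option autoImplicit false

namespace Pool.Agent.LibZM

open MeasureTheory Set Filter Topology Complex ProbabilityTheory
open scoped NNReal ComplexConjugate

variable {α : ℝ}

/-- Upper bound for the weighted twisted second moment. -/
theorem F2_ev (hα : 0 ≤ α) {η : ℝ} (hη : 0 < η) : ∃ C : ℝ, 0 < C ∧ ∀ᶠ q : ℝ × ℝ in Fl η, ∀ (p : ArithmeticFunction ℝ) (Y : ℕ), 
    Adm α q.1 p Y → En (F2 p Y) q.2 (vT (4/5) q.1) (1/2) ≤ C * (q.1 ^ 2 * (Real.log q.1) ^ ((1 + α) ^ 2)) := by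
  obtain ⟨C, hC0, hC⟩ := Q4_ev hα hη (c := 24) (by norm_num)
  refine ⟨16 * Real.exp 24 * C + 8 * Real.exp 24 + C + 1, by positivity, ?_⟩
  filter_upwards [hC, convB_ev hα hη (c := 24) (by norm_num), convD_ev hα hη (c := 24) (by norm_num), Fl_pos hη, 
    (Fl_fst η).eventually (eventually_ge_atTop (Real.exp 1)), 
    (Fl_fst η).eventually ((div_log_tendsto 24).eventually_lt_const (by norm_num : (0:ℝ) < 1/4))] with q hq hB hD hp hqe hcl p Y hA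
  have hT1 : 1 ≤ q.1 := hp.1.le
  have hT0 : 0 < q.1 := by linarith
  have hl1 : 1 ≤ Real.log q.1 := by rw [Real.le_log_iff_exp_le hT0]; exact hqe
  have hl0 : 0 < Real.log q.1 := by linarith
  have hL1 : 1 ≤ (Real.log q.1) ^ ((1 + α) ^ 2) := Real.one_le_rpow hl1 (by positivity)
  have hMT : ((NT (4/5) q.1 : ℕ) : ℝ) ≤ q.1 := NT_le (by norm_num) hT1
  have hδ0 : 0 ≤ 24 / Real.log q.1 := by positivity
  have q0 := hq p Y hA (24 / Real.log q.1) hδ0 le_rfl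
  have q1 := hq p Y hA 0 le_rfl hδ0
  rw [add_zero] at q1
  have t1 := (hA.tri hα hT1 hMT (x := 1/2 + 24 / Real.log q.1) ⟨by linarith, by linarith⟩ q.2 (vT (4/5) q.1)).1
  have t2 := (hA.tri hα hT1 hMT (x := 1/2) ⟨by norm_num, by norm_num⟩ q.2 (vT (4/5) q.1)).2
  have b1 := hB p Y hA
  have d1 := hD p Y hA
  have hED : Real.exp 24 * Real.exp (-(1268/1000 * 24)) ≤ 1/128 := by
    rw [← Real.exp_add]
    have h1 : Real.exp (24 + -(1268/1000 * 24)) ≤ Real.exp (-6) := Real.exp_le_exp.mpr (by norm_num)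
    refine h1.trans ?_
    rw [Real.exp_neg, inv_le_comm₀ (Real.exp_pos _) (by norm_num)]
    have h2 : Real.exp 6 = Real.exp 1 ^ 6 := by rw [← Real.exp_nat_mul]; norm_num
    rw [h2]
    have h3 := Real.exp_one_gt_d9
    calc (1/128 : ℝ)⁻¹ ≤ (27/10:ℝ) ^ 6 := by norm_num
      _ ≤ Real.exp 1 ^ 6 := by gcongr; linarith
  have hT2 : 1 ≤ q.1 ^ 2 := one_le_pow₀ hT1
  have hX : (1:ℝ) ≤ q.1 ^ 2 * (Real.log q.1) ^ ((1 + α) ^ 2) := by nlinarith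
  have hX2 : q.1 ^ 2 ≤ q.1 ^ 2 * (Real.log q.1) ^ ((1 + α) ^ 2) := le_mul_of_one_le_right (by positivity) hL1
  have h := final_alg (Real.exp_pos 24) b1 t1 d1 t2 hED (Real.exp_pos _).le (En_nonneg _ _ _ _) (En_nonneg _ _ _ _) (by positivity)
  obtain ⟨Z, hZ⟩ : ∃ Z : ℝ, Z = q.1 ^ 2 * (Real.log q.1) ^ ((1 + α) ^ 2) := ⟨_, rfl⟩
  rw [← hZ] at q0 q1 hX hX2 ⊢
  have hE := Real.exp_pos 24
  have h5 : 16 * Real.exp 24 * En (Q4 p Y (NT (4/5) q.1)) q.2 (vT (4/5) q.1) (1/2 + 24 / Real.log q.1) ≤ 16 * Real.exp 24 * (C * Z) := by gcongr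
  have h6 : 8 * Real.exp 24 ≤ 8 * Real.exp 24 * Z := le_mul_of_one_le_right (by positivity) hX
  calc En (F2 p Y) q.2 (vT (4/5) q.1) (1/2) ≤ _ := h
    _ ≤ 16 * Real.exp 24 * (C * Z) + 8 * Real.exp 24 * Z + C * Z + Z := by linarith
    _ = _ := by ring

/-- Twisted second moment of zeta with a short divisor-bounded Dirichlet polynomial. -/
theorem zeta_sq_ev (hα : 0 ≤ α) {η : ℝ} (hη : 0 < η) : ∃ C : ℝ, 0 < C ∧ ∀ᶠ q : ℝ × ℝ in Fl η, ∀ (p : ArithmeticFunction ℝ) (Y : ℕ), 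
    Adm α q.1 p Y → 
    Integrable (fun t => ‖riemannZeta (crit t)‖ ^ 2 * ‖dp p Y (crit t)‖ ^ 2) (gaussianReal q.2 (vT (4/5) q.1)) ∧
    ∫ t, ‖riemannZeta (crit t)‖ ^ 2 * ‖dp p Y (crit t)‖ ^ 2 ∂(gaussianReal q.2 (vT (4/5) q.1)) ≤ C * (Real.log q.1) ^ ((1 + α) ^ 2) := by
  obtain ⟨C, hC0, hC⟩ := F2_ev hα hη
  refine ⟨4 * C / η ^ 2 + 1, by positivity, ?_⟩
  filter_upwards [hC, Fl_pos hη, Fl_range η, (Fl_fst η).eventually (eventually_ge_atTop (Real.exp 1)), 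
    (Fl_fst η).eventually (four_le_vT (θ := 4/5) (by norm_num)), RT_le_u hη (by norm_num : (4/5:ℝ) < 1) (by norm_num : (0:ℝ) < 1/2), 
    err_ev hη (by norm_num) (by norm_num : (4/5:ℝ) < 1) 4 2 (A0 := 16 * Ctau α ^ 2) (by positivity)] with q hq hp hr hqe hv hR herr p Y hA
  have hT1 : 1 ≤ q.1 := hp.1.le
  have hT0 : 0 < q.1 := by linarith
  have hu0 : 0 < q.2 := by linarith [hp.2]
  have hv0 : 0 < vT (4/5) q.1 := lt_of_lt_of_le (by norm_num) hv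
  have hl1 : 1 ≤ Real.log q.1 := by rw [Real.le_log_iff_exp_le hT0]; exact hqe
  have hL1 : 1 ≤ (Real.log q.1) ^ ((1 + α) ^ 2) := Real.one_le_rpow hl1 (by positivity)
  have hCt := Ctau_nonneg hα
  have ecrit : ∀ t : ℝ, (((1/2 : ℝ) : ℂ) + t * I) = crit t := fun t => by unfold crit; push_cast; ring
  have hP : ∀ t : ℝ, ‖dp p Y (crit t)‖ ≤ Ctau α * q.1 := fun t => by
    rw [← ecrit]; exact hA.dp_le hα hT1 (by norm_num) t
  have hbd : ∀ t : ℝ, ‖riemannZeta (crit t)‖ ^ 2 * ‖dp p Y (crit t)‖ ^ 2 ≤ (16 * (Ctau α * q.1) ^ 2) * (1 + |t|) ^ 4 := by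
    intro t
    have h1 := norm_zeta_crit_le t
    have h2 := abs_nonneg t
    have h3 : 4 + 2 * |t| ≤ 4 * (1 + |t|) := by linarith
    have h5 : (1 + |t|) ^ 2 ≤ (1 + |t|) ^ 4 := pow_le_pow_right₀ (by linarith) (by norm_num)
    calc ‖riemannZeta (crit t)‖ ^ 2 * ‖dp p Y (crit t)‖ ^ 2 ≤ (4 * (1 + |t|)) ^ 2 * (Ctau α * q.1) ^ 2 := by
          have := h1.trans h3
          have := hP t
          gcongr
      _ = (16 * (Ctau α * q.1) ^ 2) * (1 + |t|) ^ 2 := by ring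
      _ ≤ _ := by gcongr
  have hcont : Continuous (fun t => ‖riemannZeta (crit t)‖ ^ 2 * ‖dp p Y (crit t)‖ ^ 2) := by
    have h1 := continuous_zeta_crit
    have h2 := continuous_dp_crit p Y
    fun_prop
  have hint : Integrable (fun t => ‖riemannZeta (crit t)‖ ^ 2 * ‖dp p Y (crit t)‖ ^ 2) (gaussianReal q.2 (vT (4/5) q.1)) := 
    integrable_poly hcont (A := 16 * (Ctau α * q.1) ^ 2) (k := 4) (fun t => by rw [abs_of_nonneg (by positivity)]; exact hbd t) _ _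
  refine ⟨hint, ?_⟩
  have hx : (1/2:ℝ) ∈ Icc (1/4:ℝ) 9 := ⟨by norm_num, by norm_num⟩
  have hbound := transfer (f := fun t => ‖riemannZeta (crit t)‖ ^ 2 * ‖dp p Y (crit t)‖ ^ 2) 
    (g := fun t : ℝ => ‖F2 p Y (((1/2 : ℝ) : ℂ) + t * I)‖) hu0.le hv0 (R := RT (4/5) q.1) (K := 4 / q.2 ^ 2) (A := 16 * (Ctau α * q.1) ^ 2) (k := 4) 
    (by positivity) (by positivity) hint (hA.int_F2 hα hT1 hx _ _) (fun t => norm_nonneg _) ?_ hbd
  · have herr' := herr (16 * (Ctau α * q.1) ^ 2) (by positivity) (le_of_eq (by ring))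
    have hF := hq p Y hA
    unfold En at hF
    have h6 : 4 / q.2 ^ 2 ≤ 4 / (η * q.1) ^ 2 := by
      have := hr.1
      gcongr
    have h7 : 0 ≤ ∫ t : ℝ, ‖F2 p Y (((1/2 : ℝ) : ℂ) + t * I)‖ ∂(gaussianReal q.2 (vT (4/5) q.1)) := integral_nonneg fun _ => norm_nonneg _
    calc ∫ t, ‖riemannZeta (crit t)‖ ^ 2 * ‖dp p Y (crit t)‖ ^ 2 ∂(gaussianReal q.2 (vT (4/5) q.1)) 
        ≤ 4 / q.2 ^ 2 * (∫ t : ℝ, ‖F2 p Y (((1/2 : ℝ) : ℂ) + t * I)‖ ∂(gaussianReal q.2 (vT (4/5) q.1))) + 1 := by linarith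
      _ ≤ 4 / (η * q.1) ^ 2 * (C * (q.1 ^ 2 * (Real.log q.1) ^ ((1 + α) ^ 2))) + 1 * (Real.log q.1) ^ ((1 + α) ^ 2) := by
          rw [one_mul]
          gcongr
      _ = _ := by field_simp
  · intro t ht
    have h8 : q.2 / 2 ≤ |t| := by
      have : |q.2| ≤ |t| + |t - q.2| := by
        calc |q.2| = |t + -(t - q.2)| := by congr 1; ring
          _ ≤ |t| + |-(t - q.2)| := abs_add_le _ _
          _ = _ := by rw [abs_neg]
      rw [abs_of_nonneg hu0.le] at this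
      linarith
    have h9 := (norm_crit_sub_one t).1
    have h10 : q.2 / 2 ≤ ‖crit t - 1‖ := h8.trans h9
    have e3 : ‖dp p Y (1 - (((1/2 : ℝ) : ℂ) + t * I))‖ = ‖dp p Y (crit t)‖ := by
      rw [ecrit, ← conj_crit, dp_conj, Complex.norm_conj]
    unfold F2 Rf
    rw [norm_mul, norm_mul, norm_pow, e3, zeta1_crit', norm_mul, ecrit]
    obtain ⟨z, hz⟩ : ∃ z : ℝ, z = ‖riemannZeta (crit t)‖ := ⟨_, rfl⟩
    obtain ⟨w, hw⟩ : ∃ w : ℝ, w = ‖crit t - 1‖ := ⟨_, rfl⟩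
    obtain ⟨b, hb⟩ : ∃ b : ℝ, b = ‖dp p Y (crit t)‖ := ⟨_, rfl⟩
    rw [← hz, ← hw, ← hb]
    rw [← hw] at h10
    have h11 : 1 ≤ 4 / q.2 ^ 2 * w ^ 2 := by
      rw [div_mul_eq_mul_div, le_div_iff₀ (by positivity)]
      nlinarith
    calc z ^ 2 * b ^ 2 = 1 * (z ^ 2 * b ^ 2) := by ring
      _ ≤ (4 / q.2 ^ 2 * w ^ 2) * (z ^ 2 * b ^ 2) := by gcongr
      _ = _ := by ring

end Pool.Agent.LibZM

namespace Pool.Agent.LibZD46

open MeasureTheory Set Filter Topology Complex ProbabilityTheory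
open scoped NNReal ComplexConjugate
open Pool.Agent.LibZM

theorem zeta_sq_upper {α : ℝ} (hα : 0 ≤ α) {y : ℝ} (_hy0 : 0 < y) (hy : y ≤ 1/100) {η : ℝ} (hη : 0 < η) :
    ∃ C : ℝ, 0 < C ∧ ∀ᶠ q : ℝ × ℝ in Fl η, ∀ p : ArithmeticFunction ℝ, (∀ n, 0 ≤ p n) → (∀ n, p n ≤ tau α n) →
      ∀ Y : ℕ, (Y:ℝ) ≤ q.1 ^ y → SuppLe p Y →
      Integrable (fun t => ‖riemannZeta (crit t)‖ ^ 2 * ‖dp p Y (crit t)‖ ^ 2) (gaussianReal q.2 (vT (4/5) q.1)) ∧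
      ∫ t, ‖riemannZeta (crit t)‖ ^ 2 * ‖dp p Y (crit t)‖ ^ 2 ∂(gaussianReal q.2 (vT (4/5) q.1)) ≤ 
        C * (Real.log q.1) ^ ((1 + α) ^ 2) := by
  obtain ⟨C, hC0, hC⟩ := zeta_sq_ev hα hη
  refine ⟨C, hC0, ?_⟩
  filter_upwards [hC, Fl_pos hη] with q hq hp p hp0 hpt Y hY hs
  exact hq p Y ⟨hp0, hpt, hs, hY.trans (Real.rpow_le_rpow_of_exponent_le hp.1.le hy)⟩

end Pool.Agent.LibZD46
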